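import Mathlib

/-! Module MKG/Ext (definitions only). -/

namespace Pool.Agent.MKG

/-- Every pair of homomorphisms extends. -/
def Ext2 {G₁ G₂ G : Type} [Group G₁] [Group G₂] [Group G] (k : G₁ →* G) (j : G₂ →* G) : Prop :=
  ∀ (Γ : Type) [Group Γ] (φ : G₁ →* Γ) (ψ : G₂ →* Γ),
    ∃ Φ : G →* Γ, (∀ x, Φ (k x) = φ x) ∧ ∀ y, Φ (j y) = ψ y

/-- The iterated factors. -/
def it {G₁ G₂ G : Type} [Group G₁] [Group G₂] [Group G] (k : G₁ →* G) (j : G₂ →* G)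
    (e : G ≃* G₂) : ℕ → G₁ →* G
  | 0 => k
  | i + 1 => (j.comp e.toMonoidHom).comp (it k j e i)

end Pool.Agent.MKG
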