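import Mathlib

/-! Module MKG/InfOrder. An element of infinite order in a free product. -/

namespace Pool.Agent.MKG

open Monoid.CoprodI

theorem inf_order {G₁ : Type} [Group G₁] {a : G₁} (ha : a ≠ 1) :
    ∀ r : ℕ, 0 < r → ((Monoid.CoprodI.of (M := fun _ : Bool => G₁) (i := true) a) *
      Monoid.CoprodI.of (M := fun _ : Bool => G₁) (i := false) a) ^ r ≠ 1 := by
  classical
  -- the reduced words
  have hw : ∀ r : ℕ, ∃ w : NeWord (fun _ : Bool => G₁) true false,
      w.prod = ((Monoid.CoprodI.of (M := fun _ : Bool => G₁) (i := true) a) *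
      Monoid.CoprodI.of (M := fun _ : Bool => G₁) (i := false) a) ^ (r + 1) := by
    intro r
    induction r with
    | zero =>
      refine ⟨NeWord.append (NeWord.singleton (i := true) a ha) (by decide)
        (NeWord.singleton (i := false) a ha), ?_⟩
      rw [NeWord.append_prod, NeWord.prod_singleton, NeWord.prod_singleton]
      simp
    | succ r ih =>
      obtain ⟨w, hw⟩ := ih
      refine ⟨NeWord.append (NeWord.append (NeWord.singleton (i := true) a ha) (by decide)
        (NeWord.singleton (i := false) a ha)) (by decide) w, ?_⟩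
      rw [NeWord.append_prod, NeWord.append_prod, NeWord.prod_singleton, NeWord.prod_singleton,
        hw, pow_succ' _ (r + 1)]
  intro r hr h1
  obtain ⟨r, rfl⟩ : ∃ k, r = k + 1 := ⟨r - 1, by omega⟩
  obtain ⟨w, hw⟩ := hw r
  rw [h1] at hw
  have h2 : w.toWord = Word.empty := by
    have h3 : w.toWord.prod = (Word.empty : Word (fun _ : Bool => G₁)).prod := by
      rw [Word.prod_empty]
      exact hw
    exact Word.equiv.symm.injective h3
  have h4 : w.toList = [] := by
    have := congrArg Word.toList h2
    exact this
  exact NeWord.toList_ne_nil w h4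

end Pool.Agent.MKG
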