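import Pool.Agent.MKG.Gen
import Pool.Agent.MKG.Ext
import Pool.Agent.MKG.InfOrder

/-! Module MKG/Factor. A finitely generated group has no proper free complement isomorphic to
itself.

`Ext2 k j`: every pair of homomorphisms extends.
`iter`: ι 0 = k, ι (i + 1) = j ∘ e ∘ ι i. By induction on N: for φ : ℕ → (G₁ →* Γ) there is Φ with
Φ (ι i x) = φ i x for all i < N: let Φ' be the extension of i ↦ φ (i + 1) for N - 1, ψ = Φ' ∘ e⁻¹ : G₂ → Γ, and Φ the
extension of (φ 0, ψ).
`factor_trivial`: suppose a ≠ 1 in G₁. s : Fin n → G generators (transport from G₂ by e: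
`Group.FG` gives a finite generating set). m = n + 1; K as above, ι' i = lift (ι (2 i), ι (2 i + 1)) : K →* G
(`Monoid.CoprodI.lift` with Bool.rec). Extension: φ i : K →* Γ gives φ i ∘ of true, φ i ∘ of false at the places 2 i,
2 i + 1; use `iter` and `Monoid.CoprodI.ext_hom`. `gen_bound` gives n + 1 ≤ n.
-/

namespace Pool.Agent.MKG

theorem iter {G₁ G₂ G : Type} [Group G₁] [Group G₂] [Group G] {k : G₁ →* G} {j : G₂ →* G}
    (h : Ext2 k j) (e : G ≃* G₂) (N : ℕ) :
    ∀ (Γ : Type) [Group Γ] (φ : ℕ → G₁ →* Γ),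
      ∃ Φ : G →* Γ, ∀ i < N, ∀ x, Φ (it k j e i x) = φ i x := by
  induction N with
  | zero =>
    intro Γ _ φ
    exact ⟨1, fun i hi => absurd hi (Nat.not_lt_zero i)⟩
  | succ N ih =>
    intro Γ _ φ
    obtain ⟨Φ', hΦ'⟩ := ih Γ (fun i => φ (i + 1))
    obtain ⟨Φ, h1, h2⟩ := h Γ (φ 0) (Φ'.comp e.symm.toMonoidHom)
    refine ⟨Φ, fun i hi x => ?_⟩
    cases i with
    | zero => exact h1 x
    | succ i =>
      have h3 : it k j e (i + 1) x = j (e (it k j e i x)) := rfl
      rw [h3, h2]
      have h4 : (Φ'.comp e.symm.toMonoidHom) (e (it k j e i x)) = Φ' (e.symm (e (it k j e i x))) := rfl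
      rw [h4, MulEquiv.symm_apply_apply]
      exact hΦ' i (by omega) x

theorem factor_trivial {G₁ G₂ G : Type} [Group G₁] [Group G₂] [Group G] {k : G₁ →* G}
    {j : G₂ →* G} (h : Ext2 k j) (e : G ≃* G₂) (hfg : Group.FG G₂) : Subsingleton G₁ := by
  by_contra hns
  have hex : ∃ a : G₁, a ≠ 1 := by
    by_contra hall
    push Not at hall
    exact hns ⟨fun a b => by rw [hall a, hall b]⟩
  obtain ⟨a, ha⟩ := hex
  have hfgG : Group.FG G :=
    Group.fg_of_surjective (f := e.symm.toMonoidHom) e.symm.surjective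
  obtain ⟨n, S, hcard, hS⟩ := Group.fg_iff'.1 hfgG
  subst hcard
  have hrange : Set.range (fun i : Fin S.card => (S.equivFin.symm i : G)) = (S : Set G) := by
    ext x
    constructor
    · rintro ⟨i, rfl⟩
      exact (S.equivFin.symm i).2
    · intro hx
      exact ⟨S.equivFin ⟨x, hx⟩, by simp⟩
  have hgen : Subgroup.closure (Set.range (fun i : Fin S.card => (S.equivFin.symm i : G))) = ⊤ := by
    rw [hrange]
    exact hS
  let ι : Fin (S.card + 1) → Monoid.CoprodI (fun _ : Bool => G₁) →* G := fun i =>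
    Monoid.CoprodI.lift (fun b : Bool => cond b (it k j e (2 * (i : ℕ))) (it k j e (2 * (i : ℕ) + 1)))
  have hext : ∀ (Γ : Type) [Group Γ] (φ : Fin (S.card + 1) → Monoid.CoprodI (fun _ : Bool => G₁) →* Γ),
      ∃ Φ : G →* Γ, ∀ i x, Φ (ι i x) = φ i x := by
    intro Γ _ φ
    obtain ⟨Φ, hΦ⟩ := iter h e (2 * (S.card + 1)) Γ (fun t =>
      if ht : t / 2 < S.card + 1 then
        (φ ⟨t / 2, ht⟩).comp (Monoid.CoprodI.of (M := fun _ : Bool => G₁) (i := decide (t % 2 = 0)))
      else 1)
    refine ⟨Φ, fun i => ?_⟩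
    have key : Φ.comp (ι i) = φ i := by
      apply Monoid.CoprodI.ext_hom
      intro b
      ext x
      have hi := i.2
      cases b
      · have h1 := hΦ (2 * (i : ℕ) + 1) (by omega) x
        have e1 : (2 * (i : ℕ) + 1) / 2 = i := by omega
        have e2 : (2 * (i : ℕ) + 1) % 2 = 1 := by omega
        have h2 : (Φ.comp (ι i)) (Monoid.CoprodI.of (M := fun _ : Bool => G₁) (i := false) x) =
            Φ (it k j e (2 * (i : ℕ) + 1) x) := by
          show Φ (Monoid.CoprodI.lift (fun b : Bool =>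
            cond b (it k j e (2 * (i : ℕ))) (it k j e (2 * (i : ℕ) + 1))) (Monoid.CoprodI.of x)) = _
          rw [Monoid.CoprodI.lift_of]
          rfl
        show (Φ.comp (ι i)) (Monoid.CoprodI.of (M := fun _ : Bool => G₁) (i := false) x) =
          (φ i) (Monoid.CoprodI.of (M := fun _ : Bool => G₁) (i := false) x)
        rw [h2, h1]
        have e3 : (⟨(2 * (i : ℕ) + 1) / 2, by omega⟩ : Fin (S.card + 1)) = i := Fin.ext e1
        rw [dif_pos (by omega), e3]
        have e4 : decide ((2 * (i : ℕ) + 1) % 2 = 0) = false := by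
          rw [e2]
          rfl
        rw [e4]
        rfl
      · have h1 := hΦ (2 * (i : ℕ)) (by omega) x
        have e1 : (2 * (i : ℕ)) / 2 = i := by omega
        have e2 : (2 * (i : ℕ)) % 2 = 0 := by omega
        have h2 : (Φ.comp (ι i)) (Monoid.CoprodI.of (M := fun _ : Bool => G₁) (i := true) x) =
            Φ (it k j e (2 * (i : ℕ)) x) := by
          show Φ (Monoid.CoprodI.lift (fun b : Bool =>
            cond b (it k j e (2 * (i : ℕ))) (it k j e (2 * (i : ℕ) + 1))) (Monoid.CoprodI.of x)) = _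
          rw [Monoid.CoprodI.lift_of]
          rfl
        show (Φ.comp (ι i)) (Monoid.CoprodI.of (M := fun _ : Bool => G₁) (i := true) x) =
          (φ i) (Monoid.CoprodI.of (M := fun _ : Bool => G₁) (i := true) x)
        rw [h2, h1]
        have e3 : (⟨(2 * (i : ℕ)) / 2, by omega⟩ : Fin (S.card + 1)) = i := Fin.ext e1
        rw [dif_pos (by omega), e3]
        have e4 : decide ((2 * (i : ℕ)) % 2 = 0) = true := by
          rw [e2]
          rfl
        rw [e4]
        rfl
    intro x
    rw [← key]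
    rfl
  have := gen_bound _ hgen ι hext _ (inf_order ha)
  omega

end Pool.Agent.MKG
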