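import Pool.Agent.DT70.Univ

/-! Module MKG/PiFG. Edge path groups of finite complexes are finitely generated.

By induction over `EP X L u w g`, g is in the closure of the finite set
`{L u w | u, w in a common face of X}`. For u = w = o this is every g (`Univ.gen`).
-/

namespace Pool.Agent.MKG

open Pool.Agent.DT70

theorem univ_fg {X : Set (Finset ℕ)} (hX : X.Finite) {o : ℕ} {G : Type} [Group G]
    {L : ℕ → ℕ → G} (h : Univ X o G L) : Group.FG G := by
  have hfin : (⋃ s ∈ X, Set.image2 L (s : Set ℕ) (s : Set ℕ)).Finite :=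
    hX.biUnion fun s _ => Set.Finite.image2 L s.finite_toSet s.finite_toSet
  have key : ∀ (u w : ℕ) (g : G), EP X L u w g →
      g ∈ Subgroup.closure (⋃ s ∈ X, Set.image2 L (s : Set ℕ) (s : Set ℕ)) := by
    intro u w g hg
    induction hg with
    | nil u => exact one_mem _
    | cons s hs hu hv _ ih =>
      refine mul_mem (Subgroup.subset_closure ?_) ih
      exact Set.mem_biUnion hs (Set.mem_image2_of_mem hu hv)
  rw [Group.fg_iff]
  refine ⟨_, ?_, hfin⟩
  rw [eq_top_iff]
  intro g _
  exact key o o g (h.gen g)

end Pool.Agent.MKG
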