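import Pool.Agent.DT70.SumAlg
import Pool.Agent.MKG.Ext

/-! Module MKG/SumEP. The edge path group of a connected sum has the universal property of the free
product (existence part).

This is the proof of `sum_alg` in DT70/SumAlg.lean; copy it (its auxiliary lemmas and the definition
`sag` are private, copy them too, under new names) and replace (L₁, 1), (1, L₂) by (φ ∘ L₁, ψ ∘ L₂): these
are cocycles, trivial on a and b; `hU.univ Γ (sag VK VL (φ ∘ L₁) (ψ ∘ L₂))` gives Φ and a gauge f equal to 1 on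
the list. For edges of K₀ ∪ {a}: Φ (L u w) = (f u)⁻¹ * φ (L₁ u w) * f w, so
(Φ ∘ k) (L₁ u w) = (f u * Φ (d u))⁻¹ * φ (L₁ u w) * (f w * Φ (d w)), and `ep_eq` for the two homomorphisms Φ ∘ k and
φ, at a vertex of a, where the gauges are 1, gives Φ (k x) = φ x. Same for j.
-/

namespace Pool.Agent.MKG

open Pool.Agent.DT70

open Classical in
/-- the glued cocycle -/
noncomputable def sagE (VK VL : ℕ → Prop) {Γ : Type} [Group Γ] (c₁ c₂ : ℕ → ℕ → Γ)
    (u w : ℕ) : Γ :=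
  if VK u ∧ VK w then c₁ u w else if VL u ∧ VL w then c₂ u w else 1

theorem sagE_K {VK VL : ℕ → Prop} {Γ : Type} [Group Γ] {c₁ c₂ : ℕ → ℕ → Γ}
    {u w : ℕ} (hu : VK u) (hw : VK w) : sagE VK VL c₁ c₂ u w = c₁ u w := if_pos ⟨hu, hw⟩

theorem sagE_L {VK VL : ℕ → Prop} {Γ : Type} [Group Γ] {c₁ c₂ : ℕ → ℕ → Γ}
    (hd : ∀ u, VK u → ¬ VL u) {u w : ℕ} (hu : VL u) (hw : VL w) :
    sagE VK VL c₁ c₂ u w = c₂ u w := by
  unfold sagE
  rw [if_neg (fun h => hd u h.1 hu), if_pos ⟨hu, hw⟩]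

theorem sagE_one {VK VL : ℕ → Prop} {Γ : Type} [Group Γ] {c₁ c₂ : ℕ → ℕ → Γ}
    {u w : ℕ} (h1 : VK u → VK w → c₁ u w = 1) (h2 : VL u → VL w → c₂ u w = 1) :
    sagE VK VL c₁ c₂ u w = 1 := by
  unfold sagE
  split_ifs with h h'
  · exact h1 h.1 h.2
  · exact h2 h'.1 h'.2
  · rfl

/-- induction over edge paths -/
theorem epE_conj {X : Set (Finset ℕ)} {G Γ : Type} [Group G] [Group Γ] {L : ℕ → ℕ → G}
    (θ : G →* Γ) (N : Subgroup Γ) (D : ℕ → Γ)
    (h : ∀ s ∈ X, ∀ u ∈ s, ∀ w ∈ s, (D u)⁻¹ * θ (L u w) * D w ∈ N) {u w : ℕ} {g : G}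
    (hg : EP X L u w g) : (D u)⁻¹ * θ g * D w ∈ N := by
  induction hg with
  | nil u =>
    rw [map_one, mul_one, inv_mul_cancel]
    exact N.one_mem
  | cons s hs hu hv _ ih =>
    have h1 := N.mul_mem (h s hs _ hu _ hv) ih
    rw [map_mul]
    convert h1 using 1
    group

/-- a homomorphism which is a gauge transformation of another one on the edges -/
theorem epE_eq {X : Set (Finset ℕ)} {G Γ : Type} [Group G] [Group Γ] {L : ℕ → ℕ → G}
    (θ η : G →* Γ) (φ : ℕ → Γ)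
    (h : ∀ s ∈ X, ∀ u ∈ s, ∀ w ∈ s, θ (L u w) = (φ u)⁻¹ * η (L u w) * φ w) {u w : ℕ} {g : G}
    (hg : EP X L u w g) : θ g = (φ u)⁻¹ * η g * φ w := by
  induction hg with
  | nil u => rw [map_one, map_one, mul_one, inv_mul_cancel]
  | cons s hs hu hv _ ih =>
    rw [map_mul, map_mul, h s hs _ hu _ hv, ih]
    group

theorem fiveE_ne {a : List ℕ} (ha : a.length = 5) (hn : a.Nodup) (u v : ℕ) :
    ∃ x ∈ a, x ≠ u ∧ x ≠ v := by
  have h1 : a.toFinset.card = 5 := by rw [List.toFinset_card_of_nodup hn, ha]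
  have h2 : ((a.toFinset.erase u).erase v).Nonempty := by
    rw [← Finset.card_pos]
    have h3 := Finset.pred_card_le_card_erase (s := a.toFinset) (a := u)
    have h4 := Finset.pred_card_le_card_erase (s := a.toFinset.erase u) (a := v)
    omega
  obtain ⟨x, hx⟩ := h2
  rw [Finset.mem_erase, Finset.mem_erase, List.mem_toFinset] at hx
  exact ⟨x, hx.2.2, hx.2.1, hx.1⟩

theorem sum_ep {K₀ L₀ : Set (Finset ℕ)} {a p b : List ℕ} (ha : a.length = 5)
    (hp : p.length = 5) (hb : b.length = 5) (hn : (a ++ (p ++ b)).Nodup)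
    (h1 : ∀ s ∈ K₀, ∀ v ∈ s, v ∉ p ∧ v ∉ b) (h2 : ∀ s ∈ L₀, ∀ v ∈ s, v ∉ p ∧ v ∉ a)
    (h3 : ∀ s ∈ K₀, ∀ t ∈ L₀, ∀ v ∈ s, v ∉ t)
    {G₁ G₂ G : Type} [Group G₁] [Group G₂] [Group G] {L₁ : ℕ → ℕ → G₁} {L₂ : ℕ → ℕ → G₂}
    {L : ℕ → ℕ → G}
    (h1U : UnivT (K₀ ∪ {a.toFinset}) {v | v ∈ a.toFinset} G₁ L₁)
    (h2U : UnivT (L₀ ∪ {b.toFinset}) {v | v ∈ b.toFinset} G₂ L₂)
    (hU : UnivT (K₀ ∪ (fs (tube (a ++ (p ++ b))) ∪ L₀)) {v | v ∈ a ++ (p ++ b)} G L) :
    ∃ (k : G₁ →* G) (j : G₂ →* G), Ext2 k j ∧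
      Subgroup.closure (Set.range k ∪ Set.range j) = ⊤ := by
  classical
  have hna : a.Nodup := (List.nodup_append.1 hn).1
  have hnpb : (p ++ b).Nodup := (List.nodup_append.1 hn).2.1
  have hnb : b.Nodup := (List.nodup_append.1 hnpb).2.1
  have hab : ∀ v ∈ a, v ∉ b := fun v hv hv' =>
    (List.nodup_append.1 hn).2.2 v hv v (List.mem_append_right _ hv') rfl
  have hne : ∃ o, o ∈ a := by
    obtain ⟨x, hx, -⟩ := fiveE_ne ha hna 0 0
    exact ⟨x, hx⟩
  have hneb : ∃ o, o ∈ b := by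
    obtain ⟨x, hx, -⟩ := fiveE_ne hb hnb 0 0
    exact ⟨x, hx⟩
  -- L is trivial on a and b
  have hLa : ∀ u ∈ a, ∀ v ∈ a, L u v = 1 := by
    intro u hu v hv
    obtain ⟨x, hx, hxu, hxv⟩ := fiveE_ne ha hna u v
    obtain ⟨t, ht, hst⟩ := bd_left ha hp hb hn (a.toFinset.erase x)
      ⟨x, List.mem_toFinset.2 hx, rfl⟩
    exact hU.triv t (Or.inr (Or.inl ht)) u
      (hst (Finset.mem_erase.2 ⟨hxu.symm, List.mem_toFinset.2 hu⟩)) v
      (hst (Finset.mem_erase.2 ⟨hxv.symm, List.mem_toFinset.2 hv⟩))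
      (List.mem_append_left _ hu) (List.mem_append_left _ hv)
  have hLb : ∀ u ∈ b, ∀ v ∈ b, L u v = 1 := by
    intro u hu v hv
    obtain ⟨x, hx, hxu, hxv⟩ := fiveE_ne hb hnb u v
    obtain ⟨t, ht, hst⟩ := bd_right ha hp hb hn (b.toFinset.erase x)
      ⟨x, List.mem_toFinset.2 hx, rfl⟩
    exact hU.triv t (Or.inr (Or.inl ht)) u
      (hst (Finset.mem_erase.2 ⟨hxu.symm, List.mem_toFinset.2 hu⟩)) v
      (hst (Finset.mem_erase.2 ⟨hxv.symm, List.mem_toFinset.2 hv⟩))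
      (List.mem_append_right _ (List.mem_append_right _ hu))
      (List.mem_append_right _ (List.mem_append_right _ hv))
  -- (R1)
  have hcoc1 : Coc (K₀ ∪ {a.toFinset}) L := by
    rintro s (hs | hs) u hu v hv w hw
    · exact hU.coc s (Or.inl hs) u hu v hv w hw
    · rw [Set.mem_singleton_iff] at hs
      subst hs
      rw [List.mem_toFinset] at hu hv hw
      rw [hLa u hu v hv, hLa v hv w hw, hLa u hu w hw, mul_one]
  have hcoc2 : Coc (L₀ ∪ {b.toFinset}) L := by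
    rintro s (hs | hs) u hu v hv w hw
    · exact hU.coc s (Or.inr (Or.inr hs)) u hu v hv w hw
    · rw [Set.mem_singleton_iff] at hs
      subst hs
      rw [List.mem_toFinset] at hu hv hw
      rw [hLb u hu v hv, hLb v hv w hw, hLb u hu w hw, mul_one]
  have htri1 : Triv (K₀ ∪ {a.toFinset}) {v | v ∈ a.toFinset} L := by
    intro s _ u _ w _ hu hw
    exact hLa u (List.mem_toFinset.1 hu) w (List.mem_toFinset.1 hw)
  have htri2 : Triv (L₀ ∪ {b.toFinset}) {v | v ∈ b.toFinset} L := by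
    intro s _ u _ w _ hu hw
    exact hLb u (List.mem_toFinset.1 hu) w (List.mem_toFinset.1 hw)
  -- (R2)
  set VK : ℕ → Prop := fun u => (∃ s ∈ K₀, u ∈ s) ∨ u ∈ a with hVK
  set VL : ℕ → Prop := fun u => (∃ s ∈ L₀, u ∈ s) ∨ u ∈ b with hVL
  have hdis : ∀ u, VK u → ¬ VL u := by
    rintro u (⟨s, hs, hu⟩ | hu) (⟨t, ht, hu'⟩ | hu')
    · exact h3 s hs t ht u hu hu'
    · exact (h1 s hs u hu).2 hu'
    · exact (h2 t ht u hu').2 hu
    · exact hab u hu hu'
  have hVKW : ∀ u, u ∈ a ++ (p ++ b) → VK u → u ∈ a := by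
    rintro u hu (⟨s, hs, hu'⟩ | hu')
    · rw [List.mem_append, List.mem_append] at hu
      rcases hu with hu | hu | hu
      · exact hu
      · exact absurd hu (h1 s hs u hu').1
      · exact absurd hu (h1 s hs u hu').2
    · exact hu'
  have hVLW : ∀ u, u ∈ a ++ (p ++ b) → VL u → u ∈ b := by
    rintro u hu (⟨s, hs, hu'⟩ | hu')
    · rw [List.mem_append, List.mem_append] at hu
      rcases hu with hu | hu | hu
      · exact absurd hu (h2 s hs u hu').2
      · exact absurd hu (h2 s hs u hu').1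
      · exact hu
    · exact hu'
  have hTW : ∀ s ∈ fs (tube (a ++ (p ++ b))), ∀ u ∈ s, u ∈ a ++ (p ++ b) := by
    rintro s ⟨F, hF, rfl⟩ u hu
    exact (tube_mem hn hF).2.2 u (List.mem_toFinset.1 hu)
  have hW1 : ∀ {Γ : Type} [Group Γ] (c₁ c₂ : ℕ → ℕ → Γ),
      Triv (K₀ ∪ {a.toFinset}) {v | v ∈ a.toFinset} c₁ →
      Triv (L₀ ∪ {b.toFinset}) {v | v ∈ b.toFinset} c₂ →
      ∀ u ∈ a ++ (p ++ b), ∀ w ∈ a ++ (p ++ b), sagE VK VL c₁ c₂ u w = 1 := by
    intro Γ _ c₁ c₂ ht1 ht2 u hu w hw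
    apply sagE_one
    · intro h h'
      have hu' := List.mem_toFinset.2 (hVKW u hu h)
      have hw' := List.mem_toFinset.2 (hVKW w hw h')
      exact ht1 a.toFinset (Or.inr rfl) u hu' w hw' hu' hw'
    · intro h h'
      have hu' := List.mem_toFinset.2 (hVLW u hu h)
      have hw' := List.mem_toFinset.2 (hVLW w hw h')
      exact ht2 b.toFinset (Or.inr rfl) u hu' w hw' hu' hw'
  have hR2 : ∀ {Γ : Type} [Group Γ] (c₁ c₂ : ℕ → ℕ → Γ), Coc (K₀ ∪ {a.toFinset}) c₁ →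
      Coc (L₀ ∪ {b.toFinset}) c₂ →
      Triv (K₀ ∪ {a.toFinset}) {v | v ∈ a.toFinset} c₁ →
      Triv (L₀ ∪ {b.toFinset}) {v | v ∈ b.toFinset} c₂ →
      Coc (K₀ ∪ (fs (tube (a ++ (p ++ b))) ∪ L₀)) (sagE VK VL c₁ c₂) := by
    rintro Γ _ c₁ c₂ hc1 hc2 ht1 ht2 s (hs | hs | hs) u hu v hv w hw
    · have hu' : VK u := Or.inl ⟨s, hs, hu⟩
      have hv' : VK v := Or.inl ⟨s, hs, hv⟩
      have hw' : VK w := Or.inl ⟨s, hs, hw⟩
      rw [sagE_K hu' hv', sagE_K hv' hw', sagE_K hu' hw']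
      exact hc1 s (Or.inl hs) u hu v hv w hw
    · have hu' := hTW s hs u hu
      have hv' := hTW s hs v hv
      have hw' := hTW s hs w hw
      rw [hW1 c₁ c₂ ht1 ht2 u hu' v hv', hW1 c₁ c₂ ht1 ht2 v hv' w hw',
        hW1 c₁ c₂ ht1 ht2 u hu' w hw', mul_one]
    · have hu' : VL u := Or.inl ⟨s, hs, hu⟩
      have hv' : VL v := Or.inl ⟨s, hs, hv⟩
      have hw' : VL w := Or.inl ⟨s, hs, hw⟩
      rw [sagE_L hdis hu' hv', sagE_L hdis hv' hw', sagE_L hdis hu' hw']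
      exact hc2 s (Or.inl hs) u hu v hv w hw
  have hR2t : ∀ {Γ : Type} [Group Γ] (c₁ c₂ : ℕ → ℕ → Γ),
      Triv (K₀ ∪ {a.toFinset}) {v | v ∈ a.toFinset} c₁ →
      Triv (L₀ ∪ {b.toFinset}) {v | v ∈ b.toFinset} c₂ →
      Triv (K₀ ∪ (fs (tube (a ++ (p ++ b))) ∪ L₀)) {v | v ∈ a ++ (p ++ b)}
        (sagE VK VL c₁ c₂) := by
    intro Γ _ c₁ c₂ ht1 ht2 s _ u _ w _ hu hw
    exact hW1 c₁ c₂ ht1 ht2 u hu w hw
  obtain ⟨k, d, hd1, hk⟩ := h1U.univ G L hcoc1 htri1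
  obtain ⟨j, e, he1, hj⟩ := h2U.univ G L hcoc2 htri2
  obtain ⟨o, ho⟩ := hne
  obtain ⟨o', ho'⟩ := hneb
  refine ⟨k, j, ?_, ?_⟩
  · intro Γ _ φ ψ
    have hc1 : Coc (K₀ ∪ {a.toFinset}) (fun u w => φ (L₁ u w)) := by
      intro s hs u hu v hv w hw
      show φ (L₁ u v) * φ (L₁ v w) = φ (L₁ u w)
      rw [← map_mul, h1U.coc s hs u hu v hv w hw]
    have hc2 : Coc (L₀ ∪ {b.toFinset}) (fun u w => ψ (L₂ u w)) := by
      intro s hs u hu v hv w hw
      show ψ (L₂ u v) * ψ (L₂ v w) = ψ (L₂ u w)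
      rw [← map_mul, h2U.coc s hs u hu v hv w hw]
    have ht1 : Triv (K₀ ∪ {a.toFinset}) {v | v ∈ a.toFinset} (fun u w => φ (L₁ u w)) := by
      intro s hs u hu w hw hu' hw'
      show φ (L₁ u w) = 1
      rw [h1U.triv s hs u hu w hw hu' hw', map_one]
    have ht2 : Triv (L₀ ∪ {b.toFinset}) {v | v ∈ b.toFinset} (fun u w => ψ (L₂ u w)) := by
      intro s hs u hu w hw hu' hw'
      show ψ (L₂ u w) = 1
      rw [h2U.triv s hs u hu w hw hu' hw', map_one]
    obtain ⟨Φ, f, hf1, hΦ⟩ := hU.univ Γ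
      (sagE VK VL (fun u w => φ (L₁ u w)) (fun u w => ψ (L₂ u w)))
      (hR2 _ _ hc1 hc2 ht1 ht2) (hR2t _ _ ht1 ht2)
    have hΦ1 : ∀ s ∈ K₀ ∪ {a.toFinset}, ∀ u ∈ s, ∀ w ∈ s,
        Φ (L u w) = (f u)⁻¹ * φ (L₁ u w) * f w := by
      rintro s (hs | hs) u hu w hw
      · rw [hΦ s (Or.inl hs) u hu w hw, sagE_K (Or.inl ⟨s, hs, hu⟩) (Or.inl ⟨s, hs, hw⟩)]
      · rw [Set.mem_singleton_iff] at hs
        subst hs
        have hu' := List.mem_toFinset.1 hu
        have hw' := List.mem_toFinset.1 hw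
        rw [hLa u hu' w hw', h1U.triv a.toFinset (Or.inr rfl) u hu w hw hu hw,
          hf1 u (List.mem_append_left _ hu'), hf1 w (List.mem_append_left _ hw'), map_one]
        simp
    have hΦ2 : ∀ s ∈ L₀ ∪ {b.toFinset}, ∀ u ∈ s, ∀ w ∈ s,
        Φ (L u w) = (f u)⁻¹ * ψ (L₂ u w) * f w := by
      rintro s (hs | hs) u hu w hw
      · rw [hΦ s (Or.inr (Or.inr hs)) u hu w hw,
          sagE_L hdis (Or.inl ⟨s, hs, hu⟩) (Or.inl ⟨s, hs, hw⟩)]
      · rw [Set.mem_singleton_iff] at hs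
        subst hs
        have hu' := List.mem_toFinset.1 hu
        have hw' := List.mem_toFinset.1 hw
        rw [hLb u hu' w hw', h2U.triv b.toFinset (Or.inr rfl) u hu w hw hu hw,
          hf1 u (List.mem_append_right _ (List.mem_append_right _ hu')),
          hf1 w (List.mem_append_right _ (List.mem_append_right _ hw')), map_one]
        simp
    refine ⟨Φ, ?_, ?_⟩
    · intro x
      have hx := h1U.gen o (List.mem_toFinset.2 ho) x
      have := epE_eq (Φ.comp k) φ (fun u => f u * Φ (d u)) (fun s hs u hu w hw => by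
        rw [MonoidHom.comp_apply, hk s hs u hu w hw, map_mul, map_mul, map_inv,
          hΦ1 s hs u hu w hw]
        group) hx
      rw [MonoidHom.comp_apply, hf1 o (List.mem_append_left _ ho),
        hd1 o (List.mem_toFinset.2 ho)] at this
      simpa using this
    · intro x
      have hx := h2U.gen o' (List.mem_toFinset.2 ho') x
      have := epE_eq (Φ.comp j) ψ (fun u => f u * Φ (e u)) (fun s hs u hu w hw => by
        rw [MonoidHom.comp_apply, hj s hs u hu w hw, map_mul, map_mul, map_inv,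
          hΦ2 s hs u hu w hw]
        group) hx
      rw [MonoidHom.comp_apply,
        hf1 o' (List.mem_append_right _ (List.mem_append_right _ ho')),
        he1 o' (List.mem_toFinset.2 ho')] at this
      simpa using this
  · rw [Subgroup.eq_top_iff']
    intro g
    set D : ℕ → G := fun u => if VK u then d u else if VL u then e u else 1 with hD
    have hDW : ∀ u ∈ a ++ (p ++ b), D u = 1 := by
      intro u hu
      simp only [hD]
      split_ifs with h h'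
      · exact hd1 u (List.mem_toFinset.2 (hVKW u hu h))
      · exact he1 u (List.mem_toFinset.2 (hVLW u hu h'))
      · rfl
    have hDK : ∀ u, VK u → D u = d u := fun u hu => if_pos hu
    have hDL : ∀ u, VL u → D u = e u := by
      intro u hu
      simp only [hD]
      rw [if_neg (fun h => hdis u h hu), if_pos hu]
    have hx := hU.gen o (List.mem_append_left _ ho) g
    have := epE_conj (MonoidHom.id G) (Subgroup.closure (Set.range k ∪ Set.range j)) D (by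
      rintro s (hs | hs | hs) u hu w hw
      · rw [MonoidHom.id_apply, hDK u (Or.inl ⟨s, hs, hu⟩), hDK w (Or.inl ⟨s, hs, hw⟩),
          ← hk s (Or.inl hs) u hu w hw]
        exact Subgroup.subset_closure (Or.inl ⟨_, rfl⟩)
      · have hu' := hTW s hs u hu
        have hw' := hTW s hs w hw
        rw [MonoidHom.id_apply, hDW u hu', hDW w hw',
          hU.triv s (Or.inr (Or.inl hs)) u hu w hw hu' hw']
        simp
      · rw [MonoidHom.id_apply, hDL u (Or.inl ⟨s, hs, hu⟩), hDL w (Or.inl ⟨s, hs, hw⟩),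
          ← hj s (Or.inl hs) u hu w hw]
        exact Subgroup.subset_closure (Or.inr ⟨_, rfl⟩)) hx
    rw [MonoidHom.id_apply, hDW o (List.mem_append_left _ ho)] at this
    simpa using this

end Pool.Agent.MKG
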