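import Pool.Agent.DT70.SumAlg
import Pool.Agent.DT70.Sum
import Pool.Agent.MKG.SumEP
import Pool.Agent.MKG.PiFG
import Pool.Agent.MKG.Factor

/-! Module MKG/SCAll. If A is simply connected and K # R is PL homeomorphic to A # R, then K is
simply connected (no condition on R). Same proof as DT70/SC.lean, with `factor_trivial`. -/

namespace Pool.Agent.MKG

open Pool.Agent.DT70

/-- A homeomorphism induces an isomorphism of fundamental groups. -/
private theorem fg_homeo {X Y : Type} [TopologicalSpace X] [TopologicalSpace Y] (e : X ≃ₜ Y)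
    (x : X) : Nonempty (FundamentalGroup X x ≃* FundamentalGroup Y (e x)) :=
  ⟨(FundamentalGroupoidFunctor.equivOfHomotopyEquiv
    e.toHomotopyEquiv).fullyFaithfulFunctor.mulEquivEnd (FundamentalGroupoid.mk x)⟩

/-- A path connected space with one trivial fundamental group is simply connected. -/
private theorem sc_of_fg {X : Type} [TopologicalSpace X] (h : PathConnectedSpace X) (x : X)
    (hs : Subsingleton (FundamentalGroup X x)) : SimplyConnectedSpace X := by
  rw [simply_connected_iff_loops_nullhomotopic]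
  refine ⟨h, fun y γ => ?_⟩
  have e := FundamentalGroup.fundamentalGroupMulEquivOfPathConnected y x
  have h1 : Subsingleton (FundamentalGroup X y) := e.toEquiv.subsingleton
  exact Path.Homotopic.Quotient.exact (Subsingleton.elim (α := FundamentalGroup X y)
    (FundamentalGroup.fromPath (Path.Homotopic.Quotient.mk γ))
    (FundamentalGroup.fromPath (Path.Homotopic.Quotient.mk (Path.refl y))))

variable {bb : Bool}

/-- The renamed complex. -/
private def rn (K : Code) (σ : ℕ → ℕ) : Set (Finset ℕ) :=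
  fs (K.tail.map (List.map σ)) ∪ {((hd K).map σ).toFinset}

private theorem rn_finite (K : Code) (σ : ℕ → ℕ) : (rn K σ).Finite :=
  (fs_finite _).union (Set.finite_singleton _)

private theorem rn_homeo {K : Code} (hK : Marked bb K) (σ τ : ℕ → ℕ) (h : ∀ v, τ (σ v) = v) :
    Nonempty (real K ≃ₜ Rz (rn K σ)) := by
  have h1 := relabel (fs K) σ τ (fun s _ v _ => h v)
  rw [← fs_map_eq hK] at h1
  have h2 := (Iso.of_pl cls_cont h1).homeo
  rw [real_eq]
  exact h2

private theorem rn_univ {K : Code} (hK : Marked bb K) (σ τ : ℕ → ℕ) (h : ∀ v, τ (σ v) = v)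
    {o : ℕ} (ho : o ∈ (hd K).map σ) (ho' : o ∈ verts (rn K σ)) :
    ∃ L, UnivT (rn K σ) {v | v ∈ ((hd K).map σ).toFinset}
      (FundamentalGroup (Rz (rn K σ)) (pt (rn K σ) ho')) L := by
  obtain ⟨L, hL⟩ := exists_univ (rn_finite K σ) (conn_map hK σ τ h) ho'
  exact univT_facet (Or.inr rfl) (List.mem_toFinset.2 ho) hL

private theorem tube_near {l : List ℕ} (hl : l.length = 15) (hn : l.Nodup) {s : Finset ℕ}
    (hs : s ∈ fs (tube l)) {i k : ℕ} (hi : i < 15) (hk : k < 15) (his : l.getD i 0 ∈ s)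
    (hks : l.getD k 0 ∈ s) : i ≤ k + 5 := by
  have hinj : ∀ m, m < 15 → ∀ m', m' < 15 → l.getD m 0 = l.getD m' 0 → m = m' := by
    intro m hm m' hm' h
    rw [List.getD_eq_getElem _ _ (by omega), List.getD_eq_getElem _ _ (by omega)] at h
    exact (hn.getElem_inj_iff).1 h
  have h0 := eq_map_range l
  rw [hl] at h0
  have h8 := tube_map (fun i => l.getD i 0) (List.range 15)
  rw [← h0] at h8
  obtain ⟨F, hF, rfl⟩ := hs
  rw [h8] at hF
  obtain ⟨F', hF', rfl⟩ := List.mem_map.1 hF
  have hF15 : ∀ m ∈ F', m < 15 := fun m hm =>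
    List.mem_range.1 ((tube_mem List.nodup_range hF').2.2 m hm)
  rw [List.mem_toFinset] at his hks
  obtain ⟨m, hm, hmi⟩ := List.mem_map.1 his
  obtain ⟨m', hm', hmk⟩ := List.mem_map.1 hks
  have e1 := hinj m (hF15 m hm) i hi hmi
  have e2 := hinj m' (hF15 m' hm') k hk hmk
  subst e1 e2
  have hdec : ∀ F ∈ tube (List.range 15), ∀ i ∈ F, ∀ k ∈ F, i ≤ k + 5 := by
    decide +kernel
  exact hdec F' hF' m hm m' hm'

private theorem cs_list_len {K R : Code} (hK : Marked bb K) (hR : Marked bb R) :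
    ((hd K).map r0 ++ (mid ++ (hd R).map r1)).length = 15 := by
  rw [List.length_append, List.length_append, (good0 hK).len, (good1 hR).len]
  rfl

private theorem cs_near {K R : Code} (hK : Marked bb K) (hR : Marked bb R) :
    ∀ s ∈ fs (cs K R), ∀ i < 15, ∀ k < 15,
      ((hd K).map r0 ++ (mid ++ (hd R).map r1)).getD i 0 ∈ s →
      ((hd K).map r0 ++ (mid ++ (hd R).map r1)).getD k 0 ∈ s → i ≤ k + 5 := by
  have hl := cs_list_len hK hR
  have hla := (good0 hK).len
  have hlb := (good1 hR).len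
  have hmid : mid.length = 5 := rfl
  -- index of an entry according to its residue
  have hres : ∀ i < 15, (i < 5 → ((hd K).map r0 ++ (mid ++ (hd R).map r1)).getD i 0 % 3 = 0) ∧
      (5 ≤ i → i < 10 → ((hd K).map r0 ++ (mid ++ (hd R).map r1)).getD i 0 % 3 = 2) ∧
      (10 ≤ i → ((hd K).map r0 ++ (mid ++ (hd R).map r1)).getD i 0 % 3 = 1) := by
    intro i hi
    refine ⟨fun h => ?_, fun h h' => ?_, fun h => ?_⟩
    · rw [List.getD_append _ _ _ _ (by omega), List.getD_eq_getElem _ _ (by omega)]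
      exact mem_map_r0 (List.getElem_mem _)
    · rw [List.getD_append_right _ _ _ _ (by omega), List.getD_append _ _ _ _ (by omega),
        List.getD_eq_getElem _ _ (by omega)]
      exact mid_mod (List.getElem_mem _)
    · rw [List.getD_append_right _ _ _ _ (by omega), List.getD_append_right _ _ _ _ (by omega),
        List.getD_eq_getElem _ _ (by omega)]
      exact mem_map_r1 (List.getElem_mem _)
  intro s hs i hi k hk his hks
  rw [fs_cs] at hs
  rcases hs with hs | hs | hs
  · have h1 := lab0 hs his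
    obtain ⟨-, h2, h3⟩ := hres i hi
    have h4 : i < 5 := by
      by_contra h
      by_cases h' : i < 10
      · have := h2 (by omega) h'; omega
      · have := h3 (by omega); omega
    omega
  · exact tube_near hl (all_nodup hK hR) hs hi hk his hks
  · have h1 := lab1 hs hks
    obtain ⟨h2, h3, -⟩ := hres k hk
    have h4 : 10 ≤ k := by
      by_contra h
      by_cases h' : k < 5
      · have := h2 h'; omega
      · have := h3 (by omega) (by omega); omega
    omega

private theorem cs_vert {K R : Code} (hK : Marked bb K) (hR : Marked bb R) :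
    ((hd K).map r0 ++ (mid ++ (hd R).map r1)).getD 0 0 ∈ verts (fs (cs K R)) := by
  obtain ⟨s, hs, h1, -, -⟩ := tube_triple (cs_list_len hK hR) (all_nodup hK hR) (i := 0) (j := 0)
    (k := 0) (by omega) (by omega) (by omega) (by omega) (by omega) (by omega) (by omega)
    (by omega) (by omega)
  exact ⟨s, by rw [fs_cs]; exact Or.inr (Or.inl hs), h1⟩

private theorem cs_univ {K R : Code} (hK : Marked bb K) (hR : Marked bb R) :
    ∃ L, UnivT (fs (cs K R)) {v | v ∈ (hd K).map r0 ++ (mid ++ (hd R).map r1)}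
      (FundamentalGroup (Rz (fs (cs K R))) (pt (fs (cs K R)) (cs_vert hK hR))) L := by
  have hc : IsConnected (Rz (fs (cs K R))) := by
    rw [← real_eq]
    exact cs_conn hK hR
  obtain ⟨L, hL⟩ := exists_univ (fs_finite _) hc (cs_vert hK hR)
  exact univT_tube (cs_list_len hK hR) (all_nodup hK hR)
    (by rw [fs_cs]; exact fun s hs => Or.inr (Or.inl hs)) (cs_near hK hR) hL

private theorem sum_pi {K R : Code} (hK : Marked bb K) (hR : Marked bb R) {o o' : ℕ}
    (ho : o ∈ (hd K).map r0) (hov : o ∈ verts (rn K r0)) (ho' : o' ∈ (hd R).map r1)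
    (hov' : o' ∈ verts (rn R r1)) :
    ∃ (k : FundamentalGroup (Rz (rn K r0)) (pt (rn K r0) hov) →*
        FundamentalGroup (Rz (fs (cs K R))) (pt (fs (cs K R)) (cs_vert hK hR)))
      (j : FundamentalGroup (Rz (rn R r1)) (pt (rn R r1) hov') →*
        FundamentalGroup (Rz (fs (cs K R))) (pt (fs (cs K R)) (cs_vert hK hR))), Ext2 k j ∧
      Subgroup.closure (Set.range k ∪ Set.range j) = ⊤ := by
  obtain ⟨L₁, h₁⟩ := rn_univ hK r0 (· / 3) r0_div ho hov
  obtain ⟨L₂, h₂⟩ := rn_univ hR r1 (· / 3) r1_div ho' hov'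
  obtain ⟨L, h⟩ := cs_univ hK hR
  have h' : UnivT (fs (K.tail.map (List.map r0)) ∪
      (fs (tube ((hd K).map r0 ++ (mid ++ (hd R).map r1))) ∪ fs (R.tail.map (List.map r1))))
      {v | v ∈ (hd K).map r0 ++ (mid ++ (hd R).map r1)}
      (FundamentalGroup (Rz (fs (cs K R))) (pt (fs (cs K R)) (cs_vert hK hR))) L := by
    rw [← fs_cs]
    exact h
  refine sum_ep (good0 hK).len rfl (good1 hR).len (all_nodup hK hR) ?_ ?_ ?_ h₁ h₂ h'
  · intro s hs v hv
    have h0 := lab0 hs hv
    refine ⟨fun h => ?_, fun h => ?_⟩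
    · have := mid_mod h; omega
    · have := mem_map_r1 h; omega
  · intro s hs v hv
    have h0 := lab1 hs hv
    refine ⟨fun h => ?_, fun h => ?_⟩
    · have := mid_mod h; omega
    · have := mem_map_r0 h; omega
  · intro s hs t ht v hv hv'
    have h0 := lab0 hs hv
    have h1 := lab1 ht hv'
    omega

private theorem rn_fg {K : Code} (hK : Marked bb K) (σ τ : ℕ → ℕ) (h : ∀ v, τ (σ v) = v)
    {o : ℕ} (ho' : o ∈ verts (rn K σ)) :
    Group.FG (FundamentalGroup (Rz (rn K σ)) (pt (rn K σ) ho')) := by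
  obtain ⟨L, hL⟩ := exists_univ (rn_finite K σ) (conn_map hK σ τ h) ho'
  exact univ_fg (rn_finite K σ) hL

private theorem hd_vert {K : Code} (hK : Marked bb K) (σ : ℕ → ℕ) :
    ∃ o, o ∈ (hd K).map σ ∧ o ∈ verts (rn K σ) := by
  have hlen := hK.good.len
  cases hh : hd K with
  | nil => rw [hh] at hlen; simp at hlen
  | cons x l =>
    refine ⟨σ x, by simp, ((hd K).map σ).toFinset, Or.inr rfl, ?_⟩
    rw [hh]
    simp

/-- The algebraic conclusion. -/
private theorem sum_trivial' {G₁ G₂ G G₁' G' : Type} [Group G₁] [Group G₂] [Group G] [Group G₁']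
    [Group G'] [Subsingleton G₁'] (e : G ≃* G') (hfg : Group.FG G₂)
    (h : ∃ (k : G₁ →* G) (j : G₂ →* G), Ext2 k j ∧
      Subgroup.closure (Set.range k ∪ Set.range j) = ⊤)
    (h' : ∃ (k : G₁' →* G') (j : G₂ →* G'), Ext2 k j ∧
      Subgroup.closure (Set.range k ∪ Set.range j) = ⊤) :
    Subsingleton G₁ := by
  obtain ⟨k, j, hkj, -⟩ := h
  obtain ⟨k', j', hkj', htop⟩ := h'
  have hj'inj : Function.Injective j' := by
    obtain ⟨Φ, -, hΦ⟩ := hkj' G₂ 1 (MonoidHom.id G₂)
    intro x y hxy
    have h1 := hΦ x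
    have h2 := hΦ y
    rw [hxy] at h1
    exact (h1.symm.trans h2)
  have hj'surj : Function.Surjective j' := by
    rw [← MonoidHom.range_eq_top, eq_top_iff, ← htop, Subgroup.closure_le]
    rintro _ (⟨x, rfl⟩ | ⟨x, rfl⟩)
    · rw [Subsingleton.elim x 1, map_one]
      exact Subgroup.one_mem _
    · exact ⟨x, rfl⟩
  have e2 : G ≃* G₂ := e.trans (MulEquiv.ofBijective j' ⟨hj'inj, hj'surj⟩).symm
  exact factor_trivial hkj e2 hfg

/-- If `A` is simply connected and `K # R` is PL homeomorphic to `A # R`, then `K` is simply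
connected. -/
theorem sc_of_sum_all {bb : Bool} {A K R : Code} (hA : Marked bb A) (hK : Marked bb K)
    (hR : Marked bb R) (h : PLHomeo (cs K R) (cs A R)) (hs : SimplyConnectedSpace (real A)) :
    SimplyConnectedSpace (real K) := by
  obtain ⟨oA, hoA, hvA⟩ := hd_vert hA r0
  obtain ⟨oK, hoK, hvK⟩ := hd_vert hK r0
  obtain ⟨oR, hoR, hvR⟩ := hd_vert hR r1
  have sK := sum_pi hK hR hoK hvK hoR hvR
  have sA := sum_pi hA hR hoA hvA hoR hvR
  -- the renamed A is simply connected
  obtain ⟨eA⟩ := rn_homeo hA r0 (· / 3) r0_div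
  have hsA : SimplyConnectedSpace (Rz (rn A r0)) := eA.symm.toHomotopyEquiv.simplyConnectedSpace
  have hsubA : Subsingleton (FundamentalGroup (Rz (rn A r0)) (pt (rn A r0) hvA)) := inferInstance
  -- the isomorphism of the fundamental groups of the sums
  obtain ⟨f, g, hfg⟩ := h
  rw [real_eq, real_eq] at hfg
  obtain ⟨e⟩ := (Iso.of_pl cls_cont hfg).homeo
  have hcA : IsConnected (Rz (fs (cs A R))) := by
    rw [← real_eq]
    exact cs_conn hA hR
  have : PathConnectedSpace (Rz (fs (cs A R))) := path_conn (fs_finite _) hcA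
  obtain ⟨e1⟩ := fg_homeo e (pt (fs (cs K R)) (cs_vert hK hR))
  have e2 := FundamentalGroup.fundamentalGroupMulEquivOfPathConnected
    (e (pt (fs (cs K R)) (cs_vert hK hR))) (pt (fs (cs A R)) (cs_vert hA hR))
  have hsub := sum_trivial' (e1.trans e2) (rn_fg hR r1 (· / 3) r1_div hvR) sK sA
  -- conclusion
  have hpc : PathConnectedSpace (Rz (rn K r0)) :=
    path_conn (rn_finite K r0) (conn_map hK r0 (· / 3) r0_div)
  have hsK := sc_of_fg hpc _ hsub
  obtain ⟨eK⟩ := rn_homeo hK r0 (· / 3) r0_div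
  exact eK.toHomotopyEquiv.simplyConnectedSpace

end Pool.Agent.MKG
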