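import Pool.Agent.MKG.Cells1

/-! # Sizes and multiplicities for coefficient cells -/

open MeasureTheory Set Filter
open scoped BigOperators ENNReal Topology

namespace MKG

theorem sum_le_of_fiber {α β : Type*} [DecidableEq β] (S : Finset α) (T : Finset β) (φ : α → β)
    (hφ : ∀ x ∈ S, φ x ∈ T) (f : β → ℝ) (hf : ∀ y ∈ T, 0 ≤ f y) (V : ℕ)
    (hV : ∀ y ∈ T, (S.filter (fun x => φ x = y)).card ≤ V) :
    ∑ x ∈ S, f (φ x) ≤ V * ∑ y ∈ T, f y := by
  rw [← Finset.sum_fiberwise_of_maps_to hφ, Finset.mul_sum]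
  refine Finset.sum_le_sum fun y hy => ?_
  have : ∑ x ∈ S.filter (fun x => φ x = y), f (φ x)
      = ((S.filter (fun x => φ x = y)).card : ℝ) * f y := by
    rw [Finset.sum_congr rfl (g := fun _ => f y)
      (fun x hx => by rw [(Finset.mem_filter.mp hx).2]), Finset.sum_const, nsmul_eq_mul]
  rw [this]
  exact mul_le_mul_of_nonneg_right (by exact_mod_cast hV y hy) (hf y hy)

theorem card_le_of_fiber {α β : Type*} [DecidableEq β] (S : Finset α) (T : Finset β) (φ : α → β)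
    (hφ : ∀ x ∈ S, φ x ∈ T) (V : ℕ)
    (hV : ∀ y ∈ T, (S.filter (fun x => φ x = y)).card ≤ V) :
    S.card ≤ V * T.card := by
  have := sum_le_of_fiber S T φ hφ (fun _ => 1) (fun _ _ => zero_le_one) V hV
  simp only [Finset.sum_const, nsmul_eq_mul, mul_one] at this
  exact_mod_cast this

/-- sizes of the entries of a coefficient cell -/
theorem cell12_bounds {X : ℕ} (hX : 1 ≤ X) {x : Cell} (hx : x ∈ cellSet X 1 2) :
    (X : ℤ) ≤ x.1.1 ∧ x.1.1 < 2 * X ∧ x.1.1 ≤ x.1.2 ∧ x.1.2 < 2 * x.1.1 ∧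
    (X : ℤ) ≤ x.2.1 ∧ x.2.1 < 3 * X ∧ x.2.1 < x.2.2 + 1 ∧ x.2.2 ≤ 2 * x.2.1 ∧
    x.1.1 * x.2.2 - x.2.1 * x.1.2 = 1 := by
  obtain ⟨h1, h2, h3, h4, h5, h6, h7⟩ := hx
  have hX' : (1 : ℤ) ≤ X := by exact_mod_cast hX
  have h3' : x.1.1 ≤ x.1.2 := by rw [one_mul] at h3; exact_mod_cast h3
  have h4' : x.1.2 < 2 * x.1.1 := by exact_mod_cast h4
  refine ⟨h1, h2, h3', h4', h5, by omega, ?_, ?_, h7⟩
  · by_contra hcon
    push Not at hcon
    nlinarith
  · by_contra hcon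
    push Not at hcon
    nlinarith

theorem card_cells12_le {X : ℕ} (hX : 1 ≤ X) : (cells1 X 1 2).card ≤ 3 * X ^ 2 := by
  have h : (cells1 X 1 2).card ≤ (Finset.Ico (X : ℤ) (2 * X) ×ˢ Finset.Ico (X : ℤ) (4 * X)).card := by
    refine Finset.card_le_card_of_injOn (fun x => x.1) ?_ ?_
    · intro x hx
      obtain ⟨h1, h2, h3, h4, -⟩ := cell12_bounds hX (mem_cells1.mp hx)
      simp only [Finset.coe_product, Set.mem_prod, Finset.mem_coe, Finset.mem_Ico]
      exact ⟨⟨h1, h2⟩, ⟨by omega, by omega⟩⟩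
    · intro x hx y hy hxy
      exact cells1_inj_fst hX (mem_cells1.mp hx) (mem_cells1.mp hy) hxy
  refine h.trans (le_of_eq ?_)
  rw [Finset.card_product, Int.card_Ico, Int.card_Ico]
  have e1 : (2 * (X : ℤ) - X).toNat = X := by
    have : 2 * (X : ℤ) - X = (X : ℤ) := by ring
    rw [this]; simp
  have e2 : (4 * (X : ℤ) - X).toNat = 3 * X := by
    have : 4 * (X : ℤ) - X = ((3 * X : ℕ) : ℤ) := by push_cast; ring
    rw [this, Int.toNat_natCast]
  rw [e1, e2]; ring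

/-- Multiplicity bound in rank one. -/
theorem mult_rank1 {X : ℕ} (hX : 1 ≤ X) (h₁ h₂ : ℤ) (hh : h₁ ≠ 0 ∨ h₂ ≠ 0) (k : ℤ × ℤ) (V : ℕ)
    (hV : 4 * (X : ℤ) * |h₂| < max |k.1| |k.2| * (V + 1)) :
    ((cells1 X 1 2).filter (fun x =>
      (h₁ * x.1.1 + h₂ * x.2.1, h₁ * x.1.2 + h₂ * x.2.2) = k)).card ≤ 2 * V + 1 := by
  classical
  set S := (cells1 X 1 2).filter (fun x =>
      (h₁ * x.1.1 + h₂ * x.2.1, h₁ * x.1.2 + h₂ * x.2.2) = k) with hS
  rcases S.eq_empty_or_nonempty with hemp | ⟨x₀, hx₀⟩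
  · rw [hemp]; simp
  have hX' : (1 : ℤ) ≤ X := by exact_mod_cast hX
  have hmem : ∀ x ∈ S, x ∈ cellSet X 1 2 ∧ h₁ * x.1.1 + h₂ * x.2.1 = k.1 ∧
      h₁ * x.1.2 + h₂ * x.2.2 = k.2 := by
    intro x hx
    rw [hS, Finset.mem_filter, mem_cells1] at hx
    exact ⟨hx.1, congrArg Prod.fst hx.2, congrArg Prod.snd hx.2⟩
  by_cases h20 : h₂ = 0
  · -- then `k = h₁ • x.1`
    subst h20
    have h10 : h₁ ≠ 0 := by simpa using hh
    have : S.card ≤ 1 := by
      rw [Finset.card_le_one]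
      intro x hx y hy
      obtain ⟨cx, ex1, ex2⟩ := hmem x hx
      obtain ⟨cy, ey1, ey2⟩ := hmem y hy
      apply cells1_inj_fst hX cx cy
      simp only [zero_mul, add_zero] at ex1 ex2 ey1 ey2
      exact Prod.ext (mul_left_cancel₀ h10 (ex1.trans ey1.symm))
        (mul_left_cancel₀ h10 (ex2.trans ey2.symm))
    omega
  -- general case
  have hdet : ∀ x ∈ S, x.1.1 * k.2 - x.1.2 * k.1 = h₂ := by
    intro x hx
    obtain ⟨cx, ex1, ex2⟩ := hmem x hx
    have hu := (cell12_bounds hX cx).2.2.2.2.2.2.2.2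
    rw [← ex1, ← ex2]
    linear_combination h₂ * hu
  set g : ℤ := (Int.gcd k.1 k.2 : ℤ) with hg
  have hk0 : k.1 ≠ 0 ∨ k.2 ≠ 0 := by
    by_contra hcon
    push Not at hcon
    have := hdet x₀ hx₀
    rw [hcon.1, hcon.2] at this
    simp at this
    exact h20 this.symm
  have hgpos : 0 < g := by
    have : Int.gcd k.1 k.2 ≠ 0 := by
      intro h0
      rw [Int.gcd_eq_zero_iff] at h0
      rcases hk0 with h | h
      · exact h h0.1
      · exact h h0.2
    positivity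
  obtain ⟨a, ha⟩ : g ∣ k.1 := Int.gcd_dvd_left ..
  obtain ⟨b, hb⟩ : g ∣ k.2 := Int.gcd_dvd_right ..
  have hgh : g ≤ |h₂| := by
    have : g ∣ h₂ := by
      rw [← hdet x₀ hx₀, ha, hb]
      exact ⟨x₀.1.1 * b - x₀.1.2 * a, by ring⟩
    exact Int.le_of_dvd (abs_pos.mpr h20) ((dvd_abs _ _).mpr this)
  -- Bezout
  obtain ⟨u, v, huv⟩ : ∃ u v : ℤ, u * a + v * b = 1 := by
    have hbz := Int.gcd_eq_gcd_ab k.1 k.2
    refine ⟨Int.gcdA k.1 k.2, Int.gcdB k.1 k.2, ?_⟩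
    have : g * (Int.gcdA k.1 k.2 * a + Int.gcdB k.1 k.2 * b) = g * 1 := by
      rw [mul_one]
      calc g * (Int.gcdA k.1 k.2 * a + Int.gcdB k.1 k.2 * b)
          = (g * a) * Int.gcdA k.1 k.2 + (g * b) * Int.gcdB k.1 k.2 := by ring
        _ = g := by rw [← ha, ← hb]; exact hbz.symm
    exact mul_left_cancel₀ hgpos.ne' this
  -- the parameter j
  set φ : Cell → ℤ := fun x => u * (x.1.1 - x₀.1.1) + v * (x.1.2 - x₀.1.2) with hφ
  have hpar : ∀ x ∈ S, x.1.1 - x₀.1.1 = φ x * a ∧ x.1.2 - x₀.1.2 = φ x * b := by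
    intro x hx
    have e1 := hdet x hx
    have e2 := hdet x₀ hx₀
    rw [ha, hb] at e1 e2
    have e3 : (x.1.1 - x₀.1.1) * b = (x.1.2 - x₀.1.2) * a := by
      have : g * ((x.1.1 - x₀.1.1) * b) = g * ((x.1.2 - x₀.1.2) * a) := by linarith
      exact mul_left_cancel₀ hgpos.ne' this
    constructor
    · simp only [hφ]
      linear_combination (-(x.1.1 - x₀.1.1)) * huv + v * e3
    · simp only [hφ]
      linear_combination (-(x.1.2 - x₀.1.2)) * huv - u * e3
  have hinj : Set.InjOn φ S := by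
    intro x hx y hy hxy
    have px := hpar x hx
    have py := hpar y hy
    rw [hxy] at px
    apply cells1_inj_fst hX (hmem x hx).1 (hmem y hy).1
    exact Prod.ext (by linarith [px.1, py.1]) (by linarith [px.2, py.2])
  have hmaps : ∀ x ∈ S, φ x ∈ Finset.Icc (-(V : ℤ)) V := by
    intro x hx
    obtain ⟨b1, b2, b3, b4, -⟩ := cell12_bounds hX (hmem x hx).1
    obtain ⟨c1, c2, c3, c4, -⟩ := cell12_bounds hX (hmem x₀ hx₀).1
    obtain ⟨p1, p2⟩ := hpar x hx
    have q1 : |φ x| * |a| ≤ 4 * X := by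
      rw [← abs_mul, ← p1, abs_le]; constructor <;> omega
    have q2 : |φ x| * |b| ≤ 4 * X := by
      rw [← abs_mul, ← p2, abs_le]; constructor <;> omega
    have q3 : |φ x| * max |k.1| |k.2| ≤ 4 * X * |h₂| := by
      have habs : ∀ c d : ℤ, d = g * c → |φ x| * |c| ≤ 4 * X → |φ x| * |d| ≤ 4 * X * |h₂| := by
        intro c d hd hc
        rw [hd, abs_mul, abs_of_pos hgpos]
        calc |φ x| * (g * |c|) = (|φ x| * |c|) * g := by ring
          _ ≤ 4 * X * |h₂| := mul_le_mul hc hgh hgpos.le (by positivity)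
      rcases max_choice |k.1| |k.2| with h | h <;> rw [h]
      · exact habs a _ ha q1
      · exact habs b _ hb q2
    rw [Finset.mem_Icc, ← abs_le]
    have hmaxpos : 0 < max |k.1| |k.2| := by
      rcases hk0 with h | h
      · exact lt_max_of_lt_left (abs_pos.mpr h)
      · exact lt_max_of_lt_right (abs_pos.mpr h)
    by_contra hcon
    push Not at hcon
    have : (V : ℤ) + 1 ≤ |φ x| := hcon
    nlinarith
  have := Finset.card_le_card_of_injOn φ hmaps hinj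
  refine this.trans ?_
  rw [Int.card_Icc]
  omega

end MKG
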