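import Pool.Agent.MKG.Exp

/-! # Unimodular cells at one level -/

open MeasureTheory Set Filter
open scoped BigOperators ENNReal Topology

namespace MKG

/-- Level-one cells: `R ≤ q₁ < 2R`, `A ≤ b₁/q₁ < B`, `R ≤ q₂ < R + q₁`, `q₁ b₂ - q₂ b₁ = 1`. -/
def cellSet (R : ℕ) (A B : ℝ) : Set Cell :=
  {g | (R : ℤ) ≤ g.1.1 ∧ g.1.1 < 2 * R ∧ A * g.1.1 ≤ g.1.2 ∧ (g.1.2 : ℝ) < B * g.1.1 ∧
    (R : ℤ) ≤ g.2.1 ∧ g.2.1 < R + g.1.1 ∧ g.1.1 * g.2.2 - g.2.1 * g.1.2 = 1}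

theorem cellSet_finite (R : ℕ) (A B : ℝ) : (cellSet R A B).Finite := by
  rcases Nat.eq_zero_or_pos R with hR | hR
  · convert Set.finite_empty
    ext g
    simp only [cellSet, hR, Set.mem_ofPred_eq, Set.mem_empty_iff_false, iff_false]
    rintro ⟨h1, h2, _⟩
    push_cast at h1 h2
    omega
  · have hR' : (1 : ℤ) ≤ R := by exact_mod_cast hR
    obtain ⟨Z, hZ⟩ := exists_nat_gt ((|A| + |B|) * (2 * R))
    have hsub : cellSet R A B ⊆ (((Set.Icc (0 : ℤ) (2 * R)) ×ˢ (Set.Icc (-(Z : ℤ)) Z)) ×ˢ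
        ((Set.Icc (0 : ℤ) (3 * R)) ×ˢ (Set.Icc (-(3 * R * Z + 1 : ℤ)) (3 * R * Z + 1)))) := by
      rintro ⟨⟨q₁, b₁⟩, ⟨q₂, b₂⟩⟩ ⟨h1, h2, h3, h4, h5, h6, h7⟩
      simp only at h1 h2 h3 h4 h5 h6 h7
      have hq1 : (0 : ℝ) ≤ q₁ := by exact_mod_cast (by omega : (0 : ℤ) ≤ q₁)
      have hq1' : (q₁ : ℝ) ≤ 2 * R := by exact_mod_cast h2.le
      have hbu : (b₁ : ℝ) < Z := by
        have : B * q₁ ≤ (|A| + |B|) * (2 * R) := by
          calc B * q₁ ≤ |B| * q₁ := mul_le_mul_of_nonneg_right (le_abs_self _) hq1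
            _ ≤ (|A| + |B|) * (2 * R) := by
              apply mul_le_mul _ hq1' hq1 (by positivity)
              linarith [abs_nonneg A]
        linarith
      have hbl : -(Z : ℝ) < b₁ := by
        have : -((|A| + |B|) * (2 * R)) ≤ A * q₁ := by
          have h : |A| * q₁ ≤ (|A| + |B|) * (2 * R) := by
            apply mul_le_mul _ hq1' hq1 (by positivity)
            linarith [abs_nonneg B]
          have h' : -(|A| * q₁) ≤ A * q₁ := by
            rw [← neg_mul]; exact mul_le_mul_of_nonneg_right (neg_abs_le _) hq1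
          linarith
        linarith
      have hbu' : b₁ < Z := by exact_mod_cast hbu
      have hbl' : -(Z : ℤ) < b₁ := by exact_mod_cast hbl
      have hq2 : q₂ ≤ 3 * R := by omega
      have hZ0 : (0 : ℤ) ≤ Z := Int.natCast_nonneg _
      have h8 : q₁ * b₂ = 1 + q₂ * b₁ := by linarith
      have h9 : |q₂ * b₁| ≤ 3 * R * Z := by
        rw [abs_mul, abs_of_nonneg (by omega : (0 : ℤ) ≤ q₂)]
        exact mul_le_mul hq2 (abs_le.mpr ⟨by omega, by omega⟩) (abs_nonneg _) (by positivity)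
      have h10 := abs_le.mp h9
      simp only [Set.mem_prod, Set.mem_Icc]
      have hb2l : -(3 * R * Z + 1 : ℤ) ≤ b₂ := by
        by_contra hcon
        push Not at hcon
        nlinarith
      have hb2u : b₂ ≤ (3 * R * Z + 1 : ℤ) := by
        by_contra hcon
        push Not at hcon
        nlinarith
      refine ⟨⟨⟨by omega, by omega⟩, ⟨by omega, by omega⟩⟩, ⟨⟨by omega, by omega⟩, hb2l, hb2u⟩⟩
    refine Set.Finite.subset ?_ hsub
    exact ((Set.finite_Icc _ _).prod (Set.finite_Icc _ _)).prod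
      ((Set.finite_Icc _ _).prod (Set.finite_Icc _ _))

/-- The finite set of level-one cells. -/
noncomputable def cells1 (R : ℕ) (A B : ℝ) : Finset Cell := (cellSet_finite R A B).toFinset

theorem mem_cells1 {R : ℕ} {A B : ℝ} {g : Cell} : g ∈ cells1 R A B ↔ g ∈ cellSet R A B := by
  simp [cells1]

theorem cells1_inj_fst {R : ℕ} (hR : 1 ≤ R) {A B : ℝ} {g h : Cell} (hg : g ∈ cellSet R A B)
    (hh : h ∈ cellSet R A B) (hgh : g.1 = h.1) : g = h := by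
  obtain ⟨⟨q₁, b₁⟩, ⟨q₂, b₂⟩⟩ := g
  obtain ⟨⟨q₁', b₁'⟩, ⟨q₂', b₂'⟩⟩ := h
  simp only [Prod.mk.injEq] at hgh
  obtain ⟨rfl, rfl⟩ := hgh
  obtain ⟨h1, h2, h3, h4, h5, h6, h7⟩ := hg
  obtain ⟨k1, k2, k3, k4, k5, k6, k7⟩ := hh
  simp only at h1 h2 h3 h4 h5 h6 h7 k1 k2 k3 k4 k5 k6 k7
  have hR' : (1 : ℤ) ≤ R := by exact_mod_cast hR
  have hdvd : q₁ ∣ (q₂ - q₂') := by
    have hco : IsCoprime q₁ b₁ := ⟨b₂, -q₂, by linarith⟩
    have : q₁ ∣ (q₂ - q₂') * b₁ := ⟨b₂ - b₂', by linarith⟩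
    exact hco.dvd_of_dvd_mul_right this
  have hq : q₂ = q₂' := by
    obtain ⟨c, hc⟩ := hdvd
    have hc1 : c < 1 := by nlinarith
    have hc2 : -1 < c := by nlinarith
    have : c = 0 := by omega
    rw [this] at hc; linarith
  subst hq
  have hb : q₁ * (b₂ - b₂') = 0 := by linarith
  have hb' : b₂ - b₂' = 0 := by
    rcases mul_eq_zero.mp hb with h | h
    · omega
    · exact h
  have : b₂ = b₂' := by linarith
  rw [this]

/-- Interior rational points of a unimodular cell have large denominators. -/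
theorem denom_ge {q₁ b₁ q₂ b₂ q b : ℤ} (hq₁ : 0 < q₁) (hq₂ : 0 < q₂)
    (huni : q₁ * b₂ - q₂ * b₁ = 1) (h1 : b₁ * q < b * q₁) (h2 : b * q₂ < b₂ * q) :
    q₁ + q₂ ≤ q := by
  have e1 : q = q₁ * (b₂ * q - b * q₂) + q₂ * (b * q₁ - b₁ * q) := by
    have : q₁ * (b₂ * q - b * q₂) + q₂ * (b * q₁ - b₁ * q) = (q₁ * b₂ - q₂ * b₁) * q := by ring
    rw [this, huni, one_mul]
  have h3 : 1 ≤ b₂ * q - b * q₂ := by omega
  have h4 : 1 ≤ b * q₁ - b₁ * q := by omega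
  nlinarith

theorem cells1_inj {R : ℕ} (hR : 1 ≤ R) {A B : ℝ} {g h : Cell} (hg : g ∈ cellSet R A B)
    (hh : h ∈ cellSet R A B) {t : ℝ} (htg : t ∈ cellInt g) (hth : t ∈ cellInt h) : g = h := by
  -- reduce to the case where the left endpoint of `g` is at most that of `h`
  wlog hle : ((g.1.2 : ℝ) / g.1.1) ≤ ((h.1.2 : ℝ) / h.1.1) generalizing g h
  · exact (this hh hg hth htg (le_of_not_ge hle)).symm
  have hR' : (1 : ℤ) ≤ R := by exact_mod_cast hR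
  have hg' := hg
  have hh' := hh
  obtain ⟨h1, h2, h3, h4, h5, h6, h7⟩ := hg
  obtain ⟨k1, k2, k3, k4, k5, k6, k7⟩ := hh
  have pg1 : (0 : ℝ) < g.1.1 := by exact_mod_cast (by omega : (0 : ℤ) < g.1.1)
  have pg2 : (0 : ℝ) < g.2.1 := by exact_mod_cast (by omega : (0 : ℤ) < g.2.1)
  have ph1 : (0 : ℝ) < h.1.1 := by exact_mod_cast (by omega : (0 : ℤ) < h.1.1)
  have hlt : (h.1.2 : ℝ) / h.1.1 < (g.2.2 : ℝ) / g.2.1 := lt_of_le_of_lt hth.1 htg.2
  have i2 : h.1.2 * g.2.1 < g.2.2 * h.1.1 := by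
    rw [div_lt_div_iff₀ ph1 pg2] at hlt
    exact_mod_cast hlt
  have i1 : g.1.2 * h.1.1 ≤ h.1.2 * g.1.1 := by
    rw [div_le_div_iff₀ pg1 ph1] at hle
    exact_mod_cast hle
  rcases lt_or_eq_of_le i1 with i1' | i1'
  · have := denom_ge (by omega) (by omega) h7 i1' i2
    omega
  · -- equal left endpoints
    apply cells1_inj_fst hR hg' hh'
    have cg : IsCoprime g.1.1 g.1.2 := ⟨g.2.2, -g.2.1, by linarith⟩
    have ch : IsCoprime h.1.1 h.1.2 := ⟨h.2.2, -h.2.1, by linarith⟩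
    have d1 : g.1.1 ∣ h.1.1 := by
      refine cg.dvd_of_dvd_mul_left ?_
      exact ⟨h.1.2, by linarith⟩
    have d2 : h.1.1 ∣ g.1.1 := by
      refine ch.dvd_of_dvd_mul_left ?_
      exact ⟨g.1.2, by linarith⟩
    have e1 : g.1.1 = h.1.1 := Int.dvd_antisymm (by omega) (by omega) d1 d2
    have e2 : g.1.2 = h.1.2 := by
      rw [e1] at i1'
      exact mul_right_cancel₀ (by omega : h.1.1 ≠ 0) i1'
    exact Prod.ext e1 e2

end MKG
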