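import Pool.Agent.MKG.Defs

/-! # Module ChungErdos -/

open MeasureTheory Set Filter
open scoped BigOperators ENNReal Topology

namespace MKG

theorem chung_erdos {α ι : Type*} [MeasurableSpace α] (μ : Measure α) (I : Finset ι)
    (A : ι → Set α) (hA : ∀ i ∈ I, MeasurableSet (A i)) (a b : ℝ≥0∞) (ha : a ≤ ∑ i ∈ I, μ (A i))
    (ha0 : a ≠ 0) (hat : a ≠ ⊤)
    (hb : ∑ i ∈ I, ∑ j ∈ I, μ (A i ∩ A j) ≤ b) (hbt : b ≠ ⊤) :
    a ^ 2 / b ≤ μ (⋃ i ∈ I, A i) := by
  set U := ⋃ i ∈ I, A i with hU
  have hUm : MeasurableSet U := Finset.measurableSet_biUnion I hA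
  set f : α → ℝ≥0∞ := fun x => ∑ i ∈ I, (A i).indicator 1 x with hf
  set g : α → ℝ≥0∞ := U.indicator 1 with hg
  have hfm : Measurable f := Finset.measurable_sum _ fun i hi => measurable_one.indicator (hA i hi)
  have hgm : Measurable g := measurable_one.indicator hUm
  have hfg : ∀ x, f x = f x * g x := by
    intro x
    by_cases hx : x ∈ U
    · simp [hg, hx]
    · have : f x = 0 := by
        simp only [hf]
        refine Finset.sum_eq_zero fun i hi => ?_
        refine indicator_of_notMem (fun h => hx ?_) _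
        rw [hU]
        exact mem_biUnion hi h
      rw [this, zero_mul]
  have h1 : ∫⁻ x, f x ∂μ = ∑ i ∈ I, μ (A i) := by
    simp only [hf]
    rw [lintegral_finsetSum' _ fun i hi => (measurable_one.indicator (hA i hi)).aemeasurable]
    exact Finset.sum_congr rfl fun i hi => lintegral_indicator_one (hA i hi)
  have h2 : ∫⁻ x, f x ^ (2 : ℝ) ∂μ = ∑ i ∈ I, ∑ j ∈ I, μ (A i ∩ A j) := by
    have : ∀ x, f x ^ (2 : ℝ) = ∑ i ∈ I, ∑ j ∈ I, (A i ∩ A j).indicator 1 x := by
      intro x
      rw [show (2 : ℝ) = ((2 : ℕ) : ℝ) by norm_num, ENNReal.rpow_natCast, sq]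
      simp only [hf]
      rw [Finset.sum_mul_sum]
      refine Finset.sum_congr rfl fun i _ => Finset.sum_congr rfl fun j _ => ?_
      rw [inter_indicator_one]
      rfl
    simp_rw [this]
    rw [lintegral_finsetSum']
    · refine Finset.sum_congr rfl fun i hi => ?_
      rw [lintegral_finsetSum']
      · exact Finset.sum_congr rfl fun j hj => lintegral_indicator_one ((hA i hi).inter (hA j hj))
      · exact fun j hj => (measurable_one.indicator ((hA i hi).inter (hA j hj))).aemeasurable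
    · intro i hi
      exact (Finset.measurable_sum _ fun j hj =>
        measurable_one.indicator ((hA i hi).inter (hA j hj))).aemeasurable
  have h3 : ∫⁻ x, g x ^ (2 : ℝ) ∂μ = μ U := by
    have : ∀ x, g x ^ (2 : ℝ) = U.indicator 1 x := by
      intro x
      simp only [hg]
      by_cases hx : x ∈ U <;> simp [hx]
    simp_rw [this]
    exact lintegral_indicator_one hUm
  have h4 := ENNReal.lintegral_mul_le_Lp_mul_Lq μ Real.HolderConjugate.two_two
    hfm.aemeasurable hgm.aemeasurable
  have h5 : ∫⁻ x, (f * g) x ∂μ = ∫⁻ x, f x ∂μ := lintegral_congr fun x => (hfg x).symm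
  rw [h5, h1, h2, h3] at h4
  have h6 : a ≤ (b * μ U) ^ (1 / 2 : ℝ) := by
    rw [ENNReal.mul_rpow_of_nonneg _ _ (by norm_num)]
    refine ha.trans (h4.trans ?_)
    gcongr
  have h7 : a ^ 2 ≤ b * μ U := by
    calc a ^ 2 ≤ ((b * μ U) ^ (1 / 2 : ℝ)) ^ 2 := by gcongr
      _ = b * μ U := by
          rw [← ENNReal.rpow_natCast, ← ENNReal.rpow_mul]
          norm_num
  exact ENNReal.div_le_of_le_mul' h7

end MKG
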