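import Pool.Agent.MKG.Cells1

/-! # Composition of cells -/

open MeasureTheory Set Filter
open scoped BigOperators ENNReal Topology

namespace MKG

/-- Composition of a level-one cell `ρ` with a coefficient cell `x`. -/
def comp (i : Cell × Cell) : Cell :=
  ((i.2.1.1 * i.1.1.1 + i.2.1.2 * i.1.2.1, i.2.1.1 * i.1.1.2 + i.2.1.2 * i.1.2.2),
   (i.2.2.1 * i.1.1.1 + i.2.2.2 * i.1.2.1, i.2.2.1 * i.1.1.2 + i.2.2.2 * i.1.2.2))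

/-- basic integer facts on coefficient cells -/
theorem comp_coef {X : ℕ} (hX : 1 ≤ X) {x : Cell} (hx : x ∈ cellSet X 1 2) :
    (X : ℤ) ≤ x.1.1 ∧ x.1.1 < 2 * X ∧ (X : ℤ) ≤ x.1.2 ∧ x.1.2 < 4 * X ∧
    (X : ℤ) ≤ x.2.1 ∧ x.2.1 < 3 * X ∧ (X : ℤ) ≤ x.2.2 ∧ x.2.2 < 6 * X ∧
    x.1.1 * x.2.2 - x.2.1 * x.1.2 = 1 := by
  obtain ⟨h1, h2, h3, h4, h5, h6, h7⟩ := hx
  rw [one_mul] at h3
  have h3' : x.1.1 ≤ x.1.2 := by exact_mod_cast h3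
  have h4' : x.1.2 < 2 * x.1.1 := by exact_mod_cast h4
  have hX' : (1 : ℤ) ≤ X := by exact_mod_cast hX
  have h8 : x.2.1 ≤ x.2.2 := by
    by_contra hcon
    push Not at hcon
    nlinarith
  have h9 : x.2.2 ≤ 2 * x.2.1 := by
    by_contra hcon
    push Not at hcon
    nlinarith
  refine ⟨h1, h2, by linarith, by linarith, h5, by linarith, by linarith, by linarith, h7⟩

theorem comp_ok {A₀ A B B₀ : ℝ} (hA : A₀ ≤ A) (hB : B < B₀) {R X : ℕ} (hR : 1 ≤ R) (hX : 1 ≤ X)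
    (hRB : 1 / (R : ℝ) ^ 2 ≤ B₀ - B) {ρ x : Cell} (hρ : ρ ∈ cellSet R A B) (hx : x ∈ cellSet X 1 2) :
    CellOK A₀ B₀ (X * R) (comp (ρ, x)) := by
  obtain ⟨c1, c2, c3, c4, c5, c6, c7, c8, c9⟩ := comp_coef hX hx
  obtain ⟨h1, h2, h3, h4, h5, h6, h7⟩ := hρ
  have hR' : (1 : ℤ) ≤ R := by exact_mod_cast hR
  have hX' : (1 : ℤ) ≤ X := by exact_mod_cast hX
  obtain ⟨⟨q₁, b₁⟩, ⟨q₂, b₂⟩⟩ := ρ
  obtain ⟨⟨x₁, y₁⟩, ⟨x₂, y₂⟩⟩ := x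
  simp only at h1 h2 h3 h4 h5 h6 h7 c1 c2 c3 c4 c5 c6 c7 c8 c9
  have hq2 : q₂ < 3 * R := by linarith
  have pq1 : (0 : ℝ) < q₁ := by exact_mod_cast (by linarith : (0 : ℤ) < q₁)
  have pq2 : (0 : ℝ) < q₂ := by exact_mod_cast (by linarith : (0 : ℤ) < q₂)
  have px1 : (0 : ℝ) < x₁ := by exact_mod_cast (by linarith : (0 : ℤ) < x₁)
  have py1 : (0 : ℝ) < y₁ := by exact_mod_cast (by linarith : (0 : ℤ) < y₁)
  have px2 : (0 : ℝ) < x₂ := by exact_mod_cast (by linarith : (0 : ℤ) < x₂)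
  have py2 : (0 : ℝ) < y₂ := by exact_mod_cast (by linarith : (0 : ℤ) < y₂)
  have h7r : (q₁ : ℝ) * b₂ - q₂ * b₁ = 1 := by exact_mod_cast h7
  have mulmono : ∀ a b c d : ℤ, 0 ≤ c → 0 ≤ a → a ≤ b → c ≤ d → a * c ≤ b * d := by
    intro a b c d hc ha hab hcd
    exact mul_le_mul hab hcd hc (by linarith)
  refine ⟨?_, ?_, ?_, ?_, ?_, ?_, ?_⟩
  · show (x₁ * q₁ + y₁ * q₂) * (x₂ * b₁ + y₂ * b₂) - (x₂ * q₁ + y₂ * q₂) * (x₁ * b₁ + y₁ * b₂) = 1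
    have : (x₁ * q₁ + y₁ * q₂) * (x₂ * b₁ + y₂ * b₂) - (x₂ * q₁ + y₂ * q₂) * (x₁ * b₁ + y₁ * b₂)
        = (x₁ * y₂ - x₂ * y₁) * (q₁ * b₂ - q₂ * b₁) := by ring
    rw [this, c9, h7, one_mul]
  · show 2 * ((X * R : ℕ) : ℤ) ≤ x₁ * q₁ + y₁ * q₂
    push_cast
    have e1 := mulmono (X : ℤ) x₁ R q₁ (by linarith) (by linarith) c1 h1
    have e2 := mulmono (X : ℤ) y₁ R q₂ (by linarith) (by linarith) c3 h5
    linarith
  · show x₁ * q₁ + y₁ * q₂ ≤ 27 * ((X * R : ℕ) : ℤ)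
    push_cast
    have e1 := mulmono x₁ (2 * X) q₁ (2 * R) (by linarith) (by linarith) c2.le h2.le
    have e2 := mulmono y₁ (4 * X) q₂ (3 * R) (by linarith) (by linarith) c4.le hq2.le
    have e3 : (0 : ℤ) ≤ X * R := by positivity
    nlinarith
  · show 2 * ((X * R : ℕ) : ℤ) ≤ x₂ * q₁ + y₂ * q₂
    push_cast
    have e1 := mulmono (X : ℤ) x₂ R q₁ (by linarith) (by linarith) c5 h1
    have e2 := mulmono (X : ℤ) y₂ R q₂ (by linarith) (by linarith) c7 h5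
    linarith
  · show x₂ * q₁ + y₂ * q₂ ≤ 27 * ((X * R : ℕ) : ℤ)
    push_cast
    have e1 := mulmono x₂ (3 * X) q₁ (2 * R) (by linarith) (by linarith) c6.le h2.le
    have e2 := mulmono y₂ (6 * X) q₂ (3 * R) (by linarith) (by linarith) c8.le hq2.le
    have e3 : (0 : ℤ) ≤ X * R := by positivity
    nlinarith
  · show A₀ ≤ ((x₁ * b₁ + y₁ * b₂ : ℤ) : ℝ) / ((x₁ * q₁ + y₁ * q₂ : ℤ) : ℝ)
    push_cast
    rw [le_div_iff₀ (by positivity)]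
    have e1 : A₀ * q₁ ≤ b₁ := le_trans (mul_le_mul_of_nonneg_right hA pq1.le) h3
    have e2 : A₀ * q₂ ≤ b₂ := by
      have : A₀ * q₂ * q₁ ≤ b₂ * q₁ := by nlinarith
      exact le_of_mul_le_mul_right this pq1
    nlinarith
  · show ((x₂ * b₁ + y₂ * b₂ : ℤ) : ℝ) / ((x₂ * q₁ + y₂ * q₂ : ℤ) : ℝ) ≤ B₀
    push_cast
    rw [div_le_iff₀ (by positivity)]
    have e1 : (b₁ : ℝ) ≤ B₀ * q₁ := by nlinarith
    have hRr : (0 : ℝ) < R := by exact_mod_cast (by omega : 0 < R)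
    have e0 : (R : ℝ) ^ 2 ≤ q₁ * q₂ := by
      have e00 := mulmono (R : ℤ) q₁ R q₂ (by linarith) (by linarith) h1 h5
      have : ((R : ℤ) * R : ℤ) ≤ q₁ * q₂ := e00
      have h' : ((R : ℝ) * R) ≤ q₁ * q₂ := by exact_mod_cast this
      nlinarith
    have e3 : 1 ≤ (B₀ - B) * (q₁ * q₂) := by
      have h1' : 1 / (R : ℝ) ^ 2 * (q₁ * q₂) ≤ (B₀ - B) * (q₁ * q₂) :=
        mul_le_mul_of_nonneg_right hRB (by positivity)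
      have h2' : 1 ≤ 1 / (R : ℝ) ^ 2 * (q₁ * q₂) := by
        rw [div_mul_eq_mul_div, one_mul, le_div_iff₀ (by positivity)]
        linarith
      linarith
    have e2 : (b₂ : ℝ) ≤ B₀ * q₂ := by
      have : (b₂ : ℝ) * q₁ ≤ B₀ * q₂ * q₁ := by nlinarith
      exact le_of_mul_le_mul_right this pq1
    nlinarith

/-- a composed cell lies inside the level-one cell, and the coefficient parameter lies in the
coefficient cell -/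
theorem comp_mem {A B : ℝ} {R X : ℕ} (hR : 1 ≤ R) (hX : 1 ≤ X) {ρ x : Cell}
    (hρ : ρ ∈ cellSet R A B) (hx : x ∈ cellSet X 1 2) {t : ℝ} (ht : t ∈ cellInt (comp (ρ, x))) :
    t ∈ cellInt ρ ∧ (t * ρ.1.1 - ρ.1.2) / (ρ.2.2 - t * ρ.2.1) ∈ cellInt x := by
  obtain ⟨c1, c2, c3, c4, c5, c6, c7, c8, c9⟩ := comp_coef hX hx
  obtain ⟨h1, h2, h3, h4, h5, h6, h7⟩ := hρ
  have hR' : (1 : ℤ) ≤ R := by exact_mod_cast hR
  have hX' : (1 : ℤ) ≤ X := by exact_mod_cast hX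
  obtain ⟨⟨q₁, b₁⟩, ⟨q₂, b₂⟩⟩ := ρ
  obtain ⟨⟨x₁, y₁⟩, ⟨x₂, y₂⟩⟩ := x
  simp only at h1 h2 h3 h4 h5 h6 h7 c1 c2 c3 c4 c5 c6 c7 c8 c9
  have pq1 : (0 : ℝ) < q₁ := by exact_mod_cast (by linarith : (0 : ℤ) < q₁)
  have pq2 : (0 : ℝ) < q₂ := by exact_mod_cast (by linarith : (0 : ℤ) < q₂)
  have px1 : (0 : ℝ) < x₁ := by exact_mod_cast (by linarith : (0 : ℤ) < x₁)
  have py1 : (0 : ℝ) < y₁ := by exact_mod_cast (by linarith : (0 : ℤ) < y₁)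
  have px2 : (0 : ℝ) < x₂ := by exact_mod_cast (by linarith : (0 : ℤ) < x₂)
  have py2 : (0 : ℝ) < y₂ := by exact_mod_cast (by linarith : (0 : ℤ) < y₂)
  have h7r : (q₁ : ℝ) * b₂ - q₂ * b₁ = 1 := by exact_mod_cast h7
  have ht' : ((x₁ * b₁ + y₁ * b₂ : ℤ) : ℝ) / ((x₁ * q₁ + y₁ * q₂ : ℤ) : ℝ) ≤ t ∧
      t < ((x₂ * b₁ + y₂ * b₂ : ℤ) : ℝ) / ((x₂ * q₁ + y₂ * q₂ : ℤ) : ℝ) := ht
  obtain ⟨t1, t2⟩ := ht'
  push_cast at t1 t2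
  rw [div_le_iff₀ (by positivity)] at t1
  rw [lt_div_iff₀ (by positivity)] at t2
  -- λ₂ = t q₁ - b₁, λ₁ = b₂ - t q₂
  set l₂ : ℝ := t * q₁ - b₁ with hl₂
  set l₁ : ℝ := b₂ - t * q₂ with hl₁
  have hsum : l₁ * q₁ + l₂ * q₂ = 1 := by rw [hl₁, hl₂]; linear_combination h7r
  have e1 : y₁ * l₁ ≤ x₁ * l₂ := by rw [hl₁, hl₂]; linarith
  have e2 : x₂ * l₂ < y₂ * l₁ := by rw [hl₁, hl₂]; linarith
  have hl1pos : 0 < l₁ := by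
    by_contra hcon
    push Not at hcon
    have hl2neg : l₂ < 0 := by
      by_contra h'
      push Not at h'
      nlinarith
    nlinarith
  have hl2nn : 0 ≤ l₂ := by
    by_contra hcon
    push Not at hcon
    nlinarith
  constructor
  · show ((b₁ : ℤ) : ℝ) / ((q₁ : ℤ) : ℝ) ≤ t ∧ t < ((b₂ : ℤ) : ℝ) / ((q₂ : ℤ) : ℝ)
    rw [div_le_iff₀ pq1, lt_div_iff₀ pq2]
    constructor <;> linarith
  · show ((y₁ : ℤ) : ℝ) / ((x₁ : ℤ) : ℝ) ≤ l₂ / l₁ ∧ l₂ / l₁ < ((y₂ : ℤ) : ℝ) / ((x₂ : ℤ) : ℝ)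
    rw [div_le_div_iff₀ px1 hl1pos, div_lt_div_iff₀ hl1pos px2]
    constructor <;> linarith

theorem comp_disj {A B : ℝ} {R X : ℕ} (hR : 1 ≤ R) (hX : 1 ≤ X) {ρ x ρ' x' : Cell}
    (hρ : ρ ∈ cellSet R A B) (hx : x ∈ cellSet X 1 2) (hρ' : ρ' ∈ cellSet R A B)
    (hx' : x' ∈ cellSet X 1 2) (h : (ρ, x) ≠ (ρ', x')) :
    Disjoint (cellInt (comp (ρ, x))) (cellInt (comp (ρ', x'))) := by
  rw [Set.disjoint_left]
  intro t ht ht'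
  obtain ⟨a1, a2⟩ := comp_mem hR hX hρ hx ht
  obtain ⟨b1, b2⟩ := comp_mem hR hX hρ' hx' ht'
  have e1 : ρ = ρ' := cells1_inj hR hρ hρ' a1 b1
  subst e1
  have e2 : x = x' := cells1_inj hX hx hx' a2 b2
  subst e2
  exact h rfl

end MKG
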