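import Pool.Agent.MKG.Defs

/-! # Divergence bookkeeping -/

open MeasureTheory Set Filter
open scoped BigOperators ENNReal Topology

namespace MKG

theorem divergence {m : ℕ} {β : ℕ} (hβ : 2 ≤ β) (c₀ : ℝ) (hc₀ : 0 < c₀) (Cm : ℕ) (hCm : 1 ≤ Cm)
    (ψ : ℝ → ℝ) (hpos : ∀ h, 0 < h → 0 < ψ h) (hanti : AntitoneOn ψ (Ioi 0))
    (hdiv : ¬ Summable (fun h : ℕ => (Real.log (h + 1)) ^ m * ψ (h + 1))) :
    ¬ Summable (fun w : ℕ => (w : ℝ) ^ m * min ((β : ℝ) ^ w * ψ (Cm * (β : ℝ) ^ w)) c₀) := by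
  intro hS
  apply hdiv
  have hβ0 : (0 : ℝ) < β := by exact_mod_cast (by omega : 0 < β)
  have hβ1 : (1 : ℝ) < β := by exact_mod_cast (by omega : 1 < β)
  have hCm0 : (0 : ℝ) < Cm := by exact_mod_cast (by omega : 0 < Cm)
  have hCm1 : (1 : ℝ) ≤ Cm := by exact_mod_cast hCm
  have hψw : ∀ w : ℕ, 0 < ψ (Cm * (β : ℝ) ^ w) := fun w => hpos _ (by positivity)
  set g : ℕ → ℝ := fun w => (w : ℝ) ^ m * ((β : ℝ) ^ w * ψ (Cm * (β : ℝ) ^ w)) with hg
  have hgS : Summable g := by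
    have ht := hS.tendsto_atTop_zero
    have hev : ∀ᶠ w : ℕ in atTop,
        (w : ℝ) ^ m * min ((β : ℝ) ^ w * ψ (Cm * (β : ℝ) ^ w)) c₀ < c₀ :=
      ht.eventually (gt_mem_nhds hc₀)
    have heq : (fun w : ℕ => (w : ℝ) ^ m * min ((β : ℝ) ^ w * ψ (Cm * (β : ℝ) ^ w)) c₀)
        =ᶠ[atTop] g := by
      filter_upwards [hev, eventually_ge_atTop 1] with w hw hw1
      have h1 : (1 : ℝ) ≤ (w : ℝ) ^ m := one_le_pow₀ (by exact_mod_cast hw1)
      have h2 : min ((β : ℝ) ^ w * ψ (Cm * (β : ℝ) ^ w)) c₀ < c₀ := by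
        by_contra hcon
        push Not at hcon
        nlinarith
      have h3 : (β : ℝ) ^ w * ψ (Cm * (β : ℝ) ^ w) < c₀ := by
        rcases min_lt_iff.1 h2 with h | h
        · exact h
        · exact absurd h (lt_irrefl _)
      simp only [hg]
      rw [min_eq_left h3.le]
    exact (summable_congr_atTop heq).1 hS
  -- block bound
  set C' : ℝ := Real.log Cm + Real.log β with hC'
  have hC'0 : 0 ≤ C' := add_nonneg (Real.log_nonneg hCm1) (Real.log_nonneg hβ1.le)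
  set D : ℕ → ℝ := fun w => (Cm * β * C' ^ m) *
    (((w : ℝ) + 1) ^ m * ((β : ℝ) ^ w * ψ (Cm * (β : ℝ) ^ w))) with hD
  have hD0 : ∀ w, 0 ≤ D w := by
    intro w
    have := (hψw w).le
    simp only [hD]
    positivity
  have hDS : Summable D := by
    rw [← summable_nat_add_iff 1]
    refine Summable.of_nonneg_of_le (fun w => hD0 _) (fun w => ?_)
      (((summable_nat_add_iff 1).2 hgS).mul_left ((Cm * β * C' ^ m) * 2 ^ m))
    simp only [hD, hg]
    have h1 : ((((w + 1 : ℕ) : ℝ) + 1)) ^ m ≤ 2 ^ m * ((w + 1 : ℕ) : ℝ) ^ m := by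
      rw [← mul_pow]
      apply pow_le_pow_left₀ (by positivity)
      push_cast
      linarith [(Nat.cast_nonneg w : (0 : ℝ) ≤ w)]
    have h2 : 0 ≤ (β : ℝ) ^ (w + 1) * ψ (Cm * (β : ℝ) ^ (w + 1)) := by
      have := (hψw (w + 1)).le
      positivity
    have h3 : 0 ≤ Cm * β * C' ^ m := by positivity
    calc (Cm * β * C' ^ m) * (((((w + 1 : ℕ) : ℝ) + 1)) ^ m *
          ((β : ℝ) ^ (w + 1) * ψ (Cm * (β : ℝ) ^ (w + 1))))
        ≤ (Cm * β * C' ^ m) * ((2 ^ m * ((w + 1 : ℕ) : ℝ) ^ m) *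
          ((β : ℝ) ^ (w + 1) * ψ (Cm * (β : ℝ) ^ (w + 1)))) := by gcongr
      _ = _ := by ring
  set u : ℕ → ℝ := fun h => (Real.log (h + 1)) ^ m * ψ (h + 1) with hu
  have hu0 : ∀ h, 0 ≤ u h := by
    intro h
    have h1 : (0 : ℝ) ≤ Real.log (h + 1) :=
      Real.log_nonneg (by linarith [(Nat.cast_nonneg h : (0 : ℝ) ≤ h)])
    have h2 := (hpos ((h : ℝ) + 1) (by positivity)).le
    simp only [hu]
    positivity
  set a : ℕ → ℝ := fun W => ∑ h ∈ Finset.range (Cm * β ^ W), u h with ha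
  have hstep : ∀ W, a (W + 1) ≤ a W + D W := by
    intro W
    have hle : Cm * β ^ W ≤ Cm * β ^ (W + 1) :=
      Nat.mul_le_mul_left _ (Nat.pow_le_pow_right (by omega) (Nat.le_succ W))
    simp only [ha]
    rw [← Finset.sum_range_add_sum_Ico _ hle]
    refine add_le_add_right ?_ _
    have hterm : ∀ h ∈ Finset.Ico (Cm * β ^ W) (Cm * β ^ (W + 1)),
        u h ≤ (C' * ((W : ℝ) + 1)) ^ m * ψ (Cm * (β : ℝ) ^ W) := by
      intro h hh
      rw [Finset.mem_Ico] at hh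
      have h1 : (Cm : ℝ) * (β : ℝ) ^ W ≤ (h : ℝ) + 1 := by
        have : Cm * β ^ W ≤ h + 1 := by omega
        exact_mod_cast this
      have h2 : (h : ℝ) + 1 ≤ (Cm : ℝ) * (β : ℝ) ^ (W + 1) := by
        have : h + 1 ≤ Cm * β ^ (W + 1) := by omega
        exact_mod_cast this
      have h3 : ψ ((h : ℝ) + 1) ≤ ψ (Cm * (β : ℝ) ^ W) :=
        hanti (mem_Ioi.2 (by positivity)) (mem_Ioi.2 (by positivity)) h1
      have h4 : Real.log ((h : ℝ) + 1) ≤ C' * ((W : ℝ) + 1) := by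
        calc Real.log ((h : ℝ) + 1) ≤ Real.log ((Cm : ℝ) * (β : ℝ) ^ (W + 1)) :=
              Real.log_le_log (by positivity) h2
          _ = Real.log Cm + ((W : ℝ) + 1) * Real.log β := by
              rw [Real.log_mul hCm0.ne' (by positivity), Real.log_pow]; push_cast; ring
          _ ≤ C' * ((W : ℝ) + 1) := by
              rw [hC']
              have := Real.log_nonneg hCm1
              nlinarith [(Nat.cast_nonneg W : (0 : ℝ) ≤ W)]
      have h5 : 0 ≤ Real.log ((h : ℝ) + 1) :=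
        Real.log_nonneg (by linarith [(Nat.cast_nonneg h : (0 : ℝ) ≤ h)])
      simp only [hu]
      exact mul_le_mul (pow_le_pow_left₀ h5 h4 m) h3 (hpos _ (by positivity)).le (by positivity)
    calc ∑ h ∈ Finset.Ico (Cm * β ^ W) (Cm * β ^ (W + 1)), u h
        ≤ ∑ _h ∈ Finset.Ico (Cm * β ^ W) (Cm * β ^ (W + 1)),
          (C' * ((W : ℝ) + 1)) ^ m * ψ (Cm * (β : ℝ) ^ W) := Finset.sum_le_sum hterm
      _ = ((Cm * β ^ (W + 1) - Cm * β ^ W : ℕ) : ℝ) *
          ((C' * ((W : ℝ) + 1)) ^ m * ψ (Cm * (β : ℝ) ^ W)) := by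
          rw [Finset.sum_const, Nat.card_Ico, nsmul_eq_mul]
      _ ≤ ((Cm : ℝ) * (β : ℝ) ^ (W + 1)) *
          ((C' * ((W : ℝ) + 1)) ^ m * ψ (Cm * (β : ℝ) ^ W)) := by
          apply mul_le_mul_of_nonneg_right
          · have : Cm * β ^ (W + 1) - Cm * β ^ W ≤ Cm * β ^ (W + 1) := Nat.sub_le _ _
            exact_mod_cast this
          · have := (hψw W).le
            positivity
      _ = D W := by simp only [hD]; rw [mul_pow]; ring
  have haW : ∀ W, a W ≤ a 0 + ∑' w, D w := by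
    have h1 : ∀ W, a W ≤ a 0 + ∑ w ∈ Finset.range W, D w := by
      intro W
      induction W with
      | zero => simp
      | succ W ih =>
        rw [Finset.sum_range_succ]
        linarith [hstep W]
    intro W
    have := hDS.sum_le_tsum (Finset.range W) (fun i _ => hD0 i)
    linarith [h1 W]
  refine summable_of_sum_range_le (c := a 0 + ∑' w, D w) hu0 (fun n => ?_)
  refine le_trans ?_ (haW n)
  simp only [ha]
  apply Finset.sum_le_sum_of_subset_of_nonneg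
  · intro i hi
    rw [Finset.mem_range] at hi ⊢
    have h1 : n < β ^ n := Nat.lt_pow_self (by omega)
    have h2 : β ^ n ≤ Cm * β ^ n := Nat.le_mul_of_pos_left _ (by omega)
    omega
  · intro i _ _
    exact hu0 i

end MKG
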