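import Pool.Agent.MKG.Cells1

/-! # Counting level-one cells -/

open MeasureTheory Set Filter
open scoped BigOperators ENNReal Topology

namespace MKG

theorem count_ico_card_le {x y : ℝ} (h : x ≤ y) :
    ((Finset.Ico ⌈x⌉ ⌈y⌉).card : ℝ) ≤ y - x + 1 := by
  rw [Int.card_Ico]
  have h1 : ⌈x⌉ ≤ ⌈y⌉ := Int.ceil_mono h
  have h2 : (((⌈y⌉ - ⌈x⌉).toNat : ℤ) : ℝ) = ⌈y⌉ - ⌈x⌉ := by
    rw [Int.toNat_of_nonneg (by omega)]; push_cast; ring
  have h3 : (((⌈y⌉ - ⌈x⌉).toNat : ℕ) : ℝ) = ⌈y⌉ - ⌈x⌉ := by exact_mod_cast h2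
  rw [h3]
  have := Int.ceil_lt_add_one y
  have := Int.le_ceil x
  linarith

theorem count_ico_le_card {x y : ℝ} :
    y - x - 1 ≤ ((Finset.Ico ⌈x⌉ ⌈y⌉).card : ℝ) := by
  rw [Int.card_Ico]
  have h2 : ((⌈y⌉ - ⌈x⌉ : ℤ) : ℝ) ≤ ((⌈y⌉ - ⌈x⌉).toNat : ℤ) := by
    exact_mod_cast Int.self_le_toNat _
  have h3 : (⌈y⌉ : ℝ) - ⌈x⌉ ≤ (((⌈y⌉ - ⌈x⌉).toNat : ℕ) : ℝ) := by
    push_cast at h2; exact_mod_cast h2
  have := Int.ceil_lt_add_one x
  have := Int.le_ceil y
  linarith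

theorem count_dvd_card_le {x y : ℝ} (h : x ≤ y) {d : ℕ} (hd : 1 ≤ d) :
    (((Finset.Ico ⌈x⌉ ⌈y⌉).filter (fun b : ℤ => (d : ℤ) ∣ b)).card : ℝ) ≤ (y - x) / d + 1 := by
  have hd0 : (0 : ℝ) < d := by exact_mod_cast hd
  have hsub : ((Finset.Ico ⌈x⌉ ⌈y⌉).filter (fun b : ℤ => (d : ℤ) ∣ b)) ⊆
      (Finset.Ico ⌈x / d⌉ ⌈y / d⌉).image (fun c : ℤ => (d : ℤ) * c) := by
    intro b hb
    rw [Finset.mem_filter, Finset.mem_Ico] at hb
    obtain ⟨⟨h1, h2⟩, c, rfl⟩ := hb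
    rw [Int.ceil_le] at h1
    rw [Int.lt_ceil] at h2
    push_cast at h1 h2
    rw [Finset.mem_image]
    refine ⟨c, ?_, rfl⟩
    rw [Finset.mem_Ico, Int.ceil_le, Int.lt_ceil]
    exact ⟨by rw [div_le_iff₀ hd0]; linarith, by rw [lt_div_iff₀ hd0]; linarith⟩
  calc (((Finset.Ico ⌈x⌉ ⌈y⌉).filter (fun b : ℤ => (d : ℤ) ∣ b)).card : ℝ)
      ≤ ((Finset.Ico ⌈x / d⌉ ⌈y / d⌉).card : ℝ) := by
        exact_mod_cast (Finset.card_le_card hsub).trans Finset.card_image_le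
    _ ≤ y / d - x / d + 1 := count_ico_card_le (by gcongr)
    _ = (y - x) / d + 1 := by ring

theorem count_dvd_nat_card_le (R : ℕ) {d : ℕ} (hd : 1 ≤ d) :
    (((Finset.Ico R (2 * R)).filter (fun b : ℕ => d ∣ b)).card : ℝ) ≤ (R : ℝ) / d + 1 := by
  have h := count_dvd_card_le (x := (R : ℝ)) (y := ((2 * R : ℕ) : ℝ)) (by push_cast; linarith [Nat.cast_nonneg (α := ℝ) R]) hd
  refine le_trans ?_ (h.trans (le_of_eq (by push_cast; ring)))
  have : (((Finset.Ico R (2 * R)).filter (fun b : ℕ => d ∣ b)).card) ≤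
      ((Finset.Ico ⌈(R : ℝ)⌉ ⌈((2 * R : ℕ) : ℝ)⌉).filter (fun b : ℤ => (d : ℤ) ∣ b)).card := by
    apply Finset.card_le_card_of_injOn (fun n : ℕ => (n : ℤ))
    · intro n hn
      simp only [Finset.coe_filter, Finset.mem_Ico, Set.mem_ofPred_eq] at hn
      simp only [Finset.coe_filter, Finset.mem_Ico, Set.mem_ofPred_eq, Int.ceil_natCast]
      refine ⟨⟨by exact_mod_cast hn.1.1, by exact_mod_cast hn.1.2⟩, by exact_mod_cast hn.2⟩
    · intro a _ b _ hab
      simpa using hab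
  exact_mod_cast this

theorem count_sum_inv_sq (n : ℕ) : ∑ d ∈ Finset.Icc 2 n, (1 : ℝ) / d ^ 2 ≤ 25 / 36 := by
  rcases Nat.lt_or_ge n 3 with h | h
  · interval_cases n
    · simp; norm_num
    · simp; norm_num
    · norm_num
  · have key : ∀ k : ℕ, ∑ d ∈ Finset.Icc 2 (k + 3), (1 : ℝ) / d ^ 2 ≤ 25 / 36 - 1 / (k + 3) := by
      intro k
      induction k with
      | zero =>
        have : Finset.Icc 2 (0 + 3) = {2, 3} := by decide
        rw [this]; norm_num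
      | succ k ih =>
        rw [show k + 1 + 3 = (k + 3) + 1 from by ring,
          Finset.sum_Icc_succ_top (by omega)]
        have h1 : (1 : ℝ) / ((k + 3 + 1 : ℕ) : ℝ) ^ 2 ≤ 1 / (k + 3) - 1 / (k + 1 + 3) := by
          push_cast
          rw [div_sub_div _ _ (by positivity) (by positivity), div_le_div_iff₀ (by positivity) (by positivity)]
          nlinarith [Nat.cast_nonneg (α := ℝ) k]
        push_cast at h1 ⊢
        linarith
    obtain ⟨k, rfl⟩ := Nat.exists_eq_add_of_le' h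
    have := key k
    have h2 : (0 : ℝ) ≤ 1 / (k + 3) := by positivity
    linarith

theorem count_sum_inv (n : ℕ) : ∑ d ∈ Finset.Icc 2 n, (1 : ℝ) / d ≤ 1 + Real.log n := by
  have h := harmonic_le_one_add_log n
  have h1 : ((harmonic n : ℚ) : ℝ) = ∑ d ∈ Finset.Icc 1 n, (1 : ℝ) / d := by
    rw [harmonic_eq_sum_Icc]; push_cast; simp
  rw [h1] at h
  refine le_trans ?_ h
  apply Finset.sum_le_sum_of_subset_of_nonneg
  · exact Finset.Icc_subset_Icc (by norm_num) le_rfl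
  · intros; positivity

theorem count_sum_id (R : ℕ) : ∑ q ∈ Finset.Ico R (2 * R), (q : ℝ) = (3 * R ^ 2 - R) / 2 := by
  have h : ∀ n : ℕ, ∑ q ∈ Finset.range n, (q : ℝ) = (n : ℝ) * (n - 1) / 2 := by
    intro n
    induction n with
    | zero => simp
    | succ n ih => rw [Finset.sum_range_succ, ih]; push_cast; ring
  have h2 : ∑ q ∈ Finset.range R, (q : ℝ) + ∑ q ∈ Finset.Ico R (2 * R), (q : ℝ) =
      ∑ q ∈ Finset.range (2 * R), (q : ℝ) := by
    exact Finset.sum_range_add_sum_Ico _ (by omega)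
  rw [h, h] at h2
  push_cast at h2
  linarith

/-- The candidates for the first vertex. -/
noncomputable def countPairs (R : ℕ) (A B : ℝ) : Finset (Σ _ : ℕ, ℤ) :=
  (Finset.Ico R (2 * R)).sigma
    (fun q => (Finset.Ico ⌈A * q⌉ ⌈B * q⌉).filter (fun b => IsCoprime (q : ℤ) b))

theorem count_cells1_le (R : ℕ) (hR : 1 ≤ R) (A B : ℝ) :
    (cells1 R A B).card ≤ (countPairs R A B).card := by
  apply Finset.card_le_card_of_injOn (fun g => ⟨g.1.1.toNat, g.1.2⟩)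
  · intro g hg
    rw [Finset.mem_coe, mem_cells1] at hg
    obtain ⟨h1, h2, h3, h4, h5, h6, h7⟩ := hg
    have hR' : (1 : ℤ) ≤ R := by exact_mod_cast hR
    have hnn : ((g.1.1.toNat : ℕ) : ℤ) = g.1.1 := Int.toNat_of_nonneg (by omega)
    have hnn' : ((g.1.1.toNat : ℕ) : ℝ) = g.1.1 := by exact_mod_cast hnn
    simp only [countPairs, Finset.coe_sigma, Finset.coe_Ico, Finset.coe_filter, Set.mem_sigma_iff,
      Set.mem_Ico, Finset.mem_Ico, Set.mem_ofPred_eq, hnn, hnn', Int.ceil_le, Int.lt_ceil]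
    refine ⟨⟨by omega, by omega⟩, ⟨h3, h4⟩, ⟨g.2.2, -g.2.1, by linarith⟩⟩
  · intro g hg h hh hgh
    rw [Finset.mem_coe, mem_cells1] at hg hh
    simp only [Sigma.mk.injEq, heq_eq_eq] at hgh
    have hR' : (1 : ℤ) ≤ R := by exact_mod_cast hR
    have h1 := hg.1
    have h2 := hh.1
    exact cells1_inj_fst hR hg hh (Prod.ext (by omega) hgh.2)

theorem count_exists_cell (R : ℕ) (A B : ℝ) (p : Σ _ : ℕ, ℤ)
    (hp : p ∈ countPairs R A B) : ∃ g ∈ cells1 R A B, g.1 = ((p.1 : ℤ), p.2) := by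
  obtain ⟨q, b⟩ := p
  simp only [countPairs, Finset.mem_sigma, Finset.mem_Ico, Finset.mem_filter, Int.ceil_le,
    Int.lt_ceil] at hp
  obtain ⟨⟨h1, h2⟩, ⟨h3, h4⟩, ⟨u, v, huv⟩⟩ := hp
  -- `u q + v b = 1`; need `q b₂ - q₂ b = 1`, `q₂ ≡ -v mod q`, `R ≤ q₂ < R + q`
  have hq : (0 : ℤ) < q := by exact_mod_cast (by omega : 0 < q)
  set c : ℤ := (-v - R) / q with hc
  have h5 : (-v - R) % (q : ℤ) + q * c = -v - R := Int.emod_add_mul_ediv _ _
  have h6 : 0 ≤ (-v - R) % (q : ℤ) := Int.emod_nonneg _ (by omega)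
  have h7 : (-v - R) % (q : ℤ) < q := Int.emod_lt_of_pos _ hq
  refine ⟨(((q : ℤ), b), (-v - q * c, u - b * c)), ?_, rfl⟩
  rw [mem_cells1]
  refine ⟨?_, ?_, by push_cast; exact h3, by push_cast; exact h4, ?_, ?_, ?_⟩
  · simp only; exact_mod_cast h1
  · simp only; exact_mod_cast h2
  · simp only; linarith
  · simp only; linarith
  · simp only; linear_combination huv

theorem count_le_cells1 (R : ℕ) (hR : 1 ≤ R) (A B : ℝ) :
    (countPairs R A B).card ≤ (cells1 R A B).card := by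
  classical
  choose! f hf1 hf2 using count_exists_cell R A B
  apply Finset.card_le_card_of_injOn f
  · intro p hp
    exact hf1 p hp
  · intro p hp q hq hpq
    have e1 := hf2 p hp
    have e2 := hf2 q hq
    rw [hpq, e2] at e1
    obtain ⟨p1, p2⟩ := p
    obtain ⟨q1, q2⟩ := q
    simp only [Prod.mk.injEq, Nat.cast_inj] at e1
    obtain ⟨rfl, rfl⟩ := e1
    rfl

theorem cells1_card_hi {A B : ℝ} (hAB : A < B) :
    ∀ᶠ R : ℕ in atTop, ((cells1 R A B).card : ℝ) ≤ 4 * (B - A) * (R : ℝ) ^ 2 := by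
  have hδ : 0 < B - A := by linarith
  obtain ⟨R₀, hR₀⟩ := exists_nat_ge (1 / (2 * (B - A)))
  filter_upwards [eventually_ge_atTop (R₀ + 1)] with R hR
  have hR1 : 1 ≤ R := by omega
  have hR2 : 1 / (2 * (B - A)) ≤ (R : ℝ) := hR₀.trans (by exact_mod_cast (by omega : R₀ ≤ R))
  rw [div_le_iff₀ (by positivity)] at hR2
  have h1 : ((cells1 R A B).card : ℝ) ≤ ((countPairs R A B).card : ℝ) := by
    exact_mod_cast count_cells1_le R hR1 A B
  refine h1.trans ?_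
  rw [countPairs, Finset.card_sigma]
  push_cast
  have h2 : ∀ q ∈ Finset.Ico R (2 * R),
      ((((Finset.Ico ⌈A * q⌉ ⌈B * q⌉).filter (fun b => IsCoprime (q : ℤ) b)).card : ℕ) : ℝ)
        ≤ 2 * (B - A) * R + 1 := by
    intro q hq
    rw [Finset.mem_Ico] at hq
    have hq2 : (q : ℝ) ≤ 2 * R := by exact_mod_cast hq.2.le
    have hq0 : (0 : ℝ) ≤ q := Nat.cast_nonneg _
    calc ((((Finset.Ico ⌈A * q⌉ ⌈B * q⌉).filter (fun b => IsCoprime (q : ℤ) b)).card : ℕ) : ℝ)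
        ≤ ((Finset.Ico ⌈A * q⌉ ⌈B * q⌉).card : ℝ) := by
          exact_mod_cast Finset.card_filter_le _ _
      _ ≤ B * q - A * q + 1 := count_ico_card_le (by gcongr)
      _ = (B - A) * q + 1 := by ring
      _ ≤ (B - A) * (2 * R) + 1 := by gcongr
      _ = 2 * (B - A) * R + 1 := by ring
  refine (Finset.sum_le_card_nsmul _ _ _ h2).trans ?_
  rw [Nat.card_Ico, nsmul_eq_mul, show 2 * R - R = R by omega]
  have hR0 : (0 : ℝ) ≤ R := Nat.cast_nonneg _
  nlinarith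

/-- The quantitative lower bound. -/
theorem count_lower (R : ℕ) (hR : 1 ≤ R) {A B : ℝ} (hAB : A < B) :
    (B - A) * ((3 * R ^ 2 - R) / 2) - R
      - ∑ d ∈ Finset.Icc 2 (2 * R), ((R : ℝ) / d + 1) * (2 * R * (B - A) / d + 1)
      ≤ ((cells1 R A B).card : ℝ) := by
  classical
  have hδ : 0 < B - A := by linarith
  have h1 : ((countPairs R A B).card : ℝ) ≤ ((cells1 R A B).card : ℝ) := by
    exact_mod_cast count_le_cells1 R hR A B
  refine le_trans ?_ h1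
  rw [countPairs, Finset.card_sigma]
  push_cast
  -- for each `q`
  have h2 : ∀ q ∈ Finset.Ico R (2 * R),
      (B - A) * q - 1 - ∑ d ∈ (Finset.Icc 2 (2 * R)).filter (fun d => d ∣ q), (2 * R * (B - A) / d + 1)
      ≤ ((((Finset.Ico ⌈A * q⌉ ⌈B * q⌉).filter (fun b => IsCoprime (q : ℤ) b)).card : ℕ) : ℝ) := by
    intro q hq
    rw [Finset.mem_Ico] at hq
    have hq2 : (q : ℝ) ≤ 2 * R := by exact_mod_cast hq.2.le
    have hq0 : (0 : ℝ) ≤ q := Nat.cast_nonneg _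
    have hsub : Finset.Ico ⌈A * q⌉ ⌈B * q⌉ ⊆
        ((Finset.Ico ⌈A * q⌉ ⌈B * q⌉).filter (fun b => IsCoprime (q : ℤ) b)) ∪
        ((Finset.Icc 2 (2 * R)).filter (fun d => d ∣ q)).biUnion
          (fun d => (Finset.Ico ⌈A * q⌉ ⌈B * q⌉).filter (fun b : ℤ => (d : ℤ) ∣ b)) := by
      intro b hb
      rw [Finset.mem_union, Finset.mem_filter, Finset.mem_biUnion]
      by_cases hco : IsCoprime (q : ℤ) b
      · exact Or.inl ⟨hb, hco⟩
      · right
        refine ⟨Int.gcd q b, ?_, ?_⟩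
        · rw [Finset.mem_filter, Finset.mem_Icc]
          have hd : Int.gcd q b ∣ q := by
            have := Int.gcd_dvd_left (a := (q : ℤ)) (b := b)
            exact_mod_cast this
          have hq1 : 0 < q := by omega
          have hne1 : Int.gcd q b ≠ 1 := fun h => hco (Int.isCoprime_iff_gcd_eq_one.mpr h)
          have hne0 : Int.gcd q b ≠ 0 := fun h => by
            rw [Int.gcd_eq_zero_iff] at h
            omega
          have := Nat.le_of_dvd hq1 hd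
          exact ⟨⟨by omega, by omega⟩, hd⟩
        · rw [Finset.mem_filter]
          exact ⟨hb, Int.gcd_dvd_right _ _⟩
    have hcard : ((Finset.Ico ⌈A * q⌉ ⌈B * q⌉).card : ℝ) ≤
        (((Finset.Ico ⌈A * q⌉ ⌈B * q⌉).filter (fun b => IsCoprime (q : ℤ) b)).card : ℝ) +
        ∑ d ∈ (Finset.Icc 2 (2 * R)).filter (fun d => d ∣ q),
          (((Finset.Ico ⌈A * q⌉ ⌈B * q⌉).filter (fun b : ℤ => (d : ℤ) ∣ b)).card : ℝ) := by
      exact_mod_cast (Finset.card_le_card hsub).trans ((Finset.card_union_le _ _).trans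
        (Nat.add_le_add_left Finset.card_biUnion_le _))
    have hs : ∑ d ∈ (Finset.Icc 2 (2 * R)).filter (fun d => d ∣ q),
          (((Finset.Ico ⌈A * q⌉ ⌈B * q⌉).filter (fun b : ℤ => (d : ℤ) ∣ b)).card : ℝ)
        ≤ ∑ d ∈ (Finset.Icc 2 (2 * R)).filter (fun d => d ∣ q), (2 * R * (B - A) / d + 1) := by
      apply Finset.sum_le_sum
      intro d hd
      rw [Finset.mem_filter, Finset.mem_Icc] at hd
      refine (count_dvd_card_le (by gcongr) (by omega)).trans ?_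
      have : B * q - A * q ≤ 2 * R * (B - A) := by nlinarith
      gcongr
    have hlow : B * q - A * q - 1 ≤ ((Finset.Ico ⌈A * q⌉ ⌈B * q⌉).card : ℝ) := count_ico_le_card
    linarith
  refine le_trans ?_ (Finset.sum_le_sum h2)
  rw [Finset.sum_sub_distrib, Finset.sum_sub_distrib, ← Finset.mul_sum, count_sum_id]
  rw [Finset.sum_const, Nat.card_Ico, show 2 * R - R = R by omega, nsmul_eq_mul, mul_one]
  apply sub_le_sub_left
  -- exchange the sums
  have h3 : ∑ q ∈ Finset.Ico R (2 * R),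
      ∑ d ∈ (Finset.Icc 2 (2 * R)).filter (fun d => d ∣ q), (2 * (R : ℝ) * (B - A) / d + 1)
      = ∑ d ∈ Finset.Icc 2 (2 * R),
        (((Finset.Ico R (2 * R)).filter (fun q : ℕ => d ∣ q)).card : ℝ) * (2 * (R : ℝ) * (B - A) / d + 1) := by
    simp_rw [Finset.sum_filter]
    rw [Finset.sum_comm]
    refine Finset.sum_congr rfl fun d _ => ?_
    rw [← Finset.sum_filter, Finset.sum_const, nsmul_eq_mul]
  rw [h3]
  apply Finset.sum_le_sum
  intro d hd
  rw [Finset.mem_Icc] at hd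
  have := count_dvd_nat_card_le R (d := d) (by omega)
  have h0 : (0 : ℝ) ≤ 2 * (R : ℝ) * (B - A) / d + 1 := by positivity
  gcongr

theorem cells1_card_lo {A B : ℝ} (hAB : A < B) :
    ∀ᶠ R : ℕ in atTop, (B - A) * (R : ℝ) ^ 2 / 50 ≤ ((cells1 R A B).card : ℝ) := by
  have hδ : 0 < B - A := by linarith
  -- the error term
  have hlim : Tendsto (fun R : ℕ => ((B - A) / 2 + 3 + (1 + 2 * (B - A)) * (1 + Real.log ((2 * R : ℕ) : ℝ)))
      / (R : ℝ)) atTop (𝓝 0) := by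
    have hlog : Tendsto (fun R : ℕ => Real.log (R : ℝ) / (R : ℝ)) atTop (𝓝 0) := by
      have := Real.isLittleO_log_id_atTop.tendsto_div_nhds_zero
      exact this.comp tendsto_natCast_atTop_atTop
    have hinv : Tendsto (fun R : ℕ => (R : ℝ)⁻¹) atTop (𝓝 0) := tendsto_inv_atTop_nhds_zero_nat
    have : Tendsto (fun R : ℕ => ((B - A) / 2 + 3 + (1 + 2 * (B - A)) * (1 + Real.log 2)) * (R : ℝ)⁻¹
        + (1 + 2 * (B - A)) * (Real.log (R : ℝ) / (R : ℝ))) atTop (𝓝 (((B - A) / 2 + 3 + (1 + 2 * (B - A)) * (1 + Real.log 2)) * 0 + (1 + 2 * (B - A)) * 0)) :=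
      (hinv.const_mul _).add (hlog.const_mul _)
    rw [mul_zero, mul_zero, add_zero] at this
    refine this.congr' ?_
    filter_upwards [eventually_ge_atTop 1] with R hR
    have hR0 : (R : ℝ) ≠ 0 := by positivity
    push_cast
    rw [Real.log_mul (by norm_num) hR0]
    field_simp
    ring
  have hev := hlim.eventually (gt_mem_nhds (show (0 : ℝ) < (B - A) * (1 / 9 - 1 / 50) by positivity))
  filter_upwards [hev, eventually_ge_atTop 1] with R h1 hR
  refine le_trans ?_ (count_lower R hR hAB)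
  have hR0 : (0 : ℝ) < R := by exact_mod_cast hR
  rw [div_lt_iff₀ hR0] at h1
  have h2 : ∑ d ∈ Finset.Icc 2 (2 * R), ((R : ℝ) / d + 1) * (2 * R * (B - A) / d + 1)
      = 2 * (R : ℝ) ^ 2 * (B - A) * ∑ d ∈ Finset.Icc 2 (2 * R), (1 : ℝ) / d ^ 2
        + (R : ℝ) * (1 + 2 * (B - A)) * ∑ d ∈ Finset.Icc 2 (2 * R), (1 : ℝ) / d
        + ∑ d ∈ Finset.Icc 2 (2 * R), (1 : ℝ) := by
    rw [Finset.mul_sum, Finset.mul_sum, ← Finset.sum_add_distrib, ← Finset.sum_add_distrib]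
    refine Finset.sum_congr rfl fun d hd => ?_
    rw [Finset.mem_Icc] at hd
    have hd0 : (d : ℝ) ≠ 0 := by
      have : d ≠ 0 := by omega
      exact_mod_cast this
    field_simp
    ring
  rw [h2]
  have h3 := count_sum_inv_sq (2 * R)
  have h4 := count_sum_inv (2 * R)
  have h5 : ∑ d ∈ Finset.Icc 2 (2 * R), (1 : ℝ) ≤ 2 * R := by
    rw [Finset.sum_const, Nat.card_Icc, nsmul_eq_mul, mul_one]
    exact_mod_cast (by omega : 2 * R + 1 - 2 ≤ 2 * R)
  have h6 : 2 * (R : ℝ) ^ 2 * (B - A) * ∑ d ∈ Finset.Icc 2 (2 * R), (1 : ℝ) / d ^ 2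
      ≤ 2 * (R : ℝ) ^ 2 * (B - A) * (25 / 36) := by gcongr
  have h7 : (R : ℝ) * (1 + 2 * (B - A)) * ∑ d ∈ Finset.Icc 2 (2 * R), (1 : ℝ) / d
      ≤ (R : ℝ) * (1 + 2 * (B - A)) * (1 + Real.log ((2 * R : ℕ) : ℝ)) := by gcongr
  nlinarith [mul_lt_mul_of_pos_left h1 hR0]

end MKG
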