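import Pool.Agent.MKG.Defs

/-! # Divisor bound -/

open scoped BigOperators

namespace MKG

theorem divisor_aux1 (e : ℕ) : (e + 1) ^ 5 ≤ 263 * 2 ^ e := by
  rcases Nat.lt_or_ge e 7 with h | h
  · interval_cases e <;> norm_num
  · induction e, h using Nat.le_induction with
    | base => norm_num
    | succ n hn ih =>
      have h1 : (n + 1 + 1) ^ 5 ≤ 2 * (n + 1) ^ 5 := by
        obtain ⟨k, rfl⟩ : ∃ k, n = k + 7 := ⟨n - 7, by omega⟩
        ring_nf
        nlinarith [Nat.zero_le k, Nat.zero_le (k ^ 2), Nat.zero_le (k ^ 3), Nat.zero_le (k ^ 4),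
          Nat.zero_le (k ^ 5)]
      calc (n + 1 + 1) ^ 5 ≤ 2 * (n + 1) ^ 5 := h1
        _ ≤ 2 * (263 * 2 ^ n) := Nat.mul_le_mul_left _ ih
        _ = 263 * 2 ^ (n + 1) := by ring

theorem divisor_aux2 (p e : ℕ) (hp : p.Prime) :
    (e + 1) ^ 5 ≤ (if p < 32 then 263 else 1) * p ^ e := by
  split_ifs with h
  · refine le_trans (divisor_aux1 e) ?_
    exact Nat.mul_le_mul_left _ (Nat.pow_le_pow_left hp.two_le e)
  · rw [one_mul]
    have h1 : e + 1 ≤ 2 ^ e := Nat.lt_two_pow_self
    calc (e + 1) ^ 5 ≤ (2 ^ e) ^ 5 := Nat.pow_le_pow_left h1 5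
      _ = 32 ^ e := by rw [← pow_mul, mul_comm, pow_mul]; norm_num
      _ ≤ p ^ e := Nat.pow_le_pow_left (by omega) e

theorem divisor_bound : ∃ C : ℕ, ∀ n : ℕ, 1 ≤ n → (Nat.divisors n).card ^ 5 ≤ C * n := by
  refine ⟨263 ^ 32, fun n hn => ?_⟩
  have hn0 : n ≠ 0 := by omega
  rw [Nat.card_divisors hn0, ← Finset.prod_pow]
  calc ∏ p ∈ n.primeFactors, (n.factorization p + 1) ^ 5
      ≤ ∏ p ∈ n.primeFactors, ((if p < 32 then 263 else 1) * p ^ n.factorization p) := by
        apply Finset.prod_le_prod'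
        intro p hp
        exact divisor_aux2 p _ (Nat.prime_of_mem_primeFactors hp)
    _ = (∏ p ∈ n.primeFactors, (if p < 32 then 263 else 1)) *
          ∏ p ∈ n.primeFactors, p ^ n.factorization p := Finset.prod_mul_distrib
    _ ≤ 263 ^ 32 * n := by
        apply Nat.mul_le_mul
        · rw [Finset.prod_ite, Finset.prod_const, Finset.prod_const_one, mul_one]
          apply Nat.pow_le_pow_right (by norm_num)
          calc (n.primeFactors.filter (fun p => p < 32)).card ≤ (Finset.range 32).card := by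
                apply Finset.card_le_card
                intro p hp
                rw [Finset.mem_filter] at hp
                exact Finset.mem_range.2 hp.2
            _ = 32 := Finset.card_range 32
        · exact le_of_eq (Nat.prod_factorization_pow_eq_self hn0)

end MKG
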