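import Pool.Agent.MKG.HWc

/-! # Basic Weyl sum: final asymptotics -/

open MeasureTheory Set Filter
open scoped BigOperators ENNReal Topology

namespace MKG

variable {m : ℕ} {Ω : Type*} [MeasurableSpace Ω] {ν : Measure Ω}

theorem HW_corners_card (J : ℕ) {A B : ℝ} (hAB : A < B) :
    ((corners J A B).card : ℝ) ≤ (J : ℝ) ^ 6 * (2 * (B - A) * (J : ℝ) ^ 6 + 1) := by
  have hmaps : ∀ c ∈ corners J A B, c.1 ∈ Finset.Ico ((J : ℤ) ^ 6) (2 * (J : ℤ) ^ 6) := by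
    intro c hc
    rw [mem_corners] at hc
    rw [Finset.mem_Ico]
    exact ⟨hc.1, hc.2.1⟩
  rw [Finset.card_eq_sum_card_fiberwise hmaps]
  push_cast
  have hcardQ : ((Finset.Ico ((J : ℤ) ^ 6) (2 * (J : ℤ) ^ 6)).card : ℝ) = (J : ℝ) ^ 6 := by
    rw [Int.card_Ico]
    have : (2 * (J : ℤ) ^ 6 - (J : ℤ) ^ 6) = ((J ^ 6 : ℕ) : ℤ) := by push_cast; ring
    rw [this, Int.toNat_natCast]
    push_cast; rfl
  calc _ ≤ ∑ _Q ∈ Finset.Ico ((J : ℤ) ^ 6) (2 * (J : ℤ) ^ 6), (2 * (B - A) * (J : ℝ) ^ 6 + 1) := by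
        refine Finset.sum_le_sum fun Q hQ => ?_
        rw [Finset.mem_Ico] at hQ
        have hQ0 : (0:ℝ) ≤ Q := by
          have : (0:ℤ) ≤ (J : ℤ) ^ 6 := by positivity
          exact_mod_cast this.trans hQ.1
        have hQ2 : (Q : ℝ) ≤ 2 * (J : ℝ) ^ 6 := by exact_mod_cast hQ.2.le
        have h1 : ((corners J A B).filter (fun c => c.1 = Q)).card
            ≤ (Finset.Icc ⌈A * Q⌉ ⌊B * Q⌋).card := by
          refine Finset.card_le_card_of_injOn (fun c => c.2) ?_ ?_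
          · intro c hc
            rw [Finset.mem_coe, Finset.mem_filter, mem_corners] at hc
            obtain ⟨⟨-, -, h3, h4⟩, h5⟩ := hc
            rw [h5] at h3 h4
            rw [Finset.mem_coe, Finset.mem_Icc]
            exact ⟨Int.ceil_le.2 h3, Int.le_floor.2 h4⟩
          · intro c hc c' hc' h
            rw [Finset.mem_coe, Finset.mem_filter] at hc hc'
            exact Prod.ext (hc.2.trans hc'.2.symm) h
        have h2 : (((Finset.Icc ⌈A * Q⌉ ⌊B * Q⌋).card : ℕ) : ℝ) ≤ (B - A) * Q + 1 := by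
          rw [Int.card_Icc]
          rcases le_or_gt 0 (⌊B * Q⌋ + 1 - ⌈A * Q⌉) with h | h
          · have : (((⌊B * Q⌋ + 1 - ⌈A * Q⌉).toNat : ℤ) : ℝ) = ⌊B * Q⌋ + 1 - ⌈A * Q⌉ := by
              rw [Int.toNat_of_nonneg h]; push_cast; ring
            have h3 : (((⌊B * Q⌋ + 1 - ⌈A * Q⌉).toNat : ℕ) : ℝ) = ⌊B * Q⌋ + 1 - ⌈A * Q⌉ := by
              rw [← this, Int.cast_natCast]
            rw [h3]
            have h4 := Int.floor_le (B * Q)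
            have h5 := Int.le_ceil (A * Q)
            nlinarith
          · rw [Int.toNat_of_nonpos h.le]
            have : 0 ≤ (B - A) * Q := mul_nonneg (by linarith) hQ0
            push_cast; linarith
        have h3 : (((corners J A B).filter (fun c => c.1 = Q)).card : ℝ) ≤ (B - A) * Q + 1 :=
          le_trans (by exact_mod_cast h1) h2
        refine h3.trans ?_
        nlinarith
    _ = (J : ℝ) ^ 6 * (2 * (B - A) * (J : ℝ) ^ 6 + 1) := by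
        rw [Finset.sum_const, nsmul_eq_mul, hcardQ]

theorem HW_eventually_XX (c : ℝ) : ∀ᶠ k : ℕ in atTop, c ≤ (XX k : ℝ) :=
  (tendsto_natCast_atTop_atTop.comp tendsto_XX).eventually_ge_atTop c

theorem HW_X3_le_J {K : ℕ} (hK : 1 ≤ K) (k : ℕ) : (XX k : ℝ) ^ 3 ≤ JJ K k := by
  have : XX k ^ 3 ≤ JJ K k := Nat.pow_le_pow_right (XX_pos k) (by omega)
  exact_mod_cast this

theorem HW_arith {x j a b V C₁ C w n z : ℝ} (hx1 : 1 ≤ x) (hj : x ^ 3 ≤ j) (ha : 0 < a)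
    (hb : 0 < b) (hV : 0 ≤ V) (hC : 0 < C) (hw0 : 0 ≤ w) (hw : w ≤ a * j ^ 3) (hn0 : 0 ≤ n)
    (hn : n ≤ b * j ^ 6) (hz0 : 0 ≤ z) (hz : z ≤ 9 * C₁ ^ 2 * x ^ 6)
    (h4 : 4 * a * b * V ≤ x) (h5 : 36 * C₁ ^ 2 * C ≤ x) :
    2 * j ^ 6 * (w * (n * V) + j ^ 4 * (z * (j ^ 6 * (C * (1 / x ^ 10))))) ≤
      (j ^ 8) ^ 2 / x ^ 2 := by
  have hx0 : 0 < x := by linarith
  have hj0 : 0 < j := lt_of_lt_of_le (by positivity) hj
  have e1 : w * (n * V) ≤ (a * j ^ 3) * ((b * j ^ 6) * V) := by gcongr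
  have e2 : z * (j ^ 6 * (C * (1 / x ^ 10))) ≤ (9 * C₁ ^ 2 * x ^ 6) * (j ^ 6 * (C * (1 / x ^ 10))) :=
    mul_le_mul_of_nonneg_right hz (by positivity)
  have e3 : 2 * j ^ 6 * (w * (n * V) + j ^ 4 * (z * (j ^ 6 * (C * (1 / x ^ 10)))))
      ≤ 2 * j ^ 6 * ((a * j ^ 3) * ((b * j ^ 6) * V) +
        j ^ 4 * ((9 * C₁ ^ 2 * x ^ 6) * (j ^ 6 * (C * (1 / x ^ 10))))) := by
    refine mul_le_mul_of_nonneg_left ?_ (by positivity)
    exact add_le_add e1 (mul_le_mul_of_nonneg_left e2 (by positivity))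
  have e4 : 2 * j ^ 6 * ((a * j ^ 3) * ((b * j ^ 6) * V) +
        j ^ 4 * ((9 * C₁ ^ 2 * x ^ 6) * (j ^ 6 * (C * (1 / x ^ 10)))))
      = (4 * a * b * V) * j ^ 15 / 2 + (36 * C₁ ^ 2 * C) * (j ^ 16 / x ^ 4) / 2 := by
    field_simp
    ring
  have e5 : (4 * a * b * V) * j ^ 15 ≤ j ^ 16 / x ^ 2 := by
    calc 4 * a * b * V * j ^ 15 ≤ x * j ^ 15 := by gcongr
      _ = (x ^ 3 * j ^ 15) / x ^ 2 := by field_simp
      _ ≤ (j * j ^ 15) / x ^ 2 := by gcongr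
      _ = j ^ 16 / x ^ 2 := by ring
  have e6 : (36 * C₁ ^ 2 * C) * (j ^ 16 / x ^ 4) ≤ j ^ 16 / x ^ 2 := by
    calc 36 * C₁ ^ 2 * C * (j ^ 16 / x ^ 4) ≤ x * (j ^ 16 / x ^ 4) := by gcongr
      _ ≤ x ^ 2 * (j ^ 16 / x ^ 4) := by
        gcongr
        exact le_self_pow₀ hx1 (by norm_num)
      _ = j ^ 16 / x ^ 2 := by field_simp
  have e7 : (j ^ 8) ^ 2 / x ^ 2 = j ^ 16 / x ^ 2 := by ring
  rw [e7]
  linarith

theorem hw [IsFiniteMeasure ν] (D : Family m Ω ν) {A₁ B₁ : ℝ} (hA : D.A < A₁) (hAB : A₁ < B₁)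
    (hB : B₁ < D.B) :
    ∀ᶠ k : ℕ in atTop, ∀ H : Fin m → ℤ, H ≠ 0 → (∀ j, |H j| ≤ (XX k : ℤ) ^ 3) →
      ‖∑ x ∈ Dplus (JJ D.K k) A₁ B₁, ∫ ω, e (dot H (psi (fun t => D.F t ω) x)) ∂ν‖
        ≤ (RR D.K k : ℝ) ^ 2 / (XX k : ℝ) ^ 2 := by
  set T : ℝ := 1 + |D.A| + |D.B| with hTdef
  have hT0 : 0 < T := by positivity
  have hM := D.hM
  have hM0 : 0 < D.M := by linarith
  obtain ⟨C₁, hC₁⟩ := exists_nat_ge (m * D.M * T + 1)
  have hC₁1 : (1:ℝ) ≤ C₁ := le_trans (by have : 0 ≤ m * D.M * T := by positivity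
                                         linarith) hC₁
  set a : ℝ := 1 + 7 * (m * D.M) * T ^ 2 with ha
  set b : ℝ := 2 * (B₁ - A₁) + 1 with hb
  set V : ℝ := ν.real univ with hV
  have hV0 : 0 ≤ V := measureReal_nonneg
  have ha0 : 0 < a := by positivity
  have hb0 : 0 < b := by rw [hb]; linarith
  filter_upwards [HW_eventually_XX (T + 1 + m * D.M), HW_eventually_XX (T / (A₁ - D.A)),
    HW_eventually_XX (T / (D.B - B₁)), HW_eventually_XX (4 * a * b * V),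
    HW_eventually_XX (36 * C₁ ^ 2 * D.C)] with k hk1 hk2 hk3 hk4 hk5
  intro H hH0 hH
  set J := JJ D.K k with hJdef
  set x : ℝ := (XX k : ℝ) with hx
  have hx1 : 1 ≤ x := by rw [hx]; exact_mod_cast XX_pos k
  have hx0 : 0 < x := by linarith
  have hJ1 : 1 ≤ J := JJ_pos _ _
  set j : ℝ := (J : ℝ) with hj
  have hj1 : 1 ≤ j := by rw [hj]; exact_mod_cast hJ1
  have hj0 : 0 < j := by linarith
  have hxj3 : x ^ 3 ≤ j := HW_X3_le_J D.hK k
  have hxj : x ≤ j := le_trans (le_self_pow₀ hx1 (by norm_num)) hxj3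
  have hjx : j = x ^ (14 * D.K) := by
    rw [hj, hJdef, hx]; unfold JJ; push_cast; rfl
  have hRR : (RR D.K k : ℝ) = j ^ 8 := by
    rw [hj, hJdef]; unfold RR; push_cast; rfl
  set P : ℝ := m * x ^ 3 * D.M with hP
  have hP0 : 0 ≤ P := by positivity
  have hPj : P ≤ m * D.M * j := by
    calc P = m * D.M * x ^ 3 := by ring
      _ ≤ m * D.M * j := by gcongr
  have hHr : ∀ i, |(H i : ℝ)| ≤ x ^ 3 := by
    intro i
    have := hH i
    have h2 : ((|H i| : ℤ) : ℝ) ≤ (((XX k : ℤ) ^ 3 : ℤ) : ℝ) := by exact_mod_cast this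
    rw [Int.cast_abs] at h2
    push_cast at h2
    exact h2
  have hgeo : ∀ s : ℝ, 0 < s → T / s ≤ x → T / j ^ 6 ≤ s := by
    intro s hs hsx
    rw [div_le_iff₀ (by positivity)]
    rw [div_le_iff₀ hs] at hsx
    have : x ≤ j ^ 6 := hxj.trans (le_self_pow₀ hj1 (by norm_num))
    nlinarith
  have hδ : (T + 1 + P / j) / j ≤ (1 / x ^ 10) ^ D.K := by
    have h1 : P / j ≤ m * D.M := by
      rw [div_le_iff₀ hj0]; exact hPj
    have h2 : (T + 1 + P / j) / j ≤ x / j := by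
      gcongr
      linarith
    refine h2.trans ?_
    rw [div_pow, one_pow, ← pow_mul, div_le_div_iff₀ hj0 (by positivity), one_mul, hjx,
      ← pow_succ']
    have := D.hK
    exact pow_le_pow_right₀ hx1 (by omega)
  have hZ : P * T + 1 ≤ ((C₁ * XX k ^ 3 : ℕ) : ℝ) := by
    push_cast
    have h1 : (1:ℝ) ≤ x ^ 3 := one_le_pow₀ hx1
    calc P * T + 1 = (m * D.M * T) * x ^ 3 + 1 := by rw [hP]; ring
      _ ≤ (m * D.M * T) * x ^ 3 + x ^ 3 := by linarith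
      _ = (m * D.M * T + 1) * x ^ 3 := by ring
      _ ≤ C₁ * x ^ 3 := by gcongr
  have hus : ∀ i j : ℤ, ((volume.restrict (Icc D.A D.B)).prod ν)
      {z : ℝ × Ω | |dot H (D.F z.1 z.2) - j * z.1 - i| < (1 / x ^ 10) ^ D.K}
      ≤ ENNReal.ofReal (D.C * (1 / x ^ 10)) := by
    intro i j
    refine D.us H hH0 i j (1 / x ^ 10) (by positivity) ?_
    rw [div_le_one (by positivity)]
    exact one_le_pow₀ hx1
  have hmain := HW_avg D hHr (by positivity) (le_refl (m * x ^ 3 * D.M)) hJ1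
    (T := T) (le_refl _) (hgeo _ (by linarith) hk2) (hgeo _ (by linarith) hk3) hδ hZ
    (by have := D.hC; positivity) hus
  rw [HW_sum_eq]
  refine hmain.trans ?_
  rw [← hP, ← hj, ← hV, hRR]
  have hcard : ((corners J A₁ B₁).card : ℝ) / j ^ 6 ≤ b * j ^ 6 := by
    rw [div_le_iff₀ (by positivity)]
    refine (HW_corners_card J hAB).trans ?_
    rw [← hj]
    have h1 : (1:ℝ) ≤ j ^ 6 := one_le_pow₀ hj1
    calc j ^ 6 * (2 * (B₁ - A₁) * j ^ 6 + 1) ≤ j ^ 6 * (2 * (B₁ - A₁) * j ^ 6 + j ^ 6) := by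
          gcongr
      _ = b * j ^ 6 * j ^ 6 := by rw [hb]; ring
  have hT0' : j ^ 3 + 7 * P * T ^ 2 ≤ a * j ^ 3 := by
    have h1 : j ≤ j ^ 3 := le_self_pow₀ hj1 (by norm_num)
    have h2 : P ≤ m * D.M * j ^ 3 := hPj.trans (by gcongr)
    calc j ^ 3 + 7 * P * T ^ 2 ≤ j ^ 3 + 7 * (m * D.M * j ^ 3) * T ^ 2 := by gcongr
      _ = a * j ^ 3 := by rw [ha]; ring
  have hZ2 : (2 * ((C₁ * XX k ^ 3 : ℕ) : ℝ) + 1) ^ 2 ≤ 9 * C₁ ^ 2 * x ^ 6 := by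
    push_cast
    rw [← hx]
    have h1 : (1:ℝ) ≤ C₁ * x ^ 3 := one_le_mul_of_one_le_of_one_le hC₁1 (one_le_pow₀ hx1)
    calc (2 * (C₁ * x ^ 3) + 1) ^ 2 ≤ (3 * (C₁ * x ^ 3)) ^ 2 :=
          pow_le_pow_left₀ (by positivity) (by linarith) 2
      _ = 9 * C₁ ^ 2 * x ^ 6 := by ring
  exact HW_arith hx1 hxj3 ha0 hb0 hV0 D.hC (by positivity) hT0' (by positivity) hcard
    (by positivity) hZ2 hk4 hk5

theorem Dplus_card (D : Family m Ω ν) {A₁ B₁ : ℝ} (hAB : A₁ < B₁) :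
    ∀ᶠ k : ℕ in atTop, ((Dplus (JJ D.K k) A₁ B₁).card : ℝ) ≤ 4 * (B₁ - A₁) * (RR D.K k : ℝ) ^ 2 := by
  filter_upwards [HW_eventually_XX (1 / (2 * (B₁ - A₁)))] with k hk
  set J := JJ D.K k with hJdef
  set j : ℝ := (J : ℝ) with hj
  have hJ1 : 1 ≤ J := JJ_pos _ _
  have hj1 : 1 ≤ j := by rw [hj]; exact_mod_cast hJ1
  have hj0 : 0 < j := by linarith
  have hRR : (RR D.K k : ℝ) = j ^ 8 := by
    rw [hj, hJdef]; unfold RR; push_cast; rfl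
  have h1 : ((Dplus J A₁ B₁).card : ℝ) ≤ (corners J A₁ B₁).card * j ^ 4 := by
    have h2 : (Dplus J A₁ B₁).card ≤ (corners J A₁ B₁).card * (J ^ 2 * J ^ 2) := by
      unfold Dplus
      refine Finset.card_image_le.trans (le_of_eq ?_)
      have : ((J : ℤ) ^ 2 - 0).toNat = J ^ 2 := by
        have : ((J : ℤ) ^ 2 - 0) = ((J ^ 2 : ℕ) : ℤ) := by push_cast; ring
        rw [this, Int.toNat_natCast]
      rw [Finset.card_product, Finset.card_product, Int.card_Ico, this]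
    calc ((Dplus J A₁ B₁).card : ℝ) ≤ (((corners J A₁ B₁).card * (J ^ 2 * J ^ 2) : ℕ) : ℝ) := by
          exact_mod_cast h2
      _ = (corners J A₁ B₁).card * j ^ 4 := by push_cast; rw [← hj]; ring
  have h3 := HW_corners_card J hAB
  rw [← hj] at h3
  have hx1 : (1:ℝ) ≤ XX k := by exact_mod_cast XX_pos k
  have hxj : (XX k : ℝ) ≤ j := by rw [hj]; exact_mod_cast XX_le_JJ D.hK k
  have hj6 : 1 ≤ 2 * (B₁ - A₁) * j ^ 6 := by
    have h4 : j ≤ j ^ 6 := le_self_pow₀ hj1 (by norm_num)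
    rw [div_le_iff₀ (by linarith)] at hk
    have h5 : (0:ℝ) < 2 * (B₁ - A₁) := by linarith
    nlinarith
  rw [hRR]
  calc ((Dplus J A₁ B₁).card : ℝ) ≤ (corners J A₁ B₁).card * j ^ 4 := h1
    _ ≤ (j ^ 6 * (2 * (B₁ - A₁) * j ^ 6 + 1)) * j ^ 4 := by gcongr
    _ ≤ (j ^ 6 * (2 * (B₁ - A₁) * j ^ 6 + 2 * (B₁ - A₁) * j ^ 6)) * j ^ 4 := by gcongr
    _ = 4 * (B₁ - A₁) * (j ^ 8) ^ 2 := by ring

theorem cells1_fst_mem_Dplus (D : Family m Ω ν) {A₁ A B B₁ : ℝ} (hA : A₁ < A) (hAB : A < B)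
    (hB : B < B₁) :
    ∀ᶠ k : ℕ in atTop, ∀ g ∈ cellSet (RR D.K k) A B, g.1 ∈ Dplus (JJ D.K k) A₁ B₁ := by
  filter_upwards [HW_eventually_XX ((|A| + 1) / (A - A₁)), HW_eventually_XX (|B| / (B₁ - B))]
    with k hk1 hk2
  rintro ⟨⟨q, b⟩, g₂⟩ ⟨h1, h2, h3, h4, -⟩
  simp only at h1 h2 h3 h4 ⊢
  set J := JJ D.K k with hJdef
  have hJ1 : 1 ≤ J := JJ_pos _ _
  have hJZ : (1:ℤ) ≤ J := by exact_mod_cast hJ1
  have hRR : ((RR D.K k : ℕ) : ℤ) = (J : ℤ) ^ 2 * (J : ℤ) ^ 6 := by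
    rw [hJdef]; unfold RR; push_cast; ring
  have hJ2 : (0:ℤ) < (J : ℤ) ^ 2 := by positivity
  rw [hRR] at h1 h2
  have hq : (J : ℤ) ^ 2 * (q / (J : ℤ) ^ 2) + q % (J : ℤ) ^ 2 = q := Int.mul_ediv_add_emod _ _
  have hb : (J : ℤ) ^ 2 * (b / (J : ℤ) ^ 2) + b % (J : ℤ) ^ 2 = b := Int.mul_ediv_add_emod _ _
  have hqm0 := Int.emod_nonneg q hJ2.ne'
  have hqm1 := Int.emod_lt_of_pos q hJ2
  have hbm0 := Int.emod_nonneg b hJ2.ne'
  have hbm1 := Int.emod_lt_of_pos b hJ2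
  set Q := q / (J : ℤ) ^ 2 with hQdef
  set Bc := b / (J : ℤ) ^ 2 with hBdef
  set i := q % (J : ℤ) ^ 2 with hidef
  set l := b % (J : ℤ) ^ 2 with hldef
  have hQ1 : (J : ℤ) ^ 6 ≤ Q := by
    rw [hQdef]
    exact Int.le_ediv_of_mul_le hJ2 (by linarith)
  have hQ2 : Q < 2 * (J : ℤ) ^ 6 := by
    rw [hQdef]
    exact Int.ediv_lt_of_lt_mul hJ2 (by linarith)
  -- real versions
  have hjr : (1:ℝ) ≤ J := by exact_mod_cast hJ1
  set j : ℝ := (J : ℝ) with hj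
  have hj0 : 0 < j := by linarith
  have hqr : j ^ 2 * Q + i = q := by rw [hj]; exact_mod_cast hq
  have hbr : j ^ 2 * Bc + l = b := by rw [hj]; exact_mod_cast hb
  have hi0 : (0:ℝ) ≤ i := by exact_mod_cast hqm0
  have hi1 : (i:ℝ) ≤ j ^ 2 := by rw [hj]; exact_mod_cast hqm1.le
  have hl0 : (0:ℝ) ≤ l := by exact_mod_cast hbm0
  have hl1 : (l:ℝ) ≤ j ^ 2 := by rw [hj]; exact_mod_cast hbm1.le
  have hQr : j ^ 6 ≤ Q := by rw [hj]; exact_mod_cast hQ1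
  have hxj : (XX k : ℝ) ≤ j := by rw [hj]; exact_mod_cast XX_le_JJ D.hK k
  have hxQ : (XX k : ℝ) ≤ Q := by
    have : j ≤ j ^ 6 := le_self_pow₀ hjr (by norm_num)
    linarith
  have hj2 : (0:ℝ) < j ^ 2 := by positivity
  unfold Dplus
  rw [Finset.mem_image]
  refine ⟨((Q, Bc), (i, l)), ?_, by simp only [hq, hb]⟩
  rw [Finset.mem_product, Finset.mem_product, mem_corners, Finset.mem_Ico, Finset.mem_Ico]
  refine ⟨⟨hQ1, hQ2, ?_, ?_⟩, ⟨hqm0, hqm1⟩, ⟨hbm0, hbm1⟩⟩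
  · -- lower bound
    simp only
    rw [div_le_iff₀ (by linarith)] at hk1
    have e1 : |A| + 1 ≤ Q * (A - A₁) := by nlinarith
    have e2 : A * q ≤ j ^ 2 * Bc + l := by rw [hbr]; exact h3
    have e3 : A * i ≥ -(|A| * j ^ 2) := by
      have : |A * i| ≤ |A| * j ^ 2 := by
        rw [abs_mul, abs_of_nonneg hi0]; gcongr
      have := neg_abs_le (A * i)
      linarith
    have e4 : j ^ 2 * (A₁ * Q) ≤ j ^ 2 * Bc := by
      rw [← hqr] at e2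
      nlinarith
    exact le_of_mul_le_mul_left e4 hj2
  · simp only
    rw [div_le_iff₀ (by linarith)] at hk2
    have e1 : |B| ≤ Q * (B₁ - B) := by nlinarith
    have e2 : j ^ 2 * Bc + l ≤ B * q := by rw [hbr]; exact h4.le
    have e3 : B * i ≤ |B| * j ^ 2 := by
      have : |B * i| ≤ |B| * j ^ 2 := by
        rw [abs_mul, abs_of_nonneg hi0]; gcongr
      have := le_abs_self (B * i)
      linarith
    have e4 : j ^ 2 * Bc ≤ j ^ 2 * (B₁ * Q) := by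
      rw [← hqr] at e2
      nlinarith
    exact le_of_mul_le_mul_left e4 hj2

end MKG
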