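import Pool.Agent.MKG.Rank2
import Pool.Agent.MKG.HW
import Pool.Agent.MKG.Count
import Pool.Agent.MKG.Comp
import Pool.Agent.MKG.Divisor

/-! # Existence of good cell systems -/

open MeasureTheory Set Filter
open scoped BigOperators ENNReal Topology

namespace MKG

variable {m : ℕ} {Ω : Type*} [MeasurableSpace Ω] {ν : Measure Ω}

/-- Factorisation of rank one pairs. -/
theorem rank_one_factor (H₁ H₂ : Fin m → ℤ) (hne : H₁ ≠ 0 ∨ H₂ ≠ 0)
    (hdep : ¬ ∀ i j : ℤ, i • H₁ + j • H₂ = 0 → i = 0 ∧ j = 0) :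
    ∃ (H₀ : Fin m → ℤ) (h₁ h₂ : ℤ), H₀ ≠ 0 ∧ (h₁ ≠ 0 ∨ h₂ ≠ 0) ∧ H₁ = h₁ • H₀ ∧ H₂ = h₂ • H₀ := by
  push Not at hdep
  obtain ⟨i, j, hij, hij0⟩ := hdep
  -- divide by the gcd
  have hg : Int.gcd i j ≠ 0 := by
    intro h0
    rw [Int.gcd_eq_zero_iff] at h0
    exact hij0 h0.1 h0.2
  set g : ℤ := (Int.gcd i j : ℤ) with hgdef
  have hg0 : g ≠ 0 := by rw [hgdef]; exact_mod_cast hg
  obtain ⟨a, ha⟩ : g ∣ i := Int.gcd_dvd_left ..
  obtain ⟨b, hb⟩ : g ∣ j := Int.gcd_dvd_right ..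
  obtain ⟨u, v, huv⟩ : ∃ u v : ℤ, u * a + v * b = 1 := by
    have hbz := Int.gcd_eq_gcd_ab i j
    refine ⟨Int.gcdA i j, Int.gcdB i j, ?_⟩
    have : g * (Int.gcdA i j * a + Int.gcdB i j * b) = g * 1 := by
      rw [mul_one]
      calc g * (Int.gcdA i j * a + Int.gcdB i j * b)
          = (g * a) * Int.gcdA i j + (g * b) * Int.gcdB i j := by ring
        _ = g := by rw [← ha, ← hb]; exact hbz.symm
    exact mul_left_cancel₀ hg0 this
  have hab : ∀ l, a * H₁ l + b * H₂ l = 0 := by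
    intro l
    have h1 : i * H₁ l + j * H₂ l = 0 := by
      have := congrFun hij l
      simpa using this
    rw [ha, hb] at h1
    have : g * (a * H₁ l + b * H₂ l) = g * 0 := by linarith
    exact mul_left_cancel₀ hg0 this
  refine ⟨v • H₁ - u • H₂, b, -a, ?_, ?_, ?_, ?_⟩
  · intro h0
    have h1 : ∀ l, v * H₁ l - u * H₂ l = 0 := fun l => by
      have := congrFun h0 l
      simpa using this
    have h2 : H₁ = 0 := by
      ext l
      have : H₁ l = b * (v * H₁ l - u * H₂ l) := by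
        linear_combination (-(H₁ l)) * huv + u * hab l
      rw [this, h1 l]; simp
    have h3 : H₂ = 0 := by
      ext l
      have : H₂ l = -a * (v * H₁ l - u * H₂ l) := by
        linear_combination (-(H₂ l)) * huv + v * hab l
      rw [this, h1 l]; simp
    rcases hne with h | h
    · exact h h2
    · exact h h3
  · by_contra hcon
    push Not at hcon
    obtain ⟨hb0, ha0⟩ := hcon
    have ha0' : a = 0 := by linarith
    rw [hb0, ha0'] at huv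
    simp at huv
  · ext l
    simp only [Pi.smul_apply, Pi.sub_apply, smul_eq_mul]
    linear_combination (-(H₁ l)) * huv + u * hab l
  · ext l
    simp only [Pi.smul_apply, Pi.sub_apply, smul_eq_mul]
    linear_combination (-(H₂ l)) * huv + v * hab l

/-- The Weyl bound for the linearised sum, all ranks. -/
theorem ww_bound [IsFiniteMeasure ν] (D : Family m Ω ν) {A₁ A B B₁ : ℝ} (hA₁ : D.A < A₁)
    (hA : A₁ < A) (hAB : A < B) (hB : B < B₁) (hB₁ : B₁ < D.B) :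
    ∃ C : ℝ, 0 ≤ C ∧ ∀ᶠ k : ℕ in atTop, ∀ H₁ H₂ : Fin m → ℤ, (H₁ ≠ 0 ∨ H₂ ≠ 0) →
      (∀ j, |H₁ j| ≤ 2 ^ (5 * k)) → (∀ j, |H₂ j| ≤ 2 ^ (5 * k)) →
      ‖WW D (RR D.K k) (XX k) A B H₁ H₂‖
        ≤ C * (RR D.K k : ℝ) ^ 2 * (XX k : ℝ) ^ 2 / 2 ^ (14 * k) := by
  obtain ⟨Cd', hCd'⟩ := divisor_bound
  set Cd := Cd' + 1 with hCd
  have hCdb : ∀ n : ℕ, 1 ≤ n → (Nat.divisors n).card ^ 5 ≤ Cd * n := fun n hn =>
    (hCd' n hn).trans (Nat.mul_le_mul_right _ (by omega))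
  set T : ℝ := 4 * (B₁ - A₁) * ν.real univ with hT
  have hAB₁ : A₁ < B₁ := by linarith
  have hT0 : 0 ≤ T := by
    have : 0 ≤ ν.real univ := measureReal_nonneg
    have : 0 ≤ B₁ - A₁ := by linarith
    positivity
  refine ⟨200 * Cd * (T + 1), by positivity, ?_⟩
  filter_upwards [hw D hA₁ hAB₁ hB₁, Dplus_card D hAB₁, cells1_fst_mem_Dplus D hA hAB hB,
    eventually_ge_atTop 1] with k hhw hcard hmem hk H₁ H₂ hne hb₁ hb₂
  have hsub : ∀ ρ ∈ cells1 (RR D.K k) A B, ρ.1 ∈ Dplus (JJ D.K k) A₁ B₁ :=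
    fun ρ hρ => hmem ρ (mem_cells1.mp hρ)
  have hTk : (Dplus (JJ D.K k) A₁ B₁).card * ν.real univ ≤ T * (RR D.K k : ℝ) ^ 2 := by
    calc (Dplus (JJ D.K k) A₁ B₁).card * ν.real univ
        ≤ (4 * (B₁ - A₁) * (RR D.K k : ℝ) ^ 2) * ν.real univ :=
          mul_le_mul_of_nonneg_right hcard measureReal_nonneg
      _ = _ := by rw [hT]; ring
  have hR := RR_pos D.K k
  by_cases hind : ∀ i j : ℤ, i • H₁ + j • H₂ = 0 → i = 0 ∧ j = 0
  · exact ww_rank2_aux D hR hk rfl A B _ hsub T hTk hT0 hhw Cd (by omega) hCdb H₁ H₂ hind hb₁ hb₂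
  · obtain ⟨H₀, h₁, h₂, hH₀, hh, e1, e2⟩ := rank_one_factor H₁ H₂ hne hind
    obtain ⟨l, hl⟩ : ∃ l, H₀ l ≠ 0 := by
      by_contra hcon
      push Not at hcon
      exact hH₀ (funext hcon)
    have hl1 : 1 ≤ |H₀ l| := Int.one_le_abs hl
    have bh₁ : |h₁| ≤ 2 ^ (5 * k) := by
      have := hb₁ l
      rw [e1] at this
      simp only [Pi.smul_apply, smul_eq_mul, abs_mul] at this
      exact (le_mul_of_one_le_right (abs_nonneg _) hl1).trans this
    have bh₂ : |h₂| ≤ 2 ^ (5 * k) := by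
      have := hb₂ l
      rw [e2] at this
      simp only [Pi.smul_apply, smul_eq_mul, abs_mul] at this
      exact (le_mul_of_one_le_right (abs_nonneg _) hl1).trans this
    have bH₀ : ∀ j, |H₀ j| ≤ 2 ^ (5 * k) := by
      intro j
      rcases hh with h | h
      · have := hb₁ j
        rw [e1] at this
        simp only [Pi.smul_apply, smul_eq_mul, abs_mul] at this
        exact (le_mul_of_one_le_left (abs_nonneg _) (Int.one_le_abs h)).trans this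
      · have := hb₂ j
        rw [e2] at this
        simp only [Pi.smul_apply, smul_eq_mul, abs_mul] at this
        exact (le_mul_of_one_le_left (abs_nonneg _) (Int.one_le_abs h)).trans this
    rw [e1, e2]
    refine (ww_rank1_aux D (X := XX k) hR hk rfl A B _ hsub T hTk hT0 hhw H₀ hH₀ bH₀
      h₁ h₂ hh bh₁ bh₂).trans ?_
    have hCd1 : (1 : ℝ) ≤ Cd := by rw [hCd]; push_cast; linarith [(Nat.cast_nonneg Cd' : (0 : ℝ) ≤ Cd')]
    have : 200 * (T + 1) ≤ 200 * Cd * (T + 1) := by nlinarith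
    gcongr

/-- Linearisation of `ψ` at a positive combination of two adjacent vertices. -/
theorem psi_comb {A B M : ℝ} {G G' : ℝ → Fin m → ℝ} (hG : IsCurve A B M G G') (hM : 0 ≤ M)
    {q₁ b₁ q₂ b₂ x y : ℤ} (hq₁ : 0 < q₁) (hq₂ : 0 < q₂) (hx : 0 < x) (hy : 0 < y)
    (huni : q₁ * b₂ - q₂ * b₁ = 1) (hA : A ≤ (b₁ : ℝ) / q₁) (hB : (b₂ : ℝ) / q₂ ≤ B) (j : Fin m) :
    |psi G (x * q₁ + y * q₂, x * b₁ + y * b₂) j - (x * psi G (q₁, b₁) j + y * psi G (q₂, b₂) j)|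
      ≤ (x * q₁ + y * q₂) * (M / ((q₁ : ℝ) * q₂) ^ 2) := by
  have p1 : (0 : ℝ) < q₁ := by exact_mod_cast hq₁
  have p2 : (0 : ℝ) < q₂ := by exact_mod_cast hq₂
  have px : (0 : ℝ) < x := by exact_mod_cast hx
  have py : (0 : ℝ) < y := by exact_mod_cast hy
  have hur : (q₁ : ℝ) * b₂ - q₂ * b₁ = 1 := by exact_mod_cast huni
  set q : ℝ := x * q₁ + y * q₂ with hq
  have pq : 0 < q := by positivity
  set t₁ : ℝ := (b₁ : ℝ) / q₁ with ht₁
  set t₂ : ℝ := (b₂ : ℝ) / q₂ with ht₂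
  set t : ℝ := (x * b₁ + y * b₂) / q with ht
  have e1 : (b₁ : ℝ) = q₁ * t₁ := by rw [ht₁]; field_simp
  have e2 : (b₂ : ℝ) = q₂ * t₂ := by rw [ht₂]; field_simp
  have hqt : q * t = x * b₁ + y * b₂ := by rw [ht]; field_simp
  have h12 : t₂ - t₁ = 1 / (q₁ * q₂) := by
    rw [ht₁, ht₂]; field_simp; linarith
  have h12pos : 0 < t₂ - t₁ := by rw [h12]; positivity
  have hd1 : t - t₁ = y * q₂ / q * (t₂ - t₁) := by
    have : q * (t - t₁) = y * q₂ * (t₂ - t₁) := by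
      rw [mul_sub, hqt, e1, e2, hq]; ring
    field_simp; linarith
  have hd2 : t₂ - t = x * q₁ / q * (t₂ - t₁) := by
    have : q * (t₂ - t) = x * q₁ * (t₂ - t₁) := by
      rw [mul_sub, hqt, e1, e2, hq]; ring
    field_simp; linarith
  have hf1 : 0 ≤ y * q₂ / q := by positivity
  have hf1' : y * q₂ / q ≤ 1 := by rw [div_le_one pq, hq]; nlinarith [mul_pos px p1]
  have hf2 : 0 ≤ x * q₁ / q := by positivity
  have hf2' : x * q₁ / q ≤ 1 := by rw [div_le_one pq, hq]; nlinarith [mul_pos py p2]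
  have g1 : 0 ≤ t - t₁ := by rw [hd1]; positivity
  have g1' : t - t₁ ≤ t₂ - t₁ := by rw [hd1]; nlinarith
  have g2 : 0 ≤ t₂ - t := by rw [hd2]; positivity
  have g2' : t₂ - t ≤ t₂ - t₁ := by rw [hd2]; nlinarith
  have mt : t ∈ Icc A B := ⟨by linarith, by linarith⟩
  have mt1 : t₁ ∈ Icc A B := ⟨hA, by linarith⟩
  have mt2 : t₂ ∈ Icc A B := ⟨by linarith, hB⟩
  have q1 := hG.qr t mt t₁ mt1 j
  have q2 := hG.qr t mt t₂ mt2 j
  have hsq1 : (t₁ - t) ^ 2 ≤ (1 / ((q₁ : ℝ) * q₂)) ^ 2 := by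
    rw [← h12]; nlinarith
  have hsq2 : (t₂ - t) ^ 2 ≤ (1 / ((q₁ : ℝ) * q₂)) ^ 2 := by
    rw [← h12]; nlinarith
  have c1 : |G t₁ j - G t j - (t₁ - t) * G' t j| ≤ M * (1 / ((q₁ : ℝ) * q₂)) ^ 2 :=
    q1.trans (mul_le_mul_of_nonneg_left hsq1 hM)
  have c2 : |G t₂ j - G t j - (t₂ - t) * G' t j| ≤ M * (1 / ((q₁ : ℝ) * q₂)) ^ 2 :=
    q2.trans (mul_le_mul_of_nonneg_left hsq2 hM)
  have hlin : x * q₁ * (t₁ - t) + y * q₂ * (t₂ - t) = 0 := by
    have : x * q₁ * (t₁ - t) + y * q₂ * (t₂ - t) = (x * (q₁ * t₁) + y * (q₂ * t₂)) - q * t := by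
      rw [hq]; ring
    rw [this, ← e1, ← e2, hqt]; ring
  have hexp : psi G (x * q₁ + y * q₂, x * b₁ + y * b₂) j
      - (x * psi G (q₁, b₁) j + y * psi G (q₂, b₂) j)
      = -(x * q₁ * (G t₁ j - G t j - (t₁ - t) * G' t j)
        + y * q₂ * (G t₂ j - G t j - (t₂ - t) * G' t j)) := by
    have h0 : psi G (x * q₁ + y * q₂, x * b₁ + y * b₂) j = q * G t j := by
      simp only [psi]; push_cast; rfl
    have h1 : psi G (q₁, b₁) j = q₁ * G t₁ j := rfl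
    have h2 : psi G (q₂, b₂) j = q₂ * G t₂ j := rfl
    rw [h0, h1, h2]
    have : q * G t j = x * q₁ * G t j + y * q₂ * G t j := by rw [hq]; ring
    rw [this]
    linear_combination (-(G' t j)) * hlin
  rw [hexp, abs_neg]
  calc |x * q₁ * (G t₁ j - G t j - (t₁ - t) * G' t j)
        + y * q₂ * (G t₂ j - G t j - (t₂ - t) * G' t j)|
      ≤ |x * q₁ * (G t₁ j - G t j - (t₁ - t) * G' t j)|
        + |y * q₂ * (G t₂ j - G t j - (t₂ - t) * G' t j)| := abs_add_le _ _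
    _ = x * q₁ * |G t₁ j - G t j - (t₁ - t) * G' t j|
        + y * q₂ * |G t₂ j - G t j - (t₂ - t) * G' t j| := by
        rw [abs_mul ((x : ℝ) * q₁), abs_mul ((y : ℝ) * q₂), abs_of_pos (mul_pos px p1),
          abs_of_pos (mul_pos py p2)]
    _ ≤ x * q₁ * (M * (1 / ((q₁ : ℝ) * q₂)) ^ 2) + y * q₂ * (M * (1 / ((q₁ : ℝ) * q₂)) ^ 2) := by
        gcongr
    _ = _ := by rw [hq]; ring


/-- The error made by linearising all vertices. -/
theorem weyl_lin_error [IsFiniteMeasure ν] (D : Family m Ω ν) {A B : ℝ} (hA : D.A ≤ A)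
    (hB : B < D.B) {R X : ℕ} (hR : 1 ≤ R) (hX : 1 ≤ X) (hRB : 1 / (R : ℝ) ^ 2 ≤ D.B - B)
    (H₁ H₂ : Fin m → ℤ) {P : ℝ} (hP₁ : ∀ j, |(H₁ j : ℝ)| ≤ P) (hP₂ : ∀ j, |(H₂ j : ℝ)| ≤ P)
    :
    ‖∑ i ∈ cells1 R A B ×ˢ cells1 X 1 2, ∫ ω, e (dot H₁ (psi (fun t => D.F t ω) (comp i).1)
        + dot H₂ (psi (fun t => D.F t ω) (comp i).2)) ∂ν - WW D R X A B H₁ H₂‖
      ≤ ((cells1 R A B).card * (cells1 X 1 2).card) *
        (2 * Real.pi * (m * P * (54 * D.M * X / (R : ℝ) ^ 3)) * ν.real univ) := by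
  have hXr : (1 : ℝ) ≤ X := by exact_mod_cast hX
  have hRr : (1 : ℝ) ≤ R := by exact_mod_cast hR
  have hM := D.hM
  have hWW : WW D R X A B H₁ H₂ = ∑ i ∈ cells1 R A B ×ˢ cells1 X 1 2,
      ∫ ω, e (dot (i.2.1.1 • H₁ + i.2.2.1 • H₂) (psi (fun t => D.F t ω) i.1.1)
        + dot (i.2.1.2 • H₁ + i.2.2.2 • H₂) (psi (fun t => D.F t ω) i.1.2)) ∂ν := by
    unfold WW muhat
    rw [Finset.sum_product_right]
  rw [hWW, ← Finset.sum_sub_distrib]
  refine (norm_sum_le _ _).trans ?_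
  have hcard : ((cells1 R A B).card * (cells1 X 1 2).card : ℝ)
      = ((cells1 R A B ×ˢ cells1 X 1 2).card : ℝ) := by
    rw [Finset.card_product]; push_cast; ring
  rw [hcard, ← nsmul_eq_mul]
  refine Finset.sum_le_card_nsmul _ _ _ fun i hi => ?_
  obtain ⟨hρ, hx⟩ := Finset.mem_product.mp hi
  rw [mem_cells1] at hρ hx
  obtain ⟨ρ, x⟩ := i
  simp only at hρ hx
  have hok := comp_ok hA hB hR hX hRB hρ hx
  obtain ⟨c1, c2, c3, c4, c5, c6, c7, c8, c9⟩ := comp_coef hX hx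
  obtain ⟨r1, r2, r3, r4, r5, r6, r7⟩ := hρ
  have hR' : (1 : ℤ) ≤ R := by exact_mod_cast hR
  have hX' : (1 : ℤ) ≤ X := by exact_mod_cast hX
  have q1pos : 0 < ρ.1.1 := by omega
  have q2pos : 0 < ρ.2.1 := by omega
  have q1r : (R : ℝ) ≤ ρ.1.1 := by exact_mod_cast r1
  have q2r : (R : ℝ) ≤ ρ.2.1 := by exact_mod_cast r5
  have q1p : (0 : ℝ) < ρ.1.1 := by exact_mod_cast q1pos
  have q2p : (0 : ℝ) < ρ.2.1 := by exact_mod_cast q2pos
  have hgap : (ρ.2.2 : ℝ) / ρ.2.1 - (ρ.1.2 : ℝ) / ρ.1.1 ≤ 1 / (R : ℝ) ^ 2 := by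
    have hur : (ρ.1.1 : ℝ) * ρ.2.2 - ρ.2.1 * ρ.1.2 = 1 := by exact_mod_cast r7
    have : (ρ.2.2 : ℝ) / ρ.2.1 - (ρ.1.2 : ℝ) / ρ.1.1 = 1 / (ρ.1.1 * ρ.2.1) := by
      field_simp; linarith
    rw [this]
    apply one_div_le_one_div_of_le (by positivity)
    nlinarith
  have hA' : D.A ≤ (ρ.1.2 : ℝ) / ρ.1.1 := by
    rw [le_div_iff₀ q1p]
    have := mul_le_mul_of_nonneg_right hA q1p.le
    linarith
  have hB' : (ρ.2.2 : ℝ) / ρ.2.1 ≤ D.B := by
    have : (ρ.1.2 : ℝ) / ρ.1.1 < B := by rw [div_lt_iff₀ q1p]; exact r4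
    linarith
  -- pointwise bound on the phases
  have hone : ∀ (π₁ π₂ : ℤ), 0 < π₁ → 0 < π₂ → (π₁ * ρ.1.1 + π₂ * ρ.2.1 ≤ 27 * (X * R : ℕ)) →
      ∀ (ω : Ω) (j : Fin m), |psi (fun t => D.F t ω) (π₁ * ρ.1.1 + π₂ * ρ.2.1, π₁ * ρ.1.2 + π₂ * ρ.2.2) j
        - (π₁ * psi (fun t => D.F t ω) ρ.1 j + π₂ * psi (fun t => D.F t ω) ρ.2 j)|
        ≤ 27 * D.M * X / (R : ℝ) ^ 3 := by
    intro π₁ π₂ h1 h2 h3 ω j
    refine (psi_comb (D.curve ω) (by linarith) q1pos q2pos h1 h2 r7 hA' hB' j).trans ?_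
    have h3r : (π₁ : ℝ) * ρ.1.1 + π₂ * ρ.2.1 ≤ 27 * (X * R) := by exact_mod_cast h3
    have h4 : D.M / ((ρ.1.1 : ℝ) * ρ.2.1) ^ 2 ≤ D.M / ((R : ℝ) * R) ^ 2 := by
      gcongr
    have h5 : (0 : ℝ) ≤ D.M / ((ρ.1.1 : ℝ) * ρ.2.1) ^ 2 := by positivity
    calc ((π₁ : ℝ) * ρ.1.1 + π₂ * ρ.2.1) * (D.M / ((ρ.1.1 : ℝ) * ρ.2.1) ^ 2)
        ≤ (27 * (X * R)) * (D.M / ((R : ℝ) * R) ^ 2) := by
          apply mul_le_mul h3r h4 h5 (by positivity)
      _ = _ := by field_simp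
  have hsz1 := hok.hi₁
  have hsz2 := hok.hi₂
  have hph : ∀ ω, |(dot H₁ (psi (fun t => D.F t ω) (comp (ρ, x)).1)
        + dot H₂ (psi (fun t => D.F t ω) (comp (ρ, x)).2))
      - (dot (x.1.1 • H₁ + x.2.1 • H₂) (psi (fun t => D.F t ω) ρ.1)
        + dot (x.1.2 • H₁ + x.2.2 • H₂) (psi (fun t => D.F t ω) ρ.2))|
      ≤ m * P * (54 * D.M * X / (R : ℝ) ^ 3) := by
    intro ω
    have e1 : (dot H₁ (psi (fun t => D.F t ω) (comp (ρ, x)).1)
        + dot H₂ (psi (fun t => D.F t ω) (comp (ρ, x)).2))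
      - (dot (x.1.1 • H₁ + x.2.1 • H₂) (psi (fun t => D.F t ω) ρ.1)
        + dot (x.1.2 • H₁ + x.2.2 • H₂) (psi (fun t => D.F t ω) ρ.2))
      = dot H₁ (fun j => psi (fun t => D.F t ω) (comp (ρ, x)).1 j
          - (x.1.1 * psi (fun t => D.F t ω) ρ.1 j + x.1.2 * psi (fun t => D.F t ω) ρ.2 j))
        + dot H₂ (fun j => psi (fun t => D.F t ω) (comp (ρ, x)).2 j
          - (x.2.1 * psi (fun t => D.F t ω) ρ.1 j + x.2.2 * psi (fun t => D.F t ω) ρ.2 j)) := by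
      simp only [dot, Pi.add_apply, Pi.smul_apply, smul_eq_mul]
      push_cast
      rw [← Finset.sum_add_distrib, ← Finset.sum_add_distrib, ← Finset.sum_sub_distrib,
        ← Finset.sum_add_distrib]
      refine Finset.sum_congr rfl fun j _ => ?_
      ring
    rw [e1]
    refine (abs_add_le _ _).trans ?_
    have f1 := abs_dot_le H₁ (fun j => psi (fun t => D.F t ω) (comp (ρ, x)).1 j
          - (x.1.1 * psi (fun t => D.F t ω) ρ.1 j + x.1.2 * psi (fun t => D.F t ω) ρ.2 j))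
          hP₁ (Y := 27 * D.M * X / (R : ℝ) ^ 3)
          (fun j => hone x.1.1 x.1.2 (by omega) (by omega) hsz1 ω j)
    have f2 := abs_dot_le H₂ (fun j => psi (fun t => D.F t ω) (comp (ρ, x)).2 j
          - (x.2.1 * psi (fun t => D.F t ω) ρ.1 j + x.2.2 * psi (fun t => D.F t ω) ρ.2 j))
          hP₂ (Y := 27 * D.M * X / (R : ℝ) ^ 3)
          (fun j => hone x.2.1 x.2.2 (by omega) (by omega) hsz2 ω j)
    calc _ ≤ m * P * (27 * D.M * X / (R : ℝ) ^ 3) + m * P * (27 * D.M * X / (R : ℝ) ^ 3) :=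
          add_le_add f1 f2
      _ = _ := by ring
  -- integrate
  have mm1 : Measurable (fun ω => dot H₁ (psi (fun t => D.F t ω) (comp (ρ, x)).1)
        + dot H₂ (psi (fun t => D.F t ω) (comp (ρ, x)).2)) :=
    (measurable_dot_psi D H₁ (comp (ρ, x)).1).add (measurable_dot_psi D H₂ (comp (ρ, x)).2)
  have mm2 : Measurable (fun ω => dot (x.1.1 • H₁ + x.2.1 • H₂) (psi (fun t => D.F t ω) ρ.1)
        + dot (x.1.2 • H₁ + x.2.2 • H₂) (psi (fun t => D.F t ω) ρ.2)) :=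
    (measurable_dot_psi D (x.1.1 • H₁ + x.2.1 • H₂) ρ.1).add
      (measurable_dot_psi D (x.1.2 • H₁ + x.2.2 • H₂) ρ.2)
  rw [← integral_sub (integrable_of_bdd' ν (Measurable.e_comp mm1) fun y => (norm_e _).le)
    (integrable_of_bdd' ν (Measurable.e_comp mm2) fun y => (norm_e _).le)]
  refine norm_integral_le_of_norm_le_const (Eventually.of_forall fun ω => ?_)
  refine (norm_e_sub_e_le _ _).trans ?_
  have hpi := Real.pi_pos
  exact mul_le_mul_of_nonneg_left (hph ω) (by positivity)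

/-- Existence of cell systems. -/
theorem exists_cellSys [IsFiniteMeasure ν] (D : Family m Ω ν) :
    ∀ᶠ k : ℕ in atTop, Nonempty (CellSys D k ((bb D.K) ^ k)) := by
  set w := D.B - D.A with hw
  have hw0 : 0 < w := by have := D.hAB; linarith
  set A₁ := D.A + w / 8 with hA₁
  set A := D.A + w / 4 with hA
  set B := D.B - w / 4 with hB
  set B₁ := D.B - w / 8 with hB₁
  have hAB : A < B := by rw [hA, hB]; linarith
  have hBA : B - A = w / 2 := by rw [hA, hB]; linarith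
  obtain ⟨C, hC0, hC⟩ := ww_bound D (A₁ := A₁) (A := A) (B := B) (B₁ := B₁)
    (by linarith) (by linarith) hAB (by linarith) (by linarith)
  have hRlo := (tendsto_RR D.hK).eventually (cells1_card_lo hAB)
  have hRhi := (tendsto_RR D.hK).eventually (cells1_card_hi hAB)
  have hXlo := tendsto_XX.eventually (cells1_card_lo (by norm_num : (1 : ℝ) < 2))
  have hXhi := tendsto_XX.eventually (cells1_card_hi (by norm_num : (1 : ℝ) < 2))
  have hRB : ∀ᶠ k : ℕ in atTop, 1 / (RR D.K k : ℝ) ^ 2 ≤ D.B - B := by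
    have h1 : Tendsto (fun k => (RR D.K k : ℝ)) atTop atTop :=
      tendsto_natCast_atTop_atTop.comp (tendsto_RR D.hK)
    have h2 : Tendsto (fun k => 1 / (RR D.K k : ℝ) ^ 2) atTop (𝓝 0) := by
      have h3 : Tendsto (fun k => (RR D.K k : ℝ) ^ 2) atTop atTop :=
        (tendsto_pow_atTop (by norm_num : 2 ≠ 0)).comp h1
      exact h3.inv_tendsto_atTop.congr fun k => by simp
    exact (h2.eventually (ge_mem_nhds (by linarith : (0 : ℝ) < D.B - B)))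
  -- the two smallness conditions
  set C₂ : ℝ := 8 * w * (2 * Real.pi * (m * (54 * D.M)) * ν.real univ) with hC₂
  have hC₂0 : 0 ≤ C₂ := by
    have := D.hM
    have := Real.pi_pos
    have : 0 ≤ ν.real univ := measureReal_nonneg
    positivity
  have hbig : ∀ᶠ k : ℕ in atTop, 2 * C ≤ 2 ^ k ∧ 2 * C₂ ≤ 2 ^ k := by
    have h1 : Tendsto (fun k : ℕ => (2 : ℝ) ^ k) atTop atTop :=
      tendsto_pow_atTop_atTop_of_one_lt (by norm_num)
    exact (h1.eventually_ge_atTop _).and (h1.eventually_ge_atTop _)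
  filter_upwards [hC, hRlo, hRhi, hXlo, hXhi, hRB, hbig] with k kC kRlo kRhi kXlo kXhi kRB kbig
  have hR := RR_pos D.K k
  have hX := XX_pos k
  set R := RR D.K k with hRdef
  set X := XX k with hXdef
  have hN : X * R = (bb D.K) ^ k := XX_mul_RR D.K k
  have hRr : (1 : ℝ) ≤ R := by exact_mod_cast hR
  have hXr : (1 : ℝ) ≤ X := by exact_mod_cast hX
  rw [← hN]
  refine ⟨⟨cells1 R A B ×ˢ cells1 X 1 2, comp, ?_, ?_, ?_, ?_, ?_⟩⟩
  · rintro ⟨ρ, x⟩ hi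
    obtain ⟨h1, h2⟩ := Finset.mem_product.mp hi
    exact comp_ok (by linarith) (by linarith) hR hX kRB (mem_cells1.mp h1) (mem_cells1.mp h2)
  · rintro ⟨ρ, x⟩ hi ⟨ρ', x'⟩ hj hne
    obtain ⟨h1, h2⟩ := Finset.mem_product.mp hi
    obtain ⟨h3, h4⟩ := Finset.mem_product.mp hj
    exact comp_disj hR hX (mem_cells1.mp h1) (mem_cells1.mp h2) (mem_cells1.mp h3)
      (mem_cells1.mp h4) hne
  · rw [Finset.card_product]
    push_cast
    rw [hBA] at kRlo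
    have h21 : (2 : ℝ) - 1 = 1 := by norm_num
    rw [h21, one_mul] at kXlo
    calc w * ((X : ℝ) * R) ^ 2 / 5000 = (w / 2 * (R : ℝ) ^ 2 / 50) * ((X : ℝ) ^ 2 / 50) := by ring
      _ ≤ _ := mul_le_mul kRlo kXlo (by positivity) (by positivity)
  · rw [Finset.card_product]
    push_cast
    rw [hBA] at kRhi
    have h21 : (2 : ℝ) - 1 = 1 := by norm_num
    rw [h21, mul_one] at kXhi
    calc _ ≤ (4 * (w / 2) * (R : ℝ) ^ 2) * (4 * (X : ℝ) ^ 2) :=
          mul_le_mul kRhi kXhi (by positivity) (by positivity)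
      _ = _ := by ring
  · intro H₁ H₂ hne hb₁ hb₂
    have hP₁ : ∀ j, |(H₁ j : ℝ)| ≤ 2 ^ (5 * k) := fun j => by exact_mod_cast hb₁ j
    have hP₂ : ∀ j, |(H₂ j : ℝ)| ≤ 2 ^ (5 * k) := fun j => by exact_mod_cast hb₂ j
    have herr := weyl_lin_error D (A := A) (B := B) (by linarith) (by linarith) hR hX kRB
      H₁ H₂ hP₁ hP₂
    have hmain := kC H₁ H₂ hne hb₁ hb₂
    set Ssum := ∑ i ∈ cells1 R A B ×ˢ cells1 X 1 2,
      ∫ ω, e (dot H₁ (psi (fun t => D.F t ω) (comp i).1)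
        + dot H₂ (psi (fun t => D.F t ω) (comp i).2)) ∂ν with hSsum
    have htri : ‖Ssum‖ ≤ ‖Ssum - WW D R X A B H₁ H₂‖ + ‖WW D R X A B H₁ H₂‖ := by
      have := norm_add_le (Ssum - WW D R X A B H₁ H₂) (WW D R X A B H₁ H₂)
      simpa using this
    -- main term
    have hm1 : C * (R : ℝ) ^ 2 * (X : ℝ) ^ 2 / 2 ^ (14 * k)
        ≤ (((X * R : ℕ) : ℝ) ^ 2 / 2 ^ (13 * k)) / 2 := by
      rw [div_div, div_le_div_iff₀ (by positivity) (by positivity)]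
      have e1 : (2 : ℝ) ^ (14 * k) = 2 ^ (13 * k) * 2 ^ k := by rw [← pow_add]; congr 1; ring
      rw [e1]; push_cast
      calc C * (R : ℝ) ^ 2 * (X : ℝ) ^ 2 * (2 ^ (13 * k) * 2)
          = (2 * C) * ((R : ℝ) ^ 2 * (X : ℝ) ^ 2 * 2 ^ (13 * k)) := by ring
        _ ≤ 2 ^ k * ((R : ℝ) ^ 2 * (X : ℝ) ^ 2 * 2 ^ (13 * k)) := by
            exact mul_le_mul_of_nonneg_right kbig.1 (by positivity)
        _ = _ := by ring
    have hm2 : ((cells1 R A B).card * (cells1 X 1 2).card) *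
        (2 * Real.pi * (m * (2 ^ (5 * k)) * (54 * D.M * X / (R : ℝ) ^ 3)) * ν.real univ)
        ≤ (((X * R : ℕ) : ℝ) ^ 2 / 2 ^ (13 * k)) / 2 := by
      rw [hBA] at kRhi
      have h21 : (2 : ℝ) - 1 = 1 := by norm_num
      rw [h21, mul_one] at kXhi
      have hνr : 0 ≤ ν.real univ := measureReal_nonneg
      have hM := D.hM
      have hpi := Real.pi_pos
      have hcards : ((cells1 R A B).card * (cells1 X 1 2).card : ℝ) ≤ 8 * w * ((X : ℝ) * R) ^ 2 := by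
        calc _ ≤ (4 * (w / 2) * (R : ℝ) ^ 2) * (4 * (X : ℝ) ^ 2) :=
              mul_le_mul kRhi kXhi (by positivity) (by positivity)
          _ = _ := by ring
      have hXR : (X : ℝ) * 2 ^ (19 * k) ≤ (R : ℝ) ^ 3 := by
        have hJ : X ≤ JJ D.K k := XX_le_JJ D.hK k
        have h1 : X ^ 8 ≤ R := by
          rw [hRdef]; unfold RR
          exact Nat.pow_le_pow_left hJ 8
        have h2 : X * 2 ^ (19 * k) ≤ R ^ 3 := by
          have h3 : 2 ^ (19 * k) ≤ X := by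
            rw [hXdef]; unfold XX
            exact Nat.pow_le_pow_right (by norm_num) (by omega)
          calc X * 2 ^ (19 * k) ≤ X * X := Nat.mul_le_mul_left _ h3
            _ = X ^ 2 := by ring
            _ ≤ X ^ 8 := Nat.pow_le_pow_right hX (by norm_num)
            _ ≤ R := h1
            _ ≤ R ^ 3 := Nat.le_self_pow (by norm_num) _
        exact_mod_cast h2
      rw [div_div, le_div_iff₀ (by positivity)]
      calc ((cells1 R A B).card * (cells1 X 1 2).card) *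
          (2 * Real.pi * (m * (2 ^ (5 * k)) * (54 * D.M * X / (R : ℝ) ^ 3)) * ν.real univ)
            * (2 ^ (13 * k) * 2)
          ≤ (8 * w * ((X : ℝ) * R) ^ 2) *
          (2 * Real.pi * (m * (2 ^ (5 * k)) * (54 * D.M * X / (R : ℝ) ^ 3)) * ν.real univ)
            * (2 ^ (13 * k) * 2) := by gcongr
        _ = ((X : ℝ) * R) ^ 2 * (2 * C₂ * ((X : ℝ) * (2 ^ (5 * k) * 2 ^ (13 * k)) / (R : ℝ) ^ 3)) := by
            rw [hC₂]; ring
        _ ≤ ((X : ℝ) * R) ^ 2 * (2 ^ k * ((X : ℝ) * (2 ^ (5 * k) * 2 ^ (13 * k)) / (R : ℝ) ^ 3)) := by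
            have : 0 ≤ (X : ℝ) * (2 ^ (5 * k) * 2 ^ (13 * k)) / (R : ℝ) ^ 3 := by positivity
            exact mul_le_mul_of_nonneg_left (mul_le_mul_of_nonneg_right kbig.2 this) (by positivity)
        _ = ((X : ℝ) * R) ^ 2 * ((X : ℝ) * 2 ^ (19 * k) / (R : ℝ) ^ 3) := by
            have : (2 : ℝ) ^ (19 * k) = 2 ^ k * (2 ^ (5 * k) * 2 ^ (13 * k)) := by
              rw [← pow_add, ← pow_add]; congr 1; ring
            rw [this]; ring
        _ ≤ ((X : ℝ) * R) ^ 2 * 1 := by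
            apply mul_le_mul_of_nonneg_left _ (by positivity)
            rw [div_le_one (by positivity)]
            exact hXR
        _ = _ := by push_cast; ring
    calc ‖Ssum‖ ≤ _ := htri
      _ ≤ (((X * R : ℕ) : ℝ) ^ 2 / 2 ^ (13 * k)) / 2 + (((X * R : ℕ) : ℝ) ^ 2 / 2 ^ (13 * k)) / 2 :=
          add_le_add (herr.trans hm2) (hmain.trans hm1)
      _ = _ := by ring

end MKG
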