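import Pool.Agent.MKG.CoreC
import Pool.Agent.MKG.WL
import Pool.Agent.MKG.Divergence

/-! # The core theorem: positive proportion -/

open MeasureTheory Set Filter
open scoped BigOperators ENNReal Topology

namespace MKG

variable {m : ℕ} {Ω : Type*} [MeasurableSpace Ω] {ν : Measure Ω}

/-- arithmetic of the exponents of one shape -/
theorem shape_arith {b d w k L : ℕ} (hb : 10 ≤ b) (hk : k + L = w) (h16 : 16 * b * L ≤ w)
    (hw : (w + 1) ^ (16 * (d + 2)) ≤ 2 ^ w) :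
    w ≤ 2 * k ∧ (2 ^ b) ^ L ≤ 2 ^ k ∧ (w + 1) ^ (d + 2) ≤ 2 ^ w ∧ ((2 ^ b) ^ L) ^ 16 ≤ 2 ^ w := by
  have h1 : 16 * L ≤ w := by nlinarith
  have h2 : w ≤ 2 * k := by omega
  have h3 : b * L ≤ k := by nlinarith
  refine ⟨h2, ?_, ?_, ?_⟩
  · rw [← pow_mul]; exact Nat.pow_le_pow_right (by norm_num) h3
  · refine le_trans ?_ hw
    exact Nat.pow_le_pow_right (by omega) (by omega)
  · rw [← pow_mul, ← pow_mul]
    refine Nat.pow_le_pow_right (by norm_num) ?_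
    calc b * (L * 16) = 16 * b * L := by ring
      _ ≤ w := h16

/-- arithmetic in Regime II -/
theorem regimeII_arith {b d w k L w' k' L' : ℕ} (hb : 10 ≤ b) (hkk : k' ≤ k)
    (hk : k + L = w) (h16 : 16 * b * L ≤ w) (hw : (w + 1) ^ (16 * (d + 2)) ≤ 2 ^ w)
    (hk' : k' + L' = w') (h16' : 16 * b * L' ≤ w') (hw' : (w' + 1) ^ (16 * (d + 2)) ≤ 2 ^ w')
    (hk'2 : 2 ≤ k')
    (h : ((2 ^ b) ^ (k - k')) ^ 2 ≤ (2 ^ b) ^ L' * (w' + 1) ^ (d + 2)) :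
    (2 ^ b) ^ (k - k') ≤ 2 ^ k' ∧ 2 * (2 ^ b) ^ L ≤ 2 ^ k' ∧ 2 * (2 ^ b) ^ L' ≤ 2 ^ k' ∧
      (w + 1) ^ (d + 2) * (2 ^ b) ^ L ≤ 2 ^ (2 * k') ∧
      (w' + 1) ^ (d + 2) * (2 ^ b) ^ L' ≤ 2 ^ (2 * k') := by
  obtain ⟨a1, a2, a3, a4⟩ := shape_arith hb hk h16 hw
  obtain ⟨b1, b2, b3, b4⟩ := shape_arith hb hk' h16' hw'
  have h8 : 8 * b * (k - k') ≤ k' := by
    have e1 : (((2 ^ b) ^ (k - k')) ^ 2) ^ 16 ≤ 2 ^ (4 * k') := by
      calc (((2 ^ b) ^ (k - k')) ^ 2) ^ 16 ≤ ((2 ^ b) ^ L' * (w' + 1) ^ (d + 2)) ^ 16 :=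
            Nat.pow_le_pow_left h 16
        _ = ((2 ^ b) ^ L') ^ 16 * (w' + 1) ^ (16 * (d + 2)) := by
            rw [mul_pow, ← pow_mul (w' + 1)]; congr 2; ring
        _ ≤ 2 ^ w' * 2 ^ w' := Nat.mul_le_mul b4 hw'
        _ = 2 ^ (2 * w') := by rw [← pow_add]; congr 1; ring
        _ ≤ 2 ^ (4 * k') := Nat.pow_le_pow_right (by norm_num) (by omega)
    rw [← pow_mul, ← pow_mul, ← pow_mul, Nat.pow_le_pow_iff_right (by norm_num)] at e1
    nlinarith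
  have hbk : b * (k - k') ≤ k' := by nlinarith
  have hk2 : k ≤ 2 * k' := by
    have : k - k' ≤ b * (k - k') := Nat.le_mul_of_pos_left _ (by omega)
    omega
  have hbL : b * L + 1 ≤ k' := by nlinarith
  have hbL' : b * L' + 1 ≤ k' := by nlinarith
  refine ⟨?_, ?_, ?_, ?_, ?_⟩
  · rw [← pow_mul]; exact Nat.pow_le_pow_right (by norm_num) hbk
  · rw [← pow_mul, mul_comm, ← pow_succ]; exact Nat.pow_le_pow_right (by norm_num) hbL
  · rw [← pow_mul, mul_comm, ← pow_succ]; exact Nat.pow_le_pow_right (by norm_num) hbL'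
  · rw [← Nat.pow_le_pow_iff_left (n := 16) (by norm_num)]
    calc ((w + 1) ^ (d + 2) * (2 ^ b) ^ L) ^ 16
        = (w + 1) ^ (16 * (d + 2)) * ((2 ^ b) ^ L) ^ 16 := by
          rw [mul_pow, ← pow_mul (w + 1)]; congr 2; ring
      _ ≤ 2 ^ w * 2 ^ w := Nat.mul_le_mul hw a4
      _ = 2 ^ (2 * w) := by rw [← pow_add]; congr 1; ring
      _ ≤ 2 ^ (2 * k' * 16) := Nat.pow_le_pow_right (by norm_num) (by omega)
      _ = _ := by rw [pow_mul]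
  · rw [← Nat.pow_le_pow_iff_left (n := 16) (by norm_num)]
    calc ((w' + 1) ^ (d + 2) * (2 ^ b) ^ L') ^ 16
        = (w' + 1) ^ (16 * (d + 2)) * ((2 ^ b) ^ L') ^ 16 := by
          rw [mul_pow, ← pow_mul (w' + 1)]; congr 2; ring
      _ ≤ 2 ^ w' * 2 ^ w' := Nat.mul_le_mul hw' b4
      _ = 2 ^ (2 * w') := by rw [← pow_add]; congr 1; ring
      _ ≤ 2 ^ (2 * k' * 16) := Nat.pow_le_pow_right (by norm_num) (by omega)
      _ = _ := by rw [pow_mul]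

/-- A vector determines its shape. -/
theorem shape_inj {β : ℕ} (hβ : 1024 ≤ β) {k k' : ℕ} {l l' : Fin m → ℕ} {Z Z' : ℕ}
    {v : ℤ × ℤ × (Fin m → ℤ)} (h : v ∈ shape β (β ^ k) l Z) (h' : v ∈ shape β (β ^ k') l' Z') :
    k = k' ∧ l = l' := by
  unfold shape at h h'
  rw [Finset.mem_product, Finset.mem_product, Finset.mem_Icc, Finset.mem_Icc] at h h'
  obtain ⟨-, ⟨r1, r2⟩, ha⟩ := h
  obtain ⟨-, ⟨r1', r2'⟩, ha'⟩ := h'
  have aux : ∀ (i j : ℕ) (x : ℤ), ((β : ℤ) ^ i) ≤ x → x ≤ 500 * (β : ℤ) ^ j → i ≤ j := by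
    intro i j x h1 h2
    by_contra hcon
    push Not at hcon
    have h3 : (β : ℤ) ^ (j + 1) ≤ (β : ℤ) ^ i := pow_le_pow_right₀ (by exact_mod_cast (by omega)) hcon
    rw [pow_succ] at h3
    have h4 : (0 : ℤ) < (β : ℤ) ^ j := by positivity
    have h5 : (1024 : ℤ) ≤ β := by exact_mod_cast hβ
    nlinarith
  push_cast at r1 r2 r1' r2'
  refine ⟨le_antisymm (aux _ _ _ r1 r2') (aux _ _ _ r1' r2), ?_⟩
  funext j
  rw [Fintype.mem_piFinset] at ha ha'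
  have h1 := Finset.mem_Ico.mp (ha j)
  have h2 := Finset.mem_Ico.mp (ha' j)
  have p1 : (0 : ℤ) < (β : ℤ) ^ (l j) := by positivity
  have p2 : (0 : ℤ) < (β : ℤ) ^ (l' j) := by positivity
  exact le_antisymm (aux _ _ _ h1.1 (by linarith [h2.2])) (aux _ _ _ h2.1 (by linarith [h1.2]))

/-- Selecting finitely many weights. -/
theorem select_weights {d K₁ : ℕ} (hK₁ : 1 ≤ K₁) (δ : ℕ → ℝ) (hδ0 : ∀ w, 0 ≤ δ w)
    (hδ : ¬ Summable (fun w : ℕ => (w : ℝ) ^ d * δ w)) (w₀ : ℕ) :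
    ∃ W : Finset ℕ, (∀ w ∈ W, w₀ ≤ w ∧ 1 / ((w : ℝ) + 1) ^ (d + 2) ≤ δ w) ∧
      1 ≤ ∑ w ∈ W, ((w / K₁ + 1 : ℕ) : ℝ) ^ d * δ w := by
  classical
  set g : ℕ → ℝ := fun w => if (w₀ ≤ w ∧ 1 / ((w : ℝ) + 1) ^ (d + 2) ≤ δ w) then
    (w : ℝ) ^ d * δ w else 0 with hg
  have hg0 : ∀ w, 0 ≤ g w := by
    intro w; simp only [hg]; split_ifs
    · exact mul_nonneg (by positivity) (hδ0 w)
    · exact le_rfl
  have hgn : ¬ Summable g := by
    intro hs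
    apply hδ
    have h2 : Summable (fun w : ℕ => 1 / ((w : ℝ) + 1) ^ 2) := by
      have := (summable_nat_add_iff 1).mpr (Real.summable_one_div_nat_pow.mpr (by norm_num : 1 < 2))
      simpa using this
    have h3 : Summable (fun w : ℕ => if w < w₀ then (w : ℝ) ^ d * δ w else 0) := by
      apply summable_of_ne_finset_zero (s := Finset.range w₀)
      intro w hw
      rw [Finset.mem_range] at hw
      rw [if_neg hw]
    refine Summable.of_nonneg_of_le (fun w => mul_nonneg (by positivity) (hδ0 w)) ?_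
      ((hs.add h3).add h2)
    intro w
    have hpos2 : 0 ≤ 1 / ((w : ℝ) + 1) ^ 2 := by positivity
    by_cases hw : w < w₀
    · rw [if_pos hw]; linarith [hg0 w]
    · rw [if_neg hw]
      by_cases hG : 1 / ((w : ℝ) + 1) ^ (d + 2) ≤ δ w
      · have : g w = (w : ℝ) ^ d * δ w := by
          simp only [hg]; rw [if_pos ⟨by omega, hG⟩]
        rw [this]; linarith
      · push Not at hG
        have h5 : (w : ℝ) ^ d * δ w ≤ 1 / ((w : ℝ) + 1) ^ 2 := by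
          have hw1 : (0 : ℝ) < (w : ℝ) + 1 := by positivity
          calc (w : ℝ) ^ d * δ w ≤ ((w : ℝ) + 1) ^ d * (1 / ((w : ℝ) + 1) ^ (d + 2)) := by
                apply mul_le_mul _ hG.le (hδ0 w) (by positivity)
                exact pow_le_pow_left₀ (by positivity) (by linarith) d
            _ = _ := by rw [pow_add]; field_simp
        linarith [hg0 w]
  have htend := (not_summable_iff_tendsto_nat_atTop_of_nonneg hg0).mp hgn
  obtain ⟨n, hn⟩ := (htend.eventually_ge_atTop ((K₁ : ℝ) ^ d)).exists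
  refine ⟨(Finset.range n).filter (fun w => w₀ ≤ w ∧ 1 / ((w : ℝ) + 1) ^ (d + 2) ≤ δ w), ?_, ?_⟩
  · intro w hw; exact (Finset.mem_filter.mp hw).2
  · have hK : (0 : ℝ) < (K₁ : ℝ) ^ d := by positivity
    have h1 : (K₁ : ℝ) ^ d * 1 ≤ (K₁ : ℝ) ^ d *
        ∑ w ∈ (Finset.range n).filter (fun w => w₀ ≤ w ∧ 1 / ((w : ℝ) + 1) ^ (d + 2) ≤ δ w),
          ((w / K₁ + 1 : ℕ) : ℝ) ^ d * δ w := by
      rw [mul_one]
      refine hn.trans ?_
      rw [Finset.mul_sum, Finset.sum_filter]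
      refine Finset.sum_le_sum fun w _ => ?_
      simp only [hg]
      split_ifs with h
      · rw [← mul_assoc, ← mul_pow]
        apply mul_le_mul_of_nonneg_right _ (hδ0 w)
        apply pow_le_pow_left₀ (by positivity)
        have : w ≤ K₁ * (w / K₁ + 1) := by
          have := Nat.div_add_mod w K₁
          have := Nat.mod_lt w (by omega : K₁ > 0)
          nlinarith
        exact_mod_cast this
      · exact le_rfl
    exact le_of_mul_le_mul_left h1 hK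


theorem core_aux [IsFiniteMeasure ν] (D : Family (m + 1) Ω ν) {b β : ℕ} (hb10 : 10 ≤ b)
    (hβdef : β = 2 ^ b) (hβ : 1024 ≤ β)
    (hsysE : ∀ᶠ k : ℕ in atTop, Nonempty (CellSys D k (β ^ k))) (ψ : ℝ → ℝ)
    (hpos : ∀ h, 0 < h → 0 < ψ h) (hanti : AntitoneOn ψ (Ioi 0))
    (hdiv : ¬ Summable (fun h : ℕ => (Real.log (h + 1)) ^ (m + 1) * ψ (h + 1))) (i₀ : ℕ) :
    ENNReal.ofReal (10⁻¹ ^ 50 * (D.B - D.A)) * ν univ ≤ (volume.prod ν) {z : ℝ × Ω |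
      z.1 ∈ Icc D.A D.B ∧ ∃ (p r : ℤ) (a : Fin (m + 1) → ℤ), (i₀ : ℤ) ≤ r ∧ (1 ≤ r) ∧
        (∀ j, 1 ≤ a j) ∧
        |lin (fun t => D.F t z.2) (p, r, a) z.1| < ψ ((r : ℝ) * ∏ j, (a j : ℝ))} := by
  classical
  by_cases hν : ν univ = 0
  · rw [hν, mul_zero]; exact zero_le
  -- parameters
  obtain ⟨d, hd⟩ : ∃ d : ℕ, d = m + 1 := ⟨_, rfl⟩
  have hβ1 : 1 ≤ β := by omega
  have hβr : (1 : ℝ) ≤ β := by exact_mod_cast hβ1
  have hβ0 : (0 : ℝ) < β := by linarith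
  obtain ⟨K₁, hK₁⟩ : ∃ K₁ : ℕ, K₁ = 16 * b * d := ⟨_, rfl⟩
  have hK₁pos : 1 ≤ K₁ := by rw [hK₁, hd]; nlinarith
  have hM := D.hM
  have hBA : 0 < D.B - D.A := by have := D.hAB; linarith
  -- the weights
  obtain ⟨Cm, hCm⟩ : ∃ Cm : ℕ, Cm = 500 * 2 ^ d := ⟨_, rfl⟩
  set δ : ℕ → ℝ := fun w => min ((β : ℝ) ^ w * ψ (Cm * (β : ℝ) ^ w)) (1 / 8) with hδ
  have hCmr : (0 : ℝ) < Cm := by rw [hCm]; positivity
  have hδpos : ∀ w, 0 < δ w := fun w => by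
    simp only [hδ]
    exact lt_min (mul_pos (by positivity) (hpos _ (by positivity))) (by norm_num)
  have hδle : ∀ w, δ w ≤ 1 / 8 := fun w => min_le_right _ _
  have hδψ : ∀ w, δ w / (β : ℝ) ^ w ≤ ψ (Cm * (β : ℝ) ^ w) := fun w => by
    rw [div_le_iff₀ (by positivity), mul_comm]
    exact min_le_left _ _
  have hδdiv : ¬ Summable (fun w : ℕ => (w : ℝ) ^ d * δ w) :=
    divergence (by omega) (1 / 8) (by norm_num) Cm
      (by rw [hCm]; exact Nat.one_le_iff_ne_zero.mpr (by positivity)) ψ hpos hanti (by rw [hd]; exact hdiv)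
  -- thresholds
  obtain ⟨k₁, hk₁⟩ := hsysE.exists_forall_of_atTop
  obtain ⟨k₂, hk₂⟩ := regimeII (by omega : 0 < m + 1) D hν hβ
  have hpoly : ∀ᶠ w : ℕ in atTop, (w + 1) ^ (16 * (d + 2)) ≤ 2 ^ w := by
    have h1 : (fun n : ℕ => ((n : ℝ)) ^ (16 * (d + 2))) =o[atTop] (fun n : ℕ => (2 : ℝ) ^ n) :=
      isLittleO_pow_const_const_pow_of_one_lt _ (by norm_num)
    have h2 := (h1.bound (by norm_num : (0 : ℝ) < 1 / 2))
    have h3 := (tendsto_add_atTop_nat 1).eventually h2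
    filter_upwards [h3] with w hw
    rw [Real.norm_of_nonneg (by positivity), Real.norm_of_nonneg (by positivity)] at hw
    have h4 : ((w : ℝ) + 1) ^ (16 * (d + 2)) ≤ 2 ^ w := by
      have h5 : (1 : ℝ) / 2 * 2 ^ (w + 1) = 2 ^ w := by rw [pow_succ]; ring
      rw [h5] at hw
      simpa using hw
    exact_mod_cast h4
  obtain ⟨w₁, hw₁⟩ := hpoly.exists_forall_of_atTop
  obtain ⟨k₃, hk₃⟩ := exists_nat_ge (8 * ((m + 1 : ℕ) : ℝ) * D.M * (1 + (D.B - D.A)))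
  obtain ⟨k₄, hk₄⟩ := exists_nat_ge ((4 * ((m + 1 : ℕ) : ℝ) * D.M + 4) / (D.B - D.A))
  set k₀ : ℕ := k₁ + k₂ + k₃ + k₄ + i₀ + 2 with hk₀
  set w₀ : ℕ := 2 * k₀ + w₁ with hw₀
  obtain ⟨W, hW, hWsum⟩ := select_weights hK₁pos δ (fun w => (hδpos w).le) hδdiv w₀
  -- the shapes
  set box : ℕ → Finset (Fin (m + 1) → ℕ) := fun w =>
    Fintype.piFinset (fun _ => Finset.range (w / K₁ + 1)) with hbox
  set 𝒮 : Finset (Σ _ : ℕ, (Fin (m + 1) → ℕ)) := W.sigma box with h𝒮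
  set kk : (Σ _ : ℕ, (Fin (m + 1) → ℕ)) → ℕ := fun s => s.1 - ∑ j, s.2 j with hkk
  set ψψ : (Σ _ : ℕ, (Fin (m + 1) → ℕ)) → ℝ := fun s => δ s.1 / (β : ℝ) ^ s.1 with hψψ
  set ZZ : (Σ _ : ℕ, (Fin (m + 1) → ℕ)) → ℕ := fun s =>
    ⌈500 * (β : ℝ) ^ (kk s) * (|D.A| + |D.B|) + 2 * ((m + 1 : ℕ) : ℝ) * (β : ℝ) ^ (∑ j, s.2 j) * D.M + 1⌉₊
    with hZZ
  have hsys : ∀ k, k₀ ≤ k → Nonempty (CellSys D k (β ^ k)) := fun k hk => hk₁ k (by omega)
  set Gd : (Σ _ : ℕ, (Fin (m + 1) → ℕ)) → Set ℝ := fun s =>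
    if h : k₀ ≤ kk s then (hsys (kk s) h).some.good else ∅ with hGd
  -- facts for a single shape
  have hfacts : ∀ s ∈ 𝒮, kk s + ∑ j, s.2 j = s.1 ∧ 16 * b * (∑ j, s.2 j) ≤ s.1 ∧
      (s.1 + 1) ^ (16 * (d + 2)) ≤ 2 ^ s.1 ∧ k₀ ≤ kk s ∧ 1 / ((s.1 : ℝ) + 1) ^ (d + 2) ≤ δ s.1 := by
    rintro ⟨w, l⟩ hs
    rw [h𝒮, Finset.mem_sigma] at hs
    obtain ⟨hwW, hl⟩ := hs
    simp only at hwW hl
    obtain ⟨hw0, hwδ⟩ := hW w hwW
    have hlj : ∀ j, K₁ * l j ≤ w := by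
      intro j
      have h1 := Fintype.mem_piFinset.mp hl j
      rw [Finset.mem_range] at h1
      have h2 : l j ≤ w / K₁ := by omega
      calc K₁ * l j ≤ K₁ * (w / K₁) := Nat.mul_le_mul_left _ h2
        _ ≤ w := Nat.mul_div_le w K₁
    have hsum : d * (16 * b * (∑ j, l j)) ≤ d * w := by
      calc d * (16 * b * (∑ j, l j)) = ∑ j, K₁ * l j := by
            rw [hK₁, ← Finset.mul_sum]; ring
        _ ≤ ∑ _j : Fin (m + 1), w := Finset.sum_le_sum fun j _ => hlj j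
        _ = d * w := by simp [hd]
    have h16 : 16 * b * (∑ j, l j) ≤ w := Nat.le_of_mul_le_mul_left hsum (by omega)
    have hLw : 16 * (∑ j, l j) ≤ w := by nlinarith
    have hk : w - ∑ j, l j + ∑ j, l j = w := by omega
    refine ⟨hk, h16, hw₁ w (by omega), ?_, hwδ⟩
    show k₀ ≤ w - ∑ j, l j
    omega
  have hGdeq : ∀ s (h : k₀ ≤ kk s), Gd s = (hsys (kk s) h).some.good := fun s h => by
    simp only [hGd]; rw [dif_pos h]
  have hδδ : ∀ s ∈ 𝒮, (β : ℝ) ^ (kk s) * ψψ s * (β : ℝ) ^ (∑ j, s.2 j) = δ s.1 := by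
    intro s hs
    obtain ⟨h1, -⟩ := hfacts s hs
    have h2 : (β : ℝ) ^ s.1 = (β : ℝ) ^ (kk s) * (β : ℝ) ^ (∑ j, s.2 j) := by
      rw [← pow_add, h1]
    simp only [hψψ]
    rw [h2]
    field_simp
  have hψψpos : ∀ s, 0 < ψψ s := fun s => div_pos (hδpos _) (by positivity)
  have hψβ : ∀ s ∈ 𝒮, ψψ s * (β : ℝ) ^ (kk s) = δ s.1 / (β : ℝ) ^ (∑ j, s.2 j) := by
    intro s hs
    rw [eq_div_iff (by positivity), ← hδδ s hs]; ring
  have hψ8 : ∀ s ∈ 𝒮, ψψ s * (β : ℝ) ^ (kk s) ≤ 1 / 8 := by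
    intro s hs
    rw [hψβ s hs, div_le_iff₀ (by positivity)]
    have h1 : (1 : ℝ) ≤ (β : ℝ) ^ (∑ j, s.2 j) := one_le_pow₀ hβr
    have := hδle s.1
    nlinarith
  -- size facts
  have hsizes : ∀ s ∈ 𝒮, (β : ℝ) ^ (∑ j, s.2 j) ≤ 2 ^ (kk s) ∧ (2 : ℝ) ^ (10 * kk s) ≤ (β : ℝ) ^ (kk s) ∧
      8 * ((m + 1 : ℕ) : ℝ) * D.M * (1 + (D.B - D.A)) ≤ 2 ^ (kk s) ∧
      4 * ((m + 1 : ℕ) : ℝ) * D.M + 4 ≤ 2 ^ (kk s) * (D.B - D.A) ∧
      ((s.1 : ℝ) + 1) ^ (d + 2) ≤ 2 ^ (2 * kk s) := by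
    intro s hs
    obtain ⟨h1, h2, h3, h4, h5⟩ := hfacts s hs
    obtain ⟨a1, a2, a3, a4⟩ := shape_arith hb10 h1 h2 h3
    rw [← hβdef] at a2
    have hkpow : ∀ n : ℕ, n ≤ k₀ → (n : ℝ) ≤ 2 ^ (kk s) := fun n hn => by
      have : n ≤ 2 ^ (kk s) := (by omega : n ≤ kk s).trans Nat.lt_two_pow_self.le
      exact_mod_cast this
    refine ⟨by exact_mod_cast a2, ?_, ?_, ?_, ?_⟩
    · have : 2 ^ (10 * kk s) ≤ β ^ (kk s) := by
        rw [hβdef, ← pow_mul]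
        exact Nat.pow_le_pow_right (by norm_num) (Nat.mul_le_mul_right _ hb10)
      exact_mod_cast this
    · exact hk₃.trans (hkpow k₃ (by omega))
    · have := hk₄.trans (hkpow k₄ (by omega))
      rwa [div_le_iff₀ hBA] at this
    · have : (s.1 + 1) ^ (d + 2) ≤ 2 ^ (2 * kk s) :=
        a3.trans (Nat.pow_le_pow_right (by norm_num) a1)
      exact_mod_cast this
  have hsm : ∀ s ∈ 𝒮, 4 * ((m + 1 : ℕ) : ℝ) * D.M * (1 + (D.B - D.A)) * (β : ℝ) ^ (∑ j, s.2 j)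
      ≤ (β : ℝ) ^ (kk s) := by
    intro s hs
    obtain ⟨e1, e2, e3, e4, e5⟩ := hsizes s hs
    have h0 : 0 ≤ ((m + 1 : ℕ) : ℝ) * D.M * (1 + (D.B - D.A)) := by positivity
    calc 4 * ((m + 1 : ℕ) : ℝ) * D.M * (1 + (D.B - D.A)) * (β : ℝ) ^ (∑ j, s.2 j)
        ≤ 2 ^ (kk s) * 2 ^ (kk s) := by
          apply mul_le_mul _ e1 (by positivity) (by positivity)
          linarith
      _ = 2 ^ (2 * kk s) := by rw [← pow_add]; congr 1; ring
      _ ≤ 2 ^ (10 * kk s) := pow_le_pow_right₀ (by norm_num) (by omega)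
      _ ≤ _ := e2
  have hsm'' : ∀ s ∈ 𝒮, 4 * ((m + 1 : ℕ) : ℝ) * D.M * (β : ℝ) ^ (∑ j, s.2 j) + 4
      ≤ (β : ℝ) ^ (kk s) * (D.B - D.A) := by
    intro s hs
    obtain ⟨e1, e2, e3, e4, e5⟩ := hsizes s hs
    have h0 : 0 ≤ ((m + 1 : ℕ) : ℝ) * D.M := by positivity
    have h1 : (1 : ℝ) ≤ 2 ^ (kk s) := one_le_pow₀ (by norm_num)
    calc 4 * ((m + 1 : ℕ) : ℝ) * D.M * (β : ℝ) ^ (∑ j, s.2 j) + 4
        ≤ (4 * ((m + 1 : ℕ) : ℝ) * D.M + 4) * 2 ^ (kk s) := by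
          have : 4 * ((m + 1 : ℕ) : ℝ) * D.M * (β : ℝ) ^ (∑ j, s.2 j)
            ≤ 4 * ((m + 1 : ℕ) : ℝ) * D.M * 2 ^ (kk s) := by gcongr
          linarith
      _ ≤ (2 ^ (kk s) * (D.B - D.A)) * 2 ^ (kk s) := by gcongr
      _ = 2 ^ (2 * kk s) * (D.B - D.A) := by
          have : (2 : ℝ) ^ (2 * kk s) = 2 ^ (kk s) * 2 ^ (kk s) := by rw [← pow_add]; congr 1; ring
          rw [this]; ring
      _ ≤ (β : ℝ) ^ (kk s) * (D.B - D.A) := by
          apply mul_le_mul_of_nonneg_right _ hBA.le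
          exact (pow_le_pow_right₀ (by norm_num) (by omega)).trans e2
  have hsm5 : ∀ s ∈ 𝒮, 4 * ((m + 1 : ℕ) : ℝ) * D.M * (2 * (β : ℝ) ^ (∑ j, s.2 j)) ≤ (β : ℝ) ^ (kk s) := by
    intro s hs
    obtain ⟨e1, e2, e3, e4, e5⟩ := hsizes s hs
    have h0 : 0 ≤ ((m + 1 : ℕ) : ℝ) * D.M := by positivity
    have h1 : 8 * ((m + 1 : ℕ) : ℝ) * D.M ≤ 2 ^ (kk s) := by
      refine le_trans ?_ e3
      have : 0 ≤ 8 * (((m + 1 : ℕ) : ℝ) * D.M) * (D.B - D.A) := by positivity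
      linarith
    calc 4 * ((m + 1 : ℕ) : ℝ) * D.M * (2 * (β : ℝ) ^ (∑ j, s.2 j))
        = (8 * ((m + 1 : ℕ) : ℝ) * D.M) * (β : ℝ) ^ (∑ j, s.2 j) := by ring
      _ ≤ 2 ^ (kk s) * 2 ^ (kk s) := mul_le_mul h1 e1 (by positivity) (by positivity)
      _ = 2 ^ (2 * kk s) := by rw [← pow_add]; congr 1; ring
      _ ≤ 2 ^ (10 * kk s) := pow_le_pow_right₀ (by norm_num) (by omega)
      _ ≤ _ := e2
  have herr : ∀ s ∈ 𝒮, 4 * ((m + 1 : ℕ) : ℝ) * D.M * (2 * (β : ℝ) ^ (∑ j, s.2 j))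
      ≤ ψψ s * ((β : ℝ) ^ (kk s)) ^ 4 := by
    intro s hs
    obtain ⟨e1, e2, e3, e4, e5⟩ := hsizes s hs
    obtain ⟨-, -, -, -, hlow⟩ := hfacts s hs
    have h6 : ψψ s * ((β : ℝ) ^ (kk s)) ^ 4 = δ s.1 / (β : ℝ) ^ (∑ j, s.2 j) * ((β : ℝ) ^ (kk s)) ^ 3 := by
      rw [← hψβ s hs]; ring
    rw [h6, div_mul_eq_mul_div, le_div_iff₀ (by positivity)]
    have hw1 : (0 : ℝ) < ((s.1 : ℝ) + 1) ^ (d + 2) := by positivity
    have h7 : 1 / 2 ^ (2 * kk s) ≤ δ s.1 :=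
      (one_div_le_one_div_of_le hw1 e5).trans hlow
    have h8 := hsm5 s hs
    calc 4 * ((m + 1 : ℕ) : ℝ) * D.M * (2 * (β : ℝ) ^ (∑ j, s.2 j)) * (β : ℝ) ^ (∑ j, s.2 j)
        ≤ (β : ℝ) ^ (kk s) * (β : ℝ) ^ (kk s) := by
          apply mul_le_mul h8 _ (by positivity) (by positivity)
          exact e1.trans ((pow_le_pow_right₀ (by norm_num) (by omega)).trans e2)
      _ = 1 / 2 ^ (2 * kk s) * (2 ^ (2 * kk s) * ((β : ℝ) ^ (kk s)) ^ 2) := by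
          field_simp
      _ ≤ 1 / 2 ^ (2 * kk s) * ((β : ℝ) ^ (kk s) * ((β : ℝ) ^ (kk s)) ^ 2) := by
          gcongr
          exact (pow_le_pow_right₀ (by norm_num) (by omega)).trans e2
      _ ≤ δ s.1 * ((β : ℝ) ^ (kk s) * ((β : ℝ) ^ (kk s)) ^ 2) := by gcongr
      _ = _ := by ring
  -- apply the combination theorem
  have hmain := core_comb D hβ (0 : Fin (m + 1)) 𝒮 kk (fun s => s.2) ψψ ZZ Gd ?_ (fun s => δ s.1)
    (fun s _ => (hδpos s.1).le) ?_ ?_ ?_ ?_ ?_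
  · refine hmain.trans (measure_mono ?_)
    intro z hz
    simp only [Set.mem_iUnion] at hz
    obtain ⟨s, hs, v, hv, hz1, hz2⟩ := hz
    obtain ⟨h1, h2, h3, h4, h5⟩ := hfacts s hs
    rw [hGdeq s h4] at hz1
    refine ⟨CellSys.good_subset _ hz1, v.1, v.2.1, v.2.2, ?_⟩
    unfold shape at hv
    rw [Finset.mem_product, Finset.mem_product, Finset.mem_Icc, Finset.mem_Icc] at hv
    obtain ⟨-, ⟨r1, r2⟩, ha⟩ := hv
    have hβk : 2 ^ (kk s) ≤ β ^ (kk s) := Nat.pow_le_pow_left (by omega) _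
    have hir : i₀ ≤ β ^ (kk s) :=
      ((by omega : i₀ ≤ kk s).trans Nat.lt_two_pow_self.le).trans hβk
    have hr1 : 1 ≤ β ^ (kk s) := Nat.one_le_pow _ _ hβ1
    have hbx := fun j => box_le hβ1 s.2 ha j
    refine ⟨le_trans (by exact_mod_cast hir) r1, le_trans (by exact_mod_cast hr1) r1,
      fun j => (hbx j).1, ?_⟩
    refine lt_of_lt_of_le hz2 ((hδψ s.1).trans ?_)
    have hrpos : (0 : ℝ) < v.2.1 := by
      have : (1 : ℤ) ≤ v.2.1 := le_trans (by exact_mod_cast hr1) r1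
      exact_mod_cast this
    have hprodpos : (0 : ℝ) < ∏ j, (v.2.2 j : ℝ) := Finset.prod_pos fun j _ => by
      have := (hbx j).1
      exact_mod_cast (by omega : (0 : ℤ) < v.2.2 j)
    apply hanti (mul_pos hrpos hprodpos) (by
      show (0 : ℝ) < Cm * (β : ℝ) ^ s.1
      positivity)
    -- r ∏ a_j ≤ Cm β^w
    have hr' : (v.2.1 : ℝ) ≤ 500 * (β : ℝ) ^ (kk s) := by
      have : (v.2.1 : ℝ) ≤ 500 * ((β ^ (kk s) : ℕ) : ℝ) := by exact_mod_cast r2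
      simpa using this
    have hprod : ∏ j, (v.2.2 j : ℝ) ≤ 2 ^ d * (β : ℝ) ^ (∑ j, s.2 j) := by
      calc ∏ j, (v.2.2 j : ℝ) ≤ ∏ j, (2 * (β : ℝ) ^ (s.2 j)) := by
            apply Finset.prod_le_prod
            · intro j _
              have := (hbx j).1
              exact_mod_cast (by omega : (0 : ℤ) ≤ v.2.2 j)
            · intro j _
              have := (hbx j).2.2.1
              exact_mod_cast this.le
        _ = 2 ^ d * (β : ℝ) ^ (∑ j, s.2 j) := by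
            rw [Finset.prod_mul_distrib, Finset.prod_const, Finset.card_univ, Fintype.card_fin,
              Finset.prod_pow_eq_pow_sum, hd]
    calc (v.2.1 : ℝ) * ∏ j, (v.2.2 j : ℝ)
        ≤ (500 * (β : ℝ) ^ (kk s)) * (2 ^ d * (β : ℝ) ^ (∑ j, s.2 j)) :=
          mul_le_mul hr' hprod hprodpos.le (by positivity)
      _ = 500 * 2 ^ d * ((β : ℝ) ^ (kk s) * (β : ℝ) ^ (∑ j, s.2 j)) := by ring
      _ = Cm * (β : ℝ) ^ s.1 := by rw [← pow_add, h1, hCm]; push_cast; ring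
  · -- measurability
    intro s hs
    obtain ⟨h1, h2, h3, h4, h5⟩ := hfacts s hs
    rw [hGdeq s h4]
    exact CellSys.measurableSet_good _
  · -- first moment
    intro s hs
    obtain ⟨h1, h2, h3, h4, h5⟩ := hfacts s hs
    rw [hGdeq s h4]
    have h := first_moment_prod D hβ1 (hsys (kk s) h4).some s.2 (ZZ s) (Nat.le_ceil _)
      (hψψpos s) (hψ8 s hs) (herr s hs) (hsm5 s hs)
    rw [hδδ s hs] at h
    exact h
  · -- gcd sums
    intro s hs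
    obtain ⟨h1, h2, h3, h4, h5⟩ := hfacts s hs
    rw [hGdeq s h4]
    have h := gcd_sum_prod D hβ (CellSys.measurableSet_good (hsys (kk s) h4).some)
      (CellSys.good_subset _) s.2 0 (ZZ s) (hψψpos s) ((hψ8 s hs).trans (by norm_num))
      (hsm s hs) (hsm'' s hs)
    rw [hδδ s hs] at h
    exact h
  · -- pairs
    intro s hs s' hs' hkk'
    obtain ⟨h1, h2, h3, h4, h5⟩ := hfacts s hs
    obtain ⟨h1', h2', h3', h4', h5'⟩ := hfacts s' hs'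
    by_cases hreg : (β : ℝ) ^ (kk s') ≤ ((β : ℝ) ^ (kk s)) ^ 2 * ψψ s'
    · -- Regime I
      have h := pairI D hβ hkk' (Gk := Gd s) (Gk' := Gd s')
        (by rw [hGdeq s h4]; exact CellSys.measurableSet_good _)
        (by rw [hGdeq s' h4']; exact CellSys.measurableSet_good _)
        (by rw [hGdeq s h4]; exact CellSys.good_subset _)
        (by rw [hGdeq s h4]; exact CellSys.spaced (Nat.one_le_pow _ _ hβ1) _)
        s.2 s'.2 (ZZ s) (ZZ s') (hψψpos s) (hψψpos s') ((hψ8 s hs).trans (by norm_num))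
        ((hψ8 s' hs').trans (by norm_num)) hreg (hsm s hs) (hsm s' hs') (hsm'' s' hs')
      rw [hδδ s hs, hδδ s' hs'] at h
      refine le_trans ?_ (h.trans ?_)
      · refine Finset.sum_le_sum fun v _ => Finset.sum_le_sum fun v' _ => ?_
        split_ifs
        · exact zero_le
        · exact le_rfl
      · gcongr
        · exact (hδpos _).le
        · exact (hδpos _).le
        · norm_num
        · norm_num
    · -- Regime II
      push Not at hreg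
      have hkey : (β ^ (kk s - kk s')) ^ 2 ≤ β ^ (∑ j, s'.2 j) * (s'.1 + 1) ^ (d + 2) := by
        have hw1 : (0 : ℝ) < ((s'.1 : ℝ) + 1) ^ (d + 2) := by positivity
        have e1 : (β : ℝ) ^ (kk s) = (β : ℝ) ^ (kk s - kk s') * (β : ℝ) ^ (kk s') := by
          rw [← pow_add]; congr 1; omega
        have e2 : ψψ s' * (β : ℝ) ^ (kk s') * (β : ℝ) ^ (∑ j, s'.2 j) = δ s'.1 := by
          rw [← hδδ s' hs']; ring
        have e3 : ((β : ℝ) ^ (kk s - kk s')) ^ 2 * δ s'.1 < (β : ℝ) ^ (∑ j, s'.2 j) := by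
          have hp1 : (0 : ℝ) < (β : ℝ) ^ (kk s') := by positivity
          have hp2 : (0 : ℝ) < (β : ℝ) ^ (∑ j, s'.2 j) := by positivity
          have e4 : ((β : ℝ) ^ (kk s)) ^ 2 * ψψ s' * (β : ℝ) ^ (∑ j, s'.2 j)
              < (β : ℝ) ^ (kk s') * (β : ℝ) ^ (∑ j, s'.2 j) := mul_lt_mul_of_pos_right hreg hp2
          have e5 : ((β : ℝ) ^ (kk s)) ^ 2 * ψψ s' * (β : ℝ) ^ (∑ j, s'.2 j)
              = (β : ℝ) ^ (kk s') * (((β : ℝ) ^ (kk s - kk s')) ^ 2 * δ s'.1) := by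
            rw [← e2, e1]; ring
          rw [e5] at e4
          exact lt_of_mul_lt_mul_left e4 hp1.le
        have e6 : ((β : ℝ) ^ (kk s - kk s')) ^ 2 * (1 / ((s'.1 : ℝ) + 1) ^ (d + 2))
            ≤ (β : ℝ) ^ (∑ j, s'.2 j) := by
          refine le_trans ?_ e3.le
          gcongr
        rw [mul_one_div, div_le_iff₀ hw1] at e6
        exact_mod_cast e6
      obtain ⟨c1, c2, c3, c4, c5⟩ := regimeII_arith hb10 hkk' h1 h2 h3 h1' h2' h3' (by omega)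
        (by rw [← hβdef]; exact hkey)
      rw [← hβdef] at c1 c2 c3 c4 c5
      have hlowψ : ∀ u ∈ 𝒮, (u.1 + 1) ^ (d + 2) * β ^ (∑ j, u.2 j) ≤ 2 ^ (2 * kk s') →
          1 ≤ ψψ u * (β : ℝ) ^ (kk u) * 2 ^ (2 * kk s') := by
        intro u hu hc
        obtain ⟨-, -, -, -, g5⟩ := hfacts u hu
        rw [hψβ u hu, div_mul_eq_mul_div, le_div_iff₀ (by positivity), one_mul]
        have hw1 : (0 : ℝ) < ((u.1 : ℝ) + 1) ^ (d + 2) := by positivity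
        have hcr : ((u.1 : ℝ) + 1) ^ (d + 2) * (β : ℝ) ^ (∑ j, u.2 j) ≤ 2 ^ (2 * kk s') := by
          exact_mod_cast hc
        calc (β : ℝ) ^ (∑ j, u.2 j)
            = 1 / ((u.1 : ℝ) + 1) ^ (d + 2) * (((u.1 : ℝ) + 1) ^ (d + 2) * (β : ℝ) ^ (∑ j, u.2 j)) := by
              field_simp
          _ ≤ δ u.1 * 2 ^ (2 * kk s') := mul_le_mul g5 hcr (by positivity) (hδpos _).le
      have h := hk₂ (kk s') (by omega) (kk s) hkk' (hsys (kk s') h4').some s.2 s'.2 (ZZ s) (ZZ s')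
        (ψψ s) (ψψ s') c1 c2 c3 (hψ8 s hs) (hψ8 s' hs') (hlowψ s hs c4) (hlowψ s' hs' c5)
      rw [hδδ s hs, hδδ s' hs'] at h
      have h2 := pairII_nonpar (D := D) (Gd s) (hsys (kk s') h4').some s.2 s'.2 (ZZ s) (ZZ s')
        (ψ := ψψ s) (ψ' := ψψ s') h
      rw [← hGdeq s' h4'] at h2
      convert h2 using 2
  · -- injectivity
    rintro ⟨w, l⟩ hs ⟨w', l'⟩ hs' v hv hv'
    obtain ⟨h1, -⟩ := hfacts _ hs
    obtain ⟨h1', -⟩ := hfacts _ hs'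
    obtain ⟨e1, e2⟩ := shape_inj hβ hv hv'
    simp only at e2 h1 h1'
    subst e2
    have : w = w' := by rw [← h1, ← h1', e1]
    subst this
    rfl
  · -- the sum
    rw [h𝒮, Finset.sum_sigma]
    refine hWsum.trans (le_of_eq ?_)
    refine Finset.sum_congr rfl fun w _ => ?_
    show ((w / K₁ + 1 : ℕ) : ℝ) ^ d * δ w = ∑ _s ∈ box w, δ w
    rw [Finset.sum_const, nsmul_eq_mul, hbox, Fintype.card_piFinset]
    simp only [Finset.card_range, Finset.prod_const, Finset.card_univ, Fintype.card_fin]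
    rw [hd]
    push_cast
    rfl

theorem core [IsFiniteMeasure ν] (D : Family (m + 1) Ω ν) (ψ : ℝ → ℝ)
    (hpos : ∀ h, 0 < h → 0 < ψ h) (hanti : AntitoneOn ψ (Ioi 0))
    (hdiv : ¬ Summable (fun h : ℕ => (Real.log (h + 1)) ^ (m + 1) * ψ (h + 1))) (i₀ : ℕ) :
    ENNReal.ofReal (10⁻¹ ^ 50 * (D.B - D.A)) * ν univ ≤ (volume.prod ν) {z : ℝ × Ω |
      z.1 ∈ Icc D.A D.B ∧ ∃ (p r : ℤ) (a : Fin (m + 1) → ℤ), (i₀ : ℤ) ≤ r ∧ (1 ≤ r) ∧
        (∀ j, 1 ≤ a j) ∧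
        |lin (fun t => D.F t z.2) (p, r, a) z.1| < ψ ((r : ℝ) * ∏ j, (a j : ℝ))} := by
  have h10 : 10 ≤ 300 * (112 * D.K + 1) := by omega
  have hβ : 1024 ≤ bb D.K := by
    have h1 : (2:ℕ) ^ 10 ≤ 2 ^ (300 * (112 * D.K + 1)) := Nat.pow_le_pow_right (by norm_num) h10
    have h2 : (1024:ℕ) = 2 ^ 10 := by norm_num
    rw [h2]; exact h1
  exact core_aux D h10 rfl hβ (exists_cellSys D) ψ hpos hanti hdiv i₀

end MKG
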