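import Pool.Agent.MKG.Defs

/-!
# MKG: first moment in a cell
-/

open MeasureTheory Set Filter
open scoped BigOperators ENNReal Topology

namespace MKG

theorem First_lip {m : ℕ} {A B M : ℝ} {G G' : ℝ → Fin m → ℝ} (hG : IsCurve A B M G G')
    (hM : 1 ≤ M) (a : Fin m → ℤ) (P : ℝ) (hP : ∀ j, |(a j : ℝ)| ≤ P) {t u : ℝ}
    (ht : t ∈ Icc A B) (hu : u ∈ Icc A B) (htu : |u - t| ≤ 1) :
    |dot a (G u) - dot a (G t)| ≤ 2 * m * M * P * |u - t| := by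
  have h1 : dot a (G u) - dot a (G t) = ∑ j, (a j : ℝ) * (G u j - G t j) := by
    simp [dot, mul_sub, Finset.sum_sub_distrib]
  rw [h1]
  have h2 : ∀ j ∈ (Finset.univ : Finset (Fin m)),
      |(a j : ℝ) * (G u j - G t j)| ≤ P * (2 * M * |u - t|) := by
    intro j _
    rw [abs_mul]
    have hP0 : 0 ≤ P := (abs_nonneg _).trans (hP j)
    have h3 : |G u j - G t j| ≤ 2 * M * |u - t| := by
      have h4 := hG.qr t ht u hu j
      have h5 := hG.bd' t ht j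
      have h6 : |(u - t) * G' t j| ≤ |u - t| * M := by
        rw [abs_mul]; exact mul_le_mul_of_nonneg_left h5 (abs_nonneg _)
      have h7 : (u - t) ^ 2 ≤ |u - t| := by
        rw [← sq_abs]; nlinarith [abs_nonneg (u - t)]
      have h8 : |G u j - G t j| ≤ |G u j - G t j - (u - t) * G' t j| + |(u - t) * G' t j| := by
        have := abs_add_le (G u j - G t j - (u - t) * G' t j) ((u - t) * G' t j)
        simpa using this
      nlinarith [mul_le_mul_of_nonneg_left h7 (by linarith : (0:ℝ) ≤ M)]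
    exact mul_le_mul (hP j) h3 (abs_nonneg _) hP0
  calc |∑ j, (a j : ℝ) * (G u j - G t j)| ≤ ∑ j, |(a j : ℝ) * (G u j - G t j)| :=
        Finset.abs_sum_le_sum_abs _ _
    _ ≤ ∑ _j : Fin m, P * (2 * M * |u - t|) := Finset.sum_le_sum h2
    _ = 2 * m * M * P * |u - t| := by
        simp [Finset.sum_const, nsmul_eq_mul]; ring

/-- first moment -/
theorem first_moment_cell {m : ℕ} {A B M : ℝ} {G G' : ℝ → Fin m → ℝ} (hG : IsCurve A B M G G')
    (hM : 1 ≤ M) {N : ℕ} (hN : 1 ≤ N) {g : Cell} (hg : CellOK A B N g)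
    (a : Fin m → ℤ) (P : ℝ) (hP : ∀ j, |(a j : ℝ)| ≤ P) {ψ : ℝ} (hψ0 : 0 < ψ)
    (hψ : ψ * N ≤ 1 / 8) (_herr : 4 * (m : ℝ) * M * P ≤ ψ * N ^ 4)
    (hsm : 4 * (m : ℝ) * M * P ≤ N) :
    ∃ p r : ℤ, (N : ℤ) ≤ r ∧ r ≤ 500 * (N : ℤ) ∧
      ENNReal.ofReal (ψ / (1000 * N)) ≤ volume {t | t ∈ cellInt g ∧ |lin G (p, r, a) t| < ψ} := by
  obtain ⟨⟨q₁, b₁⟩, ⟨q₂, b₂⟩⟩ := g
  obtain ⟨uni, lo₁, hi₁, lo₂, hi₂, left, right⟩ := hg
  simp only at uni lo₁ hi₁ lo₂ hi₂ left right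
  have hN' : (1 : ℝ) ≤ N := by exact_mod_cast hN
  have lo₁' : 2 * (N : ℝ) ≤ q₁ := by exact_mod_cast lo₁
  have hi₁' : (q₁ : ℝ) ≤ 27 * N := by exact_mod_cast hi₁
  have lo₂' : 2 * (N : ℝ) ≤ q₂ := by exact_mod_cast lo₂
  have hi₂' : (q₂ : ℝ) ≤ 27 * N := by exact_mod_cast hi₂
  have uni' : (q₁ : ℝ) * b₂ - q₂ * b₁ = 1 := by exact_mod_cast uni
  have q₁0 : (0 : ℝ) < q₁ := by linarith
  have q₂0 : (0 : ℝ) < q₂ := by linarith
  set t₁ : ℝ := (b₁ : ℝ) / q₁ with ht₁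
  set t₂ : ℝ := (b₂ : ℝ) / q₂ with ht₂
  have hb₁ : (b₁ : ℝ) = q₁ * t₁ := by rw [ht₁]; field_simp
  have hb₂ : (b₂ : ℝ) = q₂ * t₂ := by rw [ht₂]; field_simp
  have hdiff : q₁ * q₂ * (t₂ - t₁) = 1 := by
    have : (q₁ : ℝ) * (q₂ * t₂) - q₂ * (q₁ * t₁) = 1 := by rw [← hb₁, ← hb₂]; exact uni'
    linarith
  have hqq : (4 : ℝ) ≤ q₁ * q₂ := by nlinarith
  have hd : t₂ - t₁ = 1 / (q₁ * q₂) := by
    rw [eq_div_iff (by positivity)]; linarith
  have hlt : t₁ < t₂ := by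
    have : 0 < 1 / ((q₁ : ℝ) * q₂) := by positivity
    linarith
  have hd1 : t₂ - t₁ ≤ 1 := by
    rw [hd, div_le_one (by positivity)]; linarith
  have hsubI : ∀ t, t₁ ≤ t → t ≤ t₂ → t ∈ Icc A B := fun t h1 h2 => ⟨left.trans h1, h2.trans right⟩
  have hlip : ∀ t u, t₁ ≤ t → t ≤ t₂ → t₁ ≤ u → u ≤ t₂ →
      |dot a (G u) - dot a (G t)| ≤ N / 2 * |u - t| := by
    intro t u h1 h2 h3 h4
    have := First_lip hG hM a P hP (hsubI t h1 h2) (hsubI u h3 h4)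
      (by rw [abs_le]; constructor <;> linarith)
    refine this.trans ?_
    apply mul_le_mul_of_nonneg_right _ (abs_nonneg _)
    linarith
  set θ₁ : ℝ := q₁ * dot a (G t₁) with hθ₁
  set θ₂ : ℝ := q₂ * dot a (G t₂) with hθ₂
  -- choice of the integers
  set L₂ : ℤ := ⌈7 - θ₂⌉ with hL₂
  set u₂ : ℝ := L₂ + θ₂ with hu₂
  have hu₂lo : 7 ≤ u₂ := by have := Int.le_ceil (7 - θ₂); rw [hu₂]; linarith
  have hu₂hi : u₂ < 8 := by have := Int.ceil_lt_add_one (7 - θ₂); rw [hu₂]; linarith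
  set L₁ : ℤ := ⌊-(u₂ * q₁ / q₂) - θ₁⌋ with hL₁
  set u₁ : ℝ := L₁ + θ₁ with hu₁
  have hu₁hi : u₁ ≤ -(u₂ * q₁ / q₂) := by
    have := Int.floor_le (-(u₂ * q₁ / q₂) - θ₁); rw [hu₁]; linarith
  have hu₁lo : -(u₂ * q₁ / q₂) - 1 < u₁ := by
    have := Int.lt_floor_add_one (-(u₂ * q₁ / q₂) - θ₁); rw [hu₁]; linarith
  set r : ℤ := q₁ * L₂ - q₂ * L₁ with hr
  set p : ℤ := b₂ * L₁ - b₁ * L₂ with hp
  have hpr₁ : (p : ℝ) * q₁ + r * b₁ = L₁ := by
    rw [hp, hr]; push_cast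
    linear_combination (L₁ : ℝ) * uni'
  have hpr₂ : (p : ℝ) * q₂ + r * b₂ = L₂ := by
    rw [hp, hr]; push_cast
    linear_combination (L₂ : ℝ) * uni'
  obtain ⟨f, hf⟩ : ∃ f : ℝ → ℝ, f = fun t => lin G (p, r, a) t := ⟨_, rfl⟩
  have hf₁ : f t₁ * q₁ = u₁ := by
    simp only [hf, lin, hu₁, hθ₁]
    rw [← hpr₁, hb₁]; ring
  have hf₂ : f t₂ * q₂ = u₂ := by
    simp only [hf, lin, hu₂, hθ₂]
    rw [← hpr₂, hb₂]; ring
  -- size of `r`
  have hrr : (r : ℝ) = (q₁ * u₂ - q₂ * u₁) - q₁ * q₂ * (dot a (G t₂) - dot a (G t₁)) := by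
    rw [hr, hu₂, hu₁, hθ₁, hθ₂]; push_cast; ring
  have hE : |q₁ * q₂ * (dot a (G t₂) - dot a (G t₁))| ≤ N / 2 := by
    rw [abs_mul, abs_of_pos (mul_pos q₁0 q₂0)]
    have h1 := hlip t₁ t₂ le_rfl hlt.le hlt.le le_rfl
    rw [abs_of_pos (by linarith : 0 < t₂ - t₁)] at h1
    calc (q₁ : ℝ) * q₂ * |dot a (G t₂) - dot a (G t₁)|
        ≤ q₁ * q₂ * (N / 2 * (t₂ - t₁)) := by
          apply mul_le_mul_of_nonneg_left h1 (by positivity)
      _ = N / 2 * (q₁ * q₂ * (t₂ - t₁)) := by ring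
      _ = N / 2 := by rw [hdiff, mul_one]
  have hw : q₂ * (u₂ * q₁ / q₂) = u₂ * q₁ := by field_simp
  have hD1 : 28 * (N : ℝ) ≤ q₁ * u₂ - q₂ * u₁ := by
    have h1 : q₂ * u₁ ≤ q₂ * (-(u₂ * q₁ / q₂)) := mul_le_mul_of_nonneg_left hu₁hi q₂0.le
    have h2 : 7 * (2 * (N : ℝ)) ≤ u₂ * q₁ := by
      apply mul_le_mul hu₂lo lo₁' (by positivity) (by linarith)
    have h3 : q₂ * (-(u₂ * q₁ / q₂)) = -(u₂ * q₁) := by rw [mul_neg, hw]
    rw [h3] at h1
    linarith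
  have hD2 : q₁ * u₂ - q₂ * u₁ ≤ 459 * (N : ℝ) := by
    have h1 : q₂ * (-(u₂ * q₁ / q₂) - 1) ≤ q₂ * u₁ := mul_le_mul_of_nonneg_left hu₁lo.le q₂0.le
    have h2 : u₂ * q₁ ≤ 8 * (27 * (N : ℝ)) := by
      apply mul_le_mul hu₂hi.le hi₁' q₁0.le (by norm_num)
    have h3 : q₂ * (-(u₂ * q₁ / q₂) - 1) = -(u₂ * q₁) - q₂ := by
      rw [mul_sub, mul_neg, hw, mul_one]
    rw [h3] at h1
    linarith
  clear_value t₁ t₂ θ₁ θ₂ L₁ L₂ u₁ u₂ p r
  have hE' := abs_le.mp hE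
  have hrlo : (27 : ℝ) * N ≤ r := by rw [hrr]; linarith
  have hrhi : (r : ℝ) ≤ 460 * N := by rw [hrr]; linarith
  -- Lipschitz bound for `f`
  have hflip : ∀ t u, t₁ ≤ t → t ≤ t₂ → t₁ ≤ u → u ≤ t₂ → |f u - f t| ≤ 500 * N * |u - t| := by
    intro t u h1 h2 h3 h4
    have h5 : f u - f t = r * (u - t) + (dot a (G u) - dot a (G t)) := by
      simp only [hf, lin]; ring
    rw [h5]
    calc |(r : ℝ) * (u - t) + (dot a (G u) - dot a (G t))|
        ≤ |(r : ℝ) * (u - t)| + |dot a (G u) - dot a (G t)| := abs_add_le _ _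
      _ ≤ 460 * N * |u - t| + N / 2 * |u - t| := by
          apply add_le_add _ (hlip t u h1 h2 h3 h4)
          rw [abs_mul, abs_of_nonneg (by linarith : (0:ℝ) ≤ r)]
          exact mul_le_mul_of_nonneg_right hrhi (abs_nonneg _)
      _ ≤ 500 * N * |u - t| := by nlinarith [abs_nonneg (u - t)]
  have hcont : ContinuousOn f (Icc t₁ t₂) := by
    rw [Metric.continuousOn_iff]
    intro b hb ε hε
    refine ⟨ε / (500 * N), by positivity, fun x hx hxb => ?_⟩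
    rw [Real.dist_eq] at hxb ⊢
    have := hflip b x hb.1 hb.2 hx.1 hx.2
    calc |f x - f b| ≤ 500 * N * |x - b| := this
      _ < 500 * N * (ε / (500 * N)) := by
          apply mul_lt_mul_of_pos_left hxb (by positivity)
      _ = ε := by field_simp
  have hf₁neg : f t₁ ≤ -(7 / (27 * N)) := by
    have h0 : f t₁ = u₁ / q₁ := by rw [← hf₁]; field_simp
    have h1 : u₁ / q₁ ≤ -(u₂ / q₂) := by
      rw [div_le_iff₀ q₁0]
      calc u₁ ≤ -(u₂ * q₁ / q₂) := hu₁hi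
        _ = -(u₂ / q₂) * q₁ := by ring
    have h2 : 7 / (27 * (N : ℝ)) ≤ u₂ / q₂ := by
      apply div_le_div₀ (by linarith) hu₂lo q₂0 hi₂'
    linarith
  have hf₂pos : 7 / (27 * N) ≤ f t₂ := by
    have h0 : f t₂ = u₂ / q₂ := by rw [← hf₂]; field_simp
    have h2 : 7 / (27 * (N : ℝ)) ≤ u₂ / q₂ := by
      apply div_le_div₀ (by linarith) hu₂lo q₂0 hi₂'
    linarith
  have hψsmall : ψ < 7 / (27 * N) := by
    rw [lt_div_iff₀ (by positivity)]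
    nlinarith
  have h7pos : 0 < 7 / (27 * (N : ℝ)) := by positivity
  obtain ⟨t₀, ht₀, hft₀⟩ : (0 : ℝ) ∈ f '' Icc t₁ t₂ := by
    apply intermediate_value_Icc hlt.le hcont
    constructor <;> linarith
  set δ : ℝ := ψ / (500 * N) with hδ
  have hδ0 : 0 < δ := by positivity
  have hδN : 500 * N * δ = ψ := by rw [hδ]; field_simp
  have hleft : t₁ < t₀ - δ := by
    by_contra h
    push Not at h
    have h1 := hflip t₀ t₁ ht₀.1 ht₀.2 le_rfl hlt.le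
    rw [hft₀, sub_zero] at h1
    have h2 : |t₁ - t₀| ≤ δ := by
      rw [abs_le]; constructor <;> linarith [ht₀.1]
    have h3 : |f t₁| ≤ ψ := by
      calc |f t₁| ≤ 500 * N * |t₁ - t₀| := h1
        _ ≤ 500 * N * δ := by apply mul_le_mul_of_nonneg_left h2 (by positivity)
        _ = ψ := hδN
    have h4 := (abs_le.mp h3).1
    linarith
  have hright : t₀ + δ < t₂ := by
    by_contra h
    push Not at h
    have h1 := hflip t₀ t₂ ht₀.1 ht₀.2 hlt.le le_rfl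
    rw [hft₀, sub_zero] at h1
    have h2 : |t₂ - t₀| ≤ δ := by
      rw [abs_le]; constructor <;> linarith [ht₀.2]
    have h3 : |f t₂| ≤ ψ := by
      calc |f t₂| ≤ 500 * N * |t₂ - t₀| := h1
        _ ≤ 500 * N * δ := by apply mul_le_mul_of_nonneg_left h2 (by positivity)
        _ = ψ := hδN
    have h4 := (abs_le.mp h3).2
    linarith
  refine ⟨p, r, ?_, ?_, ?_⟩
  · have : (N : ℝ) ≤ r := by linarith
    exact_mod_cast this
  · have : (r : ℝ) ≤ 500 * N := by linarith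
    exact_mod_cast this
  · have hsub : Ioo (t₀ - δ) (t₀ + δ) ⊆
        {t | t ∈ cellInt ((q₁, b₁), (q₂, b₂)) ∧ |lin G (p, r, a) t| < ψ} := by
      intro t ht
      have h1 : t₁ ≤ t := by linarith [ht.1]
      have h2 : t < t₂ := by linarith [ht.2]
      refine ⟨⟨?_, ?_⟩, ?_⟩
      · show (b₁ : ℝ) / q₁ ≤ t
        rw [← ht₁]; exact h1
      · show t < (b₂ : ℝ) / q₂
        rw [← ht₂]; exact h2
      have h3 := hflip t₀ t ht₀.1 ht₀.2 h1 h2.le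
      rw [hft₀, sub_zero] at h3
      show |lin G (p, r, a) t| < ψ
      have h4 : lin G (p, r, a) t = f t := by rw [hf]
      rw [h4]
      calc |f t| ≤ 500 * N * |t - t₀| := h3
        _ < 500 * N * δ := by
            apply mul_lt_mul_of_pos_left _ (by positivity)
            rw [abs_lt]; constructor <;> linarith [ht.1, ht.2]
        _ = ψ := hδN
    refine le_trans ?_ (measure_mono hsub)
    rw [Real.volume_Ioo]
    apply ENNReal.ofReal_le_ofReal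
    have : ψ / (1000 * N) ≤ 2 * δ := by
      rw [hδ]
      rw [show 2 * (ψ / (500 * (N : ℝ))) = ψ / (250 * N) by field_simp; norm_num]
      apply div_le_div_of_nonneg_left hψ0.le (by positivity) (by nlinarith)
    linarith

end MKG
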