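import Pool.Agent.MKG.Defs

/-! # Module Spacing -/

open MeasureTheory Set Filter
open scoped BigOperators ENNReal Topology

namespace MKG

theorem cell_spacing {A B : ℝ} {N : ℕ} (hN : 1 ≤ N) {g : Cell} (hg : CellOK A B N g) {t : ℝ}
    (ht : t ∈ cellInt g) (q b : ℤ) (hq : 1 ≤ q) (hq2 : q < 2 * N) :
    1 / (27 * (N : ℝ)) ≤ |q * t - b| := by
  obtain ⟨uni, lo₁, hi₁, lo₂, hi₂, -, -⟩ := hg
  obtain ⟨ht1, ht2⟩ := ht
  set q₁ := g.1.1 with hq₁
  set b₁ := g.1.2 with hb₁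
  set q₂ := g.2.1 with hq₂
  set b₂ := g.2.2 with hb₂
  have hN0 : (0 : ℝ) < N := by exact_mod_cast hN
  have hq₁0 : (0 : ℤ) < q₁ := by omega
  have hq₂0 : (0 : ℤ) < q₂ := by omega
  have hq₁R : (0 : ℝ) < q₁ := by exact_mod_cast hq₁0
  have hq₂R : (0 : ℝ) < q₂ := by exact_mod_cast hq₂0
  rw [div_le_iff₀ hq₁R] at ht1
  rw [lt_div_iff₀ hq₂R] at ht2
  set i := q * b₂ - b * q₂ with hi
  set j := q₁ * b - q * b₁ with hj
  have hqij : q = i * q₁ + j * q₂ := by
    rw [hi, hj]; linear_combination (-q) * uni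
  have hbij : b = i * b₁ + j * b₂ := by
    rw [hi, hj]; linear_combination (-b) * uni
  have uniR : (q₁ : ℝ) * b₂ - q₂ * b₁ = 1 := by exact_mod_cast uni
  have hsum : (b₂ - t * q₂) * q₁ + (t * q₁ - b₁) * q₂ = 1 := by
    linear_combination uniR
  have hhi₁ : (q₁ : ℝ) ≤ 27 * N := by exact_mod_cast hi₁
  have hhi₂ : (q₂ : ℝ) ≤ 27 * N := by exact_mod_cast hi₂
  have hlam : 1 / (27 * (N : ℝ)) ≤ (b₂ - t * q₂) + (t * q₁ - b₁) := by
    rw [div_le_iff₀ (by positivity)]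
    have h1 : (b₂ - t * q₂) * q₁ ≤ (b₂ - t * q₂) * (27 * N) :=
      mul_le_mul_of_nonneg_left hhi₁ (by linarith)
    have h2 : (t * q₁ - b₁) * q₂ ≤ (t * q₁ - b₁) * (27 * N) :=
      mul_le_mul_of_nonneg_left hhi₂ (by linarith)
    linarith
  have hval : (q : ℝ) * t - b = i * (t * q₁ - b₁) - j * (b₂ - t * q₂) := by
    have h1 : (q : ℝ) = i * q₁ + j * q₂ := by exact_mod_cast hqij
    have h2 : (b : ℝ) = i * b₁ + j * b₂ := by exact_mod_cast hbij
    rw [h1, h2]; ring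
  rw [hval]
  have hcases : (1 ≤ i ∧ j ≤ -1) ∨ (i ≤ -1 ∧ 1 ≤ j) := by
    rcases le_or_gt i 0 with h1 | h1
    · rcases le_or_gt j 0 with h2 | h2
      · exfalso
        have : i * q₁ ≤ 0 := mul_nonpos_of_nonpos_of_nonneg h1 hq₁0.le
        have : j * q₂ ≤ 0 := mul_nonpos_of_nonpos_of_nonneg h2 hq₂0.le
        omega
      · rcases h1.lt_or_eq with h3 | h3
        · right; constructor <;> omega
        · exfalso
          rw [h3] at hqij
          have : q₂ ≤ j * q₂ := le_mul_of_one_le_left hq₂0.le h2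
          omega
    · rcases le_or_gt j (-1) with h2 | h2
      · left; constructor <;> omega
      · exfalso
        have h3 : q₁ ≤ i * q₁ := le_mul_of_one_le_left hq₁0.le h1
        have h4 : 0 ≤ j * q₂ := mul_nonneg (by omega) hq₂0.le
        omega
  rcases hcases with ⟨h1, h2⟩ | ⟨h1, h2⟩
  · have h1R : (1 : ℝ) ≤ i := by exact_mod_cast h1
    have h2R : (j : ℝ) ≤ -1 := by exact_mod_cast h2
    refine le_trans ?_ (le_abs_self _)
    nlinarith
  · have h1R : (i : ℝ) ≤ -1 := by exact_mod_cast h1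
    have h2R : (1 : ℝ) ≤ j := by exact_mod_cast h2
    refine le_trans ?_ (neg_le_abs _)
    nlinarith

/-- the spacing property at scale `N` -/
def Spaced (N : ℕ) (S : Set ℝ) : Prop :=
  ∀ t ∈ S, ∀ q b : ℤ, 1 ≤ q → q < 2 * N → 1 / (27 * (N : ℝ)) ≤ |q * t - b|

/-- number of `δ`-separated values in `[-τ, τ]`. -/
theorem Spacing_card_sep {α : Type*} (F : Finset α) (v : α → ℝ) (δ τ : ℝ) (hδ : 0 < δ)
    (hτ : ∀ x ∈ F, |v x| ≤ τ) (hτ0 : 0 ≤ τ)
    (hsep : ∀ x ∈ F, ∀ y ∈ F, x ≠ y → δ ≤ |v x - v y|) :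
    (F.card : ℝ) ≤ 2 * τ / δ + 1 := by
  have h1 : F.card ≤ (Finset.range (⌊2 * τ / δ⌋₊ + 1)).card := by
    refine Finset.card_le_card_of_injOn (fun x => ⌊(v x + τ) / δ⌋₊) ?_ ?_
    · intro x hx
      have hx1 := abs_le.1 (hτ x hx)
      simp only [Finset.coe_range, mem_Iio]
      refine Nat.lt_succ_of_le (Nat.floor_le_floor ?_)
      gcongr
      linarith [hx1.2]
    · intro x hx y hy hxy
      by_contra hne
      have h2 := hsep x hx y hy hne
      have hx1 := abs_le.1 (hτ x hx)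
      have hy1 := abs_le.1 (hτ y hy)
      simp only at hxy
      have a1 := Nat.floor_le (a := (v x + τ) / δ) (div_nonneg (by linarith [hx1.1]) hδ.le)
      have a2 := Nat.lt_floor_add_one ((v x + τ) / δ)
      have a3 := Nat.floor_le (a := (v y + τ) / δ) (div_nonneg (by linarith [hy1.1]) hδ.le)
      have a4 := Nat.lt_floor_add_one ((v y + τ) / δ)
      rw [hxy] at a1 a2
      have h3 : |(v x + τ) / δ - (v y + τ) / δ| < 1 := by
        rw [abs_lt]; constructor <;> linarith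
      have h4 : (v x + τ) / δ - (v y + τ) / δ = (v x - v y) / δ := by ring
      rw [h4, abs_div, abs_of_pos hδ, div_lt_one hδ] at h3
      linarith
  rw [Finset.card_range] at h1
  have h2 : (F.card : ℝ) ≤ (⌊2 * τ / δ⌋₊ : ℝ) + 1 := by exact_mod_cast h1
  have h3 := Nat.floor_le (a := 2 * τ / δ) (by positivity)
  linarith

theorem count_spaced {N : ℕ} (hN : 1 ≤ N) (t θ τ : ℝ) (hτ : 0 ≤ τ)
    (ht : ∀ q b : ℤ, 1 ≤ q → q < 2 * N → 1 / (27 * (N : ℝ)) ≤ |q * t - b|) (Z : ℕ) :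
    (((Finset.Icc (-(Z : ℤ)) Z ×ˢ Finset.Icc (N : ℤ) (500 * (N : ℤ))).filter
      (fun pr => |(pr.1 : ℝ) + pr.2 * t + θ| ≤ τ)).card : ℝ) ≤ 500 * (54 * N * τ + 1) := by
  set F := (Finset.Icc (-(Z : ℤ)) Z ×ˢ Finset.Icc (N : ℤ) (500 * (N : ℤ))).filter
      (fun pr => |(pr.1 : ℝ) + pr.2 * t + θ| ≤ τ) with hF
  have hN0 : (0 : ℝ) < N := by exact_mod_cast hN
  have hN0' : (0 : ℤ) < N := by exact_mod_cast hN
  have hmap : ∀ x ∈ F, x.2 / (N : ℤ) ∈ Finset.Icc (1 : ℤ) 500 := by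
    intro x hx
    rw [hF, Finset.mem_filter, Finset.mem_product, Finset.mem_Icc, Finset.mem_Icc] at hx
    rw [Finset.mem_Icc]
    constructor
    · exact (Int.le_ediv_iff_mul_le hN0').2 (by linarith [hx.1.2.1])
    · exact Int.ediv_le_of_le_mul hN0' hx.1.2.2
  rw [Finset.card_eq_sum_card_fiberwise (t := Finset.Icc (1 : ℤ) 500)
    (f := fun x : ℤ × ℤ => x.2 / (N : ℤ)) (fun x hx => hmap x hx)]
  push_cast
  have hone : ∀ k ∈ Finset.Icc (1 : ℤ) 500,
      ((F.filter (fun x : ℤ × ℤ => x.2 / (N : ℤ) = k)).card : ℝ) ≤ 54 * N * τ + 1 := by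
    intro k _
    have h := Spacing_card_sep (F.filter (fun x : ℤ × ℤ => x.2 / (N : ℤ) = k))
      (fun x => (x.1 : ℝ) + x.2 * t + θ) (1 / (27 * (N : ℝ))) τ (by positivity) ?_ hτ ?_
    · refine h.trans (le_of_eq ?_)
      field_simp
      ring
    · intro x hx
      rw [Finset.mem_filter, hF, Finset.mem_filter] at hx
      exact hx.1.2
    · have hkey : ∀ x ∈ F.filter (fun x : ℤ × ℤ => x.2 / (N : ℤ) = k),
          ∀ y ∈ F.filter (fun x : ℤ × ℤ => x.2 / (N : ℤ) = k), y.2 < x.2 →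
          1 / (27 * (N : ℝ)) ≤ |((x.1 : ℝ) + x.2 * t + θ) - ((y.1 : ℝ) + y.2 * t + θ)| := by
        intro x hx y hy hlt
        rw [Finset.mem_filter] at hx hy
        have h1 := Int.mul_ediv_add_emod x.2 N
        have h2 := Int.emod_lt_of_pos x.2 hN0'
        have h3 := Int.mul_ediv_add_emod y.2 N
        have h4 := Int.emod_nonneg y.2 hN0'.ne'
        rw [hx.2] at h1
        rw [hy.2] at h3
        have h5 := ht (x.2 - y.2) (y.1 - x.1) (by omega) (by omega)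
        convert h5 using 2
        push_cast
        ring
      intro x hx y hy hne
      rcases lt_trichotomy x.2 y.2 with h | h | h
      · rw [abs_sub_comm]
        exact hkey y hy x hx h
      · have h6 : x.1 ≠ y.1 := fun h7 => hne (Prod.ext h7 h)
        have h7 : (x.1 : ℝ) + x.2 * t + θ - ((y.1 : ℝ) + y.2 * t + θ) = ((x.1 - y.1 : ℤ) : ℝ) := by
          rw [h]; push_cast; ring
        rw [h7]
        have h8 : (1 : ℤ) ≤ |x.1 - y.1| := Int.one_le_abs (sub_ne_zero.2 h6)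
        have h9 : (1 : ℝ) ≤ |((x.1 - y.1 : ℤ) : ℝ)| := by exact_mod_cast h8
        refine le_trans ?_ h9
        rw [div_le_one (by positivity)]
        have : (1 : ℝ) ≤ N := by exact_mod_cast hN
        linarith
      · exact hkey x hx y hy h
  calc ∑ k ∈ Finset.Icc (1 : ℤ) 500,
      ((F.filter (fun x : ℤ × ℤ => x.2 / (N : ℤ) = k)).card : ℝ)
      ≤ ∑ _k ∈ Finset.Icc (1 : ℤ) 500, (54 * N * τ + 1) := Finset.sum_le_sum hone
    _ = 500 * (54 * N * τ + 1) := by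
        rw [Finset.sum_const, Int.card_Icc]; simp; ring

end MKG
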