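import Pool.Agent.MKG.Exp
import Pool.Agent.MKG.First
import Pool.Agent.MKG.Spacing

/-! # First moment over a cell system -/

open MeasureTheory Set Filter
open scoped BigOperators ENNReal Topology

namespace MKG

variable {m : ℕ} {Ω : Type*} [MeasurableSpace Ω] {ν : Measure Ω}

theorem measurableSet_cellInt (g : Cell) : MeasurableSet (cellInt g) := measurableSet_Ico

theorem CellSys.measurableSet_good {D : Family m Ω ν} {k N : ℕ} (S : CellSys D k N) :
    MeasurableSet S.good := by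
  unfold CellSys.good
  exact Finset.measurableSet_biUnion _ fun i _ => measurableSet_cellInt _

theorem CellSys.good_subset {D : Family m Ω ν} {k N : ℕ} (S : CellSys D k N) :
    S.good ⊆ Icc D.A D.B := by
  intro t ht
  unfold CellSys.good at ht
  simp only [Set.mem_iUnion] at ht
  obtain ⟨i, hi, ht⟩ := ht
  have h := S.ok i hi
  exact ⟨h.left.trans ht.1, ht.2.le.trans h.right⟩

theorem CellSys.spaced {D : Family m Ω ν} {k N : ℕ} (hN : 1 ≤ N) (S : CellSys D k N) :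
    Spaced N S.good := by
  intro t ht q b hq hq2
  unfold CellSys.good at ht
  simp only [Set.mem_iUnion] at ht
  obtain ⟨i, hi, ht⟩ := ht
  exact cell_spacing hN (S.ok i hi) ht q b hq hq2

theorem measurable_lin (D : Family m Ω ν) (v : ℤ × ℤ × (Fin m → ℤ)) :
    Measurable (fun z : ℝ × Ω => lin (fun t => D.F t z.2) v z.1) := by
  unfold lin
  exact (measurable_const.add (measurable_fst.const_mul _)).add
    (measurable_dot _ _ fun j => D.meas j)

theorem measurable_lin_fix (D : Family m Ω ν) (v : ℤ × ℤ × (Fin m → ℤ)) (ω : Ω) :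
    Measurable (fun t : ℝ => lin (fun t => D.F t ω) v t) :=
  (measurable_lin D v).comp (measurable_id.prodMk measurable_const)

theorem card_box (β : ℕ) (l : Fin m → ℕ) :
    (Fintype.piFinset (fun j => Finset.Ico ((β : ℤ) ^ (l j)) (2 * (β : ℤ) ^ (l j)))).card
      = β ^ (∑ j, l j) := by
  rw [Fintype.card_piFinset]
  have : ∀ j, (Finset.Ico ((β : ℤ) ^ (l j)) (2 * (β : ℤ) ^ (l j))).card = β ^ (l j) := by
    intro j
    rw [Int.card_Ico]
    have : 2 * (β : ℤ) ^ (l j) - (β : ℤ) ^ (l j) = ((β ^ (l j) : ℕ) : ℤ) := by push_cast; ring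
    rw [this, Int.toNat_natCast]
  simp only [this]
  rw [Finset.prod_pow_eq_pow_sum]

/-- entries of a box vector -/
theorem box_le {β : ℕ} (hβ : 1 ≤ β) (l : Fin m → ℕ) {a : Fin m → ℤ}
    (ha : a ∈ Fintype.piFinset (fun j => Finset.Ico ((β : ℤ) ^ (l j)) (2 * (β : ℤ) ^ (l j)))) (j) :
    1 ≤ a j ∧ (β : ℤ) ^ (l j) ≤ a j ∧ a j < 2 * (β : ℤ) ^ (l j) ∧
      |(a j : ℝ)| ≤ 2 * (β : ℝ) ^ (∑ j, l j) := by
  rw [Fintype.mem_piFinset] at ha
  have h := ha j
  rw [Finset.mem_Ico] at h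
  have h1 : (1 : ℤ) ≤ (β : ℤ) ^ (l j) := one_le_pow₀ (by exact_mod_cast hβ)
  refine ⟨h1.trans h.1, h.1, h.2, ?_⟩
  have h2 : (0 : ℝ) ≤ a j := by exact_mod_cast (by omega : (0 : ℤ) ≤ a j)
  rw [abs_of_nonneg h2]
  have h3 : (a j : ℝ) ≤ 2 * (β : ℝ) ^ (l j) := by exact_mod_cast h.2.le
  refine h3.trans ?_
  have h4 : (β : ℝ) ^ (l j) ≤ (β : ℝ) ^ (∑ j, l j) :=
    pow_le_pow_right₀ (by exact_mod_cast hβ) (Finset.single_le_sum (fun _ _ => Nat.zero_le _)
      (Finset.mem_univ j))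
  linarith

theorem first_moment (D : Family m Ω ν) {β k : ℕ} (hβ : 1 ≤ β) (S : CellSys D k (β ^ k))
    (l : Fin m → ℕ) (Z : ℕ)
    (hZ : 500 * (β : ℝ) ^ k * (|D.A| + |D.B|) + 2 * m * (β : ℝ) ^ (∑ j, l j) * D.M + 1 ≤ Z)
    {ψ : ℝ} (hψ0 : 0 < ψ) (hψ : ψ * (β : ℝ) ^ k ≤ 1 / 8)
    (herr : 4 * (m : ℝ) * D.M * (2 * (β : ℝ) ^ (∑ j, l j)) ≤ ψ * ((β : ℝ) ^ k) ^ 4)
    (hsm : 4 * (m : ℝ) * D.M * (2 * (β : ℝ) ^ (∑ j, l j)) ≤ (β : ℝ) ^ k) (ω : Ω) :
    ENNReal.ofReal ((D.B - D.A) * ((β : ℝ) ^ k * ψ * (β : ℝ) ^ (∑ j, l j)) / (5 * 10 ^ 6))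
      ≤ ∑ v ∈ shape β (β ^ k) l Z, volume {t | t ∈ S.good ∧ |lin (fun t => D.F t ω) v t| < ψ} := by
  classical
  set P : ℝ := (β : ℝ) ^ (∑ j, l j) with hP
  set G : ℝ → Fin m → ℝ := fun t => D.F t ω with hG
  have hN1 : 1 ≤ β ^ k := Nat.one_le_pow _ _ hβ
  have hNr : (1 : ℝ) ≤ (β : ℝ) ^ k := by exact_mod_cast hN1
  have hM := D.hM
  have hP0 : 0 ≤ P := by rw [hP]; positivity
  set box := Fintype.piFinset (fun j => Finset.Ico ((β : ℤ) ^ (l j)) (2 * (β : ℤ) ^ (l j))) with hbox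
  -- the chosen vectors
  have hchoice : ∀ i ∈ S.I, ∀ a ∈ box, ∃ p r : ℤ, ((β ^ k : ℕ) : ℤ) ≤ r ∧ r ≤ 500 * ((β ^ k : ℕ) : ℤ) ∧
      ENNReal.ofReal (ψ / (1000 * (β ^ k : ℕ))) ≤
        volume {t | t ∈ cellInt (S.g i) ∧ |lin G (p, r, a) t| < ψ} := by
    intro i hi a ha
    exact first_moment_cell (D.curve ω) hM hN1 (S.ok i hi) a (2 * P) (fun j => (box_le hβ l ha j).2.2.2)
      hψ0 (by push_cast; exact hψ) (by push_cast; exact herr) (by push_cast; exact hsm)
  choose! p r hr1 hr2 hvol using hchoice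
  -- membership in the shape
  have hmem : ∀ i ∈ S.I, ∀ a ∈ box, (p i a, r i a, a) ∈ shape β (β ^ k) l Z := by
    intro i hi a ha
    unfold shape
    rw [Finset.mem_product, Finset.mem_product, Finset.mem_Icc, Finset.mem_Icc]
    refine ⟨?_, ⟨hr1 i hi a ha, hr2 i hi a ha⟩, ha⟩
    -- nonempty
    have hne : {t | t ∈ cellInt (S.g i) ∧ |lin G (p i a, r i a, a) t| < ψ}.Nonempty := by
      rw [Set.nonempty_iff_ne_empty]
      intro h0
      have := hvol i hi a ha
      rw [h0, measure_empty, nonpos_iff_eq_zero, ENNReal.ofReal_eq_zero] at this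
      have : 0 < ψ / (1000 * ((β ^ k : ℕ) : ℝ)) := by positivity
      linarith
    obtain ⟨t, ht, hlt⟩ := hne
    have htI : t ∈ Icc D.A D.B := S.good_subset (by
      unfold CellSys.good; simp only [Set.mem_iUnion]; exact ⟨i, hi, ht⟩)
    have hdot : |dot a (G t)| ≤ m * (2 * P) * D.M :=
      abs_dot_le a (G t) (fun j => (box_le hβ l ha j).2.2.2) (fun j => (D.curve ω).bd t htI j)
    have htabs : |t| ≤ |D.A| + |D.B| := by
      rw [abs_le]
      constructor
      · have := neg_abs_le D.A; have := abs_nonneg D.B; linarith [htI.1]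
      · have := le_abs_self D.B; have := abs_nonneg D.A; linarith [htI.2]
    have hrr : |(r i a : ℝ)| ≤ 500 * (β : ℝ) ^ k := by
      have h1 := hr1 i hi a ha
      have h2 := hr2 i hi a ha
      have h3 : (0 : ℤ) ≤ r i a := le_trans (by positivity) h1
      rw [abs_of_nonneg (by exact_mod_cast h3)]
      have : (r i a : ℝ) ≤ 500 * ((β ^ k : ℕ) : ℝ) := by exact_mod_cast h2
      simpa using this
    have hψ1 : ψ ≤ 1 := by
      have : ψ * 1 ≤ ψ * (β : ℝ) ^ k := mul_le_mul_of_nonneg_left hNr hψ0.le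
      linarith
    have hp : |(p i a : ℝ)| ≤ Z := by
      have h1 : (p i a : ℝ) = lin G (p i a, r i a, a) t - r i a * t - dot a (G t) := by
        simp only [lin]; ring
      rw [h1]
      calc |lin G (p i a, r i a, a) t - r i a * t - dot a (G t)|
          ≤ |lin G (p i a, r i a, a) t| + |r i a * t| + |dot a (G t)| :=
            (abs_sub _ _).trans (add_le_add_left (abs_sub _ _) _)
        _ ≤ 1 + 500 * (β : ℝ) ^ k * (|D.A| + |D.B|) + m * (2 * P) * D.M := by
            refine add_le_add (add_le_add (hlt.le.trans hψ1) ?_) hdot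
            rw [abs_mul]
            exact mul_le_mul hrr htabs (abs_nonneg _) (by positivity)
        _ ≤ Z := by linarith
    have hp' : |p i a| ≤ (Z : ℤ) := by exact_mod_cast hp
    exact abs_le.mp hp'
  -- decompose `good` into cells
  have hdecomp : ∀ v, volume {t | t ∈ S.good ∧ |lin G v t| < ψ}
      = ∑ i ∈ S.I, volume {t | t ∈ cellInt (S.g i) ∧ |lin G v t| < ψ} := by
    intro v
    have hset : {t | t ∈ S.good ∧ |lin G v t| < ψ}
        = ⋃ i ∈ S.I, {t | t ∈ cellInt (S.g i) ∧ |lin G v t| < ψ} := by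
      ext t
      simp only [CellSys.good, Set.mem_iUnion, Set.mem_ofPred_eq, exists_prop]
      constructor
      · rintro ⟨⟨i, hi, ht⟩, h⟩; exact ⟨i, hi, ht, h⟩
      · rintro ⟨i, hi, ht, h⟩; exact ⟨⟨i, hi, ht⟩, h⟩
    rw [hset, measure_biUnion_finset]
    · intro i hi j hj hij
      refine Set.disjoint_left.mpr ?_
      rintro t ⟨h1, _⟩ ⟨h2, _⟩
      exact Set.disjoint_left.mp (S.disj i hi j hj hij) h1 h2
    · intro i _
      have hml : Measurable (fun t : ℝ => lin G v t) := measurable_lin_fix D v ω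
      have hmabs : MeasurableSet {t : ℝ | |lin G v t| < ψ} :=
        measurableSet_lt (measurable_abs.comp hml) measurable_const
      exact (measurableSet_cellInt _).inter hmabs
  simp only [hdecomp]
  rw [Finset.sum_comm]
  have hinner : ∀ i ∈ S.I, (box.card : ℝ≥0∞) * ENNReal.ofReal (ψ / (1000 * (β ^ k : ℕ)))
      ≤ ∑ v ∈ shape β (β ^ k) l Z, volume {t | t ∈ cellInt (S.g i) ∧ |lin G v t| < ψ} := by
    intro i hi
    have hinj : Set.InjOn (fun a => (p i a, r i a, a)) (box : Set (Fin m → ℤ)) := by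
      intro a _ b _ hab
      simp only [Prod.mk.injEq] at hab
      exact hab.2.2
    calc (box.card : ℝ≥0∞) * ENNReal.ofReal (ψ / (1000 * (β ^ k : ℕ)))
        = ∑ _a ∈ box, ENNReal.ofReal (ψ / (1000 * (β ^ k : ℕ))) := by
          rw [Finset.sum_const, nsmul_eq_mul]
      _ ≤ ∑ a ∈ box, volume {t | t ∈ cellInt (S.g i) ∧ |lin G (p i a, r i a, a) t| < ψ} :=
          Finset.sum_le_sum fun a ha => hvol i hi a ha
      _ = ∑ v ∈ box.image (fun a => (p i a, r i a, a)),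
            volume {t | t ∈ cellInt (S.g i) ∧ |lin G v t| < ψ} := by
          rw [Finset.sum_image hinj]
      _ ≤ _ := by
          refine Finset.sum_le_sum_of_subset ?_
          intro v hv
          obtain ⟨a, ha, rfl⟩ := Finset.mem_image.mp hv
          exact hmem i hi a ha
  have hsum := Finset.sum_le_sum hinner
  refine le_trans ?_ hsum
  rw [Finset.sum_const, nsmul_eq_mul, hbox, card_box]
  have hlo := S.card_lo
  push_cast at hlo
  have e1 : ((S.I.card : ℝ≥0∞)) * (((β ^ (∑ j, l j) : ℕ) : ℝ≥0∞) * ENNReal.ofReal (ψ / (1000 * ((β ^ k : ℕ) : ℝ))))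
      = ENNReal.ofReal ((S.I.card : ℝ) * (P * (ψ / (1000 * ((β ^ k : ℕ) : ℝ))))) := by
    rw [ENNReal.ofReal_mul (by positivity), ENNReal.ofReal_mul hP0, ENNReal.ofReal_natCast]
    congr 2
    rw [hP, ← ENNReal.ofReal_natCast]
    push_cast; rfl
  rw [e1]
  apply ENNReal.ofReal_le_ofReal
  have hβk : (0 : ℝ) < (β : ℝ) ^ k := by positivity
  have hBA : 0 ≤ D.B - D.A := by have := D.hAB; linarith
  push_cast
  calc (D.B - D.A) * ((β : ℝ) ^ k * ψ * P) / (5 * 10 ^ 6)
      = ((D.B - D.A) * ((β : ℝ) ^ k) ^ 2 / 5000) * (P * (ψ / (1000 * (β : ℝ) ^ k))) := by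
        field_simp; ring
    _ ≤ _ := mul_le_mul_of_nonneg_right hlo (by positivity)

end MKG
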