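import Pool.Agent.MKG.Count

/-! # The gcd sum and the number of parallel vectors -/

open MeasureTheory Set Filter
open scoped BigOperators ENNReal Topology

namespace MKG

/-- The number of vectors parallel to `v` with `r' ≤ 500 N` is at most `500 gcd`. -/
theorem par_count {m : ℕ} (j₀ : Fin m) {N : ℕ} (hN : 1 ≤ N) (v : ℤ × ℤ × (Fin m → ℤ))
    (hv : (N : ℤ) ≤ v.2.1) (W : Finset (ℤ × ℤ × (Fin m → ℤ)))
    (hW : ∀ w ∈ W, 1 ≤ w.2.1 ∧ w.2.1 ≤ 500 * N ∧ Par v w) :
    W.card ≤ 500 * Int.gcd v.1 (Int.gcd v.2.1 (v.2.2 j₀)) := by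
  obtain ⟨p, r, a⟩ := v
  simp only at hv ⊢
  have hN' : (1 : ℤ) ≤ N := by exact_mod_cast hN
  have hr : 0 < r := by omega
  set g : ℕ := Int.gcd p (Int.gcd r (a j₀)) with hg
  have hgp : (g : ℤ) ∣ p := Int.gcd_dvd_left _ _
  have hg2 : (g : ℤ) ∣ (Int.gcd r (a j₀) : ℤ) := Int.gcd_dvd_right _ _
  have hgr : (g : ℤ) ∣ r := hg2.trans (Int.gcd_dvd_left _ _)
  obtain ⟨s, hs⟩ := hgr
  have hg0 : 0 < (g : ℤ) := by
    rcases Nat.eq_zero_or_pos g with h | h
    · rw [h] at hs; simp at hs; omega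
    · exact_mod_cast h
  have hs0 : 0 < s := by
    by_contra hcon
    push Not at hcon
    nlinarith
  -- `s ∣ r_w`
  have hdvd : ∀ w ∈ W, s ∣ w.2.1 := by
    intro w hw
    obtain ⟨h1, h2, h3, h4⟩ := hW w hw
    simp only at h3 h4
    have d1 : r ∣ w.2.1 * p := ⟨w.1, by rw [← h3]⟩
    have d2 : r ∣ w.2.1 * a j₀ := ⟨w.2.2 j₀, by rw [← h4 j₀]⟩
    have d3 : r ∣ w.2.1 * r := ⟨w.2.1, by ring⟩
    -- Bezout
    have b1 := Int.gcd_eq_gcd_ab r (a j₀)
    have b2 := Int.gcd_eq_gcd_ab p (Int.gcd r (a j₀))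
    have d4 : r ∣ w.2.1 * (g : ℤ) := by
      have : w.2.1 * (g : ℤ) = (w.2.1 * p) * Int.gcdA p (Int.gcd r (a j₀))
          + ((w.2.1 * r) * Int.gcdA r (a j₀) + (w.2.1 * a j₀) * Int.gcdB r (a j₀))
            * Int.gcdB p (Int.gcd r (a j₀)) := by
        rw [hg]
        linear_combination w.2.1 * b2 + w.2.1 * Int.gcdB p (Int.gcd r (a j₀)) * b1
      rw [this]
      exact dvd_add (d1.mul_right _) ((dvd_add (d3.mul_right _) (d2.mul_right _)).mul_right _)
    rw [hs, mul_comm w.2.1] at d4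
    exact (mul_dvd_mul_iff_left hg0.ne').mp d4
  have hcard : W.card ≤ (Finset.Ioc (0 : ℤ) (500 * g)).card := by
    apply Finset.card_le_card_of_injOn (fun w => w.2.1 / s)
    · intro w hw
      obtain ⟨h1, h2, h3, h4⟩ := hW w hw
      obtain ⟨k, hk⟩ := hdvd w hw
      simp only [Finset.coe_Ioc, Set.mem_Ioc]
      rw [hk, Int.mul_ediv_cancel_left _ hs0.ne']
      constructor
      · by_contra hcon
        push Not at hcon
        nlinarith
      · have : s * k ≤ s * (500 * g) := by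
          rw [← hk]
          nlinarith
        exact le_of_mul_le_mul_left this hs0
    · intro w hw w' hw' hww
      obtain ⟨h1, h2, h3, h4⟩ := hW w hw
      obtain ⟨h1', h2', h3', h4'⟩ := hW w' hw'
      obtain ⟨k, hk⟩ := hdvd w hw
      obtain ⟨k', hk'⟩ := hdvd w' hw'
      simp only at hww h3 h4 h3' h4'
      rw [hk, hk', Int.mul_ediv_cancel_left _ hs0.ne', Int.mul_ediv_cancel_left _ hs0.ne'] at hww
      have e1 : w.2.1 = w'.2.1 := by rw [hk, hk', hww]
      have e2 : w.1 = w'.1 := by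
        rw [e1, ← h3'] at h3
        exact mul_left_cancel₀ hr.ne' h3
      have e3 : w.2.2 = w'.2.2 := by
        funext j
        have := h4 j
        rw [e1, ← h4' j] at this
        exact mul_left_cancel₀ hr.ne' this
      exact Prod.ext e2 (Prod.ext e1 e3)
  rw [Int.card_Ioc] at hcard
  omega

/-- multiples of `d` in `(0, X]` -/
theorem gcdSum_mult_pos {d : ℕ} (hd : 1 ≤ d) {X : ℝ} (hX : 0 ≤ X) (S : Finset ℤ)
    (hS : ∀ x ∈ S, 0 < x ∧ (x : ℝ) ≤ X ∧ (d : ℤ) ∣ x) : (S.card : ℝ) ≤ X / d := by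
  have hd0 : (0 : ℝ) < d := by exact_mod_cast hd
  have hdz : (0 : ℤ) < d := by exact_mod_cast hd
  have hcard : S.card ≤ (Finset.Ioc (0 : ℤ) ⌊X / d⌋).card := by
    apply Finset.card_le_card_of_injOn (fun x : ℤ => x / (d : ℤ))
    · intro x hx
      obtain ⟨h1, h2, k, rfl⟩ := hS x hx
      simp only [Finset.coe_Ioc, Set.mem_Ioc]
      rw [Int.mul_ediv_cancel_left _ hdz.ne']
      refine ⟨by nlinarith, ?_⟩
      rw [Int.le_floor, le_div_iff₀ hd0]
      push_cast at h2
      linarith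
    · intro x hx y hy hxy
      obtain ⟨h1, h2, k, rfl⟩ := hS x hx
      obtain ⟨h1', h2', k', rfl⟩ := hS y hy
      simp only at hxy
      rw [Int.mul_ediv_cancel_left _ hdz.ne', Int.mul_ediv_cancel_left _ hdz.ne'] at hxy
      rw [hxy]
  rw [Int.card_Ioc, sub_zero] at hcard
  have h0 : 0 ≤ ⌊X / d⌋ := Int.floor_nonneg.mpr (by positivity)
  calc (S.card : ℝ) ≤ ((⌊X / d⌋.toNat : ℕ) : ℝ) := by exact_mod_cast hcard
    _ = ((⌊X / d⌋.toNat : ℤ) : ℝ) := by norm_cast
    _ = (⌊X / d⌋ : ℝ) := by rw [Int.toNat_of_nonneg h0]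
    _ ≤ X / d := Int.floor_le _

/-- multiples of `d` in `[c, c + L]` -/
theorem gcdSum_mult_interval {d : ℕ} (hd : 1 ≤ d) {c L : ℝ} (hL : 0 ≤ L) (S : Finset ℤ)
    (hS : ∀ x ∈ S, c ≤ (x : ℝ) ∧ (x : ℝ) ≤ c + L ∧ (d : ℤ) ∣ x) : (S.card : ℝ) ≤ L / d + 1 := by
  have hd0 : (0 : ℝ) < d := by exact_mod_cast hd
  have hdz : (0 : ℤ) < d := by exact_mod_cast hd
  have hcard : S.card ≤ (Finset.Icc ⌈c / d⌉ ⌊(c + L) / d⌋).card := by
    apply Finset.card_le_card_of_injOn (fun x : ℤ => x / (d : ℤ))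
    · intro x hx
      obtain ⟨h1, h2, k, rfl⟩ := hS x hx
      simp only [Finset.coe_Icc, Set.mem_Icc]
      rw [Int.mul_ediv_cancel_left _ hdz.ne']
      push_cast at h1 h2
      rw [Int.le_floor, le_div_iff₀ hd0, Int.ceil_le, div_le_iff₀ hd0]
      exact ⟨by linarith, by linarith⟩
    · intro x hx y hy hxy
      obtain ⟨h1, h2, k, rfl⟩ := hS x hx
      obtain ⟨h1', h2', k', rfl⟩ := hS y hy
      simp only at hxy
      rw [Int.mul_ediv_cancel_left _ hdz.ne', Int.mul_ediv_cancel_left _ hdz.ne'] at hxy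
      rw [hxy]
  rw [Int.card_Icc] at hcard
  have h2 : (S.card : ℝ) ≤ ((⌊(c + L) / d⌋ + 1 - ⌈c / d⌉).toNat : ℕ) := by exact_mod_cast hcard
  have h3 : (((⌊(c + L) / d⌋ + 1 - ⌈c / d⌉).toNat : ℕ) : ℝ) ≤ L / d + 1 := by
    rcases le_or_gt 0 (⌊(c + L) / d⌋ + 1 - ⌈c / d⌉) with h | h
    · have e : (((⌊(c + L) / d⌋ + 1 - ⌈c / d⌉).toNat : ℕ) : ℝ)
          = ((⌊(c + L) / d⌋ + 1 - ⌈c / d⌉ : ℤ) : ℝ) := by
        have := Int.toNat_of_nonneg h
        exact_mod_cast congrArg (fun z : ℤ => (z : ℝ)) this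
      rw [e]
      push_cast
      have := Int.floor_le ((c + L) / d)
      have := Int.le_ceil (c / d)
      have : (c + L) / d = c / d + L / d := by ring
      linarith
    · rw [Int.toNat_of_nonpos h.le]
      have : 0 ≤ L / d := by positivity
      push_cast
      linarith
  linarith

theorem gcdSum_dot_sub {m : ℕ} {A B M : ℝ} {G G' : ℝ → Fin m → ℝ} (hG : IsCurve A B M G G')
    (hM : 1 ≤ M) (a : Fin m → ℤ) {P : ℝ} (hP : ∀ j, |(a j : ℝ)| ≤ P)
    {t u : ℝ} (ht : t ∈ Icc A B) (hu : u ∈ Icc A B) :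
    |dot a (G u) - dot a (G t)| ≤ m * M * (1 + (B - A)) * P * |u - t| := by
  have h1 : dot a (G u) - dot a (G t) = ∑ j, (a j : ℝ) * (G u j - G t j) := by
    simp only [dot, ← Finset.sum_sub_distrib]
    exact Finset.sum_congr rfl fun j _ => by ring
  rw [h1]
  have hAB : |u - t| ≤ B - A := by
    rw [abs_le]; constructor <;> linarith [ht.1, ht.2, hu.1, hu.2]
  have h2 : ∀ j ∈ (Finset.univ : Finset (Fin m)), |(a j : ℝ) * (G u j - G t j)| ≤
      P * (M * (1 + (B - A)) * |u - t|) := by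
    intro j _
    rw [abs_mul]
    have hq := hG.qr t ht u hu j
    have hb := hG.bd' t ht j
    have h3 : |G u j - G t j| ≤ M * (u - t) ^ 2 + |u - t| * M := by
      calc |G u j - G t j| = |(G u j - G t j - (u - t) * G' t j) + (u - t) * G' t j| := by ring_nf
        _ ≤ |G u j - G t j - (u - t) * G' t j| + |(u - t) * G' t j| := abs_add_le _ _
        _ ≤ M * (u - t) ^ 2 + |u - t| * M := by
          rw [abs_mul]
          gcongr
    have h4 : M * (u - t) ^ 2 + |u - t| * M ≤ M * (1 + (B - A)) * |u - t| := by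
      rw [← sq_abs (u - t)]
      have : M * |u - t| ^ 2 ≤ M * ((B - A) * |u - t|) := by
        rw [sq]; gcongr
      linarith
    have hP0 : 0 ≤ P := (abs_nonneg _).trans (hP j)
    exact mul_le_mul (hP j) (h3.trans h4) (abs_nonneg _) hP0
  calc |∑ j, (a j : ℝ) * (G u j - G t j)| ≤ ∑ j, |(a j : ℝ) * (G u j - G t j)| :=
        Finset.abs_sum_le_sum_abs _ _
    _ ≤ ∑ _j : Fin m, P * (M * (1 + (B - A)) * |u - t|) := Finset.sum_le_sum h2
    _ = m * M * (1 + (B - A)) * P * |u - t| := by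
        rw [Finset.sum_const, Finset.card_univ, Fintype.card_fin, nsmul_eq_mul]; ring

theorem gcd_sum {m : ℕ} {A B M : ℝ} {G G' : ℝ → Fin m → ℝ} (hG : IsCurve A B M G G')
    (hAB : A < B) (hM : 1 ≤ M) {β : ℕ} (hβ : 1024 ≤ β) {N : ℕ} (hN : 1 ≤ N)
    (l : Fin m → ℕ) (j₀ : Fin m) (Z : ℕ) {ψ : ℝ} (hψ0 : 0 < ψ) (hψ : ψ * N ≤ 1)
    (hsm : 4 * (m : ℝ) * M * (1 + (B - A)) * (β : ℝ) ^ (∑ j, l j) ≤ N)
    (hsm'' : 4 * (m : ℝ) * M * (β : ℝ) ^ (∑ j, l j) + 4 ≤ N * (B - A)) :
    ∑ v ∈ shape β N l Z, (Int.gcd v.1 (Int.gcd v.2.1 (v.2.2 j₀)) : ℝ≥0∞) *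
      volume {t | t ∈ Icc A B ∧ |lin G v t| < ψ}
      ≤ ENNReal.ofReal (10 ^ 10 * (B - A) * (N * ψ * (β : ℝ) ^ (∑ j, l j))) := by
  classical
  have hδ : 0 < B - A := by linarith
  have hN0 : (0 : ℝ) < N := by exact_mod_cast hN
  have hN1 : (1 : ℝ) ≤ N := by exact_mod_cast hN
  have hβ1 : 1 ≤ β := by omega
  set Q : ℕ := β ^ (∑ j, l j) with hQ
  have hQr : (β : ℝ) ^ (∑ j, l j) = Q := by rw [hQ]; push_cast; rfl
  rw [hQr] at hsm hsm'' ⊢
  have hQ1 : 1 ≤ Q := Nat.one_le_pow _ _ (by omega)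
  have hQ1r : (1 : ℝ) ≤ Q := by exact_mod_cast hQ1
  have hm1 : (1 : ℝ) ≤ m := by
    have : 0 < m := lt_of_le_of_lt (Nat.zero_le _) j₀.2
    exact_mod_cast this
  have hmM : (1 : ℝ) ≤ m * M := by nlinarith
  have hlQ : ∀ j, β ^ (l j) ≤ Q := fun j =>
    Nat.pow_le_pow_right (by omega)
      (Finset.single_le_sum (fun i _ => Nat.zero_le (l i)) (Finset.mem_univ j))
  -- `ψ ≤ 1`
  have hψ1 : ψ ≤ 1 := by nlinarith
  -- `4 Q ≤ N (B-A)` and `4 ≤ N (B-A)`
  have hQN : 4 * (Q : ℝ) ≤ N * (B - A) := by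
    have : (Q : ℝ) ≤ m * M * Q := by nlinarith
    linarith
  have h4N : 4 ≤ N * (B - A) := by
    have : 0 ≤ 4 * (m : ℝ) * M * Q := by positivity
    linarith
  -- the coefficient bound
  have hcoef0 : ∀ v ∈ shape β N l Z, ∀ j, 1 ≤ v.2.2 j ∧ v.2.2 j ≤ 2 * Q := by
    intro v hv j
    simp only [shape, Finset.mem_product, Fintype.mem_piFinset, Finset.mem_Ico] at hv
    have h1 := (hv.2.2 j).1
    have h2 := (hv.2.2 j).2
    have h3 : (1 : ℤ) ≤ (β : ℤ) ^ (l j) := by
      exact_mod_cast Nat.one_le_pow _ _ (by omega)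
    have h4 : (β : ℤ) ^ (l j) ≤ Q := by exact_mod_cast hlQ j
    exact ⟨by omega, by omega⟩
  have hcoef : ∀ v ∈ shape β N l Z, ∀ j, |((v.2.2 j : ℤ) : ℝ)| ≤ 2 * Q := by
    intro v hv j
    obtain ⟨h1, h2⟩ := hcoef0 v hv j
    rw [abs_of_nonneg (by exact_mod_cast (by omega : 0 ≤ v.2.2 j))]
    exact_mod_cast h2
  have hdot : ∀ v ∈ shape β N l Z, ∀ t ∈ Icc A B, ∀ u ∈ Icc A B,
      |dot v.2.2 (G u) - dot v.2.2 (G t)| ≤ N / 2 * |u - t| := by
    intro v hv t ht u hu
    refine (gcdSum_dot_sub hG hM v.2.2 (hcoef v hv) ht hu).trans ?_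
    gcongr
    linarith
  -- the sets
  set E : ℤ × ℤ × (Fin m → ℤ) → Set ℝ := fun v => {t | t ∈ Icc A B ∧ |lin G v t| < ψ} with hE
  have hvol : ∀ v ∈ shape β N l Z, volume (E v) ≤ ENNReal.ofReal (4 * ψ / N) := by
    intro v hv
    refine (Real.volume_le_diam _).trans (Metric.ediam_le_of_forall_dist_le ?_)
    intro t ht u hu
    have hd := hdot v hv t ht.1 u hu.1
    have h1 := ht.2
    have h2 := hu.2
    have hr : (N : ℝ) ≤ v.2.1 := by
      simp only [shape, Finset.mem_product, Finset.mem_Icc] at hv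
      exact_mod_cast hv.2.1.1
    have h3 : |(v.2.1 : ℝ) * (u - t)| ≤ 2 * ψ + N / 2 * |u - t| := by
      have e : (v.2.1 : ℝ) * (u - t) = lin G v u - lin G v t
          - (dot v.2.2 (G u) - dot v.2.2 (G t)) := by
        simp only [lin]; ring
      rw [e]
      calc |lin G v u - lin G v t - (dot v.2.2 (G u) - dot v.2.2 (G t))|
          ≤ |lin G v u - lin G v t| + |dot v.2.2 (G u) - dot v.2.2 (G t)| := abs_sub _ _
        _ ≤ (|lin G v u| + |lin G v t|) + N / 2 * |u - t| := by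
          gcongr
          exact abs_sub _ _
        _ ≤ 2 * ψ + N / 2 * |u - t| := by linarith
    rw [abs_mul, abs_of_nonneg (hN0.le.trans hr)] at h3
    have h4 : (N : ℝ) * |u - t| ≤ v.2.1 * |u - t| := by gcongr
    rw [Real.dist_eq, abs_sub_comm, le_div_iff₀ hN0]
    linarith
  set g : ℤ × ℤ × (Fin m → ℤ) → ℕ := fun v => Int.gcd v.1 (Int.gcd v.2.1 (v.2.2 j₀)) with hg
  have hgd : ∀ v, (g v : ℤ) ∣ v.1 ∧ (g v : ℤ) ∣ v.2.1 ∧ (g v : ℤ) ∣ v.2.2 j₀ := by
    intro v
    have h2 : (g v : ℤ) ∣ (Int.gcd v.2.1 (v.2.2 j₀) : ℤ) := Int.gcd_dvd_right _ _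
    exact ⟨Int.gcd_dvd_left _ _, h2.trans (Int.gcd_dvd_left _ _), h2.trans (Int.gcd_dvd_right _ _)⟩
  have hgrange : ∀ v ∈ shape β N l Z, g v ∈ Finset.Icc 1 (2 * Q) := by
    intro v hv
    obtain ⟨h1, h2⟩ := hcoef0 v hv j₀
    obtain ⟨_, _, h3⟩ := hgd v
    have h4 := Int.le_of_dvd (by omega) h3
    rw [Finset.mem_Icc]
    refine ⟨?_, by omega⟩
    by_contra hcon
    have h0 : g v = 0 := by omega
    rw [h0] at h3
    simp at h3
    omega
  -- the count
  have hcount : ∀ d : ℕ, 1 ≤ d → d ≤ 2 * Q →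
      ((((shape β N l Z).filter (fun v => (E v).Nonempty)).filter (fun v => g v = d)).card : ℝ)
        ≤ (500 * N) * (2 * Q) * (1002 * N * (B - A)) / (d : ℝ) ^ 3 := by
    intro d hd1 hd2
    have hd0 : (0 : ℝ) < d := by exact_mod_cast hd1
    have hd2r : (d : ℝ) ≤ 2 * Q := by exact_mod_cast hd2
    set F := ((shape β N l Z).filter (fun v => (E v).Nonempty)).filter (fun v => g v = d) with hF
    set R := (Finset.Icc (N : ℤ) (500 * (N : ℤ))).filter (fun r => (d : ℤ) ∣ r) with hR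
    set Pi := (Fintype.piFinset (fun j => Finset.Ico ((β : ℤ) ^ (l j)) (2 * (β : ℤ) ^ (l j)))).filter
      (fun a => (d : ℤ) ∣ a j₀) with hPi
    have hmaps : Set.MapsTo (fun v : ℤ × ℤ × (Fin m → ℤ) => v.2) (F : Set (ℤ × ℤ × (Fin m → ℤ)))
        ((R ×ˢ Pi : Finset (ℤ × (Fin m → ℤ))) : Set (ℤ × (Fin m → ℤ))) := by
      intro v hv
      rw [Finset.mem_coe, hF, Finset.mem_filter, Finset.mem_filter] at hv
      obtain ⟨⟨h1, h2⟩, h3⟩ := hv
      obtain ⟨_, k2, k3⟩ := hgd v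
      rw [h3] at k2 k3
      simp only [shape, Finset.mem_product] at h1
      rw [Finset.mem_coe, Finset.mem_product, hR, hPi, Finset.mem_filter, Finset.mem_filter]
      exact ⟨⟨h1.2.1, k2⟩, ⟨h1.2.2, k3⟩⟩
    have hfib : ∀ y ∈ R ×ˢ Pi, ((F.filter (fun v => v.2 = y)).card : ℝ) ≤ 1002 * N * (B - A) / d := by
      intro y hy
      rw [Finset.mem_product, hR, hPi, Finset.mem_filter, Finset.mem_filter, Finset.mem_Icc] at hy
      obtain ⟨⟨⟨hy1, hy2⟩, _⟩, ⟨hy3, _⟩⟩ := hy
      set S := (F.filter (fun v => v.2 = y)).image Prod.fst with hS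
      have hcard : (F.filter (fun v => v.2 = y)).card = S.card := by
        rw [hS, Finset.card_image_of_injOn]
        intro v hv w hw hvw
        rw [Finset.mem_coe, Finset.mem_filter] at hv hw
        exact Prod.ext hvw (hv.2.trans hw.2.symm)
      rw [hcard]
      have hAB0 : A ∈ Icc A B := ⟨le_rfl, hAB.le⟩
      set c0 : ℝ := (y.1 : ℝ) * A + dot y.2 (G A) with hc0
      have hy2r : (y.1 : ℝ) ≤ 500 * N := by exact_mod_cast hy2
      have hy1r : (N : ℝ) ≤ y.1 := by exact_mod_cast hy1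
      have hmem : ∀ p ∈ S, -c0 - (1001 / 2 * N * (B - A) + ψ) ≤ (p : ℝ) ∧
          (p : ℝ) ≤ -c0 - (1001 / 2 * N * (B - A) + ψ) + (1001 * N * (B - A) + 2 * ψ) ∧
          (d : ℤ) ∣ p := by
        intro p hp
        rw [hS, Finset.mem_image] at hp
        obtain ⟨v, hv, rfl⟩ := hp
        rw [Finset.mem_filter, hF, Finset.mem_filter, Finset.mem_filter] at hv
        obtain ⟨⟨⟨h1, t, ht, hlt⟩, h3⟩, h4⟩ := hv
        obtain ⟨k1, _, _⟩ := hgd v
        rw [h3] at k1
        have hd := hdot v h1 A hAB0 t ht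
        have e : lin G v t = (v.1 : ℝ) + c0 + ((y.1 : ℝ) * (t - A)
            + (dot v.2.2 (G t) - dot v.2.2 (G A))) := by
          simp only [lin, hc0, ← h4]; ring
        have htA : |t - A| ≤ B - A := by
          rw [abs_of_nonneg (by linarith [ht.1])]; linarith [ht.2]
        have h5 : |(y.1 : ℝ) * (t - A) + (dot v.2.2 (G t) - dot v.2.2 (G A))|
            ≤ 1001 / 2 * N * (B - A) := by
          calc |(y.1 : ℝ) * (t - A) + (dot v.2.2 (G t) - dot v.2.2 (G A))|
              ≤ |(y.1 : ℝ) * (t - A)| + |dot v.2.2 (G t) - dot v.2.2 (G A)| := abs_add_le _ _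
            _ ≤ 500 * N * (B - A) + N / 2 * (B - A) := by
              apply add_le_add
              · rw [abs_mul, abs_of_nonneg (hN0.le.trans hy1r)]
                gcongr
              · exact hd.trans (by gcongr)
            _ = 1001 / 2 * N * (B - A) := by ring
        rw [e] at hlt
        have h6 := abs_lt.mp hlt
        have h7 := abs_le.mp h5
        exact ⟨by linarith, by linarith, k1⟩
      have hL0 : 0 ≤ 1001 * N * (B - A) + 2 * ψ := by positivity
      refine (gcdSum_mult_interval hd1 hL0 S hmem).trans ?_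
      rw [div_add_one hd0.ne']
      gcongr
      nlinarith
    have hRcard : (R.card : ℝ) ≤ 500 * N / d := by
      apply gcdSum_mult_pos hd1 (by positivity)
      intro x hx
      rw [hR, Finset.mem_filter, Finset.mem_Icc] at hx
      exact ⟨by omega, by exact_mod_cast hx.1.2, hx.2⟩
    have hPicard : (Pi.card : ℝ) ≤ 2 * Q / d := by
      have hsub : Pi ⊆ Fintype.piFinset (fun j => if j = j₀ then
          (Finset.Ico ((β : ℤ) ^ (l j)) (2 * (β : ℤ) ^ (l j))).filter (fun x => (d : ℤ) ∣ x) else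
          Finset.Ico ((β : ℤ) ^ (l j)) (2 * (β : ℤ) ^ (l j))) := by
        intro a ha
        rw [hPi, Finset.mem_filter, Fintype.mem_piFinset] at ha
        rw [Fintype.mem_piFinset]
        intro j
        split_ifs with h
        · subst h
          rw [Finset.mem_filter]
          exact ⟨ha.1 j, ha.2⟩
        · exact ha.1 j
      have h1 : (Pi.card : ℝ) ≤ ∏ j, ((if j = j₀ then
          (Finset.Ico ((β : ℤ) ^ (l j)) (2 * (β : ℤ) ^ (l j))).filter (fun x => (d : ℤ) ∣ x) else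
          Finset.Ico ((β : ℤ) ^ (l j)) (2 * (β : ℤ) ^ (l j))).card : ℝ) := by
        have := Finset.card_le_card hsub
        rw [Fintype.card_piFinset] at this
        exact_mod_cast this
      refine h1.trans ?_
      have h2 : ∀ j ∈ (Finset.univ : Finset (Fin m)), ((if j = j₀ then
          (Finset.Ico ((β : ℤ) ^ (l j)) (2 * (β : ℤ) ^ (l j))).filter (fun x => (d : ℤ) ∣ x) else
          Finset.Ico ((β : ℤ) ^ (l j)) (2 * (β : ℤ) ^ (l j))).card : ℝ)
          ≤ (β : ℝ) ^ (l j) * (if j = j₀ then 2 / (d : ℝ) else 1) := by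
        intro j _
        split_ifs with h
        · refine (gcdSum_mult_pos hd1 (X := 2 * (β : ℝ) ^ (l j)) (by positivity) _ ?_).trans
            (le_of_eq (by ring))
          intro x hx
          rw [Finset.mem_filter, Finset.mem_Ico] at hx
          have h3 : (1 : ℤ) ≤ (β : ℤ) ^ (l j) := by
            exact_mod_cast Nat.one_le_pow _ _ (by omega)
          refine ⟨by omega, by exact_mod_cast hx.1.2.le, hx.2⟩
        · rw [Int.card_Ico, mul_one]
          have h3 : (2 * (β : ℤ) ^ (l j) - (β : ℤ) ^ (l j)).toNat = β ^ (l j) := by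
            have : 2 * (β : ℤ) ^ (l j) - (β : ℤ) ^ (l j) = ((β ^ (l j) : ℕ) : ℤ) := by
              push_cast; ring
            rw [this, Int.toNat_natCast]
          rw [h3]
          push_cast
          exact le_rfl
      refine (Finset.prod_le_prod (fun j _ => Nat.cast_nonneg _) h2).trans ?_
      rw [Finset.prod_mul_distrib, Finset.prod_ite_eq' Finset.univ j₀, if_pos (Finset.mem_univ _),
        Finset.prod_pow_eq_pow_sum, hQr]
      exact le_of_eq (by ring)
    have hFc : (F.card : ℝ) = ∑ y ∈ R ×ˢ Pi, ((F.filter (fun v => v.2 = y)).card : ℝ) := by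
      rw [Finset.card_eq_sum_card_fiberwise hmaps]
      push_cast
      rfl
    rw [hFc]
    refine (Finset.sum_le_card_nsmul _ _ _ hfib).trans ?_
    rw [Finset.card_product, nsmul_eq_mul]
    push_cast
    calc (R.card : ℝ) * (Pi.card : ℝ) * (1002 * N * (B - A) / d)
        ≤ (500 * N / d) * (2 * Q / d) * (1002 * N * (B - A) / d) := by gcongr
      _ = (500 * N) * (2 * Q) * (1002 * N * (B - A)) / (d : ℝ) ^ 3 := by
        field_simp
  -- the sum of the gcds
  have hsum : ∑ v ∈ (shape β N l Z).filter (fun v => (E v).Nonempty), (g v : ℝ)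
      ≤ (500 * N) * (2 * Q) * (1002 * N * (B - A)) * 2 := by
    have hmaps : ∀ v ∈ (shape β N l Z).filter (fun v => (E v).Nonempty), g v ∈ Finset.Icc 1 (2 * Q) :=
      fun v hv => hgrange v (Finset.mem_filter.mp hv).1
    rw [← Finset.sum_fiberwise_of_maps_to hmaps]
    have h1 : ∀ d ∈ Finset.Icc 1 (2 * Q),
        ∑ v ∈ ((shape β N l Z).filter (fun v => (E v).Nonempty)).filter (fun v => g v = d), (g v : ℝ)
        ≤ (500 * N) * (2 * Q) * (1002 * N * (B - A)) * ((1 : ℝ) / d ^ 2) := by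
      intro d hd
      rw [Finset.mem_Icc] at hd
      have hd0 : (0 : ℝ) < d := by exact_mod_cast hd.1
      have h2 : ∑ v ∈ ((shape β N l Z).filter (fun v => (E v).Nonempty)).filter (fun v => g v = d),
          (g v : ℝ) = ((((shape β N l Z).filter (fun v => (E v).Nonempty)).filter
            (fun v => g v = d)).card : ℝ) * d := by
        rw [Finset.sum_congr rfl (g := fun _ => (d : ℝ))
          (fun v hv => by rw [(Finset.mem_filter.mp hv).2]), Finset.sum_const, nsmul_eq_mul]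
      rw [h2]
      calc ((((shape β N l Z).filter (fun v => (E v).Nonempty)).filter
            (fun v => g v = d)).card : ℝ) * d
          ≤ (500 * N) * (2 * Q) * (1002 * N * (B - A)) / (d : ℝ) ^ 3 * d := by
            gcongr
            exact hcount d hd.1 hd.2
        _ = (500 * N) * (2 * Q) * (1002 * N * (B - A)) * ((1 : ℝ) / d ^ 2) := by
            field_simp
    refine (Finset.sum_le_sum h1).trans ?_
    rw [← Finset.mul_sum]
    have h3 : ∑ d ∈ Finset.Icc 1 (2 * Q), (1 : ℝ) / d ^ 2 ≤ 2 := by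
      have h4 : Finset.Icc 1 (2 * Q) = insert 1 (Finset.Icc 2 (2 * Q)) := by
        ext x
        simp only [Finset.mem_Icc, Finset.mem_insert]
        omega
      rw [h4, Finset.sum_insert (by simp)]
      have := count_sum_inv_sq (2 * Q)
      norm_num at this ⊢
      linarith
    gcongr
  -- conclusion
  calc ∑ v ∈ shape β N l Z, (g v : ℝ≥0∞) * volume (E v)
      = ∑ v ∈ (shape β N l Z).filter (fun v => (E v).Nonempty), (g v : ℝ≥0∞) * volume (E v) := by
        rw [Finset.sum_filter]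
        refine Finset.sum_congr rfl fun v _ => ?_
        split_ifs with h
        · rfl
        · rw [Set.not_nonempty_iff_eq_empty.mp h, measure_empty, mul_zero]
    _ ≤ ∑ v ∈ (shape β N l Z).filter (fun v => (E v).Nonempty),
        ENNReal.ofReal ((g v : ℝ) * (4 * ψ / N)) := by
        apply Finset.sum_le_sum
        intro v hv
        rw [ENNReal.ofReal_mul (Nat.cast_nonneg _), ENNReal.ofReal_natCast]
        gcongr
        exact hvol v (Finset.mem_filter.mp hv).1
    _ = ENNReal.ofReal (∑ v ∈ (shape β N l Z).filter (fun v => (E v).Nonempty),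
        (g v : ℝ) * (4 * ψ / N)) := by
        rw [ENNReal.ofReal_sum_of_nonneg]
        intro v _
        positivity
    _ ≤ ENNReal.ofReal (10 ^ 10 * (B - A) * (N * ψ * Q)) := by
        apply ENNReal.ofReal_le_ofReal
        rw [← Finset.sum_mul]
        have h0 : 0 ≤ 4 * ψ / N := by positivity
        calc (∑ v ∈ (shape β N l Z).filter (fun v => (E v).Nonempty), (g v : ℝ)) * (4 * ψ / N)
            ≤ ((500 * N) * (2 * Q) * (1002 * N * (B - A)) * 2) * (4 * ψ / N) := by gcongr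
          _ = 8016000 * ((B - A) * (N * ψ * Q)) := by
            field_simp
            ring
          _ ≤ 10 ^ 10 * ((B - A) * (N * ψ * Q)) := by
            gcongr
            norm_num
          _ = 10 ^ 10 * (B - A) * (N * ψ * Q) := by ring

end MKG
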