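import Pool.Agent.MKG.Defs

/-! # Basic facts on `e`, `dot`, `psi` -/

open MeasureTheory Set Filter
open scoped BigOperators ENNReal Topology

namespace MKG

theorem norm_e (x : ℝ) : ‖e x‖ = 1 := by
  unfold e; exact Complex.norm_exp_ofReal_mul_I _

theorem e_add (x y : ℝ) : e (x + y) = e x * e y := by
  unfold e
  rw [← Complex.exp_add]
  congr 1
  push_cast; ring

theorem e_zero : e 0 = 1 := by simp [e]

theorem e_int (n : ℤ) : e (n : ℝ) = 1 := by
  unfold e
  rw [Complex.exp_eq_one_iff]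
  exact ⟨n, by push_cast; ring⟩

theorem e_add_int (x : ℝ) (n : ℤ) : e (x + n) = e x := by
  rw [e_add, e_int, mul_one]

theorem e_neg (x : ℝ) : e (-x) = (starRingEnd ℂ) (e x) := by
  unfold e
  rw [← Complex.exp_conj]
  congr 1
  rw [map_mul, Complex.conj_ofReal, Complex.conj_I]
  push_cast; ring

theorem e_sub (x y : ℝ) : e (x - y) = e x * (starRingEnd ℂ) (e y) := by
  rw [sub_eq_add_neg, e_add, e_neg]

theorem e_mul_conj (x : ℝ) : e x * (starRingEnd ℂ) (e x) = 1 := by
  rw [← e_sub, sub_self, e_zero]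

theorem continuous_e : Continuous e := by
  unfold e
  fun_prop

theorem measurable_e : Measurable e := continuous_e.measurable

theorem norm_e_sub_e_le (x y : ℝ) : ‖e x - e y‖ ≤ 2 * Real.pi * |x - y| := by
  have h : e x - e y = e y * (e (x - y) - 1) := by
    rw [mul_sub, mul_one, ← e_add]; congr 2; ring
  rw [h, norm_mul, norm_e, one_mul]
  unfold e
  have := Real.norm_exp_I_mul_ofReal_sub_one_le (x := 2 * Real.pi * (x - y))
  rw [mul_comm Complex.I] at this
  refine this.trans ?_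
  rw [Real.norm_eq_abs, abs_mul, abs_of_pos (by positivity : (0 : ℝ) < 2 * Real.pi)]

section dot
variable {m : ℕ}

theorem dot_add_left (a b : Fin m → ℤ) (y : Fin m → ℝ) : dot (a + b) y = dot a y + dot b y := by
  simp [dot, add_mul, Finset.sum_add_distrib]

theorem dot_sub_left (a b : Fin m → ℤ) (y : Fin m → ℝ) : dot (a - b) y = dot a y - dot b y := by
  simp [dot, sub_mul, Finset.sum_sub_distrib]

theorem dot_smul_left (k : ℤ) (a : Fin m → ℤ) (y : Fin m → ℝ) : dot (k • a) y = k * dot a y := by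
  simp [dot, Finset.mul_sum, mul_assoc]

theorem dot_zero_left (y : Fin m → ℝ) : dot (0 : Fin m → ℤ) y = 0 := by simp [dot]

theorem dot_neg_left (a : Fin m → ℤ) (y : Fin m → ℝ) : dot (-a) y = - dot a y := by
  simp [dot, Finset.sum_neg_distrib]

theorem dot_add_right (a : Fin m → ℤ) (y z : Fin m → ℝ) : dot a (y + z) = dot a y + dot a z := by
  simp [dot, mul_add, Finset.sum_add_distrib]

theorem dot_sub_right (a : Fin m → ℤ) (y z : Fin m → ℝ) : dot a (y - z) = dot a y - dot a z := by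
  simp [dot, mul_sub, Finset.sum_sub_distrib]

theorem dot_smul_right (a : Fin m → ℤ) (k : ℝ) (y : Fin m → ℝ) : dot a (k • y) = k * dot a y := by
  simp only [dot, Finset.mul_sum, Pi.smul_apply, smul_eq_mul]
  exact Finset.sum_congr rfl fun j _ => by ring

theorem dot_add_fun (a : Fin m → ℤ) (y z : Fin m → ℝ) :
    dot a (fun j => y j + z j) = dot a y + dot a z := dot_add_right a y z

theorem dot_mul_fun (a : Fin m → ℤ) (k : ℝ) (y : Fin m → ℝ) :
    dot a (fun j => k * y j) = k * dot a y := dot_smul_right a k y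

/-- `|a·y| ≤ m P Y` if `|a_j| ≤ P` and `|y_j| ≤ Y`. -/
theorem abs_dot_le (a : Fin m → ℤ) (y : Fin m → ℝ) {P Y : ℝ} (hP : ∀ j, |(a j : ℝ)| ≤ P)
    (hY : ∀ j, |y j| ≤ Y) : |dot a y| ≤ m * P * Y := by
  unfold dot
  calc |∑ j, (a j : ℝ) * y j| ≤ ∑ j, |(a j : ℝ) * y j| := Finset.abs_sum_le_sum_abs _ _
    _ ≤ ∑ _j : Fin m, P * Y := by
        refine Finset.sum_le_sum fun j _ => ?_
        rw [abs_mul]
        exact mul_le_mul (hP j) (hY j) (abs_nonneg _) ((abs_nonneg _).trans (hP j))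
    _ = m * P * Y := by simp [mul_assoc]

theorem measurable_dot {α : Type*} [MeasurableSpace α] (a : Fin m → ℤ) (f : α → Fin m → ℝ)
    (hf : ∀ j, Measurable (fun x => f x j)) : Measurable (fun x => dot a (f x)) := by
  unfold dot
  exact Finset.measurable_sum _ fun j _ => (hf j).const_mul _

end dot

theorem dot_psi {m : ℕ} (a : Fin m → ℤ) (G : ℝ → Fin m → ℝ) (ρ : ℤ × ℤ) :
    dot a (psi G ρ) = (ρ.1 : ℝ) * dot a (G ((ρ.2 : ℝ) / ρ.1)) := by
  unfold psi
  exact dot_mul_fun a _ _

theorem measurable_psi {m : ℕ} {Ω : Type*} [MeasurableSpace Ω] {ν : Measure Ω}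
    (D : Family m Ω ν) (ρ : ℤ × ℤ) (j : Fin m) :
    Measurable (fun ω => psi (fun t => D.F t ω) ρ j) := by
  unfold psi
  exact ((D.meas j).comp (measurable_const.prodMk measurable_id)).const_mul _

theorem measurable_dot_psi {m : ℕ} {Ω : Type*} [MeasurableSpace Ω] {ν : Measure Ω}
    (D : Family m Ω ν) (a : Fin m → ℤ) (ρ : ℤ × ℤ) :
    Measurable (fun ω => dot a (psi (fun t => D.F t ω) ρ)) :=
  measurable_dot a _ (fun j => measurable_psi D ρ j)

end MKG
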