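import Pool.Agent.MKG.Defs
import Pool.Agent.MKG.Exp
import Pool.Agent.MKG.Spacing

/-! # Module RegimeI -/

open MeasureTheory Set Filter
open scoped BigOperators ENNReal Topology

namespace MKG

theorem RegimeI_mem_shape {m : ℕ} {β N : ℕ} {l : Fin m → ℕ} {Z : ℕ}
    {v : ℤ × ℤ × (Fin m → ℤ)} (hv : v ∈ shape β N l Z) :
    (-(Z : ℤ) ≤ v.1 ∧ v.1 ≤ Z) ∧ ((N : ℤ) ≤ v.2.1 ∧ v.2.1 ≤ 500 * (N : ℤ)) ∧
      ∀ j, (β : ℤ) ^ (l j) ≤ v.2.2 j ∧ v.2.2 j < 2 * (β : ℤ) ^ (l j) := by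
  unfold shape at hv
  rw [Finset.mem_product, Finset.mem_product, Finset.mem_Icc, Finset.mem_Icc,
    Fintype.mem_piFinset] at hv
  refine ⟨hv.1, hv.2.1, fun j => ?_⟩
  exact Finset.mem_Ico.1 (hv.2.2 j)

theorem RegimeI_pow_le {m : ℕ} {β : ℕ} (hβ : 1 ≤ β) (l : Fin m → ℕ) (j : Fin m) :
    (β : ℝ) ^ (l j) ≤ (β : ℝ) ^ (∑ j, l j) := by
  have h1 : (1 : ℝ) ≤ β := by exact_mod_cast hβ
  exact pow_le_pow_right₀ h1 (Finset.single_le_sum (fun _ _ => Nat.zero_le _) (Finset.mem_univ j))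

theorem RegimeI_abs_a {m : ℕ} {β N : ℕ} (hβ : 1 ≤ β) {l : Fin m → ℕ} {Z : ℕ}
    {v : ℤ × ℤ × (Fin m → ℤ)} (hv : v ∈ shape β N l Z) (j : Fin m) :
    |(v.2.2 j : ℝ)| ≤ 2 * (β : ℝ) ^ (∑ j, l j) := by
  obtain ⟨-, -, h⟩ := RegimeI_mem_shape hv
  obtain ⟨h1, h2⟩ := h j
  have h0 : (0 : ℤ) ≤ (β : ℤ) ^ (l j) := by positivity
  have h3 : (v.2.2 j : ℝ) ≤ 2 * (β : ℝ) ^ (l j) := by exact_mod_cast h2.le
  have h4 : (0 : ℝ) ≤ (v.2.2 j : ℝ) := by exact_mod_cast h0.trans h1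
  rw [abs_of_nonneg h4]
  exact h3.trans (by linarith [RegimeI_pow_le hβ l j])

/-- Lipschitz bound for `a · G`. -/
theorem RegimeI_lip {m : ℕ} {A B M : ℝ} {G G' : ℝ → Fin m → ℝ} (hG : IsCurve A B M G G')
    (hM : 1 ≤ M) {β N : ℕ} (hβ : 1 ≤ β) {l : Fin m → ℕ}
    (hsm : 4 * (m : ℝ) * M * (1 + (B - A)) * (β : ℝ) ^ (∑ j, l j) ≤ N)
    {Z : ℕ} {v : ℤ × ℤ × (Fin m → ℤ)} (hv : v ∈ shape β N l Z)
    {t u : ℝ} (ht : t ∈ Icc A B) (hu : u ∈ Icc A B) :
    |dot v.2.2 (G u) - dot v.2.2 (G t)| ≤ N / 2 * |u - t| := by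
  have hut : |u - t| ≤ B - A := by
    rw [abs_le]; constructor <;> linarith [ht.1, ht.2, hu.1, hu.2]
  have h1 : ∀ j, |G u j - G t j| ≤ M * (1 + (B - A)) * |u - t| := by
    intro j
    have h2 := hG.qr t ht u hu j
    have h3 := hG.bd' t ht j
    have h4 : G u j - G t j = (G u j - G t j - (u - t) * G' t j) + (u - t) * G' t j := by ring
    rw [h4]
    refine (abs_add_le _ _).trans ?_
    rw [abs_mul (u - t)]
    have h5 : |u - t| * |G' t j| ≤ |u - t| * M := mul_le_mul_of_nonneg_left h3 (abs_nonneg _)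
    have h6 : M * (u - t) ^ 2 ≤ M * ((B - A) * |u - t|) := by
      rw [← sq_abs, sq]
      have : |u - t| * |u - t| ≤ (B - A) * |u - t| := mul_le_mul_of_nonneg_right hut (abs_nonneg _)
      exact mul_le_mul_of_nonneg_left this (by linarith)
    calc |G u j - G t j - (u - t) * G' t j| + |u - t| * |G' t j|
        ≤ M * ((B - A) * |u - t|) + |u - t| * M := add_le_add (h2.trans h6) h5
      _ = M * (1 + (B - A)) * |u - t| := by ring
  rw [← dot_sub_right]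
  have h2 := abs_dot_le v.2.2 (G u - G t) (P := 2 * (β : ℝ) ^ (∑ j, l j))
    (Y := M * (1 + (B - A)) * |u - t|) (fun j => RegimeI_abs_a hβ hv j) (fun j => h1 j)
  refine h2.trans ?_
  calc (m : ℝ) * (2 * (β : ℝ) ^ (∑ j, l j)) * (M * (1 + (B - A)) * |u - t|)
      = (4 * (m : ℝ) * M * (1 + (B - A)) * (β : ℝ) ^ (∑ j, l j)) / 2 * |u - t| := by ring
    _ ≤ N / 2 * |u - t| := by gcongr

theorem RegimeI_lin_diff {m : ℕ} (G : ℝ → Fin m → ℝ) (v : ℤ × ℤ × (Fin m → ℤ)) (t u : ℝ) :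
    lin G v u - lin G v t = (v.2.1 : ℝ) * (u - t) + (dot v.2.2 (G u) - dot v.2.2 (G t)) := by
  unfold lin; ring

theorem RegimeI_lin_lower {m : ℕ} {A B M : ℝ} {G G' : ℝ → Fin m → ℝ} (hG : IsCurve A B M G G')
    (hM : 1 ≤ M) {β N : ℕ} (hβ : 1 ≤ β) {l : Fin m → ℕ}
    (hsm : 4 * (m : ℝ) * M * (1 + (B - A)) * (β : ℝ) ^ (∑ j, l j) ≤ N)
    {Z : ℕ} {v : ℤ × ℤ × (Fin m → ℤ)} (hv : v ∈ shape β N l Z)
    {t u : ℝ} (ht : t ∈ Icc A B) (hu : u ∈ Icc A B) :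
    N / 2 * |u - t| ≤ |lin G v u - lin G v t| := by
  have h1 := RegimeI_lip hG hM hβ hsm hv ht hu
  obtain ⟨-, ⟨h2, -⟩, -⟩ := RegimeI_mem_shape hv
  have h3 : (N : ℝ) ≤ v.2.1 := by exact_mod_cast h2
  rw [RegimeI_lin_diff]
  have h4 : |(v.2.1 : ℝ) * (u - t)| - |dot v.2.2 (G u) - dot v.2.2 (G t)|
      ≤ |(v.2.1 : ℝ) * (u - t) + (dot v.2.2 (G u) - dot v.2.2 (G t))| := by
    have := abs_sub_abs_le_abs_sub ((v.2.1 : ℝ) * (u - t)) (-(dot v.2.2 (G u) - dot v.2.2 (G t)))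
    rw [abs_neg, sub_neg_eq_add] at this
    exact this
  have h5 : (N : ℝ) * |u - t| ≤ |(v.2.1 : ℝ) * (u - t)| := by
    rw [abs_mul]
    refine mul_le_mul_of_nonneg_right (h3.trans (le_abs_self _)) (abs_nonneg _)
  linarith

theorem RegimeI_lin_upper {m : ℕ} {A B M : ℝ} {G G' : ℝ → Fin m → ℝ} (hG : IsCurve A B M G G')
    (hM : 1 ≤ M) {β N : ℕ} (hβ : 1 ≤ β) {l : Fin m → ℕ}
    (hsm : 4 * (m : ℝ) * M * (1 + (B - A)) * (β : ℝ) ^ (∑ j, l j) ≤ N)
    {Z : ℕ} {v : ℤ × ℤ × (Fin m → ℤ)} (hv : v ∈ shape β N l Z)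
    {t u : ℝ} (ht : t ∈ Icc A B) (hu : u ∈ Icc A B) :
    |lin G v u - lin G v t| ≤ 1001 / 2 * N * |u - t| := by
  have h1 := RegimeI_lip hG hM hβ hsm hv ht hu
  obtain ⟨-, ⟨h2, h3⟩, -⟩ := RegimeI_mem_shape hv
  have h4 : |(v.2.1 : ℝ)| ≤ 500 * N := by
    have h5 : (N : ℝ) ≤ v.2.1 := by exact_mod_cast h2
    have h6 : (0 : ℝ) ≤ N := Nat.cast_nonneg N
    rw [abs_of_nonneg (h6.trans h5)]
    exact_mod_cast h3
  rw [RegimeI_lin_diff]
  refine (abs_add_le _ _).trans ?_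
  rw [abs_mul]
  have := mul_le_mul_of_nonneg_right h4 (abs_nonneg (u - t))
  linarith

/-- A subset of `[A, B]` on which `|lin G v| < ψ` has diameter at most `4ψ/N`. -/
theorem RegimeI_dist {m : ℕ} {A B M : ℝ} {G G' : ℝ → Fin m → ℝ} (hG : IsCurve A B M G G')
    (hM : 1 ≤ M) {β N : ℕ} (hβ : 1 ≤ β) (hN : 1 ≤ N) {l : Fin m → ℕ}
    (hsm : 4 * (m : ℝ) * M * (1 + (B - A)) * (β : ℝ) ^ (∑ j, l j) ≤ N)
    {Z : ℕ} {v : ℤ × ℤ × (Fin m → ℤ)} (hv : v ∈ shape β N l Z) {ψ : ℝ}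
    {t u : ℝ} (ht : t ∈ Icc A B) (hu : u ∈ Icc A B)
    (htψ : |lin G v t| < ψ) (huψ : |lin G v u| < ψ) : |u - t| ≤ 4 * ψ / N := by
  have h1 := RegimeI_lin_lower hG hM hβ hsm hv ht hu
  have hN0 : (0 : ℝ) < N := by exact_mod_cast hN
  have h2 : |lin G v u - lin G v t| ≤ |lin G v u| + |lin G v t| := abs_sub _ _
  rw [le_div_iff₀ hN0]
  nlinarith

theorem RegimeI_volume {m : ℕ} {A B M : ℝ} {G G' : ℝ → Fin m → ℝ} (hG : IsCurve A B M G G')
    (hM : 1 ≤ M) {β N : ℕ} (hβ : 1 ≤ β) (hN : 1 ≤ N) {l : Fin m → ℕ}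
    (hsm : 4 * (m : ℝ) * M * (1 + (B - A)) * (β : ℝ) ^ (∑ j, l j) ≤ N)
    {Z : ℕ} {v : ℤ × ℤ × (Fin m → ℤ)} (hv : v ∈ shape β N l Z) {ψ : ℝ}
    (T : Set ℝ) (hT : T ⊆ Icc A B) (hTψ : ∀ t ∈ T, |lin G v t| < ψ) :
    volume T ≤ ENNReal.ofReal (4 * ψ / N) := by
  refine (Real.volume_le_diam T).trans ?_
  refine Metric.ediam_le fun t ht u hu => ?_
  rw [edist_dist, Real.dist_eq]
  apply ENNReal.ofReal_le_ofReal
  exact RegimeI_dist hG hM hβ hN hsm hv (hT hu) (hT ht) (hTψ u hu) (hTψ t ht)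

theorem RegimeI_card_pi {m : ℕ} (β : ℕ) (l : Fin m → ℕ) :
    (Fintype.piFinset (fun j => Finset.Ico ((β : ℤ) ^ (l j)) (2 * (β : ℤ) ^ (l j)))).card
      = β ^ (∑ j, l j) := by
  rw [Fintype.card_piFinset, ← Finset.prod_pow_eq_pow_sum]
  refine Finset.prod_congr rfl fun j _ => ?_
  rw [Int.card_Ico]
  have : (2 * (β : ℤ) ^ (l j) - (β : ℤ) ^ (l j)) = ((β ^ (l j) : ℕ) : ℤ) := by push_cast; ring
  rw [this, Int.toNat_natCast]

theorem RegimeI_card_near {m : ℕ} {β N : ℕ} (hN : 1 ≤ N) (l : Fin m → ℕ) (Z : ℕ)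
    (G : ℝ → Fin m → ℝ) (t₀ τ : ℝ) (hτ : 0 ≤ τ)
    (ht : ∀ q b : ℤ, 1 ≤ q → q < 2 * N → 1 / (27 * (N : ℝ)) ≤ |q * t₀ - b|) :
    (((shape β N l Z).filter (fun v => |lin G v t₀| ≤ τ)).card : ℝ)
      ≤ (β : ℝ) ^ (∑ j, l j) * (500 * (54 * N * τ + 1)) := by
  rw [Finset.card_eq_sum_card_fiberwise (f := fun v : ℤ × ℤ × (Fin m → ℤ) => v.2.2)
    (t := Fintype.piFinset (fun j => Finset.Ico ((β : ℤ) ^ (l j)) (2 * (β : ℤ) ^ (l j))))]
  · push_cast
    have hone : ∀ a ∈ Fintype.piFinset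
        (fun j => Finset.Ico ((β : ℤ) ^ (l j)) (2 * (β : ℤ) ^ (l j))),
        ((((shape β N l Z).filter (fun v => |lin G v t₀| ≤ τ)).filter
          (fun v : ℤ × ℤ × (Fin m → ℤ) => v.2.2 = a)).card : ℝ) ≤ 500 * (54 * N * τ + 1) := by
      intro a _
      refine le_trans ?_ (count_spaced hN t₀ (dot a (G t₀)) τ hτ ht Z)
      norm_cast
      refine Finset.card_le_card_of_injOn (fun v => (v.1, v.2.1)) ?_ ?_
      · intro v hv
        simp only [Finset.coe_filter, mem_ofPred_eq, Finset.mem_filter] at hv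
        obtain ⟨⟨h1, h2⟩, h3⟩ := hv
        obtain ⟨h4, h5, -⟩ := RegimeI_mem_shape h1
        simp only [Finset.coe_filter, mem_ofPred_eq, Finset.mem_product, Finset.mem_Icc]
        refine ⟨⟨h4, h5⟩, ?_⟩
        rw [← h3]
        exact h2
      · intro v hv w hw hvw
        simp only [Finset.coe_filter, mem_ofPred_eq, Finset.mem_filter] at hv hw
        simp only [Prod.mk.injEq] at hvw
        exact Prod.ext hvw.1 (Prod.ext hvw.2 (hv.2.trans hw.2.symm))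
    refine (Finset.sum_le_sum hone).trans ?_
    rw [Finset.sum_const, RegimeI_card_pi, nsmul_eq_mul]
    push_cast
    exact le_refl _
  · intro v hv
    simp only [Finset.coe_filter, mem_ofPred_eq] at hv
    have h := hv.1
    unfold shape at h
    rw [Finset.mem_product, Finset.mem_product] at h
    exact h.2.2


open Classical in
/-- number of `v` in the shape whose zero strip meets `[A, B]`. -/
theorem RegimeI_card_meet {m : ℕ} {A B M : ℝ} {G G' : ℝ → Fin m → ℝ} (hG : IsCurve A B M G G')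
    (hM : 1 ≤ M) {β N : ℕ} (hβ : 1 ≤ β) (hN : 1 ≤ N) (l : Fin m → ℕ) (Z : ℕ)
    (hsm : 4 * (m : ℝ) * M * (1 + (B - A)) * (β : ℝ) ^ (∑ j, l j) ≤ N)
    {ψ : ℝ} (hψ : ψ ≤ 1) (h4 : 4 ≤ N * (B - A)) :
    (((shape β N l Z).filter (fun v => ∃ t ∈ Icc A B, |lin G v t| < ψ)).card : ℝ)
      ≤ (β : ℝ) ^ (∑ j, l j) * (500 * N) * (1003 * (N * (B - A))) := by
  set F := (shape β N l Z).filter (fun v => ∃ t ∈ Icc A B, |lin G v t| < ψ) with hF
  have hN0 : (1 : ℝ) ≤ N := by exact_mod_cast hN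
  rw [Finset.card_eq_sum_card_fiberwise (f := fun v : ℤ × ℤ × (Fin m → ℤ) => v.2)
    (t := Finset.Icc (N : ℤ) (500 * (N : ℤ)) ×ˢ
      Fintype.piFinset (fun j => Finset.Ico ((β : ℤ) ^ (l j)) (2 * (β : ℤ) ^ (l j))))]
  · push_cast
    have hone : ∀ x ∈ Finset.Icc (N : ℤ) (500 * (N : ℤ)) ×ˢ
        Fintype.piFinset (fun j => Finset.Ico ((β : ℤ) ^ (l j)) (2 * (β : ℤ) ^ (l j))),
        ((F.filter (fun v : ℤ × ℤ × (Fin m → ℤ) => v.2 = x)).card : ℝ)
          ≤ 1003 * (N * (B - A)) := by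
      intro x _
      rcases (F.filter (fun v : ℤ × ℤ × (Fin m → ℤ) => v.2 = x)).eq_empty_or_nonempty with he | he
      · rw [he]
        simp only [Finset.card_empty, Nat.cast_zero]
        linarith
      · obtain ⟨w₀, hw₀⟩ := he
        have hkey : ∀ v ∈ F.filter (fun v : ℤ × ℤ × (Fin m → ℤ) => v.2 = x),
            |(v.1 : ℝ) - w₀.1| ≤ 2 + 1001 / 2 * (N * (B - A)) := by
          intro v hv
          rw [Finset.mem_filter, hF, Finset.mem_filter] at hv hw₀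
          obtain ⟨⟨hvs, t, ht, htv⟩, hvx⟩ := hv
          obtain ⟨⟨hws, u, hu, huw⟩, hwx⟩ := hw₀
          have e1 : (v.1 : ℝ) - w₀.1
              = lin G v t + (-(lin G w₀ u)) + (-(lin G w₀ t - lin G w₀ u)) := by
            have : v.2 = w₀.2 := hvx.trans hwx.symm
            unfold lin
            rw [this]
            ring
          have h5 := RegimeI_lin_upper hG hM hβ hsm hws hu ht
          have h6 : |t - u| ≤ B - A := by
            rw [abs_le]; constructor <;> linarith [ht.1, ht.2, hu.1, hu.2]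
          have h7 : 1001 / 2 * (N : ℝ) * |t - u| ≤ 1001 / 2 * N * (B - A) := by gcongr
          rw [e1]
          have a1 := abs_add_le (lin G v t + (-(lin G w₀ u))) (-(lin G w₀ t - lin G w₀ u))
          have a2 := abs_add_le (lin G v t) (-(lin G w₀ u))
          rw [abs_neg] at a1 a2
          linarith
        have h8 := Spacing_card_sep (F.filter (fun v : ℤ × ℤ × (Fin m → ℤ) => v.2 = x))
          (fun v => (v.1 : ℝ) - w₀.1) 1 (2 + 1001 / 2 * (N * (B - A))) one_pos hkey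
          (by linarith) (by
            intro v hv w hw hne
            rw [Finset.mem_filter] at hv hw
            have h9 : v.1 ≠ w.1 := fun h => hne (Prod.ext h (hv.2.trans hw.2.symm))
            have h10 : (v.1 : ℝ) - w₀.1 - ((w.1 : ℝ) - w₀.1) = ((v.1 - w.1 : ℤ) : ℝ) := by
              push_cast; ring
            rw [h10]
            exact_mod_cast Int.one_le_abs (sub_ne_zero.2 h9))
        refine h8.trans ?_
        rw [div_one]
        linarith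
    refine (Finset.sum_le_sum hone).trans ?_
    rw [Finset.sum_const, Finset.card_product, RegimeI_card_pi, nsmul_eq_mul, Int.card_Icc]
    have h11 : (500 * (N : ℤ) + 1 - N).toNat ≤ 500 * N := by omega
    have h12 : (((500 * (N : ℤ) + 1 - N).toNat : ℕ) : ℝ) ≤ 500 * N := by exact_mod_cast h11
    push_cast
    have h13 : (0 : ℝ) ≤ 1003 * (N * (B - A)) := by linarith
    have h14 : (0 : ℝ) ≤ (β : ℝ) ^ (∑ j, l j) := by positivity
    calc (((500 * (N : ℤ) + 1 - N).toNat : ℕ) : ℝ) * (β : ℝ) ^ (∑ j, l j) * (1003 * (N * (B - A)))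
        ≤ (500 * N) * (β : ℝ) ^ (∑ j, l j) * (1003 * (N * (B - A))) := by gcongr
      _ = _ := by ring
  · intro v hv
    have h : v ∈ shape β N l Z := (Finset.mem_filter.1 (Finset.mem_coe.1 hv)).1
    unfold shape at h
    rw [Finset.mem_product] at h
    exact h.2

open Classical in
theorem RegimeI_inner {m : ℕ} {A B M : ℝ} {G G' : ℝ → Fin m → ℝ} (hG : IsCurve A B M G G')
    (hM : 1 ≤ M) {β N N' : ℕ} (hβ : 1 ≤ β) (hN : 1 ≤ N) (hN' : 1 ≤ N') (l : Fin m → ℕ) (Z : ℕ)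
    (hsm : 4 * (m : ℝ) * M * (1 + (B - A)) * (β : ℝ) ^ (∑ j, l j) ≤ N)
    {ψ ψ' : ℝ} (hψ0 : 0 < ψ) (hψ'0 : 0 < ψ') (hψ : ψ * N ≤ 1)
    (hreg : (N' : ℝ) ≤ N ^ 2 * ψ')
    (T : Set ℝ) (hT : T ⊆ Icc A B) (hsp : Spaced N T) (x₀ : ℝ)
    (hD : ∀ t ∈ T, |t - x₀| ≤ 4 * ψ' / N') :
    ∑ v ∈ shape β N l Z, volume {t | t ∈ T ∧ |lin G v t| < ψ}
      ≤ ENNReal.ofReal (36 * 13554500 * (β : ℝ) ^ (∑ j, l j) * (N * ψ * ψ' / N')) := by
  have hN0 : (0 : ℝ) < N := by exact_mod_cast hN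
  have hN'0 : (0 : ℝ) < N' := by exact_mod_cast hN'
  set D := 4 * ψ' / N' with hDdef
  have hD0 : 0 < D := by positivity
  set K : ℕ := ⌊2 * D * (N : ℝ) ^ 2⌋₊ + 1 with hK
  set I : ℕ → Set ℝ := fun k => {t | ⌊(t - x₀ + D) * (N : ℝ) ^ 2⌋₊ = k} with hI
  have hψN : ψ ≤ 1 / N := by rw [le_div_iff₀ hN0]; exact hψ
  -- each piece
  have hpiece : ∀ k, ∑ v ∈ shape β N l Z, volume {t | (t ∈ T ∧ |lin G v t| < ψ) ∧ t ∈ I k}
      ≤ ENNReal.ofReal ((β : ℝ) ^ (∑ j, l j) * 13554500 * (4 * ψ / N)) := by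
    intro k
    by_cases hne : ∃ t₀ ∈ T, t₀ ∈ I k
    · obtain ⟨t₀, ht₀, ht₀k⟩ := hne
      have hcard := RegimeI_card_near (β := β) hN l Z G t₀ (502 / N) (by positivity) (hsp t₀ ht₀)
      have h1 : ∀ v ∈ shape β N l Z, volume {t | (t ∈ T ∧ |lin G v t| < ψ) ∧ t ∈ I k}
          ≤ if |lin G v t₀| ≤ 502 / N then ENNReal.ofReal (4 * ψ / N) else 0 := by
        intro v hv
        split_ifs with hc
        · exact RegimeI_volume hG hM hβ hN hsm hv _ (fun t ht => hT ht.1.1) (fun t ht => ht.1.2)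
        · have hempty : {t | (t ∈ T ∧ |lin G v t| < ψ) ∧ t ∈ I k} = ∅ := by
            ext t
            simp only [mem_ofPred_eq, mem_empty_iff_false, iff_false]
            rintro ⟨⟨htT, htψ⟩, htk⟩
            apply hc
            have h2 : |t₀ - t| ≤ 1 / (N : ℝ) ^ 2 := by
              simp only [hI, mem_ofPred_eq] at htk ht₀k
              have c1 : 0 ≤ (t - x₀ + D) * (N : ℝ) ^ 2 := by
                have := (abs_le.1 (hD t htT)).1
                have : 0 ≤ t - x₀ + D := by linarith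
                positivity
              have c2 : 0 ≤ (t₀ - x₀ + D) * (N : ℝ) ^ 2 := by
                have := (abs_le.1 (hD t₀ ht₀)).1
                have : 0 ≤ t₀ - x₀ + D := by linarith
                positivity
              have a1 := Nat.floor_le c1
              have a2 := Nat.lt_floor_add_one ((t - x₀ + D) * (N : ℝ) ^ 2)
              have a3 := Nat.floor_le c2
              have a4 := Nat.lt_floor_add_one ((t₀ - x₀ + D) * (N : ℝ) ^ 2)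
              rw [htk] at a1 a2
              rw [ht₀k] at a3 a4
              rw [le_div_iff₀ (by positivity), ← abs_of_pos (by positivity : (0 : ℝ) < (N : ℝ) ^ 2),
                ← abs_mul, abs_le]
              constructor <;> nlinarith
            have h3 := RegimeI_lin_upper hG hM hβ hsm hv (hT htT) (hT ht₀)
            have h4 : |lin G v t₀| ≤ |lin G v t₀ - lin G v t| + |lin G v t| := by
              have := abs_add_le (lin G v t₀ - lin G v t) (lin G v t)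
              rwa [sub_add_cancel] at this
            have h5 : 1001 / 2 * (N : ℝ) * |t₀ - t| ≤ 1001 / 2 * N * (1 / (N : ℝ) ^ 2) := by gcongr
            have h6 : 1001 / 2 * (N : ℝ) * (1 / (N : ℝ) ^ 2) = 1001 / 2 * (1 / N) := by field_simp
            have h7 : 502 / (N : ℝ) = 502 * (1 / N) := by ring
            rw [h7]
            have h8 : 0 < 1 / (N : ℝ) := by positivity
            linarith
          rw [hempty, measure_empty]
      refine (Finset.sum_le_sum h1).trans ?_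
      rw [← Finset.sum_filter, Finset.sum_const, nsmul_eq_mul, ← ENNReal.ofReal_natCast,
        ← ENNReal.ofReal_mul (by positivity)]
      apply ENNReal.ofReal_le_ofReal
      refine mul_le_mul_of_nonneg_right (hcard.trans (le_of_eq ?_)) (by positivity)
      field_simp
      norm_num
    · have h1 : ∀ v ∈ shape β N l Z, volume {t | (t ∈ T ∧ |lin G v t| < ψ) ∧ t ∈ I k} = 0 := by
        intro v _
        have hempty : {t | (t ∈ T ∧ |lin G v t| < ψ) ∧ t ∈ I k} = ∅ := by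
          ext t
          simp only [mem_ofPred_eq, mem_empty_iff_false, iff_false]
          rintro ⟨⟨htT, -⟩, htk⟩
          exact hne ⟨t, htT, htk⟩
        rw [hempty, measure_empty]
      rw [Finset.sum_eq_zero h1]
      exact zero_le
  have hcover : ∀ v ∈ shape β N l Z, volume {t | t ∈ T ∧ |lin G v t| < ψ}
      ≤ ∑ k ∈ Finset.range K, volume {t | (t ∈ T ∧ |lin G v t| < ψ) ∧ t ∈ I k} := by
    intro v _
    refine le_trans (measure_mono ?_) (measure_biUnion_finset_le (Finset.range K) _)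
    rintro t ⟨htT, htψ⟩
    rw [mem_iUnion₂]
    refine ⟨⌊(t - x₀ + D) * (N : ℝ) ^ 2⌋₊, ?_, ⟨htT, htψ⟩, rfl⟩
    rw [Finset.mem_range, hK]
    refine Nat.lt_succ_of_le (Nat.floor_le_floor ?_)
    have := (abs_le.1 (hD t htT)).2
    gcongr
    linarith
  calc ∑ v ∈ shape β N l Z, volume {t | t ∈ T ∧ |lin G v t| < ψ}
      ≤ ∑ v ∈ shape β N l Z, ∑ k ∈ Finset.range K,
          volume {t | (t ∈ T ∧ |lin G v t| < ψ) ∧ t ∈ I k} := Finset.sum_le_sum hcover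
    _ = ∑ k ∈ Finset.range K, ∑ v ∈ shape β N l Z,
          volume {t | (t ∈ T ∧ |lin G v t| < ψ) ∧ t ∈ I k} := Finset.sum_comm
    _ ≤ ∑ _k ∈ Finset.range K,
          ENNReal.ofReal ((β : ℝ) ^ (∑ j, l j) * 13554500 * (4 * ψ / N)) :=
        Finset.sum_le_sum fun k _ => hpiece k
    _ = ENNReal.ofReal (K * ((β : ℝ) ^ (∑ j, l j) * 13554500 * (4 * ψ / N))) := by
        rw [Finset.sum_const, Finset.card_range, nsmul_eq_mul, ← ENNReal.ofReal_natCast,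
          ← ENNReal.ofReal_mul (by positivity)]
    _ ≤ _ := by
        apply ENNReal.ofReal_le_ofReal
        have hKle : (K : ℝ) ≤ 9 * (N : ℝ) ^ 2 * ψ' / N' := by
          have h1 := Nat.floor_le (a := 2 * D * (N : ℝ) ^ 2) (by positivity)
          have h2 : (K : ℝ) = (⌊2 * D * (N : ℝ) ^ 2⌋₊ : ℝ) + 1 := by rw [hK]; push_cast; ring
          have h3 : (1 : ℝ) ≤ (N : ℝ) ^ 2 * ψ' / N' := by
            rw [le_div_iff₀ hN'0, one_mul]; exact hreg
          have h4 : 2 * D * (N : ℝ) ^ 2 = 8 * ((N : ℝ) ^ 2 * ψ' / N') := by rw [hDdef]; ring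
          rw [h2]
          have h5 : 9 * (N : ℝ) ^ 2 * ψ' / N' = 9 * ((N : ℝ) ^ 2 * ψ' / N') := by ring
          rw [h5]
          linarith
        calc (K : ℝ) * ((β : ℝ) ^ (∑ j, l j) * 13554500 * (4 * ψ / N))
            ≤ (9 * (N : ℝ) ^ 2 * ψ' / N') * ((β : ℝ) ^ (∑ j, l j) * 13554500 * (4 * ψ / N)) := by
              gcongr
          _ = _ := by
              field_simp
              ring

open Classical in
theorem regimeI {m : ℕ} {A B M : ℝ} {G G' : ℝ → Fin m → ℝ} (hG : IsCurve A B M G G')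
    (hAB : A < B) (hM : 1 ≤ M) {β : ℕ} (hβ : 1024 ≤ β) {N N' : ℕ} (hN' : 1 ≤ N') (hNN : N' ≤ N)
    (l l' : Fin m → ℕ) (Z Z' : ℕ) {ψ ψ' : ℝ} (hψ0 : 0 < ψ) (hψ'0 : 0 < ψ')
    (hψ : ψ * N ≤ 1) (hψ' : ψ' * N' ≤ 1) (hreg : (N' : ℝ) ≤ N ^ 2 * ψ')
    (hsm : 4 * (m : ℝ) * M * (1 + (B - A)) * (β : ℝ) ^ (∑ j, l j) ≤ N)
    (hsm' : 4 * (m : ℝ) * M * (1 + (B - A)) * (β : ℝ) ^ (∑ j, l' j) ≤ N')
    (hsm'' : 4 * (m : ℝ) * M * (β : ℝ) ^ (∑ j, l' j) + 4 ≤ N' * (B - A))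
    (S : Set ℝ) (hS : MeasurableSet S) (hSA : S ⊆ Icc A B) (hsp : Spaced N S) :
    ∑ v ∈ shape β N l Z, ∑ v' ∈ shape β N' l' Z',
      volume {t | t ∈ S ∧ |lin G v t| < ψ ∧ |lin G v' t| < ψ'}
      ≤ ENNReal.ofReal (10 ^ 15 * (B - A) * (N * ψ * (β : ℝ) ^ (∑ j, l j))
          * (N' * ψ' * (β : ℝ) ^ (∑ j, l' j))) := by
  have hβ1 : 1 ≤ β := by omega
  have hN : 1 ≤ N := hN'.trans hNN
  have hN0 : (0 : ℝ) < N := by exact_mod_cast hN
  have hN'0 : (0 : ℝ) < N' := by exact_mod_cast hN'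
  have hN'1 : (1 : ℝ) ≤ N' := by exact_mod_cast hN'
  have hψ'1 : ψ' ≤ 1 := by nlinarith
  have hBA : 0 < B - A := by linarith
  have h4 : 4 ≤ (N' : ℝ) * (B - A) := by
    have : 0 ≤ 4 * (m : ℝ) * M * (β : ℝ) ^ (∑ j, l' j) := by positivity
    linarith
  rw [Finset.sum_comm]
  have hinner : ∀ v' ∈ shape β N' l' Z', ∑ v ∈ shape β N l Z,
      volume {t | t ∈ S ∧ |lin G v t| < ψ ∧ |lin G v' t| < ψ'}
      ≤ if (∃ t ∈ Icc A B, |lin G v' t| < ψ') then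
        ENNReal.ofReal (36 * 13554500 * (β : ℝ) ^ (∑ j, l j) * (N * ψ * ψ' / N')) else 0 := by
    intro v' hv'
    by_cases hne : ∃ t ∈ S, |lin G v' t| < ψ'
    · obtain ⟨x₀, hx₀, hx₀ψ⟩ := hne
      rw [if_pos ⟨x₀, hSA hx₀, hx₀ψ⟩]
      refine le_trans (Finset.sum_le_sum fun v _ => measure_mono ?_)
        (RegimeI_inner hG hM hβ1 hN hN' l Z hsm hψ0 hψ'0 hψ hreg
          {t | t ∈ S ∧ |lin G v' t| < ψ'} (fun t ht => hSA ht.1) (fun t ht => hsp t ht.1) x₀ ?_)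
      · rintro t ⟨h1, h2, h3⟩
        exact ⟨⟨h1, h3⟩, h2⟩
      · rintro t ⟨h1, h2⟩
        exact RegimeI_dist hG hM hβ1 hN' hsm' hv' (hSA hx₀) (hSA h1) hx₀ψ h2
    · have : ∀ v ∈ shape β N l Z,
          volume {t | t ∈ S ∧ |lin G v t| < ψ ∧ |lin G v' t| < ψ'} = 0 := by
        intro v _
        have hempty : {t | t ∈ S ∧ |lin G v t| < ψ ∧ |lin G v' t| < ψ'} = ∅ := by
          ext t
          simp only [mem_ofPred_eq, mem_empty_iff_false, iff_false]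
          rintro ⟨h1, -, h3⟩
          exact hne ⟨t, h1, h3⟩
        rw [hempty, measure_empty]
      rw [Finset.sum_eq_zero this]
      exact zero_le
  refine (Finset.sum_le_sum hinner).trans ?_
  rw [← Finset.sum_filter, Finset.sum_const, nsmul_eq_mul, ← ENNReal.ofReal_natCast,
    ← ENNReal.ofReal_mul (by positivity)]
  apply ENNReal.ofReal_le_ofReal
  have hcard := RegimeI_card_meet hG hM hβ1 hN' l' Z' hsm' hψ'1 h4
  calc (((shape β N' l' Z').filter (fun v => ∃ t ∈ Icc A B, |lin G v t| < ψ')).card : ℝ)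
        * (36 * 13554500 * (β : ℝ) ^ (∑ j, l j) * (N * ψ * ψ' / N'))
      ≤ ((β : ℝ) ^ (∑ j, l' j) * (500 * N') * (1003 * (N' * (B - A))))
        * (36 * 13554500 * (β : ℝ) ^ (∑ j, l j) * (N * ψ * ψ' / N')) := by gcongr
    _ = (500 * 1003 * 36 * 13554500) * ((B - A) * (N * ψ * (β : ℝ) ^ (∑ j, l j))
          * (N' * ψ' * (β : ℝ) ^ (∑ j, l' j))) := by
        field_simp
    _ ≤ 10 ^ 15 * ((B - A) * (N * ψ * (β : ℝ) ^ (∑ j, l j))
          * (N' * ψ' * (β : ℝ) ^ (∑ j, l' j))) := by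
        refine mul_le_mul_of_nonneg_right (by norm_num) (by positivity)
    _ = _ := by ring

end MKG
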