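import Pool.Agent.MKG.Defs
import Pool.Agent.MKG.Exp

/-! # Module EQ: the equidistribution lemma -/

open MeasureTheory Set Filter
open scoped BigOperators ENNReal Topology

namespace MKG

/-- `e` of a finite sum. -/
theorem EQ_e_sum {ι : Type*} (s : Finset ι) (f : ι → ℝ) : e (∑ i ∈ s, f i) = ∏ i ∈ s, e (f i) := by
  classical
  induction s using Finset.induction_on with
  | empty => simp [e_zero]
  | insert a s ha ih => rw [Finset.sum_insert ha, Finset.prod_insert ha, e_add, ih]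

/-- The index box `[0, L)^ι`. -/
def EQ_box (ι : Type*) [Fintype ι] [DecidableEq ι] (L : ℕ) : Finset (ι → ℕ) :=
  Fintype.piFinset (fun _ : ι => Finset.range L)

/-- The exponential sum over the box `[0, L)^ι`. -/
noncomputable def EQ_S {ι : Type*} [Fintype ι] [DecidableEq ι] (L : ℕ) (z : ι → ℝ) : ℂ :=
  ∑ j ∈ EQ_box ι L, e (∑ i, (j i : ℝ) * z i)

theorem EQ_box_card (ι : Type*) [Fintype ι] [DecidableEq ι] (L : ℕ) :
    (EQ_box ι L).card = L ^ (Fintype.card ι) := by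
  simp [EQ_box, Fintype.card_piFinset]

theorem EQ_S_eq_prod {ι : Type*} [Fintype ι] [DecidableEq ι] (L : ℕ) (z : ι → ℝ) :
    EQ_S L z = ∏ i, ∑ j ∈ Finset.range L, e ((j : ℝ) * z i) := by
  unfold EQ_S EQ_box
  rw [Finset.prod_univ_sum]
  exact Finset.sum_congr rfl fun j _ => EQ_e_sum _ _

theorem EQ_S_add_int {ι : Type*} [Fintype ι] [DecidableEq ι] (L : ℕ) (z : ι → ℝ) (n : ι → ℤ) :
    EQ_S L (z + fun i => (n i : ℝ)) = EQ_S L z := by
  unfold EQ_S
  refine Finset.sum_congr rfl fun j _ => ?_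
  have : ∑ i, (j i : ℝ) * (z + fun i => (n i : ℝ)) i
      = ∑ i, (j i : ℝ) * z i + ((∑ i, (j i : ℤ) * n i : ℤ) : ℝ) := by
    push_cast
    rw [← Finset.sum_add_distrib]
    refine Finset.sum_congr rfl fun i _ => ?_
    simp [mul_add]
  rw [this, e_add_int]

theorem EQ_re_e (x : ℝ) : (e x).re = Real.cos (2 * Real.pi * x) := by
  unfold e
  rw [Complex.exp_ofReal_mul_I_re]

theorem EQ_factor_lower (L : ℕ) (hL : 1 ≤ L) (t : ℝ) (ht : |t| ≤ 1 / (8 * (L : ℝ))) :
    (L : ℝ) / 2 ≤ ‖∑ j ∈ Finset.range L, e ((j : ℝ) * t)‖ := by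
  refine le_trans ?_ (Complex.re_le_norm _)
  rw [Complex.re_sum]
  have hL0 : (0 : ℝ) < L := by exact_mod_cast hL
  have : ∀ j ∈ Finset.range L, (1 : ℝ) / 2 ≤ (e ((j : ℝ) * t)).re := by
    intro j hj
    rw [EQ_re_e]
    have hj' : (j : ℝ) ≤ L := by exact_mod_cast (Finset.mem_range.1 hj).le
    have h1 : |2 * Real.pi * ((j : ℝ) * t)| ≤ Real.pi / 3 := by
      rw [abs_mul, abs_of_pos (by positivity : (0 : ℝ) < 2 * Real.pi), abs_mul,
        abs_of_nonneg (Nat.cast_nonneg j)]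
      have h2 : (j : ℝ) * |t| ≤ 1 / 8 := by
        calc (j : ℝ) * |t| ≤ L * (1 / (8 * (L : ℝ))) := by gcongr
          _ = 1 / 8 := by field_simp
      have := Real.pi_pos
      nlinarith
    rw [← Real.cos_abs, ← Real.cos_pi_div_three]
    refine Real.cos_le_cos_of_nonneg_of_le_pi (abs_nonneg _) ?_ h1
    have := Real.pi_pos
    linarith
  calc (L : ℝ) / 2 = ∑ _j ∈ Finset.range L, (1 : ℝ) / 2 := by simp; ring
    _ ≤ _ := Finset.sum_le_sum this

theorem EQ_S_lower {ι : Type*} [Fintype ι] [DecidableEq ι] (L : ℕ) (hL : 1 ≤ L) (z : ι → ℝ)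
    (hz : ∀ i, |z i| ≤ 1 / (8 * (L : ℝ))) :
    ((L : ℝ) / 2) ^ (Fintype.card ι) ≤ ‖EQ_S L z‖ := by
  rw [EQ_S_eq_prod, norm_prod]
  calc ((L : ℝ) / 2) ^ (Fintype.card ι) = ∏ _i : ι, ((L : ℝ) / 2) := by
        rw [Finset.prod_const, Finset.card_univ]
    _ ≤ _ := Finset.prod_le_prod (fun i _ => by positivity)
        (fun i _ => EQ_factor_lower L hL (z i) (hz i))

/-- The Fejér type kernel. -/
noncomputable def EQ_K {ι : Type*} [Fintype ι] [DecidableEq ι] (L : ℕ) (z : ι → ℝ) : ℝ :=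
  ‖EQ_S L z‖ ^ 2 / (L : ℝ) ^ (Fintype.card ι)

theorem EQ_K_nonneg {ι : Type*} [Fintype ι] [DecidableEq ι] (L : ℕ) (z : ι → ℝ) :
    0 ≤ EQ_K L z := by unfold EQ_K; positivity

theorem EQ_K_add_int {ι : Type*} [Fintype ι] [DecidableEq ι] (L : ℕ) (z : ι → ℝ) (n : ι → ℤ) :
    EQ_K L (z + fun i => (n i : ℝ)) = EQ_K L z := by
  unfold EQ_K; rw [EQ_S_add_int]

theorem EQ_K_lower {ι : Type*} [Fintype ι] [DecidableEq ι] (L : ℕ) (hL : 1 ≤ L) (z : ι → ℝ)
    (hz : ∀ i, |z i| ≤ 1 / (8 * (L : ℝ))) :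
    ((L : ℝ) / 4) ^ (Fintype.card ι) ≤ EQ_K L z := by
  have hL0 : (0 : ℝ) < L := by exact_mod_cast hL
  unfold EQ_K
  rw [le_div_iff₀ (by positivity), ← mul_pow]
  calc ((L : ℝ) / 4 * L) ^ (Fintype.card ι) = (((L : ℝ) / 2) ^ (Fintype.card ι)) ^ 2 := by
        rw [← pow_mul, mul_comm (Fintype.card ι) 2, pow_mul]; congr 1; ring
    _ ≤ _ := by
        have := EQ_S_lower L hL z hz
        gcongr

theorem EQ_continuous_S {ι : Type*} [Fintype ι] [DecidableEq ι] (L : ℕ) :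
    Continuous (EQ_S (ι := ι) L) := by
  unfold EQ_S
  refine continuous_finsetSum _ fun j _ => ?_
  refine continuous_e.comp ?_
  fun_prop

theorem EQ_continuous_K {ι : Type*} [Fintype ι] [DecidableEq ι] (L : ℕ) :
    Continuous (EQ_K (ι := ι) L) := by
  unfold EQ_K
  exact ((EQ_continuous_S L).norm.pow 2).div_const _

/-- expansion of the kernel. -/
theorem EQ_K_expand {ι : Type*} [Fintype ι] [DecidableEq ι] (L : ℕ) (z w : ι → ℝ) :
    ((EQ_K L (z - w) : ℝ) : ℂ) = (∑ j ∈ EQ_box ι L, ∑ j' ∈ EQ_box ι L,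
      e (∑ i, (((j i : ℤ) - (j' i : ℤ) : ℤ) : ℝ) * z i) *
        e (∑ i, (((j' i : ℤ) - (j i : ℤ) : ℤ) : ℝ) * w i)) / (L : ℂ) ^ (Fintype.card ι) := by
  unfold EQ_K
  push_cast
  congr 1
  rw [← Complex.mul_conj']
  unfold EQ_S
  rw [map_sum, Finset.sum_mul_sum]
  refine Finset.sum_congr rfl fun j _ => Finset.sum_congr rfl fun j' _ => ?_
  rw [← e_sub, ← e_add]
  congr 1
  rw [← Finset.sum_sub_distrib, ← Finset.sum_add_distrib]
  refine Finset.sum_congr rfl fun i _ => ?_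
  simp only [Pi.sub_apply]
  ring


theorem EQ_pointwise {ι : Type*} [Fintype ι] [DecidableEq ι] (L : ℕ) (hL : 1 ≤ L)
    (S S' : Set (ι → ℝ)) (hS' : MeasurableSet S')
    (hSS' : ∀ z ∈ S, ∀ ϑ : ι → ℝ, (∀ i, |ϑ i| ≤ 1 / (8 * (L : ℝ))) → z + ϑ ∈ S') (ζ : ι → ℝ) :
    ∑' n : ι → ℤ, S.indicator (fun _ => (1 : ℝ≥0∞)) (ζ + fun i => (n i : ℝ))
      ≤ 16 ^ (Fintype.card ι) * ∫⁻ z in S', ENNReal.ofReal (EQ_K L (z - ζ)) := by
  have hL1 : (1 : ℝ) ≤ L := by exact_mod_cast hL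
  have hL0 : (0 : ℝ) < L := by linarith
  set r : ℝ := 1 / (8 * (L : ℝ)) with hr
  have hr0 : 0 < r := by positivity
  have hr8 : r ≤ 1 / 8 := by
    rw [hr]; apply one_div_le_one_div_of_le (by norm_num); linarith
  set Box : (ι → ℤ) → Set (ι → ℝ) := fun n =>
    Set.pi univ (fun i => Icc (ζ i + n i - r) (ζ i + n i + r)) with hBox
  have hmem : ∀ n z, z ∈ Box n ↔ ∀ i, |z i - ζ i - n i| ≤ r := by
    intro n z
    simp only [hBox, Set.mem_pi, mem_univ, true_implies, mem_Icc]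
    refine forall_congr' fun i => ?_
    rw [abs_le]
    constructor <;> rintro ⟨h1, h2⟩ <;> constructor <;> linarith
  have hBm : ∀ n, MeasurableSet (Box n) := fun n =>
    MeasurableSet.univ_pi fun i => measurableSet_Icc
  have hvol : ∀ n, volume (Box n) = ENNReal.ofReal ((2 * r) ^ (Fintype.card ι)) := by
    intro n
    simp only [hBox]
    rw [volume_pi_pi]
    simp only [Real.volume_Icc]
    rw [Finset.prod_congr rfl (fun i _ => by
      rw [show ζ i + (n i : ℝ) + r - (ζ i + (n i : ℝ) - r) = 2 * r by ring])]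
    rw [Finset.prod_const, Finset.card_univ, ENNReal.ofReal_pow (by positivity)]
  have hdisj : Pairwise (Function.onFun Disjoint (fun n => S' ∩ Box n)) := by
    intro n n' hnn'
    rw [Function.onFun, Set.disjoint_left]
    rintro z ⟨-, hz⟩ ⟨-, hz'⟩
    rw [hmem] at hz hz'
    apply hnn'
    funext i
    have h1 := abs_le.1 (hz i)
    have h2 := abs_le.1 (hz' i)
    have h3 : |(n i : ℝ) - n' i| < 1 := by
      rw [abs_lt]; constructor <;> linarith [h1.1, h1.2, h2.1, h2.2]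
    have h4 : |n i - n' i| < 1 := by exact_mod_cast h3
    have h5 := Int.abs_lt_one_iff.1 h4
    omega
  have hterm : ∀ n, S.indicator (fun _ => (1 : ℝ≥0∞)) (ζ + fun i => (n i : ℝ))
      ≤ 16 ^ (Fintype.card ι) * ∫⁻ z in S' ∩ Box n, ENNReal.ofReal (EQ_K L (z - ζ)) := by
    intro n
    by_cases h : (ζ + fun i => (n i : ℝ)) ∈ S
    · rw [Set.indicator_of_mem h]
      have hsub : Box n ⊆ S' := by
        intro z hz
        rw [hmem] at hz
        have := hSS' _ h (fun i => z i - ζ i - n i) hz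
        convert this using 1
        funext i
        simp
      rw [Set.inter_eq_self_of_subset_right hsub]
      have h1 : ENNReal.ofReal (((L : ℝ) / 4) ^ (Fintype.card ι)) * volume (Box n)
          ≤ ∫⁻ z in Box n, ENNReal.ofReal (EQ_K L (z - ζ)) := by
        rw [← setLIntegral_const]
        refine setLIntegral_mono' (hBm n) fun z hz => ?_
        apply ENNReal.ofReal_le_ofReal
        rw [hmem] at hz
        have h2 := EQ_K_lower L hL (fun i => z i - ζ i - n i) hz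
        have h3 : z - ζ = (fun i => z i - ζ i - n i) + fun i => (n i : ℝ) := by
          funext i; simp
        rw [h3, EQ_K_add_int]
        exact h2
      refine le_trans ?_ (mul_le_mul_right h1 _)
      rw [hvol, ← ENNReal.ofReal_mul (by positivity), ← mul_pow]
      have h4 : (L : ℝ) / 4 * (2 * r) = 1 / 16 := by
        rw [hr]; field_simp; norm_num
      rw [h4]
      have h5 : (16 : ℝ≥0∞) ^ (Fintype.card ι) = ENNReal.ofReal (16 ^ (Fintype.card ι)) := by
        rw [ENNReal.ofReal_pow (by norm_num)]; norm_num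
      rw [h5, ← ENNReal.ofReal_mul (by positivity), ← mul_pow]
      norm_num
    · rw [Set.indicator_of_notMem h]
      exact zero_le
  calc ∑' n : ι → ℤ, S.indicator (fun _ => (1 : ℝ≥0∞)) (ζ + fun i => (n i : ℝ))
      ≤ ∑' n : ι → ℤ, 16 ^ (Fintype.card ι) *
          ∫⁻ z in S' ∩ Box n, ENNReal.ofReal (EQ_K L (z - ζ)) := ENNReal.tsum_le_tsum hterm
    _ = 16 ^ (Fintype.card ι) * ∑' n : ι → ℤ,
          ∫⁻ z in S' ∩ Box n, ENNReal.ofReal (EQ_K L (z - ζ)) := ENNReal.tsum_mul_left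
    _ = 16 ^ (Fintype.card ι) *
          ∫⁻ z in ⋃ n, (S' ∩ Box n), ENNReal.ofReal (EQ_K L (z - ζ)) := by
        rw [lintegral_iUnion (fun n => hS'.inter (hBm n)) hdisj]
    _ ≤ _ := by
        refine mul_le_mul_right ?_ _
        exact lintegral_mono_set (Set.iUnion_subset fun n => Set.inter_subset_left)

theorem EQ_kernel_integral {ι Y : Type*} [Fintype ι] [DecidableEq ι] [MeasurableSpace Y]
    (μ : Measure Y) [IsFiniteMeasure μ]
    (ζ : Y → ι → ℝ) (hζ : Measurable ζ) (L : ℕ) (hL : 1 ≤ L)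
    (hW : ∀ k : ι → ℤ, k ≠ 0 → (∀ i, |k i| < L) →
      ‖∫ y, e (∑ i, (k i : ℝ) * ζ y i) ∂μ‖ ≤ μ.real univ / (L : ℝ) ^ (Fintype.card ι))
    (z : ι → ℝ) :
    ∫⁻ y, ENNReal.ofReal (EQ_K L (z - ζ y)) ∂μ ≤ 2 * μ univ := by
  have hL0 : (0 : ℝ) < L := by exact_mod_cast hL
  set D := Fintype.card ι with hD
  have hmeasK : Measurable (fun y => EQ_K L (z - ζ y)) :=
    (EQ_continuous_K L).measurable.comp (measurable_const.sub hζ)
  have hSbd : ∀ w : ι → ℝ, ‖EQ_S L w‖ ≤ (L : ℝ) ^ D := by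
    intro w
    unfold EQ_S
    refine (norm_sum_le _ _).trans ?_
    simp only [norm_e]
    rw [Finset.sum_const, EQ_box_card]
    simp [hD]
  have hKbd : ∀ w : ι → ℝ, EQ_K L w ≤ (L : ℝ) ^ D := by
    intro w
    unfold EQ_K
    rw [div_le_iff₀ (by positivity), ← sq]
    gcongr
    exact hSbd w
  have hint : Integrable (fun y => EQ_K L (z - ζ y)) μ := by
    refine Integrable.of_bound hmeasK.aestronglyMeasurable ((L : ℝ) ^ D) ?_
    refine Eventually.of_forall fun y => ?_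
    rw [Real.norm_of_nonneg (EQ_K_nonneg _ _)]
    exact hKbd _
  rw [← ofReal_integral_eq_lintegral_ofReal hint (Eventually.of_forall fun y => EQ_K_nonneg _ _)]
  have key : ∫ y, EQ_K L (z - ζ y) ∂μ ≤ 2 * μ.real univ := by
    have hc : ((∫ y, EQ_K L (z - ζ y) ∂μ : ℝ) : ℂ) = (∑ j ∈ EQ_box ι L, ∑ j' ∈ EQ_box ι L,
        e (∑ i, (((j i : ℤ) - (j' i : ℤ) : ℤ) : ℝ) * z i) *
        ∫ y, e (∑ i, (((j' i : ℤ) - (j i : ℤ) : ℤ) : ℝ) * ζ y i) ∂μ) / (L : ℂ) ^ D := by
      rw [← integral_complex_ofReal]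
      simp_rw [EQ_K_expand]
      rw [integral_div]
      congr 1
      have hi : ∀ k : ι → ℤ, Integrable (fun y => e (∑ i, (k i : ℝ) * ζ y i)) μ := by
        intro k
        refine Integrable.of_bound (C := 1) ?_ (Eventually.of_forall fun y => (norm_e _).le)
        refine (measurable_e.comp ?_).aestronglyMeasurable
        exact Finset.measurable_sum _ fun i _ =>
          ((measurable_pi_apply i).comp hζ).const_mul _
      rw [integral_finsetSum]
      · refine Finset.sum_congr rfl fun j _ => ?_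
        rw [integral_finsetSum]
        · refine Finset.sum_congr rfl fun j' _ => ?_
          rw [integral_const_mul]
        · intro j' _
          exact (hi (fun i => (j' i : ℤ) - (j i : ℤ))).const_mul _
      · intro j _
        refine integrable_finsetSum _ fun j' _ => ?_
        exact (hi (fun i => (j' i : ℤ) - (j i : ℤ))).const_mul _
    have hnn : 0 ≤ ∫ y, EQ_K L (z - ζ y) ∂μ := integral_nonneg fun y => EQ_K_nonneg _ _
    have hn : ∫ y, EQ_K L (z - ζ y) ∂μ = ‖((∫ y, EQ_K L (z - ζ y) ∂μ : ℝ) : ℂ)‖ := by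
      rw [Complex.norm_real, Real.norm_of_nonneg hnn]
    rw [hn, hc, norm_div, norm_pow, Complex.norm_natCast, div_le_iff₀ (by positivity)]
    have hμ0 : 0 ≤ μ.real univ := measureReal_nonneg
    have hterm : ∀ j ∈ EQ_box ι L, ∀ j' ∈ EQ_box ι L,
        ‖e (∑ i, (((j i : ℤ) - (j' i : ℤ) : ℤ) : ℝ) * z i) *
        ∫ y, e (∑ i, (((j' i : ℤ) - (j i : ℤ) : ℤ) : ℝ) * ζ y i) ∂μ‖
        ≤ (if j = j' then μ.real univ else 0) + μ.real univ / (L : ℝ) ^ D := by
      intro j hj j' hj'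
      rw [norm_mul, norm_e, one_mul]
      by_cases h : j = j'
      · rw [if_pos h]
        refine le_add_of_le_of_nonneg ?_ (by positivity)
        refine (norm_integral_le_of_norm_le_const (C := 1)
          (Eventually.of_forall fun y => (norm_e _).le)).trans ?_
        rw [one_mul]
      · rw [if_neg h, zero_add]
        refine hW (fun i => (j' i : ℤ) - (j i : ℤ)) ?_ ?_
        · intro h0
          apply h
          funext i
          have := congrFun h0 i
          simp only [Pi.zero_apply] at this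
          omega
        · intro i
          have h1 := Finset.mem_range.1 (Fintype.mem_piFinset.1 hj i)
          have h2 := Finset.mem_range.1 (Fintype.mem_piFinset.1 hj' i)
          rw [abs_lt]
          constructor <;> omega
    calc ‖∑ j ∈ EQ_box ι L, ∑ j' ∈ EQ_box ι L,
        e (∑ i, (((j i : ℤ) - (j' i : ℤ) : ℤ) : ℝ) * z i) *
        ∫ y, e (∑ i, (((j' i : ℤ) - (j i : ℤ) : ℤ) : ℝ) * ζ y i) ∂μ‖
        ≤ ∑ j ∈ EQ_box ι L, ∑ j' ∈ EQ_box ι L,
          ((if j = j' then μ.real univ else 0) + μ.real univ / (L : ℝ) ^ D) := by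
          refine (norm_sum_le _ _).trans (Finset.sum_le_sum fun j hj => ?_)
          refine (norm_sum_le _ _).trans (Finset.sum_le_sum fun j' hj' => ?_)
          exact hterm j hj j' hj'
      _ = 2 * μ.real univ * (L : ℝ) ^ D := by
          simp only [Finset.sum_add_distrib, Finset.sum_ite_eq, Finset.sum_const, EQ_box_card]
          rw [Finset.sum_congr rfl (fun j hj => if_pos hj), Finset.sum_const, EQ_box_card]
          simp only [nsmul_eq_mul, Nat.cast_pow, ← hD]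
          field_simp
          ring
  calc ENNReal.ofReal (∫ y, EQ_K L (z - ζ y) ∂μ) ≤ ENNReal.ofReal (2 * μ.real univ) :=
        ENNReal.ofReal_le_ofReal key
    _ = 2 * μ univ := by
        rw [ENNReal.ofReal_mul (by norm_num), ofReal_measureReal]
        norm_num

theorem eq_lemma {ι Y : Type*} [Fintype ι] [MeasurableSpace Y] (μ : Measure Y) [IsFiniteMeasure μ]
    (ζ : Y → ι → ℝ) (hζ : Measurable ζ) (L : ℕ) (hL : 1 ≤ L)
    (hW : ∀ k : ι → ℤ, k ≠ 0 → (∀ i, |k i| < L) →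
      ‖∫ y, e (∑ i, (k i : ℝ) * ζ y i) ∂μ‖ ≤ μ.real univ / (L : ℝ) ^ (Fintype.card ι))
    (S S' : Set (ι → ℝ)) (hS' : MeasurableSet S')
    (hSS' : ∀ z ∈ S, ∀ ϑ : ι → ℝ, (∀ i, |ϑ i| ≤ 1 / (8 * (L : ℝ))) → z + ϑ ∈ S') :
    ∫⁻ y, ∑' n : ι → ℤ, S.indicator (fun _ => (1 : ℝ≥0∞)) (ζ y + fun i => (n i : ℝ)) ∂μ
      ≤ 2 * 16 ^ (Fintype.card ι) * μ univ * volume S' := by
  classical
  calc ∫⁻ y, ∑' n : ι → ℤ, S.indicator (fun _ => (1 : ℝ≥0∞)) (ζ y + fun i => (n i : ℝ)) ∂μ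
      ≤ ∫⁻ y, 16 ^ (Fintype.card ι) * (∫⁻ z in S', ENNReal.ofReal (EQ_K L (z - ζ y))) ∂μ :=
        lintegral_mono fun y => EQ_pointwise L hL S S' hS' hSS' (ζ y)
    _ = 16 ^ (Fintype.card ι) * ∫⁻ y, (∫⁻ z in S', ENNReal.ofReal (EQ_K L (z - ζ y))) ∂μ := by
        rw [lintegral_const_mul' _ _ (by simp)]
    _ = 16 ^ (Fintype.card ι) * ∫⁻ z in S', (∫⁻ y, ENNReal.ofReal (EQ_K L (z - ζ y)) ∂μ) := by
        rw [lintegral_lintegral_swap]
        refine Measurable.aemeasurable ?_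
        refine ENNReal.measurable_ofReal.comp ((EQ_continuous_K L).measurable.comp ?_)
        exact measurable_snd.sub (hζ.comp measurable_fst)
    _ ≤ 16 ^ (Fintype.card ι) * ∫⁻ _z in S', 2 * μ univ := by
        refine mul_le_mul_right (lintegral_mono fun z => ?_) _
        exact EQ_kernel_integral μ ζ hζ L hL hW z
    _ = 2 * 16 ^ (Fintype.card ι) * μ univ * volume S' := by
        rw [setLIntegral_const]; ring

end MKG
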