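import Pool.Agent.MKG.Defs

/-! # Module Vol: volumes -/

open MeasureTheory Set Filter
open scoped BigOperators ENNReal Topology

namespace MKG

/-- the region in `T⁴` -/
def T4 (U U' η : ℝ) : Set (Fin 4 → ℝ) :=
  {z | |z 0| ≤ U ∧ |z 1| ≤ U ∧ |z 2| ≤ U' ∧ |z 3| ≤ U' ∧ |z 0 * z 3 - z 1 * z 2| < η}

theorem Vol_measurableSet_T4 (U U' η : ℝ) : MeasurableSet (T4 U U' η) := by
  have h0 : Measurable fun z : Fin 4 → ℝ => |z 0| := by fun_prop
  have h1 : Measurable fun z : Fin 4 → ℝ => |z 1| := by fun_prop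
  have h2 : Measurable fun z : Fin 4 → ℝ => |z 2| := by fun_prop
  have h3 : Measurable fun z : Fin 4 → ℝ => |z 3| := by fun_prop
  have h4 : Measurable fun z : Fin 4 → ℝ => |z 0 * z 3 - z 1 * z 2| := by fun_prop
  exact (measurableSet_le h0 measurable_const).inter
    ((measurableSet_le h1 measurable_const).inter
    ((measurableSet_le h2 measurable_const).inter
    ((measurableSet_le h3 measurable_const).inter (measurableSet_lt h4 measurable_const))))

theorem Vol_fin_succ {n : ℕ} (A : Set (Fin (n + 1) → ℝ)) (hA : MeasurableSet A) :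
    volume A = ∫⁻ x : ℝ, volume {f : Fin n → ℝ | (Fin.cons x f : Fin (n + 1) → ℝ) ∈ A} := by
  have h := (volume_preserving_piFinSuccAbove (fun _ : Fin (n + 1) => ℝ) 0).symm
  rw [← h.measure_preimage hA.nullMeasurableSet, Measure.volume_eq_prod,
    Measure.prod_apply (h.measurable hA)]
  refine lintegral_congr fun x => ?_
  congr 1
  ext f
  rw [mem_preimage, mem_preimage]
  have : (MeasurableEquiv.piFinSuccAbove (fun _ : Fin (n + 1) => ℝ) 0).symm (x, f)
      = (Fin.cons x f : Fin (n + 1) → ℝ) := by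
    funext i
    refine Fin.cases ?_ (fun j => ?_) i
    · simp [MeasurableEquiv.piFinSuccAbove]
    · simp [MeasurableEquiv.piFinSuccAbove]
  rw [this]
  rfl

theorem Vol_fin_two (A : Set (Fin 2 → ℝ)) :
    volume A = (volume : Measure (ℝ × ℝ)) {p | ![p.1, p.2] ∈ A} := by
  have h := (volume_preserving_finTwoArrow ℝ).symm
  rw [← h.measure_preimage_equiv]
  rfl

theorem Vol_slab (a b η : ℝ) (ha : a ≠ 0) :
    volume {y : ℝ | |a * y - b| < η} = ENNReal.ofReal (2 * (η / |a|)) := by
  have : {y : ℝ | |a * y - b| < η} = Metric.ball (b / a) (η / |a|) := by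
    ext y
    rw [Metric.mem_ball, Real.dist_eq, mem_ofPred_eq, lt_div_iff₀ (abs_pos.2 ha), ← abs_mul]
    have h1 : (y - b / a) * a = a * y - b := by field_simp
    rw [h1]
  rw [this, Real.volume_ball]

/-- `{(x, y) : |x| ≤ W, |a y - c x| < η}` has measure at most `2 W · 2 η / |a|`. -/
theorem Vol_slab2 (a c W η : ℝ) (ha : a ≠ 0) (hη : 0 ≤ η) :
    (volume : Measure (Fin 2 → ℝ)) {f | |f 0| ≤ W ∧ |a * f 1 - c * f 0| < η}
      ≤ ENNReal.ofReal (4 * W * η / |a|) := by
  rw [Vol_fin_two, Measure.volume_eq_prod, Measure.prod_apply]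
  · calc ∫⁻ x : ℝ, volume (Prod.mk x ⁻¹' {p : ℝ × ℝ | ![p.1, p.2] ∈
          {f : Fin 2 → ℝ | |f 0| ≤ W ∧ |a * f 1 - c * f 0| < η}})
        ≤ ∫⁻ x : ℝ, (Icc (-W) W).indicator (fun _ => ENNReal.ofReal (2 * (η / |a|))) x := by
          refine lintegral_mono fun x => ?_
          by_cases hx : x ∈ Icc (-W) W
          · rw [indicator_of_mem hx, ← Vol_slab a (c * x) η ha]
            refine measure_mono fun y hy => ?_
            simp only [mem_preimage, mem_ofPred_eq, Matrix.cons_val_zero, Matrix.cons_val_one] at hy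
            exact hy.2
          · rw [indicator_of_notMem hx]
            have : (Prod.mk x ⁻¹' {p : ℝ × ℝ | ![p.1, p.2] ∈
                {f : Fin 2 → ℝ | |f 0| ≤ W ∧ |a * f 1 - c * f 0| < η}}) = ∅ := by
              ext y
              simp only [mem_preimage, mem_ofPred_eq, Matrix.cons_val_zero, Matrix.cons_val_one,
                mem_empty_iff_false, iff_false, not_and]
              intro h
              exact absurd (abs_le.1 h) hx
            rw [this, measure_empty]
      _ = ENNReal.ofReal (2 * (η / |a|)) * volume (Icc (-W) W) := by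
          rw [lintegral_indicator measurableSet_Icc, setLIntegral_const]
      _ ≤ _ := by
          rw [Real.volume_Icc, ← ENNReal.ofReal_mul (by positivity)]
          apply ENNReal.ofReal_le_ofReal
          have := abs_pos.2 ha
          apply le_of_eq
          field_simp
          ring
  · have h1 : Measurable fun p : ℝ × ℝ => |p.1| := by fun_prop
    have h2 : Measurable fun p : ℝ × ℝ => |a * p.2 - c * p.1| := by fun_prop
    exact (measurableSet_le h1 measurable_const).inter (measurableSet_lt h2 measurable_const)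


/-- the part of `T4` with `|z 1| ≤ |z 0|`, without the condition on `z 3`. -/
def Vol_A (U U' η : ℝ) : Set (Fin 4 → ℝ) :=
  {z | |z 0| ≤ U ∧ |z 1| ≤ |z 0| ∧ |z 2| ≤ U' ∧ |z 0 * z 3 - z 1 * z 2| < η}

theorem Vol_measurableSet_A (U U' η : ℝ) : MeasurableSet (Vol_A U U' η) := by
  have h0 : Measurable fun z : Fin 4 → ℝ => |z 0| := by fun_prop
  have h1 : Measurable fun z : Fin 4 → ℝ => |z 1| := by fun_prop
  have h2 : Measurable fun z : Fin 4 → ℝ => |z 2| := by fun_prop
  have h4 : Measurable fun z : Fin 4 → ℝ => |z 0 * z 3 - z 1 * z 2| := by fun_prop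
  exact (measurableSet_le h0 measurable_const).inter
    ((measurableSet_le h1 h0).inter
    ((measurableSet_le h2 measurable_const).inter (measurableSet_lt h4 measurable_const)))

theorem Vol_volume_A (U U' η : ℝ) (hU' : 0 ≤ U') (hη : 0 ≤ η) :
    volume (Vol_A U U' η) ≤ ENNReal.ofReal (16 * η * U * U') := by
  rw [Vol_fin_succ _ (Vol_measurableSet_A U U' η)]
  have hcm : ∀ n : ℕ, ∀ x : ℝ, Measurable fun f : Fin n → ℝ => (Fin.cons x f : Fin (n + 1) → ℝ) := by
    intro n x
    refine measurable_pi_lambda _ fun i => ?_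
    refine Fin.cases ?_ (fun j => ?_) i
    · simp
    · simpa using measurable_pi_apply j
  have hin : ∀ x : ℝ, x ≠ 0 →
      volume {f : Fin 3 → ℝ | (Fin.cons x f : Fin 4 → ℝ) ∈ Vol_A U U' η}
      ≤ (Icc (-U) U).indicator (fun _ => ENNReal.ofReal (8 * U' * η)) x := by
    intro x hx
    have hx0 := abs_pos.2 hx
    by_cases hxU : x ∈ Icc (-U) U
    · rw [indicator_of_mem hxU]
      have hm : MeasurableSet {f : Fin 3 → ℝ | (Fin.cons x f : Fin 4 → ℝ) ∈ Vol_A U U' η} :=
        (hcm 3 x) (Vol_measurableSet_A U U' η)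
      rw [Vol_fin_succ _ hm]
      calc ∫⁻ y : ℝ, volume {f : Fin 2 → ℝ | (Fin.cons y f : Fin 3 → ℝ) ∈
              {f : Fin 3 → ℝ | (Fin.cons x f : Fin 4 → ℝ) ∈ Vol_A U U' η}}
          ≤ ∫⁻ y : ℝ, (Icc (-|x|) |x|).indicator
              (fun _ => ENNReal.ofReal (4 * U' * η / |x|)) y := by
            refine lintegral_mono fun y => ?_
            by_cases hy : y ∈ Icc (-|x|) |x|
            · rw [indicator_of_mem hy]
              refine le_trans (measure_mono ?_) (Vol_slab2 x y U' η hx hη)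
              intro f hf
              simp only [Vol_A, mem_ofPred_eq] at hf
              exact ⟨hf.2.2.1, hf.2.2.2⟩
            · rw [indicator_of_notMem hy]
              have : {f : Fin 2 → ℝ | (Fin.cons y f : Fin 3 → ℝ) ∈
                {f : Fin 3 → ℝ | (Fin.cons x f : Fin 4 → ℝ) ∈ Vol_A U U' η}} = ∅ := by
                ext f
                simp only [Vol_A, mem_ofPred_eq, mem_empty_iff_false, iff_false]
                intro hf
                exact hy (abs_le.1 hf.2.1)
              rw [this, measure_empty]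
        _ = ENNReal.ofReal (4 * U' * η / |x|) * volume (Icc (-|x|) |x|) := by
            rw [lintegral_indicator measurableSet_Icc, setLIntegral_const]
        _ = ENNReal.ofReal (8 * U' * η) := by
            rw [Real.volume_Icc, ← ENNReal.ofReal_mul (by positivity)]
            congr 1
            field_simp
            ring
    · rw [indicator_of_notMem hxU]
      have : {f : Fin 3 → ℝ | (Fin.cons x f : Fin 4 → ℝ) ∈ Vol_A U U' η} = ∅ := by
        ext f
        simp only [Vol_A, mem_ofPred_eq, mem_empty_iff_false, iff_false]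
        intro hf
        exact hxU (abs_le.1 hf.1)
      rw [this, measure_empty]
  calc ∫⁻ x : ℝ, volume {f : Fin 3 → ℝ | (Fin.cons x f : Fin 4 → ℝ) ∈ Vol_A U U' η}
      ≤ ∫⁻ x : ℝ, (Icc (-U) U).indicator (fun _ => ENNReal.ofReal (8 * U' * η)) x := by
        refine lintegral_mono_ae ?_
        have h0 : ∀ᵐ x : ℝ, x ≠ 0 := by
          rw [ae_iff]
          simp
        filter_upwards [h0] with x hx using hin x hx
    _ = ENNReal.ofReal (8 * U' * η) * volume (Icc (-U) U) := by
        rw [lintegral_indicator measurableSet_Icc, setLIntegral_const]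
    _ = ENNReal.ofReal (16 * η * U * U') := by
        rw [Real.volume_Icc, ← ENNReal.ofReal_mul (by positivity)]
        congr 1
        ring

theorem vol_T4 (U U' η : ℝ) (hU : 0 ≤ U) (hU' : 0 ≤ U') (hη : 0 ≤ η) :
    volume (T4 U U' η) ≤ ENNReal.ofReal (32 * η * U * U') := by
  set σ : Equiv.Perm (Fin 4) := Equiv.swap 0 1 * Equiv.swap 2 3 with hσ
  have hp := volume_measurePreserving_piCongrLeft (fun _ : Fin 4 => ℝ) σ
  have hpA : volume ((MeasurableEquiv.piCongrLeft (fun _ : Fin 4 => ℝ) σ) ⁻¹' (Vol_A U U' η))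
      = volume (Vol_A U U' η) := hp.measure_preimage (Vol_measurableSet_A U U' η).nullMeasurableSet
  have hval : ∀ (z : Fin 4 → ℝ) (i : Fin 4),
      (MeasurableEquiv.piCongrLeft (fun _ : Fin 4 => ℝ) σ) z (σ i) = z i := by
    intro z i
    exact Equiv.piCongrLeft_apply_apply (P := fun _ : Fin 4 => ℝ) σ z i
  have h0 : ∀ z, (MeasurableEquiv.piCongrLeft (fun _ : Fin 4 => ℝ) σ) z 0 = z 1 := fun z =>
    hval z 1
  have h1 : ∀ z, (MeasurableEquiv.piCongrLeft (fun _ : Fin 4 => ℝ) σ) z 1 = z 0 := fun z =>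
    hval z 0
  have h2 : ∀ z, (MeasurableEquiv.piCongrLeft (fun _ : Fin 4 => ℝ) σ) z 2 = z 3 := fun z =>
    hval z 3
  have h3 : ∀ z, (MeasurableEquiv.piCongrLeft (fun _ : Fin 4 => ℝ) σ) z 3 = z 2 := fun z =>
    hval z 2
  have hsub : T4 U U' η ⊆ Vol_A U U' η ∪
      (MeasurableEquiv.piCongrLeft (fun _ : Fin 4 => ℝ) σ) ⁻¹' (Vol_A U U' η) := by
    intro z hz
    obtain ⟨a, b, c, d, f⟩ := hz
    rcases le_total |z 1| |z 0| with h | h
    · exact Or.inl ⟨a, h, c, f⟩
    · refine Or.inr ?_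
      show _ ∧ _ ∧ _ ∧ _
      rw [h0, h1, h2, h3]
      refine ⟨b, h, d, ?_⟩
      rw [abs_sub_comm]
      exact f
  calc volume (T4 U U' η) ≤ volume (Vol_A U U' η) + volume
        ((MeasurableEquiv.piCongrLeft (fun _ : Fin 4 => ℝ) σ) ⁻¹' (Vol_A U U' η)) :=
        (measure_mono hsub).trans (measure_union_le _ _)
    _ ≤ ENNReal.ofReal (16 * η * U * U') + ENNReal.ofReal (16 * η * U * U') := by
        rw [hpA]
        exact add_le_add (Vol_volume_A U U' η hU' hη) (Vol_volume_A U U' η hU' hη)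
    _ = ENNReal.ofReal (32 * η * U * U') := by
        rw [← ENNReal.ofReal_add (by positivity) (by positivity)]
        congr 1
        ring


/-- strip bound in the plane: the first variable runs over an interval for fixed second variable. -/
theorem Vol_strip_aux (c w κ a b s : ℝ) (ha : a ≠ 0) (hκ : 0 ≤ κ) :
    (volume : Measure (ℝ × ℝ)) {p | |p.1 - c| ≤ w ∧ |a * p.2 - (b * p.1 + s)| < κ}
      ≤ ENNReal.ofReal (4 * w * κ / |a|) := by
  have h1 : Measurable fun p : ℝ × ℝ => |p.1 - c| := by fun_prop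
  have h2 : Measurable fun p : ℝ × ℝ => |a * p.2 - (b * p.1 + s)| := by fun_prop
  have hm : MeasurableSet {p : ℝ × ℝ | |p.1 - c| ≤ w ∧ |a * p.2 - (b * p.1 + s)| < κ} :=
    (measurableSet_le h1 measurable_const).inter (measurableSet_lt h2 measurable_const)
  rw [Measure.volume_eq_prod, Measure.prod_apply hm]
  calc ∫⁻ x : ℝ, volume (Prod.mk x ⁻¹' {p : ℝ × ℝ | |p.1 - c| ≤ w ∧ |a * p.2 - (b * p.1 + s)| < κ})
      ≤ ∫⁻ x : ℝ, (Icc (c - w) (c + w)).indicator (fun _ => ENNReal.ofReal (2 * (κ / |a|))) x := by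
        refine lintegral_mono fun x => ?_
        by_cases hx : x ∈ Icc (c - w) (c + w)
        · rw [indicator_of_mem hx, ← Vol_slab a (b * x + s) κ ha]
          exact measure_mono fun y hy => hy.2
        · rw [indicator_of_notMem hx]
          have : (Prod.mk x ⁻¹' {p : ℝ × ℝ | |p.1 - c| ≤ w ∧ |a * p.2 - (b * p.1 + s)| < κ})
              = ∅ := by
            ext y
            simp only [mem_preimage, mem_ofPred_eq, mem_empty_iff_false, iff_false, not_and]
            intro h
            exfalso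
            apply hx
            have := abs_le.1 h
            constructor <;> linarith [this.1, this.2]
          rw [this, measure_empty]
    _ = ENNReal.ofReal (2 * (κ / |a|)) * volume (Icc (c - w) (c + w)) := by
        rw [lintegral_indicator measurableSet_Icc, setLIntegral_const]
    _ ≤ _ := by
        rw [Real.volume_Icc, ← ENNReal.ofReal_mul (by positivity)]
        apply ENNReal.ofReal_le_ofReal
        have := abs_pos.2 ha
        apply le_of_eq
        field_simp
        ring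

theorem vol_strip2 (c₀ c₁ w κ s : ℝ) (m : Fin 2 → ℤ) (hm : m ≠ 0) (hw : 0 ≤ w) (hκ : 0 ≤ κ) :
    volume {z : Fin 2 → ℝ | |z 0 - c₀| ≤ w ∧ |z 1 - c₁| ≤ w ∧ |z 0 * m 1 - z 1 * m 0 + s| < κ}
      ≤ ENNReal.ofReal (4 * w * κ / ((max |m 0| |m 1| : ℤ) : ℝ)) := by
  rw [Vol_fin_two]
  have hmax : max |m 0| |m 1| ≠ 0 := by
    intro h
    apply hm
    have h0 : |m 0| ≤ 0 := h ▸ le_max_left _ _
    have h1 : |m 1| ≤ 0 := h ▸ le_max_right _ _
    funext i
    fin_cases i
    · exact abs_nonpos_iff.1 h0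
    · exact abs_nonpos_iff.1 h1
  rcases le_total |m 0| |m 1| with h | h
  · -- `z 0` in an interval for fixed `z 1`; swap
    rw [max_eq_right h] at hmax ⊢
    have ha : (m 1 : ℝ) ≠ 0 := by
      intro h0
      apply hmax
      have : m 1 = 0 := by exact_mod_cast h0
      rw [this, abs_zero]
    have hsw : (volume : Measure (ℝ × ℝ)) (Prod.swap ⁻¹'
        {p | |p.1 - c₁| ≤ w ∧ |(m 1 : ℝ) * p.2 - ((m 0 : ℝ) * p.1 + (-s))| < κ})
        = volume {p : ℝ × ℝ | |p.1 - c₁| ≤ w ∧
            |(m 1 : ℝ) * p.2 - ((m 0 : ℝ) * p.1 + (-s))| < κ} := by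
      refine (Measure.measurePreserving_swap (μ := (volume : Measure ℝ))
        (ν := (volume : Measure ℝ))).measure_preimage ?_
      have h1 : Measurable fun p : ℝ × ℝ => |p.1 - c₁| := by fun_prop
      have h2 : Measurable fun p : ℝ × ℝ => |(m 1 : ℝ) * p.2 - ((m 0 : ℝ) * p.1 + (-s))| := by
        fun_prop
      exact ((measurableSet_le h1 measurable_const).inter
        (measurableSet_lt h2 measurable_const)).nullMeasurableSet
    refine le_trans (measure_mono (fun p hp => ?_)) (hsw.le.trans ?_)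
    · simp only [mem_ofPred_eq, Matrix.cons_val_zero, Matrix.cons_val_one] at hp
      refine ⟨hp.2.1, ?_⟩
      have : (m 1 : ℝ) * p.1 - ((m 0 : ℝ) * p.2 + (-s)) = p.1 * m 1 - p.2 * m 0 + s := by ring
      show |(m 1 : ℝ) * p.1 - ((m 0 : ℝ) * p.2 + (-s))| < κ
      rw [this]
      exact hp.2.2
    · refine (Vol_strip_aux c₁ w κ (m 1) (m 0) (-s) ha hκ).trans (le_of_eq ?_)
      congr 2
      push_cast
      rfl
  · rw [max_eq_left h] at hmax ⊢
    have ha : (m 0 : ℝ) ≠ 0 := by
      intro h0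
      apply hmax
      have : m 0 = 0 := by exact_mod_cast h0
      rw [this, abs_zero]
    refine le_trans (measure_mono (fun p hp => ?_))
      ((Vol_strip_aux c₀ w κ (m 0) (m 1) s ha hκ).trans (le_of_eq ?_))
    · simp only [mem_ofPred_eq, Matrix.cons_val_zero, Matrix.cons_val_one] at hp
      refine ⟨hp.1, ?_⟩
      have : (m 0 : ℝ) * p.2 - ((m 1 : ℝ) * p.1 + s) = -(p.1 * m 1 - p.2 * m 0 + s) := by ring
      rw [this, abs_neg]
      exact hp.2.2
    · congr 2
      push_cast
      rfl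

theorem Vol_sum_aux (Y : ℕ) :
    ∑ a ∈ Finset.Icc (-(Y : ℤ)) Y, ∑ b ∈ Finset.Icc (-(Y : ℤ)) Y,
      (if a ≠ 0 ∧ |b| ≤ |a| then (1 : ℝ) / ((|a| : ℤ) : ℝ) else 0) ≤ 6 * Y := by
  have h1 : ∀ a ∈ Finset.Icc (-(Y : ℤ)) Y, ∑ b ∈ Finset.Icc (-(Y : ℤ)) Y,
      (if a ≠ 0 ∧ |b| ≤ |a| then (1 : ℝ) / ((|a| : ℤ) : ℝ) else 0) ≤ if a ≠ 0 then 3 else 0 := by
    intro a _
    by_cases ha : a = 0
    · simp [ha]
    · rw [if_pos ha]
      have hpos : (1 : ℤ) ≤ |a| := Int.one_le_abs ha
      have hposR : (1 : ℝ) ≤ ((|a| : ℤ) : ℝ) := by exact_mod_cast hpos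
      have h2 : (Finset.Icc (-(Y : ℤ)) Y).filter (fun b => a ≠ 0 ∧ |b| ≤ |a|)
          ⊆ Finset.Icc (-|a|) |a| := by
        intro b hb
        rw [Finset.mem_filter] at hb
        rw [Finset.mem_Icc]
        exact abs_le.1 hb.2.2
      have h3 := Finset.card_le_card h2
      rw [← Finset.sum_filter, Finset.sum_const, nsmul_eq_mul]
      have h4 : (((Finset.Icc (-(Y : ℤ)) Y).filter (fun b => a ≠ 0 ∧ |b| ≤ |a|)).card : ℝ)
          ≤ 2 * ((|a| : ℤ) : ℝ) + 1 := by
        refine (Nat.cast_le.2 h3).trans ?_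
        rw [Int.card_Icc]
        have h5 : ((|a| + 1 - -|a|).toNat : ℤ) = 2 * |a| + 1 := by
          rw [Int.toNat_of_nonneg (by omega)]; ring
        have h6 : (((|a| + 1 - -|a|).toNat : ℤ) : ℝ) = 2 * ((|a| : ℤ) : ℝ) + 1 := by
          rw [h5]; push_cast; ring
        rw [← h6]
        push_cast
        exact le_refl _
      rw [mul_one_div, div_le_iff₀ (by linarith)]
      linarith
  refine (Finset.sum_le_sum h1).trans ?_
  rw [← Finset.sum_filter, Finset.sum_const, nsmul_eq_mul]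
  have h7 : (Finset.Icc (-(Y : ℤ)) Y).filter (fun a => a ≠ 0) = (Finset.Icc (-(Y : ℤ)) Y).erase 0 := by
    ext a; simp [and_comm]
  rw [h7, Finset.card_erase_of_mem (by simp), Int.card_Icc]
  have h8 : ((Y : ℤ) + 1 - -(Y : ℤ)).toNat - 1 = 2 * Y := by omega
  rw [h8]
  push_cast
  linarith

theorem sum_inv_box (Y : ℕ) :
    ∑ m ∈ (Fintype.piFinset (fun _ : Fin 2 => Finset.Icc (-(Y : ℤ)) Y)).erase 0,
      (1 : ℝ) / ((max |m 0| |m 1| : ℤ) : ℝ) ≤ 12 * Y := by
  set g : ℤ → ℤ → ℝ := fun a b =>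
    if a ≠ 0 ∧ |b| ≤ |a| then (1 : ℝ) / ((|a| : ℤ) : ℝ) else 0 with hg
  have hg0 : ∀ a b, 0 ≤ g a b := by
    intro a b
    simp only [hg]
    split_ifs
    · exact div_nonneg zero_le_one (by exact_mod_cast abs_nonneg a)
    · exact le_refl _
  have hterm : ∀ m ∈ (Fintype.piFinset (fun _ : Fin 2 => Finset.Icc (-(Y : ℤ)) Y)).erase 0,
      (1 : ℝ) / ((max |m 0| |m 1| : ℤ) : ℝ) ≤ g (m 0) (m 1) + g (m 1) (m 0) := by
    intro m hm
    have hm0 : m ≠ 0 := (Finset.mem_erase.1 hm).1
    rcases le_total |m 0| |m 1| with h | h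
    · rw [max_eq_right h]
      refine le_add_of_nonneg_of_le (hg0 _ _) ?_
      have : m 1 ≠ 0 := by
        intro h1
        apply hm0
        rw [h1, abs_zero] at h
        funext i
        fin_cases i
        · exact abs_nonpos_iff.1 h
        · exact h1
      simp only [hg]
      rw [if_pos ⟨this, h⟩]
    · rw [max_eq_left h]
      refine le_add_of_le_of_nonneg ?_ (hg0 _ _)
      have : m 0 ≠ 0 := by
        intro h1
        apply hm0
        rw [h1, abs_zero] at h
        funext i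
        fin_cases i
        · exact h1
        · exact abs_nonpos_iff.1 h
      simp only [hg]
      rw [if_pos ⟨this, h⟩]
  calc ∑ m ∈ (Fintype.piFinset (fun _ : Fin 2 => Finset.Icc (-(Y : ℤ)) Y)).erase 0,
      (1 : ℝ) / ((max |m 0| |m 1| : ℤ) : ℝ)
      ≤ ∑ m ∈ (Fintype.piFinset (fun _ : Fin 2 => Finset.Icc (-(Y : ℤ)) Y)).erase 0,
        (g (m 0) (m 1) + g (m 1) (m 0)) := Finset.sum_le_sum hterm
    _ ≤ ∑ m ∈ Fintype.piFinset (fun _ : Fin 2 => Finset.Icc (-(Y : ℤ)) Y),
        (g (m 0) (m 1) + g (m 1) (m 0)) :=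
        Finset.sum_le_sum_of_subset_of_nonneg (Finset.erase_subset _ _)
          (fun m _ _ => add_nonneg (hg0 _ _) (hg0 _ _))
    _ = ∑ p ∈ Finset.Icc (-(Y : ℤ)) Y ×ˢ Finset.Icc (-(Y : ℤ)) Y, (g p.1 p.2 + g p.2 p.1) := by
        refine Finset.sum_nbij' (fun m => (m 0, m 1)) (fun p => ![p.1, p.2]) ?_ ?_ ?_ ?_ ?_
        · intro m hm
          rw [Fintype.mem_piFinset] at hm
          exact Finset.mem_product.2 ⟨hm 0, hm 1⟩
        · intro p hp
          rw [Finset.mem_product] at hp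
          rw [Fintype.mem_piFinset]
          intro i
          fin_cases i
          · exact hp.1
          · exact hp.2
        · intro m _
          funext i
          fin_cases i <;> rfl
        · intro p _
          rfl
        · intro m _
          rfl
    _ = (∑ a ∈ Finset.Icc (-(Y : ℤ)) Y, ∑ b ∈ Finset.Icc (-(Y : ℤ)) Y, g a b)
        + ∑ b ∈ Finset.Icc (-(Y : ℤ)) Y, ∑ a ∈ Finset.Icc (-(Y : ℤ)) Y, g b a := by
        rw [Finset.sum_add_distrib, Finset.sum_product, Finset.sum_product_right]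
    _ ≤ 6 * Y + 6 * Y := add_le_add (Vol_sum_aux Y) (Vol_sum_aux Y)
    _ = 12 * Y := by ring

end MKG
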