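import Pool.Agent.MKG.Defs
import Pool.Agent.MKG.EQ
import Pool.Agent.MKG.Vol

/-! # Module HCount: counting pairs with small determinant, on average -/

open MeasureTheory Set Filter
open scoped BigOperators ENNReal Topology

namespace MKG

theorem hcount4 {Y : Type*} [MeasurableSpace Y] (μ : Measure Y) [IsFiniteMeasure μ]
    (ζ : Y → Fin 4 → ℝ) (hζ : Measurable ζ) (L : ℕ) (hL : 1 ≤ L)
    (hW : ∀ k : Fin 4 → ℤ, k ≠ 0 → (∀ i, |k i| < L) →
      ‖∫ y, e (∑ i, (k i : ℝ) * ζ y i) ∂μ‖ ≤ μ.real univ / (L : ℝ) ^ 4)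
    (U U' η : ℝ) (hU : 1 ≤ U) (hU' : 1 ≤ U') (hη : 0 < η) (hLη : U + U' + 1 ≤ L * η) :
    ∫⁻ y, ∑' n : Fin 4 → ℤ,
        (T4 U U' η).indicator (fun _ => (1 : ℝ≥0∞)) (ζ y + fun i => (n i : ℝ)) ∂μ
      ≤ ENNReal.ofReal (2 ^ 25 * η * U * U') * μ univ := by
  have hL1 : (1 : ℝ) ≤ L := by exact_mod_cast hL
  have hL0 : (0 : ℝ) < L := by linarith
  have hd : 1 / (8 * (L : ℝ)) ≤ 1 / 8 :=
    one_div_le_one_div_of_le (by norm_num) (by linarith)
  have hd0 : 0 < 1 / (8 * (L : ℝ)) := by positivity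
  have hdL : (1 / (8 * (L : ℝ))) * (U + U' + 1) ≤ η / 8 := by
    calc (1 / (8 * (L : ℝ))) * (U + U' + 1) ≤ (1 / (8 * (L : ℝ))) * (L * η) := by gcongr
      _ = η / 8 := by field_simp
  have h := eq_lemma μ ζ hζ L hL (by simpa using hW) (T4 U U' η) (T4 (U + 1) (U' + 1) (2 * η))
    (Vol_measurableSet_T4 _ _ _) (by
      rintro z ⟨h0, h1, h2, h3, h4⟩ ϑ hϑ
      set δ := 1 / (8 * (L : ℝ)) with hδ
      have hb : ∀ i, ∀ V : ℝ, |z i| ≤ V → |(z + ϑ) i| ≤ V + 1 := by
        intro i V hV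
        rw [Pi.add_apply]
        refine (abs_add_le _ _).trans ?_
        linarith [hϑ i]
      refine ⟨hb 0 U h0, hb 1 U h1, hb 2 U' h2, hb 3 U' h3, ?_⟩
      have e1 : (z + ϑ) 0 * (z + ϑ) 3 - (z + ϑ) 1 * (z + ϑ) 2
          = (z 0 * z 3 - z 1 * z 2) + (z 0 * ϑ 3) + (ϑ 0 * z 3) + (ϑ 0 * ϑ 3)
            + (-(z 1 * ϑ 2)) + (-(ϑ 1 * z 2)) + (-(ϑ 1 * ϑ 2)) := by
        simp only [Pi.add_apply]; ring
      have m1 : |z 0 * ϑ 3| ≤ U * δ := by
        rw [abs_mul]; exact mul_le_mul h0 (hϑ 3) (abs_nonneg _) (by linarith)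
      have m2 : |ϑ 0 * z 3| ≤ δ * U' := by
        rw [abs_mul]; exact mul_le_mul (hϑ 0) h3 (abs_nonneg _) hd0.le
      have m3 : |ϑ 0 * ϑ 3| ≤ δ * δ := by
        rw [abs_mul]; exact mul_le_mul (hϑ 0) (hϑ 3) (abs_nonneg _) hd0.le
      have m4 : |-(z 1 * ϑ 2)| ≤ U * δ := by
        rw [abs_neg, abs_mul]; exact mul_le_mul h1 (hϑ 2) (abs_nonneg _) (by linarith)
      have m5 : |-(ϑ 1 * z 2)| ≤ δ * U' := by
        rw [abs_neg, abs_mul]; exact mul_le_mul (hϑ 1) h2 (abs_nonneg _) hd0.le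
      have m6 : |-(ϑ 1 * ϑ 2)| ≤ δ * δ := by
        rw [abs_neg, abs_mul]; exact mul_le_mul (hϑ 1) (hϑ 2) (abs_nonneg _) hd0.le
      rw [e1]
      have hδδ : δ * δ ≤ δ * 1 := by gcongr; linarith
      have key : U * δ + δ * U' + δ * δ + U * δ + δ * U' + δ * δ ≤ η / 4 := by nlinarith
      rw [abs_lt] at h4 ⊢
      rw [abs_le] at m1 m2 m3 m4 m5 m6
      constructor <;> linarith [m1.1, m1.2, m2.1, m2.2, m3.1, m3.2, m4.1, m4.2, m5.1, m5.2,
        m6.1, m6.2, h4.1, h4.2])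
  refine h.trans ?_
  have hv := vol_T4 (U + 1) (U' + 1) (2 * η) (by linarith) (by linarith) (by linarith)
  calc 2 * 16 ^ (Fintype.card (Fin 4)) * μ univ * volume (T4 (U + 1) (U' + 1) (2 * η))
      ≤ 2 * 16 ^ (Fintype.card (Fin 4)) * μ univ *
          ENNReal.ofReal (32 * (2 * η) * (U + 1) * (U' + 1)) := by gcongr
    _ = ENNReal.ofReal (2 * 16 ^ 4 * (32 * (2 * η) * (U + 1) * (U' + 1))) * μ univ := by
        have : (2 : ℝ≥0∞) * 16 ^ 4 = ENNReal.ofReal (2 * 16 ^ 4) := by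
          rw [ENNReal.ofReal_mul (by norm_num), ENNReal.ofReal_pow (by norm_num)]; norm_num
        rw [Fintype.card_fin, this, ENNReal.ofReal_mul (p := 2 * 16 ^ 4) (by positivity)]
        ring
    _ ≤ ENNReal.ofReal (2 ^ 25 * η * U * U') * μ univ := by
        refine mul_le_mul_left (ENNReal.ofReal_le_ofReal ?_) _
        have h1 : (U + 1) * (U' + 1) ≤ (2 * U) * (2 * U') := by gcongr <;> linarith
        calc 2 * 16 ^ 4 * (32 * (2 * η) * (U + 1) * (U' + 1))
            = 2 ^ 23 * η * ((U + 1) * (U' + 1)) := by ring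
          _ ≤ 2 ^ 23 * η * ((2 * U) * (2 * U')) := by gcongr
          _ = 2 ^ 25 * η * U * U' := by ring


/-- Bezout parametrisation of `ℤ⁴`. -/
def HCount_equiv (α α' a b : ℤ) (h : a * α + b * α' = 1) :
    ((Fin 2 → ℤ) × (Fin 2 → ℤ)) ≃ (Fin 4 → ℤ) where
  toFun p := ![-b * p.1 0 + α * p.2 0, -b * p.1 1 + α * p.2 1,
    a * p.1 0 + α' * p.2 0, a * p.1 1 + α' * p.2 1]
  invFun n := (![α * n 2 - α' * n 0, α * n 3 - α' * n 1], ![b * n 2 + a * n 0, b * n 3 + a * n 1])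
  left_inv := by
    intro p
    refine Prod.ext ?_ ?_
    · funext i
      fin_cases i
      · show α * (a * p.1 0 + α' * p.2 0) - α' * (-b * p.1 0 + α * p.2 0) = p.1 0
        linear_combination (p.1 0) * h
      · show α * (a * p.1 1 + α' * p.2 1) - α' * (-b * p.1 1 + α * p.2 1) = p.1 1
        linear_combination (p.1 1) * h
    · funext i
      fin_cases i
      · show b * (a * p.1 0 + α' * p.2 0) + a * (-b * p.1 0 + α * p.2 0) = p.2 0
        linear_combination (p.2 0) * h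
      · show b * (a * p.1 1 + α' * p.2 1) + a * (-b * p.1 1 + α * p.2 1) = p.2 1
        linear_combination (p.2 1) * h
  right_inv := by
    intro n
    funext i
    fin_cases i
    · show -b * (α * n 2 - α' * n 0) + α * (b * n 2 + a * n 0) = n 0
      linear_combination (n 0) * h
    · show -b * (α * n 3 - α' * n 1) + α * (b * n 3 + a * n 1) = n 1
      linear_combination (n 1) * h
    · show a * (α * n 2 - α' * n 0) + α' * (b * n 2 + a * n 0) = n 2
      linear_combination (n 2) * h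
    · show a * (α * n 3 - α' * n 1) + α' * (b * n 3 + a * n 1) = n 3
      linear_combination (n 3) * h

/-- the slice `S_m`. -/
def HCount_S (α α' a b : ℤ) (U U' η : ℝ) (m : Fin 2 → ℤ) : Set (Fin 2 → ℝ) :=
  {z | (![α * z 0 - b * m 0, α * z 1 - b * m 1, α' * z 0 + a * m 0, α' * z 1 + a * m 1] :
    Fin 4 → ℝ) ∈ T4 U U' η}

theorem HCount_measurableSet_S (α α' a b : ℤ) (U U' η : ℝ) (m : Fin 2 → ℤ) :
    MeasurableSet (HCount_S α α' a b U U' η m) := by
  refine (?_ : Measurable fun z : Fin 2 → ℝ => (![α * z 0 - b * m 0, α * z 1 - b * m 1,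
    α' * z 0 + a * m 0, α' * z 1 + a * m 1] : Fin 4 → ℝ)) (Vol_measurableSet_T4 U U' η)
  refine measurable_pi_lambda _ fun i => ?_
  fin_cases i
  · show Measurable fun z : Fin 2 → ℝ => (α : ℝ) * z 0 - b * m 0
    fun_prop
  · show Measurable fun z : Fin 2 → ℝ => (α : ℝ) * z 1 - b * m 1
    fun_prop
  · show Measurable fun z : Fin 2 → ℝ => (α' : ℝ) * z 0 + a * m 0
    fun_prop
  · show Measurable fun z : Fin 2 → ℝ => (α' : ℝ) * z 1 + a * m 1
    fun_prop

/-- facts on points of the slice `S_m`. -/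
theorem HCount_mem_S {α α' a b : ℤ} (h : a * α + b * α' = 1) {U U' η : ℝ} {m : Fin 2 → ℤ}
    {z : Fin 2 → ℝ} (hz : z ∈ HCount_S α α' a b U U' η m) :
    (∀ i, |α * z i - b * m i| ≤ U) ∧ (∀ i, |α' * z i + a * m i| ≤ U') ∧
      |z 0 * m 1 - z 1 * m 0| < η := by
  obtain ⟨h0, h1, h2, h3, h4⟩ := hz
  refine ⟨?_, ?_, ?_⟩
  · intro i
    fin_cases i
    · exact h0
    · exact h1
  · intro i
    fin_cases i
    · exact h2
    · exact h3
  · have hR : (a : ℝ) * α + b * α' = 1 := by exact_mod_cast h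
    have : z 0 * m 1 - z 1 * m 0 = (α * z 0 - b * m 0) * (α' * z 1 + a * m 1)
        - (α * z 1 - b * m 1) * (α' * z 0 + a * m 0) := by
      linear_combination (-(z 0 * m 1 - z 1 * m 0)) * hR
    rw [this]
    exact h4

theorem HCount_slice {Y : Type*} [MeasurableSpace Y] (μ : Measure Y) [IsFiniteMeasure μ]
    (ζ : Y → Fin 2 → ℝ) (hζ : Measurable ζ) (L : ℕ) (hL : 1 ≤ L)
    (hW : ∀ k : Fin 2 → ℤ, k ≠ 0 → (∀ i, |k i| < L) →
      ‖∫ y, e (∑ i, (k i : ℝ) * ζ y i) ∂μ‖ ≤ μ.real univ / (L : ℝ) ^ 2)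
    (α α' a b : ℤ) (h : a * α + b * α' = 1)
    (U U' η : ℝ) (hη : 0 < η) (m : Fin 2 → ℤ) (hm : m ≠ 0)
    (c : Fin 2 → ℝ) (w : ℝ) (hw : 0 ≤ w)
    (hmL : ∀ i, |(m i : ℝ)| ≤ L * η)
    (hwL : 1 / (8 * (L : ℝ)) ≤ w / 2)
    (hc : ∀ z ∈ HCount_S α α' a b U U' η m, ∀ i, |z i - c i| ≤ w / 2) :
    ∫⁻ y, ∑' j : Fin 2 → ℤ,
        (HCount_S α α' a b U U' η m).indicator (fun _ => (1 : ℝ≥0∞)) (ζ y + fun i => (j i : ℝ)) ∂μ
      ≤ ENNReal.ofReal (2 * 16 ^ 2 * (8 * w * η) * (1 / ((max |m 0| |m 1| : ℤ) : ℝ))) * μ univ := by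
  have hL1 : (1 : ℝ) ≤ L := by exact_mod_cast hL
  have hL0 : (0 : ℝ) < L := by linarith
  have hmax : (0 : ℝ) ≤ ((max |m 0| |m 1| : ℤ) : ℝ) := by
    exact_mod_cast le_max_of_le_left (abs_nonneg _)
  set S' : Set (Fin 2 → ℝ) := {z : Fin 2 → ℝ | |z 0 - c 0| ≤ w ∧ |z 1 - c 1| ≤ w ∧
    |z 0 * m 1 - z 1 * m 0 + 0| < 2 * η} with hS'
  have hS'm : MeasurableSet S' := by
    have h1 : Measurable fun z : Fin 2 → ℝ => |z 0 - c 0| := by fun_prop
    have h2 : Measurable fun z : Fin 2 → ℝ => |z 1 - c 1| := by fun_prop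
    have h3 : Measurable fun z : Fin 2 → ℝ => |z 0 * m 1 - z 1 * m 0 + 0| := by fun_prop
    exact (measurableSet_le h1 measurable_const).inter
      ((measurableSet_le h2 measurable_const).inter (measurableSet_lt h3 measurable_const))
  have hkey := eq_lemma μ ζ hζ L hL (by simpa using hW) (HCount_S α α' a b U U' η m) S' hS'm (by
    intro z hz ϑ hϑ
    obtain ⟨-, -, h3⟩ := HCount_mem_S h hz
    have hci := hc z hz
    set δ := 1 / (8 * (L : ℝ)) with hδ
    have hd0 : 0 < δ := by positivity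
    have hb : ∀ i, |(z + ϑ) i - c i| ≤ w := by
      intro i
      rw [Pi.add_apply, add_sub_right_comm]
      refine (abs_add_le _ _).trans ?_
      linarith [hϑ i, hci i]
    refine ⟨hb 0, hb 1, ?_⟩
    have e1 : (z + ϑ) 0 * m 1 - (z + ϑ) 1 * m 0 + 0
        = (z 0 * m 1 - z 1 * m 0) + ϑ 0 * m 1 + (-(ϑ 1 * m 0)) := by
      simp only [Pi.add_apply]; ring
    have hδη : δ * (L * η) = η / 8 := by rw [hδ]; field_simp
    have m1 : |ϑ 0 * m 1| ≤ η / 8 := by
      rw [abs_mul, ← hδη]; exact mul_le_mul (hϑ 0) (hmL 1) (abs_nonneg _) hd0.le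
    have m2 : |-(ϑ 1 * m 0)| ≤ η / 8 := by
      rw [abs_neg, abs_mul, ← hδη]; exact mul_le_mul (hϑ 1) (hmL 0) (abs_nonneg _) hd0.le
    rw [e1]
    rw [abs_lt] at h3 ⊢
    rw [abs_le] at m1 m2
    constructor <;> linarith [m1.1, m1.2, m2.1, m2.2, h3.1, h3.2])
  refine hkey.trans ?_
  have hv := vol_strip2 (c 0) (c 1) w (2 * η) 0 m hm hw (by linarith)
  calc 2 * 16 ^ (Fintype.card (Fin 2)) * μ univ * volume S'
      ≤ 2 * 16 ^ (Fintype.card (Fin 2)) * μ univ *
          ENNReal.ofReal (4 * w * (2 * η) / ((max |m 0| |m 1| : ℤ) : ℝ)) := by gcongr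
    _ = ENNReal.ofReal (2 * 16 ^ 2 * (4 * w * (2 * η) / ((max |m 0| |m 1| : ℤ) : ℝ))) * μ univ := by
        have : (2 : ℝ≥0∞) * 16 ^ 2 = ENNReal.ofReal (2 * 16 ^ 2) := by
          rw [ENNReal.ofReal_mul (by norm_num), ENNReal.ofReal_pow (by norm_num)]; norm_num
        rw [Fintype.card_fin, this, ENNReal.ofReal_mul (p := 2 * 16 ^ 2) (by positivity)]
        ring
    _ = _ := by
        congr 2
        ring

theorem HCount_main {Y : Type*} [MeasurableSpace Y] (μ : Measure Y) [IsFiniteMeasure μ]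
    (ζ : Y → Fin 2 → ℝ) (hζ : Measurable ζ) (L : ℕ) (hL : 1 ≤ L)
    (hW : ∀ k : Fin 2 → ℤ, k ≠ 0 → (∀ i, |k i| < L) →
      ‖∫ y, e (∑ i, (k i : ℝ) * ζ y i) ∂μ‖ ≤ μ.real univ / (L : ℝ) ^ 2)
    (α α' a b : ℤ) (hα : 0 < α) (hα' : 0 < α') (h : a * α + b * α' = 1)
    (U U' η : ℝ) (hU : 1 ≤ U) (hU' : 1 ≤ U') (hη : 0 < η)
    (hLη : (α : ℝ) * U' + α' * U ≤ L * η)
    (c : (Fin 2 → ℤ) → Fin 2 → ℝ) (w : ℝ) (hw : 0 ≤ w)
    (hwL : 1 / (8 * (L : ℝ)) ≤ w / 2)
    (hwU : w * ((α : ℝ) * U' + α' * U) ≤ 4 * U * U')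
    (hc : ∀ m : Fin 2 → ℤ, ∀ z ∈ HCount_S α α' a b U U' η m, ∀ i, |z i - c m i| ≤ w / 2) :
    ∫⁻ y, ∑' n : Fin 4 → ℤ,
        {z : Fin 4 → ℝ | ¬ (α' * n 0 = α * n 2 ∧ α' * n 1 = α * n 3) ∧ z ∈ T4 U U' η}.indicator
          (fun _ => (1 : ℝ≥0∞))
          (![α * ζ y 0 + n 0, α * ζ y 1 + n 1, α' * ζ y 0 + n 2, α' * ζ y 1 + n 3]) ∂μ
      ≤ ENNReal.ofReal (2 ^ 25 * η * U * U') * μ univ := by
  have hαR : (0 : ℝ) < α := by exact_mod_cast hα
  have hα'R : (0 : ℝ) < α' := by exact_mod_cast hα'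
  set X : ℝ := (α : ℝ) * U' + α' * U with hX
  have hX0 : 0 < X := by positivity
  set N : ℕ := ⌊X⌋₊ with hN
  have hNX : (N : ℝ) ≤ X := Nat.floor_le hX0.le
  set B : Finset (Fin 2 → ℤ) :=
    (Fintype.piFinset (fun _ : Fin 2 => Finset.Icc (-(N : ℤ)) N)).erase 0 with hB
  -- pointwise identity
  have hpt : ∀ y, ∑' n : Fin 4 → ℤ,
        {z : Fin 4 → ℝ | ¬ (α' * n 0 = α * n 2 ∧ α' * n 1 = α * n 3) ∧ z ∈ T4 U U' η}.indicator
          (fun _ => (1 : ℝ≥0∞))
          (![α * ζ y 0 + n 0, α * ζ y 1 + n 1, α' * ζ y 0 + n 2, α' * ζ y 1 + n 3])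
      ≤ ∑ m ∈ B, ∑' j : Fin 2 → ℤ,
        (HCount_S α α' a b U U' η m).indicator (fun _ => (1 : ℝ≥0∞))
          (ζ y + fun i => (j i : ℝ)) := by
    intro y
    rw [← (HCount_equiv α α' a b h).tsum_eq, ENNReal.tsum_prod']
    have hterm : ∀ m j : Fin 2 → ℤ, {z : Fin 4 → ℝ |
        ¬ (α' * (HCount_equiv α α' a b h (m, j)) 0 = α * (HCount_equiv α α' a b h (m, j)) 2 ∧
          α' * (HCount_equiv α α' a b h (m, j)) 1 = α * (HCount_equiv α α' a b h (m, j)) 3)
          ∧ z ∈ T4 U U' η}.indicator (fun _ => (1 : ℝ≥0∞))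
          (![α * ζ y 0 + (HCount_equiv α α' a b h (m, j)) 0,
            α * ζ y 1 + (HCount_equiv α α' a b h (m, j)) 1,
            α' * ζ y 0 + (HCount_equiv α α' a b h (m, j)) 2,
            α' * ζ y 1 + (HCount_equiv α α' a b h (m, j)) 3])
        ≤ if m ∈ B then (HCount_S α α' a b U U' η m).indicator (fun _ => (1 : ℝ≥0∞))
          (ζ y + fun i => (j i : ℝ)) else 0 := by
      intro m j
      by_cases hmem : (![α * ζ y 0 + (HCount_equiv α α' a b h (m, j)) 0,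
            α * ζ y 1 + (HCount_equiv α α' a b h (m, j)) 1,
            α' * ζ y 0 + (HCount_equiv α α' a b h (m, j)) 2,
            α' * ζ y 1 + (HCount_equiv α α' a b h (m, j)) 3] : Fin 4 → ℝ) ∈ {z : Fin 4 → ℝ |
        ¬ (α' * (HCount_equiv α α' a b h (m, j)) 0 = α * (HCount_equiv α α' a b h (m, j)) 2 ∧
          α' * (HCount_equiv α α' a b h (m, j)) 1 = α * (HCount_equiv α α' a b h (m, j)) 3)
          ∧ z ∈ T4 U U' η}
      · rw [indicator_of_mem hmem]
        obtain ⟨hne, hT⟩ := hmem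
        have hS : (ζ y + fun i => (j i : ℝ)) ∈ HCount_S α α' a b U U' η m := by
          show _ ∈ T4 U U' η
          convert hT using 1
          funext i
          fin_cases i
          · simp [HCount_equiv]; ring
          · simp [HCount_equiv]; ring
          · simp [HCount_equiv]; ring
          · simp [HCount_equiv]; ring
        have hm0 : m ≠ 0 := by
          rintro rfl
          apply hne
          constructor
          · simp [HCount_equiv]; ring
          · simp [HCount_equiv]; ring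
        have hmB : m ∈ B := by
          rw [hB, Finset.mem_erase, Fintype.mem_piFinset]
          refine ⟨hm0, fun i => ?_⟩
          rw [Finset.mem_Icc]
          have hR : (a : ℝ) * α + b * α' = 1 := by exact_mod_cast h
          obtain ⟨h1, h2, -⟩ := HCount_mem_S h hS
          have h3 : |(m i : ℝ)| ≤ X := by
            have e1 : (m i : ℝ) = α * (α' * (ζ y + fun i => (j i : ℝ)) i + a * m i)
              + (-(α' * (α * (ζ y + fun i => (j i : ℝ)) i - b * m i))) := by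
              linear_combination (-(m i : ℝ)) * hR
            rw [e1]
            refine (abs_add_le _ _).trans ?_
            rw [abs_neg, abs_mul, abs_mul, abs_of_pos hαR, abs_of_pos hα'R, hX]
            exact add_le_add (mul_le_mul_of_nonneg_left (h2 i) hαR.le)
              (mul_le_mul_of_nonneg_left (h1 i) hα'R.le)
          have h4 : ((|m i|).toNat : ℝ) ≤ X := by
            have : ((|m i|).toNat : ℝ) = |(m i : ℝ)| := by
              have h5 : (((|m i|).toNat : ℤ) : ℝ) = ((|m i| : ℤ) : ℝ) := by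
                rw [Int.toNat_of_nonneg (abs_nonneg _)]
              rw [Int.cast_abs] at h5
              exact_mod_cast h5
            rw [this]; exact h3
          have h6 : (|m i|).toNat ≤ N := Nat.le_floor h4
          have h7 : |m i| ≤ N := by omega
          exact abs_le.1 h7
        rw [if_pos hmB, indicator_of_mem hS]
      · rw [indicator_of_notMem hmem]
        exact zero_le
    calc _ ≤ ∑' m : Fin 2 → ℤ, ∑' j : Fin 2 → ℤ,
          (if m ∈ B then (HCount_S α α' a b U U' η m).indicator (fun _ => (1 : ℝ≥0∞))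
          (ζ y + fun i => (j i : ℝ)) else 0) :=
          ENNReal.tsum_le_tsum fun m => ENNReal.tsum_le_tsum fun j => hterm m j
      _ = ∑ m ∈ B, ∑' j : Fin 2 → ℤ,
          (if m ∈ B then (HCount_S α α' a b U U' η m).indicator (fun _ => (1 : ℝ≥0∞))
          (ζ y + fun i => (j i : ℝ)) else 0) := by
          refine tsum_eq_sum fun m hm => ?_
          simp [hm]
      _ = _ := by
          refine Finset.sum_congr rfl fun m hm => ?_
          simp only [if_pos hm]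
  have hmeas : ∀ m : Fin 2 → ℤ, Measurable fun y => ∑' j : Fin 2 → ℤ,
        (HCount_S α α' a b U U' η m).indicator (fun _ => (1 : ℝ≥0∞))
          (ζ y + fun i => (j i : ℝ)) := by
    intro m
    refine Measurable.tsum fun j => ?_
    exact (measurable_const.indicator (HCount_measurableSet_S α α' a b U U' η m)).comp
      (hζ.add_const _)
  calc _ ≤ ∫⁻ y, ∑ m ∈ B, ∑' j : Fin 2 → ℤ,
        (HCount_S α α' a b U U' η m).indicator (fun _ => (1 : ℝ≥0∞))
          (ζ y + fun i => (j i : ℝ)) ∂μ := lintegral_mono hpt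
    _ = ∑ m ∈ B, ∫⁻ y, ∑' j : Fin 2 → ℤ,
        (HCount_S α α' a b U U' η m).indicator (fun _ => (1 : ℝ≥0∞))
          (ζ y + fun i => (j i : ℝ)) ∂μ := lintegral_finsetSum _ fun m _ => hmeas m
    _ ≤ ∑ m ∈ B, ENNReal.ofReal (2 * 16 ^ 2 * (8 * w * η) *
          (1 / ((max |m 0| |m 1| : ℤ) : ℝ))) * μ univ := by
        refine Finset.sum_le_sum fun m hm => ?_
        rw [hB, Finset.mem_erase, Fintype.mem_piFinset] at hm
        refine HCount_slice μ ζ hζ L hL hW α α' a b h U U' η hη m hm.1 (c m) w hw ?_ hwL (hc m)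
        intro i
        refine le_trans ?_ (hNX.trans hLη)
        have h1 : |m i| ≤ N := abs_le.2 (Finset.mem_Icc.1 (hm.2 i))
        exact_mod_cast h1
    _ = ENNReal.ofReal (2 * 16 ^ 2 * (8 * w * η) *
          ∑ m ∈ B, (1 / ((max |m 0| |m 1| : ℤ) : ℝ))) * μ univ := by
        rw [← Finset.sum_mul, ← ENNReal.ofReal_sum_of_nonneg, Finset.mul_sum]
        intro m _
        have : (0 : ℝ) ≤ ((max |m 0| |m 1| : ℤ) : ℝ) := by
          exact_mod_cast le_max_of_le_left (abs_nonneg _)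
        positivity
    _ ≤ _ := by
        refine mul_le_mul_left (ENNReal.ofReal_le_ofReal ?_) _
        calc 2 * 16 ^ 2 * (8 * w * η) * ∑ m ∈ B, (1 / ((max |m 0| |m 1| : ℤ) : ℝ))
            ≤ 2 * 16 ^ 2 * (8 * w * η) * (12 * N) := by
              gcongr
              exact sum_inv_box N
          _ ≤ 2 * 16 ^ 2 * (8 * w * η) * (12 * X) := by gcongr
          _ = 2 * 16 ^ 2 * 8 * 12 * η * (w * X) := by ring
          _ ≤ 2 * 16 ^ 2 * 8 * 12 * η * (4 * U * U') := by gcongr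
          _ ≤ 2 ^ 25 * η * U * U' := by
              have : 0 ≤ η * U * U' := by positivity
              nlinarith

theorem hcount2 {Y : Type*} [MeasurableSpace Y] (μ : Measure Y) [IsFiniteMeasure μ]
    (ζ : Y → Fin 2 → ℝ) (hζ : Measurable ζ) (L : ℕ) (hL : 1 ≤ L)
    (hW : ∀ k : Fin 2 → ℤ, k ≠ 0 → (∀ i, |k i| < L) →
      ‖∫ y, e (∑ i, (k i : ℝ) * ζ y i) ∂μ‖ ≤ μ.real univ / (L : ℝ) ^ 2)
    (α α' : ℤ) (hα : 0 < α) (hα' : 0 < α') (hco : IsCoprime α α')
    (hLα : α ≤ L) (hLα' : α' ≤ L)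
    (U U' η : ℝ) (hU : 1 ≤ U) (hU' : 1 ≤ U') (hη : 0 < η)
    (hLη : (α : ℝ) * U' + α' * U ≤ L * η) :
    ∫⁻ y, ∑' n : Fin 4 → ℤ,
        {z : Fin 4 → ℝ | ¬ (α' * n 0 = α * n 2 ∧ α' * n 1 = α * n 3) ∧ z ∈ T4 U U' η}.indicator
          (fun _ => (1 : ℝ≥0∞))
          (![α * ζ y 0 + n 0, α * ζ y 1 + n 1, α' * ζ y 0 + n 2, α' * ζ y 1 + n 3]) ∂μ
      ≤ ENNReal.ofReal (2 ^ 25 * η * U * U') * μ univ := by
  obtain ⟨a, b, h⟩ := hco
  have hL1 : (1 : ℝ) ≤ L := by exact_mod_cast hL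
  have hL0 : (0 : ℝ) < L := by linarith
  have hαR : (0 : ℝ) < α := by exact_mod_cast hα
  have hα'R : (0 : ℝ) < α' := by exact_mod_cast hα'
  have hLαR : (α : ℝ) ≤ L := by exact_mod_cast hLα
  have hLα'R : (α' : ℝ) ≤ L := by exact_mod_cast hLα'
  rcases le_total (α' * U) (α * U') with hc | hc
  · refine HCount_main μ ζ hζ L hL hW α α' a b hα hα' h U U' η hU hU' hη hLη
      (fun m i => b * m i / α) (2 * U / α) (by positivity) ?_ ?_ ?_
    · have h1 : 1 / (8 * (L : ℝ)) ≤ 1 / α := one_div_le_one_div_of_le hαR (by linarith)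
      refine h1.trans ?_
      rw [div_le_iff₀ hαR]
      have : 2 * U / α / 2 * α = U := by field_simp
      rw [this]; exact hU
    · have h1 : 2 * U / α * (α * U' + α' * U) = 2 * U * U' + 2 * U * ((α' * U) / α) := by
        field_simp
      rw [h1]
      have h2 : (α' * U) / α ≤ U' := by
        rw [div_le_iff₀ hαR]; linarith
      have h3 : 2 * U * ((α' * U) / α) ≤ 2 * U * U' := by gcongr
      linarith
    · intro m z hz i
      obtain ⟨h1, -, -⟩ := HCount_mem_S h hz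
      have h2 : z i - b * m i / α = (α * z i - b * m i) / α := by field_simp
      show |z i - b * m i / α| ≤ 2 * U / α / 2
      rw [h2, abs_div, abs_of_pos hαR]
      have h3 : 2 * U / α / 2 = U / α := by ring
      rw [h3]
      gcongr
      exact h1 i
  · refine HCount_main μ ζ hζ L hL hW α α' a b hα hα' h U U' η hU hU' hη hLη
      (fun m i => -(a * m i / α')) (2 * U' / α') (by positivity) ?_ ?_ ?_
    · have h1 : 1 / (8 * (L : ℝ)) ≤ 1 / α' := one_div_le_one_div_of_le hα'R (by linarith)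
      refine h1.trans ?_
      rw [div_le_iff₀ hα'R]
      have : 2 * U' / α' / 2 * α' = U' := by field_simp
      rw [this]; exact hU'
    · have h1 : 2 * U' / α' * (α * U' + α' * U) = 2 * U' * ((α * U') / α') + 2 * U * U' := by
        field_simp
      rw [h1]
      have h2 : (α * U') / α' ≤ U := by
        rw [div_le_iff₀ hα'R]; linarith
      have h3 : 2 * U' * ((α * U') / α') ≤ 2 * U' * U := by gcongr
      linarith
    · intro m z hz i
      obtain ⟨-, h1, -⟩ := HCount_mem_S h hz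
      have h2 : z i - -(a * m i / α') = (α' * z i + a * m i) / α' := by field_simp; ring
      show |z i - -(a * m i / α')| ≤ 2 * U' / α' / 2
      rw [h2, abs_div, abs_of_pos hα'R]
      have h3 : 2 * U' / α' / 2 = U' / α' := by ring
      rw [h3]
      gcongr
      exact h1 i

end MKG
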