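import Pool.Agent.MKG.Defs
import Pool.Agent.MKG.Exp
import Pool.Agent.MKG.HCount
import Pool.Agent.MKG.RegimeI

/-! # Module RegimeII -/

open MeasureTheory Set Filter
open scoped BigOperators ENNReal Topology

namespace MKG

/-- Basic facts on a cell. -/
theorem RegimeII_cell {A B : ℝ} {N : ℕ} (hN : 1 ≤ N) {g : Cell} (hg : CellOK A B N g) {t : ℝ}
    (ht : t ∈ cellInt g) :
    (0 : ℝ) < g.1.1 ∧ (0 : ℝ) < g.2.1 ∧ (g.1.1 : ℝ) * g.2.2 - g.2.1 * g.1.2 = 1 ∧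
    0 ≤ t * g.1.1 - g.1.2 ∧ 0 < g.2.2 - t * g.2.1 ∧
    (g.1.2 : ℝ) / g.1.1 ∈ Icc A B ∧ (g.2.2 : ℝ) / g.2.1 ∈ Icc A B ∧ t ∈ Icc A B := by
  obtain ⟨uni, lo₁, hi₁, lo₂, hi₂, hl, hr⟩ := hg
  obtain ⟨ht1, ht2⟩ := ht
  have hq₁R : (0 : ℝ) < g.1.1 := by
    have : (0 : ℤ) < g.1.1 := by omega
    exact_mod_cast this
  have hq₂R : (0 : ℝ) < g.2.1 := by
    have : (0 : ℤ) < g.2.1 := by omega
    exact_mod_cast this
  refine ⟨hq₁R, hq₂R, by exact_mod_cast uni, ?_, ?_, ⟨hl, by linarith⟩, ⟨by linarith, hr⟩,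
    ⟨by linarith, by linarith⟩⟩
  · rw [div_le_iff₀ hq₁R] at ht1; linarith
  · rw [lt_div_iff₀ hq₂R] at ht2; linarith

theorem RegimeII_lip {m : ℕ} {A B M : ℝ} {G G' : ℝ → Fin m → ℝ} (hG : IsCurve A B M G G')
    (hM : 1 ≤ M) {t u : ℝ} (ht : t ∈ Icc A B) (hu : u ∈ Icc A B) (j : Fin m) :
    |G u j - G t j| ≤ M * (1 + (B - A)) * |u - t| := by
  have hut : |u - t| ≤ B - A := by
    rw [abs_le]; constructor <;> linarith [ht.1, ht.2, hu.1, hu.2]
  have h2 := hG.qr t ht u hu j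
  have h3 := hG.bd' t ht j
  have h4 : G u j - G t j = (G u j - G t j - (u - t) * G' t j) + (u - t) * G' t j := by ring
  rw [h4]
  refine (abs_add_le _ _).trans ?_
  rw [abs_mul (u - t)]
  have h5 : |u - t| * |G' t j| ≤ |u - t| * M := mul_le_mul_of_nonneg_left h3 (abs_nonneg _)
  have h6 : M * (u - t) ^ 2 ≤ M * ((B - A) * |u - t|) := by
    rw [← sq_abs, sq]
    have : |u - t| * |u - t| ≤ (B - A) * |u - t| := mul_le_mul_of_nonneg_right hut (abs_nonneg _)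
    exact mul_le_mul_of_nonneg_left this (by linarith)
  calc |G u j - G t j - (u - t) * G' t j| + |u - t| * |G' t j|
      ≤ M * ((B - A) * |u - t|) + |u - t| * M := add_le_add (h2.trans h6) h5
    _ = M * (1 + (B - A)) * |u - t| := by ring

theorem RegimeII_geom {m : ℕ} {A B M : ℝ} {G G' : ℝ → Fin m → ℝ} (hG : IsCurve A B M G G')
    (hM : 1 ≤ M) {N : ℕ} (hN : 1 ≤ N) {g : Cell} (hg : CellOK A B N g) {t : ℝ}
    (ht : t ∈ cellInt g) (a : Fin m → ℤ) (Q : ℝ) (hQ : ∀ j, |(a j : ℝ)| ≤ Q)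
    (p r : ℤ) :
    |(g.2.2 - t * g.2.1) * (dot a (psi G g.1) + ((p * g.1.1 + r * g.1.2 : ℤ) : ℝ))
      + (t * g.1.1 - g.1.2) * (dot a (psi G g.2) + ((p * g.2.1 + r * g.2.2 : ℤ) : ℝ))
      - lin G (p, r, a) t| ≤ m * Q * M / (16 * (N : ℝ) ^ 4) ∧
    |(g.1.1 : ℝ) * (dot a (psi G g.2) + ((p * g.2.1 + r * g.2.2 : ℤ) : ℝ))
      - g.2.1 * (dot a (psi G g.1) + ((p * g.1.1 + r * g.1.2 : ℤ) : ℝ)) - r|
      ≤ m * Q * (M * (1 + (B - A))) := by
  have hM0 : 0 ≤ M := by linarith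
  obtain ⟨hq₁, hq₂, uni, hl₂, hl₁, ht₁, ht₂, htt⟩ := RegimeII_cell hN hg ht
  have hN0 : (0 : ℝ) < N := by exact_mod_cast hN
  have hlo₁ : 2 * (N : ℝ) ≤ g.1.1 := by exact_mod_cast hg.lo₁
  have hlo₂ : 2 * (N : ℝ) ≤ g.2.1 := by exact_mod_cast hg.lo₂
  set q₁ : ℝ := (g.1.1 : ℝ) with hq₁d
  set b₁ : ℝ := (g.1.2 : ℝ) with hb₁d
  set q₂ : ℝ := (g.2.1 : ℝ) with hq₂d
  set b₂ : ℝ := (g.2.2 : ℝ) with hb₂d
  have hqq : 0 < q₁ * q₂ := by positivity
  have hqq4 : 4 * (N : ℝ) ^ 2 ≤ q₁ * q₂ := by nlinarith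
  have hdiff : b₂ / q₂ - b₁ / q₁ = 1 / (q₁ * q₂) := by
    field_simp
    linarith
  have hBA : 0 ≤ B - A := by linarith [ht₁.1, ht₁.2]
  have e1 : dot a (psi G g.1) = q₁ * dot a (G (b₁ / q₁)) := dot_psi a G g.1
  have e2 : dot a (psi G g.2) = q₂ * dot a (G (b₂ / q₂)) := dot_psi a G g.2
  have hinv : 1 / (q₁ * q₂) ≤ 1 / (4 * (N : ℝ) ^ 2) :=
    one_div_le_one_div_of_le (by positivity) hqq4
  have hinv0 : 0 < 1 / (q₁ * q₂) := by positivity
  obtain ⟨ht1, ht2⟩ := ht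
  constructor
  · have w : (b₂ - t * q₂) * q₁ + (t * q₁ - b₁) * q₂ = 1 := by linear_combination uni
    set R₁ : Fin m → ℝ := fun j => G (b₁ / q₁) j - G t j - (b₁ / q₁ - t) * G' t j with hR₁
    set R₂ : Fin m → ℝ := fun j => G (b₂ / q₂) j - G t j - (b₂ / q₂ - t) * G' t j with hR₂
    have hd₁ : dot a R₁ = dot a (G (b₁ / q₁)) - dot a (G t) - (b₁ / q₁ - t) * dot a (G' t) := by
      simp only [hR₁, dot, Finset.mul_sum, ← Finset.sum_sub_distrib]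
      exact Finset.sum_congr rfl fun j _ => by ring
    have hd₂ : dot a R₂ = dot a (G (b₂ / q₂)) - dot a (G t) - (b₂ / q₂ - t) * dot a (G' t) := by
      simp only [hR₂, dot, Finset.mul_sum, ← Finset.sum_sub_distrib]
      exact Finset.sum_congr rfl fun j _ => by ring
    have hlin : lin G (p, r, a) t = p + r * t + dot a (G t) := rfl
    have key : (b₂ - t * q₂) * (dot a (psi G g.1) + ((p * g.1.1 + r * g.1.2 : ℤ) : ℝ))
      + (t * q₁ - b₁) * (dot a (psi G g.2) + ((p * g.2.1 + r * g.2.2 : ℤ) : ℝ))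
      - lin G (p, r, a) t = ((b₂ - t * q₂) * q₁) * dot a R₁ + ((t * q₁ - b₁) * q₂) * dot a R₂ := by
      rw [e1, e2, hd₁, hd₂, hlin]
      push_cast
      rw [← hq₁d, ← hb₁d, ← hq₂d, ← hb₂d]
      have f1 : b₁ / q₁ * q₁ = b₁ := div_mul_cancel₀ _ hq₁.ne'
      have f2 : b₂ / q₂ * q₂ = b₂ := div_mul_cancel₀ _ hq₂.ne'
      have g1 : ((b₂ - t * q₂) * q₁) * ((b₁ / q₁ - t) * dot a (G' t))
          = (b₂ - t * q₂) * (b₁ - t * q₁) * dot a (G' t) := by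
        linear_combination ((b₂ - t * q₂) * dot a (G' t)) * f1
      have g2 : ((t * q₁ - b₁) * q₂) * ((b₂ / q₂ - t) * dot a (G' t))
          = (t * q₁ - b₁) * (b₂ - t * q₂) * dot a (G' t) := by
        linear_combination ((t * q₁ - b₁) * dot a (G' t)) * f2
      linear_combination (p + dot a (G t)) * w + (r * t) * uni + g1 + g2
    rw [key]
    have hw₁ : 0 ≤ (b₂ - t * q₂) * q₁ := by positivity
    have hw₂ : 0 ≤ (t * q₁ - b₁) * q₂ := by positivity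
    have hsq₁ : (b₁ / q₁ - t) ^ 2 ≤ (1 / (4 * (N : ℝ) ^ 2)) ^ 2 := by
      apply sq_le_sq' <;> linarith
    have hsq₂ : (b₂ / q₂ - t) ^ 2 ≤ (1 / (4 * (N : ℝ) ^ 2)) ^ 2 := by
      apply pow_le_pow_left₀ (by linarith)
      linarith
    have hr₁ : |dot a R₁| ≤ m * Q * (M * (1 / (4 * (N : ℝ) ^ 2)) ^ 2) :=
      abs_dot_le a R₁ hQ fun j => (hG.qr t htt _ ht₁ j).trans (by gcongr)
    have hr₂ : |dot a R₂| ≤ m * Q * (M * (1 / (4 * (N : ℝ) ^ 2)) ^ 2) :=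
      abs_dot_le a R₂ hQ fun j => (hG.qr t htt _ ht₂ j).trans (by gcongr)
    calc |((b₂ - t * q₂) * q₁) * dot a R₁ + ((t * q₁ - b₁) * q₂) * dot a R₂|
        ≤ ((b₂ - t * q₂) * q₁) * |dot a R₁| + ((t * q₁ - b₁) * q₂) * |dot a R₂| := by
          refine (abs_add_le _ _).trans (le_of_eq ?_)
          rw [abs_mul ((b₂ - t * q₂) * q₁), abs_mul ((t * q₁ - b₁) * q₂), abs_of_nonneg hw₁,
            abs_of_nonneg hw₂]
      _ ≤ ((b₂ - t * q₂) * q₁) * (m * Q * (M * (1 / (4 * (N : ℝ) ^ 2)) ^ 2))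
          + ((t * q₁ - b₁) * q₂) * (m * Q * (M * (1 / (4 * (N : ℝ) ^ 2)) ^ 2)) := by gcongr
      _ = m * Q * M / (16 * (N : ℝ) ^ 4) := by
          rw [← add_mul, w]
          field_simp
          norm_num
  · have hb : |dot a (G (b₂ / q₂) - G (b₁ / q₁))|
        ≤ m * Q * (M * (1 + (B - A)) * |b₂ / q₂ - b₁ / q₁|) :=
      abs_dot_le a _ hQ fun j => RegimeII_lip hG hM ht₁ ht₂ j
    have key : q₁ * (dot a (psi G g.2) + ((p * g.2.1 + r * g.2.2 : ℤ) : ℝ))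
      - q₂ * (dot a (psi G g.1) + ((p * g.1.1 + r * g.1.2 : ℤ) : ℝ)) - r
      = q₁ * q₂ * dot a (G (b₂ / q₂) - G (b₁ / q₁)) := by
      rw [e1, e2, dot_sub_right]
      push_cast
      rw [← hq₁d, ← hb₁d, ← hq₂d, ← hb₂d]
      linear_combination (r : ℝ) * uni
    rw [key, abs_mul, abs_of_pos hqq]
    rw [hdiff, abs_of_pos hinv0] at hb
    calc q₁ * q₂ * |dot a (G (b₂ / q₂) - G (b₁ / q₁))|
        ≤ q₁ * q₂ * (m * Q * (M * (1 + (B - A)) * (1 / (q₁ * q₂)))) := by gcongr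
      _ = m * Q * (M * (1 + (B - A))) := by field_simp


theorem RegimeII_u_bound (q₁ q₂ l₁ l₂ u₁ u₂ σ δ n : ℝ) (hn : 0 < n) (h1 : 2 * n ≤ q₁)
    (h1' : q₁ ≤ 27 * n) (h2 : 2 * n ≤ q₂) (h2' : q₂ ≤ 27 * n) (hl₁ : 0 ≤ l₁) (hl₂ : 0 ≤ l₂)
    (w : l₁ * q₁ + l₂ * q₂ = 1) (hs : |l₁ * u₁ + l₂ * u₂| ≤ σ) (hD : |q₁ * u₂ - q₂ * u₁| ≤ δ) :
    |u₁| ≤ 27 * n * σ + δ / (2 * n) ∧ |u₂| ≤ 27 * n * σ + δ / (2 * n) := by
  have hδ : 0 ≤ δ := (abs_nonneg _).trans hD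
  have hσ : 0 ≤ σ := (abs_nonneg _).trans hs
  have a1 : l₂ ≤ 1 / (2 * n) := by
    rw [le_div_iff₀ (by linarith)]
    nlinarith [mul_nonneg hl₁ (by linarith : (0 : ℝ) ≤ q₁)]
  have a2 : l₁ ≤ 1 / (2 * n) := by
    rw [le_div_iff₀ (by linarith)]
    nlinarith [mul_nonneg hl₂ (by linarith : (0 : ℝ) ≤ q₂)]
  have hq₁ : 0 ≤ q₁ := by linarith
  have hq₂ : 0 ≤ q₂ := by linarith
  constructor
  · have e1 : u₁ = (l₁ * u₁ + l₂ * u₂) * q₁ + (-((q₁ * u₂ - q₂ * u₁) * l₂)) := by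
      linear_combination (-u₁) * w
    calc |u₁| = |(l₁ * u₁ + l₂ * u₂) * q₁ + (-((q₁ * u₂ - q₂ * u₁) * l₂))| := by rw [← e1]
      _ ≤ |l₁ * u₁ + l₂ * u₂| * q₁ + |q₁ * u₂ - q₂ * u₁| * l₂ := by
          refine (abs_add_le _ _).trans (le_of_eq ?_)
          rw [abs_neg, abs_mul, abs_mul (q₁ * u₂ - q₂ * u₁), abs_of_nonneg hq₁, abs_of_nonneg hl₂]
      _ ≤ σ * (27 * n) + δ * (1 / (2 * n)) := by gcongr
      _ = _ := by ring
  · have e1 : u₂ = (l₁ * u₁ + l₂ * u₂) * q₂ + (q₁ * u₂ - q₂ * u₁) * l₁ := by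
      linear_combination (-u₂) * w
    calc |u₂| = |(l₁ * u₁ + l₂ * u₂) * q₂ + (q₁ * u₂ - q₂ * u₁) * l₁| := by rw [← e1]
      _ ≤ |l₁ * u₁ + l₂ * u₂| * q₂ + |q₁ * u₂ - q₂ * u₁| * l₁ := by
          refine (abs_add_le _ _).trans (le_of_eq ?_)
          rw [abs_mul, abs_mul (q₁ * u₂ - q₂ * u₁), abs_of_nonneg hq₂, abs_of_nonneg hl₁]
      _ ≤ σ * (27 * n) + δ * (1 / (2 * n)) := by gcongr
      _ = _ := by ring

/-- integer coordinates of `(p, r, p', r')` in the cell `g`. -/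
def RegimeII_n (g : Cell) (x : (ℤ × ℤ) × (ℤ × ℤ)) : Fin 4 → ℤ :=
  ![x.1.1 * g.1.1 + x.1.2 * g.1.2, x.1.1 * g.2.1 + x.1.2 * g.2.2,
    x.2.1 * g.1.1 + x.2.2 * g.1.2, x.2.1 * g.2.1 + x.2.2 * g.2.2]

theorem RegimeII_n_inj (g : Cell) (hg : g.1.1 * g.2.2 - g.2.1 * g.1.2 = 1) :
    Function.Injective (RegimeII_n g) := by
  intro x y h
  have h0 : x.1.1 * g.1.1 + x.1.2 * g.1.2 = y.1.1 * g.1.1 + y.1.2 * g.1.2 := congrFun h 0
  have h1 : x.1.1 * g.2.1 + x.1.2 * g.2.2 = y.1.1 * g.2.1 + y.1.2 * g.2.2 := congrFun h 1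
  have h2 : x.2.1 * g.1.1 + x.2.2 * g.1.2 = y.2.1 * g.1.1 + y.2.2 * g.1.2 := congrFun h 2
  have h3 : x.2.1 * g.2.1 + x.2.2 * g.2.2 = y.2.1 * g.2.1 + y.2.2 * g.2.2 := congrFun h 3
  refine Prod.ext (Prod.ext ?_ ?_) (Prod.ext ?_ ?_)
  · linear_combination (-x.1.1 + y.1.1) * hg + g.2.2 * h0 - g.1.2 * h1
  · linear_combination (-x.1.2 + y.1.2) * hg + g.1.1 * h1 - g.2.1 * h0
  · linear_combination (-x.2.1 + y.2.1) * hg + g.2.2 * h2 - g.1.2 * h3
  · linear_combination (-x.2.2 + y.2.2) * hg + g.1.1 * h3 - g.2.1 * h2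

/-- the real vector in the cell `g`. -/
noncomputable def RegimeII_vec {m : ℕ} (G : ℝ → Fin m → ℝ) (g : Cell) (a a' : Fin m → ℤ)
    (n : Fin 4 → ℤ) : Fin 4 → ℝ :=
  ![dot a (psi G g.1) + n 0, dot a (psi G g.2) + n 1,
    dot a' (psi G g.1) + n 2, dot a' (psi G g.2) + n 3]

theorem RegimeII_memT4 {m : ℕ} {A B M : ℝ} {G G' : ℝ → Fin m → ℝ} (hG : IsCurve A B M G G')
    (hM : 1 ≤ M) {N N' : ℕ} (hN' : 1 ≤ N') (hNN : N' ≤ N) {g : Cell} (hg : CellOK A B N' g)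
    {t : ℝ} (ht : t ∈ cellInt g) (a a' : Fin m → ℤ) (Q : ℝ) (hQ : ∀ j, |(a j : ℝ)| ≤ Q)
    (hQ' : ∀ j, |(a' j : ℝ)| ≤ Q) (p r p' r' : ℤ) (hr : |(r : ℝ)| ≤ 500 * N)
    (hr' : |(r' : ℝ)| ≤ 500 * N') {ψ ψ' : ℝ} (hψ0 : 0 < ψ) (hψ'0 : 0 < ψ')
    (hψ : ψ * N ≤ 1 / 8) (hψ' : ψ' * N' ≤ 1 / 8)
    (herr : m * Q * M / (16 * (N' : ℝ) ^ 4) ≤ ψ) (herr' : m * Q * M / (16 * (N' : ℝ) ^ 4) ≤ ψ')
    (hE : m * Q * (M * (1 + (B - A))) ≤ N' / 2)
    (h1 : |lin G (p, r, a) t| < ψ) (h2 : |lin G (p', r', a') t| < ψ') :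
    RegimeII_vec G g a a' (RegimeII_n g ((p, r), (p', r')))
      ∈ T4 (258 * (N / N')) 258 (1002 * (ψ * N' + ψ' * N)) := by
  have hN'0 : (0 : ℝ) < N' := by exact_mod_cast hN'
  have hNNR : (N' : ℝ) ≤ N := by exact_mod_cast hNN
  have hN0 : (0 : ℝ) < N := by linarith
  have hratio : (1 : ℝ) ≤ N / N' := by rw [le_div_iff₀ hN'0]; linarith
  obtain ⟨hq₁, hq₂, uni, hl₂, hl₁, ht₁, ht₂, htt⟩ := RegimeII_cell hN' hg ht
  have hlo₁ : 2 * (N' : ℝ) ≤ g.1.1 := by exact_mod_cast hg.lo₁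
  have hlo₂ : 2 * (N' : ℝ) ≤ g.2.1 := by exact_mod_cast hg.lo₂
  have hhi₁ : (g.1.1 : ℝ) ≤ 27 * N' := by exact_mod_cast hg.hi₁
  have hhi₂ : (g.2.1 : ℝ) ≤ 27 * N' := by exact_mod_cast hg.hi₂
  obtain ⟨s1, d1⟩ := RegimeII_geom hG hM hN' hg ht a Q hQ p r
  obtain ⟨s2, d2⟩ := RegimeII_geom hG hM hN' hg ht a' Q hQ' p' r'
  set u₁ : ℝ := dot a (psi G g.1) + ((p * g.1.1 + r * g.1.2 : ℤ) : ℝ) with hu₁
  set u₂ : ℝ := dot a (psi G g.2) + ((p * g.2.1 + r * g.2.2 : ℤ) : ℝ) with hu₂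
  set v₁ : ℝ := dot a' (psi G g.1) + ((p' * g.1.1 + r' * g.1.2 : ℤ) : ℝ) with hv₁
  set v₂ : ℝ := dot a' (psi G g.2) + ((p' * g.2.1 + r' * g.2.2 : ℤ) : ℝ) with hv₂
  set q₁ : ℝ := (g.1.1 : ℝ) with hq₁d
  set b₁ : ℝ := (g.1.2 : ℝ) with hb₁d
  set q₂ : ℝ := (g.2.1 : ℝ) with hq₂d
  set b₂ : ℝ := (g.2.2 : ℝ) with hb₂d
  set l₁ : ℝ := b₂ - t * q₂ with hl₁d
  set l₂ : ℝ := t * q₁ - b₁ with hl₂d
  have w : l₁ * q₁ + l₂ * q₂ = 1 := by rw [hl₁d, hl₂d]; linear_combination uni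
  have hs : |l₁ * u₁ + l₂ * u₂| < 2 * ψ := by
    have := abs_add_le (l₁ * u₁ + l₂ * u₂ - lin G (p, r, a) t) (lin G (p, r, a) t)
    rw [sub_add_cancel] at this
    linarith
  have hs' : |l₁ * v₁ + l₂ * v₂| < 2 * ψ' := by
    have := abs_add_le (l₁ * v₁ + l₂ * v₂ - lin G (p', r', a') t) (lin G (p', r', a') t)
    rw [sub_add_cancel] at this
    linarith
  have hd : |q₁ * u₂ - q₂ * u₁| ≤ 1001 / 2 * N := by
    have := abs_add_le (q₁ * u₂ - q₂ * u₁ - r) (r : ℝ)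
    rw [sub_add_cancel] at this
    linarith
  have hd' : |q₁ * v₂ - q₂ * v₁| ≤ 1001 / 2 * N' := by
    have := abs_add_le (q₁ * v₂ - q₂ * v₁ - r') (r' : ℝ)
    rw [sub_add_cancel] at this
    linarith
  obtain ⟨c1, c2⟩ := RegimeII_u_bound q₁ q₂ l₁ l₂ u₁ u₂ (2 * ψ) (1001 / 2 * N) N' hN'0 hlo₁ hhi₁
    hlo₂ hhi₂ hl₁.le hl₂ w hs.le hd
  obtain ⟨c3, c4⟩ := RegimeII_u_bound q₁ q₂ l₁ l₂ v₁ v₂ (2 * ψ') (1001 / 2 * N') N' hN'0 hlo₁ hhi₁
    hlo₂ hhi₂ hl₁.le hl₂ w hs'.le hd'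
  have b1 : 27 * (N' : ℝ) * (2 * ψ) + 1001 / 2 * N / (2 * N') ≤ 258 * (N / N') := by
    have e1 : 1001 / 2 * (N : ℝ) / (2 * N') = 1001 / 4 * (N / N') := by
      field_simp
      norm_num
    rw [e1]
    have e2 : (N' : ℝ) * ψ ≤ 1 / 8 := by
      calc (N' : ℝ) * ψ ≤ N * ψ := by gcongr
        _ = ψ * N := mul_comm _ _
        _ ≤ 1 / 8 := hψ
    linarith
  have b2 : 27 * (N' : ℝ) * (2 * ψ') + 1001 / 2 * N' / (2 * N') ≤ 258 := by
    have e1 : 1001 / 2 * (N' : ℝ) / (2 * N') = 1001 / 4 := by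
      field_simp
      norm_num
    rw [e1]
    linarith
  have hT : |u₁ * v₂ - u₂ * v₁| < 1002 * (ψ * N' + ψ' * N) := by
    have e1 : u₁ * v₂ - u₂ * v₁ = (l₁ * u₁ + l₂ * u₂) * (q₁ * v₂ - q₂ * v₁)
        + (-((l₁ * v₁ + l₂ * v₂) * (q₁ * u₂ - q₂ * u₁))) := by
      linear_combination (-(u₁ * v₂ - u₂ * v₁)) * w
    rw [e1]
    refine (abs_add_le _ _).trans_lt ?_
    rw [abs_neg, abs_mul, abs_mul]
    have f1 : |l₁ * u₁ + l₂ * u₂| * |q₁ * v₂ - q₂ * v₁| ≤ (2 * ψ) * (1001 / 2 * N') := by gcongr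
    have f2 : |l₁ * v₁ + l₂ * v₂| * |q₁ * u₂ - q₂ * u₁| ≤ (2 * ψ') * (1001 / 2 * N) := by gcongr
    have f3 : 0 < ψ * N' := by positivity
    have f4 : 0 < ψ' * N := by positivity
    have f5 : (2 * ψ) * (1001 / 2 * (N' : ℝ)) = 1001 * (ψ * N') := by ring
    have f6 : (2 * ψ') * (1001 / 2 * (N : ℝ)) = 1001 * (ψ' * N) := by ring
    have f7 : 1002 * (ψ * (N' : ℝ) + ψ' * N) = 1002 * (ψ * N') + 1002 * (ψ' * N) := by ring
    rw [f5] at f1
    rw [f6] at f2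
    rw [f7]
    exact (add_le_add f1 f2).trans_lt (by linarith)
  exact ⟨c1.trans b1, c2.trans b1, c3.trans b2, c4.trans b2, hT⟩


/-! ### The measure space `cells × Ω` -/
section measure
variable {Ω : Type*} [MeasurableSpace Ω]

/-- counting measure on the cells times `ν`. -/
noncomputable def RegimeII_mu (I : Finset (Cell × Cell)) (ν : Measure Ω) :
    Measure ((Cell × Cell) × Ω) := ∑ i ∈ I, ν.map (Prod.mk i)

theorem RegimeII_lint (I : Finset (Cell × Cell)) (ν : Measure Ω) (f : (Cell × Cell) × Ω → ℝ≥0∞)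
    (hf : Measurable f) : ∫⁻ y, f y ∂(RegimeII_mu I ν) = ∑ i ∈ I, ∫⁻ ω, f (i, ω) ∂ν := by
  unfold RegimeII_mu
  rw [lintegral_finsetSum_measure]
  exact Finset.sum_congr rfl fun i _ => lintegral_map hf measurable_prodMk_left

theorem RegimeII_univ (I : Finset (Cell × Cell)) (ν : Measure Ω) :
    (RegimeII_mu I ν) univ = I.card * ν univ := by
  rw [← setLIntegral_one, Measure.restrict_univ, RegimeII_lint I ν _ measurable_const]
  simp

instance RegimeII_finite (I : Finset (Cell × Cell)) (ν : Measure Ω) [IsFiniteMeasure ν] :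
    IsFiniteMeasure (RegimeII_mu I ν) := by
  unfold RegimeII_mu; infer_instance

theorem RegimeII_int (I : Finset (Cell × Cell)) (ν : Measure Ω) [IsFiniteMeasure ν]
    (f : (Cell × Cell) × Ω → ℝ) (hf : Measurable f) :
    ∫ y, e (f y) ∂(RegimeII_mu I ν) = ∑ i ∈ I, ∫ ω, e (f (i, ω)) ∂ν := by
  unfold RegimeII_mu
  have hm : Measurable fun y => e (f y) := measurable_e.comp hf
  rw [integral_finsetSum_measure]
  · refine Finset.sum_congr rfl fun i _ => ?_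
    rw [integral_map measurable_prodMk_left.aemeasurable hm.aestronglyMeasurable]
  · intro i _
    refine Integrable.of_bound (C := 1) hm.aestronglyMeasurable
      (Eventually.of_forall fun y => (norm_e _).le)

end measure

section pair
variable {m : ℕ} {Ω : Type*} [MeasurableSpace Ω] {ν : Measure Ω}

theorem RegimeII_measurable_vec (D : Family m Ω ν) (g : Cell) (a a' : Fin m → ℤ)
    (n : Fin 4 → ℤ) : Measurable fun ω => RegimeII_vec (fun t => D.F t ω) g a a' n := by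
  refine measurable_pi_lambda _ fun i => ?_
  fin_cases i
  · exact (measurable_dot_psi D a g.1).add_const _
  · exact (measurable_dot_psi D a g.2).add_const _
  · exact (measurable_dot_psi D a' g.1).add_const _
  · exact (measurable_dot_psi D a' g.2).add_const _

theorem RegimeII_measurable_lin (D : Family m Ω ν) (v : ℤ × ℤ × (Fin m → ℤ)) :
    Measurable fun z : ℝ × Ω => lin (fun t => D.F t z.2) v z.1 := by
  unfold lin
  have h1 : Measurable fun z : ℝ × Ω => dot v.2.2 (D.F z.1 z.2) :=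
    measurable_dot _ _ fun j => D.meas j
  have h2 : Measurable fun z : ℝ × Ω => (v.1 : ℝ) + (v.2.1 : ℝ) * z.1 := by fun_prop
  exact h2.add h1

theorem RegimeII_measurable_good {k N : ℕ} {D : Family m Ω ν} (S : CellSys D k N) :
    MeasurableSet S.good := by
  unfold CellSys.good
  exact Finset.measurableSet_biUnion _ fun i _ => measurableSet_Ico

theorem RegimeII_measurable_set {k N : ℕ} {D : Family m Ω ν} (S : CellSys D k N)
    (v v' : ℤ × ℤ × (Fin m → ℤ)) (ψ ψ' : ℝ) :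
    MeasurableSet {z : ℝ × Ω | z.1 ∈ S.good ∧
          |lin (fun t => D.F t z.2) v z.1| < ψ ∧ |lin (fun t => D.F t z.2) v' z.1| < ψ'} := by
  refine (measurable_fst (RegimeII_measurable_good S)).inter ?_
  exact (measurableSet_lt (RegimeII_measurable_lin D v).abs measurable_const).inter
    (measurableSet_lt (RegimeII_measurable_lin D v').abs measurable_const)

/-- the index box -/
noncomputable def RegimeII_box (N N' Z Z' : ℕ) : Finset ((ℤ × ℤ) × (ℤ × ℤ)) :=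
  (Finset.Icc (-(Z : ℤ)) Z ×ˢ Finset.Icc (N : ℤ) (500 * (N : ℤ))) ×ˢ
    (Finset.Icc (-(Z' : ℤ)) Z' ×ˢ Finset.Icc (N' : ℤ) (500 * (N' : ℤ)))

open Classical in
theorem RegimeII_pair [IsFiniteMeasure ν] {D : Family m Ω ν} {β N N' k' : ℕ} (hβ : 1 ≤ β)
    (hN' : 1 ≤ N') (hNN : N' ≤ N) (S : CellSys D k' N') (l l' : Fin m → ℕ) (Z Z' : ℕ)
    {ψ ψ' Q : ℝ} (hψ0 : 0 < ψ) (hψ'0 : 0 < ψ') (hψ : ψ * N ≤ 1 / 8) (hψ' : ψ' * N' ≤ 1 / 8)
    (herr : m * Q * D.M / (16 * (N' : ℝ) ^ 4) ≤ ψ) (herr' : m * Q * D.M / (16 * (N' : ℝ) ^ 4) ≤ ψ')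
    (hE : m * Q * (D.M * (1 + (D.B - D.A))) ≤ N' / 2)
    (hsm : 4 * (m : ℝ) * D.M * (1 + (D.B - D.A)) * (β : ℝ) ^ (∑ j, l j) ≤ N)
    (hsm' : 4 * (m : ℝ) * D.M * (1 + (D.B - D.A)) * (β : ℝ) ^ (∑ j, l' j) ≤ N')
    (a a' : Fin m → ℤ)
    (ha : a ∈ Fintype.piFinset (fun j => Finset.Ico ((β : ℤ) ^ (l j)) (2 * (β : ℤ) ^ (l j))))
    (ha' : a' ∈ Fintype.piFinset (fun j => Finset.Ico ((β : ℤ) ^ (l' j)) (2 * (β : ℤ) ^ (l' j))))
    (hQ : ∀ j, |(a j : ℝ)| ≤ Q) (hQ' : ∀ j, |(a' j : ℝ)| ≤ Q)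
    (cond : (Fin 4 → ℤ) → Prop)
    (hcond : ∀ i ∈ S.I, ∀ x ∈ RegimeII_box N N' Z Z',
      ¬ Par (x.1.1, x.1.2, a) (x.2.1, x.2.2, a') → cond (RegimeII_n (S.g i) x))
    (Kb : ℝ≥0∞)
    (H : ∑ i ∈ S.I, ∫⁻ ω, ∑' n : Fin 4 → ℤ,
      {z : Fin 4 → ℝ | cond n ∧ z ∈ T4 (258 * (N / N')) 258 (1002 * (ψ * N' + ψ' * N))}.indicator
        (fun _ => (1 : ℝ≥0∞)) (RegimeII_vec (fun t => D.F t ω) (S.g i) a a' n) ∂ν ≤ Kb) :
    ∑ x ∈ RegimeII_box N N' Z Z', (if Par (x.1.1, x.1.2, a) (x.2.1, x.2.2, a') then 0 else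
      (volume.prod ν) {z : ℝ × Ω | z.1 ∈ S.good ∧
          |lin (fun t => D.F t z.2) (x.1.1, x.1.2, a) z.1| < ψ ∧
          |lin (fun t => D.F t z.2) (x.2.1, x.2.2, a') z.1| < ψ'})
      ≤ ENNReal.ofReal (min (4 * ψ / N) (4 * ψ' / N')) * Kb := by
  have hN : 1 ≤ N := hN'.trans hNN
  set c := ENNReal.ofReal (min (4 * ψ / N) (4 * ψ' / N')) with hc
  set h : (Fin 4 → ℤ) → (Fin 4 → ℝ) → ℝ≥0∞ := fun n =>
    {z : Fin 4 → ℝ | cond n ∧ z ∈ T4 (258 * (N / N')) 258 (1002 * (ψ * N' + ψ' * N))}.indicator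
        (fun _ => (1 : ℝ≥0∞)) with hh
  have hhm : ∀ n, Measurable (h n) := by
    intro n
    simp only [hh]
    by_cases hcn : cond n
    · have : {z : Fin 4 → ℝ | cond n ∧ z ∈ T4 (258 * (N / N')) 258 (1002 * (ψ * N' + ψ' * N))}
          = T4 (258 * (N / N')) 258 (1002 * (ψ * N' + ψ' * N)) := by
        ext z; simp [hcn]
      rw [this]
      exact measurable_const.indicator (Vol_measurableSet_T4 _ _ _)
    · have : {z : Fin 4 → ℝ | cond n ∧ z ∈ T4 (258 * (N / N')) 258 (1002 * (ψ * N' + ψ' * N))}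
          = ∅ := by
        ext z; simp [hcn]
      rw [this]
      simp
  -- pointwise bound
  have hpt : ∀ ω, ∑ x ∈ RegimeII_box N N' Z Z',
      (if Par (x.1.1, x.1.2, a) (x.2.1, x.2.2, a') then 0 else
      volume {t : ℝ | t ∈ S.good ∧ |lin (fun t => D.F t ω) (x.1.1, x.1.2, a) t| < ψ ∧
          |lin (fun t => D.F t ω) (x.2.1, x.2.2, a') t| < ψ'})
      ≤ ∑ i ∈ S.I, c * ∑' n : Fin 4 → ℤ,
          h n (RegimeII_vec (fun t => D.F t ω) (S.g i) a a' n) := by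
    intro ω
    have h1 : ∀ x ∈ RegimeII_box N N' Z Z',
        (if Par (x.1.1, x.1.2, a) (x.2.1, x.2.2, a') then 0 else
          volume {t : ℝ | t ∈ S.good ∧ |lin (fun t => D.F t ω) (x.1.1, x.1.2, a) t| < ψ ∧
          |lin (fun t => D.F t ω) (x.2.1, x.2.2, a') t| < ψ'})
        ≤ ∑ i ∈ S.I, c * h (RegimeII_n (S.g i) x)
            (RegimeII_vec (fun t => D.F t ω) (S.g i) a a' (RegimeII_n (S.g i) x)) := by
      intro x hx
      by_cases hpar : Par (x.1.1, x.1.2, a) (x.2.1, x.2.2, a')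
      · rw [if_pos hpar]; exact zero_le
      · rw [if_neg hpar]
        have hx' := hx
        unfold RegimeII_box at hx'
        rw [Finset.mem_product, Finset.mem_product, Finset.mem_product, Finset.mem_Icc,
          Finset.mem_Icc, Finset.mem_Icc, Finset.mem_Icc] at hx'
        obtain ⟨⟨hp, hr⟩, ⟨hp', hr'⟩⟩ := hx'
        have hv : (x.1.1, x.1.2, a) ∈ shape β N l Z := by
          unfold shape
          rw [Finset.mem_product, Finset.mem_product, Finset.mem_Icc, Finset.mem_Icc]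
          exact ⟨hp, hr, ha⟩
        have hv' : (x.2.1, x.2.2, a') ∈ shape β N' l' Z' := by
          unfold shape
          rw [Finset.mem_product, Finset.mem_product, Finset.mem_Icc, Finset.mem_Icc]
          exact ⟨hp', hr', ha'⟩
        have hrR : |(x.1.2 : ℝ)| ≤ 500 * N := by
          rw [abs_of_nonneg (by exact_mod_cast (Nat.cast_nonneg N).trans hr.1)]
          exact_mod_cast hr.2
        have hrR' : |(x.2.2 : ℝ)| ≤ 500 * N' := by
          rw [abs_of_nonneg (by exact_mod_cast (Nat.cast_nonneg N').trans hr'.1)]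
          exact_mod_cast hr'.2
        have hcov : {t : ℝ | t ∈ S.good ∧ |lin (fun t => D.F t ω) (x.1.1, x.1.2, a) t| < ψ ∧
            |lin (fun t => D.F t ω) (x.2.1, x.2.2, a') t| < ψ'}
            ⊆ ⋃ i ∈ S.I, {t : ℝ | t ∈ cellInt (S.g i) ∧
              |lin (fun t => D.F t ω) (x.1.1, x.1.2, a) t| < ψ ∧
              |lin (fun t => D.F t ω) (x.2.1, x.2.2, a') t| < ψ'} := by
          rintro t ⟨htg, ht2⟩
          unfold CellSys.good at htg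
          rw [mem_iUnion₂] at htg ⊢
          obtain ⟨i, hi, hti⟩ := htg
          exact ⟨i, hi, hti, ht2⟩
        refine (measure_mono hcov).trans ((measure_biUnion_finset_le _ _).trans ?_)
        refine Finset.sum_le_sum fun i hi => ?_
        have hok := S.ok i hi
        rcases Set.eq_empty_or_nonempty {t : ℝ | t ∈ cellInt (S.g i) ∧
              |lin (fun t => D.F t ω) (x.1.1, x.1.2, a) t| < ψ ∧
              |lin (fun t => D.F t ω) (x.2.1, x.2.2, a') t| < ψ'} with he | he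
        · rw [he, measure_empty]; exact zero_le
        · obtain ⟨t, ht, ht1, ht2⟩ := he
          have hmem := RegimeII_memT4 (D.curve ω) D.hM hN' hNN hok ht a a' Q hQ hQ'
            x.1.1 x.1.2 x.2.1 x.2.2 hrR hrR' hψ0 hψ'0 hψ hψ' herr herr' hE ht1 ht2
          have hone : h (RegimeII_n (S.g i) x)
            (RegimeII_vec (fun t => D.F t ω) (S.g i) a a' (RegimeII_n (S.g i) x)) = 1 := by
            simp only [hh]
            rw [indicator_of_mem]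
            exact ⟨hcond i hi x hx hpar, hmem⟩
          rw [hone, mul_one, hc]
          have hsub : {t : ℝ | t ∈ cellInt (S.g i) ∧
              |lin (fun t => D.F t ω) (x.1.1, x.1.2, a) t| < ψ ∧
              |lin (fun t => D.F t ω) (x.2.1, x.2.2, a') t| < ψ'} ⊆ Icc D.A D.B :=
            fun t ht => (RegimeII_cell hN' hok ht.1).2.2.2.2.2.2.2
          rw [ENNReal.ofReal_min]
          exact le_min
            (RegimeI_volume (D.curve ω) D.hM hβ hN hsm hv _ hsub fun t ht => ht.2.1)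
            (RegimeI_volume (D.curve ω) D.hM hβ hN' hsm' hv' _ hsub fun t ht => ht.2.2)
    refine (Finset.sum_le_sum h1).trans ?_
    rw [Finset.sum_comm]
    refine Finset.sum_le_sum fun i hi => ?_
    rw [← Finset.mul_sum]
    refine mul_le_mul_right ?_ _
    have hinj := RegimeII_n_inj (S.g i) (S.ok i hi).uni
    rw [← Finset.sum_image (f := fun n => h n (RegimeII_vec (fun t => D.F t ω) (S.g i) a a' n))
      (fun x _ y _ hxy => hinj hxy)]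
    exact ENNReal.sum_le_tsum _
  -- integrate
  have hint : ∀ x ∈ RegimeII_box N N' Z Z',
      (if Par (x.1.1, x.1.2, a) (x.2.1, x.2.2, a') then 0 else
      (volume.prod ν) {z : ℝ × Ω | z.1 ∈ S.good ∧
          |lin (fun t => D.F t z.2) (x.1.1, x.1.2, a) z.1| < ψ ∧
          |lin (fun t => D.F t z.2) (x.2.1, x.2.2, a') z.1| < ψ'})
      = ∫⁻ ω, (if Par (x.1.1, x.1.2, a) (x.2.1, x.2.2, a') then 0 else
      volume {t : ℝ | t ∈ S.good ∧ |lin (fun t => D.F t ω) (x.1.1, x.1.2, a) t| < ψ ∧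
          |lin (fun t => D.F t ω) (x.2.1, x.2.2, a') t| < ψ'}) ∂ν := by
    intro x _
    split_ifs with hpar
    · simp
    · rw [Measure.prod_apply_symm (RegimeII_measurable_set S _ _ _ _)]
      rfl
  rw [Finset.sum_congr rfl hint, ← lintegral_finsetSum]
  · calc _ ≤ ∫⁻ ω, ∑ i ∈ S.I, c * ∑' n : Fin 4 → ℤ,
          h n (RegimeII_vec (fun t => D.F t ω) (S.g i) a a' n) ∂ν := lintegral_mono hpt
      _ = ∑ i ∈ S.I, ∫⁻ ω, c * ∑' n : Fin 4 → ℤ,
          h n (RegimeII_vec (fun t => D.F t ω) (S.g i) a a' n) ∂ν := by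
          rw [lintegral_finsetSum]
          intro i _
          refine Measurable.const_mul ?_ _
          refine Measurable.tsum fun n => ?_
          exact (hhm n).comp (RegimeII_measurable_vec D (S.g i) a a' n)
      _ = c * ∑ i ∈ S.I, ∫⁻ ω, ∑' n : Fin 4 → ℤ,
          h n (RegimeII_vec (fun t => D.F t ω) (S.g i) a a' n) ∂ν := by
          rw [Finset.mul_sum]
          refine Finset.sum_congr rfl fun i _ => ?_
          rw [lintegral_const_mul' _ _ (by rw [hc]; exact ENNReal.ofReal_ne_top)]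
      _ ≤ c * Kb := mul_le_mul_right H _
  · intro x _
    split_ifs with hpar
    · exact measurable_const
    · exact measurable_measure_prodMk_right (RegimeII_measurable_set S _ _ _ _)

end pair


section final
variable {m : ℕ} {Ω : Type*} [MeasurableSpace Ω] {ν : Measure Ω}

/-- real parameters. -/
theorem RegimeII_params {M BA X N N' P ψ : ℝ} {m : ℕ} (hM : 1 ≤ M) (hBA : 0 < BA) (hX2 : 2 ≤ X)
    (hX : 4 * (m : ℝ) * M * (1 + BA) ≤ X) (hN' : X ^ 10 ≤ N') (hN : N ≤ N' * X)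
    (hψ : 1 ≤ ψ * N * X ^ 2) (hψ0 : 0 < ψ) :
    m * X * M / (16 * N' ^ 4) ≤ ψ ∧ m * X * (M * (1 + BA)) ≤ N' / 2 ∧
      (2 * P ≤ X → 0 ≤ P → 4 * (m : ℝ) * M * (1 + BA) * P ≤ N') := by
  have hX0 : 0 < X := by linarith
  have hX1 : 1 ≤ X := by linarith
  have hN'0 : 0 < N' := lt_of_lt_of_le (by positivity) hN'
  have hX2le : X ^ 2 ≤ X ^ 10 := pow_le_pow_right₀ hX1 (by norm_num)
  have hX5le : X ^ 5 ≤ X ^ 10 := pow_le_pow_right₀ hX1 (by norm_num)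
  have hmM : (m : ℝ) * M ≤ X := by
    have h1 : (m : ℝ) * M * 1 ≤ 4 * (m : ℝ) * M * (1 + BA) := by
      have : 0 ≤ (m : ℝ) * M := by positivity
      nlinarith [mul_nonneg this hBA.le]
    linarith
  refine ⟨?_, ?_, ?_⟩
  · have h1 : 1 ≤ ψ * (N' * X ^ 3) := by
      calc 1 ≤ ψ * N * X ^ 2 := hψ
        _ ≤ ψ * (N' * X) * X ^ 2 := by gcongr
        _ = ψ * (N' * X ^ 3) := by ring
    rw [div_le_iff₀ (by positivity)]
    have hN'1 : 1 ≤ N' := le_trans (one_le_pow₀ hX1) hN'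
    calc (m : ℝ) * X * M = (m * M) * X := by ring
      _ ≤ X * X := by gcongr
      _ = X * X * 1 := by ring
      _ ≤ X * X * (ψ * (N' * X ^ 3)) := by gcongr
      _ = ψ * (X ^ 5 * N' * 1 * 1) := by ring
      _ ≤ ψ * (N' * N' * N' * (16 * N')) := by
          gcongr
          · linarith
          · linarith
      _ = ψ * (16 * N' ^ 4) := by ring
  · calc (m : ℝ) * X * (M * (1 + BA)) = (4 * m * M * (1 + BA)) * X / 4 := by ring
      _ ≤ X * X / 4 := by gcongr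
      _ = X ^ 2 / 4 := by ring
      _ ≤ N' / 2 := by linarith
  · intro hP hP0
    calc 4 * (m : ℝ) * M * (1 + BA) * P ≤ X * P := by gcongr
      _ ≤ X * X := by
          gcongr
          linarith
      _ = X ^ 2 := by ring
      _ ≤ N' := by linarith

/-- Weyl bound, case of independent `a, a'`. -/
theorem RegimeII_weyl4 [IsFiniteMeasure ν] {D : Family m Ω ν} {N' k' : ℕ} (hk' : 1 ≤ k')
    (S : CellSys D k' N') (a a' : Fin m → ℤ) (hindep : ∀ i j : ℤ, i • a + j • a' = 0 → i = 0 ∧ j = 0)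
    (ha : ∀ j, |a j| ≤ 2 ^ k') (ha' : ∀ j, |a' j| ≤ 2 ^ k')
    (hbig : 5000 ≤ (D.B - D.A) * ν.real univ * 2 ^ k')
    (k : Fin 4 → ℤ) (hk : k ≠ 0) (hkL : ∀ i, |k i| < ((2 ^ (3 * k') : ℕ) : ℤ)) :
    ‖∫ y : (Cell × Cell) × Ω, e (∑ i, (k i : ℝ) *
      RegimeII_vec (fun t => D.F t y.2) (S.g y.1) a a' 0 i) ∂(RegimeII_mu S.I ν)‖
      ≤ (RegimeII_mu S.I ν).real univ / (((2 ^ (3 * k') : ℕ) : ℝ)) ^ 4 := by
  set H₁ : Fin m → ℤ := k 0 • a + k 2 • a' with hH₁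
  set H₂ : Fin m → ℤ := k 1 • a + k 3 • a' with hH₂
  have hne : H₁ ≠ 0 ∨ H₂ ≠ 0 := by
    by_contra hcon
    push Not at hcon
    obtain ⟨h0, h2⟩ := hindep _ _ hcon.1
    obtain ⟨h1, h3⟩ := hindep _ _ hcon.2
    apply hk
    funext i
    fin_cases i
    · exact h0
    · exact h1
    · exact h2
    · exact h3
  have hbd : ∀ (x y : ℤ), |x| < ((2 ^ (3 * k') : ℕ) : ℤ) → |y| < ((2 ^ (3 * k') : ℕ) : ℤ) →
      ∀ j, |(x • a + y • a') j| ≤ 2 ^ (5 * k') := by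
    intro x y hx hy j
    have h1 : |(x • a + y • a') j| ≤ |x| * |a j| + |y| * |a' j| := by
      simp only [Pi.add_apply, Pi.smul_apply, smul_eq_mul]
      refine (abs_add_le _ _).trans ?_
      rw [abs_mul, abs_mul]
    have h2 : |x| * |a j| ≤ 2 ^ (3 * k') * 2 ^ k' := by
      have : |x| ≤ 2 ^ (3 * k') := by exact_mod_cast hx.le
      exact mul_le_mul this (ha j) (abs_nonneg _) (by positivity)
    have h3 : |y| * |a' j| ≤ 2 ^ (3 * k') * 2 ^ k' := by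
      have : |y| ≤ 2 ^ (3 * k') := by exact_mod_cast hy.le
      exact mul_le_mul this (ha' j) (abs_nonneg _) (by positivity)
    have h4 : (2 : ℤ) ^ (3 * k') * 2 ^ k' + 2 ^ (3 * k') * 2 ^ k' = 2 ^ (4 * k' + 1) := by
      rw [← pow_add]; ring
    have h5 : (2 : ℤ) ^ (4 * k' + 1) ≤ 2 ^ (5 * k') :=
      pow_le_pow_right₀ (by norm_num) (by omega)
    linarith
  have hw := S.weyl H₁ H₂ hne (hbd _ _ (hkL 0) (hkL 2)) (hbd _ _ (hkL 1) (hkL 3))
  have hmeas : Measurable fun y : (Cell × Cell) × Ω => ∑ i, (k i : ℝ) *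
      RegimeII_vec (fun t => D.F t y.2) (S.g y.1) a a' 0 i := by
    refine Finset.measurable_sum _ fun i _ => Measurable.const_mul ?_ _
    refine measurable_from_prod_countable_right fun x => ?_
    exact (measurable_pi_apply i).comp (RegimeII_measurable_vec D (S.g x) a a' 0)
  rw [RegimeII_int _ _ _ hmeas]
  have hsum : ∀ i ∈ S.I, ∫ ω, e (∑ i_1, (k i_1 : ℝ) *
      RegimeII_vec (fun t => D.F t ω) (S.g i) a a' 0 i_1) ∂ν
      = ∫ ω, e (dot H₁ (psi (fun t => D.F t ω) (S.g i).1)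
        + dot H₂ (psi (fun t => D.F t ω) (S.g i).2)) ∂ν := by
    intro i _
    refine integral_congr_ae (Eventually.of_forall fun ω => ?_)
    simp only
    congr 1
    rw [hH₁, hH₂, dot_add_left, dot_add_left, dot_smul_left, dot_smul_left, dot_smul_left,
      dot_smul_left, Fin.sum_univ_four]
    show (k 0 : ℝ) * (dot a (psi _ (S.g i).1) + ((0 : ℤ) : ℝ))
      + k 1 * (dot a (psi _ (S.g i).2) + ((0 : ℤ) : ℝ))
      + k 2 * (dot a' (psi _ (S.g i).1) + ((0 : ℤ) : ℝ))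
      + k 3 * (dot a' (psi _ (S.g i).2) + ((0 : ℤ) : ℝ)) = _
    push_cast
    ring
  rw [Finset.sum_congr rfl hsum]
  refine hw.trans ?_
  have huniv : (RegimeII_mu S.I ν).real univ = S.I.card * ν.real univ := by
    rw [Measure.real, RegimeII_univ, ENNReal.toReal_mul, ENNReal.toReal_natCast]; rfl
  rw [huniv]
  push_cast
  rw [div_le_div_iff₀ (by positivity) (by positivity)]
  have hc := S.card_lo
  have hν0 : 0 ≤ ν.real univ := measureReal_nonneg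
  have h12 : ((2 : ℝ) ^ (3 * k')) ^ 4 = 2 ^ (12 * k') := by rw [← pow_mul]; congr 1; ring
  have h13 : (2 : ℝ) ^ (13 * k') = 2 ^ (12 * k') * 2 ^ k' := by rw [← pow_add]; congr 1; ring
  rw [h12, h13]
  calc (N' : ℝ) ^ 2 * 2 ^ (12 * k') = (N' : ℝ) ^ 2 / 5000 * 2 ^ (12 * k') * 5000 := by ring
    _ ≤ (N' : ℝ) ^ 2 / 5000 * 2 ^ (12 * k') * ((D.B - D.A) * ν.real univ * 2 ^ k') := by gcongr
    _ = ((D.B - D.A) * (N' : ℝ) ^ 2 / 5000) * ν.real univ * (2 ^ (12 * k') * 2 ^ k') := by ring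
    _ ≤ (S.I.card : ℝ) * ν.real univ * (2 ^ (12 * k') * 2 ^ k') := by gcongr

/-- Weyl bound, case of dependent `a, a'`. -/
theorem RegimeII_weyl2 [IsFiniteMeasure ν] {D : Family m Ω ν} {N' k' : ℕ}
    (S : CellSys D k' N') (a : Fin m → ℤ) (ha0 : a ≠ 0)
    (ha : ∀ j, |a j| ≤ 2 ^ k')
    (hbig : 5000 ≤ (D.B - D.A) * ν.real univ * 2 ^ k')
    (k : Fin 2 → ℤ) (hk : k ≠ 0) (hkL : ∀ i, |k i| < ((2 ^ (3 * k') : ℕ) : ℤ)) :
    ‖∫ y : (Cell × Cell) × Ω, e (∑ i, (k i : ℝ) *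
      (![dot a (psi (fun t => D.F t y.2) (S.g y.1).1),
        dot a (psi (fun t => D.F t y.2) (S.g y.1).2)] : Fin 2 → ℝ) i) ∂(RegimeII_mu S.I ν)‖
      ≤ (RegimeII_mu S.I ν).real univ / (((2 ^ (3 * k') : ℕ) : ℝ)) ^ 2 := by
  set H₁ : Fin m → ℤ := k 0 • a with hH₁
  set H₂ : Fin m → ℤ := k 1 • a with hH₂
  have hne : H₁ ≠ 0 ∨ H₂ ≠ 0 := by
    by_contra hcon
    push Not at hcon
    apply hk
    funext i
    fin_cases i
    · exact (smul_eq_zero.1 hcon.1).resolve_right ha0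
    · exact (smul_eq_zero.1 hcon.2).resolve_right ha0
  have hbd : ∀ (x : ℤ), |x| < ((2 ^ (3 * k') : ℕ) : ℤ) →
      ∀ j, |(x • a) j| ≤ 2 ^ (5 * k') := by
    intro x hx j
    have h1 : |(x • a) j| = |x| * |a j| := by
      simp only [Pi.smul_apply, smul_eq_mul]
      rw [abs_mul]
    have h2 : |x| * |a j| ≤ 2 ^ (3 * k') * 2 ^ k' := by
      have : |x| ≤ 2 ^ (3 * k') := by exact_mod_cast hx.le
      exact mul_le_mul this (ha j) (abs_nonneg _) (by positivity)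
    rw [← pow_add] at h2
    have h5 : (2 : ℤ) ^ (3 * k' + k') ≤ 2 ^ (5 * k') :=
      pow_le_pow_right₀ (by norm_num) (by omega)
    linarith
  have hw := S.weyl H₁ H₂ hne (hbd _ (hkL 0)) (hbd _ (hkL 1))
  have hmeas : Measurable fun y : (Cell × Cell) × Ω => ∑ i, (k i : ℝ) *
      (![dot a (psi (fun t => D.F t y.2) (S.g y.1).1),
        dot a (psi (fun t => D.F t y.2) (S.g y.1).2)] : Fin 2 → ℝ) i := by
    refine Finset.measurable_sum _ fun i _ => Measurable.const_mul ?_ _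
    refine measurable_from_prod_countable_right fun x => ?_
    fin_cases i
    · exact measurable_dot_psi D a (S.g x).1
    · exact measurable_dot_psi D a (S.g x).2
  rw [RegimeII_int _ _ _ hmeas]
  have hsum : ∀ i ∈ S.I, ∫ ω, e (∑ i_1, (k i_1 : ℝ) *
      (![dot a (psi (fun t => D.F t ω) (S.g i).1),
        dot a (psi (fun t => D.F t ω) (S.g i).2)] : Fin 2 → ℝ) i_1) ∂ν
      = ∫ ω, e (dot H₁ (psi (fun t => D.F t ω) (S.g i).1)
        + dot H₂ (psi (fun t => D.F t ω) (S.g i).2)) ∂ν := by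
    intro i _
    refine integral_congr_ae (Eventually.of_forall fun ω => ?_)
    simp only
    congr 1
    rw [hH₁, hH₂, dot_smul_left, dot_smul_left, Fin.sum_univ_two]
    rfl
  rw [Finset.sum_congr rfl hsum]
  refine hw.trans ?_
  have huniv : (RegimeII_mu S.I ν).real univ = S.I.card * ν.real univ := by
    rw [Measure.real, RegimeII_univ, ENNReal.toReal_mul, ENNReal.toReal_natCast]; rfl
  rw [huniv]
  push_cast
  rw [div_le_div_iff₀ (by positivity) (by positivity)]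
  have hc := S.card_lo
  have hν0 : 0 ≤ ν.real univ := measureReal_nonneg
  have h6 : ((2 : ℝ) ^ (3 * k')) ^ 2 ≤ 2 ^ (12 * k') := by
    rw [← pow_mul]
    exact pow_le_pow_right₀ (by norm_num) (by omega)
  have h13 : (2 : ℝ) ^ (13 * k') = 2 ^ (12 * k') * 2 ^ k' := by rw [← pow_add]; congr 1; ring
  rw [h13]
  calc (N' : ℝ) ^ 2 * ((2 : ℝ) ^ (3 * k')) ^ 2 ≤ (N' : ℝ) ^ 2 * 2 ^ (12 * k') := by gcongr
    _ = (N' : ℝ) ^ 2 / 5000 * 2 ^ (12 * k') * 5000 := by ring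
    _ ≤ (N' : ℝ) ^ 2 / 5000 * 2 ^ (12 * k') * ((D.B - D.A) * ν.real univ * 2 ^ k') := by gcongr
    _ = ((D.B - D.A) * (N' : ℝ) ^ 2 / 5000) * ν.real univ * (2 ^ (12 * k') * 2 ^ k') := by ring
    _ ≤ (S.I.card : ℝ) * ν.real univ * (2 ^ (12 * k') * 2 ^ k') := by gcongr

/-- splitting a dependent pair. -/
theorem RegimeII_dep (hm : 0 < m) (a a' : Fin m → ℤ) (ha : ∀ j, 1 ≤ a j) (ha' : ∀ j, 1 ≤ a' j)
    (hdep : ¬ ∀ i j : ℤ, i • a + j • a' = 0 → i = 0 ∧ j = 0) :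
    ∃ (α α' : ℤ) (e₀ : Fin m → ℤ), 0 < α ∧ 0 < α' ∧ IsCoprime α α' ∧ a = α • e₀ ∧ a' = α' • e₀ ∧
      (∀ j, 1 ≤ e₀ j) := by
  push Not at hdep
  obtain ⟨i, j, hij, hne⟩ := hdep
  set j₀ : Fin m := ⟨0, hm⟩ with hj₀
  have hijc : ∀ l, i * a l + j * a' l = 0 := fun l => by
    have := congrFun hij l
    simpa using this
  have hj : j ≠ 0 := by
    intro hj
    rw [hj] at hijc
    have h1 := hijc j₀
    have h2 := ha j₀
    have : i = 0 := by
      rcases mul_eq_zero.1 (by linarith : i * a j₀ = 0) with h | h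
      · exact h
      · omega
    exact hne this hj
  set g : ℤ := ((Int.gcd (a j₀) (a' j₀) : ℕ) : ℤ) with hg
  have hgpos : 0 < g := by
    rw [hg]
    have : Int.gcd (a j₀) (a' j₀) ≠ 0 := by
      intro h0
      rw [Int.gcd_eq_zero_iff] at h0
      have := ha j₀
      omega
    exact_mod_cast Nat.pos_of_ne_zero this
  obtain ⟨α, hα⟩ : g ∣ a j₀ := Int.gcd_dvd_left ..
  obtain ⟨α', hα'⟩ : g ∣ a' j₀ := Int.gcd_dvd_right ..
  have hαpos : 0 < α := by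
    have := ha j₀
    rw [hα] at this
    by_contra hcon
    push Not at hcon
    nlinarith
  have hα'pos : 0 < α' := by
    have := ha' j₀
    rw [hα'] at this
    by_contra hcon
    push Not at hcon
    nlinarith
  have hcop : IsCoprime α α' := by
    have h1 : (g : ℤ) = a j₀ * Int.gcdA (a j₀) (a' j₀) + a' j₀ * Int.gcdB (a j₀) (a' j₀) :=
      Int.gcd_eq_gcd_ab _ _
    refine ⟨Int.gcdA (a j₀) (a' j₀), Int.gcdB (a j₀) (a' j₀), ?_⟩
    have h2 : g * (Int.gcdA (a j₀) (a' j₀) * α + Int.gcdB (a j₀) (a' j₀) * α') = g * 1 := by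
      linear_combination (-1 : ℤ) * h1 - Int.gcdA (a j₀) (a' j₀) * hα
        - Int.gcdB (a j₀) (a' j₀) * hα'
    exact mul_left_cancel₀ hgpos.ne' h2
  -- `α' a = α a'`
  have hiα : i * α = -(j * α') := by
    have h1 := hijc j₀
    rw [hα, hα'] at h1
    have h2 : g * (i * α + j * α') = 0 := by linear_combination h1
    rcases mul_eq_zero.1 h2 with h | h
    · omega
    · linarith
  have hprop : ∀ l, α' * a l = α * a' l := by
    intro l
    have h1 := hijc l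
    have h2 : j * (α' * a l - α * a' l) = 0 := by
      linear_combination (-α) * h1 + (a l) * hiα
    rcases mul_eq_zero.1 h2 with h | h
    · exact absurd h hj
    · linarith
  have hdvd : ∀ l, α ∣ a l := by
    intro l
    have h1 : α ∣ α' * a l := ⟨a' l, hprop l⟩
    exact hcop.dvd_of_dvd_mul_left h1
  choose e₀ he₀ using hdvd
  refine ⟨α, α', e₀, hαpos, hα'pos, hcop, ?_, ?_, ?_⟩
  · funext l
    simp [he₀ l]
  · funext l
    have h1 := hprop l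
    rw [he₀ l] at h1
    have h2 : α * a' l = α * (α' * e₀ l) := by linear_combination (-1 : ℤ) * h1
    simpa using mul_left_cancel₀ hαpos.ne' h2
  · intro l
    have h1 := ha l
    rw [he₀ l] at h1
    by_contra hcon
    push Not at hcon
    nlinarith


theorem RegimeII_H4 [IsFiniteMeasure ν] {D : Family m Ω ν} {N' k' : ℕ} (hk' : 1 ≤ k')
    (S : CellSys D k' N') (a a' : Fin m → ℤ) (hindep : ∀ i j : ℤ, i • a + j • a' = 0 → i = 0 ∧ j = 0)
    (ha : ∀ j, |a j| ≤ 2 ^ k') (ha' : ∀ j, |a' j| ≤ 2 ^ k')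
    (hbig : 5000 ≤ (D.B - D.A) * ν.real univ * 2 ^ k')
    (U U' η : ℝ) (hU : 1 ≤ U) (hU' : 1 ≤ U') (hη : 0 < η)
    (hLη : U + U' + 1 ≤ ((2 ^ (3 * k') : ℕ) : ℝ) * η) :
    ∑ i ∈ S.I, ∫⁻ ω, ∑' n : Fin 4 → ℤ, {z : Fin 4 → ℝ | True ∧ z ∈ T4 U U' η}.indicator
        (fun _ => (1 : ℝ≥0∞)) (RegimeII_vec (fun t => D.F t ω) (S.g i) a a' n) ∂ν
      ≤ ENNReal.ofReal (2 ^ 25 * η * U * U') * (RegimeII_mu S.I ν) univ := by
  have hset : {z : Fin 4 → ℝ | True ∧ z ∈ T4 U U' η} = T4 U U' η := by ext z; simp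
  rw [hset]
  have hm1 : ∀ n : Fin 4 → ℤ, Measurable fun y : (Cell × Cell) × Ω =>
      RegimeII_vec (fun t => D.F t y.2) (S.g y.1) a a' n := fun n =>
    measurable_from_prod_countable_right fun x => RegimeII_measurable_vec D (S.g x) a a' n
  have hf : Measurable fun y : (Cell × Cell) × Ω => ∑' n : Fin 4 → ℤ,
      (T4 U U' η).indicator (fun _ => (1 : ℝ≥0∞))
        (RegimeII_vec (fun t => D.F t y.2) (S.g y.1) a a' n) :=
    Measurable.tsum fun n =>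
      (measurable_const.indicator (Vol_measurableSet_T4 U U' η)).comp (hm1 n)
  rw [← RegimeII_lint S.I ν _ hf]
  have h := hcount4 (RegimeII_mu S.I ν)
    (fun y => RegimeII_vec (fun t => D.F t y.2) (S.g y.1) a a' 0) (hm1 0) (2 ^ (3 * k'))
    (Nat.one_le_two_pow) (RegimeII_weyl4 hk' S a a' hindep ha ha' hbig) U U' η hU hU' hη hLη
  refine le_trans (le_of_eq ?_) h
  refine lintegral_congr fun y => tsum_congr fun n => ?_
  congr 1
  funext i
  fin_cases i <;> simp [RegimeII_vec]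

theorem RegimeII_H2 [IsFiniteMeasure ν] {D : Family m Ω ν} {N' k' : ℕ}
    (S : CellSys D k' N') (e₀ : Fin m → ℤ) (he₀ : e₀ ≠ 0) (α α' : ℤ) (hα : 0 < α) (hα' : 0 < α')
    (hco : IsCoprime α α')
    (ha : ∀ j, |e₀ j| ≤ 2 ^ k') (hαL : α ≤ 2 ^ k') (hα'L : α' ≤ 2 ^ k')
    (hbig : 5000 ≤ (D.B - D.A) * ν.real univ * 2 ^ k')
    (U U' η : ℝ) (hU : 1 ≤ U) (hU' : 1 ≤ U') (hη : 0 < η)
    (hLη : (α : ℝ) * U' + α' * U ≤ ((2 ^ (3 * k') : ℕ) : ℝ) * η) :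
    ∑ i ∈ S.I, ∫⁻ ω, ∑' n : Fin 4 → ℤ, {z : Fin 4 → ℝ |
        ¬ (α' * n 0 = α * n 2 ∧ α' * n 1 = α * n 3) ∧ z ∈ T4 U U' η}.indicator
        (fun _ => (1 : ℝ≥0∞))
          (RegimeII_vec (fun t => D.F t ω) (S.g i) (α • e₀) (α' • e₀) n) ∂ν
      ≤ ENNReal.ofReal (2 ^ 25 * η * U * U') * (RegimeII_mu S.I ν) univ := by
  have hm1 : ∀ n : Fin 4 → ℤ, Measurable fun y : (Cell × Cell) × Ω =>
      RegimeII_vec (fun t => D.F t y.2) (S.g y.1) (α • e₀) (α' • e₀) n := fun n =>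
    measurable_from_prod_countable_right fun x => RegimeII_measurable_vec D (S.g x) _ _ n
  have hms : ∀ n : Fin 4 → ℤ, MeasurableSet {z : Fin 4 → ℝ |
        ¬ (α' * n 0 = α * n 2 ∧ α' * n 1 = α * n 3) ∧ z ∈ T4 U U' η} := by
    intro n
    by_cases hcn : ¬ (α' * n 0 = α * n 2 ∧ α' * n 1 = α * n 3)
    · have : {z : Fin 4 → ℝ | ¬ (α' * n 0 = α * n 2 ∧ α' * n 1 = α * n 3) ∧ z ∈ T4 U U' η}
          = T4 U U' η := by
        ext z; exact ⟨fun h => h.2, fun h => ⟨hcn, h⟩⟩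
      rw [this]
      exact Vol_measurableSet_T4 _ _ _
    · have : {z : Fin 4 → ℝ | ¬ (α' * n 0 = α * n 2 ∧ α' * n 1 = α * n 3) ∧ z ∈ T4 U U' η}
          = ∅ := by
        ext z; exact ⟨fun h => absurd h.1 hcn, fun h => absurd h (by simp)⟩
      rw [this]
      exact MeasurableSet.empty
  have hf : Measurable fun y : (Cell × Cell) × Ω => ∑' n : Fin 4 → ℤ,
      {z : Fin 4 → ℝ | ¬ (α' * n 0 = α * n 2 ∧ α' * n 1 = α * n 3) ∧ z ∈ T4 U U' η}.indicator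
        (fun _ => (1 : ℝ≥0∞))
        (RegimeII_vec (fun t => D.F t y.2) (S.g y.1) (α • e₀) (α' • e₀) n) :=
    Measurable.tsum fun n => (measurable_const.indicator (hms n)).comp (hm1 n)
  rw [← RegimeII_lint S.I ν _ hf]
  have hζ : Measurable fun y : (Cell × Cell) × Ω =>
      (![dot e₀ (psi (fun t => D.F t y.2) (S.g y.1).1),
        dot e₀ (psi (fun t => D.F t y.2) (S.g y.1).2)] : Fin 2 → ℝ) := by
    refine measurable_from_prod_countable_right fun x => measurable_pi_lambda _ fun i => ?_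
    fin_cases i
    · exact measurable_dot_psi D e₀ (S.g x).1
    · exact measurable_dot_psi D e₀ (S.g x).2
  have hLge : (2 : ℤ) ^ k' ≤ ((2 ^ (3 * k') : ℕ) : ℤ) := by
    push_cast
    exact pow_le_pow_right₀ (by norm_num) (by omega)
  have h := hcount2 (RegimeII_mu S.I ν) _ hζ (2 ^ (3 * k'))
    (Nat.one_le_two_pow) (RegimeII_weyl2 S e₀ he₀ ha hbig) α α' hα hα' hco (hαL.trans hLge)
    (hα'L.trans hLge) U U' η hU hU' hη hLη
  refine le_trans (le_of_eq ?_) h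
  refine lintegral_congr fun y => tsum_congr fun n => ?_
  congr 1
  funext i
  have d1 := dot_smul_left α e₀ (psi (fun t => D.F t y.2) (S.g y.1).1)
  have d2 := dot_smul_left α e₀ (psi (fun t => D.F t y.2) (S.g y.1).2)
  have d3 := dot_smul_left α' e₀ (psi (fun t => D.F t y.2) (S.g y.1).1)
  have d4 := dot_smul_left α' e₀ (psi (fun t => D.F t y.2) (S.g y.1).2)
  fin_cases i
  · exact congrArg (· + (n 0 : ℝ)) d1
  · exact congrArg (· + (n 1 : ℝ)) d2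
  · exact congrArg (· + (n 2 : ℝ)) d3
  · exact congrArg (· + (n 3 : ℝ)) d4

/-- condition in the dependent case. -/
theorem RegimeII_cond (g : Cell) (hg : g.1.1 * g.2.2 - g.2.1 * g.1.2 = 1) (α α' : ℤ) (hα : 0 < α)
    (e₀ : Fin m → ℤ) (x : (ℤ × ℤ) × (ℤ × ℤ))
    (hpar : ¬ Par (x.1.1, x.1.2, α • e₀) (x.2.1, x.2.2, α' • e₀)) :
    ¬ (α' * RegimeII_n g x 0 = α * RegimeII_n g x 2 ∧
      α' * RegimeII_n g x 1 = α * RegimeII_n g x 3) := by
  rintro ⟨h1, h2⟩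
  apply hpar
  have h1' : α' * (x.1.1 * g.1.1 + x.1.2 * g.1.2) = α * (x.2.1 * g.1.1 + x.2.2 * g.1.2) := h1
  have h2' : α' * (x.1.1 * g.2.1 + x.1.2 * g.2.2) = α * (x.2.1 * g.2.1 + x.2.2 * g.2.2) := h2
  have hp : α' * x.1.1 = α * x.2.1 := by
    linear_combination (-(α' * x.1.1 - α * x.2.1)) * hg + g.2.2 * h1' - g.1.2 * h2'
  have hr : α' * x.1.2 = α * x.2.2 := by
    linear_combination (-(α' * x.1.2 - α * x.2.2)) * hg + g.1.1 * h2' - g.2.1 * h1'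
  constructor
  · show x.1.2 * x.2.1 = x.2.2 * x.1.1
    have : α * (x.1.2 * x.2.1) = α * (x.2.2 * x.1.1) := by
      linear_combination (-x.1.2) * hp + (x.1.1) * hr
    exact mul_left_cancel₀ hα.ne' this
  · intro j
    show x.1.2 * (α' * e₀ j) = x.2.2 * (α * e₀ j)
    linear_combination (e₀ j) * hr

open Classical in
theorem RegimeII_reorder {β N N' Z Z' : ℕ} (l l' : Fin m → ℕ)
    (f : (ℤ × ℤ × (Fin m → ℤ)) → (ℤ × ℤ × (Fin m → ℤ)) → ℝ≥0∞) :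
    ∑ v ∈ shape β N l Z, ∑ v' ∈ shape β N' l' Z', f v v'
      = ∑ aa ∈ Fintype.piFinset (fun j => Finset.Ico ((β : ℤ) ^ (l j)) (2 * (β : ℤ) ^ (l j))) ×ˢ
        Fintype.piFinset (fun j => Finset.Ico ((β : ℤ) ^ (l' j)) (2 * (β : ℤ) ^ (l' j))),
        ∑ x ∈ RegimeII_box N N' Z Z', f (x.1.1, x.1.2, aa.1) (x.2.1, x.2.2, aa.2) := by
  rw [← Finset.sum_product', ← Finset.sum_product']
  refine Finset.sum_nbij'
    (fun w => ((w.1.2.2, w.2.2.2), ((w.1.1, w.1.2.1), (w.2.1, w.2.2.1))))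
    (fun y => ((y.2.1.1, y.2.1.2, y.1.1), (y.2.2.1, y.2.2.2, y.1.2))) ?_ ?_ ?_ ?_ ?_
  · rintro ⟨⟨p, r, a⟩, ⟨p', r', a'⟩⟩ h
    unfold shape at h
    unfold RegimeII_box
    simp only [Finset.mem_product] at h ⊢
    tauto
  · rintro ⟨⟨a, a'⟩, ⟨⟨p, r⟩, ⟨p', r'⟩⟩⟩ h
    unfold shape
    unfold RegimeII_box at h
    simp only [Finset.mem_product] at h ⊢
    tauto
  · rintro ⟨⟨p, r, a⟩, ⟨p', r', a'⟩⟩ _
    rfl
  · rintro ⟨⟨a, a'⟩, ⟨⟨p, r⟩, ⟨p', r'⟩⟩⟩ _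
    rfl
  · rintro ⟨⟨p, r, a⟩, ⟨p', r', a'⟩⟩ _
    rfl


open Classical in
theorem regimeII [IsFiniteMeasure ν] (hm : 0 < m) (D : Family m Ω ν) (hν : ν univ ≠ 0) {β : ℕ}
    (hβ : 1024 ≤ β) :
    ∃ k₀ : ℕ, ∀ k' ≥ k₀, ∀ k ≥ k', ∀ S : CellSys D k' (β ^ k'), ∀ (l l' : Fin m → ℕ) (Z Z' : ℕ)
      (ψ ψ' : ℝ), β ^ (k - k') ≤ 2 ^ k' → 2 * β ^ (∑ j, l j) ≤ 2 ^ k' →
      2 * β ^ (∑ j, l' j) ≤ 2 ^ k' →
      ψ * (β : ℝ) ^ k ≤ 1 / 8 → ψ' * (β : ℝ) ^ k' ≤ 1 / 8 →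
      1 ≤ ψ * (β : ℝ) ^ k * 2 ^ (2 * k') → 1 ≤ ψ' * (β : ℝ) ^ k' * 2 ^ (2 * k') →
      ∑ v ∈ shape β (β ^ k) l Z, ∑ v' ∈ shape β (β ^ k') l' Z',
        (if Par v v' then 0 else (volume.prod ν) {z : ℝ × Ω | z.1 ∈ S.good ∧
          |lin (fun t => D.F t z.2) v z.1| < ψ ∧ |lin (fun t => D.F t z.2) v' z.1| < ψ'})
      ≤ ENNReal.ofReal (10 ^ 30 * (D.B - D.A) * ((β : ℝ) ^ k * ψ * (β : ℝ) ^ (∑ j, l j))
          * ((β : ℝ) ^ k' * ψ' * (β : ℝ) ^ (∑ j, l' j))) * ν univ := by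
  have hBA : 0 < D.B - D.A := sub_pos.2 D.hAB
  have hνR : 0 < ν.real univ := by
    rw [Measure.real]
    exact ENNReal.toReal_pos hν (measure_ne_top ν univ)
  obtain ⟨k₁, hk₁⟩ := exists_nat_ge (4 * (m : ℝ) * D.M * (1 + (D.B - D.A)))
  obtain ⟨k₂, hk₂⟩ := exists_nat_ge (5000 / ((D.B - D.A) * ν.real univ))
  refine ⟨k₁ + k₂ + 1, ?_⟩
  intro k' hk' k hk S l l' Z Z' ψ ψ' hkk hl hl' hψ hψ' hψlo hψ'lo
  have hk'1 : 1 ≤ k' := by omega
  have hkp : ∀ j : ℕ, j ≤ k' → (j : ℝ) ≤ 2 ^ k' := by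
    intro j hj
    have h1 : j < 2 ^ j := Nat.lt_two_pow_self
    have h2 : 2 ^ j ≤ 2 ^ k' := Nat.pow_le_pow_right (by norm_num) hj
    exact_mod_cast (h1.trans_le h2).le
  set X : ℝ := 2 ^ k' with hX
  have hX2 : 2 ≤ X := by
    have : (2 : ℝ) ^ 1 ≤ 2 ^ k' := pow_le_pow_right₀ (by norm_num) hk'1
    simpa using this
  have hX1 : 1 ≤ X := by linarith
  have hX0 : 0 < X := by linarith
  have hC : 4 * (m : ℝ) * D.M * (1 + (D.B - D.A)) ≤ X := hk₁.trans (hkp k₁ (by omega))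
  have hbig : 5000 ≤ (D.B - D.A) * ν.real univ * X := by
    have h1 : 5000 / ((D.B - D.A) * ν.real univ) ≤ X := hk₂.trans (hkp k₂ (by omega))
    rw [div_le_iff₀ (by positivity)] at h1
    linarith
  have hβ1 : 1 ≤ β := by omega
  have hβR : (1024 : ℝ) ≤ β := by exact_mod_cast hβ
  have hN' : 1 ≤ β ^ k' := Nat.one_le_pow _ _ (by omega)
  have hNN : β ^ k' ≤ β ^ k := Nat.pow_le_pow_right (by omega) hk
  have hX10 : X ^ 10 ≤ (β : ℝ) ^ k' := by
    rw [hX, ← pow_mul, mul_comm, pow_mul]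
    exact pow_le_pow_left₀ (by norm_num) (by norm_num; exact hβ) _
  have hNeq : (β : ℝ) ^ k = (β : ℝ) ^ k' * (β : ℝ) ^ (k - k') := by
    rw [← pow_add]; congr 1; omega
  have hrat : (β : ℝ) ^ (k - k') ≤ X := by
    rw [hX]; exact_mod_cast hkk
  have hN'0 : (0 : ℝ) < (β : ℝ) ^ k' := by positivity
  have hN0 : (0 : ℝ) < (β : ℝ) ^ k := by positivity
  have hNle : (β : ℝ) ^ k ≤ (β : ℝ) ^ k' * X := by rw [hNeq]; gcongr
  have hNN' : (β : ℝ) ^ k' ≤ (β : ℝ) ^ k := by exact_mod_cast hNN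
  have hX2k : (2 : ℝ) ^ (2 * k') = X ^ 2 := by rw [hX, ← pow_mul]; congr 1; ring
  rw [hX2k] at hψlo hψ'lo
  have hψ0 : 0 < ψ := by
    by_contra hcon
    push Not at hcon
    have : ψ * (β : ℝ) ^ k * X ^ 2 ≤ 0 :=
      mul_nonpos_of_nonpos_of_nonneg (mul_nonpos_of_nonpos_of_nonneg hcon hN0.le) (by positivity)
    linarith
  have hψ'0 : 0 < ψ' := by
    by_contra hcon
    push Not at hcon
    have : ψ' * (β : ℝ) ^ k' * X ^ 2 ≤ 0 :=
      mul_nonpos_of_nonpos_of_nonneg (mul_nonpos_of_nonpos_of_nonneg hcon hN'0.le) (by positivity)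
    linarith
  have hψ'lo2 : 1 ≤ ψ' * (β : ℝ) ^ k * X ^ 2 := hψ'lo.trans (by gcongr)
  have hP2 : 2 * (β : ℝ) ^ (∑ j, l j) ≤ X := by rw [hX]; exact_mod_cast hl
  have hP2' : 2 * (β : ℝ) ^ (∑ j, l' j) ≤ X := by rw [hX]; exact_mod_cast hl'
  obtain ⟨herr, hE, hsmall⟩ := RegimeII_params (P := (β : ℝ) ^ (∑ j, l j)) D.hM hBA hX2 hC hX10
    hNle hψlo hψ0
  obtain ⟨herr', -, hsmall'⟩ := RegimeII_params (P := (β : ℝ) ^ (∑ j, l' j)) D.hM hBA hX2 hC hX10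
    hNle hψ'lo2 hψ'0
  have hsm' := hsmall' hP2' (by positivity)
  have hsm := (hsmall hP2 (by positivity)).trans hNN'
  -- parameters of the counting lemmas
  set U : ℝ := 258 * ((β : ℝ) ^ k / (β : ℝ) ^ k') with hU
  set η : ℝ := 1002 * (ψ * (β : ℝ) ^ k' + ψ' * (β : ℝ) ^ k) with hη
  have hratio1 : 1 ≤ (β : ℝ) ^ k / (β : ℝ) ^ k' := by rw [le_div_iff₀ hN'0]; linarith
  have hratioX : (β : ℝ) ^ k / (β : ℝ) ^ k' ≤ X := by rw [div_le_iff₀ hN'0]; linarith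
  have hU1 : 1 ≤ U := by rw [hU]; linarith
  have hη0 : 0 < η := by positivity
  have hLη : 1002 * (X * ((β : ℝ) ^ k / (β : ℝ) ^ k')) ≤ ((2 ^ (3 * k') : ℕ) : ℝ) * η := by
    have hL : ((2 ^ (3 * k') : ℕ) : ℝ) = X ^ 3 := by
      push_cast; rw [hX, ← pow_mul]; congr 1; ring
    rw [hL]
    have h1 : (β : ℝ) ^ k / (β : ℝ) ^ k' ≤ ψ' * (β : ℝ) ^ k * X ^ 2 := by
      rw [div_le_iff₀ hN'0]
      calc (β : ℝ) ^ k = (β : ℝ) ^ k * 1 := by ring
        _ ≤ (β : ℝ) ^ k * (ψ' * (β : ℝ) ^ k' * X ^ 2) := by gcongr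
        _ = _ := by ring
    calc 1002 * (X * ((β : ℝ) ^ k / (β : ℝ) ^ k'))
        ≤ 1002 * (X * (ψ' * (β : ℝ) ^ k * X ^ 2)) := by gcongr
      _ = X ^ 3 * (1002 * (ψ' * (β : ℝ) ^ k)) := by ring
      _ ≤ X ^ 3 * η := by
          rw [hη]
          gcongr
          have : 0 < ψ * (β : ℝ) ^ k' := by positivity
          linarith
  set κ : ℝ := min (4 * ψ / (β : ℝ) ^ k) (4 * ψ' / (β : ℝ) ^ k') with hκ
  have hκ0 : 0 < κ := lt_min (by positivity) (by positivity)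
  -- bound for every pair `(a, a')`
  have hfixed : ∀ aa ∈ Fintype.piFinset (fun j => Finset.Ico ((β : ℤ) ^ (l j))
        (2 * (β : ℤ) ^ (l j))) ×ˢ
        Fintype.piFinset (fun j => Finset.Ico ((β : ℤ) ^ (l' j)) (2 * (β : ℤ) ^ (l' j))),
        ∑ x ∈ RegimeII_box (β ^ k) (β ^ k') Z Z',
          (if Par (x.1.1, x.1.2, aa.1) (x.2.1, x.2.2, aa.2) then 0 else
          (volume.prod ν) {z : ℝ × Ω | z.1 ∈ S.good ∧
          |lin (fun t => D.F t z.2) (x.1.1, x.1.2, aa.1) z.1| < ψ ∧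
          |lin (fun t => D.F t z.2) (x.2.1, x.2.2, aa.2) z.1| < ψ'})
        ≤ ENNReal.ofReal κ * (ENNReal.ofReal (2 ^ 25 * η * U * 258)
            * (RegimeII_mu S.I ν) univ) := by
    rintro ⟨a, a'⟩ haa
    rw [Finset.mem_product] at haa
    obtain ⟨ha, ha'⟩ := haa
    have hbd : ∀ (L : Fin m → ℕ) (b : Fin m → ℤ),
        b ∈ Fintype.piFinset (fun j => Finset.Ico ((β : ℤ) ^ (L j)) (2 * (β : ℤ) ^ (L j))) →
        2 * β ^ (∑ j, L j) ≤ 2 ^ k' → ∀ j, 1 ≤ b j ∧ b j ≤ 2 ^ k' := by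
      intro L b hb hL j
      rw [Fintype.mem_piFinset] at hb
      have h1 := Finset.mem_Ico.1 (hb j)
      have h2 : (1 : ℤ) ≤ (β : ℤ) ^ (L j) := by
        have : 1 ≤ β ^ (L j) := Nat.one_le_pow _ _ (by omega)
        exact_mod_cast this
      have h3 : β ^ (L j) ≤ β ^ (∑ j, L j) :=
        Nat.pow_le_pow_right (by omega)
          (Finset.single_le_sum (fun _ _ => Nat.zero_le _) (Finset.mem_univ j))
      have h4 : (2 * (β : ℤ) ^ (L j)) ≤ 2 ^ k' := by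
        have : 2 * β ^ (L j) ≤ 2 ^ k' := by omega
        exact_mod_cast this
      exact ⟨h2.trans h1.1, by linarith [h1.2]⟩
    have hba := hbd l a ha hl
    have hba' := hbd l' a' ha' hl'
    have hQ : ∀ (b : Fin m → ℤ), (∀ j, 1 ≤ b j ∧ b j ≤ 2 ^ k') → ∀ j, |(b j : ℝ)| ≤ X := by
      intro b hb j
      have h1 : (1 : ℝ) ≤ b j := by exact_mod_cast (hb j).1
      rw [abs_of_nonneg (by linarith), hX]
      exact_mod_cast (hb j).2
    have habs : ∀ (b : Fin m → ℤ), (∀ j, 1 ≤ b j ∧ b j ≤ 2 ^ k') → ∀ j, |b j| ≤ 2 ^ k' := by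
      intro b hb j
      rw [abs_of_nonneg (by linarith [(hb j).1])]
      exact (hb j).2
    have hNc : ((β ^ k : ℕ) : ℝ) = (β : ℝ) ^ k := by push_cast; rfl
    have hN'c : ((β ^ k' : ℕ) : ℝ) = (β : ℝ) ^ k' := by push_cast; rfl
    have main := fun cond hcond Kb H => RegimeII_pair (ν := ν) (D := D) (β := β) (N := β ^ k)
      (N' := β ^ k') (k' := k') hβ1 hN' hNN S l l' Z Z' (ψ := ψ) (ψ' := ψ') (Q := X) hψ0 hψ'0
      (by rw [hNc]; exact hψ) (by rw [hN'c]; exact hψ') (by rw [hN'c]; exact herr)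
      (by rw [hN'c]; exact herr') (by rw [hN'c]; exact hE) (by rw [hNc]; exact hsm)
      (by rw [hN'c]; exact hsm') a a' ha ha' (hQ a hba) (hQ a' hba') cond hcond Kb H
    rw [hNc, hN'c] at main
    by_cases hindep : ∀ i j : ℤ, i • a + j • a' = 0 → i = 0 ∧ j = 0
    · refine main (fun _ => True) (fun _ _ _ _ _ => trivial) _ ?_
      refine RegimeII_H4 hk'1 S a a' hindep (habs a hba) (habs a' hba') hbig U 258 η hU1
        (by norm_num) hη0 ?_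
      refine le_trans ?_ hLη
      rw [hU]
      have h1 : (β : ℝ) ^ k / (β : ℝ) ^ k' ≤ X * ((β : ℝ) ^ k / (β : ℝ) ^ k') :=
        le_mul_of_one_le_left (by positivity) hX1
      linarith
    · obtain ⟨α, α', e₀, hα, hα', hco, hae, hae', he₀⟩ :=
        RegimeII_dep hm a a' (fun j => (hba j).1) (fun j => (hba' j).1) hindep
      refine main (fun n => ¬ (α' * n 0 = α * n 2 ∧ α' * n 1 = α * n 3)) ?_ _ ?_
      · intro i hi x _ hpar
        rw [hae, hae'] at hpar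
        exact RegimeII_cond (S.g i) (S.ok i hi).uni α α' hα e₀ x hpar
      · have hj₀ : ∃ j₀ : Fin m, True := ⟨⟨0, hm⟩, trivial⟩
        obtain ⟨j₀, -⟩ := hj₀
        have hαle : α ≤ 2 ^ k' := by
          have h1 := (hba j₀).2
          rw [hae] at h1
          have h2 : (α • e₀) j₀ = α * e₀ j₀ := rfl
          rw [h2] at h1
          have h3 : α * 1 ≤ α * e₀ j₀ := mul_le_mul_of_nonneg_left (he₀ j₀) hα.le
          linarith
        have hα'le : α' ≤ 2 ^ k' := by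
          have h1 := (hba' j₀).2
          rw [hae'] at h1
          have h2 : (α' • e₀) j₀ = α' * e₀ j₀ := rfl
          rw [h2] at h1
          have h3 : α' * 1 ≤ α' * e₀ j₀ := mul_le_mul_of_nonneg_left (he₀ j₀) hα'.le
          linarith
        have he₀0 : e₀ ≠ 0 := by
          intro h0
          have := he₀ j₀
          rw [h0] at this
          simp at this
        have he₀b : ∀ j, |e₀ j| ≤ 2 ^ k' := by
          intro j
          rw [abs_of_nonneg (by linarith [he₀ j])]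
          have h1 := (hba j).2
          rw [hae] at h1
          have h2 : (α • e₀) j = α * e₀ j := rfl
          rw [h2] at h1
          have h3 : 1 * e₀ j ≤ α * e₀ j :=
            mul_le_mul_of_nonneg_right (by omega) (by linarith [he₀ j])
          linarith
        have hH := RegimeII_H2 S e₀ he₀0 α α' hα hα' hco he₀b hαle hα'le hbig U 258 η hU1
          (by norm_num) hη0 (by
            refine le_trans ?_ hLη
            have hαX : (α : ℝ) ≤ X := by rw [hX]; exact_mod_cast hαle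
            have hα'X : (α' : ℝ) ≤ X := by rw [hX]; exact_mod_cast hα'le
            have h1 : (α : ℝ) * 258 ≤ X * ((β : ℝ) ^ k / (β : ℝ) ^ k') * 258 := by
              gcongr
              exact hαX.trans (le_mul_of_one_le_right hX0.le hratio1)
            have h2 : (α' : ℝ) * U ≤ X * U := by gcongr
            have h3 : X * U = 258 * (X * ((β : ℝ) ^ k / (β : ℝ) ^ k')) := by rw [hU]; ring
            have h4 : 0 < X * ((β : ℝ) ^ k / (β : ℝ) ^ k') := by positivity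
            linarith)
        rw [← hae, ← hae'] at hH
        exact hH
  rw [RegimeII_reorder l l' (fun v v' => (if Par v v' then 0 else
    (volume.prod ν) {z : ℝ × Ω | z.1 ∈ S.good ∧
          |lin (fun t => D.F t z.2) v z.1| < ψ ∧ |lin (fun t => D.F t z.2) v' z.1| < ψ'}))]
  refine (Finset.sum_le_sum hfixed).trans ?_
  rw [Finset.sum_const, Finset.card_product, RegimeI_card_pi, RegimeI_card_pi, nsmul_eq_mul,
    RegimeII_univ]
  have hcI : (S.I.card : ℝ≥0∞) ≤ ENNReal.ofReal (8 * (D.B - D.A) * ((β : ℝ) ^ k') ^ 2) := by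
    rw [← ENNReal.ofReal_natCast]
    apply ENNReal.ofReal_le_ofReal
    have := S.card_hi
    push_cast at this
    exact this
  have hPP : (((β ^ (∑ j, l j) * β ^ (∑ j, l' j) : ℕ)) : ℝ≥0∞)
      = ENNReal.ofReal ((β : ℝ) ^ (∑ j, l j) * (β : ℝ) ^ (∑ j, l' j)) := by
    rw [← ENNReal.ofReal_natCast]
    push_cast
    rfl
  rw [hPP]
  calc ENNReal.ofReal ((β : ℝ) ^ (∑ j, l j) * (β : ℝ) ^ (∑ j, l' j)) *
        (ENNReal.ofReal κ * (ENNReal.ofReal (2 ^ 25 * η * U * 258) * (S.I.card * ν univ)))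
      ≤ ENNReal.ofReal ((β : ℝ) ^ (∑ j, l j) * (β : ℝ) ^ (∑ j, l' j)) *
        (ENNReal.ofReal κ * (ENNReal.ofReal (2 ^ 25 * η * U * 258) *
          (ENNReal.ofReal (8 * (D.B - D.A) * ((β : ℝ) ^ k') ^ 2) * ν univ))) := by gcongr
    _ = ENNReal.ofReal (((β : ℝ) ^ (∑ j, l j) * (β : ℝ) ^ (∑ j, l' j)) *
        (κ * ((2 ^ 25 * η * U * 258) * (8 * (D.B - D.A) * ((β : ℝ) ^ k') ^ 2)))) * ν univ := by
        rw [ENNReal.ofReal_mul (p := (β : ℝ) ^ (∑ j, l j) * (β : ℝ) ^ (∑ j, l' j)) (by positivity),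
          ENNReal.ofReal_mul (p := κ) hκ0.le,
          ENNReal.ofReal_mul (p := 2 ^ 25 * η * U * 258) (by positivity)]
        ring
    _ ≤ _ := by
        refine mul_le_mul_left (ENNReal.ofReal_le_ofReal ?_) _
        have hκη : κ * η ≤ 8016 * (ψ * ψ') := by
          have h1 : κ * (ψ * (β : ℝ) ^ k') ≤ 4 * (ψ * ψ') := by
            calc κ * (ψ * (β : ℝ) ^ k') ≤ (4 * ψ' / (β : ℝ) ^ k') * (ψ * (β : ℝ) ^ k') := by
                  gcongr
                  exact min_le_right _ _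
              _ = 4 * (ψ * ψ') := by field_simp
          have h2 : κ * (ψ' * (β : ℝ) ^ k) ≤ 4 * (ψ * ψ') := by
            calc κ * (ψ' * (β : ℝ) ^ k) ≤ (4 * ψ / (β : ℝ) ^ k) * (ψ' * (β : ℝ) ^ k) := by
                  gcongr
                  exact min_le_left _ _
              _ = 4 * (ψ * ψ') := by field_simp
          rw [hη]
          linarith
        calc ((β : ℝ) ^ (∑ j, l j) * (β : ℝ) ^ (∑ j, l' j)) *
            (κ * ((2 ^ 25 * η * U * 258) * (8 * (D.B - D.A) * ((β : ℝ) ^ k') ^ 2)))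
            = (κ * η) * (((β : ℝ) ^ (∑ j, l j) * (β : ℝ) ^ (∑ j, l' j)) *
              ((2 ^ 25 * U * 258) * (8 * (D.B - D.A) * ((β : ℝ) ^ k') ^ 2))) := by ring
          _ ≤ (8016 * (ψ * ψ')) * (((β : ℝ) ^ (∑ j, l j) * (β : ℝ) ^ (∑ j, l' j)) *
              ((2 ^ 25 * U * 258) * (8 * (D.B - D.A) * ((β : ℝ) ^ k') ^ 2))) := by gcongr
          _ = (8016 * 2 ^ 25 * 258 * 258 * 8) * ((D.B - D.A) *
              ((β : ℝ) ^ k * ψ * (β : ℝ) ^ (∑ j, l j))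
              * ((β : ℝ) ^ k' * ψ' * (β : ℝ) ^ (∑ j, l' j))) := by
              rw [hU]
              field_simp
          _ ≤ 10 ^ 30 * ((D.B - D.A) * ((β : ℝ) ^ k * ψ * (β : ℝ) ^ (∑ j, l j))
              * ((β : ℝ) ^ k' * ψ' * (β : ℝ) ^ (∑ j, l' j))) := by
              refine mul_le_mul_of_nonneg_right (by norm_num) (by positivity)
          _ = _ := by ring

end final

end MKG
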