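import Pool.Agent.MKG.CoreA
import Pool.Agent.MKG.RegimeI
import Pool.Agent.MKG.RegimeII
import Pool.Agent.MKG.GcdSum
import Pool.Agent.MKG.ChungErdos

/-! # Second moment bookkeeping -/

open MeasureTheory Set Filter
open scoped BigOperators ENNReal Topology

namespace MKG

variable {m : ℕ} {Ω : Type*} [MeasurableSpace Ω] {ν : Measure Ω}

/-- The set attached to a vector `v`. -/
def AA (D : Family m Ω ν) (G : Set ℝ) (ψ : ℝ) (v : ℤ × ℤ × (Fin m → ℤ)) : Set (ℝ × Ω) :=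
  {z | z.1 ∈ G ∧ |lin (fun t => D.F t z.2) v z.1| < ψ}

theorem measurableSet_AA (D : Family m Ω ν) {G : Set ℝ} (hG : MeasurableSet G) (ψ : ℝ)
    (v : ℤ × ℤ × (Fin m → ℤ)) : MeasurableSet (AA D G ψ v) :=
  (measurable_fst hG).inter
    (measurableSet_lt (measurable_abs.comp (measurable_lin D v)) measurable_const)

theorem prod_apply_le [SFinite ν] {S : Set (ℝ × Ω)} (hS : MeasurableSet S) :
    (volume.prod ν) S = ∫⁻ ω, volume {t : ℝ | (t, ω) ∈ S} ∂ν :=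
  Measure.prod_apply_symm hS

/-- Regime I, integrated over `ω`. -/
theorem pairI [IsFiniteMeasure ν] (D : Family m Ω ν) {β : ℕ} (hβ : 1024 ≤ β) {k k' : ℕ}
    (hkk : k' ≤ k) {Gk Gk' : Set ℝ} (hGm : MeasurableSet Gk) (hGm' : MeasurableSet Gk')
    (hGs : Gk ⊆ Icc D.A D.B) (hsp : Spaced (β ^ k) Gk)
    (l l' : Fin m → ℕ) (Z Z' : ℕ) {ψ ψ' : ℝ} (hψ0 : 0 < ψ) (hψ'0 : 0 < ψ')
    (hψ : ψ * (β : ℝ) ^ k ≤ 1) (hψ' : ψ' * (β : ℝ) ^ k' ≤ 1)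
    (hreg : (β : ℝ) ^ k' ≤ ((β : ℝ) ^ k) ^ 2 * ψ')
    (hsm : 4 * (m : ℝ) * D.M * (1 + (D.B - D.A)) * (β : ℝ) ^ (∑ j, l j) ≤ (β : ℝ) ^ k)
    (hsm' : 4 * (m : ℝ) * D.M * (1 + (D.B - D.A)) * (β : ℝ) ^ (∑ j, l' j) ≤ (β : ℝ) ^ k')
    (hsm'' : 4 * (m : ℝ) * D.M * (β : ℝ) ^ (∑ j, l' j) + 4 ≤ (β : ℝ) ^ k' * (D.B - D.A)) :
    ∑ v ∈ shape β (β ^ k) l Z, ∑ v' ∈ shape β (β ^ k') l' Z',
      (volume.prod ν) (AA D Gk ψ v ∩ AA D Gk' ψ' v')
      ≤ ENNReal.ofReal (10 ^ 15 * (D.B - D.A) * ((β : ℝ) ^ k * ψ * (β : ℝ) ^ (∑ j, l j))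
          * ((β : ℝ) ^ k' * ψ' * (β : ℝ) ^ (∑ j, l' j))) * ν univ := by
  have hN : 1 ≤ β ^ k' := Nat.one_le_pow _ _ (by omega)
  have hNN : β ^ k' ≤ β ^ k := Nat.pow_le_pow_right (by omega) hkk
  calc ∑ v ∈ shape β (β ^ k) l Z, ∑ v' ∈ shape β (β ^ k') l' Z',
      (volume.prod ν) (AA D Gk ψ v ∩ AA D Gk' ψ' v')
      = ∫⁻ ω, ∑ v ∈ shape β (β ^ k) l Z, ∑ v' ∈ shape β (β ^ k') l' Z',
          volume {t : ℝ | (t, ω) ∈ AA D Gk ψ v ∩ AA D Gk' ψ' v'} ∂ν := by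
        have hms : ∀ v v', MeasurableSet (AA D Gk ψ v ∩ AA D Gk' ψ' v') := fun v v' =>
          (measurableSet_AA D hGm ψ v).inter (measurableSet_AA D hGm' ψ' v')
        have hmf : ∀ v v', Measurable (fun ω : Ω =>
            volume {t : ℝ | (t, ω) ∈ AA D Gk ψ v ∩ AA D Gk' ψ' v'}) := fun v v' =>
          measurable_measure_prodMk_right (hms v v')
        rw [lintegral_finsetSum _ fun v _ => Finset.measurable_sum _ fun v' _ => hmf v v']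
        refine Finset.sum_congr rfl fun v _ => ?_
        rw [lintegral_finsetSum _ fun v' _ => hmf v v']
        exact Finset.sum_congr rfl fun v' _ => prod_apply_le (hms v v')
    _ ≤ ∫⁻ _ω, ENNReal.ofReal (10 ^ 15 * (D.B - D.A) * ((β : ℝ) ^ k * ψ * (β : ℝ) ^ (∑ j, l j))
          * ((β : ℝ) ^ k' * ψ' * (β : ℝ) ^ (∑ j, l' j))) ∂ν := by
        refine lintegral_mono fun ω => ?_
        have h := regimeI (D.curve ω) D.hAB D.hM hβ hN hNN l l' Z Z' hψ0 hψ'0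
          (by push_cast; exact hψ) (by push_cast; exact hψ') (by push_cast; exact hreg)
          (by push_cast; exact hsm) (by push_cast; exact hsm') (by push_cast; exact hsm'')
          Gk hGm hGs hsp
        push_cast at h
        refine le_trans ?_ h
        refine Finset.sum_le_sum fun v _ => Finset.sum_le_sum fun v' _ => measure_mono ?_
        rintro t ⟨h1, h2⟩
        exact ⟨h1.1, h1.2, h2.2⟩
    _ = _ := by rw [lintegral_const]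

open Classical in
/-- Regime II, non-parallel pairs. -/
theorem pairII_nonpar {D : Family m Ω ν} {β k k' : ℕ} (Gk : Set ℝ) (S : CellSys D k' (β ^ k'))
    (l l' : Fin m → ℕ) (Z Z' : ℕ) {ψ ψ' : ℝ} {b : ℝ≥0∞}
    (h : ∑ v ∈ shape β (β ^ k) l Z, ∑ v' ∈ shape β (β ^ k') l' Z',
        (if Par v v' then 0 else (volume.prod ν) {z : ℝ × Ω | z.1 ∈ S.good ∧
          |lin (fun t => D.F t z.2) v z.1| < ψ ∧ |lin (fun t => D.F t z.2) v' z.1| < ψ'}) ≤ b) :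
    ∑ v ∈ shape β (β ^ k) l Z, ∑ v' ∈ shape β (β ^ k') l' Z',
      (if Par v v' then 0 else (volume.prod ν) (AA D Gk ψ v ∩ AA D S.good ψ' v')) ≤ b := by
  refine le_trans ?_ h
  refine Finset.sum_le_sum fun v _ => Finset.sum_le_sum fun v' _ => ?_
  split_ifs
  · exact le_rfl
  · refine measure_mono ?_
    rintro z ⟨h1, h2⟩
    exact ⟨h2.1, h1.2, h2.2⟩

/-- gcd sum, integrated over `ω`. -/
theorem gcd_sum_prod [IsFiniteMeasure ν] (D : Family m Ω ν) {β : ℕ} (hβ : 1024 ≤ β) {k : ℕ}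
    {Gk : Set ℝ} (hGm : MeasurableSet Gk) (hGs : Gk ⊆ Icc D.A D.B)
    (l : Fin m → ℕ) (j₀ : Fin m) (Z : ℕ) {ψ : ℝ} (hψ0 : 0 < ψ) (hψ : ψ * (β : ℝ) ^ k ≤ 1)
    (hsm : 4 * (m : ℝ) * D.M * (1 + (D.B - D.A)) * (β : ℝ) ^ (∑ j, l j) ≤ (β : ℝ) ^ k)
    (hsm'' : 4 * (m : ℝ) * D.M * (β : ℝ) ^ (∑ j, l j) + 4 ≤ (β : ℝ) ^ k * (D.B - D.A)) :
    ∑ v ∈ shape β (β ^ k) l Z, (Int.gcd v.1 (Int.gcd v.2.1 (v.2.2 j₀)) : ℝ≥0∞) *
      (volume.prod ν) (AA D Gk ψ v)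
      ≤ ENNReal.ofReal (10 ^ 10 * (D.B - D.A) * ((β : ℝ) ^ k * ψ * (β : ℝ) ^ (∑ j, l j)))
        * ν univ := by
  have hN : 1 ≤ β ^ k := Nat.one_le_pow _ _ (by omega)
  calc ∑ v ∈ shape β (β ^ k) l Z, (Int.gcd v.1 (Int.gcd v.2.1 (v.2.2 j₀)) : ℝ≥0∞) *
      (volume.prod ν) (AA D Gk ψ v)
      = ∫⁻ ω, ∑ v ∈ shape β (β ^ k) l Z, (Int.gcd v.1 (Int.gcd v.2.1 (v.2.2 j₀)) : ℝ≥0∞) *
          volume {t : ℝ | (t, ω) ∈ AA D Gk ψ v} ∂ν := by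
        have hmf : ∀ v, Measurable (fun ω : Ω =>
            volume {t : ℝ | (t, ω) ∈ AA D Gk ψ v}) := fun v =>
          measurable_measure_prodMk_right (measurableSet_AA D hGm ψ v)
        rw [lintegral_finsetSum _ fun v _ => (hmf v).const_mul _]
        refine Finset.sum_congr rfl fun v _ => ?_
        rw [lintegral_const_mul _ (hmf v), prod_apply_le (measurableSet_AA D hGm ψ v)]
    _ ≤ ∫⁻ _ω, ENNReal.ofReal (10 ^ 10 * (D.B - D.A) * ((β : ℝ) ^ k * ψ * (β : ℝ) ^ (∑ j, l j))) ∂ν := by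
        refine lintegral_mono fun ω => ?_
        have h := gcd_sum (D.curve ω) D.hAB D.hM hβ hN l j₀ Z hψ0
          (by push_cast; exact hψ) (by push_cast; exact hsm) (by push_cast; exact hsm'')
        push_cast at h
        refine le_trans ?_ h
        refine Finset.sum_le_sum fun v _ => mul_le_mul_right (measure_mono ?_) _
        rintro t ⟨h1, h2⟩
        exact ⟨hGs h1, h2⟩
    _ = _ := by rw [lintegral_const]

/-- first moment, integrated over `ω` -/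
theorem first_moment_prod [IsFiniteMeasure ν] (D : Family m Ω ν) {β k : ℕ} (hβ : 1 ≤ β)
    (S : CellSys D k (β ^ k)) (l : Fin m → ℕ) (Z : ℕ)
    (hZ : 500 * (β : ℝ) ^ k * (|D.A| + |D.B|) + 2 * m * (β : ℝ) ^ (∑ j, l j) * D.M + 1 ≤ Z)
    {ψ : ℝ} (hψ0 : 0 < ψ) (hψ : ψ * (β : ℝ) ^ k ≤ 1 / 8)
    (herr : 4 * (m : ℝ) * D.M * (2 * (β : ℝ) ^ (∑ j, l j)) ≤ ψ * ((β : ℝ) ^ k) ^ 4)
    (hsm : 4 * (m : ℝ) * D.M * (2 * (β : ℝ) ^ (∑ j, l j)) ≤ (β : ℝ) ^ k) :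
    ENNReal.ofReal ((D.B - D.A) * ((β : ℝ) ^ k * ψ * (β : ℝ) ^ (∑ j, l j)) / (5 * 10 ^ 6)) * ν univ
      ≤ ∑ v ∈ shape β (β ^ k) l Z, (volume.prod ν) (AA D S.good ψ v) := by
  rw [← lintegral_const]
  calc ∫⁻ _ω, ENNReal.ofReal ((D.B - D.A) * ((β : ℝ) ^ k * ψ * (β : ℝ) ^ (∑ j, l j)) / (5 * 10 ^ 6)) ∂ν
      ≤ ∫⁻ ω, ∑ v ∈ shape β (β ^ k) l Z, volume {t : ℝ | (t, ω) ∈ AA D S.good ψ v} ∂ν := by
        refine lintegral_mono fun ω => ?_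
        exact first_moment D hβ S l Z hZ hψ0 hψ herr hsm ω
    _ = _ := by
        have hmf : ∀ v, Measurable (fun ω : Ω =>
            volume {t : ℝ | (t, ω) ∈ AA D S.good ψ v}) := fun v =>
          measurable_measure_prodMk_right (measurableSet_AA D S.measurableSet_good ψ v)
        rw [lintegral_finsetSum _ fun v _ => hmf v]
        exact Finset.sum_congr rfl fun v _ => (prod_apply_le (measurableSet_AA D S.measurableSet_good ψ v)).symm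

end MKG
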