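import Pool.Agent.MKG.CoreB

/-! # Combination over a finite set of shapes -/

open MeasureTheory Set Filter
open scoped BigOperators ENNReal Topology

namespace MKG

variable {m : ℕ} {Ω : Type*} [MeasurableSpace Ω] {ν : Measure Ω}

open Classical in
theorem core_comb [IsFiniteMeasure ν] (D : Family m Ω ν) {β : ℕ} (hβ : 1024 ≤ β) (j₀ : Fin m)
    {σ : Type*} (𝒮 : Finset σ) (kk : σ → ℕ) (ll : σ → Fin m → ℕ) (ψ : σ → ℝ) (ZZ : σ → ℕ)
    (Gd : σ → Set ℝ) (hGm : ∀ s ∈ 𝒮, MeasurableSet (Gd s)) (δ : σ → ℝ) (hδ0 : ∀ s ∈ 𝒮, 0 ≤ δ s)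
    (hfirst : ∀ s ∈ 𝒮, ENNReal.ofReal ((D.B - D.A) * δ s / (5 * 10 ^ 6)) * ν univ
      ≤ ∑ v ∈ shape β (β ^ kk s) (ll s) (ZZ s), (volume.prod ν) (AA D (Gd s) (ψ s) v))
    (hgcd : ∀ s ∈ 𝒮, ∑ v ∈ shape β (β ^ kk s) (ll s) (ZZ s),
      (Int.gcd v.1 (Int.gcd v.2.1 (v.2.2 j₀)) : ℝ≥0∞) * (volume.prod ν) (AA D (Gd s) (ψ s) v)
      ≤ ENNReal.ofReal (10 ^ 10 * (D.B - D.A) * δ s) * ν univ)
    (hpair : ∀ s ∈ 𝒮, ∀ s' ∈ 𝒮, kk s' ≤ kk s →
      ∑ v ∈ shape β (β ^ kk s) (ll s) (ZZ s), ∑ v' ∈ shape β (β ^ kk s') (ll s') (ZZ s'),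
        (if Par v v' then 0 else
          (volume.prod ν) (AA D (Gd s) (ψ s) v ∩ AA D (Gd s') (ψ s') v'))
      ≤ ENNReal.ofReal (10 ^ 30 * (D.B - D.A) * δ s * δ s') * ν univ)
    (hinj : ∀ s ∈ 𝒮, ∀ s' ∈ 𝒮, ∀ v, v ∈ shape β (β ^ kk s) (ll s) (ZZ s) →
      v ∈ shape β (β ^ kk s') (ll s') (ZZ s') → s = s')
    (hsum : 1 ≤ ∑ s ∈ 𝒮, δ s) :
    ENNReal.ofReal (10⁻¹ ^ 50 * (D.B - D.A)) * ν univ
      ≤ (volume.prod ν) (⋃ s ∈ 𝒮, ⋃ v ∈ shape β (β ^ kk s) (ll s) (ZZ s), AA D (Gd s) (ψ s) v) := by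
  set Vs : σ → Finset (ℤ × ℤ × (Fin m → ℤ)) := fun s => shape β (β ^ kk s) (ll s) (ZZ s) with hVs
  set μ : Measure (ℝ × Ω) := volume.prod ν with hμ
  set A : (Σ _ : σ, ℤ × ℤ × (Fin m → ℤ)) → Set (ℝ × Ω) := fun i => AA D (Gd i.1) (ψ i.1) i.2 with hA
  set I : Finset (Σ _ : σ, ℤ × ℤ × (Fin m → ℤ)) := 𝒮.sigma Vs with hI
  have hBA : 0 < D.B - D.A := by have := D.hAB; linarith
  set Δ := ∑ s ∈ 𝒮, δ s with hΔ
  have hΔ1 : 1 ≤ Δ := hsum
  -- trivial case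
  by_cases hν : ν univ = 0
  · rw [hν, mul_zero]; exact zero_le
  have hUeq : (⋃ s ∈ 𝒮, ⋃ v ∈ Vs s, AA D (Gd s) (ψ s) v) = ⋃ i ∈ I, A i := by
    ext z
    simp only [Set.mem_iUnion, hI, Finset.mem_sigma, hA]
    constructor
    · rintro ⟨s, hs, v, hv, hz⟩; exact ⟨⟨s, v⟩, ⟨hs, hv⟩, hz⟩
    · rintro ⟨⟨s, v⟩, ⟨hs, hv⟩, hz⟩; exact ⟨s, hs, v, hv, hz⟩
  rw [hUeq]
  have hAm : ∀ i ∈ I, MeasurableSet (A i) := by
    rintro ⟨s, v⟩ hi
    exact measurableSet_AA D (hGm s (Finset.mem_sigma.mp hi).1) _ _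
  -- first moment
  set V : ℝ := ν.real univ with hV
  have hVν : ν univ = ENNReal.ofReal V := by
    rw [hV, Measure.real, ENNReal.ofReal_toReal (measure_ne_top _ _)]
  have hV0 : 0 < V := by
    rw [hV, Measure.real]
    exact ENNReal.toReal_pos hν (measure_ne_top _ _)
  set a : ℝ≥0∞ := ENNReal.ofReal ((D.B - D.A) * Δ / (5 * 10 ^ 6) * V) with ha
  set b : ℝ≥0∞ := ENNReal.ofReal (3 * 10 ^ 30 * (D.B - D.A) * Δ ^ 2 * V) with hb
  have hΔ0 : 0 < Δ := by linarith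
  have haSum : a ≤ ∑ i ∈ I, μ (A i) := by
    rw [hI, Finset.sum_sigma]
    have h1 : a = ∑ s ∈ 𝒮, ENNReal.ofReal ((D.B - D.A) * δ s / (5 * 10 ^ 6)) * ν univ := by
      rw [← Finset.sum_mul, hVν, ← ENNReal.ofReal_sum_of_nonneg
        (fun s hs => by have := hδ0 s hs; positivity), ← ENNReal.ofReal_mul
        (Finset.sum_nonneg fun s hs => by have := hδ0 s hs; positivity)]
      rw [ha]; congr 2
      rw [← Finset.sum_div, ← Finset.mul_sum]
    rw [h1]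
    exact Finset.sum_le_sum hfirst
  -- pair sums
  set M : σ → σ → ℝ≥0∞ := fun s s' => ∑ v ∈ Vs s, ∑ v' ∈ Vs s',
    μ (AA D (Gd s) (ψ s) v ∩ AA D (Gd s') (ψ s') v') with hM
  have hMsymm : ∀ s s', M s s' = M s' s := by
    intro s s'
    simp only [hM]
    rw [Finset.sum_comm]
    refine Finset.sum_congr rfl fun v _ => Finset.sum_congr rfl fun v' _ => ?_
    rw [Set.inter_comm]
  set NP : σ → σ → ℝ≥0∞ := fun s s' => ∑ v ∈ Vs s, ∑ v' ∈ Vs s',
    (if Par v v' then 0 else μ (AA D (Gd s) (ψ s) v ∩ AA D (Gd s') (ψ s') v')) with hNP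
  set PP : σ → σ → ℝ≥0∞ := fun s s' => ∑ v ∈ Vs s, ∑ v' ∈ Vs s',
    (if Par v v' then μ (AA D (Gd s) (ψ s) v ∩ AA D (Gd s') (ψ s') v') else 0) with hPP
  have hMsplit : ∀ s s', M s s' = NP s s' + PP s s' := by
    intro s s'
    simp only [hM, hNP, hPP, ← Finset.sum_add_distrib]
    refine Finset.sum_congr rfl fun v _ => Finset.sum_congr rfl fun v' _ => ?_
    split_ifs <;> simp
  have htotal : ∑ i ∈ I, ∑ j ∈ I, μ (A i ∩ A j) = ∑ s ∈ 𝒮, ∑ s' ∈ 𝒮, M s s' := by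
    rw [hI, Finset.sum_sigma]
    refine Finset.sum_congr rfl fun s _ => ?_
    simp only [hM]
    symm
    rw [Finset.sum_comm]
    refine Finset.sum_congr rfl fun v _ => ?_
    rw [Finset.sum_sigma]
  have hhalf : ∑ s ∈ 𝒮, ∑ s' ∈ 𝒮, M s s'
      ≤ 2 * ∑ s ∈ 𝒮, ∑ s' ∈ 𝒮.filter (fun s' => kk s' ≤ kk s), M s s' := by
    have h1 : ∑ s ∈ 𝒮, ∑ s' ∈ 𝒮, M s s'
        ≤ ∑ s ∈ 𝒮, ∑ s' ∈ 𝒮.filter (fun s' => kk s' ≤ kk s), M s s'
          + ∑ s ∈ 𝒮, ∑ s' ∈ 𝒮.filter (fun s' => kk s ≤ kk s'), M s s' := by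
      rw [← Finset.sum_add_distrib]
      refine Finset.sum_le_sum fun s _ => ?_
      rw [Finset.sum_filter, Finset.sum_filter, ← Finset.sum_add_distrib]
      refine Finset.sum_le_sum fun s' _ => ?_
      rcases le_total (kk s') (kk s) with h | h
      · rw [if_pos h]; exact le_self_add
      · rw [if_pos h]; exact le_add_self
    have h2 : ∑ s ∈ 𝒮, ∑ s' ∈ 𝒮.filter (fun s' => kk s ≤ kk s'), M s s'
        = ∑ s ∈ 𝒮, ∑ s' ∈ 𝒮.filter (fun s' => kk s' ≤ kk s), M s s' := by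
      simp only [Finset.sum_filter]
      rw [Finset.sum_comm]
      refine Finset.sum_congr rfl fun s _ => Finset.sum_congr rfl fun s' _ => ?_
      rw [hMsymm s' s]
    rw [h2] at h1
    rw [two_mul]
    exact h1
  -- non-parallel part
  have hNPsum : ∑ s ∈ 𝒮, ∑ s' ∈ 𝒮.filter (fun s' => kk s' ≤ kk s), NP s s'
      ≤ ENNReal.ofReal (10 ^ 30 * (D.B - D.A) * Δ ^ 2 * V) := by
    calc ∑ s ∈ 𝒮, ∑ s' ∈ 𝒮.filter (fun s' => kk s' ≤ kk s), NP s s'
        ≤ ∑ s ∈ 𝒮, ∑ s' ∈ 𝒮, ENNReal.ofReal (10 ^ 30 * (D.B - D.A) * δ s * δ s') * ν univ := by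
          refine Finset.sum_le_sum fun s hs => ?_
          rw [Finset.sum_filter]
          refine Finset.sum_le_sum fun s' hs' => ?_
          split_ifs with h
          · exact hpair s hs s' hs' h
          · exact zero_le
      _ = _ := by
          simp only [← Finset.sum_mul]
          rw [hVν]
          have : ∀ s ∈ 𝒮, ∑ s' ∈ 𝒮, ENNReal.ofReal (10 ^ 30 * (D.B - D.A) * δ s * δ s')
              = ENNReal.ofReal (10 ^ 30 * (D.B - D.A) * δ s * Δ) := by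
            intro s hs
            rw [← ENNReal.ofReal_sum_of_nonneg (fun s' hs' => by
              have := hδ0 s hs; have := hδ0 s' hs'; positivity), ← Finset.mul_sum]
          rw [Finset.sum_congr rfl this, ← ENNReal.ofReal_sum_of_nonneg (fun s hs => by
              have := hδ0 s hs; positivity), ← Finset.sum_mul, ← Finset.mul_sum,
              ← ENNReal.ofReal_mul (by positivity)]
          congr 1; ring
  -- parallel part
  have hPPsum : ∑ s ∈ 𝒮, ∑ s' ∈ 𝒮.filter (fun s' => kk s' ≤ kk s), PP s s'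
      ≤ ENNReal.ofReal (500 * 10 ^ 10 * (D.B - D.A) * Δ * V) := by
    have hone : ∀ s ∈ 𝒮, ∑ s' ∈ 𝒮.filter (fun s' => kk s' ≤ kk s), PP s s'
        ≤ 500 * ∑ v ∈ Vs s, (Int.gcd v.1 (Int.gcd v.2.1 (v.2.2 j₀)) : ℝ≥0∞) *
          μ (AA D (Gd s) (ψ s) v) := by
      intro s hs
      simp only [hPP]
      rw [Finset.sum_comm, Finset.mul_sum]
      refine Finset.sum_le_sum fun v hv => ?_
      have hvN : ((β ^ kk s : ℕ) : ℤ) ≤ v.2.1 := by
        simp only [hVs, shape] at hv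
        rw [Finset.mem_product, Finset.mem_product, Finset.mem_Icc, Finset.mem_Icc] at hv
        exact hv.2.1.1
      set T : Finset (Σ _ : σ, ℤ × ℤ × (Fin m → ℤ)) :=
        ((𝒮.filter (fun s' => kk s' ≤ kk s)).sigma Vs).filter (fun i => Par v i.2) with hT
      have hTcard : T.card ≤ 500 * Int.gcd v.1 (Int.gcd v.2.1 (v.2.2 j₀)) := by
        have himg : T.card = (T.image (fun i => i.2)).card := by
          symm
          apply Finset.card_image_of_injOn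
          rintro ⟨s₁, v₁⟩ h1 ⟨s₂, v₂⟩ h2 h12
          simp only at h12
          subst h12
          rw [hT, Finset.mem_coe, Finset.mem_filter, Finset.mem_sigma, Finset.mem_filter] at h1 h2
          have : s₁ = s₂ := hinj s₁ h1.1.1.1 s₂ h2.1.1.1 v₁ h1.1.2 h2.1.2
          subst this
          rfl
        rw [himg]
        refine par_count j₀ (N := β ^ kk s) (Nat.one_le_pow _ _ (by omega)) v hvN _ ?_
        intro w hw
        obtain ⟨⟨s', w'⟩, hi, rfl⟩ := Finset.mem_image.mp hw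
        rw [hT, Finset.mem_filter, Finset.mem_sigma, Finset.mem_filter] at hi
        obtain ⟨⟨⟨hs', hkk⟩, hw'⟩, hpar⟩ := hi
        simp only [hVs, shape] at hw'
        rw [Finset.mem_product, Finset.mem_product, Finset.mem_Icc, Finset.mem_Icc] at hw'
        have h1 : (1 : ℤ) ≤ ((β ^ kk s' : ℕ) : ℤ) := by
          exact_mod_cast Nat.one_le_pow _ _ (by omega)
        have h2 : ((β ^ kk s' : ℕ) : ℤ) ≤ ((β ^ kk s : ℕ) : ℤ) := by
          exact_mod_cast Nat.pow_le_pow_right (by omega) hkk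
        exact ⟨h1.trans hw'.2.1.1, hw'.2.1.2.trans (by linarith), hpar⟩
      calc ∑ s' ∈ 𝒮.filter (fun s' => kk s' ≤ kk s), ∑ v' ∈ Vs s',
            (if Par v v' then μ (AA D (Gd s) (ψ s) v ∩ AA D (Gd s') (ψ s') v') else 0)
          ≤ ∑ s' ∈ 𝒮.filter (fun s' => kk s' ≤ kk s), ∑ v' ∈ Vs s',
            (if Par v v' then μ (AA D (Gd s) (ψ s) v) else 0) := by
            refine Finset.sum_le_sum fun s' _ => Finset.sum_le_sum fun v' _ => ?_
            split_ifs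
            · exact measure_mono Set.inter_subset_left
            · exact le_rfl
        _ = (T.card : ℝ≥0∞) * μ (AA D (Gd s) (ψ s) v) := by
            rw [← Finset.sum_sigma (𝒮.filter (fun s' => kk s' ≤ kk s)) Vs
              (fun i => if Par v i.2 then μ (AA D (Gd s) (ψ s) v) else 0),
              ← Finset.sum_filter, Finset.sum_const, nsmul_eq_mul]
        _ ≤ ((500 * Int.gcd v.1 (Int.gcd v.2.1 (v.2.2 j₀)) : ℕ) : ℝ≥0∞) * μ (AA D (Gd s) (ψ s) v) := by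
            gcongr
        _ = _ := by push_cast; ring
    calc ∑ s ∈ 𝒮, ∑ s' ∈ 𝒮.filter (fun s' => kk s' ≤ kk s), PP s s'
        ≤ ∑ s ∈ 𝒮, 500 * (ENNReal.ofReal (10 ^ 10 * (D.B - D.A) * δ s) * ν univ) := by
          refine Finset.sum_le_sum fun s hs => (hone s hs).trans ?_
          exact mul_le_mul_right (hgcd s hs) _
      _ = _ := by
          rw [← Finset.mul_sum, ← Finset.sum_mul, hVν, ← ENNReal.ofReal_sum_of_nonneg
            (fun s hs => by have := hδ0 s hs; positivity), ← Finset.mul_sum,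
            ← ENNReal.ofReal_mul (by positivity)]
          have : (500 : ℝ≥0∞) = ENNReal.ofReal 500 := by simp
          rw [this, ← ENNReal.ofReal_mul (by norm_num)]
          congr 1; ring
  have hbSum : ∑ i ∈ I, ∑ j ∈ I, μ (A i ∩ A j) ≤ b := by
    rw [htotal]
    refine hhalf.trans ?_
    have h1 : ∑ s ∈ 𝒮, ∑ s' ∈ 𝒮.filter (fun s' => kk s' ≤ kk s), M s s'
        = ∑ s ∈ 𝒮, ∑ s' ∈ 𝒮.filter (fun s' => kk s' ≤ kk s), NP s s'
          + ∑ s ∈ 𝒮, ∑ s' ∈ 𝒮.filter (fun s' => kk s' ≤ kk s), PP s s' := by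
      simp only [hMsplit, Finset.sum_add_distrib]
    rw [h1]
    calc _ ≤ 2 * (ENNReal.ofReal (10 ^ 30 * (D.B - D.A) * Δ ^ 2 * V)
          + ENNReal.ofReal (500 * 10 ^ 10 * (D.B - D.A) * Δ * V)) :=
          mul_le_mul_right (add_le_add hNPsum hPPsum) _
      _ = ENNReal.ofReal (2 * (10 ^ 30 * (D.B - D.A) * Δ ^ 2 * V + 500 * 10 ^ 10 * (D.B - D.A) * Δ * V)) := by
          rw [← ENNReal.ofReal_add (by positivity) (by positivity), ENNReal.ofReal_mul (by norm_num)]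
          simp
      _ ≤ b := by
          rw [hb]
          apply ENNReal.ofReal_le_ofReal
          have h2 : Δ ≤ Δ ^ 2 := by nlinarith
          have h3 : (D.B - D.A) * Δ * V ≤ (D.B - D.A) * Δ ^ 2 * V := by gcongr
          have h4 : 0 ≤ (D.B - D.A) * Δ ^ 2 * V := by positivity
          linarith
  have hce := chung_erdos μ I A hAm a b haSum
    (by rw [ha]; exact (ENNReal.ofReal_pos.mpr (by positivity)).ne') ENNReal.ofReal_ne_top
    hbSum ENNReal.ofReal_ne_top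
  refine le_trans ?_ hce
  rw [ha, hb, hVν, ← ENNReal.ofReal_pow (by positivity), ← ENNReal.ofReal_div_of_pos (by positivity),
    ← ENNReal.ofReal_mul (by positivity)]
  apply ENNReal.ofReal_le_ofReal
  rw [le_div_iff₀ (by positivity)]
  have h4 : 0 ≤ ((D.B - D.A) * Δ * V) ^ 2 := by positivity
  calc 10⁻¹ ^ 50 * (D.B - D.A) * V * (3 * 10 ^ 30 * (D.B - D.A) * Δ ^ 2 * V)
      = (10⁻¹ ^ 50 * (3 * 10 ^ 30)) * ((D.B - D.A) * Δ * V) ^ 2 := by ring
    _ ≤ (1 / (5 * 10 ^ 6)) ^ 2 * ((D.B - D.A) * Δ * V) ^ 2 := by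
        apply mul_le_mul_of_nonneg_right _ h4
        norm_num
    _ = _ := by ring

end MKG
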