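import Mathlib

/-!
# Core definitions for the divergence multiplicative Khintchine–Groshev problem (MP_99fd1a_nt)
-/

open MeasureTheory Set Filter
open scoped BigOperators ENNReal Topology

namespace MKG

/-- `e x = exp (2π i x)`. -/
noncomputable def e (x : ℝ) : ℂ := Complex.exp ((2 * Real.pi * x : ℝ) * Complex.I)

/-- Pairing of an integer vector with a real vector. -/
def dot {m : ℕ} (a : Fin m → ℤ) (y : Fin m → ℝ) : ℝ := ∑ j, (a j : ℝ) * y j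

/-- The linear form `p + r t + a · G(t)` attached to `v = (p, r, a)`. -/
def lin {m : ℕ} (G : ℝ → Fin m → ℝ) (v : ℤ × ℤ × (Fin m → ℤ)) (t : ℝ) : ℝ :=
  (v.1 : ℝ) + (v.2.1 : ℝ) * t + dot v.2.2 (G t)

/-- A curve with bounded derivative `G'` and quadratic Taylor remainder on `[A, B]`. -/
structure IsCurve {m : ℕ} (A B M : ℝ) (G G' : ℝ → Fin m → ℝ) : Prop where
  bd : ∀ t ∈ Icc A B, ∀ j, |G t j| ≤ M
  bd' : ∀ t ∈ Icc A B, ∀ j, |G' t j| ≤ M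
  qr : ∀ t ∈ Icc A B, ∀ u ∈ Icc A B, ∀ j, |G u j - G t j - (u - t) * G' t j| ≤ M * (u - t) ^ 2

/-- A measurable family of curves `t ↦ F(t, ω)`, `ω ∈ (Ω, ν)`, with the uniform sublevel
estimate `us`. -/
structure Family (m : ℕ) (Ω : Type*) [MeasurableSpace Ω] (ν : Measure Ω) where
  F : ℝ → Ω → Fin m → ℝ
  F' : ℝ → Ω → Fin m → ℝ
  A : ℝ
  B : ℝ
  M : ℝ
  K : ℕ
  C : ℝ
  hAB : A < B
  hM : 1 ≤ M
  hK : 1 ≤ K
  hC : 0 < C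
  meas : ∀ j, Measurable (fun z : ℝ × Ω => F z.1 z.2 j)
  curve : ∀ ω, IsCurve A B M (fun t => F t ω) (fun t => F' t ω)
  us : ∀ H : Fin m → ℤ, H ≠ 0 → ∀ i j : ℤ, ∀ x : ℝ, 0 < x → x ≤ 1 →
    ((volume.restrict (Icc A B)).prod ν)
      {z : ℝ × Ω | |dot H (F z.1 z.2) - j * z.1 - i| < x ^ K} ≤ ENNReal.ofReal (C * x)

/-- A cell is given by its two vertices `(q₁, b₁)`, `(q₂, b₂)`. -/
abbrev Cell := (ℤ × ℤ) × (ℤ × ℤ)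

/-- The half-open interval `[b₁/q₁, b₂/q₂)`. -/
def cellInt (g : Cell) : Set ℝ := Ico ((g.1.2 : ℝ) / g.1.1) ((g.2.2 : ℝ) / g.2.1)

/-- `Ψ(q, b) = q G(b/q)`. -/
noncomputable def psi {m : ℕ} (G : ℝ → Fin m → ℝ) (ρ : ℤ × ℤ) : Fin m → ℝ :=
  fun j => (ρ.1 : ℝ) * G ((ρ.2 : ℝ) / ρ.1) j

/-- The geometric properties of a unimodular cell at scale `N` inside `[A, B]`. -/
structure CellOK (A B : ℝ) (N : ℕ) (g : Cell) : Prop where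
  uni : g.1.1 * g.2.2 - g.2.1 * g.1.2 = 1
  lo₁ : 2 * (N : ℤ) ≤ g.1.1
  hi₁ : g.1.1 ≤ 27 * (N : ℤ)
  lo₂ : 2 * (N : ℤ) ≤ g.2.1
  hi₂ : g.2.1 ≤ 27 * (N : ℤ)
  left : A ≤ (g.1.2 : ℝ) / g.1.1
  right : (g.2.2 : ℝ) / g.2.1 ≤ B

/-- A system of disjoint unimodular cells at scale `N` with the Weyl bound at level `k`. -/
structure CellSys {m : ℕ} {Ω : Type*} [MeasurableSpace Ω] {ν : Measure Ω}
    (D : Family m Ω ν) (k N : ℕ) where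
  I : Finset (Cell × Cell)
  g : Cell × Cell → Cell
  ok : ∀ i ∈ I, CellOK D.A D.B N (g i)
  disj : ∀ i ∈ I, ∀ j ∈ I, i ≠ j → Disjoint (cellInt (g i)) (cellInt (g j))
  card_lo : (D.B - D.A) * (N : ℝ) ^ 2 / 5000 ≤ (I.card : ℝ)
  card_hi : (I.card : ℝ) ≤ 8 * (D.B - D.A) * (N : ℝ) ^ 2
  weyl : ∀ H₁ H₂ : Fin m → ℤ, (H₁ ≠ 0 ∨ H₂ ≠ 0) →
    (∀ j, |H₁ j| ≤ 2 ^ (5 * k)) → (∀ j, |H₂ j| ≤ 2 ^ (5 * k)) →
    ‖∑ i ∈ I, ∫ ω, e (dot H₁ (psi (fun t => D.F t ω) (g i).1)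
        + dot H₂ (psi (fun t => D.F t ω) (g i).2)) ∂ν‖ ≤ (N : ℝ) ^ 2 / 2 ^ (13 * k)

/-- The union of the cells. -/
def CellSys.good {m : ℕ} {Ω : Type*} [MeasurableSpace Ω] {ν : Measure Ω}
    {D : Family m Ω ν} {k N : ℕ} (S : CellSys D k N) : Set ℝ :=
  ⋃ i ∈ S.I, cellInt (S.g i)

/-- The set of integer vectors `v = (p, r, a)` of shape `(N; β^{l_j})`, `|p| ≤ Z`. -/
noncomputable def shape {m : ℕ} (β N : ℕ) (l : Fin m → ℕ) (Z : ℕ) : Finset (ℤ × ℤ × (Fin m → ℤ)) :=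
  Finset.Icc (-(Z : ℤ)) (Z : ℤ) ×ˢ (Finset.Icc (N : ℤ) (500 * (N : ℤ)) ×ˢ
    Fintype.piFinset (fun j => Finset.Ico ((β : ℤ) ^ (l j)) (2 * (β : ℤ) ^ (l j))))

/-- Two vectors are parallel. -/
def Par {m : ℕ} (v w : ℤ × ℤ × (Fin m → ℤ)) : Prop :=
  v.2.1 * w.1 = w.2.1 * v.1 ∧ ∀ j, v.2.1 * w.2.2 j = w.2.1 * v.2.2 j

end MKG
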