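import Pool.Agent.MKG.Defs

/-!
# From positive proportion on all cubes to full measure
-/

open MeasureTheory Set Filter
open scoped BigOperators ENNReal Topology

namespace MKG

/-! ### O. From positive proportion on all cubes to full measure -/
theorem full_of_proportion {d : ℕ} (V : Set (Fin d → ℝ)) (hV : IsOpen V) (G : Set (Fin d → ℝ))
    (c : ℝ) (hc : 0 < c)
    (h : ∀ y r, 0 < r → Metric.closedBall y r ⊆ V →
      ENNReal.ofReal c * volume (Metric.closedBall y r) ≤ volume (G ∩ Metric.closedBall y r))
    (hG : MeasurableSet G) :
    volume (V \ G) = 0 := by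
  have hs : MeasurableSet (V \ G) := hV.measurableSet.diff hG
  have h1 := Besicovitch.ae_tendsto_measure_inter_div
    (volume : Measure (Fin d → ℝ)) (V \ G)
  have h2 : ∀ᵐ x ∂(volume.restrict (V \ G)), False := by
    filter_upwards [h1, ae_restrict_mem hs] with x hx hxs
    obtain ⟨ε, hε, hεV⟩ := Metric.isOpen_iff.1 hV x hxs.1
    have hev : ∀ᶠ r : ℝ in 𝓝[>] 0, volume ((V \ G) ∩ Metric.closedBall x r) /
        volume (Metric.closedBall x r) + ENNReal.ofReal c ≤ 1 := by
      have hr1 : ∀ᶠ r : ℝ in 𝓝[>] 0, r < ε :=
        mem_nhdsWithin_of_mem_nhds (Iio_mem_nhds hε)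
      filter_upwards [self_mem_nhdsWithin, hr1] with r hr hr1
      have hr0 : 0 < r := hr
      have hB : Metric.closedBall x r ⊆ V :=
        (Metric.closedBall_subset_ball hr1).trans hεV
      have hpos : volume (Metric.closedBall x r) ≠ 0 :=
        (Metric.measure_closedBall_pos volume x hr0).ne'
      have hfin : volume (Metric.closedBall x r) ≠ ⊤ := measure_closedBall_lt_top.ne
      have h3 := h x r hr0 hB
      have h4 : volume ((V \ G) ∩ Metric.closedBall x r) +
          volume (G ∩ Metric.closedBall x r) ≤ volume (Metric.closedBall x r) := by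
        rw [← measure_union _ (hG.inter measurableSet_closedBall)]
        · refine measure_mono ?_
          rintro y (hy | hy)
          · exact hy.2
          · exact hy.2
        · rw [Set.disjoint_left]
          rintro y hy hy'
          exact hy.1.2 hy'.1
      have h5 : volume ((V \ G) ∩ Metric.closedBall x r) +
          ENNReal.ofReal c * volume (Metric.closedBall x r) ≤ volume (Metric.closedBall x r) :=
        (add_le_add le_rfl h3).trans h4
      calc volume ((V \ G) ∩ Metric.closedBall x r) / volume (Metric.closedBall x r)
            + ENNReal.ofReal c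
          = (volume ((V \ G) ∩ Metric.closedBall x r) +
            ENNReal.ofReal c * volume (Metric.closedBall x r)) /
              volume (Metric.closedBall x r) := by
            rw [ENNReal.add_div, ENNReal.mul_div_cancel_right hpos hfin]
        _ ≤ 1 := ENNReal.div_le_of_le_mul (by rwa [one_mul])
    have hlim : Tendsto (fun r => volume ((V \ G) ∩ Metric.closedBall x r) /
        volume (Metric.closedBall x r) + ENNReal.ofReal c) (𝓝[>] 0)
        (𝓝 (1 + ENNReal.ofReal c)) := hx.add tendsto_const_nhds
    have h6 : 1 + ENNReal.ofReal c ≤ 1 := le_of_tendsto hlim hev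
    have h7 : ENNReal.ofReal c ≤ 0 := by
      have : (1 : ℝ≥0∞) + ENNReal.ofReal c ≤ 1 + 0 := by rwa [add_zero]
      exact (ENNReal.add_le_add_iff_left ENNReal.one_ne_top).1 this
    have h8 : 0 < ENNReal.ofReal c := ENNReal.ofReal_pos.2 hc
    exact absurd h7 (not_le.2 h8)
  have h3 : volume.restrict (V \ G) univ = 0 := by
    have := ae_iff.1 h2
    simpa using this
  rwa [Measure.restrict_apply_univ] at h3

end MKG
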