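import Mathlib

/-! Module MKG/Res. The resolvent of `B† B` for an injective bounded operator `B` between real
Hilbert spaces.

Put T = B† ∘ B, ⟪T x, x⟫ = ‖B x‖² ≥ 0. For ε > 0 the operator T + ε is bounded and
⟪(T + ε) x, x⟫ ≥ ε ‖x‖², so it is bijective with bounded inverse S (Lax-Milgram: `IsCoercive`,
`IsCoercive.continuousLinearEquivOfBilin`, with the bilinear form `innerSL`-composed with T + ε; or show
that T + ε is self-adjoint, antilipschitz, so has closed range with trivial orthogonal complement: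
`LinearMap.IsSymmetric`, `ContinuousLinearEquiv.ofBijective`). This gives the two equations.
Bound: y given, w = S (B† y): T w + ε w = B† y, so ‖B w‖² ≤ ⟪T w + ε w, w⟫ = ⟪B† y, w⟫ = ⟪y, B w⟫ ≤ ‖y‖ ‖B w‖, so
‖B w‖ ≤ ‖y‖ and ⟪B w, y⟫ ≤ ‖y‖².
Small: ‖S x‖ ≤ ‖x‖ / ε since ε ‖S x‖² ≤ ⟪(T + ε) S x, S x⟫ = ⟪x, S x⟫ ≤ ‖x‖ ‖S x‖. If x = T w then
S x = w - ε S w, so ‖S x‖ ≤ ‖w‖ + ε ‖S w‖ ≤ 2 ‖w‖, hence |ε ⟪S x, x⟫| ≤ 2 ε ‖w‖ ‖x‖. The range of T is dense: T is
self-adjoint and injective (T x = 0 implies ‖B x‖² = 0), so the orthogonal complement of the range is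
the kernel of T (`ContinuousLinearMap.orthogonal_range`-like lemmas, `Submodule.topologicalClosure_eq_top_iff`
or `Submodule.dense_iff..`; or `DenseRange` of T). For v i choose w i with ‖v i - T w i‖ ≤ δ' where
δ' (1 + ‖v i‖) ≤ δ / 2; then |ε ⟪S (v i), v i⟫| ≤ |ε ⟪S (v i - T w i), v i⟫| + |ε ⟪S (T w i), v i⟫| ≤ δ' ‖v i‖ + 2 ε ‖w i‖ ‖v i‖ ≤ δ
for ε small enough (finitely many i).
-/

namespace Pool.Agent.MKG

open scoped InnerProductSpace

private theorem res_aux {E F : Type} [NormedAddCommGroup E] [InnerProductSpace ℝ E] [CompleteSpace E]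
    [NormedAddCommGroup F] [InnerProductSpace ℝ F] [CompleteSpace F] (B : E →L[ℝ] F)
    {ε : ℝ} (hε : 0 < ε) :
    ∃ S : E →L[ℝ] E,
      (∀ x, ContinuousLinearMap.adjoint B (B (S x)) + ε • S x = x) ∧
      (∀ x, S (ContinuousLinearMap.adjoint B (B x)) + ε • S x = x) := by
  set A : E →L[ℝ] E := (ContinuousLinearMap.adjoint B).comp B + ε • ContinuousLinearMap.id ℝ E with hA
  have hAx : ∀ x, A x = ContinuousLinearMap.adjoint B (B x) + ε • x := by
    intro x; simp [hA]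
  have hinner : ∀ x, ⟪A x, x⟫_ℝ = ‖B x‖ ^ 2 + ε * ‖x‖ ^ 2 := by
    intro x
    rw [hAx, inner_add_left, ContinuousLinearMap.adjoint_inner_left, real_inner_self_eq_norm_sq,
      inner_smul_left, real_inner_self_eq_norm_sq]
    simp
  have hu : IsUnit A := by
    refine ContinuousLinearMap.isUnit_of_forall_le_norm_inner_map A (c := ⟨ε, hε.le⟩) hε ?_
    intro x
    have h1 := hinner x
    have h2 : ‖x‖ ^ 2 * ε ≤ ⟪A x, x⟫_ℝ := by
      rw [h1]; nlinarith [sq_nonneg ‖B x‖]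
    exact h2.trans (le_abs_self _)
  obtain ⟨u, hu⟩ := hu
  refine ⟨((u⁻¹ : (E →L[ℝ] E)ˣ) : E →L[ℝ] E), ?_, ?_⟩
  · intro x
    have h := congrArg (fun g : E →L[ℝ] E => g x) u.mul_inv
    simp only [mul_apply_eq_comp, one_apply_eq_self] at h
    rw [hu, hAx] at h
    exact h
  · intro x
    have h := congrArg (fun g : E →L[ℝ] E => g x) u.inv_mul
    simp only [mul_apply_eq_comp, one_apply_eq_self] at h
    rw [hu, hAx, map_add, map_smul] at h
    exact h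

private theorem res_dense {E F : Type} [NormedAddCommGroup E] [InnerProductSpace ℝ E] [CompleteSpace E]
    [NormedAddCommGroup F] [InnerProductSpace ℝ F] [CompleteSpace F] (B : E →L[ℝ] F)
    (hinj : ∀ x, B x = 0 → x = 0) (v : E) {d : ℝ} (hd : 0 < d) :
    ∃ w : E, ‖v - ContinuousLinearMap.adjoint B (B w)‖ < d := by
  set T : E →L[ℝ] E := (ContinuousLinearMap.adjoint B).comp B with hT
  have hTx : ∀ x, T x = ContinuousLinearMap.adjoint B (B x) := fun x => rfl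
  have htop : T.range.topologicalClosure = ⊤ := by
    rw [Submodule.topologicalClosure_eq_top_iff, Submodule.eq_bot_iff]
    intro x hx
    have h1 : ⟪T x, x⟫_ℝ = 0 := hx (T x) ⟨x, rfl⟩
    rw [hTx, ContinuousLinearMap.adjoint_inner_left, real_inner_self_eq_norm_sq] at h1
    apply hinj
    exact norm_eq_zero.1 (pow_eq_zero_iff (two_ne_zero) |>.1 h1)
  have hv : v ∈ closure (T.range : Set E) := by
    rw [← Submodule.topologicalClosure_coe, htop]; trivial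
  obtain ⟨b, ⟨w, hw⟩, hb⟩ := Metric.mem_closure_iff.1 hv d hd
  refine ⟨w, ?_⟩
  rw [← hTx, ← dist_eq_norm]
  have : T w = b := hw
  rw [this]; exact hb

theorem resolvent {E F : Type} [NormedAddCommGroup E] [InnerProductSpace ℝ E] [CompleteSpace E]
    [NormedAddCommGroup F] [InnerProductSpace ℝ F] [CompleteSpace F] (B : E →L[ℝ] F)
    (hinj : ∀ x, B x = 0 → x = 0) {m : ℕ} (v : Fin m → E) {δ : ℝ} (hδ : 0 < δ) :
    ∃ (ε : ℝ) (S : E →L[ℝ] E), 0 < ε ∧
      (∀ x, ContinuousLinearMap.adjoint B (B (S x)) + ε • S x = x) ∧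
      (∀ x, S (ContinuousLinearMap.adjoint B (B x)) + ε • S x = x) ∧
      (∀ y, ⟪B (S (ContinuousLinearMap.adjoint B y)), y⟫_ℝ ≤ ‖y‖ ^ 2) ∧
      ∀ i, ε * ⟪S (v i), v i⟫_ℝ ≤ δ := by
  classical
  -- approximate preimages
  have hw : ∀ i, ∃ w : E, ‖v i - ContinuousLinearMap.adjoint B (B w)‖ < δ / (2 * (1 + ‖v i‖)) := by
    intro i
    exact res_dense B hinj (v i) (by positivity)
  choose w hw using hw
  set K : ℝ := ∑ i, ‖w i‖ * ‖v i‖ with hK
  have hK0 : 0 ≤ K := Finset.sum_nonneg fun i _ => by positivity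
  set ε : ℝ := δ / (4 * (1 + K)) with hε'
  have hε : 0 < ε := by positivity
  obtain ⟨S, hS1, hS2⟩ := res_aux B hε
  refine ⟨ε, S, hε, hS1, hS2, ?_, ?_⟩
  · intro y
    set z : E := S (ContinuousLinearMap.adjoint B y) with hz
    have h1 : ContinuousLinearMap.adjoint B (B z) + ε • z = ContinuousLinearMap.adjoint B y :=
      hS1 _
    have h2 : ‖B z‖ ^ 2 + ε * ‖z‖ ^ 2 = ⟪y, B z⟫_ℝ := by
      have h3 := congrArg (fun t => ⟪t, z⟫_ℝ) h1
      simp only [inner_add_left, ContinuousLinearMap.adjoint_inner_left, inner_smul_left] at h3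
      rw [real_inner_self_eq_norm_sq, real_inner_self_eq_norm_sq] at h3
      simpa using h3
    have h4 : ⟪y, B z⟫_ℝ ≤ ‖y‖ * ‖B z‖ := real_inner_le_norm _ _
    have h5 : 0 ≤ ε * ‖z‖ ^ 2 := by positivity
    have h6 : ‖B z‖ ≤ ‖y‖ := by
      by_contra hcon
      push Not at hcon
      nlinarith [norm_nonneg y, norm_nonneg (B z)]
    calc ⟪B z, y⟫_ℝ ≤ ‖B z‖ * ‖y‖ := real_inner_le_norm _ _
      _ ≤ ‖y‖ ^ 2 := by nlinarith [norm_nonneg y]
  · intro i
    -- bound on S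
    have hSb : ∀ x, ε * ‖S x‖ ≤ ‖x‖ := by
      intro x
      have h1 := hS1 x
      have h2 : ‖B (S x)‖ ^ 2 + ε * ‖S x‖ ^ 2 = ⟪x, S x⟫_ℝ := by
        have h3 := congrArg (fun t => ⟪t, S x⟫_ℝ) h1
        simp only [inner_add_left, ContinuousLinearMap.adjoint_inner_left, inner_smul_left] at h3
        rw [real_inner_self_eq_norm_sq, real_inner_self_eq_norm_sq] at h3
        simpa using h3
      have h4 : ⟪x, S x⟫_ℝ ≤ ‖x‖ * ‖S x‖ := real_inner_le_norm _ _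
      by_cases hs : ‖S x‖ = 0
      · rw [hs]; simp
      · have hs' : 0 < ‖S x‖ := lt_of_le_of_ne (norm_nonneg _) (Ne.symm hs)
        have h5 : ε * ‖S x‖ * ‖S x‖ ≤ ‖x‖ * ‖S x‖ := by nlinarith [sq_nonneg ‖B (S x)‖]
        exact le_of_mul_le_mul_right h5 hs'
    set t : E := ContinuousLinearMap.adjoint B (B (w i)) with ht
    have h1 : S t = w i - ε • S (w i) := by
      have := hS2 (w i)
      rw [← ht] at this
      exact eq_sub_of_add_eq this
    have h2 : ‖S t‖ ≤ 2 * ‖w i‖ := by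
      rw [h1]
      calc ‖w i - ε • S (w i)‖ ≤ ‖w i‖ + ‖ε • S (w i)‖ := norm_sub_le _ _
        _ = ‖w i‖ + ε * ‖S (w i)‖ := by rw [norm_smul, Real.norm_of_nonneg hε.le]
        _ ≤ 2 * ‖w i‖ := by linarith [hSb (w i)]
    have h3 : ⟪S (v i), v i⟫_ℝ = ⟪S (v i - t), v i⟫_ℝ + ⟪S t, v i⟫_ℝ := by
      rw [← inner_add_left, ← map_add]; simp
    have h4 : ε * ⟪S (v i - t), v i⟫_ℝ ≤ δ / 2 := by
      have h5 : ⟪S (v i - t), v i⟫_ℝ ≤ ‖S (v i - t)‖ * ‖v i‖ := real_inner_le_norm _ _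
      have h6 : ε * ‖S (v i - t)‖ ≤ δ / (2 * (1 + ‖v i‖)) := (hSb _).trans (hw i).le
      have h7 : δ / (2 * (1 + ‖v i‖)) * ‖v i‖ ≤ δ / 2 := by
        rw [div_mul_eq_mul_div, div_le_div_iff₀ (by positivity) (by norm_num)]
        nlinarith [norm_nonneg (v i)]
      calc ε * ⟪S (v i - t), v i⟫_ℝ ≤ ε * (‖S (v i - t)‖ * ‖v i‖) :=
            mul_le_mul_of_nonneg_left h5 hε.le
        _ = (ε * ‖S (v i - t)‖) * ‖v i‖ := by ring
        _ ≤ δ / (2 * (1 + ‖v i‖)) * ‖v i‖ := mul_le_mul_of_nonneg_right h6 (norm_nonneg _)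
        _ ≤ δ / 2 := h7
    have h8 : ε * ⟪S t, v i⟫_ℝ ≤ δ / 2 := by
      have h9 : ⟪S t, v i⟫_ℝ ≤ ‖S t‖ * ‖v i‖ := real_inner_le_norm _ _
      have h10 : ‖w i‖ * ‖v i‖ ≤ K := by
        rw [hK]
        exact Finset.single_le_sum (f := fun i => ‖w i‖ * ‖v i‖) (fun j _ => by positivity)
          (Finset.mem_univ i)
      have h11 : ‖S t‖ * ‖v i‖ ≤ 2 * K := by
        calc ‖S t‖ * ‖v i‖ ≤ (2 * ‖w i‖) * ‖v i‖ := mul_le_mul_of_nonneg_right h2 (norm_nonneg _)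
          _ ≤ 2 * K := by linarith
      calc ε * ⟪S t, v i⟫_ℝ ≤ ε * (2 * K) := mul_le_mul_of_nonneg_left (h9.trans h11) hε.le
        _ ≤ δ / 2 := by
          rw [hε', div_mul_eq_mul_div, div_le_div_iff₀ (by positivity) (by norm_num)]
          nlinarith
    rw [h3, mul_add]
    linarith

end Pool.Agent.MKG
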