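import Pool.Agent.MKG.TrComm
import Pool.Agent.MKG.Res

/-! Module MKG/Dim. Dimension inequality for group Hilbert modules.

Take ε, S from `resolvent B hinj (v := dl) (δ := 1 / (2 m + 2))`. S is equivariant: for x and h put
y = rt h (S x); then T y + ε y = rt h (T S x + ε S x) = rt h x (T = B† B is equivariant, `Eqv.adjoint`,
`rt_add`, `rt_smul`), so y = S (T y) + ε S y = S (T y + ε y) = S (rt h x).
tr (B ∘ (S ∘ B†)) ≤ n: each of the n terms is ⟪B S B† dl_j, dl_j⟫ ≤ ‖dl_j‖² = 1 (`dl_inner`, `dl_norm`).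
tr (B ∘ (S ∘ B†)) = tr ((S ∘ B†) ∘ B) = ∑ i, ⟪S (T dl_i), dl_i⟫ = ∑ i, (1 - ε ⟪S dl_i, dl_i⟫) ≥ m - m / (2 m + 2) > m - 1.
So m - 1 < n, i.e. m ≤ n.
-/

namespace Pool.Agent.MKG

open scoped InnerProductSpace

variable {K : Type} [Group K] {m n : ℕ}

theorem dim_le (B : H K m →L[ℝ] H K n) (hB : Eqv B) (hinj : ∀ f, B f = 0 → f = 0) : m ≤ n := by
  have hδ : (0 : ℝ) < 1 / (2 * (m : ℝ) + 2) := by positivity
  obtain ⟨ε, S, hε, h1, h2, h3, h4⟩ := resolvent B hinj (v := (dl : Fin m → H K m)) hδ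
  have hBa := hB.adjoint
  have hS : Eqv S := by
    intro h x
    have hy : ContinuousLinearMap.adjoint B (B (rt h (S x))) + ε • rt h (S x) = rt h x := by
      rw [hB h (S x), hBa h, ← rt_smul, ← rt_add, h1 x]
    have h5 := h2 (rt h (S x))
    rw [← hy, map_add, map_smul, h5]
  have hSB : Eqv (S ∘L ContinuousLinearMap.adjoint B) := by
    intro h x
    rw [ContinuousLinearMap.comp_apply, ContinuousLinearMap.comp_apply, hBa h, hS h]
  have htr := tr_comm hB hSB
  have hle : tr (B ∘L (S ∘L ContinuousLinearMap.adjoint B)) ≤ n := by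
    unfold tr
    have : ∀ j ∈ (Finset.univ : Finset (Fin n)),
        (B ∘L (S ∘L ContinuousLinearMap.adjoint B)) (dl j) (1, j) ≤ (1 : ℝ) := by
      intro j _
      rw [← dl_inner j]
      have := h3 (dl j)
      rw [dl_norm] at this
      simpa using this
    calc _ ≤ ∑ _j : Fin n, (1 : ℝ) := Finset.sum_le_sum this
      _ = n := by simp
  have hge : (m : ℝ) - m * (1 / (2 * (m : ℝ) + 2)) ≤
      tr ((S ∘L ContinuousLinearMap.adjoint B) ∘L B) := by
    unfold tr
    have : ∀ i ∈ (Finset.univ : Finset (Fin m)), (1 : ℝ) - 1 / (2 * (m : ℝ) + 2) ≤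
        ((S ∘L ContinuousLinearMap.adjoint B) ∘L B) (dl i) (1, i) := by
      intro i _
      rw [← dl_inner i]
      have h5 := h2 (dl i)
      have h6 : ((S ∘L ContinuousLinearMap.adjoint B) ∘L B) (dl i) = dl i - ε • S (dl i) := by
        rw [eq_sub_iff_add_eq]
        exact h5
      rw [h6, inner_sub_left, real_inner_self_eq_norm_sq, dl_norm, real_inner_smul_left]
      have h7 := h4 i
      linarith
    calc (m : ℝ) - m * (1 / (2 * (m : ℝ) + 2)) =
          ∑ _i : Fin m, ((1 : ℝ) - 1 / (2 * (m : ℝ) + 2)) := by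
            simp [Finset.sum_const]
      _ ≤ _ := Finset.sum_le_sum this
  rw [← htr] at hge
  have h8 : (m : ℝ) * (1 / (2 * (m : ℝ) + 2)) < 1 := by
    rw [mul_one_div, div_lt_one (by positivity)]
    have : (0 : ℝ) ≤ m := Nat.cast_nonneg m
    linarith
  have h9 : (m : ℝ) < n + 1 := by linarith
  exact_mod_cast Nat.lt_succ_iff.1 (by exact_mod_cast h9)

end Pool.Agent.MKG
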