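import Pool.Agent.MKG.Count
import Pool.Agent.MKG.ChungErdos
import Pool.Agent.MKG.Divergence

/-! # Khintchine's theorem, divergence part (module Kh1) -/

open MeasureTheory Set Filter
open scoped BigOperators ENNReal Topology

namespace MKG

/-- the first vertex of a cell as a real number -/
noncomputable def kpt (g : Cell) : ℝ := (g.1.2 : ℝ) / g.1.1

theorem kpt_sep {R : ℕ} (hR : 1 ≤ R) {A B : ℝ} {g h : Cell} (hg : g ∈ cellSet R A B)
    (hh : h ∈ cellSet R A B) (hne : g ≠ h) : 1 / (4 * (R : ℝ) ^ 2) ≤ |kpt g - kpt h| := by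
  have hR' : (1 : ℤ) ≤ R := by exact_mod_cast hR
  have hg' := hg
  have hh' := hh
  obtain ⟨h1, h2, h3, h4, h5, h6, h7⟩ := hg
  obtain ⟨k1, k2, k3, k4, k5, k6, k7⟩ := hh
  have pg1 : (0 : ℝ) < g.1.1 := by exact_mod_cast (by omega : (0 : ℤ) < g.1.1)
  have ph1 : (0 : ℝ) < h.1.1 := by exact_mod_cast (by omega : (0 : ℤ) < h.1.1)
  have pg2 : (g.1.1 : ℝ) ≤ 2 * R := by exact_mod_cast h2.le
  have ph2 : (h.1.1 : ℝ) ≤ 2 * R := by exact_mod_cast k2.le
  have hR0 : (0 : ℝ) < R := by exact_mod_cast hR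
  have hcross : g.1.2 * h.1.1 - h.1.2 * g.1.1 ≠ 0 := by
    intro hc
    apply hne
    apply cells1_inj_fst hR hg' hh'
    have cg : IsCoprime g.1.1 g.1.2 := ⟨g.2.2, -g.2.1, by linarith⟩
    have ch : IsCoprime h.1.1 h.1.2 := ⟨h.2.2, -h.2.1, by linarith⟩
    have d1 : g.1.1 ∣ h.1.1 := by
      refine cg.dvd_of_dvd_mul_left ?_
      exact ⟨h.1.2, by linarith⟩
    have d2 : h.1.1 ∣ g.1.1 := by
      refine ch.dvd_of_dvd_mul_left ?_
      exact ⟨g.1.2, by linarith⟩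
    have e1 : g.1.1 = h.1.1 := Int.dvd_antisymm (by omega) (by omega) d1 d2
    have e2 : g.1.2 = h.1.2 := by
      have : (g.1.2 - h.1.2) * g.1.1 = 0 := by rw [← e1] at hc; linarith
      rcases mul_eq_zero.1 this with h' | h'
      · omega
      · omega
    exact Prod.ext e1 e2
  have habs : (1 : ℝ) ≤ |(g.1.2 : ℝ) * h.1.1 - h.1.2 * g.1.1| := by
    have : (1 : ℤ) ≤ |g.1.2 * h.1.1 - h.1.2 * g.1.1| := Int.one_le_abs hcross
    exact_mod_cast this
  have e : kpt g - kpt h = ((g.1.2 : ℝ) * h.1.1 - h.1.2 * g.1.1) / (g.1.1 * h.1.1) := by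
    unfold kpt
    field_simp
  rw [e, abs_div, abs_of_pos (mul_pos pg1 ph1)]
  have hle : (g.1.1 : ℝ) * h.1.1 ≤ 4 * (R : ℝ) ^ 2 := by
    calc (g.1.1 : ℝ) * h.1.1 ≤ (2 * R) * (2 * R) := mul_le_mul pg2 ph2 ph1.le (by positivity)
      _ = 4 * (R : ℝ) ^ 2 := by ring
  rw [div_le_div_iff₀ (by positivity) (mul_pos pg1 ph1)]
  calc 1 * ((g.1.1 : ℝ) * h.1.1) ≤ 1 * (4 * (R : ℝ) ^ 2) := by linarith
    _ ≤ |(g.1.2 : ℝ) * h.1.1 - h.1.2 * g.1.1| * (4 * (R : ℝ) ^ 2) :=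
      mul_le_mul_of_nonneg_right habs (by positivity)

theorem kpt_mem {R : ℕ} (hR : 1 ≤ R) {A B : ℝ} {g : Cell} (hg : g ∈ cellSet R A B) :
    A ≤ kpt g ∧ kpt g < B := by
  have hR' : (1 : ℤ) ≤ R := by exact_mod_cast hR
  obtain ⟨h1, h2, h3, h4, h5, h6, h7⟩ := hg
  have pg1 : (0 : ℝ) < g.1.1 := by exact_mod_cast (by omega : (0 : ℤ) < g.1.1)
  unfold kpt
  exact ⟨(le_div_iff₀ pg1).2 h3, (div_lt_iff₀ pg1).2 h4⟩

theorem kdisj {R : ℕ} (hR : 1 ≤ R) {A B ρ : ℝ} (hρ : ρ ≤ 1 / (8 * (R : ℝ) ^ 2)) {g h : Cell}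
    (hg : g ∈ cellSet R A B) (hh : h ∈ cellSet R A B) (hne : g ≠ h) :
    Disjoint (Ioo (kpt g - ρ) (kpt g + ρ)) (Ioo (kpt h - ρ) (kpt h + ρ)) := by
  rw [Set.disjoint_left]
  rintro t ⟨t1, t2⟩ ⟨t3, t4⟩
  have h1 := kpt_sep hR hg hh hne
  have h2 : |kpt g - kpt h| < 2 * ρ := by
    rw [abs_lt]; constructor <;> linarith
  have hR0 : (0 : ℝ) < R := by exact_mod_cast hR
  have h3 : 2 * (1 / (8 * (R : ℝ) ^ 2)) = 1 / (4 * (R : ℝ) ^ 2) := by
    field_simp; norm_num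
  linarith

theorem near_card {R : ℕ} (hR : 1 ≤ R) {A B : ℝ} (T : Finset Cell)
    (hT : ∀ g ∈ T, g ∈ cellSet R A B) (x ρ : ℝ) (hρ : 0 ≤ ρ) (hx : ∀ g ∈ T, |kpt g - x| ≤ ρ) :
    (T.card : ℝ) ≤ 8 * (R : ℝ) ^ 2 * ρ + 1 := by
  have hR0 : (0 : ℝ) < R := by exact_mod_cast hR
  set s : ℝ := 1 / (8 * (R : ℝ) ^ 2) with hs
  have hs0 : 0 < s := by positivity
  have h1 : volume (⋃ g ∈ T, Ioo (kpt g - s) (kpt g + s)) = ∑ g ∈ T, ENNReal.ofReal (2 * s) := by
    rw [measure_biUnion_finset]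
    · refine Finset.sum_congr rfl fun g _ => ?_
      rw [Real.volume_Ioo]
      congr 1
      ring
    · intro g hg h hh hne
      exact kdisj hR le_rfl (hT g hg) (hT h hh) hne
    · exact fun _ _ => measurableSet_Ioo
  have h2 : (⋃ g ∈ T, Ioo (kpt g - s) (kpt g + s)) ⊆ Icc (x - ρ - s) (x + ρ + s) := by
    intro t ht
    simp only [mem_iUnion] at ht
    obtain ⟨g, hg, t1, t2⟩ := ht
    have := abs_le.1 (hx g hg)
    constructor <;> linarith
  have h3 := measure_mono (μ := volume) h2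
  rw [h1, Real.volume_Icc, Finset.sum_const, nsmul_eq_mul,
    ← ENNReal.ofReal_natCast, ← ENNReal.ofReal_mul (Nat.cast_nonneg _),
    ENNReal.ofReal_le_ofReal_iff (by linarith)] at h3
  have h4 : s * (8 * (R : ℝ) ^ 2) = 1 := by rw [hs]; field_simp
  have h5 : (T.card : ℝ) * s ≤ ρ + s := by linarith
  calc (T.card : ℝ) = (T.card : ℝ) * s * (8 * (R : ℝ) ^ 2) := by rw [mul_assoc, h4, mul_one]
    _ ≤ (ρ + s) * (8 * (R : ℝ) ^ 2) := mul_le_mul_of_nonneg_right h5 (by positivity)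
    _ = 8 * (R : ℝ) ^ 2 * ρ + s * (8 * (R : ℝ) ^ 2) := by ring
    _ = 8 * (R : ℝ) ^ 2 * ρ + 1 := by rw [h4]

/-- the union of the balls of radius `ρ` around the points of level `R` -/
def kset (R : ℕ) (A B ρ : ℝ) : Set ℝ := ⋃ g ∈ cells1 R A B, Ioo (kpt g - ρ) (kpt g + ρ)

theorem measurable_kset (R : ℕ) (A B ρ : ℝ) : MeasurableSet (kset R A B ρ) :=
  Finset.measurableSet_biUnion _ fun _ _ => measurableSet_Ioo

theorem volume_kset {R : ℕ} (hR : 1 ≤ R) {A B ρ : ℝ} (hρ : ρ ≤ 1 / (8 * (R : ℝ) ^ 2)) :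
    volume (kset R A B ρ) = ENNReal.ofReal ((cells1 R A B).card * (2 * ρ)) := by
  unfold kset
  rw [measure_biUnion_finset]
  · have : ∀ g ∈ cells1 R A B, volume (Ioo (kpt g - ρ) (kpt g + ρ)) = ENNReal.ofReal (2 * ρ) := by
      intro g _
      rw [Real.volume_Ioo]
      congr 1
      ring
    rw [Finset.sum_congr rfl this, Finset.sum_const, nsmul_eq_mul,
      ← ENNReal.ofReal_natCast, ← ENNReal.ofReal_mul (Nat.cast_nonneg _)]
  · intro g hg h hh hne
    exact kdisj hR hρ (mem_cells1.1 hg) (mem_cells1.1 hh) hne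
  · exact fun _ _ => measurableSet_Ioo

theorem volume_kset_inter {R S : ℕ} (hS : 1 ≤ S) {A B ρ σ : ℝ} (hρ0 : 0 ≤ ρ)
    (hσ0 : 0 ≤ σ) : volume (kset R A B ρ ∩ kset S A B σ)
      ≤ ENNReal.ofReal ((cells1 R A B).card * ((8 * (S : ℝ) ^ 2 * (ρ + σ) + 1) * (2 * σ))) := by
  classical
  have hsub : kset R A B ρ ∩ kset S A B σ ⊆ ⋃ g ∈ cells1 R A B,
      ⋃ h ∈ (cells1 S A B).filter (fun h => |kpt h - kpt g| ≤ ρ + σ),
        Ioo (kpt h - σ) (kpt h + σ) := by
    rintro t ⟨ht1, ht2⟩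
    simp only [kset, mem_iUnion] at ht1 ht2
    obtain ⟨g, hg, t1, t2⟩ := ht1
    obtain ⟨h, hh, t3, t4⟩ := ht2
    simp only [mem_iUnion]
    refine ⟨g, hg, h, ?_, t3, t4⟩
    rw [Finset.mem_filter]
    refine ⟨hh, ?_⟩
    rw [abs_le]; constructor <;> linarith
  refine (measure_mono hsub).trans ?_
  refine (measure_biUnion_finset_le _ _).trans ?_
  have h1 : ∀ g ∈ cells1 R A B, volume (⋃ h ∈ (cells1 S A B).filter
      (fun h => |kpt h - kpt g| ≤ ρ + σ), Ioo (kpt h - σ) (kpt h + σ))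
        ≤ ENNReal.ofReal ((8 * (S : ℝ) ^ 2 * (ρ + σ) + 1) * (2 * σ)) := by
    intro g _
    refine (measure_biUnion_finset_le _ _).trans ?_
    have : ∀ h ∈ (cells1 S A B).filter (fun h => |kpt h - kpt g| ≤ ρ + σ),
        volume (Ioo (kpt h - σ) (kpt h + σ)) = ENNReal.ofReal (2 * σ) := by
      intro h _
      rw [Real.volume_Ioo]
      congr 1
      ring
    rw [Finset.sum_congr rfl this, Finset.sum_const, nsmul_eq_mul,
      ← ENNReal.ofReal_natCast, ← ENNReal.ofReal_mul (Nat.cast_nonneg _)]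
    apply ENNReal.ofReal_le_ofReal
    apply mul_le_mul_of_nonneg_right _ (by linarith)
    exact near_card hS _ (fun h hh => mem_cells1.1 (Finset.mem_filter.1 hh).1) (kpt g) (ρ + σ)
      (by linarith) (fun h hh => (Finset.mem_filter.1 hh).2)
  refine (Finset.sum_le_sum h1).trans ?_
  rw [Finset.sum_const, nsmul_eq_mul, ← ENNReal.ofReal_natCast,
    ← ENNReal.ofReal_mul (Nat.cast_nonneg _)]

/-- the set of Khintchine's theorem -/
def kG (ψ : ℝ → ℝ) (i₀ : ℕ) : Set ℝ :=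
  {t | ∃ p r : ℤ, (i₀ : ℤ) ≤ r ∧ 1 ≤ r ∧ |(p : ℝ) + r * t| < ψ r}

theorem isOpen_kG (ψ : ℝ → ℝ) (i₀ : ℕ) : IsOpen (kG ψ i₀) := by
  have : kG ψ i₀ = ⋃ p : ℤ, ⋃ r : ℤ, ⋃ _ : (i₀ : ℤ) ≤ r ∧ 1 ≤ r,
      {t : ℝ | |(p : ℝ) + r * t| < ψ r} := by
    ext t
    simp only [kG, mem_ofPred_eq, mem_iUnion]
    constructor
    · rintro ⟨p, r, h1, h2, h3⟩
      exact ⟨p, r, ⟨h1, h2⟩, h3⟩
    · rintro ⟨p, r, ⟨h1, h2⟩, h3⟩
      exact ⟨p, r, h1, h2, h3⟩
  rw [this]
  refine isOpen_iUnion fun p => isOpen_iUnion fun r => isOpen_iUnion fun _ => ?_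
  exact isOpen_lt (by fun_prop) continuous_const

theorem kset_subset {ψ : ℝ → ℝ} (hanti : AntitoneOn ψ (Ioi 0))
    {i₀ R : ℕ} (hR : 1 ≤ R) (hi : i₀ ≤ R) {A B δ : ℝ} (hδ0 : 0 < δ) (hδ : δ ≤ R * ψ (2 * R)) :
    kset R A B (δ / (16 * (R : ℝ) ^ 2)) ⊆ kG ψ i₀ := by
  intro t ht
  simp only [kset, mem_iUnion] at ht
  obtain ⟨g, hg, t1, t2⟩ := ht
  rw [mem_cells1] at hg
  obtain ⟨h1, h2, h3, h4, h5, h6, h7⟩ := hg
  have hR' : (1 : ℤ) ≤ R := by exact_mod_cast hR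
  have hR0 : (0 : ℝ) < R := by exact_mod_cast hR
  have pg1 : (0 : ℝ) < g.1.1 := by exact_mod_cast (by omega : (0 : ℤ) < g.1.1)
  have pg2 : (g.1.1 : ℝ) ≤ 2 * R := by exact_mod_cast h2.le
  refine ⟨-g.1.2, g.1.1, by omega, by omega, ?_⟩
  have e : ((-g.1.2 : ℤ) : ℝ) + g.1.1 * t = g.1.1 * (t - kpt g) := by
    unfold kpt
    push_cast
    field_simp
    ring
  rw [e, abs_mul, abs_of_pos pg1]
  have h8 : |t - kpt g| < δ / (16 * (R : ℝ) ^ 2) := by
    rw [abs_lt]; constructor <;> linarith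
  have hψ : ψ (2 * R) ≤ ψ g.1.1 := hanti pg1 (by positivity : (0:ℝ) < 2 * R) pg2
  have hψ0 : 0 < ψ (2 * R) := by
    by_contra hcon
    push Not at hcon
    nlinarith
  calc (g.1.1 : ℝ) * |t - kpt g| < g.1.1 * (δ / (16 * (R : ℝ) ^ 2)) :=
        mul_lt_mul_of_pos_left h8 pg1
    _ ≤ (2 * R) * ((R * ψ (2 * R)) / (16 * (R : ℝ) ^ 2)) := by
        apply mul_le_mul pg2 _ (by positivity) (by positivity)
        exact div_le_div_of_nonneg_right hδ (by positivity)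
    _ = ψ (2 * R) / 8 := by
        field_simp
        norm_num
    _ ≤ ψ g.1.1 := by linarith

theorem geom_quarter_sum (s : Finset ℕ) (j : ℕ) :
    ∑ i ∈ s, (if i ≤ j then (1 / 4 : ℝ) ^ (j - i) else 0) ≤ 2 := by
  classical
  rw [← Finset.sum_filter]
  have h1 : s.filter (fun i => i ≤ j) ⊆ Finset.range (j + 1) := by
    intro i hi
    rw [Finset.mem_filter] at hi
    rw [Finset.mem_range]; omega
  refine (Finset.sum_le_sum_of_subset_of_nonneg h1 (fun _ _ _ => by positivity)).trans ?_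
  have h2 := Finset.sum_range_reflect (fun n => (1 / 4 : ℝ) ^ n) (j + 1)
  have h3 : ∑ i ∈ Finset.range (j + 1), (1 / 4 : ℝ) ^ (j - i)
      = ∑ i ∈ Finset.range (j + 1), (1 / 4 : ℝ) ^ (j + 1 - 1 - i) := by
    simp
  rw [h3, h2, geom_sum_eq (by norm_num)]
  have : (0 : ℝ) ≤ (1 / 4) ^ (j + 1) := by positivity
  rw [div_le_iff_of_neg (by norm_num)]
  linarith

theorem kh_prop (ψ : ℝ → ℝ) (hpos : ∀ h, 0 < h → 0 < ψ h) (hanti : AntitoneOn ψ (Ioi 0))
    (hdiv : ¬ Summable (fun h : ℕ => ψ (h + 1))) (i₀ : ℕ) {A₀ B₀ : ℝ} (hAB₀ : A₀ < B₀) :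
    ENNReal.ofReal ((B₀ - A₀) / 1280000) ≤ volume (kG ψ i₀ ∩ Icc A₀ B₀) := by
  set A := A₀ + (B₀ - A₀) / 4 with hA
  set B := B₀ - (B₀ - A₀) / 4 with hB
  have hAB : A < B := by linarith
  set L := B - A with hL
  have hL0 : 0 < L := by linarith
  set δ : ℕ → ℝ := fun k => min ((2 : ℝ) ^ k * ψ (2 * (2 : ℝ) ^ k)) 1 with hδ
  have hδ0 : ∀ k, 0 < δ k := fun k => lt_min (mul_pos (by positivity) (hpos _ (by positivity)))
    one_pos
  have hδ1 : ∀ k, δ k ≤ 1 := fun k => min_le_right _ _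
  -- divergence
  have hS : ¬ Summable δ := by
    have := divergence (m := 0) (β := 2) le_rfl 1 one_pos 2 (by norm_num) ψ hpos hanti
      (by simpa using hdiv)
    simpa [hδ] using this
  have hT : Tendsto (fun n => ∑ k ∈ Finset.range n, δ k) atTop atTop :=
    (not_summable_iff_tendsto_nat_atTop_of_nonneg (fun k => (hδ0 k).le)).1 hS
  -- thresholds
  have htend : Tendsto (fun k : ℕ => 2 ^ k) atTop (atTop : Filter ℕ) :=
    tendsto_pow_atTop_atTop_of_one_lt (by norm_num)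
  obtain ⟨M₀, hM₀⟩ := exists_nat_ge (1 / (B₀ - A₀))
  have hev : ∀ᶠ R : ℕ in atTop, ((cells1 R A B).card : ℝ) ≤ 4 * (B - A) * (R : ℝ) ^ 2 ∧
      (B - A) * (R : ℝ) ^ 2 / 50 ≤ ((cells1 R A B).card : ℝ) ∧ i₀ ≤ R ∧ M₀ ≤ R :=
    (cells1_card_hi hAB).and ((cells1_card_lo hAB).and ((eventually_ge_atTop i₀).and
      (eventually_ge_atTop M₀)))
  obtain ⟨K₀, hK₀⟩ := eventually_atTop.1 (htend.eventually hev)
  obtain ⟨K, hK⟩ := ((hT.eventually_ge_atTop (1 + ∑ k ∈ Finset.range K₀, δ k)).and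
    (eventually_ge_atTop K₀)).exists
  set I := Finset.Ico K₀ K with hI
  set S := ∑ k ∈ I, δ k with hSd
  have hS1 : 1 ≤ S := by
    have := Finset.sum_range_add_sum_Ico δ hK.2
    rw [hSd, hI]
    linarith [hK.1]
  have hR1 : ∀ k : ℕ, 1 ≤ 2 ^ k := fun k => Nat.one_le_two_pow
  set ρ : ℕ → ℝ := fun k => δ k / (16 * (((2 ^ k : ℕ) : ℝ)) ^ 2) with hρ
  have hρ0 : ∀ k, 0 < ρ k := fun k => by
    have := hδ0 k
    have h2 : (0:ℝ) < ((2 ^ k : ℕ) : ℝ) := by exact_mod_cast hR1 k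
    positivity
  have hρ1 : ∀ k, ρ k ≤ 1 / (16 * (((2 ^ k : ℕ) : ℝ)) ^ 2) := fun k =>
    div_le_div_of_nonneg_right (hδ1 k) (by positivity)
  have hρ2 : ∀ k, ρ k ≤ 1 / (8 * (((2 ^ k : ℕ) : ℝ)) ^ 2) := fun k => by
    refine (hρ1 k).trans ?_
    have h2 : (0:ℝ) < ((2 ^ k : ℕ) : ℝ) := by exact_mod_cast hR1 k
    apply one_div_le_one_div_of_le (by positivity)
    nlinarith [sq_nonneg (((2 ^ k : ℕ) : ℝ))]
  set E : ℕ → Set ℝ := fun k => kset (2 ^ k) A B (ρ k) with hE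
  -- lower bound for the measures
  have hlow : ENNReal.ofReal (L * S / 400) ≤ ∑ k ∈ I, volume (E k) := by
    have h1 : ∀ k ∈ I, ENNReal.ofReal (L * δ k / 400) ≤ volume (E k) := by
      intro k hk
      rw [hE]
      simp only
      rw [volume_kset (hR1 k) (hρ2 k)]
      apply ENNReal.ofReal_le_ofReal
      have h2 := (hK₀ k (Finset.mem_Ico.1 hk).1).2.1
      have h3 : (0:ℝ) < ((2 ^ k : ℕ) : ℝ) := by exact_mod_cast hR1 k
      have h4 : 0 ≤ 2 * ρ k := by linarith [hρ0 k]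
      refine le_trans (le_of_eq ?_) (mul_le_mul_of_nonneg_right h2 h4)
      rw [hρ, ← hL]
      simp only
      field_simp
      ring
    refine le_trans (le_of_eq ?_) (Finset.sum_le_sum h1)
    rw [← ENNReal.ofReal_sum_of_nonneg (fun k _ => by have := hδ0 k; positivity)]
    congr 1
    rw [hSd, ← Finset.sum_div, ← Finset.mul_sum]
  -- overlaps
  set w : ℕ → ℕ → ℝ := fun i j => if i ≤ j then (1 / 4 : ℝ) ^ (j - i) else 0 with hw
  have hw0 : ∀ i j, 0 ≤ w i j := fun i j => by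
    rw [hw]; simp only; split <;> positivity
  have hov : ∀ i ∈ I, ∀ j, i ≤ j → volume (E i ∩ E j)
      ≤ ENNReal.ofReal (L * (δ i * δ j / 4 + 3 / 4 * (δ j * w i j))) := by
    intro i hi j hij
    refine (volume_kset_inter (hR1 j) (hρ0 i).le (hρ0 j).le).trans ?_
    apply ENNReal.ofReal_le_ofReal
    have h2 := (hK₀ i (Finset.mem_Ico.1 hi).1).1
    rw [← hL] at h2
    have hi0 : (0:ℝ) < ((2 ^ i : ℕ) : ℝ) := by exact_mod_cast hR1 i
    have hj0 : (0:ℝ) < ((2 ^ j : ℕ) : ℝ) := by exact_mod_cast hR1 j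
    have h3 : 8 * (((2 ^ j : ℕ) : ℝ)) ^ 2 * ρ j ≤ 1 / 2 := by
      have := hδ1 j
      have e : 8 * (((2 ^ j : ℕ) : ℝ)) ^ 2 * ρ j = δ j / 2 := by
        rw [hρ]; simp only; field_simp; ring
      rw [e]; linarith
    have h4 : 8 * (((2 ^ j : ℕ) : ℝ)) ^ 2 * ρ i
        = δ i * (((2 ^ j : ℕ) : ℝ)) ^ 2 / (2 * (((2 ^ i : ℕ) : ℝ)) ^ 2) := by
      rw [hρ]; simp only; field_simp; ring
    have hwij : w i j = (((2 ^ i : ℕ) : ℝ)) ^ 2 / (((2 ^ j : ℕ) : ℝ)) ^ 2 := by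
      rw [hw]; simp only [if_pos hij]
      obtain ⟨n, rfl⟩ := Nat.exists_eq_add_of_le hij
      rw [Nat.add_sub_cancel_left]
      push_cast
      rw [pow_add, mul_pow, ← pow_mul, ← pow_mul, mul_comm n 2, pow_mul 2 2 n]
      norm_num
      field_simp
      rw [← mul_pow]
      norm_num
    have hδi := hδ0 i
    have hδj := hδ0 j
    have hρj := hρ0 j
    calc ((cells1 (2 ^ i) A B).card : ℝ)
          * ((8 * (((2 ^ j : ℕ) : ℝ)) ^ 2 * (ρ i + ρ j) + 1) * (2 * ρ j))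
        ≤ (4 * L * (((2 ^ i : ℕ) : ℝ)) ^ 2) *
          ((δ i * (((2 ^ j : ℕ) : ℝ)) ^ 2 / (2 * (((2 ^ i : ℕ) : ℝ)) ^ 2) + 3 / 2) * (2 * ρ j)) := by
          have hρi := hρ0 i
          apply mul_le_mul h2 _ (by positivity) (by positivity)
          apply mul_le_mul_of_nonneg_right _ (by positivity)
          rw [mul_add, h4]
          linarith
      _ = L * (δ i * δ j / 4 + 3 / 4 * (δ j * w i j)) := by
          rw [hwij, hρ]
          simp only
          field_simp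
          ring
  have hup : ∑ i ∈ I, ∑ j ∈ I, volume (E i ∩ E j) ≤ ENNReal.ofReal (4 * L * S ^ 2) := by
    have h1 : ∀ i ∈ I, ∀ j ∈ I, volume (E i ∩ E j)
        ≤ ENNReal.ofReal (L * (δ i * δ j / 4 + 3 / 4 * (δ j * w i j + δ i * w j i))) := by
      intro i hi j hj
      have hδi := hδ0 i
      have hδj := hδ0 j
      have hwi := hw0 i j
      have hwj := hw0 j i
      rcases le_total i j with hij | hij
      · refine (hov i hi j hij).trans (ENNReal.ofReal_le_ofReal ?_)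
        apply mul_le_mul_of_nonneg_left _ hL0.le
        have := mul_nonneg hδi.le hwj
        linarith
      · rw [inter_comm]
        refine (hov j hj i hij).trans (ENNReal.ofReal_le_ofReal ?_)
        apply mul_le_mul_of_nonneg_left _ hL0.le
        have := mul_nonneg hδj.le hwi
        linarith
    refine (Finset.sum_le_sum fun i hi => Finset.sum_le_sum fun j hj => h1 i hi j hj).trans ?_
    have hnn : ∀ i j, 0 ≤ L * (δ i * δ j / 4 + 3 / 4 * (δ j * w i j + δ i * w j i)) := by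
      intro i j
      have hδi := hδ0 i
      have hδj := hδ0 j
      have hwi := hw0 i j
      have hwj := hw0 j i
      positivity
    have h2 : ∀ i ∈ I, ∑ j ∈ I, ENNReal.ofReal (L * (δ i * δ j / 4
        + 3 / 4 * (δ j * w i j + δ i * w j i)))
        = ENNReal.ofReal (∑ j ∈ I, L * (δ i * δ j / 4 + 3 / 4 * (δ j * w i j + δ i * w j i))) := by
      intro i _
      rw [ENNReal.ofReal_sum_of_nonneg (fun j _ => hnn i j)]
    rw [Finset.sum_congr rfl h2, ← ENNReal.ofReal_sum_of_nonneg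
      (fun i _ => Finset.sum_nonneg fun j _ => hnn i j)]
    apply ENNReal.ofReal_le_ofReal
    have h3 : ∑ i ∈ I, ∑ j ∈ I, L * (δ i * δ j / 4 + 3 / 4 * (δ j * w i j + δ i * w j i))
        = L * (S ^ 2 / 4 + 3 / 4 * (∑ i ∈ I, ∑ j ∈ I, δ j * w i j
          + ∑ i ∈ I, ∑ j ∈ I, δ i * w j i)) := by
      simp_rw [← Finset.mul_sum, Finset.sum_add_distrib, ← Finset.sum_div, ← Finset.mul_sum,
        Finset.sum_add_distrib]
      rw [sq, hSd, Finset.sum_mul_sum]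
      simp_rw [← Finset.mul_sum]
    have h4 : ∑ i ∈ I, ∑ j ∈ I, δ j * w i j ≤ 2 * S := by
      rw [Finset.sum_comm]
      rw [hSd, Finset.mul_sum]
      apply Finset.sum_le_sum
      intro j _
      rw [← Finset.mul_sum, mul_comm 2]
      exact mul_le_mul_of_nonneg_left (geom_quarter_sum I j) (hδ0 j).le
    have h5 : ∑ i ∈ I, ∑ j ∈ I, δ i * w j i ≤ 2 * S := by
      rw [hSd, Finset.mul_sum]
      apply Finset.sum_le_sum
      intro i _
      rw [← Finset.mul_sum, mul_comm 2]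
      exact mul_le_mul_of_nonneg_left (geom_quarter_sum I i) (hδ0 i).le
    rw [h3]
    have h6 : S ^ 2 / 4 + 3 / 4 * (∑ i ∈ I, ∑ j ∈ I, δ j * w i j
          + ∑ i ∈ I, ∑ j ∈ I, δ i * w j i) ≤ 4 * S ^ 2 := by nlinarith
    calc L * _ ≤ L * (4 * S ^ 2) := mul_le_mul_of_nonneg_left h6 hL0.le
      _ = 4 * L * S ^ 2 := by ring
  have hS0 : 0 < S := by linarith
  have key := chung_erdos volume I E (fun k _ => measurable_kset _ _ _ _)
    (ENNReal.ofReal (L * S / 400)) (ENNReal.ofReal (4 * L * S ^ 2)) hlow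
    (ENNReal.ofReal_pos.2 (by positivity)).ne' ENNReal.ofReal_ne_top hup ENNReal.ofReal_ne_top
  have hval : (ENNReal.ofReal (L * S / 400)) ^ 2 / ENNReal.ofReal (4 * L * S ^ 2)
      = ENNReal.ofReal ((B₀ - A₀) / 1280000) := by
    rw [← ENNReal.ofReal_pow (by positivity), ← ENNReal.ofReal_div_of_pos (by positivity)]
    congr 1
    have hL2 : B₀ - A₀ = 2 * L := by rw [hL, hA, hB]; ring
    rw [hL2]
    field_simp
    norm_num
  rw [hval] at key
  refine key.trans (measure_mono ?_)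
  intro t ht
  simp only [mem_iUnion] at ht
  obtain ⟨k, hk, ht⟩ := ht
  obtain ⟨c1, c2, c3, c4⟩ := hK₀ k (Finset.mem_Ico.1 hk).1
  constructor
  · refine kset_subset hanti (hR1 k) c3 (hδ0 k) ?_ ht
    have := min_le_left ((2 : ℝ) ^ k * ψ (2 * (2 : ℝ) ^ k)) 1
    push_cast
    exact this
  · simp only [hE, kset, mem_iUnion] at ht
    obtain ⟨g, hg, t1, t2⟩ := ht
    have h1 := kpt_mem (hR1 k) (mem_cells1.1 hg)
    have h2 : ρ k ≤ (B₀ - A₀) / 4 := by
      refine (hρ1 k).trans ?_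
      have h3 : (0:ℝ) < ((2 ^ k : ℕ) : ℝ) := by exact_mod_cast hR1 k
      have h4 : (1:ℝ) ≤ ((2 ^ k : ℕ) : ℝ) := by exact_mod_cast hR1 k
      have h5 : 1 / (B₀ - A₀) ≤ ((2 ^ k : ℕ) : ℝ) := hM₀.trans (by exact_mod_cast c4)
      have h6 : 0 < B₀ - A₀ := by linarith
      rw [div_le_iff₀ h6] at h5
      rw [div_le_div_iff₀ (by positivity) (by norm_num)]
      nlinarith
    constructor <;> linarith [h1.1, h1.2]

/-- **Khintchine's theorem** (divergence part). -/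
theorem khintchine1 (ψ : ℝ → ℝ) (hpos : ∀ h, 0 < h → 0 < ψ h) (hanti : AntitoneOn ψ (Ioi 0))
    (hdiv : ¬ Summable (fun h : ℕ => ψ (h + 1))) :
    ∀ᵐ t : ℝ, ∀ i₀ : ℕ, ∃ p r : ℤ, (i₀ : ℤ) ≤ r ∧ 1 ≤ r ∧ |(p : ℝ) + r * t| < ψ r := by
  rw [ae_all_iff]
  intro i₀
  have hG : MeasurableSet (kG ψ i₀) := (isOpen_kG ψ i₀).measurableSet
  have key : volume (kG ψ i₀)ᶜ = 0 := by
    have hs : MeasurableSet (kG ψ i₀)ᶜ := hG.compl
    have h1 := Besicovitch.ae_tendsto_measure_inter_div (volume : Measure ℝ) (kG ψ i₀)ᶜ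
    have h2 : ∀ᵐ x ∂(volume.restrict (kG ψ i₀)ᶜ), False := by
      filter_upwards [h1] with x hx
      have hev : ∀ᶠ r : ℝ in 𝓝[>] 0, volume ((kG ψ i₀)ᶜ ∩ Metric.closedBall x r) /
          volume (Metric.closedBall x r) + ENNReal.ofReal (1 / 1280000) ≤ 1 := by
        filter_upwards [self_mem_nhdsWithin] with r hr
        have hr0 : 0 < r := hr
        have hpos' : volume (Metric.closedBall x r) ≠ 0 :=
          (Metric.measure_closedBall_pos volume x hr0).ne'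
        have hfin : volume (Metric.closedBall x r) ≠ ⊤ := measure_closedBall_lt_top.ne
        have h3 : ENNReal.ofReal (1 / 1280000) * volume (Metric.closedBall x r)
            ≤ volume (kG ψ i₀ ∩ Metric.closedBall x r) := by
          rw [Real.volume_closedBall, ← ENNReal.ofReal_mul (by norm_num),
            Real.closedBall_eq_Icc]
          have := kh_prop ψ hpos hanti hdiv i₀ (A₀ := x - r) (B₀ := x + r) (by linarith)
          refine le_trans (le_of_eq ?_) this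
          congr 1
          ring
        have h4 : volume ((kG ψ i₀)ᶜ ∩ Metric.closedBall x r) +
            volume (kG ψ i₀ ∩ Metric.closedBall x r) ≤ volume (Metric.closedBall x r) := by
          rw [← measure_union _ (hG.inter measurableSet_closedBall)]
          · refine measure_mono ?_
            rintro y (hy | hy)
            · exact hy.2
            · exact hy.2
          · rw [Set.disjoint_left]
            rintro y hy hy'
            exact hy.1 hy'.1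
        have h5 : volume ((kG ψ i₀)ᶜ ∩ Metric.closedBall x r) +
            ENNReal.ofReal (1 / 1280000) * volume (Metric.closedBall x r)
              ≤ volume (Metric.closedBall x r) := (add_le_add le_rfl h3).trans h4
        calc volume ((kG ψ i₀)ᶜ ∩ Metric.closedBall x r) / volume (Metric.closedBall x r)
              + ENNReal.ofReal (1 / 1280000)
            = (volume ((kG ψ i₀)ᶜ ∩ Metric.closedBall x r) +
              ENNReal.ofReal (1 / 1280000) * volume (Metric.closedBall x r)) /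
                volume (Metric.closedBall x r) := by
              rw [ENNReal.add_div, ENNReal.mul_div_cancel_right hpos' hfin]
          _ ≤ 1 := ENNReal.div_le_of_le_mul (by rwa [one_mul])
      have hlim : Tendsto (fun r => volume ((kG ψ i₀)ᶜ ∩ Metric.closedBall x r) /
          volume (Metric.closedBall x r) + ENNReal.ofReal (1 / 1280000)) (𝓝[>] 0)
          (𝓝 (1 + ENNReal.ofReal (1 / 1280000))) := hx.add tendsto_const_nhds
      have h6 : 1 + ENNReal.ofReal (1 / 1280000) ≤ 1 := le_of_tendsto hlim hev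
      have h7 : 0 < ENNReal.ofReal (1 / 1280000) := ENNReal.ofReal_pos.2 (by norm_num)
      have h8 : (1 : ℝ≥0∞) < 1 + ENNReal.ofReal (1 / 1280000) :=
        ENNReal.lt_add_right ENNReal.one_ne_top h7.ne'
      exact absurd h6 (not_le.2 h8)
    have h3 : volume.restrict (kG ψ i₀)ᶜ univ = 0 := by
      have := ae_iff.1 h2
      simpa using this
    rwa [Measure.restrict_apply_univ] at h3
  rw [ae_iff]
  exact key

end MKG
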