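import Pool.Agent.MKG.LocalB

/-! # Local theorem: change of variables -/

open MeasureTheory Set Filter
open scoped BigOperators ENNReal Topology

namespace MKG

/-- The change of variables `y ↦ y` with `j`-th coordinate replaced by `f_i(y)`. -/
noncomputable def Local_Phi {d n : ℕ} (f : (Fin (d + 1) → ℝ) → (Fin n → ℝ)) (i : Fin n)
    (j : Fin (d + 1)) (y : Fin (d + 1) → ℝ) : Fin (d + 1) → ℝ :=
  y + (f y i - y j) • (Pi.single j (1:ℝ) : Fin (d + 1) → ℝ)

theorem Local_Phi_apply {d n : ℕ} (f : (Fin (d + 1) → ℝ) → (Fin n → ℝ)) (i : Fin n)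
    (j : Fin (d + 1)) (y : Fin (d + 1) → ℝ) : Local_Phi f i j y j = f y i := by
  simp [Local_Phi]

theorem Local_Phi_contDiffAt {d n : ℕ} {f : (Fin (d + 1) → ℝ) → (Fin n → ℝ)} (i : Fin n)
    (j : Fin (d + 1)) {y : Fin (d + 1) → ℝ} (hf : ContDiffAt ℝ 2 f y) :
    ContDiffAt ℝ 2 (Local_Phi f i j) y := by
  have h1 : ContDiffAt ℝ 2 (fun y => f y i - y j) y :=
    (contDiffAt_pi.1 hf i).sub (contDiffAt_pi.1 contDiffAt_id j)
  have h2 : ContDiffAt ℝ 2 (fun y => (f y i - y j) • (Pi.single j (1:ℝ) : Fin (d + 1) → ℝ)) y :=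
    h1.smul contDiffAt_const
  exact contDiffAt_id.add h2

/-- The derivative at the base point is invertible. -/
theorem Local_Phi_equiv {d n : ℕ} {f : (Fin (d + 1) → ℝ) → (Fin n → ℝ)} {i : Fin n}
    {j : Fin (d + 1)} {x₁ : Fin (d + 1) → ℝ} (hf : ContDiffAt ℝ 2 f x₁)
    (hij : fderiv ℝ f x₁ (Pi.single j 1) i ≠ 0) :
    ∃ L : (Fin (d + 1) → ℝ) ≃L[ℝ] (Fin (d + 1) → ℝ),
      HasFDerivAt (Local_Phi f i j) (L : (Fin (d + 1) → ℝ) →L[ℝ] (Fin (d + 1) → ℝ)) x₁ := by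
  set ej : Fin (d + 1) → ℝ := Pi.single j (1:ℝ) with hej
  set ℓ : (Fin (d + 1) → ℝ) →L[ℝ] ℝ :=
    (ContinuousLinearMap.proj (R := ℝ) (φ := fun _ : Fin n => ℝ) i).comp (fderiv ℝ f x₁) with hℓ
  set pj : (Fin (d + 1) → ℝ) →L[ℝ] ℝ :=
    ContinuousLinearMap.proj (R := ℝ) (φ := fun _ : Fin (d + 1) => ℝ) j with hpj
  have hℓe : ℓ ej ≠ 0 := hij
  have hpe : pj ej = 1 := by simp [hpj, hej]
  set L₁ : (Fin (d + 1) → ℝ) →L[ℝ] (Fin (d + 1) → ℝ) :=
    ContinuousLinearMap.id ℝ _ + (ℓ - pj).smulRight ej with hL₁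
  set L₂ : (Fin (d + 1) → ℝ) →L[ℝ] (Fin (d + 1) → ℝ) :=
    ContinuousLinearMap.id ℝ _ + ((ℓ ej)⁻¹ • (pj - ℓ)).smulRight ej with hL₂
  have a1 : ∀ v, L₁ v = v + (ℓ v - pj v) • ej := fun v => rfl
  have a2 : ∀ v, L₂ v = v + ((ℓ ej)⁻¹ * (pj v - ℓ v)) • ej := fun v => rfl
  have h12 : ∀ v, L₂ (L₁ v) = v := by
    intro v
    rw [a2, a1]
    simp only [map_add, map_smul, smul_eq_mul, hpe]
    have : (ℓ ej)⁻¹ * (pj v + (ℓ v - pj v) * 1 - (ℓ v + (ℓ v - pj v) * ℓ ej)) = -(ℓ v - pj v) := by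
      field_simp
      ring
    rw [this, neg_smul, add_assoc, add_neg_cancel, add_zero]
  have h21 : ∀ v, L₁ (L₂ v) = v := by
    intro v
    rw [a1, a2]
    simp only [map_add, map_smul, smul_eq_mul, hpe]
    have : ℓ v + (ℓ ej)⁻¹ * (pj v - ℓ v) * ℓ ej - (pj v + (ℓ ej)⁻¹ * (pj v - ℓ v) * 1)
        = -((ℓ ej)⁻¹ * (pj v - ℓ v)) := by
      field_simp
      ring
    rw [this, neg_smul, add_assoc, add_neg_cancel, add_zero]
  refine ⟨ContinuousLinearEquiv.equivOfInverse L₁ L₂ h12 h21, ?_⟩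
  have hfd : HasFDerivAt f (fderiv ℝ f x₁) x₁ := (hf.differentiableAt (by norm_num)).hasFDerivAt
  have hfi : HasFDerivAt (fun y => f y i) ℓ x₁ :=
    (ContinuousLinearMap.proj (R := ℝ) (φ := fun _ : Fin n => ℝ) i).hasFDerivAt.comp x₁ hfd
  have hdiff : HasFDerivAt (fun y => f y i - y j) (ℓ - pj) x₁ := hfi.sub pj.hasFDerivAt
  exact (hasFDerivAt_id x₁).add (hdiff.smul_const ej)

/-- Local theorem: `f` of class `C²` near `x₁`, uniform sublevel estimate near `x₁`,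
`∂_j f_i (x₁) ≠ 0`. -/
theorem local_good {d m : ℕ} (hcore : CoreAt m d)
    (f : (Fin (d + 1) → ℝ) → (Fin (m + 2) → ℝ)) (x₁ : Fin (d + 1) → ℝ)
    (i : Fin (m + 2)) (j : Fin (d + 1)) (hC2 : ContDiffAt ℝ 2 f x₁)
    (hij : fderiv ℝ f x₁ (Pi.single j 1) i ≠ 0)
    (r : ℝ) (hr : 0 < r) (K : ℕ) (hK : 1 ≤ K) (C : ℝ) (hC : 0 < C)
    (hus : USat f (Metric.ball x₁ r) K C) (ψ : ℝ → ℝ)
    (hpos : ∀ h, 0 < h → 0 < ψ h) (hanti : AntitoneOn ψ (Ioi 0))
    (hdiv : ¬ Summable (fun h : ℕ => (Real.log (h + 1)) ^ (m + 1) * ψ (h + 1))) :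
    ∃ r' > 0, ∀ᵐ y ∂(volume.restrict (Metric.ball x₁ r')), Good f ψ y := by
  set Φ := Local_Phi f i j with hΦ
  obtain ⟨L, hL⟩ := Local_Phi_equiv hC2 hij
  have hΦ2 : ContDiffAt ℝ 2 Φ x₁ := Local_Phi_contDiffAt i j hC2
  set e := hΦ2.toOpenPartialHomeomorph Φ hL (by norm_num) with he
  have heΦ : ∀ y, e y = Φ y := fun y => rfl
  have hx₁s : x₁ ∈ e.source := hΦ2.mem_toOpenPartialHomeomorph_source hL (by norm_num)
  have hinv : ContDiffAt ℝ 2 e.symm (Φ x₁) := hΦ2.to_localInverse hL (by norm_num)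
  have hsx : e.symm (Φ x₁) = x₁ := e.left_inv hx₁s
  have hxt : Φ x₁ ∈ e.target := e.map_source hx₁s
  -- good neighbourhood upstairs
  have hO : ∀ᶠ y in 𝓝 x₁, y ∈ e.source ∧ y ∈ Metric.ball x₁ r ∧ ContDiffAt ℝ 2 f y :=
    (eventually_mem_set.2 (e.open_source.mem_nhds hx₁s)).and
      ((eventually_mem_set.2 (Metric.ball_mem_nhds x₁ hr)).and (hC2.eventually (by norm_num)))
  obtain ⟨O, hO1, hO2, hxO⟩ := eventually_nhds_iff.1 hO
  have hW : ∀ᶠ w in 𝓝 (Φ x₁), w ∈ e.target ∧ e.symm w ∈ O ∧ ContDiffAt ℝ 2 e.symm w := by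
    refine (eventually_mem_set.2 (e.open_target.mem_nhds hxt)).and
      (Eventually.and ?_ (hinv.eventually (by norm_num)))
    refine hinv.continuousAt.eventually ?_
    rw [hsx]
    exact hO2.mem_nhds hxO
  obtain ⟨ρ₀, hρ₀, hball⟩ := Metric.eventually_nhds_iff_ball.1 hW
  set V := Metric.ball (Φ x₁) ρ₀ with hVdef
  set h : (Fin (d + 1) → ℝ) → (Fin (m + 2) → ℝ) := fun w => f (e.symm w) with hh
  have hC2' : ∀ w ∈ V, ContDiffAt ℝ 2 h w := by
    intro w hw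
    obtain ⟨-, h2, h3⟩ := hball w hw
    exact ContDiffAt.comp w (hO1 _ h2).2.2 h3
  have hi : ∀ w ∈ V, h w i = w j := by
    intro w hw
    have h1 : Φ (e.symm w) = w := e.right_inv (hball w hw).1
    rw [hh]
    simp only
    rw [← Local_Phi_apply f i j (e.symm w)]
    exact congrFun h1 j
  have hus' : ∀ y ρ, 0 < ρ → Metric.closedBall y ρ ⊆ V →
      ∃ K C, 1 ≤ K ∧ 0 < C ∧ USat h (Metric.closedBall y ρ) K C := by
    intro y ρ _ hyV
    set S₀ := e.symm '' Metric.closedBall y ρ with hS₀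
    have hS₀O : S₀ ⊆ O := by
      rintro _ ⟨w, hw, rfl⟩
      exact (hball w (hyV hw)).2.1
    have hS₀c : IsCompact S₀ := by
      refine (isCompact_closedBall y ρ).image_of_continuousOn ?_
      intro w hw
      exact (hball w (hyV hw)).2.2.continuousAt.continuousWithinAt
    have hdet : ContinuousOn (fun y => (fderiv ℝ Φ y).det) S₀ := by
      intro w hw
      have h1 : ContDiffAt ℝ 2 Φ w := Local_Phi_contDiffAt i j (hO1 _ (hS₀O hw)).2.2
      have h2 : ContDiffAt ℝ 1 (fderiv ℝ Φ) w := h1.fderiv_right (by norm_num)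
      exact (ContinuousLinearMap.continuous_det.continuousAt.comp
        h2.continuousAt).continuousWithinAt
    obtain ⟨Ld, hLd⟩ := hS₀c.exists_bound_of_continuousOn hdet
    refine ⟨K, max Ld 1 * C, hK, by positivity, ?_⟩
    intro c hc c₀ x hx hx1
    set S : Set (Fin (d + 1) → ℝ) := S₀ ∩ {y | |c₀ + ∑ l, c l * f y l| < x ^ K} with hS
    have hfO : ContinuousOn f O := fun w hw => (hO1 w hw).2.2.continuousAt.continuousWithinAt
    have hSm : MeasurableSet S := by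
      have h1 : ContinuousOn (fun y => |c₀ + ∑ l, c l * f y l|) O := by
        refine ContinuousOn.abs (continuousOn_const.add ?_)
        refine continuousOn_finsetSum _ fun l _ => continuousOn_const.mul ?_
        exact (continuous_apply l).comp_continuousOn hfO
      have h2 := (h1.isOpen_inter_preimage hO2 (isOpen_Iio (a := x ^ K))).measurableSet
      have h3 : S = S₀ ∩ (O ∩ (fun y => |c₀ + ∑ l, c l * f y l|) ⁻¹' Iio (x ^ K)) := by
        ext w
        constructor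
        · rintro ⟨hw1, hw2⟩
          exact ⟨hw1, hS₀O hw1, hw2⟩
        · rintro ⟨hw1, -, hw2⟩
          exact ⟨hw1, hw2⟩
      rw [h3]
      exact hS₀c.isClosed.measurableSet.inter h2
    have hsub : {w | w ∈ Metric.closedBall y ρ ∧ |c₀ + ∑ l, c l * h w l| < x ^ K} ⊆ Φ '' S := by
      rintro w ⟨hw1, hw2⟩
      exact ⟨e.symm w, ⟨mem_image_of_mem _ hw1, hw2⟩, e.right_inv (hball w (hyV hw1)).1⟩
    have hder : ∀ w ∈ S, HasFDerivWithinAt Φ (fderiv ℝ Φ w) S w := by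
      intro w hw
      have h1 : ContDiffAt ℝ 2 Φ w := Local_Phi_contDiffAt i j (hO1 _ (hS₀O hw.1)).2.2
      exact (h1.differentiableAt (by norm_num)).hasFDerivAt.hasFDerivWithinAt
    refine (measure_mono hsub).trans ?_
    refine (addHaar_image_le_lintegral_abs_det_fderiv volume hSm hder).trans ?_
    calc ∫⁻ w in S, ENNReal.ofReal |(fderiv ℝ Φ w).det|
        ≤ ∫⁻ _w in S, ENNReal.ofReal (max Ld 1) := by
          refine setLIntegral_mono' hSm fun w hw => ENNReal.ofReal_le_ofReal ?_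
          exact (hLd w hw.1).trans (le_max_left _ _)
      _ = ENNReal.ofReal (max Ld 1) * volume S := by
          rw [setLIntegral_const]
      _ ≤ ENNReal.ofReal (max Ld 1) * ENNReal.ofReal (C * x) := by
          gcongr
          refine (measure_mono ?_).trans (hus c hc c₀ x hx hx1)
          rintro w ⟨hw1, hw2⟩
          exact ⟨(hO1 _ (hS₀O hw1)).2.1, hw2⟩
      _ = ENNReal.ofReal (max Ld 1 * C * x) := by
          rw [← ENNReal.ofReal_mul (by positivity), mul_assoc]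
  have hnull := Local_straight hcore (j := j) Metric.isOpen_ball hC2' hi hus' ψ hpos hanti hdiv
  -- pull back
  have hN : e.source ∩ Φ ⁻¹' V ∈ 𝓝 x₁ :=
    inter_mem (e.open_source.mem_nhds hx₁s)
      (hΦ2.continuousAt.preimage_mem_nhds (Metric.ball_mem_nhds _ hρ₀))
  obtain ⟨r', hr', hr'sub⟩ := Metric.mem_nhds_iff.1 hN
  refine ⟨r', hr', ?_⟩
  rw [ae_restrict_iff' Metric.isOpen_ball.measurableSet, ae_iff]
  have him : volume (e.symm '' (V \ {w | Good h ψ w})) = 0 := by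
    refine addHaar_image_eq_zero_of_differentiableOn_of_addHaar_eq_zero volume ?_ hnull
    intro w hw
    exact ((hball w hw.1).2.2.differentiableAt (by norm_num)).differentiableWithinAt
  refine measure_mono_null ?_ him
  intro w hw
  simp only [mem_ofPred_eq, Classical.not_imp] at hw
  obtain ⟨hw1, hw2⟩ := hw
  obtain ⟨hws, hwV⟩ := hr'sub hw1
  have hleft : e.symm (Φ w) = w := e.left_inv hws
  refine ⟨Φ w, ⟨hwV, ?_⟩, hleft⟩
  intro hg
  apply hw2
  have hg' : Good h ψ (Φ w) := hg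
  unfold Good at hg' ⊢
  have hfw : h (Φ w) = f w := by rw [hh]; simp only; rw [hleft]
  rw [hfw] at hg'
  exact hg'

end MKG
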