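import Pool.Agent.MKG.Defs

/-!
# Null sets pull back under submersions
-/

open MeasureTheory Set Filter
open scoped BigOperators ENNReal Topology

namespace MKG

theorem Submersion_null_preimage_linear {d n : ℕ} (L : (Fin d → ℝ) →ₗ[ℝ] (Fin n → ℝ))
    (hL : Function.Surjective L) {N : Set (Fin n → ℝ)} (hN : volume N = 0) :
    volume (L ⁻¹' N) = 0 := by
  obtain ⟨c, -, -, hc⟩ := LinearMap.exists_map_addHaar_eq_smul_addHaar' L
    (volume : Measure (Fin d → ℝ)) (volume : Measure (Fin n → ℝ)) hL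
  have hLm : Measurable L := L.continuous_of_finiteDimensional.measurable
  have h1 : volume (L ⁻¹' (toMeasurable volume N)) = 0 := by
    rw [← Measure.map_apply hLm (measurableSet_toMeasurable _ _), hc, Measure.smul_apply,
      measure_toMeasurable, hN, smul_zero]
  exact measure_mono_null (preimage_mono (subset_toMeasurable _ _)) h1

/-! ### ℓ = 1: null sets pull back under submersions -/
theorem null_preimage_submersion {d n : ℕ} (f : (Fin d → ℝ) → (Fin n → ℝ)) (x₀ : Fin d → ℝ)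
    (hf : ContDiffAt ℝ 1 f x₀) (hs : Function.Surjective (fderiv ℝ f x₀))
    (N : Set (Fin n → ℝ)) (hN : volume N = 0) :
    ∃ r > 0, volume {y | y ∈ Metric.ball x₀ r ∧ f y ∈ N} = 0 := by
  set L := fderiv ℝ f x₀ with hL
  obtain ⟨A₀, hA₀⟩ := LinearMap.exists_rightInverse_of_surjective L.toLinearMap
    (LinearMap.range_eq_top.2 hs)
  set A : (Fin n → ℝ) →L[ℝ] (Fin d → ℝ) := LinearMap.toContinuousLinearMap A₀ with hA
  have hLA : ∀ z, L (A z) = z := fun z => LinearMap.congr_fun hA₀ z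
  set Φ : (Fin d → ℝ) → (Fin d → ℝ) := fun y => y + A (f y - L y) with hΦ
  have hLΦ : ∀ y, L (Φ y) = f y := by
    intro y
    simp only [hΦ, map_add, hLA]
    abel
  have hΦd : ContDiffAt ℝ 1 Φ x₀ :=
    contDiffAt_id.add (A.contDiff.contDiffAt.comp x₀ (hf.sub L.contDiff.contDiffAt))
  have hfd : HasFDerivAt f L x₀ := (hf.differentiableAt (by norm_num)).hasFDerivAt
  have hΦ' : HasFDerivAt Φ
      ((ContinuousLinearEquiv.refl ℝ (Fin d → ℝ)) : (Fin d → ℝ) →L[ℝ] (Fin d → ℝ)) x₀ := by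
    have h1 : HasFDerivAt (fun y => f y - L y) (L - L) x₀ := hfd.sub L.hasFDerivAt
    have h2 : HasFDerivAt (fun y => A (f y - L y)) (A.comp (L - L)) x₀ :=
      A.hasFDerivAt.comp x₀ h1
    have h3 := (hasFDerivAt_id x₀).add h2
    simp only [sub_self, ContinuousLinearMap.comp_zero, add_zero] at h3
    exact h3
  set e := hΦd.toOpenPartialHomeomorph Φ hΦ' (by norm_num) with he
  have hx₀s : x₀ ∈ e.source := hΦd.mem_toOpenPartialHomeomorph_source hΦ' (by norm_num)
  have hinv : ContDiffAt ℝ 1 e.symm (Φ x₀) := hΦd.to_localInverse hΦ' (by norm_num)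
  -- `e.symm` is differentiable near `Φ x₀`
  have hev : ∀ᶠ w in 𝓝 (Φ x₀), DifferentiableAt ℝ e.symm w := by
    filter_upwards [hinv.eventually (by norm_num)] with w hw
      using hw.differentiableAt (by norm_num)
  obtain ⟨T, hT, hTo, hΦT⟩ := eventually_nhds_iff.1 hev
  have hcont : ContinuousAt Φ x₀ := hΦd.continuousAt
  have hnh : e.source ∩ Φ ⁻¹' T ∈ 𝓝 x₀ :=
    inter_mem (e.open_source.mem_nhds hx₀s) (hcont.preimage_mem_nhds (hTo.mem_nhds hΦT))
  obtain ⟨r, hr, hrs⟩ := Metric.mem_nhds_iff.1 hnh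
  refine ⟨r, hr, ?_⟩
  have hnull : volume (T ∩ L ⁻¹' N) = 0 :=
    measure_mono_null inter_subset_right
      (Submersion_null_preimage_linear L.toLinearMap hs hN)
  have him : volume (e.symm '' (T ∩ L ⁻¹' N)) = 0 := by
    refine addHaar_image_eq_zero_of_differentiableOn_of_addHaar_eq_zero volume ?_ hnull
    intro w hw
    exact (hT w hw.1).differentiableWithinAt
  refine measure_mono_null ?_ him
  rintro y ⟨hy, hyN⟩
  have hys := hrs hy
  refine ⟨Φ y, ⟨hys.2, ?_⟩, e.left_inv hys.1⟩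
  change L (Φ y) ∈ N
  rw [hLΦ]
  exact hyN

end MKG
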