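import Pool.Agent.MKG.Defs

/-!
# Symmetry of iterated derivatives and polarisation
-/

open MeasureTheory Set Filter
open scoped BigOperators ENNReal Topology

namespace MKG

/-- A function on `Fin (k+2) → E` invariant under permutations fixing `0` and under `swap 0 1`
is invariant under all permutations. -/
theorem SymmDeriv_aux {α β : Type*} {k : ℕ} (φ : (Fin (k + 2) → α) → β)
    (h0 : ∀ (σ : Equiv.Perm (Fin (k + 2))), σ 0 = 0 → ∀ v, φ (v ∘ σ) = φ v)
    (h1 : ∀ v, φ (v ∘ Equiv.swap 0 1) = φ v) (σ : Equiv.Perm (Fin (k + 2))) :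
    ∀ v, φ (v ∘ σ) = φ v := by
  have hswap : ∀ i j : Fin (k + 2), ∀ v, φ (v ∘ Equiv.swap i j) = φ v := by
    have h0j : ∀ j : Fin (k + 2), j ≠ 0 → ∀ v, φ (v ∘ Equiv.swap 0 j) = φ v := by
      intro j hj v
      by_cases hj1 : j = 1
      · subst hj1; exact h1 v
      · have h01 : (0 : Fin (k + 2)) ≠ 1 := by simp
        have hfix : Equiv.swap (1 : Fin (k + 2)) j 0 = 0 :=
          Equiv.swap_apply_of_ne_of_ne h01 (Ne.symm hj)
        have heq : Equiv.swap (0 : Fin (k + 2)) j
            = Equiv.swap 1 j * Equiv.swap 0 1 * Equiv.swap 1 j := by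
          have := Equiv.swap_mul_swap_mul_swap (x := (0 : Fin (k + 2))) (y := 1) (z := j)
            h01 (Ne.symm hj)
          rw [this, Equiv.swap_comm]
        rw [heq]
        have e1 : (v ∘ (Equiv.swap 1 j * Equiv.swap 0 1 * Equiv.swap 1 j : Equiv.Perm (Fin (k + 2))))
            = ((v ∘ Equiv.swap 1 j) ∘ Equiv.swap 0 1) ∘ Equiv.swap 1 j := by
          ext x; simp
        rw [e1, h0 _ hfix, h1, h0 _ hfix]
    intro i j v
    by_cases hi : i = 0
    · subst hi
      by_cases hj : j = 0
      · subst hj; simp
      · exact h0j j hj v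
    · by_cases hj : j = 0
      · subst hj; rw [Equiv.swap_comm]; exact h0j i hi v
      · exact h0 _ (Equiv.swap_apply_of_ne_of_ne (Ne.symm hi) (Ne.symm hj)) v
  induction σ using Equiv.Perm.swap_induction_on with
  | one => intro v; rfl
  | swap_mul f x y _ ih =>
    intro v
    have : v ∘ (Equiv.swap x y * f : Equiv.Perm (Fin (k + 2))) = (v ∘ Equiv.swap x y) ∘ f := by
      ext x; simp
    rw [this, ih, hswap]

/-- symmetry of iterated derivatives -/
theorem iteratedFDeriv_perm {E F : Type*} [NormedAddCommGroup E] [NormedSpace ℝ E]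
    [NormedAddCommGroup F] [NormedSpace ℝ F] {k : ℕ} {f : E → F} {x : E}
    (hf : ContDiffAt ℝ k f x) (σ : Equiv.Perm (Fin k)) (v : Fin k → E) :
    iteratedFDeriv ℝ k f x (v ∘ σ) = iteratedFDeriv ℝ k f x v := by
  induction k generalizing x with
  | zero =>
    have : σ = 1 := Subsingleton.elim _ _
    subst this; rfl
  | succ n ih =>
    cases n with
    | zero =>
      have : v ∘ σ = v := by
        ext i
        have h1 : σ i = i := by
          ext
          have := (σ i).2
          have := i.2
          omega
        rw [Function.comp_apply, h1]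
      rw [this]
    | succ n =>
      refine SymmDeriv_aux (iteratedFDeriv ℝ (n + 2) f x) ?_ ?_ σ v
      · -- permutations fixing `0`
        intro σ hσ v
        obtain ⟨⟨p, τ⟩, rfl⟩ := Equiv.Perm.decomposeFin.symm.surjective σ
        rw [Equiv.Perm.decomposeFin_symm_apply_zero] at hσ
        subst hσ
        rw [iteratedFDeriv_succ_apply_left, iteratedFDeriv_succ_apply_left]
        have htail : Fin.tail (v ∘ (Equiv.Perm.decomposeFin.symm ((0 : Fin (n + 2)), τ)))
            = Fin.tail v ∘ τ := by
          ext i
          simp [Fin.tail]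
        have hzero : (v ∘ (Equiv.Perm.decomposeFin.symm ((0 : Fin (n + 2)), τ))) 0 = v 0 := by
          simp
        rw [htail, hzero]
        have hev : ∀ᶠ y in 𝓝 x, ContDiffAt ℝ ((n + 1 : ℕ) : WithTop ℕ∞) f y := by
          refine ContDiffAt.eventually (hf.of_le ?_) (by simp)
          exact_mod_cast Nat.le_succ _
        have hd : DifferentiableAt ℝ (iteratedFDeriv ℝ (n + 1) f) x := by
          have : ContDiffAt ℝ 1 (iteratedFDeriv ℝ (n + 1) f) x :=
            hf.iteratedFDeriv_right (by norm_cast; omega)
          exact this.differentiableAt (by norm_num)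
        have hap : ∀ w : Fin (n + 1) → E, HasFDerivAt (fun y => iteratedFDeriv ℝ (n + 1) f y w)
            ((ContinuousMultilinearMap.apply ℝ (fun _ : Fin (n + 1) => E) F w).comp
              (fderiv ℝ (iteratedFDeriv ℝ (n + 1) f) x)) x := fun w =>
          (ContinuousMultilinearMap.apply ℝ (fun _ : Fin (n + 1) => E) F w).hasFDerivAt.comp x
            hd.hasFDerivAt
        have h1 := hap (Fin.tail v ∘ τ)
        have h2 := (hap (Fin.tail v)).congr_of_eventuallyEq
          (f₁ := fun y => iteratedFDeriv ℝ (n + 1) f y (Fin.tail v ∘ τ)) (by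
            filter_upwards [hev] with y hy using ih hy τ (Fin.tail v))
        have h3 := congrArg (fun L : E →L[ℝ] F => L (v 0)) (h1.unique h2)
        exact h3
      · -- the swap `(0 1)`
        intro v
        set g := iteratedFDeriv ℝ n f with hg
        have hgd : ContDiffAt ℝ 2 g x := hf.iteratedFDeriv_right (by norm_cast; omega)
        have hsymm : IsSymmSndFDerivAt ℝ g x := hgd.isSymmSndFDerivAt (by simp)
        have hgd' : DifferentiableAt ℝ (fderiv ℝ g) x := by
          have : ContDiffAt ℝ 1 (fderiv ℝ g) x := hgd.fderiv_right (by norm_num)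
          exact this.differentiableAt (by norm_num)
        have hd : DifferentiableAt ℝ (iteratedFDeriv ℝ (n + 1) f) x := by
          have : ContDiffAt ℝ 1 (iteratedFDeriv ℝ (n + 1) f) x :=
            hf.iteratedFDeriv_right (by norm_cast; omega)
          exact this.differentiableAt (by norm_num)
        have key : ∀ v : Fin (n + 2) → E, iteratedFDeriv ℝ (n + 2) f x v
            = fderiv ℝ (fderiv ℝ g) x (v 0) (v 1) (Fin.tail (Fin.tail v)) := by
          intro v
          rw [iteratedFDeriv_succ_apply_left]
          have h1 : HasFDerivAt (fun y => iteratedFDeriv ℝ (n + 1) f y (Fin.tail v))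
              ((ContinuousMultilinearMap.apply ℝ (fun _ : Fin (n + 1) => E) F (Fin.tail v)).comp
                (fderiv ℝ (iteratedFDeriv ℝ (n + 1) f) x)) x :=
            (ContinuousMultilinearMap.apply ℝ (fun _ : Fin (n + 1) => E) F
              (Fin.tail v)).hasFDerivAt.comp x hd.hasFDerivAt
          have h2 : (fun y => iteratedFDeriv ℝ (n + 1) f y (Fin.tail v))
              = fun y => (fderiv ℝ g y (v 1)) (Fin.tail (Fin.tail v)) := by
            funext y
            rw [iteratedFDeriv_succ_apply_left]
            rfl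
          have h3 : HasFDerivAt (fun y => (fderiv ℝ g y (v 1)) (Fin.tail (Fin.tail v)))
              ((ContinuousMultilinearMap.apply ℝ (fun _ : Fin n => E) F
                (Fin.tail (Fin.tail v))).comp
                ((ContinuousLinearMap.apply ℝ (ContinuousMultilinearMap ℝ (fun _ : Fin n => E) F)
                  (v 1)).comp (fderiv ℝ (fderiv ℝ g) x))) x := by
            have h5 : HasFDerivAt (fun y => fderiv ℝ g y (v 1))
                ((ContinuousLinearMap.apply ℝ (ContinuousMultilinearMap ℝ (fun _ : Fin n => E) F)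
                  (v 1)).comp (fderiv ℝ (fderiv ℝ g) x)) x :=
              HasFDerivAt.comp (g := ContinuousLinearMap.apply ℝ
                (ContinuousMultilinearMap ℝ (fun _ : Fin n => E) F) (v 1)) x
                (ContinuousLinearMap.hasFDerivAt _) hgd'.hasFDerivAt
            exact (ContinuousMultilinearMap.apply ℝ (fun _ : Fin n => E) F
              (Fin.tail (Fin.tail v))).hasFDerivAt.comp x h5
          rw [h2] at h1
          have h4 := congrArg (fun L : E →L[ℝ] F => L (v 0)) (h1.unique h3)
          exact h4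
        rw [key, key]
        have e0 : (v ∘ Equiv.swap (0 : Fin (n + 2)) 1) 0 = v 1 := by simp
        have e1 : (v ∘ Equiv.swap (0 : Fin (n + 2)) 1) 1 = v 0 := by simp
        have e2 : Fin.tail (Fin.tail (v ∘ Equiv.swap (0 : Fin (n + 2)) 1))
            = Fin.tail (Fin.tail v) := by
          ext i
          simp only [Fin.tail, Function.comp_apply]
          rw [Equiv.swap_apply_of_ne_of_ne]
          · exact Fin.succ_ne_zero _
          · intro h
            have := congrArg Fin.val h
            simp at this
        rw [e0, e1, e2, hsymm.eq]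

/-- Polarisation: a nonzero symmetric multilinear form is nonzero on some diagonal vector. -/
theorem exists_diag_ne {E : Type*} [NormedAddCommGroup E] [NormedSpace ℝ E] {k : ℕ}
    (φ : ContinuousMultilinearMap ℝ (fun _ : Fin k => E) ℝ)
    (hφ : ∀ (σ : Equiv.Perm (Fin k)) (v : Fin k → E), φ (v ∘ σ) = φ v) (hne : φ ≠ 0) :
    ∃ v : E, φ (fun _ => v) ≠ 0 := by
  by_contra hcon
  push Not at hcon
  apply hne
  ext v
  have h1 := φ.iteratedFDeriv_comp_diagonal (0 : E) v
  have h2 : (fun x : E => φ (fun _ => x)) = fun _ => 0 := by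
    funext x; exact hcon x
  rw [h2] at h1
  have h3 : ∀ σ : Equiv.Perm (Fin k), φ (fun i => v (σ i)) = φ v := fun σ => hφ σ v
  simp only [h3, Finset.sum_const, Finset.card_univ, nsmul_eq_mul] at h1
  have h4 : (iteratedFDeriv ℝ k (fun _ : E => (0 : ℝ)) 0) v = 0 := by
    have : iteratedFDeriv ℝ k (fun _ : E => (0 : ℝ)) = 0 := iteratedFDeriv_fun_zero
    rw [this]; rfl
  rw [h4] at h1
  have h5 : ((Fintype.card (Equiv.Perm (Fin k)) : ℕ) : ℝ) ≠ 0 := by
    exact_mod_cast Fintype.card_ne_zero
  rcases mul_eq_zero.1 h1.symm with h | h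
  · exact absurd h h5
  · exact h

end MKG
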