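import Pool.Agent.MKG.Sublevel1
import Pool.Agent.MKG.SymmDeriv

/-!
# Uniform sublevel estimates near a nondegenerate point
-/

open MeasureTheory Set Filter
open scoped BigOperators ENNReal Topology

namespace MKG

/-- `ℓ`-nondegeneracy at `x₀`, literally as in the problem. -/
def NondegAt {d n : ℕ} (f : (Fin d → ℝ) → (Fin n → ℝ)) (ℓ : ℕ) (x₀ : Fin d → ℝ) : Prop :=
  (∃ r > 0, ContDiffOn ℝ ℓ f (Metric.ball x₀ r)) ∧
  Submodule.span ℝ {w : Fin n → ℝ | ∃ k : ℕ, 1 ≤ k ∧ k ≤ ℓ ∧ ∃ c : Fin k → Fin d,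
    w = iteratedFDeriv ℝ k f x₀ (fun i => Pi.single (c i) 1)} = ⊤

/-- Fubini along lines in direction `v`. -/
theorem UniformSublevel_fubini {d : ℕ} {x₀ v : Fin d → ℝ} {r : ℝ} {S : Set (Fin d → ℝ)}
    (hS : MeasurableSet S) (hSr : S ⊆ Metric.ball x₀ r) {b : ℝ≥0∞}
    (h : ∀ y, volume {s : ℝ | s ∈ Icc (0:ℝ) 1 ∧ y + s • v ∈ S} ≤ b) :
    volume S ≤ b * volume (Metric.ball x₀ (r + ‖v‖)) := by
  set B := Metric.ball x₀ (r + ‖v‖) with hB
  set W : Set ((Fin d → ℝ) × ℝ) := {p | p.1 ∈ B ∧ p.2 ∈ Icc (0:ℝ) 1 ∧ p.1 + p.2 • v ∈ S} with hW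
  have hWm : MeasurableSet W := by
    have h1 : MeasurableSet {p : (Fin d → ℝ) × ℝ | p.1 ∈ B} :=
      measurable_fst Metric.isOpen_ball.measurableSet
    have h2 : MeasurableSet {p : (Fin d → ℝ) × ℝ | p.2 ∈ Icc (0:ℝ) 1} :=
      measurable_snd measurableSet_Icc
    have h3 : MeasurableSet {p : (Fin d → ℝ) × ℝ | p.1 + p.2 • v ∈ S} := by
      have : Continuous (fun p : (Fin d → ℝ) × ℝ => p.1 + p.2 • v) := by fun_prop
      exact this.measurable hS
    exact h1.inter (h2.inter h3)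
  have e1 : (volume.prod volume) W ≤ b * volume B := by
    rw [Measure.prod_apply hWm]
    calc ∫⁻ y, volume (Prod.mk y ⁻¹' W) ≤ ∫⁻ y, B.indicator (fun _ => b) y := by
          refine lintegral_mono fun y => ?_
          by_cases hy : y ∈ B
          · rw [indicator_of_mem hy]
            refine (measure_mono ?_).trans (h y)
            intro s hs
            exact hs.2
          · rw [indicator_of_notMem hy]
            have : Prod.mk y ⁻¹' W = ∅ := by
              ext s
              simp only [mem_preimage, mem_empty_iff_false, iff_false]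
              exact fun hs => hy hs.1
            rw [this]; simp
      _ = b * volume B := by
          rw [lintegral_indicator Metric.isOpen_ball.measurableSet]
          simp [hB]
  have e2 : (volume.prod volume) W = volume S := by
    rw [Measure.prod_apply_symm hWm]
    calc ∫⁻ s, volume ((fun y => (y, s)) ⁻¹' W)
        = ∫⁻ s, (Icc (0:ℝ) 1).indicator (fun _ => volume S) s := by
          refine lintegral_congr fun s => ?_
          by_cases hs : s ∈ Icc (0:ℝ) 1
          · rw [indicator_of_mem hs]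
            have : (fun y => (y, s)) ⁻¹' W = (fun y => y + s • v) ⁻¹' S := by
              ext y
              constructor
              · intro hy; exact hy.2.2
              · intro hy
                refine ⟨?_, hs, hy⟩
                have h1 : dist (y + s • v) x₀ < r := hSr hy
                have h2 : dist y (y + s • v) ≤ ‖v‖ := by
                  rw [dist_eq_norm]
                  have : y - (y + s • v) = -(s • v) := by abel
                  rw [this, norm_neg, norm_smul, Real.norm_eq_abs, abs_of_nonneg hs.1]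
                  exact mul_le_of_le_one_left (norm_nonneg _) hs.2
                change dist y x₀ < r + ‖v‖
                calc dist y x₀ ≤ dist y (y + s • v) + dist (y + s • v) x₀ := dist_triangle _ _ _
                  _ < r + ‖v‖ := by linarith
            rw [this, measure_preimage_add_right]
          · rw [indicator_of_notMem hs]
            have : (fun y => (y, s)) ⁻¹' W = ∅ := by
              ext y
              simp only [mem_preimage, mem_empty_iff_false, iff_false]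
              exact fun hy => hs hy.2.1
            rw [this]; simp
      _ = volume S := by
          rw [lintegral_indicator measurableSet_Icc]
          simp
  rw [← e2]
  exact e1

/-- The functional `w ↦ Σ c i * w i`. -/
noncomputable def UniformSublevel_L {n : ℕ} (c : Fin n → ℝ) : (Fin n → ℝ) →L[ℝ] ℝ :=
  ∑ i, c i • (ContinuousLinearMap.proj (R := ℝ) (φ := fun _ : Fin n => ℝ) i)

theorem UniformSublevel_L_apply {n : ℕ} (c w : Fin n → ℝ) :
    UniformSublevel_L c w = ∑ i, c i * w i := by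
  simp [UniformSublevel_L, sum_apply]

theorem UniformSublevel_dir {d n : ℕ} {f : (Fin d → ℝ) → (Fin n → ℝ)} {ℓ : ℕ} {x₀ : Fin d → ℝ}
    (hf : NondegAt f ℓ x₀) {c : Fin n → ℝ} (hc : c ≠ 0) :
    ∃ k : ℕ, 1 ≤ k ∧ k ≤ ℓ ∧ ∃ v : Fin d → ℝ,
      UniformSublevel_L c (iteratedFDeriv ℝ k f x₀ (fun _ => v)) ≠ 0 := by
  by_contra hcon
  push Not at hcon
  obtain ⟨⟨r, hr, hfr⟩, hspan⟩ := hf
  have hfx : ContDiffAt ℝ ℓ f x₀ := hfr.contDiffAt (Metric.ball_mem_nhds x₀ hr)
  have hzero : ∀ w ∈ {w : Fin n → ℝ | ∃ k : ℕ, 1 ≤ k ∧ k ≤ ℓ ∧ ∃ c : Fin k → Fin d,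
      w = iteratedFDeriv ℝ k f x₀ (fun i => Pi.single (c i) 1)}, UniformSublevel_L c w = 0 := by
    rintro w ⟨k, hk1, hkl, cc, rfl⟩
    by_contra hne
    set φ := (UniformSublevel_L c).compContinuousMultilinearMap (iteratedFDeriv ℝ k f x₀) with hφ
    have hφ0 : φ ≠ 0 := by
      intro h0
      apply hne
      have := congrArg (fun ψ => ψ (fun i => Pi.single (cc i) 1)) h0
      simpa [hφ] using this
    obtain ⟨v, hv⟩ := exists_diag_ne φ (fun σ v => by
      simp only [hφ, ContinuousLinearMap.compContinuousMultilinearMap_coe, Function.comp_apply]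
      rw [iteratedFDeriv_perm (hfx.of_le (by exact_mod_cast hkl))]) hφ0
    exact hv (hcon k hk1 hkl v)
  have hall : ∀ w : Fin n → ℝ, UniformSublevel_L c w = 0 := by
    intro w
    have hw : w ∈ Submodule.span ℝ {w : Fin n → ℝ | ∃ k : ℕ, 1 ≤ k ∧ k ≤ ℓ ∧ ∃ c : Fin k → Fin d,
      w = iteratedFDeriv ℝ k f x₀ (fun i => Pi.single (c i) 1)} := by rw [hspan]; trivial
    exact (Submodule.span_le (p := LinearMap.ker (UniformSublevel_L c).toLinearMap)).2
      (fun w hw => hzero w hw) hw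
  apply hc
  funext i
  have := hall (Pi.single i 1)
  rw [UniformSublevel_L_apply] at this
  simpa [Pi.single_apply] using this

/-- Derivatives along lines. -/
theorem UniformSublevel_hasDerivAt {d n : ℕ} {f : (Fin d → ℝ) → (Fin n → ℝ)} {ℓ : ℕ}
    {y v : Fin d → ℝ} {s : ℝ} (hf : ContDiffAt ℝ ℓ f (y + s • v)) (c : Fin n → ℝ) {i : ℕ}
    (hi : i < ℓ) (c₀ : ℝ) :
    HasDerivAt (fun s : ℝ => c₀ + UniformSublevel_L c (iteratedFDeriv ℝ i f (y + s • v)
        (fun _ => v)))
      (UniformSublevel_L c (iteratedFDeriv ℝ (i + 1) f (y + s • v) (fun _ => v))) s := by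
  have hd : DifferentiableAt ℝ (iteratedFDeriv ℝ i f) (y + s • v) :=
    hf.differentiableAt_iteratedFDeriv (by exact_mod_cast hi)
  have hline : HasDerivAt (fun s : ℝ => y + s • v) v s := by
    simpa using ((hasDerivAt_id s).smul_const v).const_add y
  have h1 : HasDerivAt (fun s : ℝ => iteratedFDeriv ℝ i f (y + s • v))
      (fderiv ℝ (iteratedFDeriv ℝ i f) (y + s • v) v) s :=
    hd.hasFDerivAt.comp_hasDerivAt s hline
  set A := ContinuousMultilinearMap.apply ℝ (fun _ : Fin i => Fin d → ℝ) (Fin n → ℝ)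
    (fun _ => v) with hA
  have h2 : HasDerivAt (fun s : ℝ => A (iteratedFDeriv ℝ i f (y + s • v)))
      (A (fderiv ℝ (iteratedFDeriv ℝ i f) (y + s • v) v)) s :=
    A.hasFDerivAt.comp_hasDerivAt s h1
  have h3 := (UniformSublevel_L c).hasFDerivAt.comp_hasDerivAt s h2
  have h4 := h3.const_add c₀
  have h5 : iteratedFDeriv ℝ (i + 1) f (y + s • v) (fun _ => v)
      = A (fderiv ℝ (iteratedFDeriv ℝ i f) (y + s • v) v) := by
    rw [iteratedFDeriv_succ_apply_left]
    rfl
  rw [h5]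
  exact h4

/-- Local lower bound, uniform in the coefficients. -/
theorem UniformSublevel_low {d n : ℕ} {f : (Fin d → ℝ) → (Fin n → ℝ)} {ℓ : ℕ} {x₀ : Fin d → ℝ}
    (hf : NondegAt f ℓ x₀) {c : Fin n → ℝ} (hc : c ≠ 0) :
    ∃ k : ℕ, 1 ≤ k ∧ k ≤ ℓ ∧ ∃ v : Fin d → ℝ, ∃ lam > 0, ∃ U ∈ 𝓝 c, ∃ r > 0,
      ∀ y ∈ Metric.ball x₀ r, ContDiffAt ℝ ℓ f y ∧ ∀ c' ∈ U,
        lam ≤ |UniformSublevel_L c' (iteratedFDeriv ℝ k f y (fun _ => v))| := by
  obtain ⟨k, hk1, hkl, v, hv⟩ := UniformSublevel_dir hf hc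
  obtain ⟨⟨r₀, hr₀, hfr⟩, -⟩ := hf
  have hfx : ContDiffAt ℝ ℓ f x₀ := hfr.contDiffAt (Metric.ball_mem_nhds x₀ hr₀)
  set G : (Fin n → ℝ) × (Fin d → ℝ) → ℝ := fun p =>
    |∑ i, p.1 i * (iteratedFDeriv ℝ k f p.2 (fun _ => v)) i| with hG
  have hcont : ContinuousAt G (c, x₀) := by
    have h1 : ContinuousAt (iteratedFDeriv ℝ k f) x₀ :=
      hfx.continuousAt_iteratedFDeriv (by exact_mod_cast hkl)
    have h2 : ContinuousAt (fun y => iteratedFDeriv ℝ k f y (fun _ => v)) x₀ :=
      ((ContinuousMultilinearMap.apply ℝ (fun _ : Fin k => Fin d → ℝ) (Fin n → ℝ)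
        (fun _ => v)).continuous.continuousAt).comp h1
    have h3 : ContinuousAt (fun p : (Fin n → ℝ) × (Fin d → ℝ) =>
        iteratedFDeriv ℝ k f p.2 (fun _ => v)) (c, x₀) :=
      ContinuousAt.comp (g := fun y => iteratedFDeriv ℝ k f y (fun _ => v)) h2 continuousAt_snd
    refine ContinuousAt.abs ?_
    refine tendsto_finsetSum _ fun i _ => ?_
    refine ContinuousAt.mul ?_ ?_
    · exact (continuous_apply i).continuousAt.comp continuousAt_fst
    · exact ContinuousAt.comp (g := fun w : Fin n → ℝ => w i) (continuous_apply i).continuousAt h3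
  have hpos : 0 < G (c, x₀) := by
    rw [hG]
    simp only
    rw [← UniformSublevel_L_apply]
    exact abs_pos.2 hv
  have hev : ∀ᶠ p in 𝓝 (c, x₀), G (c, x₀) / 2 < G p :=
    hcont.eventually (lt_mem_nhds (by linarith))
  rw [nhds_prod_eq] at hev
  obtain ⟨U, hU, V, hV, hUV⟩ := Filter.mem_prod_iff.1 hev
  obtain ⟨r₁, hr₁, hr₁V⟩ := Metric.mem_nhds_iff.1 hV
  refine ⟨k, hk1, hkl, v, G (c, x₀) / 2, by linarith, U, hU, min r₀ r₁, lt_min hr₀ hr₁, ?_⟩
  intro y hy
  have hy0 : y ∈ Metric.ball x₀ r₀ := Metric.ball_subset_ball (min_le_left _ _) hy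
  have hy1 : y ∈ Metric.ball x₀ r₁ := Metric.ball_subset_ball (min_le_right _ _) hy
  refine ⟨hfr.contDiffAt (Metric.isOpen_ball.mem_nhds hy0), fun c' hc' => ?_⟩
  have h1 : (c', y) ∈ U ×ˢ V := ⟨hc', hr₁V hy1⟩
  have h2 := hUV h1
  rw [UniformSublevel_L_apply]
  exact le_of_lt h2

theorem UniformSublevel_ordConnected {d : ℕ} (x₀ y v : Fin d → ℝ) (r : ℝ) :
    {s : ℝ | y + s • v ∈ Metric.ball x₀ r}.OrdConnected := by
  have h : Convex ℝ {s : ℝ | y + s • v ∈ Metric.ball x₀ r} := by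
    have h1 := (convex_ball x₀ r).affine_preimage (AffineMap.lineMap (k := ℝ) y (y + v))
    have h2 : {s : ℝ | y + s • v ∈ Metric.ball x₀ r}
        = (AffineMap.lineMap (k := ℝ) y (y + v)) ⁻¹' Metric.ball x₀ r := by
      ext s
      simp [AffineMap.lineMap_apply, add_comm]
    rw [h2]
    exact h1
  exact h.ordConnected

/-- Sublevel estimate with fixed `k, v, lam`. -/
theorem UniformSublevel_local {d n : ℕ} {f : (Fin d → ℝ) → (Fin n → ℝ)} {ℓ : ℕ} {x₀ : Fin d → ℝ}
    {k : ℕ} (hk1 : 1 ≤ k) (hkl : k ≤ ℓ) {v : Fin d → ℝ} {lam : ℝ} (hlam : 0 < lam) {r : ℝ}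
    {c : Fin n → ℝ} (hr : ∀ y ∈ Metric.ball x₀ r, ContDiffAt ℝ ℓ f y ∧
        lam ≤ |UniformSublevel_L c (iteratedFDeriv ℝ k f y (fun _ => v))|)
    (c₀ x : ℝ) (hx : 0 < x) (hx1 : x ≤ 1) :
    volume {y | y ∈ Metric.ball x₀ r ∧ |c₀ + ∑ i, c i * f y i| < x ^ (ℓ + 1)}
      ≤ ENNReal.ofReal (4 ^ k * (x / min lam 1)) * volume (Metric.ball x₀ (r + ‖v‖)) := by
  set lam' := min lam 1 with hlam'
  have hlam'0 : 0 < lam' := lt_min hlam one_pos
  have hfc : ContinuousOn f (Metric.ball x₀ r) := fun y hy =>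
    (hr y hy).1.continuousAt.continuousWithinAt
  have hmeas : MeasurableSet {y | y ∈ Metric.ball x₀ r ∧ |c₀ + ∑ i, c i * f y i| < x ^ (ℓ + 1)} := by
    have h1 : ContinuousOn (fun y => |c₀ + ∑ i, c i * f y i|) (Metric.ball x₀ r) := by
      refine ContinuousOn.abs (continuousOn_const.add ?_)
      refine continuousOn_finsetSum _ fun i _ => continuousOn_const.mul ?_
      exact (continuous_apply i).comp_continuousOn hfc
    have h2 := h1.isOpen_inter_preimage Metric.isOpen_ball (isOpen_Iio (a := x ^ (ℓ + 1)))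
    exact h2.measurableSet
  refine UniformSublevel_fubini hmeas (fun y hy => hy.1) ?_
  intro y
  obtain ⟨m, rfl⟩ : ∃ m, k = m + 1 := ⟨k - 1, by omega⟩
  set I : Set ℝ := {s : ℝ | y + s • v ∈ Metric.ball x₀ r} with hI
  set g : ℕ → ℝ → ℝ := fun i s => (if i = 0 then c₀ else 0) +
    UniformSublevel_L c (iteratedFDeriv ℝ i f (y + s • v) (fun _ => v)) with hg
  have hsub := sublevel1 m I (UniformSublevel_ordConnected x₀ y v r) g
    (fun i hi s hs => by
      have := UniformSublevel_hasDerivAt (hr _ hs).1 c (i := i) (by omega)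
        (if i = 0 then c₀ else 0)
      simpa [hg] using this) lam' hlam'0
    (fun s hs => by
      have := (hr _ hs).2
      simp only [hg, Nat.add_eq_zero_iff, one_ne_zero, and_false, if_false, zero_add]
      exact (min_le_left _ _).trans this) (x / lam') (by positivity)
  refine (measure_mono ?_).trans hsub
  rintro s ⟨-, hs1, hs2⟩
  refine ⟨hs1, ?_⟩
  have e1 : g 0 s = c₀ + ∑ i, c i * f (y + s • v) i := by
    simp [hg, UniformSublevel_L_apply]
  rw [e1]
  refine hs2.trans_le ?_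
  have e2 : x ^ (m + 1) ≤ lam' * (x / lam') ^ (m + 1) := by
    rw [div_pow]
    have h3 : lam' ^ (m + 1) ≤ lam' := by
      have := pow_le_of_le_one hlam'0.le (min_le_right lam 1) (n := m + 1) (by omega)
      simpa using this
    rw [mul_div_assoc', le_div_iff₀ (by positivity)]
    have hx0 : 0 ≤ x ^ (m + 1) := by positivity
    nlinarith
  refine le_trans ?_ e2
  exact pow_le_pow_of_le_one hx.le hx1 (by omega)

/-- Uniform sublevel estimate near a nondegenerate point. -/
theorem uniform_sublevel {d n : ℕ} (f : (Fin d → ℝ) → (Fin n → ℝ)) (ℓ : ℕ) (x₀ : Fin d → ℝ)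
    (hf : NondegAt f ℓ x₀) :
    ∃ r > 0, ∃ K : ℕ, 1 ≤ K ∧ ∃ C > 0, ∀ c : Fin n → ℝ, (∃ i, 1 ≤ |c i|) → ∀ c₀ : ℝ,
      ∀ x : ℝ, 0 < x → x ≤ 1 →
      volume {y | y ∈ Metric.ball x₀ r ∧ |c₀ + ∑ i, c i * f y i| < x ^ K}
        ≤ ENNReal.ofReal (C * x) := by
  -- compactness of the unit sphere
  have hcomp : ∃ r > 0, ∃ C > 0, ∀ c ∈ Metric.sphere (0 : Fin n → ℝ) 1, ∀ c₀ x : ℝ, 0 < x → x ≤ 1 →
      volume {y | y ∈ Metric.ball x₀ r ∧ |c₀ + ∑ i, c i * f y i| < x ^ (ℓ + 1)}
        ≤ ENNReal.ofReal (C * x) := by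
    refine (isCompact_sphere (0 : Fin n → ℝ) 1).induction_on
      (p := fun s => ∃ r > 0, ∃ C > 0, ∀ c ∈ s, ∀ c₀ x : ℝ, 0 < x → x ≤ 1 →
      volume {y | y ∈ Metric.ball x₀ r ∧ |c₀ + ∑ i, c i * f y i| < x ^ (ℓ + 1)}
        ≤ ENNReal.ofReal (C * x)) ?_ ?_ ?_ ?_
    · exact ⟨1, one_pos, 1, one_pos, fun c hc => absurd hc (notMem_empty c)⟩
    · rintro s t hst ⟨r, hr, C, hC, h⟩
      exact ⟨r, hr, C, hC, fun c hc => h c (hst hc)⟩
    · rintro s t ⟨r, hr, C, hC, h⟩ ⟨r', hr', C', hC', h'⟩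
      refine ⟨min r r', lt_min hr hr', max C C', lt_max_of_lt_left hC, ?_⟩
      rintro c (hc | hc) c₀ x hx hx1
      · refine (measure_mono ?_).trans ((h c hc c₀ x hx hx1).trans
          (ENNReal.ofReal_le_ofReal ?_))
        · rintro y ⟨hy, hy'⟩
          exact ⟨Metric.ball_subset_ball (min_le_left _ _) hy, hy'⟩
        · exact mul_le_mul_of_nonneg_right (le_max_left _ _) hx.le
      · refine (measure_mono ?_).trans ((h' c hc c₀ x hx hx1).trans
          (ENNReal.ofReal_le_ofReal ?_))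
        · rintro y ⟨hy, hy'⟩
          exact ⟨Metric.ball_subset_ball (min_le_right _ _) hy, hy'⟩
        · exact mul_le_mul_of_nonneg_right (le_max_right _ _) hx.le
    · intro c hc
      have hc0 : c ≠ 0 := by
        rintro rfl
        simp at hc
      obtain ⟨k, hk1, hkl, v, lam, hlam, U, hU, r, hr, hlow⟩ := UniformSublevel_low hf hc0
      refine ⟨U, mem_nhdsWithin_of_mem_nhds hU, r, hr,
        4 ^ k / min lam 1 * (volume (Metric.ball x₀ (r + ‖v‖))).toReal + 1, ?_, ?_⟩
      · have : 0 < min lam 1 := lt_min hlam one_pos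
        positivity
      · intro c' hc' c₀ x hx hx1
        have h1 := UniformSublevel_local hk1 hkl hlam
          (fun y hy => ⟨(hlow y hy).1, (hlow y hy).2 c' hc'⟩) c₀ x hx hx1
        refine h1.trans ?_
        have hfin : volume (Metric.ball x₀ (r + ‖v‖)) ≠ ⊤ := measure_ball_lt_top.ne
        have hm : 0 < min lam 1 := lt_min hlam one_pos
        nth_rewrite 1 [← ENNReal.ofReal_toReal hfin]
        rw [← ENNReal.ofReal_mul (by positivity)]
        refine ENNReal.ofReal_le_ofReal ?_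
        have : 4 ^ k * (x / min lam 1) * (volume (Metric.ball x₀ (r + ‖v‖))).toReal
          = (4 ^ k / min lam 1 * (volume (Metric.ball x₀ (r + ‖v‖))).toReal) * x := by ring
        rw [this]
        nlinarith
  obtain ⟨r, hr, C, hC, h⟩ := hcomp
  refine ⟨r, hr, ℓ + 1, by omega, C, hC, ?_⟩
  rintro c ⟨i, hi⟩ c₀ x hx hx1
  have hρ : 1 ≤ ‖c‖ := hi.trans (norm_le_pi_norm c i)
  have hρ0 : 0 < ‖c‖ := by linarith
  have hc' : ‖c‖⁻¹ • c ∈ Metric.sphere (0 : Fin n → ℝ) 1 := by
    rw [mem_sphere_zero_iff_norm, norm_smul, norm_inv, norm_norm, inv_mul_cancel₀ hρ0.ne']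
  refine (measure_mono ?_).trans (h _ hc' (‖c‖⁻¹ * c₀) x hx hx1)
  rintro y ⟨hy, hy'⟩
  refine ⟨hy, ?_⟩
  have e1 : ‖c‖⁻¹ * c₀ + ∑ i, (‖c‖⁻¹ • c) i * f y i = ‖c‖⁻¹ * (c₀ + ∑ i, c i * f y i) := by
    rw [mul_add, Finset.mul_sum]
    congr 1
    refine Finset.sum_congr rfl fun i _ => ?_
    simp only [Pi.smul_apply, smul_eq_mul]
    ring
  rw [e1, abs_mul, abs_of_pos (inv_pos.2 hρ0)]
  have h2 : ‖c‖⁻¹ ≤ 1 := inv_le_one_of_one_le₀ hρ
  calc ‖c‖⁻¹ * |c₀ + ∑ i, c i * f y i| ≤ 1 * |c₀ + ∑ i, c i * f y i| := by gcongr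
    _ < x ^ (ℓ + 1) := by rw [one_mul]; exact hy'

/-- Near a nondegenerate point, `∇ f_i ≠ 0` almost everywhere. -/
theorem ae_fderiv_ne {d n : ℕ} (f : (Fin d → ℝ) → (Fin n → ℝ)) (ℓ : ℕ) (x₀ : Fin d → ℝ)
    (hf : NondegAt f ℓ x₀) (i : Fin n) :
    ∃ r > 0, ∀ᵐ y ∂(volume.restrict (Metric.ball x₀ r)),
      ∃ j : Fin d, fderiv ℝ f y (Pi.single j 1) i ≠ 0 := by
  set c : Fin n → ℝ := Pi.single i 1 with hc
  have hc0 : c ≠ 0 := by
    intro h
    have := congrFun h i
    simp [hc] at this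
  obtain ⟨k, hk1, hkl, v, lam, hlam, U, hU, r, hr, hlow⟩ := UniformSublevel_low hf hc0
  have hcU : c ∈ U := mem_of_mem_nhds hU
  refine ⟨r, hr, ?_⟩
  set S : Set (Fin d → ℝ) := {y | y ∈ Metric.ball x₀ r ∧
    UniformSublevel_L c (iteratedFDeriv ℝ 1 f y (fun _ => v)) = 0} with hS
  have hsub : ∀ y, y ∈ Metric.ball x₀ r → ¬ (∃ j : Fin d, fderiv ℝ f y (Pi.single j 1) i ≠ 0) →
      y ∈ S := by
    intro y hy hno
    push Not at hno
    refine ⟨hy, ?_⟩
    rw [iteratedFDeriv_one_apply, UniformSublevel_L_apply]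
    have h1 : (fderiv ℝ f y v) i = 0 := by
      have hv : v = ∑ j, v j • (Pi.single j (1:ℝ) : Fin d → ℝ) := by
        ext l
        simp [Finset.sum_apply, Pi.single_apply]
      rw [hv, map_sum, Finset.sum_apply]
      refine Finset.sum_eq_zero fun j _ => ?_
      rw [map_smul, Pi.smul_apply, hno j, smul_zero]
    simp [hc, Pi.single_apply, h1]
  have hSnull : volume S = 0 := by
    have hcont : ContinuousOn (fun y => UniformSublevel_L c (iteratedFDeriv ℝ 1 f y (fun _ => v)))
        (Metric.ball x₀ r) := by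
      intro y hy
      have h1 : ContinuousAt (iteratedFDeriv ℝ 1 f) y :=
        (hlow y hy).1.continuousAt_iteratedFDeriv (by exact_mod_cast hk1.trans hkl)
      have h2 : ContinuousAt (fun y => iteratedFDeriv ℝ 1 f y (fun _ => v)) y :=
        ((ContinuousMultilinearMap.apply ℝ (fun _ : Fin 1 => Fin d → ℝ) (Fin n → ℝ)
          (fun _ => v)).continuous.continuousAt).comp h1
      exact ((UniformSublevel_L c).continuous.continuousAt.comp h2).continuousWithinAt
    have hmeas : MeasurableSet S := by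
      have : S = Metric.ball x₀ r \ (Metric.ball x₀ r ∩
          (fun y => UniformSublevel_L c (iteratedFDeriv ℝ 1 f y (fun _ => v))) ⁻¹' {0}ᶜ) := by
        ext y
        simp only [hS, mem_ofPred_eq, Set.mem_sdiff, mem_inter_iff, mem_preimage, mem_compl_iff,
          mem_singleton_iff]
        tauto
      rw [this]
      exact Metric.isOpen_ball.measurableSet.diff
        (hcont.isOpen_inter_preimage Metric.isOpen_ball isOpen_compl_singleton).measurableSet
    rcases Nat.lt_or_ge 1 k with hk | hk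
    · -- k ≥ 2
      obtain ⟨m, rfl⟩ : ∃ m, k = m + 2 := ⟨k - 2, by omega⟩
      have hb : ∀ x : ℝ, 0 < x →
          volume S ≤ ENNReal.ofReal (4 ^ (m + 1) * x) * volume (Metric.ball x₀ (r + ‖v‖)) := by
        intro x hx
        refine UniformSublevel_fubini hmeas (fun y hy => hy.1) ?_
        intro y
        set I : Set ℝ := {s : ℝ | y + s • v ∈ Metric.ball x₀ r} with hI
        set g : ℕ → ℝ → ℝ := fun i s => 0 +
          UniformSublevel_L c (iteratedFDeriv ℝ (i + 1) f (y + s • v) (fun _ => v)) with hg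
        have hsub := sublevel1 m I (UniformSublevel_ordConnected x₀ y v r) g
          (fun i hi s hs => by
            have := UniformSublevel_hasDerivAt (hlow _ hs).1 c (i := i + 1) (by omega) 0
            simpa [hg] using this) lam hlam
          (fun s hs => by
            have := (hlow _ hs).2 c hcU
            simpa [hg] using this) x hx
        refine (measure_mono ?_).trans hsub
        rintro s ⟨-, hs1, hs2⟩
        refine ⟨hs1, ?_⟩
        have : g 0 s = 0 := by
          simp only [hg, zero_add]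
          exact hs2
        rw [this, abs_zero]
        positivity
      have hfin : volume (Metric.ball x₀ (r + ‖v‖)) ≠ ⊤ := measure_ball_lt_top.ne
      have hlim : Tendsto (fun x : ℝ => ENNReal.ofReal (4 ^ (m + 1) * x) *
          volume (Metric.ball x₀ (r + ‖v‖))) (𝓝[>] 0) (𝓝 0) := by
        have h1 : Tendsto (fun x : ℝ => ENNReal.ofReal (4 ^ (m + 1) * x)) (𝓝[>] 0) (𝓝 0) := by
          have h2 : Tendsto (fun x : ℝ => (4:ℝ) ^ (m + 1) * x) (𝓝[>] 0) (𝓝 0) := by
            have : Continuous (fun x : ℝ => (4:ℝ) ^ (m + 1) * x) := by fun_prop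
            have h3 := this.tendsto 0
            rw [mul_zero] at h3
            exact h3.mono_left nhdsWithin_le_nhds
          have h4 := (ENNReal.continuous_ofReal.tendsto 0).comp h2
          rw [ENNReal.ofReal_zero] at h4
          exact h4
        have h5 := ENNReal.Tendsto.mul_const (b := volume (Metric.ball x₀ (r + ‖v‖))) h1
          (Or.inr hfin)
        rwa [zero_mul] at h5
      have h6 : ∀ᶠ x : ℝ in 𝓝[>] 0, volume S ≤ ENNReal.ofReal (4 ^ (m + 1) * x) *
          volume (Metric.ball x₀ (r + ‖v‖)) := by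
        filter_upwards [self_mem_nhdsWithin] with x hx using hb x hx
      exact le_antisymm (ge_of_tendsto hlim h6) bot_le
    · -- k = 1
      have hk' : k = 1 := le_antisymm hk hk1
      subst hk'
      have : S = ∅ := by
        ext y
        simp only [mem_empty_iff_false, iff_false]
        rintro ⟨hy, hy'⟩
        have := (hlow y hy).2 c hcU
        rw [hy', abs_zero] at this
        linarith
      rw [this]; simp
  rw [ae_restrict_iff' Metric.isOpen_ball.measurableSet, ae_iff]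
  refine measure_mono_null ?_ hSnull
  intro y hy
  simp only [mem_ofPred_eq, Classical.not_imp] at hy
  exact hsub y hy.1 hy.2

end MKG
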