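import Pool.Agent.MKG.Core
import Pool.Agent.MKG.Local
import Pool.Agent.MKG.Kh1
import Pool.Agent.MKG.Submersion
import Pool.Agent.MKG.UniformSublevel

/-! # Final assembly -/

open MeasureTheory Set Filter
open scoped BigOperators ENNReal Topology

namespace MKG

/-- Local-to-global principle for almost everywhere statements. -/
theorem Final_ae_of_local {d : ℕ} {V : Set (Fin d → ℝ)} (hV : MeasurableSet V)
    {P : (Fin d → ℝ) → Prop}
    (h : ∀ᵐ x ∂(volume.restrict V), ∃ r > 0, ∀ᵐ y ∂(volume.restrict (Metric.ball x r)), P y) :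
    ∀ᵐ x ∂(volume.restrict V), P x := by
  rw [ae_restrict_iff' hV] at h ⊢
  set s : Set (Fin d → ℝ) := {x | (∃ r > 0, ∀ᵐ y ∂(volume.restrict (Metric.ball x r)), P y) ∧ ¬ P x}
    with hs
  have h0 : volume s = 0 := by
    refine measure_null_of_locally_null s ?_
    rintro x ⟨⟨r, hr, hx⟩, -⟩
    refine ⟨s ∩ Metric.ball x r, inter_mem_nhdsWithin s (Metric.ball_mem_nhds x hr), ?_⟩
    rw [ae_restrict_iff' measurableSet_ball] at hx
    refine measure_mono_null ?_ hx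
    rintro y ⟨⟨-, hy⟩, hyb⟩
    simp only [mem_compl_iff, mem_ofPred_eq, Classical.not_imp]
    exact ⟨hyb, hy⟩
  have h1 : ∀ᵐ x : Fin d → ℝ, x ∉ s := measure_eq_zero_iff_ae_notMem.1 h0
  filter_upwards [h, h1] with x hx hxs hxV
  by_contra hP
  exact hxs ⟨hx hxV, hP⟩

/-- `C^k` on a ball gives `C^k` at every point of the ball. -/
theorem Final_contDiffAt {d n k ℓ : ℕ} {f : (Fin d → ℝ) → (Fin n → ℝ)} {x₀ y : Fin d → ℝ} {r : ℝ}
    (hf : ContDiffOn ℝ ℓ f (Metric.ball x₀ r)) (hy : y ∈ Metric.ball x₀ r) (hk : k ≤ ℓ) :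
    ContDiffAt ℝ k f y :=
  (hf.contDiffAt (Metric.isOpen_ball.mem_nhds hy)).of_le (by exact_mod_cast hk)

/-- The case `n ≥ 2`, `ℓ ≥ 2`, `ψ` decreasing. -/
theorem Final_ge_two (hcore : ∀ m d : ℕ, CoreAt m d) {d m : ℕ}
    (f : (Fin (d + 1) → ℝ) → (Fin (m + 2) → ℝ)) (ℓ : ℕ) (hℓ : 2 ≤ ℓ) (x₀ : Fin (d + 1) → ℝ)
    (hf : NondegAt f ℓ x₀) (ψ : ℝ → ℝ)
    (hpos : ∀ h, 0 < h → 0 < ψ h) (hanti : AntitoneOn ψ (Ioi 0))
    (hdiv : ¬ Summable (fun h : ℕ => (Real.log (h + 1)) ^ (m + 1) * ψ (h + 1))) :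
    ∃ r > 0, ∀ᵐ y ∂(volume.restrict (Metric.ball x₀ r)), Good f ψ y := by
  obtain ⟨r₀, hr₀, hC⟩ := hf.1
  obtain ⟨r₁, hr₁, K, hK, C, hC0, hus⟩ := uniform_sublevel f ℓ x₀ hf
  obtain ⟨r₂, hr₂, hne⟩ := ae_fderiv_ne f ℓ x₀ hf 0
  refine ⟨min r₀ (min r₁ r₂), lt_min hr₀ (lt_min hr₁ hr₂), ?_⟩
  refine Final_ae_of_local measurableSet_ball ?_
  rw [ae_restrict_iff' measurableSet_ball] at hne ⊢
  filter_upwards [hne] with y hy hyb
  have hy0 : y ∈ Metric.ball x₀ r₀ := Metric.ball_subset_ball (min_le_left _ _) hyb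
  have hy1 : y ∈ Metric.ball x₀ r₁ :=
    Metric.ball_subset_ball ((min_le_right _ _).trans (min_le_left _ _)) hyb
  have hy2 : y ∈ Metric.ball x₀ r₂ :=
    Metric.ball_subset_ball ((min_le_right _ _).trans (min_le_right _ _)) hyb
  obtain ⟨j, hj⟩ := hy hy2
  obtain ⟨ρ, hρ, hball⟩ := Metric.isOpen_iff.1 Metric.isOpen_ball y hy1
  refine local_good (hcore m d) f y 0 j (Final_contDiffAt hC hy0 hℓ) hj ρ hρ K hK C hC0 ?_ ψ
    hpos hanti hdiv
  intro c hc c₀ x hx hx1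
  refine (measure_mono ?_).trans (hus c hc c₀ x hx hx1)
  rintro z ⟨hz, hz'⟩
  exact ⟨hball hz, hz'⟩

theorem Final_iteratedFDeriv_one {d n : ℕ} (f : (Fin d → ℝ) → (Fin n → ℝ)) (x : Fin d → ℝ)
    (c : Fin 1 → Fin d) :
    iteratedFDeriv ℝ 1 f x (fun i => Pi.single (c i) 1) = fderiv ℝ f x (Pi.single (c 0) 1) := by
  simp [iteratedFDeriv_one_apply]

/-- The identity is nondegenerate. -/
theorem Final_nondeg_id {n : ℕ} (x : Fin n → ℝ) : NondegAt (fun z : Fin n → ℝ => z) 2 x := by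
  refine ⟨⟨1, one_pos, contDiff_id.contDiffOn⟩, ?_⟩
  rw [eq_top_iff]
  intro w _
  have hw : w = ∑ j, w j • (Pi.single j (1 : ℝ) : Fin n → ℝ) := by
    ext i
    simp [Finset.sum_apply, Pi.single_apply]
  rw [hw]
  refine Submodule.sum_mem _ fun j _ => Submodule.smul_mem _ _ (Submodule.subset_span ?_)
  refine ⟨1, le_rfl, by norm_num, fun _ => j, ?_⟩
  rw [Final_iteratedFDeriv_one]
  have : fderiv ℝ (fun z : Fin n → ℝ => z) x = ContinuousLinearMap.id ℝ _ := fderiv_fun_id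
  rw [this]
  rfl

/-- Lebesgue almost every point of `ℝⁿ`, `n ≥ 2`, is good. -/
theorem Final_ae_id (hcore : ∀ m d : ℕ, CoreAt m d) {m : ℕ} (ψ : ℝ → ℝ)
    (hpos : ∀ h, 0 < h → 0 < ψ h) (hanti : AntitoneOn ψ (Ioi 0))
    (hdiv : ¬ Summable (fun h : ℕ => (Real.log (h + 1)) ^ (m + 1) * ψ (h + 1))) :
    volume {z : Fin (m + 2) → ℝ | ¬ Good (fun z => z) ψ z} = 0 := by
  have h : ∀ᵐ x ∂(volume.restrict (univ : Set (Fin (m + 2) → ℝ))),
      ∃ r > 0, ∀ᵐ y ∂(volume.restrict (Metric.ball x r)),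
        Good (fun z : Fin (m + 2) → ℝ => z) ψ y := by
    refine Eventually.of_forall fun x => ?_
    exact Final_ge_two hcore (d := m + 1) (fun z => z) 2 le_rfl x (Final_nondeg_id x) ψ hpos hanti
      hdiv
  have h2 := Final_ae_of_local MeasurableSet.univ h
  rw [Measure.restrict_univ] at h2
  exact h2

/-- The one-dimensional case. -/
theorem Final_ae_one (ψ : ℝ → ℝ)
    (hpos : ∀ h, 0 < h → 0 < ψ h) (hanti : AntitoneOn ψ (Ioi 0))
    (hdiv : ¬ Summable (fun h : ℕ => ψ (h + 1))) :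
    volume {z : Fin 1 → ℝ | ¬ Good (fun z => z) ψ z} = 0 := by
  have h := khintchine1 ψ hpos hanti hdiv
  have h2 : ∀ᵐ z : Fin 1 → ℝ, ∀ i₀ : ℕ, ∃ p r : ℤ, (i₀ : ℤ) ≤ r ∧ 1 ≤ r ∧
      |(p : ℝ) + r * z 0| < ψ r := by
    have hmp : MeasurePreserving (fun z : Fin 1 → ℝ => z 0) volume volume :=
      volume_preserving_funUnique (Fin 1) ℝ
    exact hmp.quasiMeasurePreserving.ae h
  have h3 : ∀ᵐ z : Fin 1 → ℝ, Good (fun z => z) ψ z := by
    filter_upwards [h2] with z hz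
    intro hfin
    -- the set of `r` is bounded
    have hb : ((fun v : ℤ × (Fin 1 → ℤ) => v.2 0) '' {v : ℤ × (Fin 1 → ℤ) |
        |(v.1 : ℝ) + ∑ i, (v.2 i : ℝ) * z i| < ψ (PiPlus v.2)}).Finite := hfin.image _
    obtain ⟨M, hM⟩ := hb.bddAbove
    obtain ⟨p, r, hr, hr1, hlt⟩ := hz (M.toNat + 1)
    have hmem : r ∈ (fun v : ℤ × (Fin 1 → ℤ) => v.2 0) '' {v : ℤ × (Fin 1 → ℤ) |
        |(v.1 : ℝ) + ∑ i, (v.2 i : ℝ) * z i| < ψ (PiPlus v.2)} := by
      refine ⟨(p, fun _ => r), ?_, rfl⟩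
      have hP : PiPlus (fun _ : Fin 1 => r) = r := by
        have hr0 : r ≠ 0 := by omega
        have : (0 : ℝ) ≤ r := by exact_mod_cast (by omega : (0 : ℤ) ≤ r)
        simp [PiPlus, hr0, abs_of_nonneg this]
      simp only [mem_ofPred_eq, hP]
      simpa using hlt
    have := hM hmem
    have h4 : M ≤ M.toNat := Int.self_le_toNat M
    push_cast at hr
    omega
  exact h3

theorem Final_surj_of_span {d n : ℕ} {f : (Fin d → ℝ) → (Fin n → ℝ)} {x : Fin d → ℝ}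
    (h : NondegAt f 1 x) : Function.Surjective (fderiv ℝ f x) := by
  have h2 := h.2
  have h3 : (⊤ : Submodule ℝ (Fin n → ℝ)) ≤ LinearMap.range (fderiv ℝ f x).toLinearMap := by
    rw [← h2, Submodule.span_le]
    rintro w ⟨k, hk1, hk2, c, rfl⟩
    obtain rfl : k = 1 := by omega
    rw [Final_iteratedFDeriv_one]
    exact ⟨_, rfl⟩
  intro w
  obtain ⟨v, hv⟩ := h3 (Submodule.mem_top : w ∈ _)
  exact ⟨v, hv⟩

/-- Pull back of the good set under a submersion. -/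
theorem Final_submersion {d n : ℕ} {f : (Fin d → ℝ) → (Fin n → ℝ)} {x : Fin d → ℝ}
    (hf : ContDiffAt ℝ 1 f x) (hs : Function.Surjective (fderiv ℝ f x)) {ψ : ℝ → ℝ}
    (h : volume {z : Fin n → ℝ | ¬ Good (fun z => z) ψ z} = 0) :
    ∃ r > 0, ∀ᵐ y ∂(volume.restrict (Metric.ball x r)), Good f ψ y := by
  obtain ⟨r, hr, hr2⟩ := null_preimage_submersion f x hf hs _ h
  refine ⟨r, hr, ?_⟩
  rw [ae_restrict_iff' measurableSet_ball]
  refine measure_mono_null ?_ hr2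
  intro y hy
  simp only [mem_compl_iff, mem_ofPred_eq, Classical.not_imp] at hy
  exact ⟨hy.1, hy.2⟩

/-- The decreasing case. -/
theorem Final_anti (hcore : ∀ m d : ℕ, CoreAt m d) (d n : ℕ) (hd : 1 ≤ d) (hn : 1 ≤ n)
    (f : (Fin d → ℝ) → (Fin n → ℝ)) (ℓ : ℕ) (x₀ : Fin d → ℝ) (hf : NondegAt f ℓ x₀)
    (ψ : ℝ → ℝ) (hpos : ∀ h, 0 < h → 0 < ψ h) (hanti : AntitoneOn ψ (Ioi 0))
    (hdiv : ¬ Summable (fun h : ℕ => (Real.log (h + 1)) ^ (n - 1) * ψ (h + 1))) :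
    ∃ r > 0, ∀ᵐ y ∂(volume.restrict (Metric.ball x₀ r)), Good f ψ y := by
  obtain ⟨d, rfl⟩ : ∃ d', d = d' + 1 := ⟨d - 1, by omega⟩
  -- ℓ ≠ 0
  have hℓ : 1 ≤ ℓ := by
    by_contra h0
    have h2 := hf.2
    have he : {w : Fin n → ℝ | ∃ k : ℕ, 1 ≤ k ∧ k ≤ ℓ ∧ ∃ c : Fin k → Fin (d + 1),
        w = iteratedFDeriv ℝ k f x₀ (fun i => Pi.single (c i) 1)} = ∅ := by
      ext w
      simp only [mem_ofPred_eq, mem_empty_iff_false, iff_false]
      rintro ⟨k, hk1, hk2, -⟩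
      omega
    rw [he, Submodule.span_empty] at h2
    have : Nontrivial (Fin n → ℝ) := by
      have : Nonempty (Fin n) := ⟨⟨0, by omega⟩⟩
      infer_instance
    exact bot_ne_top h2
  obtain ⟨r₀, hr₀, hC⟩ := hf.1
  rcases Nat.lt_or_ge n 2 with h1 | h2
  · obtain rfl : n = 1 := by omega
    obtain ⟨r₂, hr₂, hne⟩ := ae_fderiv_ne f ℓ x₀ hf 0
    have hN := Final_ae_one ψ hpos hanti (by simpa using hdiv)
    refine ⟨min r₀ r₂, lt_min hr₀ hr₂, ?_⟩
    refine Final_ae_of_local measurableSet_ball ?_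
    rw [ae_restrict_iff' measurableSet_ball] at hne ⊢
    filter_upwards [hne] with y hy hyb
    have hy0 : y ∈ Metric.ball x₀ r₀ := Metric.ball_subset_ball (min_le_left _ _) hyb
    have hy2 : y ∈ Metric.ball x₀ r₂ := Metric.ball_subset_ball (min_le_right _ _) hyb
    obtain ⟨j, hj⟩ := hy hy2
    have hCA : ContDiffAt ℝ (1 : ℕ) f y := Final_contDiffAt (k := 1) hC hy0 hℓ
    refine Final_submersion (by exact_mod_cast hCA) ?_ hN
    intro w
    refine ⟨(w 0 / fderiv ℝ f y (Pi.single j 1) 0) • Pi.single j 1, ?_⟩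
    ext i
    fin_cases i
    rw [map_smul]
    simp only [Pi.smul_apply, smul_eq_mul, Fin.zero_eta, Fin.isValue]
    field_simp
  · obtain ⟨m, rfl⟩ : ∃ m, n = m + 2 := ⟨n - 2, by omega⟩
    rcases Nat.lt_or_ge ℓ 2 with h3 | h3
    · obtain rfl : ℓ = 1 := by omega
      have hCA : ContDiffAt ℝ (1 : ℕ) f x₀ :=
        Final_contDiffAt (k := 1) hC (Metric.mem_ball_self hr₀) le_rfl
      exact Final_submersion (by exact_mod_cast hCA) (Final_surj_of_span hf)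
        (Final_ae_id hcore ψ hpos hanti hdiv)
    · exact Final_ge_two hcore f ℓ h3 x₀ hf ψ hpos hanti hdiv

theorem Final_one_le_PiPlus {n : ℕ} (q : Fin n → ℤ) : 1 ≤ PiPlus q := by
  unfold PiPlus
  have : ∀ s : Finset (Fin n), 1 ≤ ∏ i ∈ s, (if q i = 0 then 1 else |(q i : ℝ)|) := by
    intro s
    induction s using Finset.induction_on with
    | empty => simp
    | insert a s ha ih =>
      rw [Finset.prod_insert ha]
      refine one_le_mul_of_one_le_of_one_le ?_ ih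
      split_ifs with h
      · exact le_rfl
      · have : (1 : ℤ) ≤ |q a| := Int.one_le_abs h
        exact_mod_cast this
  exact this Finset.univ

/-- **Divergence part of the multiplicative Khintchine–Groshev theorem for nondegenerate maps**,
from the core estimate. -/
theorem final_of_core (hcore : ∀ m d : ℕ, CoreAt m d) (d n : ℕ) (hd : 1 ≤ d) (hn : 1 ≤ n)
    (U : Set (Fin d → ℝ)) (hU : IsOpen U) (f : (Fin d → ℝ) → (Fin n → ℝ))
    (hf : ∀ᵐ x ∂(volume.restrict U), ∃ ℓ : ℕ, NondegAt f ℓ x)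
    (ψ : ℝ → ℝ) (hpos : ∀ h, 0 < h → 0 < ψ h)
    (hmono : MonotoneOn ψ (Ioi 0) ∨ AntitoneOn ψ (Ioi 0))
    (hdiv : ¬ Summable (fun h : ℕ => (Real.log (h + 1)) ^ (n - 1) * ψ (h + 1))) :
    ∀ᵐ x ∂(volume.restrict U), Good f ψ x := by
  refine Final_ae_of_local hU.measurableSet ?_
  rcases hmono with hm | ha
  · -- increasing: replace `ψ` by the constant `ψ 1`
    have hpos1 : 0 < ψ 1 := hpos 1 one_pos
    have hdiv1 : ¬ Summable (fun h : ℕ => (Real.log (h + 1)) ^ (n - 1) * (fun _ : ℝ => ψ 1) (h + 1)) := by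
      intro hs
      have ht := hs.tendsto_atTop_zero
      have hev : ∀ᶠ h : ℕ in atTop, (Real.log (h + 1)) ^ (n - 1) * ψ 1 < ψ 1 :=
        ht.eventually (gt_mem_nhds hpos1)
      obtain ⟨h, hh, hh2⟩ := (hev.and (eventually_ge_atTop 2)).exists
      have hlog : 1 ≤ Real.log ((h : ℝ) + 1) := by
        rw [Real.le_log_iff_exp_le (by positivity)]
        have h3 : (2 : ℝ) ≤ h := by exact_mod_cast hh2
        have := Real.exp_one_lt_d9
        linarith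
      have h4 : 1 ≤ (Real.log ((h : ℝ) + 1)) ^ (n - 1) := one_le_pow₀ hlog
      nlinarith
    filter_upwards [hf] with x hx
    obtain ⟨ℓ, hℓ⟩ := hx
    obtain ⟨r, hr, hg⟩ := Final_anti hcore d n hd hn f ℓ x hℓ (fun _ => ψ 1) (fun _ _ => hpos1)
      (fun _ _ _ _ _ => le_rfl) hdiv1
    refine ⟨r, hr, ?_⟩
    filter_upwards [hg] with y hy
    refine Infinite.mono ?_ hy
    intro v hv
    simp only [mem_ofPred_eq] at hv ⊢
    exact hv.trans_le (hm (mem_Ioi.2 one_pos)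
      (mem_Ioi.2 (one_pos.trans_le (Final_one_le_PiPlus v.2))) (Final_one_le_PiPlus v.2))
  · filter_upwards [hf] with x hx
    obtain ⟨ℓ, hℓ⟩ := hx
    exact Final_anti hcore d n hd hn f ℓ x hℓ ψ hpos ha hdiv

/-- **Divergence part of the multiplicative Khintchine–Groshev theorem for nondegenerate maps.** -/
theorem final (d n : ℕ) (hd : 1 ≤ d) (hn : 1 ≤ n)
    (U : Set (Fin d → ℝ)) (hU : IsOpen U) (f : (Fin d → ℝ) → (Fin n → ℝ))
    (hf : ∀ᵐ x ∂(volume.restrict U), ∃ ℓ : ℕ, NondegAt f ℓ x)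
    (ψ : ℝ → ℝ) (hpos : ∀ h, 0 < h → 0 < ψ h)
    (hmono : MonotoneOn ψ (Ioi 0) ∨ AntitoneOn ψ (Ioi 0))
    (hdiv : ¬ Summable (fun h : ℕ => (Real.log (h + 1)) ^ (n - 1) * ψ (h + 1))) :
    ∀ᵐ x ∂(volume.restrict U), Good f ψ x :=
  final_of_core (fun _ _ _ _ D ψ h1 h2 h3 i₀ => core D ψ h1 h2 h3 i₀) d n hd hn U hU f hf ψ hpos
    hmono hdiv

end MKG
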