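import Pool.Agent.MKG.Tr

/-! Module MKG/Ops. Left translations, coordinates and inclusions.

`lt x f (y, i) = f (x⁻¹ y, i)`, `pr k f (x, i) = f (x, k)` (i : Fin 1), `inc j f (x, i) = f (x, 0)` if
`i = j` and 0 otherwise. Construct the continuous linear maps with norm bounds 1
(`LinearMap.mkContinuous`; the norm of a function composed with an injective map is at most the norm of
the function; `lp.norm_sq_eq_tsum`-like lemmas: `lp.norm_rpow_eq_tsum` or via the inner product
`lp.inner_eq_tsum`, `real_inner_self_eq_norm_sq`).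
`lt_fixed`: if g has infinite order and f (g⁻¹ y, i) = f (y, i) for all y, then f is constant on the infinite
set {g^r y}, so f (y, i) = 0 by square summability (e.g. `Summable` restricted to the injective family
r ↦ (g^r y, i) of a nonzero constant is impossible: `summable_const_iff`).
-/

namespace Pool.Agent.MKG

open scoped InnerProductSpace

variable {K : Type} [Group K] {m n : ℕ}

private theorem mem16 {α : Type} {f : α → ℝ} (h : Summable fun a => ‖f a‖ ^ 2) :
    Memℓp f 2 := by
  rw [memℓp_gen_iff (by norm_num)]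
  simpa using h

private theorem sum16 {α : Type} (f : lp (fun _ : α => ℝ) 2) :
    Summable fun a => ‖(f : α → ℝ) a‖ ^ 2 := by
  have h := lp.summable_inner (𝕜 := ℝ) f f
  refine h.congr fun a => ?_
  exact real_inner_self_eq_norm_sq _

private theorem norm16 {α : Type} (f : lp (fun _ : α => ℝ) 2) :
    ‖f‖ ^ 2 = ∑' a, ‖(f : α → ℝ) a‖ ^ 2 := by
  rw [← real_inner_self_eq_norm_sq, lp.inner_eq_tsum]
  exact tsum_congr fun a => real_inner_self_eq_norm_sq _

private theorem comp16 {α β : Type} (e : α → β) (he : Function.Injective e) :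
    ∃ L : lp (fun _ : β => ℝ) 2 →L[ℝ] lp (fun _ : α => ℝ) 2,
      ∀ f a, (L f : α → ℝ) a = (f : β → ℝ) (e a) := by
  refine ⟨LinearMap.mkContinuous
    { toFun := fun f => ⟨fun a => (f : β → ℝ) (e a), mem16 ((sum16 f).comp_injective he)⟩
      map_add' := fun f g => rfl
      map_smul' := fun c f => rfl } 1 (fun f => ?_), fun f a => rfl⟩
  rw [one_mul]
  refine le_of_sq_le_sq ?_ (norm_nonneg _)
  rw [norm16, norm16]
  exact tsum_comp_le_tsum_of_inj (sum16 f) (fun _ => by positivity) he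

private theorem ext16 {α β : Type} (e : α → β) (he : Function.Injective e) :
    ∃ L : lp (fun _ : α => ℝ) 2 →L[ℝ] lp (fun _ : β => ℝ) 2,
      (∀ f a, (L f : β → ℝ) (e a) = (f : α → ℝ) a) ∧
      (∀ f b, b ∉ Set.range e → (L f : β → ℝ) b = 0) := by
  classical
  have hx : ∀ (f : α → ℝ) (a : α), Function.extend e f (0 : β → ℝ) (e a) = f a :=
    fun f a => he.extend_apply f 0 a
  have hx' : ∀ (f : α → ℝ) (b : β), b ∉ Set.range e → Function.extend e f (0 : β → ℝ) b = 0 :=
    fun f b hb => Function.extend_apply' f (0 : β → ℝ) b (fun h => hb h)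
  have hs : ∀ f : lp (fun _ : α => ℝ) 2,
      Summable fun b => ‖Function.extend e (f : α → ℝ) (0 : β → ℝ) b‖ ^ 2 := by
    intro f
    rw [← he.summable_iff (fun b hb => by rw [hx' _ b hb]; simp)]
    refine (sum16 f).congr fun a => ?_
    rw [Function.comp_apply, hx]
  refine ⟨LinearMap.mkContinuous
    { toFun := fun f => ⟨Function.extend e (f : α → ℝ) (0 : β → ℝ), mem16 (hs f)⟩
      map_add' := fun f g => ?_
      map_smul' := fun c f => ?_ } 1 (fun f => ?_), fun f a => hx _ a, fun f b hb => hx' _ b hb⟩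
  · refine Subtype.ext (funext fun b => ?_)
    change Function.extend e ((f : α → ℝ) + (g : α → ℝ)) 0 b =
      Function.extend e (f : α → ℝ) 0 b + Function.extend e (g : α → ℝ) 0 b
    by_cases hb : b ∈ Set.range e
    · obtain ⟨a, rfl⟩ := hb
      rw [hx, hx, hx]
      rfl
    · rw [hx' _ b hb, hx' _ b hb, hx' _ b hb, add_zero]
  · refine Subtype.ext (funext fun b => ?_)
    change Function.extend e (c • (f : α → ℝ)) 0 b = c • Function.extend e (f : α → ℝ) 0 b
    by_cases hb : b ∈ Set.range e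
    · obtain ⟨a, rfl⟩ := hb
      rw [hx, hx]
      rfl
    · rw [hx' _ b hb, hx' _ b hb, smul_zero]
  · rw [one_mul]
    refine le_of_sq_le_sq ?_ (norm_nonneg _)
    rw [norm16, norm16]
    refine le_of_eq ?_
    have h2 := he.tsum_eq (f := fun b => ‖Function.extend e (f : α → ℝ) 0 b‖ ^ 2) (by
      intro b hb
      by_contra hcon
      apply hb
      change ‖Function.extend e (f : α → ℝ) 0 b‖ ^ 2 = 0
      rw [hx' _ b hcon]
      simp)
    refine Eq.trans h2.symm ?_
    exact tsum_congr fun a => by rw [hx]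

theorem exists_lt (x : K) : ∃ L : H K m →L[ℝ] H K m, ∀ f y i, L f (y, i) = f (x⁻¹ * y, i) := by
  obtain ⟨L, hL⟩ := comp16 (α := K × Fin m) (β := K × Fin m) (fun p => (x⁻¹ * p.1, p.2)) (by
    rintro ⟨a, i⟩ ⟨b, j⟩ h
    rw [Prod.mk.injEq] at h
    exact Prod.ext (mul_left_cancel h.1) h.2)
  exact ⟨L, fun f y i => hL f (y, i)⟩

/-- Left translation. -/
noncomputable def lt (x : K) : H K m →L[ℝ] H K m := (exists_lt x).choose

theorem lt_apply (x : K) (f : H K m) (y : K) (i : Fin m) : lt x f (y, i) = f (x⁻¹ * y, i) :=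
  (exists_lt x).choose_spec f y i

private theorem ext2_16 {f g : H K m} (h : ∀ x i, f (x, i) = g (x, i)) : f = g :=
  Subtype.ext (funext fun p => h p.1 p.2)

theorem lt_one : (lt 1 : H K m →L[ℝ] H K m) = ContinuousLinearMap.id ℝ _ := by
  refine ContinuousLinearMap.ext fun f => ext2_16 fun x i => ?_
  rw [lt_apply, inv_one, one_mul]
  rfl

theorem lt_mul (x y : K) : (lt (x * y) : H K m →L[ℝ] H K m) = (lt x).comp (lt y) := by
  refine ContinuousLinearMap.ext fun f => ext2_16 fun z i => ?_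
  rw [lt_apply, ContinuousLinearMap.comp_apply, lt_apply, lt_apply, mul_inv_rev, mul_assoc]

theorem lt_eqv (x : K) : Eqv (lt x : H K m →L[ℝ] H K m) := by
  intro h f
  refine ext2_16 fun z i => ?_
  rw [lt_apply, rt_apply, rt_apply, lt_apply, mul_assoc]

theorem lt_fixed {g : K} (hg : ∀ r : ℕ, 0 < r → g ^ r ≠ 1) {f : H K m} (h : lt g f = f) :
    f = 0 := by
  have h1 : ∀ y i, f (g⁻¹ * y, i) = f (y, i) := by
    intro y i
    rw [← lt_apply, h]
  have h2 : ∀ (r : ℕ) y i, f (g⁻¹ ^ r * y, i) = f (y, i) := by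
    intro r
    induction r with
    | zero => intro y i; rw [pow_zero, one_mul]
    | succ r ih => intro y i; rw [pow_succ, mul_assoc, ih, h1]
  have hinj : Function.Injective fun r : ℕ => g⁻¹ ^ r := by
    have h3 : ¬ IsOfFinOrder g := by
      rw [isOfFinOrder_iff_pow_eq_one]
      rintro ⟨n, hn, hn'⟩
      exact hg n hn hn'
    have h4 : ¬ IsOfFinOrder g⁻¹ := by rwa [isOfFinOrder_inv_iff]
    exact injective_pow_iff_not_isOfFinOrder.2 h4
  refine ext2_16 fun y i => ?_
  have h5 := (sum16 f).comp_injective (i := fun r : ℕ => (g⁻¹ ^ r * y, i)) (by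
    intro a b hab
    rw [Prod.mk.injEq] at hab
    exact hinj (mul_right_cancel hab.1))
  have h6 : (fun a => ‖(f : K × Fin m → ℝ) a‖ ^ 2) ∘ (fun r : ℕ => (g⁻¹ ^ r * y, i)) =
      fun _ => ‖(f : K × Fin m → ℝ) (y, i)‖ ^ 2 := by
    funext r
    rw [Function.comp_apply, h2]
  rw [h6, summable_const_iff] at h5
  have h7 : ‖(f : K × Fin m → ℝ) (y, i)‖ = 0 := by
    exact pow_eq_zero_iff (two_ne_zero) |>.1 h5
  exact norm_eq_zero.1 h7

theorem exists_pr (k : Fin m) : ∃ L : H K m →L[ℝ] H K 1, ∀ f x i, L f (x, i) = f (x, k) := by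
  obtain ⟨L, hL⟩ := comp16 (α := K × Fin 1) (β := K × Fin m) (fun p => (p.1, k)) (by
    rintro ⟨a, i⟩ ⟨b, j⟩ h
    rw [Prod.mk.injEq] at h
    exact Prod.ext h.1 (Subsingleton.elim _ _))
  exact ⟨L, fun f y i => hL f (y, i)⟩

/-- The `k`-th coordinate. -/
noncomputable def pr (k : Fin m) : H K m →L[ℝ] H K 1 := (exists_pr k).choose

theorem pr_apply (k : Fin m) (f : H K m) (x : K) (i : Fin 1) : pr k f (x, i) = f (x, k) :=
  (exists_pr k).choose_spec f x i

theorem pr_eqv (k : Fin m) : Eqv (pr k : H K m →L[ℝ] H K 1) := by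
  intro h f
  refine ext2_16 fun z i => ?_
  rw [pr_apply, rt_apply, rt_apply, pr_apply]

theorem pr_zero {f : H K m} (h : ∀ k, pr k f = 0) : f = 0 := by
  refine ext2_16 fun x k => ?_
  rw [← pr_apply k f x 0, h k]
  rfl

theorem exists_inc (j : Fin n) :
    ∃ L : H K 1 →L[ℝ] H K n, ∀ f x i, L f (x, i) = if i = j then f (x, 0) else 0 := by
  obtain ⟨L, hL, hL'⟩ := ext16 (α := K × Fin 1) (β := K × Fin n) (fun p => (p.1, j)) (by
    rintro ⟨a, i⟩ ⟨b, j⟩ h
    rw [Prod.mk.injEq] at h
    exact Prod.ext h.1 (Subsingleton.elim _ _))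
  refine ⟨L, fun f x i => ?_⟩
  split_ifs with hij
  · subst hij
    exact hL f (x, 0)
  · refine hL' f (x, i) ?_
    rintro ⟨⟨a, b⟩, hab⟩
    rw [Prod.mk.injEq] at hab
    exact hij hab.2.symm

/-- The inclusion of the `j`-th coordinate. -/
noncomputable def inc (j : Fin n) : H K 1 →L[ℝ] H K n := (exists_inc j).choose

theorem inc_apply (j : Fin n) (f : H K 1) (x : K) (i : Fin n) :
    inc j f (x, i) = if i = j then f (x, 0) else 0 :=
  (exists_inc j).choose_spec f x i

theorem inc_eqv (j : Fin n) : Eqv (inc j : H K 1 →L[ℝ] H K n) := by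
  intro h f
  refine ext2_16 fun z i => ?_
  rw [inc_apply]
  change (if i = j then f (z * h, 0) else 0) = inc j f (z * h, i)
  rw [inc_apply]

theorem inc_sum {f : Fin n → H K 1} (h : ∑ j, inc j (f j) = 0) : ∀ j, f j = 0 := by
  intro j
  refine ext2_16 fun x i => ?_
  have h1 : (∑ j', inc j' (f j') : H K n) (x, j) = 0 := by rw [h]; rfl
  rw [lp.coeFn_sum, Finset.sum_apply] at h1
  rw [Finset.sum_congr rfl fun j' _ => inc_apply j' (f j') x j] at h1
  rw [Finset.sum_ite_eq Finset.univ j (fun j' => (f j') (x, 0))] at h1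
  rw [if_pos (Finset.mem_univ j)] at h1
  rw [Subsingleton.elim i 0, h1]
  rfl

end Pool.Agent.MKG
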