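import Pool.Agent.MKG.Dim
import Pool.Agent.MKG.Ops

/-! Module MKG/Gen. A group with `n` generators does not contain `m > n` free factors with elements
of infinite order.

N = additive subgroup of the equivariant operators H K m →L H K 1 (`Eqv` is closed under sums and
negation: `rt_add`, `rt_smul`), Γ = Multiplicative N ⋊[φ] K with φ x (D) = lt x ∘ D (`lt_mul`, `lt_one`,
`lt_eqv`). For k < m let φ k x = ((lt x - 1) ∘ pr k, x); it is a homomorphism:
(lt (x y) - 1) ∘ pr k = (lt x - 1) ∘ pr k + lt x ∘ (lt y - 1) ∘ pr k. Let Φ be the extension to G, and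
E x the first component of Φ x, θ x the second: E (x y) = E x + lt (θ x) ∘ E y, E 1 = 0,
E (ι k x) = (lt x - 1) ∘ pr k.
B = ∑ j, inc j ∘ E (s j) is equivariant. If B f = 0 then E (s j) f = 0 for all j (`inc_sum`), the set
{x | E x f = 0} is a subgroup (inverse: 0 = E (x⁻¹ x) f = E x⁻¹ f + lt (θ x⁻¹) (E x f)), so it is everything, so
lt g (pr k f) = pr k f for all k, pr k f = 0 by `lt_fixed`, f = 0 by `pr_zero`. `dim_le` gives m ≤ n.
-/

namespace Pool.Agent.MKG

variable {K : Type} [Group K] {m : ℕ}

/-- Equivariant operators. -/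
private def eqN (K : Type) [Group K] (m : ℕ) : AddSubgroup (H K m →L[ℝ] H K 1) where
  carrier := {D | Eqv D}
  zero_mem' := by
    intro h f
    have h0 : (0 : H K m →L[ℝ] H K 1) (rt h f) = 0 := rfl
    have h1 : (0 : H K m →L[ℝ] H K 1) f = 0 := rfl
    rw [h0, h1]
    have := rt_smul h (0 : ℝ) (0 : H K 1)
    rw [zero_smul, zero_smul] at this
    exact this.symm
  add_mem' := by
    intro A B hA hB h f
    rw [add_apply, add_apply, hA h f, hB h f, rt_add]
  neg_mem' := by
    intro A hA h f
    rw [neg_apply, neg_apply, hA h f]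
    have := rt_smul h (-1 : ℝ) (A f)
    rw [neg_one_smul, neg_one_smul] at this
    exact this.symm

private theorem eqv_comp {n l : ℕ} {A : H K n →L[ℝ] H K l} {B : H K m →L[ℝ] H K n} (hA : Eqv A)
    (hB : Eqv B) : Eqv (A.comp B) := by
  intro h f
  rw [ContinuousLinearMap.comp_apply, ContinuousLinearMap.comp_apply, hB h f, hA h (B f)]

/-- the action of `K` -/
private noncomputable def act (K : Type) [Group K] (m : ℕ) :
    K →* MulAut (Multiplicative (eqN K m)) where
  toFun x :=
    { toFun := fun D => Multiplicative.ofAdd ⟨(lt x).comp (Multiplicative.toAdd D).1,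
        eqv_comp (lt_eqv x) (Multiplicative.toAdd D).2⟩
      invFun := fun D => Multiplicative.ofAdd ⟨(lt x⁻¹).comp (Multiplicative.toAdd D).1,
        eqv_comp (lt_eqv x⁻¹) (Multiplicative.toAdd D).2⟩
      left_inv := by
        intro D
        apply Multiplicative.toAdd.injective
        apply Subtype.ext
        show (lt x⁻¹).comp ((lt x).comp (Multiplicative.toAdd D).1) = (Multiplicative.toAdd D).1
        rw [← ContinuousLinearMap.comp_assoc, ← lt_mul, inv_mul_cancel, lt_one,
          ContinuousLinearMap.id_comp]
      right_inv := by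
        intro D
        apply Multiplicative.toAdd.injective
        apply Subtype.ext
        show (lt x).comp ((lt x⁻¹).comp (Multiplicative.toAdd D).1) = (Multiplicative.toAdd D).1
        rw [← ContinuousLinearMap.comp_assoc, ← lt_mul, mul_inv_cancel, lt_one,
          ContinuousLinearMap.id_comp]
      map_mul' := by
        intro A B
        apply Multiplicative.toAdd.injective
        apply Subtype.ext
        show (lt x).comp ((Multiplicative.toAdd A).1 + (Multiplicative.toAdd B).1) =
          (lt x).comp (Multiplicative.toAdd A).1 + (lt x).comp (Multiplicative.toAdd B).1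
        rw [ContinuousLinearMap.comp_add] }
  map_one' := by
    ext D : 1
    apply Multiplicative.toAdd.injective
    apply Subtype.ext
    show (lt 1).comp (Multiplicative.toAdd D).1 = (Multiplicative.toAdd D).1
    rw [lt_one, ContinuousLinearMap.id_comp]
  map_mul' := by
    intro x y
    ext D : 1
    apply Multiplicative.toAdd.injective
    apply Subtype.ext
    show (lt (x * y)).comp (Multiplicative.toAdd D).1 =
      (lt x).comp ((lt y).comp (Multiplicative.toAdd D).1)
    rw [lt_mul, ContinuousLinearMap.comp_assoc]

private theorem inner_mem (k : Fin m) (x : K) :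
    ((lt x).comp (pr k) - pr k : H K m →L[ℝ] H K 1) ∈ eqN K m :=
  (eqN K m).sub_mem (eqv_comp (lt_eqv x) (pr_eqv k)) (pr_eqv k)

/-- the inner derivation on the factor `k` -/
private noncomputable def inn (k : Fin m) :
    K →* SemidirectProduct (Multiplicative (eqN K m)) K (act K m) where
  toFun x := ⟨Multiplicative.ofAdd ⟨(lt x).comp (pr k) - pr k, inner_mem k x⟩, x⟩
  map_one' := by
    apply SemidirectProduct.ext
    · apply Multiplicative.toAdd.injective
      apply Subtype.ext
      show (lt 1).comp (pr k) - pr k = 0
      rw [lt_one, ContinuousLinearMap.id_comp, sub_self]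
    · rfl
  map_mul' := by
    intro x y
    apply SemidirectProduct.ext
    · apply Multiplicative.toAdd.injective
      apply Subtype.ext
      show (lt (x * y)).comp (pr k) - pr k =
        ((lt x).comp (pr k) - pr k) + (lt x).comp ((lt y).comp (pr k) - pr k)
      rw [lt_mul, ContinuousLinearMap.comp_assoc, ContinuousLinearMap.comp_sub]
      abel
    · rfl

theorem gen_bound {K G : Type} [Group K] [Group G] {m n : ℕ} (s : Fin n → G)
    (hs : Subgroup.closure (Set.range s) = ⊤) (ι : Fin m → K →* G)
    (hext : ∀ (Γ : Type) [Group Γ] (φ : Fin m → K →* Γ),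
      ∃ Φ : G →* Γ, ∀ k x, Φ (ι k x) = φ k x)
    (g : K) (hg : ∀ r : ℕ, 0 < r → g ^ r ≠ 1) : m ≤ n := by
  obtain ⟨Φ, hΦ⟩ := hext (SemidirectProduct (Multiplicative (eqN K m)) K (act K m))
    (fun k => inn k)
  set E : G → (H K m →L[ℝ] H K 1) := fun x => (Multiplicative.toAdd (Φ x).left).1 with hE
  have hEq : ∀ x, Eqv (E x) := fun x => (Multiplicative.toAdd (Φ x).left).2
  have hE1 : E 1 = 0 := by
    simp only [hE]
    rw [map_one]
    rfl
  have hEm : ∀ x y, E (x * y) = E x + (lt (Φ x).right).comp (E y) := by
    intro x y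
    simp only [hE]
    rw [map_mul]
    rfl
  have hEι : ∀ k x, E (ι k x) = (lt x).comp (pr k) - pr k := by
    intro k x
    simp only [hE]
    rw [hΦ]
    rfl
  -- the operator
  set B : H K m →L[ℝ] H K n := ∑ j, (inc j).comp (E (s j)) with hB
  have hBapp : ∀ f, B f = ∑ j, inc j (E (s j) f) := by
    intro f
    rw [hB, sum_apply]
    rfl
  have hBe : Eqv B := by
    intro h f
    rw [hBapp, hBapp]
    have hsum : ∀ (S : Finset (Fin n)), rt h (∑ j ∈ S, inc j (E (s j) f)) =
        ∑ j ∈ S, rt h (inc j (E (s j) f)) := by
      intro S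
      induction S using Finset.cons_induction with
      | empty =>
        rw [Finset.sum_empty, Finset.sum_empty]
        have := rt_smul h (0 : ℝ) (0 : H K n)
        rw [zero_smul, zero_smul] at this
        exact this
      | cons a S ha ih => rw [Finset.sum_cons, Finset.sum_cons, rt_add, ih]
    rw [hsum]
    refine Finset.sum_congr rfl fun j _ => ?_
    rw [hEq (s j) h f, inc_eqv j h]
  refine dim_le B hBe fun f hf => ?_
  rw [hBapp] at hf
  have h0 : ∀ j, E (s j) f = 0 := inc_sum hf
  have hall : ∀ x, E x f = 0 := by
    intro x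
    have hx : x ∈ Subgroup.closure (Set.range s) := by
      rw [hs]
      exact Subgroup.mem_top x
    induction hx using Subgroup.closure_induction with
    | mem y hy =>
      obtain ⟨j, rfl⟩ := hy
      exact h0 j
    | one =>
      rw [hE1]
      rfl
    | mul a b _ _ ha hb =>
      rw [hEm, add_apply, ContinuousLinearMap.comp_apply, ha, hb, map_zero,
        add_zero]
    | inv a _ ha =>
      have h1 := hEm a⁻¹ a
      rw [inv_mul_cancel, hE1] at h1
      have h2 := congrArg (fun T : H K m →L[ℝ] H K 1 => T f) h1
      simp only [add_apply, ContinuousLinearMap.comp_apply, ha, map_zero,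
        add_zero] at h2
      exact h2.symm
  refine pr_zero fun k => lt_fixed hg ?_
  have h1 := hall (ι k g)
  rw [hEι, sub_apply, ContinuousLinearMap.comp_apply] at h1
  exact sub_eq_zero.1 h1

end Pool.Agent.MKG
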