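import Pool.Agent.MKG.Params
import Pool.Agent.MKG.Cells1

/-! # Basic Weyl sum: one block -/

open MeasureTheory Set Filter
open scoped BigOperators ENNReal Topology

namespace MKG

theorem HW_norm_e_sub_one {δ : ℝ} (hδ : |δ| ≤ 1 / 2) : 4 * |δ| ≤ ‖e δ - 1‖ := by
  have h1 : ‖e δ - 1‖ = 2 * |Real.sin (Real.pi * δ)| := by
    unfold e
    rw [mul_comm, Complex.norm_exp_I_mul_ofReal_sub_one, Real.norm_eq_abs, abs_mul,
      abs_of_pos (by norm_num : (0:ℝ) < 2)]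
    congr 3; ring
  rw [h1]
  have hpi := Real.pi_pos
  have h2 : |Real.sin (Real.pi * δ)| = Real.sin (Real.pi * |δ|) := by
    rcases le_or_gt 0 δ with h | h
    · rw [abs_of_nonneg h] at hδ ⊢
      rw [abs_of_nonneg]
      refine Real.sin_nonneg_of_nonneg_of_le_pi (by positivity) (by nlinarith)
    · rw [abs_of_neg h] at hδ ⊢
      rw [mul_neg, Real.sin_neg, abs_of_nonpos]
      have : 0 ≤ Real.sin (Real.pi * (-δ)) :=
        Real.sin_nonneg_of_nonneg_of_le_pi (by nlinarith) (by nlinarith)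
      rw [mul_neg, Real.sin_neg] at this
      linarith
  rw [h2]
  have h3 := Real.mul_le_sin (x := Real.pi * |δ|) (by positivity) (by nlinarith [abs_nonneg δ])
  have h4 : 2 / Real.pi * (Real.pi * |δ|) = 2 * |δ| := by field_simp
  rw [h4] at h3
  linarith

/-- Geometric sums: if `α` is `κ`-far from the integers then the sum of `e (i α)` is `≤ 1/(2κ)`. -/
theorem HW_geom (n : ℕ) {α κ : ℝ} (hκ : 0 < κ) (hα : ∀ i₀ : ℤ, κ ≤ |α - i₀|) :
    ‖∑ i ∈ Finset.range n, e ((i : ℝ) * α)‖ ≤ 1 / κ := by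
  set δ := α - round α with hδ
  have h1 : |δ| ≤ 1 / 2 := abs_sub_round α
  have h2 : κ ≤ |δ| := hα (round α)
  have h3 : e α = e δ := by
    have : α = δ + (round α : ℤ) := by rw [hδ]; ring
    rw [this, e_add_int]
  have h4 := HW_norm_e_sub_one h1
  have h5 : ∀ i : ℕ, e ((i : ℝ) * α) = (e α) ^ i := by
    intro i
    induction i with
    | zero => simp [e_zero]
    | succ i ih =>
      rw [pow_succ, ← ih, ← e_add]
      congr 1; push_cast; ring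
  have h6 : (∑ i ∈ Finset.range n, e ((i : ℝ) * α)) * (e α - 1) = (e α) ^ n - 1 := by
    simp_rw [h5]
    exact geom_sum_mul _ _
  have h7 : ‖∑ i ∈ Finset.range n, e ((i : ℝ) * α)‖ * ‖e α - 1‖ ≤ 2 := by
    rw [← norm_mul, h6]
    calc ‖e α ^ n - 1‖ ≤ ‖e α ^ n‖ + ‖(1:ℂ)‖ := norm_sub_le _ _
      _ = 2 := by rw [norm_pow, norm_e]; norm_num
  rw [h3] at h7
  have h8 : ‖∑ i ∈ Finset.range n, e ((i : ℝ) * α)‖ * (4 * κ) ≤ 2 := by
    refine le_trans ?_ h7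
    refine mul_le_mul_of_nonneg_left ?_ (norm_nonneg _)
    linarith
  rw [le_div_iff₀ hκ]
  linarith [mul_nonneg (norm_nonneg (∑ i ∈ Finset.range n, e ((i : ℝ) * α))) hκ.le]

/-- Trivial bound. -/
theorem HW_triv (n : ℕ) (α : ℝ) : ‖∑ i ∈ Finset.range n, e ((i : ℝ) * α)‖ ≤ n := by
  refine (norm_sum_le _ _).trans ?_
  simp [norm_e]

/-- Data of one block: `t = B/Q`, `q = J² Q + i`, `b = J² B + j`. -/
theorem HW_block {g g' : ℝ → ℝ} {A B P T : ℝ} (hP : 0 ≤ P)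
    (hqr : ∀ t ∈ Icc A B, ∀ u ∈ Icc A B, |g u - g t - (u - t) * g' t| ≤ P * (u - t) ^ 2)
    {J : ℕ} (hJ : 1 ≤ J) {Q Bc : ℤ} (hQ : (J : ℤ) ^ 6 ≤ Q)
    (ht : (Bc : ℝ) / Q ∈ Icc A B) (hT : 1 + |(Bc : ℝ) / Q| ≤ T)
    (hu : ∀ i j : ℕ, i < J ^ 2 → j < J ^ 2 →
      (((J : ℤ) ^ 2 * Bc + j : ℤ) : ℝ) / ((J : ℤ) ^ 2 * Q + i : ℤ) ∈ Icc A B) :
    ‖∑ i ∈ Finset.range (J ^ 2), ∑ j ∈ Finset.range (J ^ 2),
        e ((((J : ℤ) ^ 2 * Q + i : ℤ) : ℝ) *
          g ((((J : ℤ) ^ 2 * Bc + j : ℤ) : ℝ) / ((J : ℤ) ^ 2 * Q + i : ℤ)))‖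
      ≤ (J : ℝ) ^ 3 + 7 * P * T ^ 2 ∨
    ∃ i₀ j₀ : ℤ, |g' ((Bc : ℝ) / Q) - j₀| < 1 / J ∧
      |g ((Bc : ℝ) / Q) - (Bc : ℝ) / Q * g' ((Bc : ℝ) / Q) - i₀| < 1 / J := by
  set t : ℝ := (Bc : ℝ) / Q with htdef
  have hJ0 : (0:ℝ) < J := by exact_mod_cast hJ
  have hQ0 : (0:ℝ) < Q := by
    have : (0 : ℤ) < (J : ℤ) ^ 6 := by positivity
    exact_mod_cast this.trans_le hQ
  have hQJ : (J : ℝ) ^ 6 ≤ Q := by exact_mod_cast hQ
  by_cases hnear : ∃ i₀ j₀ : ℤ, |g' t - j₀| < 1 / J ∧ |g t - t * g' t - i₀| < 1 / J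
  · exact Or.inr hnear
  left
  set α : ℝ := g t - t * g' t with hα
  set β : ℝ := g' t with hβ
  -- the linearised block
  have hlin : ‖∑ i ∈ Finset.range (J ^ 2), ∑ j ∈ Finset.range (J ^ 2),
      e ((J : ℝ) ^ 2 * Q * g t) * (e ((i : ℝ) * α) * e ((j : ℝ) * β))‖ ≤ (J : ℝ) ^ 3 := by
    have h1 : ∑ i ∈ Finset.range (J ^ 2), ∑ j ∈ Finset.range (J ^ 2),
        e ((J : ℝ) ^ 2 * Q * g t) * (e ((i : ℝ) * α) * e ((j : ℝ) * β))
        = e ((J : ℝ) ^ 2 * Q * g t) * ((∑ i ∈ Finset.range (J ^ 2), e ((i : ℝ) * α)) *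
          (∑ j ∈ Finset.range (J ^ 2), e ((j : ℝ) * β))) := by
      rw [Finset.sum_mul_sum, Finset.mul_sum]
      refine Finset.sum_congr rfl fun i _ => ?_
      rw [Finset.mul_sum]
    rw [h1, norm_mul, norm_e, one_mul, norm_mul]
    have htα := HW_triv (J ^ 2) α
    have htβ := HW_triv (J ^ 2) β
    push_cast at htα htβ
    by_cases hc : ∀ i₀ : ℤ, 1 / (J : ℝ) ≤ |α - i₀|
    · have h2 := HW_geom (J ^ 2) (by positivity) hc
      rw [one_div_one_div] at h2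
      calc _ ≤ (J : ℝ) * (J : ℝ) ^ 2 := mul_le_mul h2 htβ (norm_nonneg _) hJ0.le
        _ = (J : ℝ) ^ 3 := by ring
    · push Not at hc
      obtain ⟨i₀, hi₀⟩ := hc
      have hc' : ∀ j₀ : ℤ, 1 / (J : ℝ) ≤ |β - j₀| := by
        intro j₀
        by_contra hcon
        push Not at hcon
        exact hnear ⟨i₀, j₀, hcon, hi₀⟩
      have h2 := HW_geom (J ^ 2) (by positivity) hc'
      rw [one_div_one_div] at h2
      calc _ ≤ (J : ℝ) ^ 2 * (J : ℝ) := mul_le_mul htα h2 (norm_nonneg _) (by positivity)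
        _ = (J : ℝ) ^ 3 := by ring
  -- the error
  have herr : ∀ i ∈ Finset.range (J ^ 2), ∀ j ∈ Finset.range (J ^ 2),
      ‖e ((((J : ℤ) ^ 2 * Q + i : ℤ) : ℝ) *
          g ((((J : ℤ) ^ 2 * Bc + j : ℤ) : ℝ) / ((J : ℤ) ^ 2 * Q + i : ℤ))) -
        e ((J : ℝ) ^ 2 * Q * g t) * (e ((i : ℝ) * α) * e ((j : ℝ) * β))‖
      ≤ 7 * P * T ^ 2 / (J : ℝ) ^ 4 := by
    intro i hi j hj
    rw [Finset.mem_range] at hi hj
    have hui := hu i j hi hj
    set q : ℝ := (((J : ℤ) ^ 2 * Q + i : ℤ) : ℝ) with hq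
    set u : ℝ := (((J : ℤ) ^ 2 * Bc + j : ℤ) : ℝ) / q with hudef
    have hqe : q = (J : ℝ) ^ 2 * Q + i := by rw [hq]; push_cast; ring
    have hi0 : (0:ℝ) ≤ i := Nat.cast_nonneg _
    have hj0 : (0:ℝ) ≤ j := Nat.cast_nonneg _
    have hiJ : (i:ℝ) ≤ (J : ℝ) ^ 2 := by exact_mod_cast hi.le
    have hjJ : (j:ℝ) ≤ (J : ℝ) ^ 2 := by exact_mod_cast hj.le
    have hq8 : (J : ℝ) ^ 8 ≤ q := by
      rw [hqe]
      calc (J : ℝ) ^ 8 = (J : ℝ) ^ 2 * (J : ℝ) ^ 6 := by ring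
        _ ≤ (J : ℝ) ^ 2 * Q := by gcongr
        _ ≤ _ := by linarith
    have hq0 : 0 < q := lt_of_lt_of_le (by positivity) hq8
    have hqu : q * u = (J : ℝ) ^ 2 * Bc + j := by
      rw [hudef, mul_div_cancel₀ _ hq0.ne']
      push_cast; ring
    have hQt : (Q : ℝ) * t = Bc := by rw [htdef, mul_div_cancel₀ _ hQ0.ne']
    have hqut : q * (u - t) = j - i * t := by
      rw [mul_sub, hqu, hqe, add_mul, mul_assoc, hQt]
      ring
    have hrem := hqr t ht u hui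
    set rem := g u - g t - (u - t) * g' t with hremdef
    have e1 : q * g u = ((J : ℝ) ^ 2 * Q * g t + (i * α + j * β)) + q * rem := by
      have : q * g u = q * g t + (q * (u - t)) * g' t + q * rem := by rw [hremdef]; ring
      rw [this, hqut, hqe, hα, hβ]
      ring
    have e2 : e ((J : ℝ) ^ 2 * Q * g t) * (e ((i : ℝ) * α) * e ((j : ℝ) * β))
        = e ((J : ℝ) ^ 2 * Q * g t + (i * α + j * β)) := by
      rw [e_add, e_add]
    rw [e2, e1]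
    refine (norm_e_sub_e_le _ _).trans ?_
    rw [add_sub_cancel_left, abs_mul, abs_of_pos hq0]
    have h3 : q * |rem| ≤ P * T ^ 2 / (J : ℝ) ^ 4 := by
      have h4 : q * |rem| ≤ P * (q * (u - t)) ^ 2 / q := by
        calc q * |rem| ≤ q * (P * (u - t) ^ 2) := by gcongr
          _ = P * (q * (u - t)) ^ 2 / q := by field_simp
      refine h4.trans ?_
      have h5 : |q * (u - t)| ≤ (J : ℝ) ^ 2 * T := by
        rw [hqut]
        calc |(j : ℝ) - i * t| ≤ |(j : ℝ)| + |(i : ℝ) * t| := abs_sub _ _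
          _ = j + i * |t| := by rw [abs_of_nonneg hj0, abs_mul, abs_of_nonneg hi0]
          _ ≤ (J : ℝ) ^ 2 + (J : ℝ) ^ 2 * |t| := by gcongr
          _ = (J : ℝ) ^ 2 * (1 + |t|) := by ring
          _ ≤ (J : ℝ) ^ 2 * T := by gcongr
      have h6 : (q * (u - t)) ^ 2 ≤ ((J : ℝ) ^ 2 * T) ^ 2 := sq_le_sq' (abs_le.1 h5).1 (abs_le.1 h5).2
      calc P * (q * (u - t)) ^ 2 / q ≤ P * ((J : ℝ) ^ 2 * T) ^ 2 / (J : ℝ) ^ 8 := by gcongr
        _ = P * T ^ 2 / (J : ℝ) ^ 4 := by field_simp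
    have hpi : 2 * Real.pi ≤ 7 := by linarith [Real.pi_lt_d2]
    calc 2 * Real.pi * (q * |rem|) ≤ 7 * (P * T ^ 2 / (J : ℝ) ^ 4) := by
          refine mul_le_mul hpi h3 (by positivity) (by norm_num)
      _ = 7 * P * T ^ 2 / (J : ℝ) ^ 4 := by ring
  have hdiff : ‖(∑ i ∈ Finset.range (J ^ 2), ∑ j ∈ Finset.range (J ^ 2),
        e ((((J : ℤ) ^ 2 * Q + i : ℤ) : ℝ) *
          g ((((J : ℤ) ^ 2 * Bc + j : ℤ) : ℝ) / ((J : ℤ) ^ 2 * Q + i : ℤ)))) -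
      ∑ i ∈ Finset.range (J ^ 2), ∑ j ∈ Finset.range (J ^ 2),
      e ((J : ℝ) ^ 2 * Q * g t) * (e ((i : ℝ) * α) * e ((j : ℝ) * β))‖ ≤ 7 * P * T ^ 2 := by
    rw [← Finset.sum_sub_distrib]
    simp_rw [← Finset.sum_sub_distrib]
    calc _ ≤ ∑ i ∈ Finset.range (J ^ 2), ∑ j ∈ Finset.range (J ^ 2),
          7 * P * T ^ 2 / (J : ℝ) ^ 4 := by
          refine (norm_sum_le _ _).trans (Finset.sum_le_sum fun i hi => ?_)
          exact (norm_sum_le _ _).trans (Finset.sum_le_sum fun j hj => herr i hi j hj)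
      _ = 7 * P * T ^ 2 := by
          simp only [Finset.sum_const, Finset.card_range, nsmul_eq_mul]
          push_cast
          field_simp
  have := norm_add_le ((∑ i ∈ Finset.range (J ^ 2), ∑ j ∈ Finset.range (J ^ 2),
        e ((((J : ℤ) ^ 2 * Q + i : ℤ) : ℝ) *
          g ((((J : ℤ) ^ 2 * Bc + j : ℤ) : ℝ) / ((J : ℤ) ^ 2 * Q + i : ℤ)))) -
      ∑ i ∈ Finset.range (J ^ 2), ∑ j ∈ Finset.range (J ^ 2),
      e ((J : ℝ) ^ 2 * Q * g t) * (e ((i : ℝ) * α) * e ((j : ℝ) * β)))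
      (∑ i ∈ Finset.range (J ^ 2), ∑ j ∈ Finset.range (J ^ 2),
      e ((J : ℝ) ^ 2 * Q * g t) * (e ((i : ℝ) * α) * e ((j : ℝ) * β)))
  rw [sub_add_cancel] at this
  linarith

/-- The near case forces the sublevel condition along the cell. -/
theorem HW_near {g g' : ℝ → ℝ} {A B P T : ℝ} (hP : 0 ≤ P)
    (hg : ∀ t ∈ Icc A B, |g t| ≤ P) (hg' : ∀ t ∈ Icc A B, |g' t| ≤ P)
    (hqr : ∀ t ∈ Icc A B, ∀ u ∈ Icc A B, |g u - g t - (u - t) * g' t| ≤ P * (u - t) ^ 2)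
    {J : ℕ} (hJ : 1 ≤ J) {t : ℝ} (ht : t ∈ Icc A B) (hT : 1 + |t| ≤ T) {i₀ j₀ : ℤ}
    (hj : |g' t - j₀| < 1 / J) (hi : |g t - t * g' t - i₀| < 1 / J) :
    |(j₀ : ℝ)| ≤ P * T + 1 ∧ |(i₀ : ℝ)| ≤ P * T + 1 ∧
    ∀ u ∈ Icc A B, |u - t| ≤ 1 / (J : ℝ) ^ 6 →
      |g u - j₀ * u - i₀| < (T + 1 + P / J) / J := by
  have hJ0 : (0:ℝ) < J := by exact_mod_cast hJ
  have hJ1 : (1:ℝ) ≤ J := by exact_mod_cast hJ
  have hJi : 1 / (J : ℝ) ≤ 1 := by
    rw [div_le_one hJ0]; exact hJ1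
  have hT1 : 1 ≤ T := by linarith [abs_nonneg t]
  have h1 := hg' t ht
  have h2 := hg t ht
  refine ⟨?_, ?_, ?_⟩
  · have : |(j₀ : ℝ)| ≤ |g' t| + |g' t - j₀| := by
      have := abs_sub_abs_le_abs_sub (j₀ : ℝ) (g' t)
      rw [abs_sub_comm (j₀ : ℝ)] at this
      linarith
    nlinarith
  · have h3 : |(i₀ : ℝ)| ≤ |g t - t * g' t| + |g t - t * g' t - i₀| := by
      have := abs_sub_abs_le_abs_sub (i₀ : ℝ) (g t - t * g' t)
      rw [abs_sub_comm (i₀ : ℝ)] at this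
      linarith
    have h4 : |g t - t * g' t| ≤ P + |t| * P := by
      calc |g t - t * g' t| ≤ |g t| + |t * g' t| := abs_sub _ _
        _ ≤ P + |t| * P := by
          rw [abs_mul]
          gcongr
    nlinarith [abs_nonneg t]
  · intro u hu hut
    have h3 := hqr t ht u hu
    have h4 : g u - j₀ * u - i₀ = (g t - t * g' t - i₀) + t * (g' t - j₀) +
        (u - t) * (g' t - j₀) + (g u - g t - (u - t) * g' t) := by ring
    rw [h4]
    have hut1 : |u - t| ≤ 1 := by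
      refine hut.trans ?_
      rw [div_le_one (by positivity)]
      exact one_le_pow₀ hJ1
    have h5 : (u - t) ^ 2 ≤ 1 / (J : ℝ) ^ 2 := by
      have h6 : |u - t| ≤ 1 / (J : ℝ) := by
        refine hut.trans ?_
        refine one_div_le_one_div_of_le hJ0 ?_
        exact le_self_pow₀ hJ1 (by norm_num)
      calc (u - t) ^ 2 = |u - t| ^ 2 := (sq_abs _).symm
        _ ≤ (1 / (J : ℝ)) ^ 2 := by gcongr
        _ = 1 / (J : ℝ) ^ 2 := by rw [div_pow, one_pow]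
    have a1 : |t * (g' t - j₀)| ≤ |t| * (1 / J) := by
      rw [abs_mul]; gcongr
    have a2 : |(u - t) * (g' t - j₀)| ≤ 1 * (1 / J) := by
      rw [abs_mul]
      exact mul_le_mul hut1 hj.le (abs_nonneg _) zero_le_one
    have a3 : |g u - g t - (u - t) * g' t| ≤ P * (1 / (J : ℝ) ^ 2) :=
      h3.trans (mul_le_mul_of_nonneg_left h5 hP)
    calc _ ≤ |g t - t * g' t - i₀| + |t * (g' t - j₀)| + |(u - t) * (g' t - j₀)| +
          |g u - g t - (u - t) * g' t| := by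
          refine (abs_add_le _ _).trans ?_
          gcongr
          refine (abs_add_le _ _).trans ?_
          gcongr
          exact abs_add_le _ _
      _ < 1 / J + |t| * (1 / J) + 1 * (1 / J) + P * (1 / (J : ℝ) ^ 2) := by
          linarith
      _ = (1 + |t| + 1 + P / J) / J := by field_simp
      _ ≤ (T + 1 + P / J) / J := by gcongr

end MKG
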