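import Pool.Agent.MKG.HWa

/-! # Basic Weyl sum: averaging over blocks -/

open MeasureTheory Set Filter
open scoped BigOperators ENNReal Topology

namespace MKG

variable {m : ℕ} {Ω : Type*} [MeasurableSpace Ω] {ν : Measure Ω}

/-- The sum over one block. -/
noncomputable def HW_f (D : Family m Ω ν) (H : Fin m → ℤ) (J : ℕ) (c : ℤ × ℤ) (ω : Ω) : ℂ :=
  ∑ i ∈ Finset.range (J ^ 2), ∑ j ∈ Finset.range (J ^ 2),
    e ((((J : ℤ) ^ 2 * c.1 + i : ℤ) : ℝ) *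
      dot H (D.F ((((J : ℤ) ^ 2 * c.2 + j : ℤ) : ℝ) / ((J : ℤ) ^ 2 * c.1 + i : ℤ)) ω))

theorem HW_f_measurable (D : Family m Ω ν) (H : Fin m → ℤ) (J : ℕ) (c : ℤ × ℤ) :
    Measurable (HW_f D H J c) := by
  unfold HW_f
  refine Finset.measurable_sum _ fun i _ => Finset.measurable_sum _ fun j _ => ?_
  refine measurable_e.comp (Measurable.const_mul ?_ _)
  exact measurable_dot H _ (fun l => (D.meas l).comp (measurable_const.prodMk measurable_id))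

theorem HW_f_norm_le (D : Family m Ω ν) (H : Fin m → ℤ) (J : ℕ) (c : ℤ × ℤ) (ω : Ω) :
    ‖HW_f D H J c ω‖ ≤ (J : ℝ) ^ 4 := by
  unfold HW_f
  calc _ ≤ ∑ i ∈ Finset.range (J ^ 2), ∑ j ∈ Finset.range (J ^ 2), (1 : ℝ) := by
        refine (norm_sum_le _ _).trans (Finset.sum_le_sum fun i _ => ?_)
        refine (norm_sum_le _ _).trans (Finset.sum_le_sum fun j _ => ?_)
        rw [norm_e]
    _ = (J : ℝ) ^ 4 := by
        simp only [Finset.sum_const, Finset.card_range, nsmul_eq_mul]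
        push_cast; ring

theorem HW_Ico_sum {M : Type*} [AddCommMonoid M] (n : ℕ) (φ : ℤ → M) :
    ∑ i ∈ Finset.Ico (0 : ℤ) ((n : ℤ) ^ 2), φ i = ∑ i ∈ Finset.range (n ^ 2), φ (i : ℤ) := by
  symm
  refine Finset.sum_nbij' (fun i => (i : ℤ)) (fun i => i.toNat) ?_ ?_ ?_ ?_ ?_
  · intro i hi
    rw [Finset.mem_range] at hi
    rw [Finset.mem_Ico]
    exact ⟨Int.natCast_nonneg _, by exact_mod_cast hi⟩
  · intro i hi
    rw [Finset.mem_Ico] at hi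
    rw [Finset.mem_range, Int.toNat_lt hi.1]
    push_cast
    exact hi.2
  · intro i _; simp
  · intro i hi
    rw [Finset.mem_Ico] at hi
    exact Int.toNat_of_nonneg hi.1
  · intro i _; rfl

theorem HW_sum_eq [IsFiniteMeasure ν] (D : Family m Ω ν) (H : Fin m → ℤ) (J : ℕ) (A₁ B₁ : ℝ) :
    ∑ x ∈ Dplus J A₁ B₁, ∫ ω, e (dot H (psi (fun t => D.F t ω) x)) ∂ν
      = ∑ c ∈ corners J A₁ B₁, ∫ ω, HW_f D H J c ω ∂ν := by
  have hint : ∀ x : ℤ × ℤ, Integrable (fun ω => e (dot H (psi (fun t => D.F t ω) x))) ν := by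
    intro x
    refine Integrable.of_bound (measurable_e.comp (measurable_dot_psi D H x)).aestronglyMeasurable
      1 (Eventually.of_forall fun ω => ?_)
    rw [norm_e]
  unfold Dplus
  rw [Finset.sum_image (fun x hx y hy h => Dplus_injOn J A₁ B₁ hx hy h), Finset.sum_product]
  refine Finset.sum_congr rfl fun c _ => ?_
  rw [Finset.sum_product, HW_Ico_sum]
  unfold HW_f
  rw [integral_finsetSum]
  · refine Finset.sum_congr rfl fun i _ => ?_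
    rw [HW_Ico_sum, integral_finsetSum]
    · refine Finset.sum_congr rfl fun j _ => ?_
      refine integral_congr_ae (Eventually.of_forall fun ω => ?_)
      simp only [dot_psi]
    · intro j _
      have := hint ((J : ℤ) ^ 2 * c.1 + i, (J : ℤ) ^ 2 * c.2 + j)
      simpa only [dot_psi] using this
  · intro i _
    refine integrable_finsetSum _ fun j _ => ?_
    have := hint ((J : ℤ) ^ 2 * c.1 + i, (J : ℤ) ^ 2 * c.2 + j)
    simpa only [dot_psi] using this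

/-- Pointwise bound of one block sum. -/
theorem HW_point (D : Family m Ω ν) {A₁ B₁ : ℝ} {H : Fin m → ℤ} {P₀ P : ℝ}
    (hH : ∀ j, |(H j : ℝ)| ≤ P₀) (hP₀ : 0 ≤ P₀) (hP : m * P₀ * D.M ≤ P)
    {J : ℕ} (hJ : 1 ≤ J) {T : ℝ} (hT : 1 + |D.A| + |D.B| ≤ T)
    (hgA : T / (J : ℝ) ^ 6 ≤ A₁ - D.A) (hgB : T / (J : ℝ) ^ 6 ≤ D.B - B₁)
    {δ : ℝ} (hδ : (T + 1 + P / J) / J ≤ δ) {Z : ℕ} (hZ : P * T + 1 ≤ Z) {c : ℤ × ℤ}
    (hc : c ∈ corners J A₁ B₁) (ω : Ω) {u : ℝ}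
    (hu : u ∈ Ico ((c.2 : ℝ) / c.1) (((c.2 : ℝ) + 1) / c.1)) :
    u ∈ Icc D.A D.B ∧
    ‖HW_f D H J c ω‖ ≤ ((J : ℝ) ^ 3 + 7 * P * T ^ 2) + (J : ℝ) ^ 4 *
      ∑ p ∈ (Finset.Icc (-(Z : ℤ)) Z ×ˢ Finset.Icc (-(Z : ℤ)) Z),
        (if |dot H (D.F u ω) - p.2 * u - p.1| < δ then (1 : ℝ) else 0) := by
  have hJ0 : (0:ℝ) < J := by exact_mod_cast hJ
  have hJ1 : (1:ℝ) ≤ J := by exact_mod_cast hJ
  obtain ⟨Q, Bc⟩ := c
  rw [mem_corners] at hc
  obtain ⟨hQ1, hQ2, hc1, hc2⟩ := hc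
  simp only at hQ1 hQ2 hc1 hc2 hu ⊢
  have hQ0 : (0:ℝ) < Q := by
    have : (0 : ℤ) < (J : ℤ) ^ 6 := by positivity
    exact_mod_cast this.trans_le hQ1
  have hQJ : (J : ℝ) ^ 6 ≤ Q := by exact_mod_cast hQ1
  set t : ℝ := (Bc : ℝ) / Q with ht
  have htA : A₁ ≤ t := by rw [ht, le_div_iff₀ hQ0]; exact hc1
  have htB : t ≤ B₁ := by rw [ht, div_le_iff₀ hQ0]; exact hc2
  have hT1 : 1 ≤ T := by linarith [abs_nonneg D.A, abs_nonneg D.B]
  have hTJ : 0 ≤ T / (J : ℝ) ^ 6 := by positivity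
  have htAB : t ∈ Icc D.A D.B := ⟨by linarith, by linarith⟩
  have habs : ∀ s ∈ Icc D.A D.B, |s| ≤ |D.A| + |D.B| := by
    intro s hs
    rw [abs_le]
    constructor
    · have := neg_abs_le D.A
      linarith [hs.1, abs_nonneg D.B]
    · have := le_abs_self D.B
      linarith [hs.2, abs_nonneg D.A]
  have hTt : 1 + |t| ≤ T := by linarith [habs t htAB]
  have hP0 : 0 ≤ P := le_trans (by have := D.hM; positivity) hP
  have hut : |u - t| ≤ 1 / (J : ℝ) ^ 6 := by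
    have h1 : u < t + 1 / Q := by
      have := hu.2
      rw [add_div] at this
      exact this
    rw [abs_of_nonneg (by linarith [hu.1])]
    have h2 : 1 / (Q : ℝ) ≤ 1 / (J : ℝ) ^ 6 := one_div_le_one_div_of_le (by positivity) hQJ
    linarith
  have h1T : 1 / (J : ℝ) ^ 6 ≤ T / (J : ℝ) ^ 6 := by gcongr
  have huAB : u ∈ Icc D.A D.B := by
    have := abs_le.1 hut
    exact ⟨by linarith, by linarith⟩
  refine ⟨huAB, ?_⟩
  have hcurve := D.curve ω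
  -- the scalar curve
  have hg : ∀ t ∈ Icc D.A D.B, |dot H (D.F t ω)| ≤ P := fun t ht =>
    (abs_dot_le H _ hH (hcurve.bd t ht)).trans hP
  have hg' : ∀ t ∈ Icc D.A D.B, |dot H (D.F' t ω)| ≤ P := fun t ht =>
    (abs_dot_le H _ hH (hcurve.bd' t ht)).trans hP
  have hqr : ∀ t ∈ Icc D.A D.B, ∀ u ∈ Icc D.A D.B,
      |dot H (D.F u ω) - dot H (D.F t ω) - (u - t) * dot H (D.F' t ω)| ≤ P * (u - t) ^ 2 := by
    intro t ht u hu
    have h1 : dot H (D.F u ω) - dot H (D.F t ω) - (u - t) * dot H (D.F' t ω)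
        = dot H (D.F u ω - D.F t ω - (u - t) • D.F' t ω) := by
      rw [dot_sub_right, dot_sub_right, dot_smul_right]
    rw [h1]
    refine (abs_dot_le H _ hH (Y := D.M * (u - t) ^ 2) (fun j => ?_)).trans ?_
    · have := hcurve.qr t ht u hu j
      simpa using this
    · calc m * P₀ * (D.M * (u - t) ^ 2) = (m * P₀ * D.M) * (u - t) ^ 2 := by ring
        _ ≤ P * (u - t) ^ 2 := by gcongr
  have huij : ∀ i j : ℕ, i < J ^ 2 → j < J ^ 2 →
      (((J : ℤ) ^ 2 * Bc + j : ℤ) : ℝ) / ((J : ℤ) ^ 2 * Q + i : ℤ) ∈ Icc D.A D.B := by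
    intro i j hi hj
    set q : ℝ := (((J : ℤ) ^ 2 * Q + i : ℤ) : ℝ) with hq
    have hqe : q = (J : ℝ) ^ 2 * Q + i := by rw [hq]; push_cast; ring
    have hi0 : (0:ℝ) ≤ i := Nat.cast_nonneg _
    have hj0 : (0:ℝ) ≤ j := Nat.cast_nonneg _
    have hiJ : (i:ℝ) ≤ (J : ℝ) ^ 2 := by exact_mod_cast hi.le
    have hjJ : (j:ℝ) ≤ (J : ℝ) ^ 2 := by exact_mod_cast hj.le
    have hq8 : (J : ℝ) ^ 8 ≤ q := by
      rw [hqe]
      calc (J : ℝ) ^ 8 = (J : ℝ) ^ 2 * (J : ℝ) ^ 6 := by ring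
        _ ≤ (J : ℝ) ^ 2 * Q := by gcongr
        _ ≤ _ := by linarith
    have hq0 : 0 < q := lt_of_lt_of_le (by positivity) hq8
    have hQt : (Q : ℝ) * t = Bc := by rw [ht, mul_div_cancel₀ _ hQ0.ne']
    have h1 : (((J : ℤ) ^ 2 * Bc + j : ℤ) : ℝ) / q - t = (j - i * t) / q := by
      rw [eq_div_iff hq0.ne', sub_mul, div_mul_cancel₀ _ hq0.ne', hqe]
      push_cast
      rw [← hQt]; ring
    have h2 : |(((J : ℤ) ^ 2 * Bc + j : ℤ) : ℝ) / q - t| ≤ T / (J : ℝ) ^ 6 := by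
      rw [h1, abs_div, abs_of_pos hq0]
      have h3 : |(j : ℝ) - i * t| ≤ (J : ℝ) ^ 2 * T := by
        calc |(j : ℝ) - i * t| ≤ |(j : ℝ)| + |(i : ℝ) * t| := abs_sub _ _
          _ = j + i * |t| := by rw [abs_of_nonneg hj0, abs_mul, abs_of_nonneg hi0]
          _ ≤ (J : ℝ) ^ 2 + (J : ℝ) ^ 2 * |t| := by gcongr
          _ = (J : ℝ) ^ 2 * (1 + |t|) := by ring
          _ ≤ (J : ℝ) ^ 2 * T := by gcongr
      calc |(j : ℝ) - i * t| / q ≤ ((J : ℝ) ^ 2 * T) / (J : ℝ) ^ 8 := by gcongr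
        _ = T / (J : ℝ) ^ 6 := by field_simp
    have h4 := abs_le.1 h2
    exact ⟨by linarith, by linarith⟩
  have hsum0 : 0 ≤ ∑ p ∈ (Finset.Icc (-(Z : ℤ)) Z ×ˢ Finset.Icc (-(Z : ℤ)) Z),
        (if |dot H (D.F u ω) - p.2 * u - p.1| < δ then (1 : ℝ) else 0) :=
    Finset.sum_nonneg fun p _ => by split_ifs <;> norm_num
  rcases HW_block (g := fun t => dot H (D.F t ω)) (g' := fun t => dot H (D.F' t ω)) hP0 hqr hJ hQ1
    htAB hTt huij with hgood | ⟨i₀, j₀, hj, hi⟩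
  · have h1 : ‖HW_f D H J (Q, Bc) ω‖ ≤ (J : ℝ) ^ 3 + 7 * P * T ^ 2 := hgood
    have h2 : 0 ≤ (J : ℝ) ^ 4 * ∑ p ∈ (Finset.Icc (-(Z : ℤ)) Z ×ˢ Finset.Icc (-(Z : ℤ)) Z),
        (if |dot H (D.F u ω) - p.2 * u - p.1| < δ then (1 : ℝ) else 0) := by positivity
    linarith
  · obtain ⟨hj₀, hi₀, hnear⟩ := HW_near (g := fun t => dot H (D.F t ω))
      (g' := fun t => dot H (D.F' t ω)) hP0 hg hg' hqr hJ htAB hTt hj hi
    have h1 := (hnear u huAB hut).trans_le hδ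
    have hi₀Z : i₀ ∈ Finset.Icc (-(Z : ℤ)) Z := by
      rw [Finset.mem_Icc, ← abs_le]
      exact_mod_cast hi₀.trans hZ
    have hj₀Z : j₀ ∈ Finset.Icc (-(Z : ℤ)) Z := by
      rw [Finset.mem_Icc, ← abs_le]
      exact_mod_cast hj₀.trans hZ
    have h2 : (1:ℝ) ≤ ∑ p ∈ (Finset.Icc (-(Z : ℤ)) Z ×ˢ Finset.Icc (-(Z : ℤ)) Z),
        (if |dot H (D.F u ω) - p.2 * u - p.1| < δ then (1 : ℝ) else 0) := by
      have h3 := Finset.single_le_sum (f := fun p : ℤ × ℤ =>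
        (if |dot H (D.F u ω) - p.2 * u - p.1| < δ then (1 : ℝ) else 0))
        (fun p _ => by positivity) (Finset.mk_mem_product hi₀Z hj₀Z)
      simp only at h3
      rw [if_pos h1] at h3
      exact h3
    have h3 := HW_f_norm_le D H J (Q, Bc) ω
    have h4 : (0:ℝ) ≤ (J : ℝ) ^ 3 + 7 * P * T ^ 2 := by positivity
    nlinarith [pow_pos hJ0 4]

end MKG
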