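import Pool.Agent.MKG.HWb

/-! # Basic Weyl sum: averaging over blocks, measure part -/

open MeasureTheory Set Filter
open scoped BigOperators ENNReal Topology

namespace MKG

variable {m : ℕ} {Ω : Type*} [MeasurableSpace Ω] {ν : Measure Ω}

/-- The strip over the interval `[c.2/c.1, (c.2+1)/c.1)`. -/
def HW_S (Ω : Type*) (c : ℤ × ℤ) : Set (ℝ × Ω) :=
  {z | z.1 ∈ Ico ((c.2 : ℝ) / c.1) (((c.2 : ℝ) + 1) / c.1)}

theorem HW_S_measurable (c : ℤ × ℤ) : MeasurableSet (HW_S Ω c) :=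
  measurable_fst measurableSet_Ico

/-- The sublevel set. -/
def HW_U (D : Family m Ω ν) (H : Fin m → ℤ) (δ : ℝ) (p : ℤ × ℤ) : Set (ℝ × Ω) :=
  {z | |dot H (D.F z.1 z.2) - p.2 * z.1 - p.1| < δ}

theorem HW_U_measurable (D : Family m Ω ν) (H : Fin m → ℤ) (δ : ℝ) (p : ℤ × ℤ) :
    MeasurableSet (HW_U D H δ p) := by
  have h1 : Measurable (fun z : ℝ × Ω => dot H (D.F z.1 z.2)) := measurable_dot H _ D.meas
  have h2 : Measurable (fun z : ℝ × Ω => |dot H (D.F z.1 z.2) - p.2 * z.1 - p.1|) :=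
    ((h1.sub (measurable_fst.const_mul _)).sub_const _).abs
  exact h2 measurableSet_Iio

theorem HW_Q_pos {J : ℕ} (hJ : 1 ≤ J) {A₁ B₁ : ℝ} {c : ℤ × ℤ} (hc : c ∈ corners J A₁ B₁) :
    (0:ℝ) < c.1 ∧ (J : ℝ) ^ 6 ≤ c.1 ∧ (c.1 : ℝ) ≤ 2 * (J : ℝ) ^ 6 := by
  rw [mem_corners] at hc
  obtain ⟨hQ1, hQ2, -, -⟩ := hc
  have h1 : (J : ℝ) ^ 6 ≤ c.1 := by exact_mod_cast hQ1
  have hJ0 : (0:ℝ) < J := by exact_mod_cast hJ
  refine ⟨lt_of_lt_of_le (by positivity) h1, h1, by exact_mod_cast hQ2.le⟩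

/-- Disjointness of strips with the same denominator gives the sum bound. -/
theorem HW_sum_U {J : ℕ} (hJ : 1 ≤ J) (A₁ B₁ : ℝ) (μ' : Measure (ℝ × Ω)) {U : Set (ℝ × Ω)}
    (hU : MeasurableSet U) :
    ∑ c ∈ corners J A₁ B₁, μ' (U ∩ HW_S Ω c) ≤ (J : ℝ≥0∞) ^ 6 * μ' U := by
  have hmaps : ∀ c ∈ corners J A₁ B₁, c.1 ∈ Finset.Ico ((J : ℤ) ^ 6) (2 * (J : ℤ) ^ 6) := by
    intro c hc
    rw [mem_corners] at hc
    rw [Finset.mem_Ico]
    exact ⟨hc.1, hc.2.1⟩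
  rw [← Finset.sum_fiberwise_of_maps_to hmaps]
  calc _ ≤ ∑ _Q ∈ Finset.Ico ((J : ℤ) ^ 6) (2 * (J : ℤ) ^ 6), μ' U := by
        refine Finset.sum_le_sum fun Q hQ => ?_
        rw [← measure_biUnion_finset]
        · refine measure_mono ?_
          intro z hz
          simp only [mem_iUnion] at hz
          obtain ⟨c, -, hz⟩ := hz
          exact hz.1
        · intro c hc c' hc' hne
          rw [Finset.mem_coe, Finset.mem_filter] at hc hc'
          have hQ0 := (HW_Q_pos hJ hc.1).1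
          refine Set.disjoint_left.2 fun z hz hz' => hne ?_
          have h1 := hz.2
          have h2 := hz'.2
          have e1 : c'.1 = c.1 := by rw [hc.2, hc'.2]
          simp only [HW_S, mem_ofPred_eq, mem_Ico] at h1 h2
          rw [e1] at h2
          rw [div_le_iff₀ hQ0, lt_div_iff₀ hQ0] at h1 h2
          have h3 : (c.2 : ℝ) < c'.2 + 1 := h1.1.trans_lt h2.2
          have h4 : (c'.2 : ℝ) < c.2 + 1 := h2.1.trans_lt h1.2
          have h5 : c.2 < c'.2 + 1 := by exact_mod_cast h3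
          have h6 : c'.2 < c.2 + 1 := by exact_mod_cast h4
          exact Prod.ext e1.symm (by omega)
        · intro c _
          exact hU.inter (HW_S_measurable c)
    _ = (J : ℝ≥0∞) ^ 6 * μ' U := by
        rw [Finset.sum_const, Int.card_Ico]
        have : (2 * (J : ℤ) ^ 6 - (J : ℤ) ^ 6).toNat = J ^ 6 := by
          have : (2 * (J : ℤ) ^ 6 - (J : ℤ) ^ 6) = ((J ^ 6 : ℕ) : ℤ) := by push_cast; ring
          rw [this, Int.toNat_natCast]
        rw [this, nsmul_eq_mul]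
        push_cast
        rfl

theorem HW_avg_one [IsFiniteMeasure ν] (D : Family m Ω ν) {A₁ B₁ : ℝ} {H : Fin m → ℤ} {P₀ P : ℝ}
    (hH : ∀ j, |(H j : ℝ)| ≤ P₀) (hP₀ : 0 ≤ P₀) (hP : m * P₀ * D.M ≤ P)
    {J : ℕ} (hJ : 1 ≤ J) {T : ℝ} (hT : 1 + |D.A| + |D.B| ≤ T)
    (hgA : T / (J : ℝ) ^ 6 ≤ A₁ - D.A) (hgB : T / (J : ℝ) ^ 6 ≤ D.B - B₁)
    {δ : ℝ} (hδ : (T + 1 + P / J) / J ≤ δ) {Z : ℕ} (hZ : P * T + 1 ≤ Z) {c : ℤ × ℤ}
    (hc : c ∈ corners J A₁ B₁) :
    ENNReal.ofReal (1 / c.1) * ∫⁻ ω, ‖HW_f D H J c ω‖ₑ ∂ν ≤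
      ENNReal.ofReal ((J : ℝ) ^ 3 + 7 * P * T ^ 2) * (ENNReal.ofReal (1 / c.1) * ν univ) +
      ENNReal.ofReal ((J : ℝ) ^ 4) *
        ∑ p ∈ (Finset.Icc (-(Z : ℤ)) Z ×ˢ Finset.Icc (-(Z : ℤ)) Z),
          ((volume.restrict (Icc D.A D.B)).prod ν) (HW_U D H δ p ∩ HW_S Ω c) := by
  set μ' := (volume.restrict (Icc D.A D.B)).prod ν with hμ'
  have hJ0 : (0:ℝ) < J := by exact_mod_cast hJ
  have hQ0 := (HW_Q_pos hJ hc).1
  have hP0 : 0 ≤ P := le_trans (by have := D.hM; positivity) hP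
  have hsub : Ico ((c.2 : ℝ) / c.1) (((c.2 : ℝ) + 1) / c.1) ⊆ Icc D.A D.B := by
    intro u hu
    rcases isEmpty_or_nonempty Ω with hΩ | ⟨⟨ω⟩⟩
    · -- no point `ω`; redo with the trivial family
      have hT1 : 1 ≤ T := by linarith [abs_nonneg D.A, abs_nonneg D.B]
      have hc' := hc
      rw [mem_corners] at hc'
      obtain ⟨hQ1, hQ2, hc1, hc2⟩ := hc'
      have hQJ : (J : ℝ) ^ 6 ≤ c.1 := (HW_Q_pos hJ hc).2.1
      have htA : A₁ ≤ (c.2 : ℝ) / c.1 := by rw [le_div_iff₀ hQ0]; exact hc1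
      have htB : (c.2 : ℝ) / c.1 ≤ B₁ := by rw [div_le_iff₀ hQ0]; exact hc2
      have h2 : 1 / (c.1 : ℝ) ≤ T / (J : ℝ) ^ 6 := by
        calc 1 / (c.1 : ℝ) ≤ 1 / (J : ℝ) ^ 6 := one_div_le_one_div_of_le (by positivity) hQJ
          _ ≤ T / (J : ℝ) ^ 6 := by gcongr
      have h3 := hu.2
      rw [add_div] at h3
      have h0 : 0 ≤ T / (J : ℝ) ^ 6 := by positivity
      exact ⟨by linarith [hu.1], by linarith⟩
    · exact (HW_point D hH hP₀ hP hJ hT hgA hgB hδ hZ hc ω hu).1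
  have hIvol : (volume.restrict (Icc D.A D.B)) (Ico ((c.2 : ℝ) / c.1) (((c.2 : ℝ) + 1) / c.1))
      = ENNReal.ofReal (1 / c.1) := by
    rw [Measure.restrict_apply measurableSet_Ico, inter_eq_left.2 hsub, Real.volume_Ico]
    congr 1
    rw [add_div]; ring
  have hS : μ' (HW_S Ω c) = ENNReal.ofReal (1 / c.1) * ν univ := by
    have : HW_S Ω c = Ico ((c.2 : ℝ) / c.1) (((c.2 : ℝ) + 1) / c.1) ×ˢ univ := by
      ext z; simp [HW_S]
    rw [this, hμ', Measure.prod_prod, hIvol]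
  have e1 : ENNReal.ofReal (1 / c.1) * ∫⁻ ω, ‖HW_f D H J c ω‖ₑ ∂ν
      = ∫⁻ z, (Ico ((c.2 : ℝ) / c.1) (((c.2 : ℝ) + 1) / c.1)).indicator (fun _ => 1) z.1 *
        ‖HW_f D H J c z.2‖ₑ ∂μ' := by
    rw [hμ', lintegral_prod_mul (f := (Ico ((c.2 : ℝ) / c.1)
      (((c.2 : ℝ) + 1) / c.1)).indicator (fun _ => 1)) (g := fun ω => ‖HW_f D H J c ω‖ₑ)
      (aemeasurable_const.indicator measurableSet_Ico)
      (HW_f_measurable D H J c).enorm.aemeasurable]
    congr 1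
    rw [lintegral_indicator measurableSet_Ico, lintegral_one, Measure.restrict_apply_univ, hIvol]
  rw [e1]
  calc _ ≤ ∫⁻ z, ((HW_S Ω c).indicator (fun _ => ENNReal.ofReal ((J : ℝ) ^ 3 + 7 * P * T ^ 2)) z +
        ENNReal.ofReal ((J : ℝ) ^ 4) *
          ∑ p ∈ (Finset.Icc (-(Z : ℤ)) Z ×ˢ Finset.Icc (-(Z : ℤ)) Z),
            (HW_U D H δ p ∩ HW_S Ω c).indicator (fun _ => (1 : ℝ≥0∞)) z) ∂μ' := by
        refine lintegral_mono fun z => ?_
        by_cases hz : z.1 ∈ Ico ((c.2 : ℝ) / c.1) (((c.2 : ℝ) + 1) / c.1)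
        · have hzS : z ∈ HW_S Ω c := hz
          simp only [indicator_of_mem hz, indicator_of_mem hzS, one_mul]
          have hpt := (HW_point D hH hP₀ hP hJ hT hgA hgB hδ hZ hc z.2 hz).2
          rw [← ofReal_norm]
          refine (ENNReal.ofReal_le_ofReal hpt).trans ?_
          rw [ENNReal.ofReal_add (by positivity) (by positivity),
            ENNReal.ofReal_mul (by positivity), ENNReal.ofReal_sum_of_nonneg
              (fun p _ => by positivity)]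
          gcongr with p hp
          by_cases hpU : z ∈ HW_U D H δ p
          · rw [indicator_of_mem (show z ∈ HW_U D H δ p ∩ HW_S Ω c from ⟨hpU, hzS⟩)]
            have : |dot H (D.F z.1 z.2) - p.2 * z.1 - p.1| < δ := hpU
            rw [if_pos this, ENNReal.ofReal_one]
          · have : ¬ |dot H (D.F z.1 z.2) - p.2 * z.1 - p.1| < δ := hpU
            rw [if_neg this, ENNReal.ofReal_zero]
            exact zero_le
        · simp only [indicator_of_notMem hz, zero_mul]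
          exact zero_le
    _ = _ := by
        rw [lintegral_add_left (measurable_const.indicator (HW_S_measurable c)),
          lintegral_indicator (HW_S_measurable c), lintegral_const, Measure.restrict_apply_univ, hS,
          lintegral_const_mul _ (Finset.measurable_sum _ fun p _ =>
            measurable_const.indicator ((HW_U_measurable D H δ p).inter (HW_S_measurable c))),
          lintegral_finsetSum _ fun p _ =>
            measurable_const.indicator ((HW_U_measurable D H δ p).inter (HW_S_measurable c))]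
        congr 2
        refine Finset.sum_congr rfl fun p _ => ?_
        rw [lintegral_indicator ((HW_U_measurable D H δ p).inter (HW_S_measurable c)),
          lintegral_one, Measure.restrict_apply_univ]

theorem HW_avg [IsFiniteMeasure ν] (D : Family m Ω ν) {A₁ B₁ : ℝ} {H : Fin m → ℤ} {P₀ P : ℝ}
    (hH : ∀ j, |(H j : ℝ)| ≤ P₀) (hP₀ : 0 ≤ P₀) (hP : m * P₀ * D.M ≤ P)
    {J : ℕ} (hJ : 1 ≤ J) {T : ℝ} (hT : 1 + |D.A| + |D.B| ≤ T)
    (hgA : T / (J : ℝ) ^ 6 ≤ A₁ - D.A) (hgB : T / (J : ℝ) ^ 6 ≤ D.B - B₁)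
    {δ : ℝ} (hδ : (T + 1 + P / J) / J ≤ δ) {Z : ℕ} (hZ : P * T + 1 ≤ Z)
    {ε : ℝ} (hε : 0 ≤ ε)
    (hus : ∀ i j : ℤ, ((volume.restrict (Icc D.A D.B)).prod ν)
      {z : ℝ × Ω | |dot H (D.F z.1 z.2) - j * z.1 - i| < δ} ≤ ENNReal.ofReal ε) :
    ‖∑ c ∈ corners J A₁ B₁, ∫ ω, HW_f D H J c ω ∂ν‖ ≤ 2 * (J : ℝ) ^ 6 *
      (((J : ℝ) ^ 3 + 7 * P * T ^ 2) * (((corners J A₁ B₁).card / (J : ℝ) ^ 6) * ν.real univ) +
        (J : ℝ) ^ 4 * ((2 * Z + 1) ^ 2 * ((J : ℝ) ^ 6 * ε))) := by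
  have hJ0 : (0:ℝ) < J := by exact_mod_cast hJ
  have hP0 : 0 ≤ P := le_trans (by have := D.hM; positivity) hP
  set μ' := (volume.restrict (Icc D.A D.B)).prod ν with hμ'
  set S := ∑ c ∈ corners J A₁ B₁, ∫ ω, HW_f D H J c ω ∂ν with hSdef
  have h1 : ENNReal.ofReal (1 / (2 * (J : ℝ) ^ 6)) * ‖S‖ₑ ≤
      ∑ c ∈ corners J A₁ B₁, ENNReal.ofReal (1 / c.1) * ∫⁻ ω, ‖HW_f D H J c ω‖ₑ ∂ν := by
    calc ENNReal.ofReal (1 / (2 * (J : ℝ) ^ 6)) * ‖S‖ₑ
        ≤ ENNReal.ofReal (1 / (2 * (J : ℝ) ^ 6)) *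
          ∑ c ∈ corners J A₁ B₁, ∫⁻ ω, ‖HW_f D H J c ω‖ₑ ∂ν := by
          gcongr
          refine (enorm_sum_le _ _).trans (Finset.sum_le_sum fun c _ => ?_)
          exact enorm_integral_le_lintegral_enorm _
      _ ≤ _ := by
          rw [Finset.mul_sum]
          refine Finset.sum_le_sum fun c hc => ?_
          gcongr
          · exact (HW_Q_pos hJ hc).1
          · exact (HW_Q_pos hJ hc).2.2
  have h2 : ∑ c ∈ corners J A₁ B₁, ENNReal.ofReal (1 / c.1) * ∫⁻ ω, ‖HW_f D H J c ω‖ₑ ∂ν ≤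
      ENNReal.ofReal ((J : ℝ) ^ 3 + 7 * P * T ^ 2) *
        (((corners J A₁ B₁).card * ENNReal.ofReal (1 / (J : ℝ) ^ 6)) * ν univ) +
      ENNReal.ofReal ((J : ℝ) ^ 4) * ((2 * Z + 1) ^ 2 * ((J : ℝ≥0∞) ^ 6 * ENNReal.ofReal ε)) := by
    calc _ ≤ ∑ c ∈ corners J A₁ B₁,
          (ENNReal.ofReal ((J : ℝ) ^ 3 + 7 * P * T ^ 2) *
            (ENNReal.ofReal (1 / (J : ℝ) ^ 6) * ν univ) +
          ENNReal.ofReal ((J : ℝ) ^ 4) *
            ∑ p ∈ (Finset.Icc (-(Z : ℤ)) Z ×ˢ Finset.Icc (-(Z : ℤ)) Z),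
              μ' (HW_U D H δ p ∩ HW_S Ω c)) := by
          refine Finset.sum_le_sum fun c hc => ?_
          refine (HW_avg_one D hH hP₀ hP hJ hT hgA hgB hδ hZ hc).trans ?_
          gcongr
          exact (HW_Q_pos hJ hc).2.1
      _ ≤ _ := by
          rw [Finset.sum_add_distrib, Finset.sum_const, nsmul_eq_mul, ← Finset.mul_sum,
            Finset.sum_comm]
          refine add_le_add (le_of_eq (by ring)) ?_
          gcongr
          calc _ ≤ ∑ p ∈ (Finset.Icc (-(Z : ℤ)) Z ×ˢ Finset.Icc (-(Z : ℤ)) Z),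
                ((J : ℝ≥0∞) ^ 6 * ENNReal.ofReal ε) := by
                refine Finset.sum_le_sum fun p _ => ?_
                refine (HW_sum_U hJ A₁ B₁ μ' (HW_U_measurable D H δ p)).trans ?_
                gcongr
                exact hus p.1 p.2
            _ = _ := by
                rw [Finset.sum_const, nsmul_eq_mul, Finset.card_product, Int.card_Icc]
                congr 1
                have : ((Z : ℤ) + 1 - -(Z : ℤ)).toNat = 2 * Z + 1 := by omega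
                rw [this]
                push_cast; ring
  have h3 := h1.trans h2
  have hν : ν univ = ENNReal.ofReal (ν.real univ) := by
    rw [Measure.real, ENNReal.ofReal_toReal (measure_ne_top _ _)]
  have hcard : (((corners J A₁ B₁).card : ℕ) : ℝ≥0∞) = ENNReal.ofReal (corners J A₁ B₁).card := by
    rw [ENNReal.ofReal_natCast]
  have hZ' : ((2 * Z + 1) ^ 2 : ℝ≥0∞) = ENNReal.ofReal ((2 * Z + 1) ^ 2) := by
    rw [← Nat.cast_ofNat (R := ℝ), ← Nat.cast_mul, ← Nat.cast_add_one, ← Nat.cast_pow,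
      ENNReal.ofReal_natCast]
    push_cast; rfl
  have hJ6 : ((J : ℝ≥0∞) ^ 6) = ENNReal.ofReal ((J : ℝ) ^ 6) := by
    rw [ENNReal.ofReal_pow (Nat.cast_nonneg _), ENNReal.ofReal_natCast]
  rw [hν, hcard, hZ', hJ6, ← ofReal_norm, ← ENNReal.ofReal_mul (by positivity),
    ← ENNReal.ofReal_mul (by positivity), ← ENNReal.ofReal_mul (by positivity),
    ← ENNReal.ofReal_mul (by positivity), ← ENNReal.ofReal_mul (by positivity),
    ← ENNReal.ofReal_mul (by positivity), ← ENNReal.ofReal_mul (by positivity),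
    ← ENNReal.ofReal_add (by positivity) (by positivity)] at h3
  have h4 := (ENNReal.ofReal_le_ofReal_iff (by positivity)).1 h3
  rw [one_div, inv_mul_le_iff₀ (by positivity)] at h4
  refine h4.trans (le_of_eq ?_)
  ring

end MKG
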