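import Pool.Agent.MKG.Defs

open MeasureTheory Set Filter
open scoped BigOperators ENNReal Topology ComplexConjugate

namespace MKG

theorem LSP_e_add (x y : ℝ) : e (x + y) = e x * e y := by
  unfold e
  rw [← Complex.exp_add]
  congr 1
  push_cast
  ring

theorem LSP_norm_e (x : ℝ) : ‖e x‖ = 1 := by
  unfold e
  exact Complex.norm_exp_ofReal_mul_I _

theorem LSP_conj_e (x : ℝ) : conj (e x) = e (-x) := by
  unfold e
  rw [← Complex.exp_conj]
  congr 1
  rw [map_mul, Complex.conj_ofReal, Complex.conj_I]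
  push_cast
  ring

theorem LSP_continuous_e : Continuous e := by
  unfold e
  fun_prop

theorem LSP_e_zero : e 0 = 1 := by
  unfold e
  simp

/-- Main identity/inequality on the product space. -/
theorem LSP_core {G Y : Type*} [AddCommGroup G] [MeasurableSpace Y]
    (μ : Measure Y) [IsFiniteMeasure μ]
    (θ : G → Y → ℝ) (hθ : ∀ j, Measurable (θ j))
    (hadd : ∀ j k y, θ (j - k) y = θ j y - θ k y)
    (c : Y → ℂ) (hc : Measurable c) (hc1 : ∀ y, ‖c y‖ ≤ 1) (J : Finset G) :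
    ((∑ p ∈ J ×ˢ J, ‖∫ y, c y * e (θ (p.1 - p.2) y) ∂μ‖ ^ 2 : ℝ) : ℂ)
      = ∫ z : Y × Y, c z.1 * conj (c z.2) *
        ((∑ j ∈ J, e (θ j z.1 - θ j z.2)) * conj (∑ j ∈ J, e (θ j z.1 - θ j z.2)))
          ∂(μ.prod μ) := by
  have h1 : ∀ k : G, ((‖∫ y, c y * e (θ k y) ∂μ‖ ^ 2 : ℝ) : ℂ) =
      ∫ z : Y × Y, (c z.1 * e (θ k z.1)) * conj (c z.2 * e (θ k z.2)) ∂(μ.prod μ) := by
    intro k
    rw [integral_prod_mul (f := fun y => c y * e (θ k y))
      (g := fun y => conj (c y * e (θ k y))), integral_conj, Complex.mul_conj,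
      Complex.normSq_eq_norm_sq]
  have hme : ∀ k : G, Measurable (fun y => e (θ k y)) := fun k =>
    LSP_continuous_e.measurable.comp (hθ k)
  have hint : ∀ k : G, Integrable (fun z : Y × Y =>
      (c z.1 * e (θ k z.1)) * conj (c z.2 * e (θ k z.2))) (μ.prod μ) := by
    intro k
    have hm1 : Measurable (fun z : Y × Y => c z.1 * e (θ k z.1)) :=
      (hc.comp measurable_fst).mul ((hme k).comp measurable_fst)
    have hm2 : Measurable (fun z : Y × Y => conj (c z.2 * e (θ k z.2))) :=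
      Complex.continuous_conj.measurable.comp
        ((hc.comp measurable_snd).mul ((hme k).comp measurable_snd))
    refine Integrable.of_bound (hm1.mul hm2).aestronglyMeasurable 1
      (Filter.Eventually.of_forall fun z => ?_)
    rw [norm_mul, norm_mul, RCLike.norm_conj, norm_mul, LSP_norm_e, LSP_norm_e, mul_one, mul_one]
    exact mul_le_one₀ (hc1 _) (norm_nonneg _) (hc1 _)
  push_cast
  have h2 : ∀ p ∈ J ×ˢ J, ((‖∫ y, c y * e (θ (p.1 - p.2) y) ∂μ‖ : ℂ) ^ 2) =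
      ∫ z : Y × Y, (c z.1 * e (θ (p.1 - p.2) z.1)) * conj (c z.2 * e (θ (p.1 - p.2) z.2))
        ∂(μ.prod μ) := by
    intro p _
    have := h1 (p.1 - p.2)
    push_cast at this
    exact this
  rw [Finset.sum_congr rfl h2, ← integral_finsetSum _ (fun p _ => hint _)]
  congr 1
  funext z
  rw [map_sum, Finset.sum_mul_sum, Finset.mul_sum, Finset.sum_product]
  refine Finset.sum_congr rfl fun i _ => ?_
  rw [Finset.mul_sum]
  refine Finset.sum_congr rfl fun j _ => ?_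
  simp only
  rw [map_mul, LSP_conj_e, LSP_conj_e, hadd, hadd]
  have e1 : θ i z.1 - θ j z.1 = θ i z.1 + -(θ j z.1) := by ring
  have e2 : -(θ i z.2 - θ j z.2) = -θ i z.2 + θ j z.2 := by ring
  have e3 : θ i z.1 - θ i z.2 = θ i z.1 + -(θ i z.2) := by ring
  have e4 : -(θ j z.1 - θ j z.2) = -θ j z.1 + θ j z.2 := by ring
  rw [e1, e2, e3, e4, LSP_e_add, LSP_e_add, LSP_e_add, LSP_e_add]
  ring

/-! ### A. Large sieve positivity -/
theorem lsp {G Y : Type*} [AddCommGroup G] [DecidableEq G] [MeasurableSpace Y]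
    (μ : Measure Y) [IsFiniteMeasure μ]
    (θ : G → Y → ℝ) (hθ : ∀ j, Measurable (θ j))
    (hadd : ∀ j k y, θ (j - k) y = θ j y - θ k y)
    (c : Y → ℂ) (hc : Measurable c) (hc1 : ∀ y, ‖c y‖ ≤ 1)
    (J K : Finset G) (n₀ : ℕ) (T ε : ℝ)
    (hK : ∀ k ∈ K, n₀ ≤ ((J ×ˢ J).filter (fun p => p.1 - p.2 = k)).card)
    (hT : μ.real univ ≤ T) (hε0 : 0 ≤ ε)
    (hε : ∀ j ∈ J, ∀ j' ∈ J, j ≠ j' → ‖∫ y, e (θ (j - j') y) ∂μ‖ ≤ ε) :
    (n₀ : ℝ) * ∑ k ∈ K, ‖∫ y, c y * e (θ k y) ∂μ‖ ^ 2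
      ≤ J.card * T ^ 2 + (J.card : ℝ) ^ 2 * ε ^ 2 := by
  -- Step 1
  have s1 : (n₀ : ℝ) * ∑ k ∈ K, ‖∫ y, c y * e (θ k y) ∂μ‖ ^ 2 ≤
      ∑ p ∈ J ×ˢ J, ‖∫ y, c y * e (θ (p.1 - p.2) y) ∂μ‖ ^ 2 := by
    rw [Finset.mul_sum]
    calc ∑ k ∈ K, (n₀ : ℝ) * ‖∫ y, c y * e (θ k y) ∂μ‖ ^ 2
        ≤ ∑ k ∈ K, ∑ p ∈ (J ×ˢ J).filter (fun p => p.1 - p.2 = k),
            ‖∫ y, c y * e (θ (p.1 - p.2) y) ∂μ‖ ^ 2 := by
          refine Finset.sum_le_sum fun k hk => ?_
          have : ∑ p ∈ (J ×ˢ J).filter (fun p => p.1 - p.2 = k),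
              ‖∫ y, c y * e (θ (p.1 - p.2) y) ∂μ‖ ^ 2 =
              ∑ p ∈ (J ×ˢ J).filter (fun p => p.1 - p.2 = k),
                ‖∫ y, c y * e (θ k y) ∂μ‖ ^ 2 := by
            refine Finset.sum_congr rfl fun p hp => ?_
            rw [(Finset.mem_filter.1 hp).2]
          rw [this, Finset.sum_const, nsmul_eq_mul]
          exact mul_le_mul_of_nonneg_right (by exact_mod_cast hK k hk) (by positivity)
      _ ≤ ∑ p ∈ J ×ˢ J, ‖∫ y, c y * e (θ (p.1 - p.2) y) ∂μ‖ ^ 2 := by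
          rw [← Finset.sum_biUnion]
          · refine Finset.sum_le_sum_of_subset_of_nonneg ?_ fun _ _ _ => by positivity
            intro p hp
            rw [Finset.mem_biUnion] at hp
            obtain ⟨k, _, hk⟩ := hp
            exact (Finset.mem_filter.1 hk).1
          · intro k _ k' _ hkk'
            rw [Function.onFun, Finset.disjoint_left]
            intro p hp hp'
            exact hkk' ((Finset.mem_filter.1 hp).2.symm.trans (Finset.mem_filter.1 hp').2)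
  -- Step 2
  set S : Y × Y → ℂ := fun z => ∑ j ∈ J, e (θ j z.1 - θ j z.2) with hS
  have hSm : Measurable S := by
    refine Finset.measurable_sum _ fun j _ => ?_
    exact LSP_continuous_e.measurable.comp
      (((hθ j).comp measurable_fst).sub ((hθ j).comp measurable_snd))
  have hSb : ∀ z, ‖S z‖ ≤ J.card := fun z => by
    refine (norm_sum_le _ _).trans ?_
    simp [LSP_norm_e]
  have s2 : ∑ p ∈ J ×ˢ J, ‖∫ y, c y * e (θ (p.1 - p.2) y) ∂μ‖ ^ 2 ≤
      ∫ z : Y × Y, ‖S z‖ ^ 2 ∂(μ.prod μ) := by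
    have h := LSP_core μ θ hθ hadd c hc hc1 J
    have h' : |∑ p ∈ J ×ˢ J, ‖∫ y, c y * e (θ (p.1 - p.2) y) ∂μ‖ ^ 2| ≤
        ∫ z : Y × Y, ‖S z‖ ^ 2 ∂(μ.prod μ) := by
      have h3 := congrArg norm h
      rw [Complex.norm_real, Real.norm_eq_abs] at h3
      rw [h3]
      refine (norm_integral_le_integral_norm _).trans ?_
      refine integral_mono_of_nonneg (Filter.Eventually.of_forall fun _ => norm_nonneg _) ?_
        (Filter.Eventually.of_forall fun z => ?_)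
      · refine Integrable.of_bound (hSm.norm.pow_const 2).aestronglyMeasurable
          ((J.card : ℝ) ^ 2) (Filter.Eventually.of_forall fun z => ?_)
        rw [Real.norm_eq_abs, abs_of_nonneg (by positivity)]
        exact pow_le_pow_left₀ (norm_nonneg _) (hSb z) 2
      · simp only
        rw [norm_mul, norm_mul, norm_mul, RCLike.norm_conj, RCLike.norm_conj]
        have h5 : ‖c z.1‖ * ‖c z.2‖ ≤ 1 := mul_le_one₀ (hc1 _) (norm_nonneg _) (hc1 _)
        have h6 : (0 : ℝ) ≤ ‖S z‖ * ‖S z‖ := by positivity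
        calc ‖c z.1‖ * ‖c z.2‖ * (‖∑ j ∈ J, e (θ j z.1 - θ j z.2)‖ *
              ‖∑ j ∈ J, e (θ j z.1 - θ j z.2)‖) ≤ 1 * (‖S z‖ * ‖S z‖) :=
            mul_le_mul_of_nonneg_right h5 h6
          _ = ‖S z‖ ^ 2 := by ring
    exact (le_abs_self _).trans h'
  -- Step 3
  have s3 : ∫ z : Y × Y, ‖S z‖ ^ 2 ∂(μ.prod μ) =
      ∑ p ∈ J ×ˢ J, ‖∫ y, e (θ (p.1 - p.2) y) ∂μ‖ ^ 2 := by
    have h := LSP_core μ θ hθ hadd (fun _ => 1) measurable_const (fun _ => by simp) J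
    simp only [one_mul, map_one] at h
    have h2 : (∫ z : Y × Y, (S z * conj (S z)) ∂(μ.prod μ)) =
        ((∫ z : Y × Y, ‖S z‖ ^ 2 ∂(μ.prod μ) : ℝ) : ℂ) := by
      rw [← integral_complex_ofReal]
      congr 1
      funext z
      rw [Complex.mul_conj, Complex.normSq_eq_norm_sq]
    have h3 := h.trans h2
    exact_mod_cast h3.symm
  -- Step 4
  have hT0 : 0 ≤ T := le_trans measureReal_nonneg hT
  have s4 : ∑ p ∈ J ×ˢ J, ‖∫ y, e (θ (p.1 - p.2) y) ∂μ‖ ^ 2 ≤
      J.card * T ^ 2 + (J.card : ℝ) ^ 2 * ε ^ 2 := by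
    rw [Finset.sum_product]
    have h1 : ∀ i ∈ J, ∑ j ∈ J, ‖∫ y, e (θ ((i, j).1 - (i, j).2) y) ∂μ‖ ^ 2 ≤
        T ^ 2 + J.card * ε ^ 2 := by
      intro i hi
      rw [← Finset.add_sum_erase _ _ hi]
      refine add_le_add ?_ ?_
      · refine pow_le_pow_left₀ (norm_nonneg _) ?_ 2
        refine le_trans ?_ hT
        refine (norm_integral_le_integral_norm _).trans ?_
        simp [LSP_norm_e]
      · calc ∑ j ∈ J.erase i, ‖∫ y, e (θ (i - j) y) ∂μ‖ ^ 2
            ≤ ∑ _j ∈ J.erase i, ε ^ 2 := by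
              refine Finset.sum_le_sum fun j hj => ?_
              refine pow_le_pow_left₀ (norm_nonneg _) ?_ 2
              exact hε i hi j (Finset.mem_of_mem_erase hj) (Finset.ne_of_mem_erase hj).symm
          _ = (J.erase i).card * ε ^ 2 := by rw [Finset.sum_const, nsmul_eq_mul]
          _ ≤ J.card * ε ^ 2 := by
              refine mul_le_mul_of_nonneg_right ?_ (by positivity)
              exact_mod_cast Finset.card_le_card (Finset.erase_subset _ _)
    calc _ ≤ ∑ _i ∈ J, (T ^ 2 + J.card * ε ^ 2) := Finset.sum_le_sum h1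
      _ = J.card * T ^ 2 + (J.card : ℝ) ^ 2 * ε ^ 2 := by
          rw [Finset.sum_const, nsmul_eq_mul]; ring
  exact s1.trans (s2.trans (s3.le.trans s4))

end MKG
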