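import Pool.Agent.MKG.Exp
import Pool.Agent.MKG.Density

/-! # Local theorem, straightened version -/

open MeasureTheory Set Filter
open scoped BigOperators ENNReal Topology

namespace MKG

/-- `Π₊(q)`: product of the `|q_i|` over `q_i ≠ 0`. -/
noncomputable def PiPlus {n : ℕ} (q : Fin n → ℤ) : ℝ := ∏ i, if q i = 0 then 1 else |(q i : ℝ)|

/-- infinitely many solutions of `(∗)` at `x` -/
def Good {d n : ℕ} (f : (Fin d → ℝ) → (Fin n → ℝ)) (ψ : ℝ → ℝ) (x : Fin d → ℝ) : Prop :=
  {v : ℤ × (Fin n → ℤ) | |(v.1 : ℝ) + ∑ i, (v.2 i : ℝ) * f x i| < ψ (PiPlus v.2)}.Infinite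

def USat {d n : ℕ} (f : (Fin d → ℝ) → (Fin n → ℝ)) (S : Set (Fin d → ℝ)) (K : ℕ) (C : ℝ) : Prop :=
  ∀ c : Fin n → ℝ, (∃ i, 1 ≤ |c i|) → ∀ c₀ : ℝ, ∀ x : ℝ, 0 < x → x ≤ 1 →
      volume {y | y ∈ S ∧ |c₀ + ∑ i, c i * f y i| < x ^ K} ≤ ENNReal.ofReal (C * x)

/-- The statement of the core theorem for the parameter space `Fin d → ℝ`. -/
def CoreAt (m d : ℕ) : Prop :=
  ∀ (ν : Measure (Fin d → ℝ)) [IsFiniteMeasure ν] (D : Family (m + 1) (Fin d → ℝ) ν) (ψ : ℝ → ℝ)
    (_ : ∀ h, 0 < h → 0 < ψ h) (_ : AntitoneOn ψ (Ioi 0))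
    (_ : ¬ Summable (fun h : ℕ => (Real.log (h + 1)) ^ (m + 1) * ψ (h + 1))) (i₀ : ℕ),
    ENNReal.ofReal (10⁻¹ ^ 50 * (D.B - D.A)) * ν univ ≤ (volume.prod ν) {z : ℝ × (Fin d → ℝ) |
      z.1 ∈ Icc D.A D.B ∧ ∃ (p r : ℤ) (a : Fin (m + 1) → ℤ), (i₀ : ℤ) ≤ r ∧ (1 ≤ r) ∧
        (∀ j, 1 ≤ a j) ∧
        |lin (fun t => D.F t z.2) (p, r, a) z.1| < ψ ((r : ℝ) * ∏ j, (a j : ℝ))}

section ins

variable {d : ℕ}

/-- Insert the coordinate `t` at place `j`. -/
def Local_ins (j : Fin (d + 1)) (t : ℝ) (ω : Fin d → ℝ) : Fin (d + 1) → ℝ :=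
  Fin.insertNth (α := fun _ => ℝ) j t ω

@[simp] theorem Local_ins_same (j : Fin (d + 1)) (t : ℝ) (ω : Fin d → ℝ) :
    Local_ins j t ω j = t := Fin.insertNth_apply_same _ _ _

@[simp] theorem Local_ins_succAbove (j : Fin (d + 1)) (t : ℝ) (ω : Fin d → ℝ) (k : Fin d) :
    Local_ins j t ω (j.succAbove k) = ω k := Fin.insertNth_apply_succAbove _ _ _ _

theorem Local_ins_self (j : Fin (d + 1)) (w : Fin (d + 1) → ℝ) :
    Local_ins j (w j) (fun k => w (j.succAbove k)) = w := by
  funext l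
  rcases Fin.eq_self_or_eq_succAbove j l with h | ⟨k, h⟩
  · rw [h, Local_ins_same]
  · rw [h, Local_ins_succAbove]

theorem Local_mem_closedBall (j : Fin (d + 1)) {y : Fin (d + 1) → ℝ} {ρ : ℝ} (hρ : 0 ≤ ρ) (t : ℝ)
    (ω : Fin d → ℝ) : Local_ins j t ω ∈ Metric.closedBall y ρ ↔
      t ∈ Icc (y j - ρ) (y j + ρ) ∧ ω ∈ Metric.closedBall (fun k => y (j.succAbove k)) ρ := by
  rw [Metric.mem_closedBall, Metric.mem_closedBall, dist_pi_le_iff hρ, dist_pi_le_iff hρ,
    Fin.forall_iff_succAbove j]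
  simp only [Local_ins_same, Local_ins_succAbove]
  rw [Real.dist_eq, abs_le, mem_Icc]
  constructor
  · rintro ⟨⟨h1, h2⟩, h3⟩
    exact ⟨⟨by linarith, by linarith⟩, h3⟩
  · rintro ⟨⟨h1, h2⟩, h3⟩
    exact ⟨⟨by linarith, by linarith⟩, h3⟩

theorem Local_dist_ins (j : Fin (d + 1)) (t s : ℝ) (ω : Fin d → ℝ) :
    dist (Local_ins j t ω) (Local_ins j s ω) ≤ |t - s| := by
  rw [dist_pi_le_iff (abs_nonneg _), Fin.forall_iff_succAbove j]
  simp [Real.dist_eq]

theorem Local_ins_continuous (j : Fin (d + 1)) :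
    Continuous (fun z : ℝ × (Fin d → ℝ) => Local_ins j z.1 z.2) := by
  refine continuous_pi fun l => ?_
  rcases Fin.eq_self_or_eq_succAbove j l with h | ⟨k, h⟩
  · rw [h]; simp only [Local_ins_same]; exact continuous_fst
  · rw [h]; simp only [Local_ins_succAbove]; exact (continuous_apply k).comp continuous_snd

theorem Local_ins_hasDerivAt (j : Fin (d + 1)) (t : ℝ) (ω : Fin d → ℝ) :
    HasDerivAt (fun t => Local_ins j t ω) (Pi.single j 1) t := by
  rw [hasDerivAt_pi]
  intro l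
  rcases Fin.eq_self_or_eq_succAbove j l with h | ⟨k, h⟩
  · rw [h]; simp only [Local_ins_same, Pi.single_eq_same]; exact hasDerivAt_id t
  · rw [h]; simp only [Local_ins_succAbove]
    rw [Pi.single_eq_of_ne (Fin.succAbove_ne j k)]
    exact hasDerivAt_const t _

/-- The measurable equivalence `w ↦ (w j, (w l)_{l ≠ j})`. -/
theorem Local_preserving (j : Fin (d + 1)) : MeasurePreserving
    (MeasurableEquiv.piFinSuccAbove (fun _ : Fin (d + 1) => ℝ) j) volume
      ((volume : Measure ℝ).prod (volume : Measure (Fin d → ℝ))) :=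
  volume_preserving_piFinSuccAbove (fun _ => ℝ) j

theorem Local_equiv_apply (j : Fin (d + 1)) (w : Fin (d + 1) → ℝ) :
    MeasurableEquiv.piFinSuccAbove (fun _ : Fin (d + 1) => ℝ) j w
      = (w j, fun k => w (j.succAbove k)) := rfl

theorem Local_closedBall_preimage (j : Fin (d + 1)) {y : Fin (d + 1) → ℝ} {ρ : ℝ} (hρ : 0 ≤ ρ) :
    (MeasurableEquiv.piFinSuccAbove (fun _ : Fin (d + 1) => ℝ) j) ⁻¹'
      (Icc (y j - ρ) (y j + ρ) ×ˢ Metric.closedBall (fun k => y (j.succAbove k)) ρ)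
      = Metric.closedBall y ρ := by
  ext w
  rw [mem_preimage, Local_equiv_apply, mem_prod, ← Local_mem_closedBall j hρ, Local_ins_self]

end ins

theorem Local_taylor {g g' : ℝ → ℝ} {A B L : ℝ} (hL : 0 ≤ L)
    (hg : ∀ s ∈ Icc A B, HasDerivAt g (g' s) s)
    (hg' : ∀ s ∈ Icc A B, ∀ t ∈ Icc A B, |g' s - g' t| ≤ L * |s - t|)
    {t u : ℝ} (ht : t ∈ Icc A B) (hu : u ∈ Icc A B) :
    |g u - g t - (u - t) * g' t| ≤ L * (u - t) ^ 2 := by
  have hsub : uIcc t u ⊆ Icc A B := ordConnected_Icc.uIcc_subset ht hu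
  have h1 : ∀ s ∈ uIcc t u, HasDerivWithinAt (fun s => g s - s * g' t) (g' s - 1 * g' t)
      (uIcc t u) s := fun s hs =>
    ((hg s (hsub hs)).sub ((hasDerivAt_id s).mul_const (g' t))).hasDerivWithinAt
  have h2 : ∀ s ∈ uIcc t u, ‖g' s - 1 * g' t‖ ≤ L * |u - t| := by
    intro s hs
    rw [one_mul, Real.norm_eq_abs]
    refine (hg' s (hsub hs) t ht).trans ?_
    have h3 : |s - t| ≤ |u - t| := by
      have := abs_sub_left_of_mem_uIcc hs
      exact this
    exact mul_le_mul_of_nonneg_left h3 hL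
  have h3 := (convex_uIcc t u).norm_image_sub_le_of_norm_hasDerivWithin_le h1 h2 left_mem_uIcc
    right_mem_uIcc
  have h4 : (g u - u * g' t) - (g t - t * g' t) = g u - g t - (u - t) * g' t := by ring
  rw [h4, Real.norm_eq_abs, Real.norm_eq_abs] at h3
  calc |g u - g t - (u - t) * g' t| ≤ L * |u - t| * |u - t| := h3
    _ = L * (u - t) ^ 2 := by rw [mul_assoc, ← sq, sq_abs]

theorem Local_abs_le_norm {n : ℕ} (v : Fin n → ℝ) (k : Fin n) : |v k| ≤ ‖v‖ := by
  rw [← Real.norm_eq_abs]; exact norm_le_pi_norm v k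

theorem Local_exists_family {d m : ℕ} {h : (Fin (d + 1) → ℝ) → (Fin (m + 2) → ℝ)}
    {i : Fin (m + 2)} {j : Fin (d + 1)} {y : Fin (d + 1) → ℝ} {ρ : ℝ} (hρ : 0 < ρ)
    (hC2 : ∀ w ∈ Metric.closedBall y ρ, ContDiffAt ℝ 2 h w)
    (hi : ∀ w ∈ Metric.closedBall y ρ, h w i = w j) {K : ℕ} {C : ℝ} (hK : 1 ≤ K) (hC0 : 0 < C)
    (hus : USat h (Metric.closedBall y ρ) K C) :
    ∃ D : Family (m + 1) (Fin d → ℝ)
        (volume.restrict (Metric.closedBall (fun k => y (j.succAbove k)) ρ)),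
      D.A = y j - ρ ∧ D.B = y j + ρ ∧ ∀ w ∈ Metric.closedBall y ρ,
        D.F (w j) (fun k => w (j.succAbove k)) = fun k => h w (i.succAbove k) := by
  classical
  set cB := Metric.closedBall y ρ with hcB
  set cB' := Metric.closedBall (fun k => y (j.succAbove k)) ρ with hcB'
  have hcomp : IsCompact cB := isCompact_closedBall _ _
  have hcont : ContinuousOn h cB := fun w hw => (hC2 w hw).continuousAt.continuousWithinAt
  have hC1 : ∀ w ∈ cB, ContDiffAt ℝ 1 (fderiv ℝ h) w := fun w hw =>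
    (hC2 w hw).fderiv_right (by norm_num)
  have hcont' : ContinuousOn (fderiv ℝ h) cB := fun w hw =>
    (hC1 w hw).continuousAt.continuousWithinAt
  obtain ⟨M₁, hM₁⟩ := hcomp.exists_bound_of_continuousOn hcont
  obtain ⟨M₂, hM₂⟩ := hcomp.exists_bound_of_continuousOn hcont'
  obtain ⟨L, hL⟩ : ∃ L, LipschitzOnWith L (fderiv ℝ h) cB := by
    refine LocallyLipschitzOn.exists_lipschitzOnWith_of_compact hcomp ?_
    intro w hw
    obtain ⟨L, t, ht, hLt⟩ := (hC1 w hw).exists_lipschitzOnWith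
    exact ⟨L, t, mem_nhdsWithin_of_mem_nhds ht, hLt⟩
  set M : ℝ := max 1 (max M₁ (max M₂ L)) with hM
  have hM1 : 1 ≤ M := le_max_left _ _
  have hMM₁ : M₁ ≤ M := (le_max_left _ _).trans (le_max_right _ _)
  have hMM₂ : M₂ ≤ M :=
    ((le_max_left _ _).trans (le_max_right _ _)).trans (le_max_right _ _)
  have hML : (L : ℝ) ≤ M :=
    ((le_max_right _ _).trans (le_max_right _ _)).trans (le_max_right _ _)
  have hsingle : ‖(Pi.single j (1:ℝ) : Fin (d + 1) → ℝ)‖ ≤ 1 := by
    rw [Pi.norm_single]; simp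
  set R : Set (ℝ × (Fin d → ℝ)) := Icc (y j - ρ) (y j + ρ) ×ˢ cB' with hR
  have hRc : IsClosed R := isClosed_Icc.prod Metric.isClosed_closedBall
  have hRmem : ∀ z ∈ R, Local_ins j z.1 z.2 ∈ cB := fun z hz =>
    (Local_mem_closedBall j hρ.le z.1 z.2).2 hz
  set F : ℝ → (Fin d → ℝ) → Fin (m + 1) → ℝ := fun t ω k =>
    R.piecewise (fun z => h (Local_ins j z.1 z.2) (i.succAbove k)) (fun _ => 0) (t, ω) with hF
  set F' : ℝ → (Fin d → ℝ) → Fin (m + 1) → ℝ := fun t ω k =>
    if ω ∈ cB' then fderiv ℝ h (Local_ins j t ω) (Pi.single j 1) (i.succAbove k) else 0 with hF'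
  have hFin : ∀ t ω, (t, ω) ∈ R → F t ω = fun k => h (Local_ins j t ω) (i.succAbove k) := by
    intro t ω hz
    funext k
    simp only [hF]
    rw [piecewise_eq_of_mem _ _ _ hz]
  have hFout : ∀ t ω, (t, ω) ∉ R → F t ω = fun _ => 0 := by
    intro t ω hz
    funext k
    simp only [hF]
    rw [piecewise_eq_of_notMem _ _ _ hz]
  refine ⟨{ F := F, F' := F', A := y j - ρ, B := y j + ρ, M := M, K := K, C := C,
            hAB := by linarith, hM := hM1, hK := hK, hC := hC0,
            meas := ?_, curve := ?_, us := ?_ }, rfl, rfl, ?_⟩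
  · -- measurability
    intro k
    have h1 : ContinuousOn (fun z : ℝ × (Fin d → ℝ) => h (Local_ins j z.1 z.2) (i.succAbove k))
        R := by
      refine (continuous_apply _).comp_continuousOn ?_
      exact hcont.comp (Local_ins_continuous j).continuousOn hRmem
    exact ContinuousOn.measurable_piecewise h1 continuousOn_const hRc.measurableSet
  · -- curves
    intro ω
    by_cases hω : ω ∈ cB'
    · have hmem : ∀ t ∈ Icc (y j - ρ) (y j + ρ), (t, ω) ∈ R := fun t ht => ⟨ht, hω⟩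
      refine ⟨?_, ?_, ?_⟩
      · intro t ht k
        rw [hFin t ω (hmem t ht)]
        change |h (Local_ins j t ω) (i.succAbove k)| ≤ M
        have h1 := Local_abs_le_norm (h (Local_ins j t ω)) (i.succAbove k)
        have h2 := hM₁ _ (hRmem _ (hmem t ht))
        exact (h1.trans h2).trans hMM₁
      · intro t ht k
        simp only [hF', if_pos hω]
        have h0 := Local_abs_le_norm (fderiv ℝ h (Local_ins j t ω) (Pi.single j 1))
          (i.succAbove k)
        refine (h0.trans ?_).trans hMM₂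
        refine (ContinuousLinearMap.le_opNorm _ _).trans ?_
        have h1 := hM₂ _ (hRmem _ (hmem t ht))
        calc ‖fderiv ℝ h (Local_ins j t ω)‖ * ‖(Pi.single j (1:ℝ) : Fin (d + 1) → ℝ)‖
            ≤ M₂ * 1 := mul_le_mul h1 hsingle (norm_nonneg _) ((norm_nonneg _).trans h1)
          _ = M₂ := mul_one _
      · intro t ht u hu k
        simp only [hF', if_pos hω]
        rw [hFin t ω (hmem t ht), hFin u ω (hmem u hu)]
        refine Local_taylor (g := fun t => h (Local_ins j t ω) (i.succAbove k))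
          (g' := fun t => fderiv ℝ h (Local_ins j t ω) (Pi.single j 1) (i.succAbove k))
          (by linarith) ?_ ?_ ht hu
        · intro s hs
          have h1 : HasFDerivAt h (fderiv ℝ h (Local_ins j s ω)) (Local_ins j s ω) :=
            ((hC2 _ (hRmem _ (hmem s hs))).differentiableAt (by norm_num)).hasFDerivAt
          have h2 := h1.comp_hasDerivAt s (Local_ins_hasDerivAt j s ω)
          exact (hasDerivAt_pi.1 h2) (i.succAbove k)
        · intro s hs s' hs'
          have h1 := hL.dist_le_mul _ (hRmem _ (hmem s hs)) _ (hRmem _ (hmem s' hs'))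
          have h2 := Local_dist_ins j s s' ω
          have h3 : fderiv ℝ h (Local_ins j s ω) (Pi.single j 1) (i.succAbove k) -
              fderiv ℝ h (Local_ins j s' ω) (Pi.single j 1) (i.succAbove k)
              = ((fderiv ℝ h (Local_ins j s ω) - fderiv ℝ h (Local_ins j s' ω))
                (Pi.single j 1)) (i.succAbove k) := by simp
          rw [h3]
          have h0 := Local_abs_le_norm ((fderiv ℝ h (Local_ins j s ω) -
            fderiv ℝ h (Local_ins j s' ω)) (Pi.single j 1)) (i.succAbove k)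
          refine h0.trans ?_
          refine (ContinuousLinearMap.le_opNorm _ _).trans ?_
          rw [dist_eq_norm] at h1
          calc ‖fderiv ℝ h (Local_ins j s ω) - fderiv ℝ h (Local_ins j s' ω)‖ *
                ‖(Pi.single j (1:ℝ) : Fin (d + 1) → ℝ)‖
              ≤ (L * dist (Local_ins j s ω) (Local_ins j s' ω)) * 1 :=
                mul_le_mul h1 hsingle (norm_nonneg _) (by positivity)
            _ ≤ M * |s - s'| := by
                rw [mul_one]
                exact mul_le_mul hML h2 dist_nonneg (by linarith)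
    · have hout : ∀ t, F t ω = fun _ => 0 := fun t => hFout t ω (fun hz => hω hz.2)
      refine ⟨?_, ?_, ?_⟩
      · intro t _ k
        rw [hout]; simp only [abs_zero]; linarith
      · intro t _ k
        simp only [hF', if_neg hω, abs_zero]; linarith
      · intro t _ u _ k
        simp only [hF', if_neg hω, hout, sub_zero, mul_zero, abs_zero]
        positivity
  · -- sublevel estimate
    intro H hH i' j' x hx hx1
    have hprod : (volume.restrict (Icc (y j - ρ) (y j + ρ))).prod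
        ((volume : Measure (Fin d → ℝ)).restrict cB') =
        ((volume : Measure ℝ).prod (volume : Measure (Fin d → ℝ))).restrict R := by
      rw [Measure.prod_restrict]
    rw [hprod, Measure.restrict_apply' hRc.measurableSet,
      ← (Local_preserving j).measure_preimage_equiv]
    set c : Fin (m + 2) → ℝ := Fin.insertNth (α := fun _ => ℝ) i (-(j' : ℝ)) (fun k => (H k : ℝ))
      with hc
    have hcex : ∃ l, 1 ≤ |c l| := by
      obtain ⟨k, hk⟩ := Function.ne_iff.1 hH
      refine ⟨i.succAbove k, ?_⟩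
      rw [hc, Fin.insertNth_apply_succAbove]
      have : (1:ℤ) ≤ |H k| := Int.one_le_abs hk
      exact_mod_cast this
    refine (measure_mono ?_).trans (hus c hcex (-(i' : ℝ)) x hx hx1)
    rintro w ⟨hw1, hw2⟩
    have hwB : w ∈ cB := by
      have : w ∈ (MeasurableEquiv.piFinSuccAbove (fun _ : Fin (d + 1) => ℝ) j) ⁻¹' R := hw2
      rwa [hR, Local_closedBall_preimage j hρ.le] at this
    refine ⟨hwB, ?_⟩
    rw [Local_equiv_apply] at hw2
    have hw1' : |dot H (F (w j) (fun k => w (j.succAbove k))) - j' * w j - i'| < x ^ K := hw1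
    rw [hFin _ _ hw2, Local_ins_self] at hw1'
    have : -(i' : ℝ) + ∑ l, c l * h w l
        = dot H (fun k => h w (i.succAbove k)) - j' * w j - i' := by
      rw [Fin.sum_univ_succAbove _ i, hc]
      simp only [Fin.insertNth_apply_same, Fin.insertNth_apply_succAbove, dot]
      rw [hi w hwB]; ring
    rw [this]
    exact hw1'
  · intro w hw
    have hw' : (w j, fun k => w (j.succAbove k)) ∈ R := by
      rw [← Local_ins_self j w, Local_mem_closedBall j hρ.le] at hw
      exact hw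
    change F (w j) (fun k => w (j.succAbove k)) = _
    rw [hFin _ _ hw', Local_ins_self]

end MKG
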