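import Pool.Agent.MKG.LocalA

/-! # Local theorem, straightened version (2) -/

open MeasureTheory Set Filter
open scoped BigOperators ENNReal Topology

namespace MKG

/-- Points of `V` with a solution whose `i`-th coordinate is `≥ N`. -/
def Local_G {d n : ℕ} (h : (Fin d → ℝ) → (Fin n → ℝ)) (ψ : ℝ → ℝ) (V : Set (Fin d → ℝ)) (i : Fin n)
    (N : ℕ) : Set (Fin d → ℝ) :=
  {w | w ∈ V ∧ ∃ (p : ℤ) (q : Fin n → ℤ), (N : ℤ) ≤ q i ∧
    |(p : ℝ) + ∑ l, (q l : ℝ) * h w l| < ψ (PiPlus q)}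

theorem Local_G_isOpen {d n : ℕ} {h : (Fin d → ℝ) → (Fin n → ℝ)} {ψ : ℝ → ℝ}
    {V : Set (Fin d → ℝ)} (hV : IsOpen V) (hh : ContinuousOn h V) (i : Fin n) (N : ℕ) :
    IsOpen (Local_G h ψ V i N) := by
  have : Local_G h ψ V i N = ⋃ (p : ℤ), ⋃ (q : Fin n → ℤ), ⋃ (_ : (N : ℤ) ≤ q i),
      V ∩ (fun w => |(p : ℝ) + ∑ l, (q l : ℝ) * h w l|) ⁻¹' Iio (ψ (PiPlus q)) := by
    ext w
    simp only [Local_G, mem_ofPred_eq, mem_iUnion, mem_inter_iff, mem_preimage, mem_Iio,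
      exists_prop]
    constructor
    · rintro ⟨hw, p, q, h1, h2⟩
      exact ⟨p, q, h1, hw, h2⟩
    · rintro ⟨p, q, h1, hw, h2⟩
      exact ⟨hw, p, q, h1, h2⟩
  rw [this]
  refine isOpen_iUnion fun p => isOpen_iUnion fun q => isOpen_iUnion fun _ => ?_
  refine ContinuousOn.isOpen_inter_preimage ?_ hV isOpen_Iio
  refine ContinuousOn.abs (continuousOn_const.add ?_)
  refine continuousOn_finsetSum _ fun l _ => continuousOn_const.mul ?_
  exact (continuous_apply l).comp_continuousOn hh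

theorem Local_good_of_mem {d n : ℕ} {h : (Fin d → ℝ) → (Fin n → ℝ)} {ψ : ℝ → ℝ}
    {V : Set (Fin d → ℝ)} {i : Fin n} {w : Fin d → ℝ} (hw : ∀ N, w ∈ Local_G h ψ V i N) :
    Good h ψ w := by
  unfold Good
  intro hfin
  have him : ((fun v : ℤ × (Fin n → ℤ) => v.2 i) '' {v : ℤ × (Fin n → ℤ) |
      |(v.1 : ℝ) + ∑ i, (v.2 i : ℝ) * h w i| < ψ (PiPlus v.2)}).Finite := hfin.image _
  obtain ⟨b, hb⟩ := him.bddAbove
  obtain ⟨-, p, q, h1, h2⟩ := hw (b.toNat + 1)
  have h3 : q i ≤ b := hb ⟨(p, q), h2, rfl⟩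
  have h4 : b ≤ (b.toNat : ℤ) := Int.self_le_toNat b
  push_cast at h1
  linarith

theorem Local_lin {d m : ℕ} {h : (Fin (d + 1) → ℝ) → (Fin (m + 2) → ℝ)} {i : Fin (m + 2)}
    {j : Fin (d + 1)} {w : Fin (d + 1) → ℝ} (hi : h w i = w j)
    {F : ℝ → Fin (m + 1) → ℝ} (hF : F (w j) = fun k => h w (i.succAbove k)) (p r : ℤ)
    (a : Fin (m + 1) → ℤ) :
    lin F (p, r, a) (w j) = (p : ℝ) +
      ∑ l, ((Fin.insertNth (α := fun _ => ℤ) i r a l : ℤ) : ℝ) * h w l := by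
  rw [Fin.sum_univ_succAbove _ i]
  simp only [Fin.insertNth_apply_same, Fin.insertNth_apply_succAbove, lin, dot]
  rw [hi, hF]; ring

theorem Local_PiPlus {m : ℕ} (i : Fin (m + 2)) {r : ℤ} (hr : 1 ≤ r) {a : Fin (m + 1) → ℤ}
    (ha : ∀ k, 1 ≤ a k) :
    PiPlus (Fin.insertNth (α := fun _ => ℤ) i r a) = (r : ℝ) * ∏ k, (a k : ℝ) := by
  unfold PiPlus
  rw [Fin.prod_univ_succAbove _ i]
  simp only [Fin.insertNth_apply_same, Fin.insertNth_apply_succAbove]
  congr 1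
  · rw [if_neg (by omega), abs_of_nonneg (by exact_mod_cast (by omega : (0:ℤ) ≤ r))]
  · refine Finset.prod_congr rfl fun k _ => ?_
    have := ha k
    rw [if_neg (by omega), abs_of_nonneg (by exact_mod_cast (by omega : (0:ℤ) ≤ a k))]

theorem Local_proportion {d m : ℕ} (hcore : CoreAt m d)
    {h : (Fin (d + 1) → ℝ) → (Fin (m + 2) → ℝ)}
    {i : Fin (m + 2)} {j : Fin (d + 1)} {V : Set (Fin (d + 1) → ℝ)}
    {y : Fin (d + 1) → ℝ} {ρ : ℝ} (hρ : 0 < ρ) (hyV : Metric.closedBall y ρ ⊆ V)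
    (hC2 : ∀ w ∈ Metric.closedBall y ρ, ContDiffAt ℝ 2 h w)
    (hi : ∀ w ∈ Metric.closedBall y ρ, h w i = w j) {K : ℕ} {C : ℝ} (hK : 1 ≤ K) (hC0 : 0 < C)
    (hus : USat h (Metric.closedBall y ρ) K C) (ψ : ℝ → ℝ)
    (hpos : ∀ h, 0 < h → 0 < ψ h) (hanti : AntitoneOn ψ (Ioi 0))
    (hdiv : ¬ Summable (fun h : ℕ => (Real.log (h + 1)) ^ (m + 1) * ψ (h + 1))) (N : ℕ) :
    ENNReal.ofReal (10⁻¹ ^ 50) * volume (Metric.closedBall y ρ)
      ≤ volume (Local_G h ψ V i N ∩ Metric.closedBall y ρ) := by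
  obtain ⟨D, hDA, hDB, hDF⟩ := Local_exists_family (j := j) hρ hC2 hi hK hC0 hus
  have : IsFiniteMeasure ((volume : Measure (Fin d → ℝ)).restrict (Metric.closedBall (fun k => y (j.succAbove k)) ρ)) :=
    ⟨by rw [Measure.restrict_apply_univ]; exact measure_closedBall_lt_top⟩
  have h1 := hcore (volume.restrict (Metric.closedBall (fun k => y (j.succAbove k)) ρ)) D ψ hpos hanti hdiv N
  have hvol : volume (Metric.closedBall y ρ) = ENNReal.ofReal (D.B - D.A) * volume (Metric.closedBall (fun k => y (j.succAbove k)) ρ) := by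
    rw [← Local_closedBall_preimage j hρ.le, (Local_preserving j).measure_preimage_equiv,
      Measure.prod_prod, Real.volume_Icc, hDA, hDB]
  rw [hvol, ← mul_assoc, ← ENNReal.ofReal_mul (by positivity)]
  rw [Measure.restrict_apply_univ] at h1
  refine h1.trans ?_
  have hprod : (volume : Measure ℝ).prod ((volume : Measure (Fin d → ℝ)).restrict (Metric.closedBall (fun k => y (j.succAbove k)) ρ)) =
      ((volume : Measure ℝ).prod (volume : Measure (Fin d → ℝ))).restrict (univ ×ˢ (Metric.closedBall (fun k => y (j.succAbove k)) ρ)) := by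
    rw [← Measure.prod_restrict, Measure.restrict_univ]
  rw [hprod, Measure.restrict_apply' (MeasurableSet.univ.prod measurableSet_closedBall),
    ← (Local_preserving j).measure_preimage_equiv]
  refine measure_mono ?_
  rintro w ⟨hw1, hw2⟩
  obtain ⟨hwj, p, r, a, hNr, hr, ha, hlin⟩ := hw1
  rw [Local_equiv_apply] at hwj hlin hw2
  simp only at hwj hlin
  have hwB : w ∈ Metric.closedBall y ρ := by
    rw [← Local_ins_self j w, Local_mem_closedBall j hρ.le]
    rw [hDA, hDB] at hwj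
    exact ⟨hwj, hw2.2⟩
  refine ⟨⟨hyV hwB, p, Fin.insertNth (α := fun _ => ℤ) i r a, ?_, ?_⟩, hwB⟩
  · rw [Fin.insertNth_apply_same]; exact hNr
  · rw [Local_PiPlus i hr ha, ← Local_lin (F := fun t => D.F t (fun k => w (j.succAbove k)))
      (hi w hwB) (hDF w hwB)]
    exact hlin

theorem Local_straight {d m : ℕ} (hcore : CoreAt m d)
    {h : (Fin (d + 1) → ℝ) → (Fin (m + 2) → ℝ)}
    {i : Fin (m + 2)} {j : Fin (d + 1)} {V : Set (Fin (d + 1) → ℝ)} (hV : IsOpen V)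
    (hC2 : ∀ w ∈ V, ContDiffAt ℝ 2 h w) (hi : ∀ w ∈ V, h w i = w j)
    (hus : ∀ y ρ, 0 < ρ → Metric.closedBall y ρ ⊆ V →
      ∃ K C, 1 ≤ K ∧ 0 < C ∧ USat h (Metric.closedBall y ρ) K C) (ψ : ℝ → ℝ)
    (hpos : ∀ h, 0 < h → 0 < ψ h) (hanti : AntitoneOn ψ (Ioi 0))
    (hdiv : ¬ Summable (fun h : ℕ => (Real.log (h + 1)) ^ (m + 1) * ψ (h + 1))) :
    volume (V \ {w | Good h ψ w}) = 0 := by
  have hcont : ContinuousOn h V := fun w hw => (hC2 w hw).continuousAt.continuousWithinAt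
  set G : Set (Fin (d + 1) → ℝ) := ⋂ N, Local_G h ψ V i N with hG
  have hGm : MeasurableSet G :=
    MeasurableSet.iInter fun N => (Local_G_isOpen hV hcont i N).measurableSet
  have hanti' : Antitone (Local_G h ψ V i) := by
    rintro N N' hNN' w ⟨hw, p, q, h1, h2⟩
    exact ⟨hw, p, q, le_trans (by exact_mod_cast hNN') h1, h2⟩
  have hfull : volume (V \ G) = 0 := by
    refine full_of_proportion V hV G (10⁻¹ ^ 50) (by positivity) ?_ hGm
    intro y ρ hρ hyV
    obtain ⟨K, C, hK, hC0, hus'⟩ := hus y ρ hρ hyV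
    have hN : ∀ N, ENNReal.ofReal (10⁻¹ ^ 50) * volume (Metric.closedBall y ρ)
        ≤ volume (Local_G h ψ V i N ∩ Metric.closedBall y ρ) := fun N =>
      Local_proportion hcore (j := j) hρ hyV (fun w hw => hC2 w (hyV hw))
        (fun w hw => hi w (hyV hw)) hK hC0 hus' ψ hpos hanti hdiv N
    have hlim := tendsto_measure_iInter_atTop (μ := volume)
      (s := fun N => Local_G h ψ V i N ∩ Metric.closedBall y ρ)
      (fun N => ((Local_G_isOpen hV hcont i N).measurableSet.inter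
        measurableSet_closedBall).nullMeasurableSet)
      (fun N N' hNN' => inter_subset_inter_left _ (hanti' hNN'))
      ⟨0, ((measure_mono inter_subset_right).trans_lt measure_closedBall_lt_top).ne⟩
    have heq : (⋂ N, Local_G h ψ V i N ∩ Metric.closedBall y ρ) = G ∩ Metric.closedBall y ρ := by
      rw [hG, iInter_inter]
    rw [heq] at hlim
    exact ge_of_tendsto' hlim hN
  refine measure_mono_null ?_ hfull
  rintro w ⟨hwV, hwG⟩
  refine ⟨hwV, fun hwG' => hwG ?_⟩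
  exact Local_good_of_mem (fun N => mem_iInter.1 hwG' N)

end MKG
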