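import Pool.Agent.MKG.Exp

/-! # The measure `∑_{x ∈ S} δ_x ⊗ ν` on `α × Ω` -/

open MeasureTheory Set Filter
open scoped BigOperators ENNReal Topology

namespace MKG

variable {α Ω : Type*} [MeasurableSpace α] [MeasurableSpace Ω]

/-- `∑_{x ∈ S} δ_x ⊗ ν`. -/
noncomputable def PM (S : Finset α) (ν : Measure Ω) : Measure (α × Ω) :=
  ∑ x ∈ S, ν.map (fun ω => (x, ω))

theorem PM_univ (S : Finset α) (ν : Measure Ω) : PM S ν univ = S.card * ν univ := by
  unfold PM
  rw [Measure.finsetSum_apply]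
  simp only [Measure.map_apply measurable_prodMk_left MeasurableSet.univ, preimage_univ]
  simp

instance (S : Finset α) (ν : Measure Ω) [IsFiniteMeasure ν] : IsFiniteMeasure (PM S ν) := by
  constructor
  rw [PM_univ]
  exact ENNReal.mul_lt_top (ENNReal.natCast_lt_top _) (measure_lt_top _ _)

theorem PM_real_univ (S : Finset α) (ν : Measure Ω) :
    (PM S ν).real univ = S.card * ν.real univ := by
  simp [Measure.real, PM_univ, ENNReal.toReal_mul]

theorem integral_PM (S : Finset α) (ν : Measure Ω) [IsFiniteMeasure ν] {f : α × Ω → ℂ}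
    (hf : Measurable f) {C : ℝ} (hb : ∀ y, ‖f y‖ ≤ C) :
    ∫ y, f y ∂(PM S ν) = ∑ x ∈ S, ∫ ω, f (x, ω) ∂ν := by
  unfold PM
  rw [integral_finsetSum_measure]
  · refine Finset.sum_congr rfl fun x _ => ?_
    rw [integral_map measurable_prodMk_left.aemeasurable hf.aestronglyMeasurable]
  · intro x _
    have : IsFiniteMeasure (ν.map (fun ω : Ω => (x, ω))) := by infer_instance
    exact Integrable.of_bound hf.aestronglyMeasurable C (Eventually.of_forall hb)

theorem lintegral_PM (S : Finset α) (ν : Measure Ω) {f : α × Ω → ℝ≥0∞}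
    (hf : Measurable f) :
    ∫⁻ y, f y ∂(PM S ν) = ∑ x ∈ S, ∫⁻ ω, f (x, ω) ∂ν := by
  unfold PM
  rw [lintegral_finsetSum_measure]
  refine Finset.sum_congr rfl fun x _ => ?_
  rw [lintegral_map hf measurable_prodMk_left]

theorem integrable_of_bdd' {Y : Type*} [MeasurableSpace Y] (μ : Measure Y) [IsFiniteMeasure μ]
    {f : Y → ℂ} (hf : Measurable f) {C : ℝ} (hb : ∀ y, ‖f y‖ ≤ C) : Integrable f μ :=
  Integrable.of_bound hf.aestronglyMeasurable C (Eventually.of_forall hb)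

/-- Cauchy–Schwarz on a finite measure space. -/
theorem sq_norm_integral_le {Y : Type*} [MeasurableSpace Y] (μ : Measure Y) [IsFiniteMeasure μ]
    {f : Y → ℂ} (hf : Measurable f) {C : ℝ} (hb : ∀ y, ‖f y‖ ≤ C) :
    ‖∫ y, f y ∂μ‖ ^ 2 ≤ μ.real univ * ∫ y, ‖f y‖ ^ 2 ∂μ := by
  set g : Y → ℝ := fun y => ‖f y‖ with hg
  have hgm : Measurable g := hf.norm
  have hgi : Integrable g μ := (integrable_of_bdd' μ hf hb).norm
  have hg2 : Integrable (fun y => g y ^ 2) μ := by
    refine Integrable.of_bound (hgm.pow_const 2).aestronglyMeasurable (C ^ 2)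
      (Eventually.of_forall fun y => ?_)
    rw [Real.norm_eq_abs, abs_of_nonneg (by positivity)]
    exact pow_le_pow_left₀ (norm_nonneg _) (hb y) 2
  set T := μ.real univ with hT
  set I := ∫ y, g y ∂μ with hI
  have hI0 : 0 ≤ I := integral_nonneg fun y => norm_nonneg _
  have h1 : ‖∫ y, f y ∂μ‖ ≤ I := norm_integral_le_integral_norm _
  have h2 : ‖∫ y, f y ∂μ‖ ^ 2 ≤ I ^ 2 := pow_le_pow_left₀ (norm_nonneg _) h1 2
  refine h2.trans ?_
  have h3 : 0 ≤ ∫ y, (T * g y - I) ^ 2 ∂μ := integral_nonneg fun y => sq_nonneg _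
  have h4 : ∫ y, (T * g y - I) ^ 2 ∂μ = T ^ 2 * ∫ y, g y ^ 2 ∂μ - 2 * T * I * I + I ^ 2 * T := by
    have e1 : ∀ y, (T * g y - I) ^ 2 = T ^ 2 * g y ^ 2 - 2 * T * I * g y + I ^ 2 := fun y => by ring
    simp only [e1]
    rw [integral_add, integral_sub, integral_const_mul, integral_const_mul, integral_const]
    · simp only [smul_eq_mul]; ring
    · exact hg2.const_mul _
    · exact hgi.const_mul _
    · exact (hg2.const_mul _).sub (hgi.const_mul _)
    · exact integrable_const _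
  rw [h4] at h3
  by_cases hT0 : T = 0
  · have hμ : μ = 0 := by
      rw [hT, Measure.real, ENNReal.toReal_eq_zero_iff] at hT0
      rcases hT0 with h | h
      · exact Measure.measure_univ_eq_zero.mp h
      · exact absurd h (measure_ne_top _ _)
    simp [hI, hμ]
  · have hTpos : 0 < T := lt_of_le_of_ne measureReal_nonneg (Ne.symm hT0)
    have : 0 ≤ T * (T * ∫ y, g y ^ 2 ∂μ - I ^ 2) := by linarith [h3, sq_nonneg I]
    have := nonneg_of_mul_nonneg_right this hTpos
    linarith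

/-- Cauchy–Schwarz and opening the square. -/
theorem cs_expand {Y ι : Type*} [MeasurableSpace Y] (μ : Measure Y) [IsFiniteMeasure μ]
    (A : ι → Y → ℝ) (hA : ∀ j, Measurable (A j)) (J : Finset ι) :
    ‖∑ j ∈ J, ∫ y, e (A j y) ∂μ‖ ^ 2
      ≤ μ.real univ * ∑ j ∈ J, ∑ j' ∈ J, ‖∫ y, e (A j y - A j' y) ∂μ‖ := by
  have hei : ∀ j, Integrable (fun y => e (A j y)) μ := fun j =>
    integrable_of_bdd' μ (measurable_e.comp (hA j)) (C := 1) fun y => (norm_e _).le
  have hm : Measurable (fun y => ∑ j ∈ J, e (A j y)) :=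
    Finset.measurable_sum _ fun j _ => measurable_e.comp (hA j)
  have hb : ∀ y, ‖∑ j ∈ J, e (A j y)‖ ≤ (J.card : ℝ) := fun y => by
    refine (norm_sum_le _ _).trans ?_
    simp [norm_e]
  rw [← integral_finsetSum _ fun j _ => hei j]
  refine (sq_norm_integral_le μ hm hb).trans ?_
  refine mul_le_mul_of_nonneg_left ?_ measureReal_nonneg
  have hcomplex : ((∫ y, ‖∑ j ∈ J, e (A j y)‖ ^ 2 ∂μ : ℝ) : ℂ)
      = ∑ j ∈ J, ∑ j' ∈ J, ∫ y, e (A j y - A j' y) ∂μ := by
    rw [← integral_complex_ofReal]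
    have e1 : ∀ y, ((‖∑ j ∈ J, e (A j y)‖ ^ 2 : ℝ) : ℂ)
        = ∑ j ∈ J, ∑ j' ∈ J, e (A j y - A j' y) := by
      intro y
      rw [← Complex.normSq_eq_norm_sq, ← Complex.mul_conj, map_sum, Finset.sum_mul_sum]
      simp only [e_sub]
    simp only [e1]
    have hi : ∀ j j', Integrable (fun y => e (A j y - A j' y)) μ := fun j j' =>
      integrable_of_bdd' μ (measurable_e.comp ((hA j).sub (hA j'))) (C := 1) fun y => (norm_e _).le
    rw [integral_finsetSum _ fun j _ => integrable_finsetSum _ fun j' _ => hi j j']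
    exact Finset.sum_congr rfl fun j _ => integral_finsetSum _ fun j' _ => hi j j'
  have hn : ‖((∫ y, ‖∑ j ∈ J, e (A j y)‖ ^ 2 ∂μ : ℝ) : ℂ)‖
      ≤ ∑ j ∈ J, ∑ j' ∈ J, ‖∫ y, e (A j y - A j' y) ∂μ‖ := by
    rw [hcomplex]
    exact (norm_sum_le _ _).trans (Finset.sum_le_sum fun j _ => norm_sum_le _ _)
  rw [Complex.norm_real] at hn
  exact (le_abs_self _).trans hn

end MKG
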