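import Pool.Agent.MKG.Cells1
import Pool.Agent.MKG.PM
import Pool.Agent.MKG.LSP

/-! # The Fourier coefficients `μ̂(K₁, K₂)` and the large-sieve bound -/

open MeasureTheory Set Filter
open scoped BigOperators ENNReal Topology

namespace MKG

variable {m : ℕ} {Ω : Type*} [MeasurableSpace Ω] {ν : Measure Ω}

theorem Measurable.e_comp {α : Type*} [MeasurableSpace α] {f : α → ℝ} (hf : Measurable f) :
    Measurable (fun x => e (f x)) := measurable_e.comp hf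

/-- `μ̂(K₁, K₂)` -/
noncomputable def muhat (D : Family m Ω ν) (R : ℕ) (A B : ℝ) (K₁ K₂ : Fin m → ℤ) : ℂ :=
  ∑ ρ ∈ cells1 R A B, ∫ ω, e (dot K₁ (psi (fun t => D.F t ω) ρ.1)
    + dot K₂ (psi (fun t => D.F t ω) ρ.2)) ∂ν

theorem norm_muhat_le [IsFiniteMeasure ν] (D : Family m Ω ν) (R : ℕ) (A B : ℝ)
    (K₁ K₂ : Fin m → ℤ) : ‖muhat D R A B K₁ K₂‖ ≤ (cells1 R A B).card * ν.real univ := by
  unfold muhat
  refine (norm_sum_le _ _).trans ?_
  rw [← nsmul_eq_mul]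
  refine Finset.sum_le_card_nsmul _ _ _ fun ρ _ => ?_
  refine (norm_integral_le_of_norm_le_const (C := 1)
    (Eventually.of_forall fun ω => (norm_e _).le)).trans ?_
  simp

open Classical in
/-- the coefficient function -/
noncomputable def coef (D : Family m Ω ν) (R : ℕ) (A B : ℝ) (K₂ : Fin m → ℤ)
    (z : (ℤ × ℤ) × Ω) : ℂ :=
  if h : ∃ ρ ∈ cells1 R A B, ρ.1 = z.1 then
    e (dot K₂ (psi (fun t => D.F t z.2) h.choose.2)) else 0

theorem coef_of_mem (D : Family m Ω ν) {R : ℕ} (hR : 1 ≤ R) (A B : ℝ) (K₂ : Fin m → ℤ)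
    {ρ : Cell} (hρ : ρ ∈ cells1 R A B) (ω : Ω) :
    coef D R A B K₂ (ρ.1, ω) = e (dot K₂ (psi (fun t => D.F t ω) ρ.2)) := by
  have h : ∃ ρ' ∈ cells1 R A B, ρ'.1 = ρ.1 := ⟨ρ, hρ, rfl⟩
  unfold coef
  rw [dif_pos h]
  have h1 := h.choose_spec
  have : h.choose = ρ := cells1_inj_fst hR (mem_cells1.mp h1.1) (mem_cells1.mp hρ) h1.2
  rw [this]

theorem coef_of_not_mem (D : Family m Ω ν) {R : ℕ} (A B : ℝ) (K₂ : Fin m → ℤ)
    {x : ℤ × ℤ} (hx : ¬ ∃ ρ ∈ cells1 R A B, ρ.1 = x) (ω : Ω) :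
    coef D R A B K₂ (x, ω) = 0 := by
  unfold coef
  rw [dif_neg hx]

theorem norm_coef_le (D : Family m Ω ν) (R : ℕ) (A B : ℝ) (K₂ : Fin m → ℤ)
    (z : (ℤ × ℤ) × Ω) : ‖coef D R A B K₂ z‖ ≤ 1 := by
  unfold coef
  split_ifs
  · exact (norm_e _).le
  · simp

theorem measurable_coef (D : Family m Ω ν) (R : ℕ) (A B : ℝ) (K₂ : Fin m → ℤ) :
    Measurable (coef D R A B K₂) := by
  apply measurable_from_prod_countable_right
  intro x
  by_cases h : ∃ ρ ∈ cells1 R A B, ρ.1 = x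
  · have : (fun ω : Ω => coef D R A B K₂ (x, ω))
        = fun ω => e (dot K₂ (psi (fun t => D.F t ω) h.choose.2)) := by
      ext ω; unfold coef; rw [dif_pos h]
    rw [this]
    exact Measurable.e_comp (measurable_dot_psi D _ _)
  · have : (fun ω : Ω => coef D R A B K₂ (x, ω)) = fun _ => 0 := by
      ext ω; exact coef_of_not_mem D A B K₂ h ω
    rw [this]; exact measurable_const

theorem measurable_theta (D : Family m Ω ν) (K₁ : Fin m → ℤ) :
    Measurable (fun z : (ℤ × ℤ) × Ω => dot K₁ (psi (fun t => D.F t z.2) z.1)) := by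
  apply measurable_from_prod_countable_right
  intro x
  exact measurable_dot_psi D _ _

theorem integral_coef [IsFiniteMeasure ν] (D : Family m Ω ν) {R : ℕ} (hR : 1 ≤ R) (A B : ℝ)
    (K₁ K₂ : Fin m → ℤ) (Dp : Finset (ℤ × ℤ)) (hsub : ∀ ρ ∈ cells1 R A B, ρ.1 ∈ Dp) :
    ∫ z, coef D R A B K₂ z * e (dot K₁ (psi (fun t => D.F t z.2) z.1)) ∂(PM Dp ν)
      = muhat D R A B K₁ K₂ := by
  classical
  have hmeas : Measurable (fun z : (ℤ × ℤ) × Ω =>
      coef D R A B K₂ z * e (dot K₁ (psi (fun t => D.F t z.2) z.1))) :=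
    (measurable_coef D R A B K₂).mul (Measurable.e_comp (measurable_theta D K₁))
  rw [integral_PM Dp ν hmeas (C := 1)]
  · have hinj : Set.InjOn (fun ρ : Cell => ρ.1) (cells1 R A B) := by
      intro ρ hρ ρ' hρ' h
      exact cells1_inj_fst hR (mem_cells1.mp hρ) (mem_cells1.mp hρ') h
    have hsub' : (cells1 R A B).image (fun ρ : Cell => ρ.1) ⊆ Dp := by
      intro x hx
      obtain ⟨ρ, hρ, rfl⟩ := Finset.mem_image.mp hx
      exact hsub ρ hρ
    rw [← Finset.sum_subset hsub']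
    · rw [Finset.sum_image hinj]
      unfold muhat
      refine Finset.sum_congr rfl fun ρ hρ => ?_
      refine integral_congr_ae (Eventually.of_forall fun ω => ?_)
      simp only
      rw [coef_of_mem D hR A B K₂ hρ, ← e_add, add_comm]
    · intro x _ hx
      have hx' : ¬ ∃ ρ ∈ cells1 R A B, ρ.1 = x := fun ⟨ρ, hρ, h⟩ =>
        hx (Finset.mem_image.mpr ⟨ρ, hρ, h⟩)
      simp [coef_of_not_mem D A B K₂ hx']
  · intro z
    rw [norm_mul, norm_e, mul_one]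
    exact norm_coef_le D R A B K₂ z

/-- Large sieve bound for `μ̂`. -/
theorem muhat_lsp [IsFiniteMeasure ν] (D : Family m Ω ν) {R : ℕ} (hR : 1 ≤ R) (A B : ℝ)
    (Dp : Finset (ℤ × ℤ)) (hsub : ∀ ρ ∈ cells1 R A B, ρ.1 ∈ Dp)
    {G : Type*} [AddCommGroup G] [DecidableEq G] (Φ : G →+ (Fin m → ℤ)) (K₂ : Fin m → ℤ)
    (J K : Finset G) (n₀ : ℕ) (ε : ℝ) (hε0 : 0 ≤ ε)
    (hK : ∀ k ∈ K, n₀ ≤ ((J ×ˢ J).filter (fun p => p.1 - p.2 = k)).card)
    (hε : ∀ j ∈ J, ∀ j' ∈ J, j ≠ j' →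
      ‖∑ x ∈ Dp, ∫ ω, e (dot (Φ (j - j')) (psi (fun t => D.F t ω) x)) ∂ν‖ ≤ ε) :
    (n₀ : ℝ) * ∑ k ∈ K, ‖muhat D R A B (Φ k) K₂‖ ^ 2
      ≤ J.card * (Dp.card * ν.real univ) ^ 2 + (J.card : ℝ) ^ 2 * ε ^ 2 := by
  have h := lsp (PM Dp ν) (fun k z => dot (Φ k) (psi (fun t => D.F t z.2) z.1))
    (fun k => measurable_theta D _) (fun j k y => by simp only [map_sub, dot_sub_left])
    (coef D R A B K₂) (measurable_coef D R A B K₂) (norm_coef_le D R A B K₂)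
    J K n₀ (Dp.card * ν.real univ) ε hK (PM_real_univ _ _).le hε0 ?_
  · simpa only [integral_coef D hR A B _ K₂ Dp hsub] using h
  · intro j hj j' hj' hne
    rw [integral_PM Dp ν (Measurable.e_comp (measurable_theta D (Φ (j - j')))) (C := 1)
      (fun y => (norm_e _).le)]
    exact hε j hj j' hj' hne

end MKG
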