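import Pool.Agent.MKG.Exp

/-! # Parameters, block corners and the set `Dplus` -/

open MeasureTheory Set Filter
open scoped BigOperators ENNReal Topology

namespace MKG

/-- the base scale `X = 2^{300 k}` -/
def XX (k : ℕ) : ℕ := 2 ^ (300 * k)
/-- the auxiliary scale `J = X^{14 K}` -/
def JJ (K k : ℕ) : ℕ := (XX k) ^ (14 * K)
/-- the level-one scale `R = J^8` -/
def RR (K k : ℕ) : ℕ := (JJ K k) ^ 8
/-- the base `β = 2^{300 (112 K + 1)}` -/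
def bb (K : ℕ) : ℕ := 2 ^ (300 * (112 * K + 1))

theorem XX_mul_RR (K k : ℕ) : XX k * RR K k = (bb K) ^ k := by
  simp only [XX, RR, JJ, bb, ← pow_mul, ← pow_add]
  congr 1; ring

theorem XX_pos (k : ℕ) : 1 ≤ XX k := Nat.one_le_two_pow
theorem JJ_pos (K k : ℕ) : 1 ≤ JJ K k := Nat.one_le_pow _ _ (XX_pos k)
theorem RR_pos (K k : ℕ) : 1 ≤ RR K k := Nat.one_le_pow _ _ (JJ_pos K k)

theorem le_XX (k : ℕ) : 2 ^ k ≤ XX k := Nat.pow_le_pow_right (by norm_num) (by omega)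

theorem XX_le_JJ {K : ℕ} (hK : 1 ≤ K) (k : ℕ) : XX k ≤ JJ K k :=
  Nat.le_self_pow (by omega) _

theorem tendsto_XX : Tendsto XX atTop atTop :=
  tendsto_atTop_mono le_XX (tendsto_pow_atTop_atTop_of_one_lt (by norm_num))

theorem tendsto_JJ {K : ℕ} (hK : 1 ≤ K) : Tendsto (JJ K) atTop atTop :=
  tendsto_atTop_mono (XX_le_JJ hK) tendsto_XX

theorem tendsto_RR {K : ℕ} (hK : 1 ≤ K) : Tendsto (RR K) atTop atTop :=
  tendsto_atTop_mono (fun k => (Nat.le_self_pow (by norm_num) (JJ K k) : JJ K k ≤ RR K k))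
    (tendsto_JJ hK)

/-- block corners -/
def cornerSet (J : ℕ) (A B : ℝ) : Set (ℤ × ℤ) :=
  {c | (J : ℤ) ^ 6 ≤ c.1 ∧ c.1 < 2 * (J : ℤ) ^ 6 ∧ A * c.1 ≤ c.2 ∧ (c.2 : ℝ) ≤ B * c.1}

theorem cornerSet_finite (J : ℕ) (A B : ℝ) : (cornerSet J A B).Finite := by
  obtain ⟨Z, hZ⟩ := exists_nat_gt ((|A| + |B|) * (2 * (J : ℝ) ^ 6))
  have hsub : cornerSet J A B ⊆
      (Set.Icc (0 : ℤ) (2 * (J : ℤ) ^ 6)) ×ˢ (Set.Icc (-(Z : ℤ)) Z) := by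
    rintro ⟨q, b⟩ ⟨h1, h2, h3, h4⟩
    simp only at h1 h2 h3 h4
    have hJ : (0 : ℤ) ≤ (J : ℤ) ^ 6 := by positivity
    have hq : (0 : ℝ) ≤ q := by exact_mod_cast (hJ.trans h1)
    have hq' : (q : ℝ) ≤ 2 * (J : ℝ) ^ 6 := by exact_mod_cast h2.le
    have hbu : (b : ℝ) < Z := by
      have : B * q ≤ (|A| + |B|) * (2 * (J : ℝ) ^ 6) := by
        calc B * q ≤ |B| * q := mul_le_mul_of_nonneg_right (le_abs_self _) hq
          _ ≤ (|A| + |B|) * (2 * (J : ℝ) ^ 6) := by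
            apply mul_le_mul _ hq' hq (by positivity)
            linarith [abs_nonneg A]
      linarith
    have hbl : -(Z : ℝ) < b := by
      have : -((|A| + |B|) * (2 * (J : ℝ) ^ 6)) ≤ A * q := by
        have h : |A| * q ≤ (|A| + |B|) * (2 * (J : ℝ) ^ 6) := by
          apply mul_le_mul _ hq' hq (by positivity)
          linarith [abs_nonneg B]
        have h' : -(|A| * q) ≤ A * q := by
          rw [← neg_mul]; exact mul_le_mul_of_nonneg_right (neg_abs_le _) hq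
        linarith
      linarith
    have hbu' : b < Z := by exact_mod_cast hbu
    have hbl' : -(Z : ℤ) < b := by exact_mod_cast hbl
    simp only [Set.mem_prod, Set.mem_Icc]
    exact ⟨⟨hJ.trans h1, h2.le⟩, ⟨hbl'.le, hbu'.le⟩⟩
  exact Set.Finite.subset ((Set.finite_Icc _ _).prod (Set.finite_Icc _ _)) hsub

noncomputable def corners (J : ℕ) (A B : ℝ) : Finset (ℤ × ℤ) := (cornerSet_finite J A B).toFinset

theorem mem_corners {J : ℕ} {A B : ℝ} {c : ℤ × ℤ} : c ∈ corners J A B ↔ c ∈ cornerSet J A B := by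
  simp [corners]

/-- the points of all the blocks `J² c + [0, J²)²`, `c` a corner. -/
noncomputable def Dplus (J : ℕ) (A B : ℝ) : Finset (ℤ × ℤ) :=
  (corners J A B ×ˢ (Finset.Ico (0 : ℤ) ((J : ℤ) ^ 2) ×ˢ Finset.Ico (0 : ℤ) ((J : ℤ) ^ 2))).image
    (fun z => ((J : ℤ) ^ 2 * z.1.1 + z.2.1, (J : ℤ) ^ 2 * z.1.2 + z.2.2))

theorem Dplus_injOn (J : ℕ) (A B : ℝ) : Set.InjOn
    (fun z : (ℤ × ℤ) × (ℤ × ℤ) => ((J : ℤ) ^ 2 * z.1.1 + z.2.1, (J : ℤ) ^ 2 * z.1.2 + z.2.2))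
    (corners J A B ×ˢ (Finset.Ico (0 : ℤ) ((J : ℤ) ^ 2) ×ˢ Finset.Ico (0 : ℤ) ((J : ℤ) ^ 2)) :
      Finset ((ℤ × ℤ) × (ℤ × ℤ))) := by
  rintro ⟨⟨a, b⟩, ⟨i, j⟩⟩ h ⟨⟨a', b'⟩, ⟨i', j'⟩⟩ h' heq
  simp only [Finset.coe_product, Set.mem_prod, Finset.mem_coe, Finset.mem_Ico] at h h'
  simp only [Prod.mk.injEq] at heq
  obtain ⟨-, ⟨hi0, hi⟩, ⟨hj0, hj⟩⟩ := h
  obtain ⟨-, ⟨hi0', hi'⟩, ⟨hj0', hj'⟩⟩ := h'
  obtain ⟨e1, e2⟩ := heq
  have key : ∀ x y u v : ℤ, 0 ≤ u → u < (J : ℤ) ^ 2 → 0 ≤ v → v < (J : ℤ) ^ 2 →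
      (J : ℤ) ^ 2 * x + u = (J : ℤ) ^ 2 * y + v → x = y ∧ u = v := by
    intro x y u v hu0 hu hv0 hv hxy
    have hpos : (0 : ℤ) < (J : ℤ) ^ 2 := lt_of_le_of_lt hu0 hu
    have h1 : x - y < 1 := by nlinarith
    have h2 : -1 < x - y := by nlinarith
    have h3 : x = y := by omega
    subst h3
    exact ⟨rfl, by linarith⟩
  obtain ⟨r1, r2⟩ := key _ _ _ _ hi0 hi hi0' hi' e1
  obtain ⟨r3, r4⟩ := key _ _ _ _ hj0 hj hj0' hj' e2
  simp [r1, r2, r3, r4]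

end MKG
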