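import Pool.Agent.MKG.Muhat
import Pool.Agent.MKG.CellAux
import Pool.Agent.MKG.Params

/-! # The rank one Weyl bound -/

open MeasureTheory Set Filter
open scoped BigOperators ENNReal Topology

namespace MKG

variable {m : ℕ} {Ω : Type*} [MeasurableSpace Ω] {ν : Measure Ω}

/-- the main sum (with the linearised vertices) -/
noncomputable def WW (D : Family m Ω ν) (R X : ℕ) (A B : ℝ) (H₁ H₂ : Fin m → ℤ) : ℂ :=
  ∑ x ∈ cells1 X 1 2, muhat D R A B (x.1.1 • H₁ + x.2.1 • H₂) (x.1.2 • H₁ + x.2.2 • H₂)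

theorem diff_count1 (Y : ℕ) (k : ℤ) (hk : k ∈ Finset.Icc (-(Y : ℤ)) Y) :
    Y ≤ (((Finset.Ico (0 : ℤ) (2 * Y)) ×ˢ (Finset.Ico (0 : ℤ) (2 * Y))).filter
      (fun p => p.1 - p.2 = k)).card := by
  rw [Finset.mem_Icc] at hk
  have h : (Finset.range Y).card ≤ _ := Finset.card_le_card_of_injOn
    (s := Finset.range Y) (t := ((Finset.Ico (0 : ℤ) (2 * Y)) ×ˢ (Finset.Ico (0 : ℤ) (2 * Y))).filter
      (fun p => p.1 - p.2 = k))
    (fun i : ℕ => ((i : ℤ) + max k 0, (i : ℤ) + max (-k) 0)) ?_ ?_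
  · simpa using h
  · intro i hi
    simp only [Finset.coe_range, Set.mem_Iio] at hi
    simp only [Finset.coe_filter, Finset.mem_product, Finset.mem_Ico, Set.mem_ofPred_eq]
    rcases le_total 0 k with h0 | h0
    · rw [max_eq_left h0, max_eq_right (by omega)]
      omega
    · rw [max_eq_right h0, max_eq_left (by omega)]
      omega
  · intro i _ j _ hij
    simp only [Prod.mk.injEq] at hij
    omega

/-- one-dimensional large sieve along the multiples of `H₀` -/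
theorem sieve1 [IsFiniteMeasure ν] (D : Family m Ω ν) {R X k : ℕ} (hR : 1 ≤ R) (hk : 1 ≤ k)
    (hX : X = 2 ^ (300 * k)) (A B : ℝ) (Dp : Finset (ℤ × ℤ)) (hsub : ∀ ρ ∈ cells1 R A B, ρ.1 ∈ Dp)
    (T : ℝ) (hT : Dp.card * ν.real univ ≤ T * (R : ℝ) ^ 2) (hT0 : 0 ≤ T)
    (hHW : ∀ H : Fin m → ℤ, H ≠ 0 → (∀ j, |H j| ≤ (X : ℤ) ^ 3) →
      ‖∑ x ∈ Dp, ∫ ω, e (dot H (psi (fun t => D.F t ω) x)) ∂ν‖ ≤ (R : ℝ) ^ 2 / (X : ℝ) ^ 2)
    (H₀ : Fin m → ℤ) (hH₀ : H₀ ≠ 0) (hb : ∀ j, |H₀ j| ≤ 2 ^ (5 * k)) (K₂ : Fin m → ℤ) :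
    ∑ n ∈ Finset.Icc (-((12 * X * 2 ^ (5 * k) : ℕ) : ℤ)) ((12 * X * 2 ^ (5 * k) : ℕ) : ℤ),
      ‖muhat D R A B (n • H₀) K₂‖ ^ 2 ≤ (2 * T ^ 2 + 4) * (R : ℝ) ^ 4 := by
  set Y : ℕ := 12 * X * 2 ^ (5 * k) with hY
  have hXpos : 0 < X := by rw [hX]; positivity
  have hYpos : 0 < Y := by positivity
  have hYX : Y ≤ X ^ 2 := by
    rw [hY, hX, ← pow_mul]
    have h12 : 12 ≤ 2 ^ (4 * k) := by
      calc 12 ≤ 2 ^ 4 := by norm_num
        _ ≤ 2 ^ (4 * k) := Nat.pow_le_pow_right (by norm_num) (by omega)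
    calc 12 * 2 ^ (300 * k) * 2 ^ (5 * k) ≤ 2 ^ (4 * k) * 2 ^ (300 * k) * 2 ^ (5 * k) := by gcongr
      _ = 2 ^ (309 * k) := by rw [← pow_add, ← pow_add]; congr 1; ring
      _ ≤ 2 ^ (300 * k * 2) := Nat.pow_le_pow_right (by norm_num) (by omega)
  have hYX' : 2 * Y * 2 ^ (5 * k) ≤ X ^ 3 := by
    rw [hY, hX, ← pow_mul]
    have h12 : 24 ≤ 2 ^ (5 * k) := by
      calc 24 ≤ 2 ^ 5 := by norm_num
        _ ≤ 2 ^ (5 * k) := Nat.pow_le_pow_right (by norm_num) (by omega)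
    calc 2 * (12 * 2 ^ (300 * k) * 2 ^ (5 * k)) * 2 ^ (5 * k)
        = 24 * (2 ^ (300 * k) * 2 ^ (5 * k) * 2 ^ (5 * k)) := by ring
      _ ≤ 2 ^ (5 * k) * (2 ^ (300 * k) * 2 ^ (5 * k) * 2 ^ (5 * k)) := by gcongr
      _ = 2 ^ (315 * k) := by rw [← pow_add, ← pow_add, ← pow_add]; congr 1; ring
      _ ≤ 2 ^ (300 * k * 3) := Nat.pow_le_pow_right (by norm_num) (by omega)
  have h := muhat_lsp D hR A B Dp hsub (G := ℤ) ((zmultiplesHom (Fin m → ℤ)) H₀) K₂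
    (Finset.Ico (0 : ℤ) (2 * Y)) (Finset.Icc (-(Y : ℤ)) Y) Y ((R : ℝ) ^ 2 / (X : ℝ) ^ 2)
    (by positivity) (fun n hn => diff_count1 Y n hn) ?_
  · simp only [zmultiplesHom_apply] at h
    have hcard : ((Finset.Ico (0 : ℤ) (2 * Y)).card : ℝ) = 2 * Y := by
      rw [Int.card_Ico]
      have : (2 * (Y : ℤ) - 0).toNat = 2 * Y := by
        have : 2 * (Y : ℤ) - 0 = ((2 * Y : ℕ) : ℤ) := by push_cast; ring
        rw [this, Int.toNat_natCast]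
      rw [this]; push_cast; ring
    rw [hcard] at h
    set SS := ∑ n ∈ Finset.Icc (-(Y : ℤ)) (Y : ℤ), ‖muhat D R A B (n • H₀) K₂‖ ^ 2 with hSS
    have hYr : (0 : ℝ) < Y := by exact_mod_cast hYpos
    have hXr : (0 : ℝ) < X := by exact_mod_cast hXpos
    have h1 : (Dp.card * ν.real univ) ^ 2 ≤ (T * (R : ℝ) ^ 2) ^ 2 :=
      pow_le_pow_left₀ (by positivity) hT 2
    have h2 : (2 * (Y : ℝ)) ^ 2 * ((R : ℝ) ^ 2 / (X : ℝ) ^ 2) ^ 2 ≤ 4 * Y * (R : ℝ) ^ 4 := by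
      have hYX2 : (Y : ℝ) ≤ (X : ℝ) ^ 4 := by
        have h3 : Y ≤ X ^ 4 := hYX.trans (Nat.pow_le_pow_right hXpos (by norm_num))
        exact_mod_cast h3
      rw [div_pow, ← pow_mul, ← pow_mul]
      rw [← mul_div_assoc, div_le_iff₀ (by positivity)]
      calc (2 * (Y : ℝ)) ^ 2 * (R : ℝ) ^ (2 * 2) = 4 * (Y : ℝ) * (R : ℝ) ^ 4 * (Y : ℝ) := by ring
        _ ≤ 4 * (Y : ℝ) * (R : ℝ) ^ 4 * (X : ℝ) ^ 4 := by gcongr
        _ = _ := by ring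
    have h3 : (Y : ℝ) * SS ≤ Y * ((2 * T ^ 2 + 4) * (R : ℝ) ^ 4) := by
      calc (Y : ℝ) * SS ≤ 2 * Y * (Dp.card * ν.real univ) ^ 2 +
            (2 * (Y : ℝ)) ^ 2 * ((R : ℝ) ^ 2 / (X : ℝ) ^ 2) ^ 2 := h
        _ ≤ 2 * Y * (T * (R : ℝ) ^ 2) ^ 2 + 4 * Y * (R : ℝ) ^ 4 := by gcongr
        _ = _ := by ring
    exact le_of_mul_le_mul_left h3 hYr
  · intro j hj j' hj' hne
    simp only [zmultiplesHom_apply]
    apply hHW
    · intro h0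
      rcases smul_eq_zero.mp h0 with h1 | h1
      · exact hne (by omega)
      · exact hH₀ h1
    · intro i
      rw [Finset.mem_Ico] at hj hj'
      simp only [Pi.smul_apply, smul_eq_mul, abs_mul]
      have h1 : |j - j'| ≤ 2 * Y := by rw [abs_le]; constructor <;> omega
      calc |j - j'| * |H₀ i| ≤ (2 * Y) * 2 ^ (5 * k) :=
            mul_le_mul h1 (hb i) (abs_nonneg _) (by positivity)
        _ ≤ (X : ℤ) ^ 3 := by exact_mod_cast hYX'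

theorem card_cells1_le_Dp {R : ℕ} (hR : 1 ≤ R) (A B : ℝ) (Dp : Finset (ℤ × ℤ))
    (hsub : ∀ ρ ∈ cells1 R A B, ρ.1 ∈ Dp) : (cells1 R A B).card ≤ Dp.card :=
  Finset.card_le_card_of_injOn (fun ρ => ρ.1) hsub fun _ hx _ hy hxy =>
    cells1_inj_fst hR (mem_cells1.mp hx) (mem_cells1.mp hy) hxy

theorem norm_muhat_le' [IsFiniteMeasure ν] (D : Family m Ω ν) {R : ℕ} (hR : 1 ≤ R) (A B : ℝ)
    (Dp : Finset (ℤ × ℤ)) (hsub : ∀ ρ ∈ cells1 R A B, ρ.1 ∈ Dp) (T : ℝ)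
    (hT : Dp.card * ν.real univ ≤ T * (R : ℝ) ^ 2) (K₁ K₂ : Fin m → ℤ) :
    ‖muhat D R A B K₁ K₂‖ ≤ T * (R : ℝ) ^ 2 := by
  refine (norm_muhat_le D R A B K₁ K₂).trans (le_trans ?_ hT)
  have := card_cells1_le_Dp hR A B Dp hsub
  gcongr

theorem ww_rank1_aux [IsFiniteMeasure ν] (D : Family m Ω ν) {R X k : ℕ} (hR : 1 ≤ R) (hk : 1 ≤ k)
    (hX : X = 2 ^ (300 * k)) (A B : ℝ) (Dp : Finset (ℤ × ℤ)) (hsub : ∀ ρ ∈ cells1 R A B, ρ.1 ∈ Dp)
    (T : ℝ) (hT : Dp.card * ν.real univ ≤ T * (R : ℝ) ^ 2) (hT0 : 0 ≤ T)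
    (hHW : ∀ H : Fin m → ℤ, H ≠ 0 → (∀ j, |H j| ≤ (X : ℤ) ^ 3) →
      ‖∑ x ∈ Dp, ∫ ω, e (dot H (psi (fun t => D.F t ω) x)) ∂ν‖ ≤ (R : ℝ) ^ 2 / (X : ℝ) ^ 2)
    (H₀ : Fin m → ℤ) (hH₀ : H₀ ≠ 0) (hb : ∀ j, |H₀ j| ≤ 2 ^ (5 * k)) (h₁ h₂ : ℤ)
    (hh : h₁ ≠ 0 ∨ h₂ ≠ 0) (hh₁ : |h₁| ≤ 2 ^ (5 * k)) (hh₂ : |h₂| ≤ 2 ^ (5 * k)) :
    ‖WW D R X A B (h₁ • H₀) (h₂ • H₀)‖
      ≤ 200 * (T + 1) * (R : ℝ) ^ 2 * (X : ℝ) ^ 2 / 2 ^ (14 * k) := by
  classical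
  have hXpos : 1 ≤ X := by rw [hX]; exact Nat.one_le_two_pow
  have hXr : (1 : ℝ) ≤ X := by exact_mod_cast hXpos
  have hRr : (1 : ℝ) ≤ R := by exact_mod_cast hR
  set κ : Cell → ℤ × ℤ := fun x => (h₁ * x.1.1 + h₂ * x.2.1, h₁ * x.1.2 + h₂ * x.2.2) with hκ
  set f : ℤ × ℤ → ℝ := fun y => ‖muhat D R A B (y.1 • H₀) (y.2 • H₀)‖ with hf
  have hWW : ‖WW D R X A B (h₁ • H₀) (h₂ • H₀)‖ ≤ ∑ x ∈ cells1 X 1 2, f (κ x) := by
    unfold WW
    refine (norm_sum_le _ _).trans (le_of_eq (Finset.sum_congr rfl fun x _ => ?_))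
    simp only [hf, hκ]
    congr 2 <;> · rw [smul_smul, smul_smul, ← add_smul]; congr 1; ring
  refine hWW.trans ?_
  -- split
  set S := cells1 X 1 2 with hS
  set Y₀ : ℕ := 2 ^ (100 * k) with hY₀
  set Y₁ : ℕ := 12 * X * 2 ^ (5 * k) with hY₁
  have hκdet : ∀ x ∈ S, x.1.1 * (κ x).2 - x.1.2 * (κ x).1 = h₂ := by
    intro x hx
    have hu := (cell12_bounds hXpos (mem_cells1.mp hx)).2.2.2.2.2.2.2.2
    simp only [hκ]
    linear_combination h₂ * hu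
  have hκ0 : ∀ x ∈ S, κ x ≠ 0 := by
    intro x hx h0
    have h1 := hκdet x hx
    rw [h0] at h1
    simp only [Prod.fst_zero, Prod.snd_zero, mul_zero, sub_zero] at h1
    have h10 : h₁ ≠ 0 := by
      rcases hh with h | h
      · exact h
      · exact absurd h1.symm h
    have h2 : h₁ * x.1.1 + h₂ * x.2.1 = 0 := congrArg Prod.fst h0
    rw [← h1, zero_mul, add_zero] at h2
    have h3 := (cell12_bounds hXpos (mem_cells1.mp hx)).1
    rcases mul_eq_zero.mp h2 with h | h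
    · exact h10 h
    · have : (1 : ℤ) ≤ X := by exact_mod_cast hXpos
      omega
  have hκbox : ∀ x ∈ S, |(κ x).1| ≤ Y₁ ∧ |(κ x).2| ≤ Y₁ := by
    intro x hx
    obtain ⟨b1, b2, b3, b4, b5, b6, b7, b8, -⟩ := cell12_bounds hXpos (mem_cells1.mp hx)
    have hX0 : (1 : ℤ) ≤ X := by exact_mod_cast hXpos
    have e1 : |x.1.1| ≤ 4 * X := by rw [abs_le]; constructor <;> omega
    have e2 : |x.1.2| ≤ 4 * X := by rw [abs_le]; constructor <;> omega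
    have e3 : |x.2.1| ≤ 6 * X := by rw [abs_le]; constructor <;> omega
    have e4 : |x.2.2| ≤ 6 * X := by rw [abs_le]; constructor <;> omega
    have key : ∀ u v : ℤ, |u| ≤ 4 * X → |v| ≤ 6 * X → |h₁ * u + h₂ * v| ≤ Y₁ := by
      intro u v hu hv
      calc |h₁ * u + h₂ * v| ≤ |h₁| * |u| + |h₂| * |v| := by
            rw [← abs_mul, ← abs_mul]; exact abs_add_le _ _
        _ ≤ 2 ^ (5 * k) * (4 * X) + 2 ^ (5 * k) * (6 * X) := by
            gcongr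
        _ ≤ Y₁ := by
            rw [hY₁]; push_cast
            nlinarith [show (0 : ℤ) < 2 ^ (5 * k) by positivity]
    exact ⟨key _ _ e1 e3, key _ _ e2 e4⟩
  rw [← Finset.sum_filter_add_sum_filter_not S (fun x => max |(κ x).1| |(κ x).2| < (Y₀ : ℤ))]
  -- small part
  have hsmall : ∑ x ∈ S.filter (fun x => max |(κ x).1| |(κ x).2| < (Y₀ : ℤ)), f (κ x)
      ≤ 36 * T * (R : ℝ) ^ 2 * (X : ℝ) ^ 2 / 2 ^ (14 * k) := by
    have hcard : (S.filter (fun x => max |(κ x).1| |(κ x).2| < (Y₀ : ℤ))).card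
        ≤ (2 * (4 * X * 2 ^ (5 * k)) + 1) * (4 * Y₀ ^ 2) := by
      have h1 := card_le_of_fiber (S.filter (fun x => max |(κ x).1| |(κ x).2| < (Y₀ : ℤ)))
        (((Finset.Ioo (-(Y₀ : ℤ)) Y₀ ×ˢ Finset.Ioo (-(Y₀ : ℤ)) Y₀)).erase 0) κ ?_
        (2 * (4 * X * 2 ^ (5 * k)) + 1) ?_
      · refine h1.trans (Nat.mul_le_mul_left _ ?_)
        refine (Finset.card_erase_le).trans ?_
        rw [Finset.card_product, Int.card_Ioo]
        have : ((Y₀ : ℤ) - -(Y₀ : ℤ) - 1).toNat ≤ 2 * Y₀ := by omega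
        calc _ ≤ (2 * Y₀) * (2 * Y₀) := Nat.mul_le_mul this this
          _ = 4 * Y₀ ^ 2 := by ring
      · intro x hx
        rw [Finset.mem_filter, max_lt_iff, abs_lt, abs_lt] at hx
        rw [Finset.mem_erase, Finset.mem_product, Finset.mem_Ioo, Finset.mem_Ioo]
        exact ⟨hκ0 x hx.1, hx.2.1, hx.2.2⟩
      · intro y hy
        have hy0 : y ≠ 0 := (Finset.mem_erase.mp hy).1
        rw [Finset.filter_filter]
        refine (Finset.card_le_card ?_).trans (mult_rank1 hXpos h₁ h₂ hh y (4 * X * 2 ^ (5 * k)) ?_)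
        · intro x hx
          rw [Finset.mem_filter] at hx ⊢
          exact ⟨hx.1, hx.2.2⟩
        · have hmax : 1 ≤ max |y.1| |y.2| := by
            by_contra hcon
            push Not at hcon
            have hh1 := lt_of_le_of_lt (le_max_left |y.1| |y.2|) hcon
            have hh2 := lt_of_le_of_lt (le_max_right |y.1| |y.2|) hcon
            apply hy0
            apply Prod.ext
            · simpa using Int.abs_lt_one_iff.mp hh1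
            · simpa using Int.abs_lt_one_iff.mp hh2
          push_cast
          have h4 : 4 * (X : ℤ) * |h₂| ≤ 4 * X * 2 ^ (5 * k) := by gcongr
          have h5 : (0 : ℤ) ≤ 4 * X * 2 ^ (5 * k) + 1 := by positivity
          nlinarith
    have h2 : ∑ x ∈ S.filter (fun x => max |(κ x).1| |(κ x).2| < (Y₀ : ℤ)), f (κ x)
        ≤ ((S.filter (fun x => max |(κ x).1| |(κ x).2| < (Y₀ : ℤ))).card : ℝ) * (T * (R : ℝ) ^ 2) := by
      rw [← nsmul_eq_mul]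
      exact Finset.sum_le_card_nsmul _ _ _ fun x _ => norm_muhat_le' D hR A B Dp hsub T hT _ _
    refine h2.trans ?_
    have h3 : ((S.filter (fun x => max |(κ x).1| |(κ x).2| < (Y₀ : ℤ))).card : ℝ)
        ≤ (2 * (4 * X * 2 ^ (5 * k)) + 1) * (4 * (Y₀ : ℝ) ^ 2) := by exact_mod_cast hcard
    rw [le_div_iff₀ (by positivity)]
    have h4 : (2 * (4 * (X : ℝ) * 2 ^ (5 * k)) + 1) ≤ 9 * X * 2 ^ (5 * k) := by
      have : (1 : ℝ) ≤ X * 2 ^ (5 * k) := one_le_mul_of_one_le_of_one_le hXr (one_le_pow₀ (by norm_num))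
      linarith
    have h5 : (2 : ℝ) ^ (5 * k) * (Y₀ : ℝ) ^ 2 * 2 ^ (14 * k) ≤ X := by
      rw [hY₀, hX]; push_cast
      rw [← pow_mul, ← pow_add, ← pow_add]
      exact pow_le_pow_right₀ (by norm_num) (by omega)
    calc _ ≤ ((2 * (4 * (X : ℝ) * 2 ^ (5 * k)) + 1) * (4 * (Y₀ : ℝ) ^ 2)) * (T * (R : ℝ) ^ 2) * 2 ^ (14 * k) := by
          gcongr
      _ ≤ ((9 * X * 2 ^ (5 * k)) * (4 * (Y₀ : ℝ) ^ 2)) * (T * (R : ℝ) ^ 2) * 2 ^ (14 * k) := by gcongr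
      _ = 36 * T * (R : ℝ) ^ 2 * X * (2 ^ (5 * k) * (Y₀ : ℝ) ^ 2 * 2 ^ (14 * k)) := by ring
      _ ≤ 36 * T * (R : ℝ) ^ 2 * X * X := by gcongr
      _ = _ := by ring
  -- large part
  have hlarge : ∑ x ∈ S.filter (fun x => ¬ max |(κ x).1| |(κ x).2| < (Y₀ : ℤ)), f (κ x)
      ≤ 100 * (T + 1) * (R : ℝ) ^ 2 * (X : ℝ) ^ 2 / 2 ^ (14 * k) := by
    set S' := S.filter (fun x => ¬ max |(κ x).1| |(κ x).2| < (Y₀ : ℤ)) with hS'
    have hcs : (∑ x ∈ S', f (κ x)) ^ 2 ≤ (S'.card : ℝ) * ∑ x ∈ S', f (κ x) ^ 2 :=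
      sq_sum_le_card_mul_sum_sq
    have hcardS' : (S'.card : ℝ) ≤ 3 * (X : ℝ) ^ 2 := by
      have : S'.card ≤ 3 * X ^ 2 := (Finset.card_filter_le _ _).trans (card_cells12_le hXpos)
      exact_mod_cast this
    have hfib : ∑ x ∈ S', f (κ x) ^ 2 ≤ ((2 * (4 * 2 ^ (205 * k)) + 1 : ℕ) : ℝ) *
        ∑ y ∈ Finset.Icc (-(Y₁ : ℤ)) Y₁ ×ˢ Finset.Icc (-(Y₁ : ℤ)) Y₁, f y ^ 2 := by
      refine sum_le_of_fiber S' _ κ ?_ (fun y => f y ^ 2) (fun y _ => by positivity) _ ?_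
      · intro x hx
        have := hκbox x (Finset.mem_filter.mp hx).1
        rw [abs_le, abs_le] at this
        rw [Finset.mem_product, Finset.mem_Icc, Finset.mem_Icc]
        exact this
      · intro y hy
        rcases (S'.filter (fun x => κ x = y)).eq_empty_or_nonempty with hemp | ⟨x₀, hx₀⟩
        · rw [hemp]; simp
        rw [Finset.mem_filter, hS', Finset.mem_filter] at hx₀
        have hymax : (Y₀ : ℤ) ≤ max |y.1| |y.2| := by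
          rw [← hx₀.2]; exact not_lt.mp hx₀.1.2
        refine (Finset.card_le_card ?_).trans (mult_rank1 hXpos h₁ h₂ hh y (4 * 2 ^ (205 * k)) ?_)
        · intro x hx
          rw [Finset.mem_filter, hS', Finset.mem_filter] at hx
          rw [Finset.mem_filter]
          exact ⟨hx.1.1, hx.2⟩
        · push_cast
          have h4 : 4 * (X : ℤ) * |h₂| ≤ 4 * X * 2 ^ (5 * k) := by gcongr
          have h5 : (X : ℤ) * 2 ^ (5 * k) = Y₀ * 2 ^ (205 * k) := by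
            rw [hX, hY₀]; push_cast; rw [← pow_add, ← pow_add]; congr 1; ring
          have h6 : (0 : ℤ) < Y₀ := by rw [hY₀]; positivity
          have h7 : (0 : ℤ) ≤ 4 * 2 ^ (205 * k) + 1 := by positivity
          nlinarith
    have hbox : ∑ y ∈ Finset.Icc (-(Y₁ : ℤ)) Y₁ ×ˢ Finset.Icc (-(Y₁ : ℤ)) Y₁, f y ^ 2
        ≤ (3 * Y₁ : ℝ) * ((2 * T ^ 2 + 4) * (R : ℝ) ^ 4) := by
      rw [Finset.sum_product_right]
      have h1 : ∀ b ∈ Finset.Icc (-(Y₁ : ℤ)) Y₁, ∑ a ∈ Finset.Icc (-(Y₁ : ℤ)) Y₁, f (a, b) ^ 2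
          ≤ (2 * T ^ 2 + 4) * (R : ℝ) ^ 4 := fun b _ =>
        sieve1 D hR hk hX A B Dp hsub T hT hT0 hHW H₀ hH₀ hb (b • H₀)
      refine (Finset.sum_le_card_nsmul _ _ _ h1).trans ?_
      rw [nsmul_eq_mul]
      have hc : ((Finset.Icc (-(Y₁ : ℤ)) Y₁).card : ℝ) ≤ 3 * Y₁ := by
        rw [Int.card_Icc]
        have hY1pos : 1 ≤ Y₁ := by rw [hY₁]; exact Nat.one_le_iff_ne_zero.mpr (by positivity)
        have : ((Y₁ : ℤ) + 1 - -(Y₁ : ℤ)).toNat ≤ 3 * Y₁ := by omega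
        exact_mod_cast this
      gcongr
    have hsq : (∑ x ∈ S', f (κ x)) ^ 2
        ≤ (100 * (T + 1) * (R : ℝ) ^ 2 * (X : ℝ) ^ 2 / 2 ^ (14 * k)) ^ 2 := by
      have h9 : ((2 * (4 * 2 ^ (205 * k)) + 1 : ℕ) : ℝ) ≤ 9 * 2 ^ (205 * k) := by
        push_cast
        have : (1 : ℝ) ≤ 2 ^ (205 * k) := one_le_pow₀ (by norm_num)
        linarith
      have hsum0 : 0 ≤ ∑ x ∈ S', f (κ x) ^ 2 := Finset.sum_nonneg fun _ _ => by positivity
      calc (∑ x ∈ S', f (κ x)) ^ 2 ≤ (S'.card : ℝ) * ∑ x ∈ S', f (κ x) ^ 2 := hcs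
        _ ≤ (3 * (X : ℝ) ^ 2) * ((9 * 2 ^ (205 * k)) * ((3 * Y₁ : ℝ) * ((2 * T ^ 2 + 4) * (R : ℝ) ^ 4))) := by
            refine mul_le_mul hcardS' (hfib.trans ?_) hsum0 (by positivity)
            exact mul_le_mul h9 hbox (Finset.sum_nonneg fun _ _ => by positivity) (by positivity)
        _ = 972 * (2 * T ^ 2 + 4) * (R : ℝ) ^ 4 * ((X : ℝ) ^ 3 * (2 ^ (205 * k) * 2 ^ (5 * k))) := by
            rw [hY₁]; push_cast; ring
        _ ≤ 10000 * (T + 1) ^ 2 * (R : ℝ) ^ 4 * ((X : ℝ) ^ 4 / 2 ^ (28 * k)) := by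
            have e1 : 972 * (2 * T ^ 2 + 4) ≤ 10000 * (T + 1) ^ 2 := by nlinarith
            have e2 : (X : ℝ) ^ 3 * (2 ^ (205 * k) * 2 ^ (5 * k)) ≤ (X : ℝ) ^ 4 / 2 ^ (28 * k) := by
              rw [le_div_iff₀ (by positivity), hX]; push_cast
              rw [← pow_mul, ← pow_mul, ← pow_add, ← pow_add, ← pow_add]
              exact pow_le_pow_right₀ (by norm_num) (by omega)
            gcongr
        _ = _ := by
            rw [div_pow]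
            have : ((2 : ℝ) ^ (14 * k)) ^ 2 = 2 ^ (28 * k) := by rw [← pow_mul]; congr 1; ring
            rw [this]; ring
    exact le_of_sq_le_sq hsq (by positivity)
  calc _ ≤ 36 * T * (R : ℝ) ^ 2 * (X : ℝ) ^ 2 / 2 ^ (14 * k)
        + 100 * (T + 1) * (R : ℝ) ^ 2 * (X : ℝ) ^ 2 / 2 ^ (14 * k) := add_le_add hsmall hlarge
    _ ≤ _ := by
      rw [← add_div]
      gcongr
      have : 0 ≤ (R : ℝ) ^ 2 * (X : ℝ) ^ 2 := by positivity
      nlinarith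

end MKG
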