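import Pool.Agent.MKG.Rank1

/-! # The rank two Weyl bound -/

open MeasureTheory Set Filter
open scoped BigOperators ENNReal Topology

namespace MKG

variable {m : ℕ} {Ω : Type*} [MeasurableSpace Ω] {ν : Measure Ω}

theorem diff_count2 (Y : ℕ) (k : ℤ × ℤ)
    (hk : k ∈ Finset.Icc (-(Y : ℤ)) Y ×ˢ Finset.Icc (-(Y : ℤ)) Y) :
    Y ^ 2 ≤ (((Finset.Ico (0 : ℤ) (2 * Y) ×ˢ Finset.Ico (0 : ℤ) (2 * Y)) ×ˢ
      (Finset.Ico (0 : ℤ) (2 * Y) ×ˢ Finset.Ico (0 : ℤ) (2 * Y))).filter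
      (fun p => p.1 - p.2 = k)).card := by
  rw [Finset.mem_product, Finset.mem_Icc, Finset.mem_Icc] at hk
  have h : (Finset.range Y ×ˢ Finset.range Y).card ≤ _ := Finset.card_le_card_of_injOn
    (s := Finset.range Y ×ˢ Finset.range Y)
    (t := ((Finset.Ico (0 : ℤ) (2 * Y) ×ˢ Finset.Ico (0 : ℤ) (2 * Y)) ×ˢ
      (Finset.Ico (0 : ℤ) (2 * Y) ×ˢ Finset.Ico (0 : ℤ) (2 * Y))).filter
      (fun p => p.1 - p.2 = k))
    (fun i : ℕ × ℕ => (((i.1 : ℤ) + max k.1 0, (i.2 : ℤ) + max k.2 0),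
      ((i.1 : ℤ) + max (-k.1) 0, (i.2 : ℤ) + max (-k.2) 0))) ?_ ?_
  · rw [Finset.card_product, Finset.card_range] at h
    rw [pow_two]; exact h
  · rintro ⟨i, j⟩ hi
    simp only [Finset.coe_product, Finset.coe_range, Set.mem_prod, Set.mem_Iio] at hi
    simp only [Finset.coe_filter, Finset.mem_product, Finset.mem_Ico, Set.mem_ofPred_eq,
      Prod.mk_sub_mk]
    refine ⟨⟨⟨?_, ?_⟩, ⟨?_, ?_⟩⟩, ?_⟩
    · rcases le_total 0 k.1 with h0 | h0
      · rw [max_eq_left h0]; omega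
      · rw [max_eq_right h0]; omega
    · rcases le_total 0 k.2 with h0 | h0
      · rw [max_eq_left h0]; omega
      · rw [max_eq_right h0]; omega
    · rcases le_total 0 k.1 with h0 | h0
      · rw [max_eq_right (by omega : -k.1 ≤ 0)]; omega
      · rw [max_eq_left (by omega : 0 ≤ -k.1)]; omega
    · rcases le_total 0 k.2 with h0 | h0
      · rw [max_eq_right (by omega : -k.2 ≤ 0)]; omega
      · rw [max_eq_left (by omega : 0 ≤ -k.2)]; omega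
    · apply Prod.ext
      · simp only
        rcases le_total 0 k.1 with h0 | h0
        · rw [max_eq_left h0, max_eq_right (by omega)]; omega
        · rw [max_eq_right h0, max_eq_left (by omega)]; omega
      · simp only
        rcases le_total 0 k.2 with h0 | h0
        · rw [max_eq_left h0, max_eq_right (by omega)]; omega
        · rw [max_eq_right h0, max_eq_left (by omega)]; omega
  · rintro ⟨i, i'⟩ _ ⟨j, j'⟩ _ hij
    simp only [Prod.mk.injEq] at hij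
    obtain ⟨⟨h1, h2⟩, -⟩ := hij
    apply Prod.ext <;> simp only <;> omega

/-- the homomorphism `α ↦ α₁ H₁ + α₂ H₂` -/
def Phi2 (H₁ H₂ : Fin m → ℤ) : ℤ × ℤ →+ (Fin m → ℤ) :=
  ((zmultiplesHom (Fin m → ℤ)) H₁).comp (AddMonoidHom.fst ℤ ℤ)
    + ((zmultiplesHom (Fin m → ℤ)) H₂).comp (AddMonoidHom.snd ℤ ℤ)

theorem Phi2_apply (H₁ H₂ : Fin m → ℤ) (α : ℤ × ℤ) : Phi2 H₁ H₂ α = α.1 • H₁ + α.2 • H₂ := rfl

/-- two-dimensional large sieve -/
theorem sieve2 [IsFiniteMeasure ν] (D : Family m Ω ν) {R X k : ℕ} (hR : 1 ≤ R) (hk : 1 ≤ k)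
    (hX : X = 2 ^ (300 * k)) (A B : ℝ) (Dp : Finset (ℤ × ℤ)) (hsub : ∀ ρ ∈ cells1 R A B, ρ.1 ∈ Dp)
    (T : ℝ) (hT : Dp.card * ν.real univ ≤ T * (R : ℝ) ^ 2)
    (hHW : ∀ H : Fin m → ℤ, H ≠ 0 → (∀ j, |H j| ≤ (X : ℤ) ^ 3) →
      ‖∑ x ∈ Dp, ∫ ω, e (dot H (psi (fun t => D.F t ω) x)) ∂ν‖ ≤ (R : ℝ) ^ 2 / (X : ℝ) ^ 2)
    (H₁ H₂ : Fin m → ℤ) (hind : ∀ i j : ℤ, i • H₁ + j • H₂ = 0 → i = 0 ∧ j = 0)
    (hb₁ : ∀ j, |H₁ j| ≤ 2 ^ (5 * k)) (hb₂ : ∀ j, |H₂ j| ≤ 2 ^ (5 * k)) (K₂ : Fin m → ℤ) :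
    ∑ α ∈ Finset.Icc (-((2 * X : ℕ) : ℤ)) ((2 * X : ℕ) : ℤ) ×ˢ
        Finset.Icc (-((2 * X : ℕ) : ℤ)) ((2 * X : ℕ) : ℤ),
      ‖muhat D R A B (α.1 • H₁ + α.2 • H₂) K₂‖ ^ 2 ≤ (4 * T ^ 2 + 64) * (R : ℝ) ^ 4 := by
  set Y : ℕ := 2 * X with hY
  have hXpos : 0 < X := by rw [hX]; positivity
  have hYpos : 0 < Y := by positivity
  have hYX' : 2 * (2 * Y * 2 ^ (5 * k)) ≤ X ^ 3 := by
    rw [hY, hX, ← pow_mul]
    have h12 : 8 ≤ 2 ^ (5 * k) := by
      calc 8 ≤ 2 ^ 5 := by norm_num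
        _ ≤ 2 ^ (5 * k) := Nat.pow_le_pow_right (by norm_num) (by omega)
    calc 2 * (2 * (2 * 2 ^ (300 * k)) * 2 ^ (5 * k))
        = 8 * (2 ^ (300 * k) * 2 ^ (5 * k)) := by ring
      _ ≤ 2 ^ (5 * k) * (2 ^ (300 * k) * 2 ^ (5 * k)) := by gcongr
      _ = 2 ^ (310 * k) := by rw [← pow_add, ← pow_add]; congr 1; ring
      _ ≤ 2 ^ (300 * k * 3) := Nat.pow_le_pow_right (by norm_num) (by omega)
  have h := muhat_lsp D hR A B Dp hsub (G := ℤ × ℤ) (Phi2 H₁ H₂) K₂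
    (Finset.Ico (0 : ℤ) (2 * Y) ×ˢ Finset.Ico (0 : ℤ) (2 * Y))
    (Finset.Icc (-(Y : ℤ)) Y ×ˢ Finset.Icc (-(Y : ℤ)) Y) (Y ^ 2) ((R : ℝ) ^ 2 / (X : ℝ) ^ 2)
    (by positivity) (fun n hn => diff_count2 Y n hn) ?_
  · simp only [Phi2_apply] at h
    have hcard : ((Finset.Ico (0 : ℤ) (2 * Y) ×ˢ Finset.Ico (0 : ℤ) (2 * Y)).card : ℝ)
        = (2 * Y) ^ 2 := by
      rw [Finset.card_product, Int.card_Ico]
      have : (2 * (Y : ℤ) - 0).toNat = 2 * Y := by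
        have : 2 * (Y : ℤ) - 0 = ((2 * Y : ℕ) : ℤ) := by push_cast; ring
        rw [this, Int.toNat_natCast]
      rw [this]; push_cast; ring
    rw [hcard] at h
    set SS := ∑ α ∈ Finset.Icc (-(Y : ℤ)) (Y : ℤ) ×ˢ Finset.Icc (-(Y : ℤ)) (Y : ℤ),
      ‖muhat D R A B (α.1 • H₁ + α.2 • H₂) K₂‖ ^ 2 with hSS
    have hYr : (0 : ℝ) < Y := by exact_mod_cast hYpos
    have hXr : (1 : ℝ) ≤ X := by exact_mod_cast hXpos
    have h1 : (Dp.card * ν.real univ) ^ 2 ≤ (T * (R : ℝ) ^ 2) ^ 2 :=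
      pow_le_pow_left₀ (by positivity) hT 2
    have hYX : (Y : ℝ) = 2 * X := by rw [hY]; push_cast; ring
    have h2 : ((2 * (Y : ℝ)) ^ 2) ^ 2 * ((R : ℝ) ^ 2 / (X : ℝ) ^ 2) ^ 2
        ≤ 64 * (Y : ℝ) ^ 2 * (R : ℝ) ^ 4 := by
      rw [div_pow, ← pow_mul, ← pow_mul, ← pow_mul]
      rw [← mul_div_assoc, div_le_iff₀ (by positivity), hYX]
      have : (1 : ℝ) ≤ (X : ℝ) ^ 2 := one_le_pow₀ hXr
      calc (2 * (2 * (X : ℝ))) ^ (2 * 2) * (R : ℝ) ^ (2 * 2)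
          = 256 * (X : ℝ) ^ 4 * (R : ℝ) ^ 4 * 1 := by ring
        _ ≤ 256 * (X : ℝ) ^ 4 * (R : ℝ) ^ 4 * (X : ℝ) ^ 2 := by gcongr
        _ = _ := by ring
    have h3 : ((Y : ℝ) ^ 2) * SS ≤ (Y : ℝ) ^ 2 * ((4 * T ^ 2 + 64) * (R : ℝ) ^ 4) := by
      calc ((Y : ℝ) ^ 2) * SS = ((Y ^ 2 : ℕ) : ℝ) * SS := by push_cast; ring
        _ ≤ (2 * (Y : ℝ)) ^ 2 * (Dp.card * ν.real univ) ^ 2 +
            ((2 * (Y : ℝ)) ^ 2) ^ 2 * ((R : ℝ) ^ 2 / (X : ℝ) ^ 2) ^ 2 := h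
        _ ≤ (2 * (Y : ℝ)) ^ 2 * (T * (R : ℝ) ^ 2) ^ 2 + 64 * (Y : ℝ) ^ 2 * (R : ℝ) ^ 4 := by gcongr
        _ = _ := by ring
    exact le_of_mul_le_mul_left h3 (by positivity)
  · intro j hj j' hj' hne
    rw [Phi2_apply]
    apply hHW
    · intro h0
      have := hind _ _ h0
      apply hne
      have h1 := this.1
      have h2 := this.2
      rw [Prod.fst_sub] at h1
      rw [Prod.snd_sub] at h2
      exact Prod.ext (by omega) (by omega)
    · intro i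
      rw [Finset.mem_product, Finset.mem_Ico, Finset.mem_Ico] at hj hj'
      have h1 : |(j - j').1| ≤ 2 * Y := by rw [Prod.fst_sub, abs_le]; constructor <;> omega
      have h2 : |(j - j').2| ≤ 2 * Y := by rw [Prod.snd_sub, abs_le]; constructor <;> omega
      simp only [Pi.add_apply, Pi.smul_apply, smul_eq_mul]
      calc |(j - j').1 * H₁ i + (j - j').2 * H₂ i|
          ≤ |(j - j').1| * |H₁ i| + |(j - j').2| * |H₂ i| := by
            rw [← abs_mul, ← abs_mul]; exact abs_add_le _ _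
        _ ≤ (2 * Y) * 2 ^ (5 * k) + (2 * Y) * 2 ^ (5 * k) :=
            add_le_add (mul_le_mul h1 (hb₁ i) (abs_nonneg _) (by positivity))
              (mul_le_mul h2 (hb₂ i) (abs_nonneg _) (by positivity))
        _ = 2 * (2 * Y * 2 ^ (5 * k)) := by ring
        _ ≤ (X : ℤ) ^ 3 := by exact_mod_cast hYX'

/-- the key identity behind the multiplicity bound in rank two -/
theorem key_identity {c₁ c₂ d₁ d₂ α₁ α₂ β₁ β₂ : ℤ} (h1 : c₁ * d₂ - c₂ * d₁ = 1)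
    (h2 : (c₁ + α₁) * (d₂ + β₂) - (c₂ + α₂) * (d₁ + β₁) = 1) :
    (α₁ * c₂ - α₂ * c₁) * (α₁ * d₁ - β₁ * c₁)
      = -((α₁ * β₂ - α₂ * β₁) * (c₁ * (c₁ + α₁)) + α₁ ^ 2) := by
  linear_combination (α₁ * c₁) * h2 - (α₁ * c₁ + α₁ ^ 2) * h1


/-- For a fixed first entry `c₁`, the number of cells satisfying the key identity. -/
theorem mult2_fixed {X : ℕ} (hX : 1 ≤ X) (α₁ α₂ β₁ r c₁ : ℤ) (hα : α₁ ≠ 0)
    (hZ : r * (c₁ * (c₁ + α₁)) + α₁ ^ 2 ≠ 0) :
    ((cells1 X 1 2).filter (fun y => y.1.1 = c₁ ∧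
      (α₁ * y.2.1 - α₂ * y.1.1) * (α₁ * y.1.2 - β₁ * y.1.1)
        = -(r * (y.1.1 * (y.1.1 + α₁)) + α₁ ^ 2))).card
      ≤ 2 * (Nat.divisors (r * (c₁ * (c₁ + α₁)) + α₁ ^ 2).natAbs).card := by
  classical
  set Z := r * (c₁ * (c₁ + α₁)) + α₁ ^ 2 with hZdef
  set S := (cells1 X 1 2).filter (fun y => y.1.1 = c₁ ∧
      (α₁ * y.2.1 - α₂ * y.1.1) * (α₁ * y.1.2 - β₁ * y.1.1)
        = -(r * (y.1.1 * (y.1.1 + α₁)) + α₁ ^ 2)) with hS
  have hmem : ∀ y ∈ S, y ∈ cellSet X 1 2 ∧ y.1.1 = c₁ ∧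
      (α₁ * y.2.1 - α₂ * c₁) * (α₁ * y.1.2 - β₁ * c₁) = -Z := by
    intro y hy
    rw [hS, Finset.mem_filter, mem_cells1] at hy
    obtain ⟨h1, h2, h3⟩ := hy
    rw [h2] at h3
    exact ⟨h1, h2, h3⟩
  have h := Finset.card_le_card_of_injOn (s := S)
    (t := Finset.univ (α := Bool) ×ˢ Nat.divisors Z.natAbs)
    (fun y => (decide (0 ≤ α₁ * y.2.1 - α₂ * c₁), (α₁ * y.2.1 - α₂ * c₁).natAbs)) ?_ ?_
  · rw [Finset.card_product] at h
    simpa using h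
  · intro y hy
    obtain ⟨h1, h2, h3⟩ := hmem y hy
    simp only [Finset.coe_product, Finset.coe_univ, Set.mem_prod, Set.mem_univ, true_and,
      Finset.mem_coe, Nat.mem_divisors]
    refine ⟨?_, by simpa using hZ⟩
    rw [Int.natAbs_dvd_natAbs]
    exact ⟨-(α₁ * y.1.2 - β₁ * c₁), by linarith⟩
  · intro y hy z hz hyz
    obtain ⟨h1, h2, h3⟩ := hmem y hy
    obtain ⟨k1, k2, k3⟩ := hmem z hz
    simp only [Prod.mk.injEq, decide_eq_decide] at hyz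
    obtain ⟨e1, e2⟩ := hyz
    have e3 : α₁ * y.2.1 - α₂ * c₁ = α₁ * z.2.1 - α₂ * c₁ := by omega
    have hne : α₁ * y.2.1 - α₂ * c₁ ≠ 0 := by
      intro h0
      rw [h0, zero_mul] at h3
      exact hZ (by linarith)
    have e4 : α₁ * y.1.2 - β₁ * c₁ = α₁ * z.1.2 - β₁ * c₁ := by
      apply mul_left_cancel₀ hne
      rw [h3, e3, k3]
    have e5 : y.1.2 = z.1.2 := mul_left_cancel₀ hα (by linarith)
    exact cells1_inj_fst hX h1 k1 (Prod.ext (h2.trans k2.symm) e5)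

theorem mult2_zero {X : ℕ} (hX : 1 ≤ X) (c₁ : ℤ) :
    ((cells1 X 1 2).filter (fun y => y.1.1 = c₁)).card ≤ 3 * X := by
  classical
  have h := Finset.card_le_card_of_injOn (s := (cells1 X 1 2).filter (fun y => y.1.1 = c₁))
    (t := Finset.Ico (X : ℤ) (4 * X)) (fun y => y.1.2) ?_ ?_
  · refine h.trans (le_of_eq ?_)
    rw [Int.card_Ico]
    have : 4 * (X : ℤ) - X = ((3 * X : ℕ) : ℤ) := by push_cast; ring
    rw [this, Int.toNat_natCast]
  · intro y hy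
    obtain ⟨h1, h2⟩ := Finset.mem_filter.mp hy
    obtain ⟨b1, b2, b3, b4, -⟩ := cell12_bounds hX (mem_cells1.mp h1)
    rw [Finset.coe_Ico, Set.mem_Ico]
    show (X : ℤ) ≤ y.1.2 ∧ y.1.2 < 4 * X
    constructor <;> omega
  · intro y hy z hz hyz
    obtain ⟨h1, h2⟩ := Finset.mem_filter.mp hy
    obtain ⟨k1, k2⟩ := Finset.mem_filter.mp hz
    exact cells1_inj_fst hX (mem_cells1.mp h1) (mem_cells1.mp k1) (Prod.ext (h2.trans k2.symm) hyz)

/-- Multiplicity bound in rank two. -/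
theorem mult_rank2 {X : ℕ} (hX : 1 ≤ X) (α β : ℤ × ℤ) (hα : α.1 ≠ 0) (τ : ℕ)
    (hτ : ∀ n : ℕ, 1 ≤ n → n ≤ 80 * X ^ 4 → (Nat.divisors n).card ≤ τ)
    (hα₁ : |α.1| ≤ X) (hα₂ : |α.2| ≤ 2 * X) (hβ₁ : |β.1| ≤ 3 * X) (hβ₂ : |β.2| ≤ 6 * X) :
    ((cells1 X 1 2 ×ˢ cells1 X 1 2).filter (fun p : Cell × Cell =>
      ((p.1.1.1 - p.2.1.1, p.1.2.1 - p.2.2.1), (p.1.1.2 - p.2.1.2, p.1.2.2 - p.2.2.2)) = (α, β))).card
      ≤ X * (2 * τ) + 6 * X := by
  classical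
  set r := α.1 * β.2 - α.2 * β.1 with hr
  have hX' : (1 : ℤ) ≤ X := by exact_mod_cast hX
  -- reduce to the set of `y = p.2`
  set S := (cells1 X 1 2).filter (fun y =>
      (α.1 * y.2.1 - α.2 * y.1.1) * (α.1 * y.1.2 - β.1 * y.1.1)
        = -(r * (y.1.1 * (y.1.1 + α.1)) + α.1 ^ 2)) with hS
  have h1 : ((cells1 X 1 2 ×ˢ cells1 X 1 2).filter (fun p : Cell × Cell =>
      ((p.1.1.1 - p.2.1.1, p.1.2.1 - p.2.2.1), (p.1.1.2 - p.2.1.2, p.1.2.2 - p.2.2.2)) = (α, β))).card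
      ≤ S.card := by
    refine Finset.card_le_card_of_injOn (fun p => p.2) ?_ ?_
    · rintro ⟨x, y⟩ hp
      obtain ⟨hp1, hp2⟩ := Finset.mem_filter.mp hp
      rw [Finset.mem_product] at hp1
      simp only at hp1 hp2
      obtain ⟨ha, hb⟩ := Prod.ext_iff.mp hp2
      simp only at ha hb
      rw [hS, Finset.mem_coe, Finset.mem_filter]
      refine ⟨hp1.2, ?_⟩
      have u1 := (cell12_bounds hX (mem_cells1.mp hp1.1)).2.2.2.2.2.2.2.2
      have u2 := (cell12_bounds hX (mem_cells1.mp hp1.2)).2.2.2.2.2.2.2.2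
      have a1 : x.1.1 = y.1.1 + α.1 := by rw [← ha]; ring
      have a2 : x.2.1 = y.2.1 + α.2 := by rw [← ha]; ring
      have b1 : x.1.2 = y.1.2 + β.1 := by rw [← hb]; ring
      have b2 : x.2.2 = y.2.2 + β.2 := by rw [← hb]; ring
      rw [a1, a2, b1, b2] at u1
      exact key_identity u2 u1
    · rintro ⟨x, y⟩ hp ⟨x', y'⟩ hp' hyy
      obtain ⟨hp1, hp2⟩ := Finset.mem_filter.mp hp
      obtain ⟨hp1', hp2'⟩ := Finset.mem_filter.mp hp'
      simp only at hyy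
      subst hyy
      rw [← hp2'] at hp2
      simp only [Prod.mk.injEq] at hp2
      obtain ⟨⟨e1, e2⟩, ⟨e3, e4⟩⟩ := hp2
      simp only [Prod.mk.injEq, and_true]
      apply Prod.ext <;> apply Prod.ext <;> linarith
  refine h1.trans ?_
  -- fibre over `y.1.1`
  have hmaps : ∀ y ∈ S, y.1.1 ∈ Finset.Ico (X : ℤ) (2 * X) := by
    intro y hy
    obtain ⟨h1, -⟩ := Finset.mem_filter.mp hy
    obtain ⟨b1, b2, -⟩ := cell12_bounds hX (mem_cells1.mp h1)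
    rw [Finset.mem_Ico]; exact ⟨b1, b2⟩
  rw [Finset.card_eq_sum_card_fiberwise hmaps]
  set I := Finset.Ico (X : ℤ) (2 * X) with hI
  rw [← Finset.sum_filter_add_sum_filter_not I
    (fun c => r * (c * (c + α.1)) + α.1 ^ 2 ≠ 0)]
  refine add_le_add ?_ ?_
  · -- nonzero part
    have h2 : ∀ c ∈ I.filter (fun c => r * (c * (c + α.1)) + α.1 ^ 2 ≠ 0),
        (S.filter (fun y => y.1.1 = c)).card ≤ 2 * τ := by
      intro c hc
      obtain ⟨hcI, hc0⟩ := Finset.mem_filter.mp hc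
      rw [hI, Finset.mem_Ico] at hcI
      rcases (S.filter (fun y => y.1.1 = c)).eq_empty_or_nonempty with hemp | ⟨y₀, hy₀⟩
      · rw [hemp]; simp
      have h3 : S.filter (fun y => y.1.1 = c) ⊆ (cells1 X 1 2).filter (fun y => y.1.1 = c ∧
          (α.1 * y.2.1 - α.2 * y.1.1) * (α.1 * y.1.2 - β.1 * y.1.1)
            = -(r * (y.1.1 * (y.1.1 + α.1)) + α.1 ^ 2)) := by
        intro y hy
        rw [hS, Finset.filter_filter, Finset.mem_filter] at hy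
        rw [Finset.mem_filter]
        exact ⟨hy.1, hy.2.2, hy.2.1⟩
      refine (Finset.card_le_card h3).trans ((mult2_fixed hX _ _ _ _ c hα hc0).trans ?_)
      refine Nat.mul_le_mul_left _ (hτ _ ?_ ?_)
      · exact Int.natAbs_pos.mpr hc0
      · have hr' : |r| ≤ 12 * (X : ℤ) ^ 2 := by
          rw [hr]
          calc |α.1 * β.2 - α.2 * β.1| ≤ |α.1| * |β.2| + |α.2| * |β.1| := by
                rw [← abs_mul, ← abs_mul]; exact abs_sub _ _
            _ ≤ X * (6 * X) + (2 * X) * (3 * X) := by gcongr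
            _ = 12 * (X : ℤ) ^ 2 := by ring
        have hc' : |c * (c + α.1)| ≤ 6 * (X : ℤ) ^ 2 := by
          rw [abs_mul]
          have e1 : |c| ≤ 2 * X := by rw [abs_le]; constructor <;> omega
          have e2 : |c + α.1| ≤ 3 * X := by
            rw [abs_le] at hα₁ ⊢; constructor <;> omega
          calc |c| * |c + α.1| ≤ (2 * X) * (3 * X) := by gcongr
            _ = _ := by ring
        have hα' : α.1 ^ 2 ≤ (X : ℤ) ^ 2 := by
          rw [← sq_abs]; gcongr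
        have hfin : |r * (c * (c + α.1)) + α.1 ^ 2| ≤ 80 * (X : ℤ) ^ 4 := by
          calc |r * (c * (c + α.1)) + α.1 ^ 2| ≤ |r * (c * (c + α.1))| + |α.1 ^ 2| := abs_add_le _ _
            _ ≤ 12 * (X : ℤ) ^ 2 * (6 * (X : ℤ) ^ 2) + (X : ℤ) ^ 2 := by
                rw [abs_mul, abs_of_nonneg (sq_nonneg α.1)]
                gcongr
            _ ≤ 80 * (X : ℤ) ^ 4 := by
                have h24 : (X : ℤ) ^ 2 ≤ (X : ℤ) ^ 4 := pow_le_pow_right₀ hX' (by norm_num)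
                nlinarith [sq_nonneg ((X : ℤ) ^ 2)]
        have : ((r * (c * (c + α.1)) + α.1 ^ 2).natAbs : ℤ) ≤ ((80 * X ^ 4 : ℕ) : ℤ) := by
          rw [Int.natCast_natAbs]; push_cast; exact hfin
        exact_mod_cast this
    refine (Finset.sum_le_card_nsmul _ _ _ h2).trans ?_
    rw [smul_eq_mul]
    refine Nat.mul_le_mul_right _ ((Finset.card_filter_le _ _).trans ?_)
    rw [hI, Int.card_Ico]; omega
  · -- zero part: at most two values of `c`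
    have h2 : ∀ c ∈ I.filter (fun c => ¬ (r * (c * (c + α.1)) + α.1 ^ 2 ≠ 0)),
        (S.filter (fun y => y.1.1 = c)).card ≤ 3 * X := by
      intro c _
      refine (Finset.card_le_card ?_).trans (mult2_zero hX c)
      intro y hy
      rw [hS, Finset.filter_filter, Finset.mem_filter] at hy
      rw [Finset.mem_filter]
      exact ⟨hy.1, hy.2.2⟩
    refine (Finset.sum_le_card_nsmul _ _ _ h2).trans ?_
    rw [smul_eq_mul]
    have h3 : (I.filter (fun c => ¬ (r * (c * (c + α.1)) + α.1 ^ 2 ≠ 0))).card ≤ 2 := by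
      rcases (I.filter (fun c => ¬ (r * (c * (c + α.1)) + α.1 ^ 2 ≠ 0))).eq_empty_or_nonempty
        with hemp | ⟨c₀, hc₀⟩
      · rw [hemp]; simp
      · have hsub : I.filter (fun c => ¬ (r * (c * (c + α.1)) + α.1 ^ 2 ≠ 0)) ⊆ {c₀, -α.1 - c₀} := by
          intro c hc
          have e1 := (Finset.mem_filter.mp hc).2
          have e0 := (Finset.mem_filter.mp hc₀).2
          push Not at e1 e0
          have hr0 : r ≠ 0 := by
            intro h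
            rw [h, zero_mul, zero_add] at e0
            exact hα (pow_eq_zero_iff (by norm_num) |>.mp e0)
          have e2 : r * ((c - c₀) * (c + c₀ + α.1)) = 0 := by linear_combination e1 - e0
          rw [Finset.mem_insert, Finset.mem_singleton]
          rcases mul_eq_zero.mp e2 with h | h
          · exact absurd h hr0
          · rcases mul_eq_zero.mp h with h | h
            · left; linarith
            · right; linarith
        exact (Finset.card_le_card hsub).trans Finset.card_le_two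
    calc _ ≤ 2 * (3 * X) := Nat.mul_le_mul_right _ h3
      _ = 6 * X := by ring


theorem measurable_AA (D : Family m Ω ν) (K₁ K₂ : Fin m → ℤ) :
    Measurable (fun z : Cell × Ω => dot K₁ (psi (fun t => D.F t z.2) z.1.1)
      + dot K₂ (psi (fun t => D.F t z.2) z.1.2)) := by
  apply measurable_from_prod_countable_right
  intro x
  exact (measurable_dot_psi D K₁ x.1).add (measurable_dot_psi D K₂ x.2)

theorem integral_PM_cells [IsFiniteMeasure ν] (D : Family m Ω ν) (R : ℕ) (A B : ℝ)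
    (K₁ K₂ : Fin m → ℤ) :
    ∫ z : Cell × Ω, e (dot K₁ (psi (fun t => D.F t z.2) z.1.1)
      + dot K₂ (psi (fun t => D.F t z.2) z.1.2)) ∂(PM (cells1 R A B) ν) = muhat D R A B K₁ K₂ := by
  have hm := measurable_AA D K₁ K₂
  rw [integral_PM (cells1 R A B) ν (Measurable.e_comp hm) (C := 1) (fun y => (norm_e _).le)]
  rfl

theorem ww_rank2_aux [IsFiniteMeasure ν] (D : Family m Ω ν) {R X k : ℕ} (hR : 1 ≤ R) (hk : 1 ≤ k)
    (hX : X = 2 ^ (300 * k)) (A B : ℝ) (Dp : Finset (ℤ × ℤ)) (hsub : ∀ ρ ∈ cells1 R A B, ρ.1 ∈ Dp)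
    (T : ℝ) (hT : Dp.card * ν.real univ ≤ T * (R : ℝ) ^ 2) (hT0 : 0 ≤ T)
    (hHW : ∀ H : Fin m → ℤ, H ≠ 0 → (∀ j, |H j| ≤ (X : ℤ) ^ 3) →
      ‖∑ x ∈ Dp, ∫ ω, e (dot H (psi (fun t => D.F t ω) x)) ∂ν‖ ≤ (R : ℝ) ^ 2 / (X : ℝ) ^ 2)
    (Cd : ℕ) (hCd1 : 1 ≤ Cd) (hCd : ∀ n : ℕ, 1 ≤ n → (Nat.divisors n).card ^ 5 ≤ Cd * n)
    (H₁ H₂ : Fin m → ℤ) (hind : ∀ i j : ℤ, i • H₁ + j • H₂ = 0 → i = 0 ∧ j = 0)
    (hb₁ : ∀ j, |H₁ j| ≤ 2 ^ (5 * k)) (hb₂ : ∀ j, |H₂ j| ≤ 2 ^ (5 * k)) :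
    ‖WW D R X A B H₁ H₂‖
      ≤ 200 * Cd * (T + 1) * (R : ℝ) ^ 2 * (X : ℝ) ^ 2 / 2 ^ (14 * k) := by
  classical
  have hXpos : 1 ≤ X := by rw [hX]; exact Nat.one_le_two_pow
  have hXr : (1 : ℝ) ≤ X := by exact_mod_cast hXpos
  have hRr : (1 : ℝ) ≤ R := by exact_mod_cast hR
  have hCdr : (1 : ℝ) ≤ Cd := by exact_mod_cast hCd1
  set S := cells1 X 1 2 with hS
  set g : (ℤ × ℤ) × (ℤ × ℤ) → ℝ := fun y =>
    ‖muhat D R A B (y.1.1 • H₁ + y.1.2 • H₂) (y.2.1 • H₁ + y.2.2 • H₂)‖ with hg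
  set φ : Cell × Cell → (ℤ × ℤ) × (ℤ × ℤ) := fun p =>
      ((p.1.1.1 - p.2.1.1, p.1.2.1 - p.2.2.1), (p.1.1.2 - p.2.1.2, p.1.2.2 - p.2.2.2)) with hφ
  -- Cauchy–Schwarz
  have hcs : ‖WW D R X A B H₁ H₂‖ ^ 2 ≤ (T * (R : ℝ) ^ 2) * ∑ p ∈ S ×ˢ S, g (φ p) := by
    have h1 := cs_expand (PM (cells1 R A B) ν)
      (fun (x : Cell) (z : Cell × Ω) =>
        dot (x.1.1 • H₁ + x.2.1 • H₂) (psi (fun t => D.F t z.2) z.1.1)
        + dot (x.1.2 • H₁ + x.2.2 • H₂) (psi (fun t => D.F t z.2) z.1.2))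
      (fun x => measurable_AA D _ _) S
    simp only [integral_PM_cells] at h1
    unfold WW
    refine h1.trans ?_
    have h2 : (PM (cells1 R A B) ν).real univ ≤ T * (R : ℝ) ^ 2 := by
      rw [PM_real_univ]
      refine le_trans ?_ hT
      have := card_cells1_le_Dp hR A B Dp hsub
      gcongr
    have h3 : ∑ j ∈ S, ∑ j' ∈ S, ‖∫ y : Cell × Ω, e (dot (j.1.1 • H₁ + j.2.1 • H₂) (psi (fun t => D.F t y.2) y.1.1)
        + dot (j.1.2 • H₁ + j.2.2 • H₂) (psi (fun t => D.F t y.2) y.1.2) -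
        (dot (j'.1.1 • H₁ + j'.2.1 • H₂) (psi (fun t => D.F t y.2) y.1.1)
        + dot (j'.1.2 • H₁ + j'.2.2 • H₂) (psi (fun t => D.F t y.2) y.1.2))) ∂(PM (cells1 R A B) ν)‖
        = ∑ p ∈ S ×ˢ S, g (φ p) := by
      rw [Finset.sum_product]
      refine Finset.sum_congr rfl fun x _ => Finset.sum_congr rfl fun y _ => ?_
      simp only [hg, hφ]
      rw [← integral_PM_cells]
      congr 2
      ext z
      congr 1
      simp only [dot_add_left, dot_smul_left]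
      push_cast; ring
    rw [h3]
    exact mul_le_mul_of_nonneg_right h2 (Finset.sum_nonneg fun _ _ => norm_nonneg _)
  -- split
  have hsplit := Finset.sum_filter_add_sum_filter_not (S ×ˢ S)
    (fun p : Cell × Cell => p.1.1.1 = p.2.1.1) (fun p => g (φ p))
  have hg0 : ∀ y, 0 ≤ g y := fun y => norm_nonneg _
  have hgT : ∀ y, g y ≤ T * (R : ℝ) ^ 2 := fun y => norm_muhat_le' D hR A B Dp hsub T hT _ _
  have hcardS : S.card ≤ 3 * X ^ 2 := card_cells12_le hXpos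
  have hdiag : ∑ p ∈ (S ×ˢ S).filter (fun p : Cell × Cell => p.1.1.1 = p.2.1.1), g (φ p)
      ≤ 9 * T * (R : ℝ) ^ 2 * (X : ℝ) ^ 4 / 2 ^ (28 * k) := by
    have hc : ((S ×ˢ S).filter (fun p : Cell × Cell => p.1.1.1 = p.2.1.1)).card ≤ 9 * X ^ 3 := by
      have h1 := card_le_of_fiber ((S ×ˢ S).filter (fun p : Cell × Cell => p.1.1.1 = p.2.1.1)) S
        (fun p => p.1) (fun p hp => (Finset.mem_product.mp (Finset.mem_filter.mp hp).1).1) (3 * X) ?_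
      · refine h1.trans ?_
        calc 3 * X * S.card ≤ 3 * X * (3 * X ^ 2) := Nat.mul_le_mul_left _ hcardS
          _ = 9 * X ^ 3 := by ring
      · intro x hx
        refine le_trans ?_ (mult2_zero hXpos x.1.1)
        refine Finset.card_le_card_of_injOn (fun p => p.2) ?_ ?_
        · intro p hp
          rw [Finset.mem_coe, Finset.mem_filter, Finset.mem_filter, Finset.mem_product] at hp
          rw [Finset.mem_coe, Finset.mem_filter]
          refine ⟨hp.1.1.2, ?_⟩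
          rw [← hp.1.2, hp.2]
        · intro p hp q hq hpq
          rw [Finset.mem_coe, Finset.mem_filter] at hp hq
          exact Prod.ext (hp.2.trans hq.2.symm) hpq
    calc _ ≤ (((S ×ˢ S).filter (fun p : Cell × Cell => p.1.1.1 = p.2.1.1)).card : ℝ) * (T * (R : ℝ) ^ 2) := by
          rw [← nsmul_eq_mul]
          exact Finset.sum_le_card_nsmul _ _ _ fun p _ => hgT _
      _ ≤ (9 * (X : ℝ) ^ 3) * (T * (R : ℝ) ^ 2) := by
          have : (((S ×ˢ S).filter (fun p : Cell × Cell => p.1.1.1 = p.2.1.1)).card : ℝ) ≤ 9 * (X : ℝ) ^ 3 := by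
            exact_mod_cast hc
          gcongr
      _ ≤ _ := by
          rw [le_div_iff₀ (by positivity)]
          have h28 : (2 : ℝ) ^ (28 * k) ≤ X := by
            rw [hX]; push_cast; exact pow_le_pow_right₀ (by norm_num) (by omega)
          calc 9 * (X : ℝ) ^ 3 * (T * (R : ℝ) ^ 2) * 2 ^ (28 * k)
              ≤ 9 * (X : ℝ) ^ 3 * (T * (R : ℝ) ^ 2) * X := by gcongr
            _ = _ := by ring
  have hoff : ∑ p ∈ (S ×ˢ S).filter (fun p : Cell × Cell => ¬ p.1.1.1 = p.2.1.1), g (φ p)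
      ≤ 10 ^ 4 * Cd * (T + 1) * (R : ℝ) ^ 2 * (X : ℝ) ^ 4 / 2 ^ (28 * k) := by
    set P := (S ×ˢ S).filter (fun p : Cell × Cell => ¬ p.1.1.1 = p.2.1.1) with hP
    have hcs2 : (∑ p ∈ P, g (φ p)) ^ 2 ≤ (P.card : ℝ) * ∑ p ∈ P, g (φ p) ^ 2 :=
      sq_sum_le_card_mul_sum_sq
    have hPcard : (P.card : ℝ) ≤ 9 * (X : ℝ) ^ 4 := by
      have : P.card ≤ 9 * X ^ 4 := by
        refine (Finset.card_filter_le _ _).trans ?_
        rw [Finset.card_product]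
        calc S.card * S.card ≤ (3 * X ^ 2) * (3 * X ^ 2) := Nat.mul_le_mul hcardS hcardS
          _ = 9 * X ^ 4 := by ring
      exact_mod_cast this
    set τ : ℕ := 80 * Cd * 2 ^ (240 * k) with hτ
    have hτ' : ∀ n : ℕ, 1 ≤ n → n ≤ 80 * X ^ 4 → (Nat.divisors n).card ≤ τ := by
      intro n hn hn2
      have h1 := hCd n hn
      have h2 : (Nat.divisors n).card ^ 5 ≤ τ ^ 5 := by
        refine h1.trans ?_
        calc Cd * n ≤ Cd * (80 * X ^ 4) := Nat.mul_le_mul_left _ hn2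
          _ = (80 * Cd) * (2 ^ (240 * k)) ^ 5 := by
              rw [hX, ← pow_mul, ← pow_mul]; 
              have : 300 * k * 4 = 240 * k * 5 := by ring
              rw [this]; ring
          _ ≤ (80 * Cd) ^ 5 * (2 ^ (240 * k)) ^ 5 := by
              have : 80 * Cd ≤ (80 * Cd) ^ 5 := Nat.le_self_pow (by norm_num) _
              gcongr
          _ = τ ^ 5 := by rw [hτ]; ring
      exact (Nat.pow_le_pow_iff_left (by norm_num)).mp h2
    set Ka := Finset.Icc (-((2 * X : ℕ) : ℤ)) ((2 * X : ℕ) : ℤ) ×ˢ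
        Finset.Icc (-((2 * X : ℕ) : ℤ)) ((2 * X : ℕ) : ℤ) with hKa
    set Kb := Finset.Icc (-(6 * X : ℤ)) (6 * X : ℤ) ×ˢ Finset.Icc (-(6 * X : ℤ)) (6 * X : ℤ) with hKb
    have hbd : ∀ p ∈ P, (|(φ p).1.1| ≤ X ∧ |(φ p).1.2| ≤ 2 * X) ∧
        (|(φ p).2.1| ≤ 3 * X ∧ |(φ p).2.2| ≤ 6 * X) := by
      intro p hp
      obtain ⟨h1, h2⟩ := Finset.mem_product.mp (Finset.mem_filter.mp hp).1
      obtain ⟨b1, b2, b3, b4, b5, b6, b7, b8, -⟩ := cell12_bounds hXpos (mem_cells1.mp h1)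
      obtain ⟨c1, c2, c3, c4, c5, c6, c7, c8, -⟩ := cell12_bounds hXpos (mem_cells1.mp h2)
      simp only [hφ]
      refine ⟨⟨?_, ?_⟩, ⟨?_, ?_⟩⟩ <;> rw [abs_le] <;> constructor <;> omega
    have hfib : ∑ p ∈ P, g (φ p) ^ 2 ≤ ((X * (2 * τ) + 6 * X : ℕ) : ℝ) *
        ∑ y ∈ Ka ×ˢ Kb, g y ^ 2 := by
      refine sum_le_of_fiber P _ φ ?_ (fun y => g y ^ 2) (fun y _ => by positivity) _ ?_
      · intro p hp
        obtain ⟨⟨h1, h2⟩, ⟨h3, h4⟩⟩ := hbd p hp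
        rw [abs_le] at h1 h2 h3 h4
        have hX0 : (0 : ℤ) ≤ X := Int.natCast_nonneg _
        rw [Finset.mem_product, hKa, hKb, Finset.mem_product, Finset.mem_product,
          Finset.mem_Icc, Finset.mem_Icc, Finset.mem_Icc, Finset.mem_Icc]
        push_cast
        refine ⟨⟨⟨?_, ?_⟩, ⟨?_, ?_⟩⟩, ⟨⟨?_, ?_⟩, ⟨?_, ?_⟩⟩⟩ <;> omega
      · rintro ⟨α, β⟩ hy
        rcases (P.filter (fun p => φ p = (α, β))).eq_empty_or_nonempty with hemp | ⟨p₀, hp₀⟩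
        · rw [hemp]; simp
        obtain ⟨hp₀1, hp₀2⟩ := Finset.mem_filter.mp hp₀
        have hb := hbd p₀ hp₀1
        rw [hp₀2] at hb
        simp only at hb
        have hα : α.1 ≠ 0 := by
          have h1 := (Finset.mem_filter.mp hp₀1).2
          intro h0
          apply h1
          have : (φ p₀).1.1 = 0 := by rw [hp₀2]; exact h0
          simp only [hφ] at this
          omega
        refine (Finset.card_le_card ?_).trans
          (mult_rank2 hXpos α β hα τ hτ' hb.1.1 hb.1.2 hb.2.1 hb.2.2)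
        intro p hp
        obtain ⟨h1, h2⟩ := Finset.mem_filter.mp hp
        rw [Finset.mem_filter]
        exact ⟨(Finset.mem_filter.mp h1).1, h2⟩
    have hbox : ∑ y ∈ Ka ×ˢ Kb, g y ^ 2
        ≤ (169 * (X : ℝ) ^ 2) * ((4 * T ^ 2 + 64) * (R : ℝ) ^ 4) := by
      rw [Finset.sum_product_right]
      have h1 : ∀ b ∈ Kb, ∑ a ∈ Ka, g (a, b) ^ 2 ≤ (4 * T ^ 2 + 64) * (R : ℝ) ^ 4 := fun b _ =>
        sieve2 D hR hk hX A B Dp hsub T hT hHW H₁ H₂ hind hb₁ hb₂ (b.1 • H₁ + b.2 • H₂)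
      refine (Finset.sum_le_card_nsmul _ _ _ h1).trans ?_
      rw [nsmul_eq_mul]
      have hc : (Kb.card : ℝ) ≤ 169 * (X : ℝ) ^ 2 := by
        have : Kb.card ≤ 169 * X ^ 2 := by
          rw [hKb, Finset.card_product, Int.card_Icc]
          have h13 : (6 * (X : ℤ) + 1 - -(6 * (X : ℤ))).toNat ≤ 13 * X := by omega
          calc _ ≤ (13 * X) * (13 * X) := Nat.mul_le_mul h13 h13
            _ = 169 * X ^ 2 := by ring
        exact_mod_cast this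
      gcongr
    have hsq : (∑ p ∈ P, g (φ p)) ^ 2
        ≤ (10 ^ 4 * Cd * (T + 1) * (R : ℝ) ^ 2 * (X : ℝ) ^ 4 / 2 ^ (28 * k)) ^ 2 := by
      have h9 : ((X * (2 * τ) + 6 * X : ℕ) : ℝ) ≤ 170 * Cd * X * 2 ^ (240 * k) := by
        rw [hτ]; push_cast
        have h1 : (1 : ℝ) ≤ 2 ^ (240 * k) := one_le_pow₀ (by norm_num)
        have h2 : (1 : ℝ) ≤ Cd * 2 ^ (240 * k) := one_le_mul_of_one_le_of_one_le hCdr h1
        have h3 : (X : ℝ) ≤ X * (Cd * 2 ^ (240 * k)) := le_mul_of_one_le_right (by positivity) h2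
        have h4 : (X : ℝ) * (2 * (80 * Cd * 2 ^ (240 * k))) + 6 * X
          = 160 * (X * (Cd * 2 ^ (240 * k))) + 6 * X := by ring
        have h5 : 170 * (Cd : ℝ) * X * 2 ^ (240 * k) = 170 * (X * (Cd * 2 ^ (240 * k))) := by ring
        rw [h4, h5]
        linarith
      have hsum0 : 0 ≤ ∑ p ∈ P, g (φ p) ^ 2 := Finset.sum_nonneg fun _ _ => by positivity
      calc (∑ p ∈ P, g (φ p)) ^ 2 ≤ (P.card : ℝ) * ∑ p ∈ P, g (φ p) ^ 2 := hcs2
        _ ≤ (9 * (X : ℝ) ^ 4) * ((170 * Cd * X * 2 ^ (240 * k)) *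
              ((169 * (X : ℝ) ^ 2) * ((4 * T ^ 2 + 64) * (R : ℝ) ^ 4))) := by
            refine mul_le_mul hPcard (hfib.trans ?_) hsum0 (by positivity)
            exact mul_le_mul h9 hbox (Finset.sum_nonneg fun _ _ => by positivity) (by positivity)
        _ = 258570 * Cd * (4 * T ^ 2 + 64) * (R : ℝ) ^ 4 * ((X : ℝ) ^ 7 * 2 ^ (240 * k)) := by
            ring
        _ ≤ (10 ^ 4 * Cd * (T + 1)) ^ 2 * (R : ℝ) ^ 4 * ((X : ℝ) ^ 8 / 2 ^ (56 * k)) := by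
            have e1 : 258570 * Cd * (4 * T ^ 2 + 64) ≤ (10 ^ 4 * Cd * (T + 1)) ^ 2 := by
              have e3 : (Cd : ℝ) ≤ (Cd : ℝ) ^ 2 := le_self_pow₀ hCdr (by norm_num)
              have e4 : 258570 * (4 * T ^ 2 + 64) ≤ (10 ^ 4 * (T + 1)) ^ 2 := by
                have : 0 ≤ T ^ 2 := sq_nonneg T
                have e6 : (10 ^ 4 * (T + 1)) ^ 2 = 10 ^ 8 * T ^ 2 + 2 * 10 ^ 8 * T + 10 ^ 8 := by ring
                rw [e6]; linarith
              calc 258570 * Cd * (4 * T ^ 2 + 64) = Cd * (258570 * (4 * T ^ 2 + 64)) := by ring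
                _ ≤ (Cd : ℝ) ^ 2 * (10 ^ 4 * (T + 1)) ^ 2 :=
                    mul_le_mul e3 e4 (by positivity) (by positivity)
                _ = _ := by ring
            have e2 : (X : ℝ) ^ 7 * 2 ^ (240 * k) ≤ (X : ℝ) ^ 8 / 2 ^ (56 * k) := by
              rw [le_div_iff₀ (by positivity), hX]; push_cast
              rw [← pow_mul, ← pow_mul, ← pow_add, ← pow_add]
              exact pow_le_pow_right₀ (by norm_num) (by omega)
            gcongr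
        _ = _ := by
            rw [div_pow]
            have : ((2 : ℝ) ^ (28 * k)) ^ 2 = 2 ^ (56 * k) := by rw [← pow_mul]; congr 1; ring
            rw [this]; ring
    exact le_of_sq_le_sq hsq (by positivity)
  have hfinal : ‖WW D R X A B H₁ H₂‖ ^ 2
      ≤ (200 * Cd * (T + 1) * (R : ℝ) ^ 2 * (X : ℝ) ^ 2 / 2 ^ (14 * k)) ^ 2 := by
    calc ‖WW D R X A B H₁ H₂‖ ^ 2 ≤ (T * (R : ℝ) ^ 2) * ∑ p ∈ S ×ˢ S, g (φ p) := hcs
      _ ≤ (T * (R : ℝ) ^ 2) * (9 * T * (R : ℝ) ^ 2 * (X : ℝ) ^ 4 / 2 ^ (28 * k)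
          + 10 ^ 4 * Cd * (T + 1) * (R : ℝ) ^ 2 * (X : ℝ) ^ 4 / 2 ^ (28 * k)) := by
          rw [← hsplit]
          exact mul_le_mul_of_nonneg_left (add_le_add hdiag hoff) (by positivity)
      _ = (T * (9 * T + 10 ^ 4 * Cd * (T + 1))) * ((R : ℝ) ^ 4 * (X : ℝ) ^ 4 / 2 ^ (28 * k)) := by ring
      _ ≤ (200 * Cd * (T + 1)) ^ 2 * ((R : ℝ) ^ 4 * (X : ℝ) ^ 4 / 2 ^ (28 * k)) := by
          have e3 : (Cd : ℝ) ≤ (Cd : ℝ) ^ 2 := le_self_pow₀ hCdr (by norm_num)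
          have e5 : T * (9 * T + 10 ^ 4 * Cd * (T + 1)) ≤ (200 * Cd * (T + 1)) ^ 2 := by
            have f1 : T * (9 * T) ≤ 9 * (Cd : ℝ) ^ 2 * (T + 1) ^ 2 := by
              have h1 : (1 : ℝ) ≤ (Cd : ℝ) ^ 2 := one_le_pow₀ hCdr
              have h2 : T ^ 2 ≤ (T + 1) ^ 2 := pow_le_pow_left₀ hT0 (by linarith) 2
              calc T * (9 * T) = 9 * 1 * T ^ 2 := by ring
                _ ≤ 9 * (Cd : ℝ) ^ 2 * (T + 1) ^ 2 := by gcongr
            have f2 : T * (10 ^ 4 * Cd * (T + 1)) ≤ 10 ^ 4 * (Cd : ℝ) ^ 2 * (T + 1) ^ 2 := by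
              calc T * (10 ^ 4 * Cd * (T + 1)) ≤ (T + 1) * (10 ^ 4 * (Cd : ℝ) ^ 2 * (T + 1)) := by
                    gcongr; linarith
                _ = _ := by ring
            have f3 : 0 ≤ (Cd : ℝ) ^ 2 * (T + 1) ^ 2 := by positivity
            have f4 : (200 * Cd * (T + 1)) ^ 2 = 40000 * ((Cd : ℝ) ^ 2 * (T + 1) ^ 2) := by ring
            have f5 : T * (9 * T + 10 ^ 4 * Cd * (T + 1))
              = T * (9 * T) + T * (10 ^ 4 * Cd * (T + 1)) := by ring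
            rw [f4, f5]
            linarith
          gcongr
      _ = _ := by
          rw [div_pow]
          have : ((2 : ℝ) ^ (14 * k)) ^ 2 = 2 ^ (28 * k) := by rw [← pow_mul]; congr 1; ring
          rw [this]; ring
  exact le_of_sq_le_sq hfinal (by positivity)

end MKG
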