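import Pool.Agent.MKG.Defs

/-!
# One-dimensional sublevel estimate
-/

open MeasureTheory Set Filter
open scoped BigOperators ENNReal Topology

namespace MKG

/-- A set of diameter `≤ c` has measure `≤ 2 c` (crude). -/
theorem Sublevel1_vol_le {S : Set ℝ} {c : ℝ} (h : ∀ s ∈ S, ∀ t ∈ S, |t - s| ≤ c) :
    volume S ≤ ENNReal.ofReal (2 * c) := by
  rcases S.eq_empty_or_nonempty with rfl | ⟨s, hs⟩
  · simp
  · have hsub : S ⊆ Icc (s - c) (s + c) := by
      intro t ht
      have := h s hs t ht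
      rw [abs_le] at this
      exact ⟨by linarith [this.1], by linarith [this.2]⟩
    refine (measure_mono hsub).trans ?_
    rw [Real.volume_Icc]
    exact ENNReal.ofReal_le_ofReal (by linarith)

/-- Under `|g'| ≥ lam` on an interval, differences of `g` are bounded below. -/
theorem Sublevel1_mvt {I : Set ℝ} (hI : I.OrdConnected) {g g' : ℝ → ℝ}
    (hg : ∀ s ∈ I, HasDerivAt g (g' s) s) {lam : ℝ} (hlow : ∀ s ∈ I, lam ≤ |g' s|)
    {s t : ℝ} (hs : s ∈ I) (ht : t ∈ I) : lam * |t - s| ≤ |g t - g s| := by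
  wlog hst : s < t generalizing s t with H
  · rcases eq_or_lt_of_le (not_lt.1 hst) with h | h
    · subst h; simp
    · have := H ht hs h
      rwa [abs_sub_comm t s, abs_sub_comm (g t) (g s)]
  have hsub : Icc s t ⊆ I := hI.out hs ht
  obtain ⟨c, hc, hc'⟩ := exists_hasDerivAt_eq_slope g g' hst
    (fun u hu => (hg u (hsub hu)).continuousAt.continuousWithinAt)
    (fun u hu => hg u (hsub (Ioo_subset_Icc_self hu)))
  have h1 : g t - g s = g' c * (t - s) := by
    rw [hc']; field_simp [sub_ne_zero.2 hst.ne']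
  rw [h1, abs_mul]
  exact mul_le_mul_of_nonneg_right (hlow c (hsub (Ioo_subset_Icc_self hc))) (abs_nonneg _)

/-- Under `|g'| ≥ lam > 0` on an interval, `g` is monotone or antitone. -/
theorem Sublevel1_mono {I : Set ℝ} (hI : I.OrdConnected) {g g' : ℝ → ℝ}
    (hg : ∀ s ∈ I, HasDerivAt g (g' s) s) {lam : ℝ} (hlam : 0 < lam)
    (hlow : ∀ s ∈ I, lam ≤ |g' s|) : MonotoneOn g I ∨ AntitoneOn g I := by
  have hconv : Convex ℝ I := hI.convex
  have hcont : ContinuousOn g I := fun s hs => (hg s hs).continuousAt.continuousWithinAt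
  have him : OrdConnected (g' '' I) :=
    hI.image_hasDerivWithinAt fun s hs => (hg s hs).hasDerivWithinAt
  have h0 : (0:ℝ) ∉ g' '' I := by
    rintro ⟨s, hs, h⟩
    have := hlow s hs
    rw [h, abs_zero] at this
    linarith
  have hsign : (∀ s ∈ I, 0 < g' s) ∨ (∀ s ∈ I, g' s < 0) := by
    by_contra hcon
    push Not at hcon
    obtain ⟨⟨s, hs, hs'⟩, ⟨t, ht, ht'⟩⟩ := hcon
    exact h0 (him.out (mem_image_of_mem _ hs) (mem_image_of_mem _ ht) ⟨hs', ht'⟩)
  rcases hsign with h | h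
  · left
    refine monotoneOn_of_deriv_nonneg hconv hcont ?_ ?_
    · intro s hs
      exact (hg s (interior_subset hs)).differentiableAt.differentiableWithinAt
    · intro s hs
      rw [(hg s (interior_subset hs)).deriv]
      exact (h s (interior_subset hs)).le
  · right
    refine antitoneOn_of_deriv_nonpos hconv hcont ?_ ?_
    · intro s hs
      exact (hg s (interior_subset hs)).differentiableAt.differentiableWithinAt
    · intro s hs
      rw [(hg s (interior_subset hs)).deriv]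
      exact (h s (interior_subset hs)).le

/-- One-dimensional sublevel estimate. -/
theorem sublevel1 (n : ℕ) (I : Set ℝ) (hI : I.OrdConnected) (g : ℕ → ℝ → ℝ)
    (hg : ∀ i < n + 1, ∀ s ∈ I, HasDerivAt (g i) (g (i + 1) s) s)
    (lam : ℝ) (hlam : 0 < lam) (hlow : ∀ s ∈ I, lam ≤ |g (n + 1) s|)
    (x : ℝ) (hx : 0 < x) :
    volume {s | s ∈ I ∧ |g 0 s| < lam * x ^ (n + 1)} ≤ ENNReal.ofReal (4 ^ (n + 1) * x) := by
  induction n generalizing I lam with
  | zero =>
    have h : ∀ s ∈ {s | s ∈ I ∧ |g 0 s| < lam * x ^ (0 + 1)},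
        ∀ t ∈ {s | s ∈ I ∧ |g 0 s| < lam * x ^ (0 + 1)}, |t - s| ≤ 2 * x := by
      rintro s ⟨hs, hs'⟩ t ⟨ht, ht'⟩
      have h1 := Sublevel1_mvt hI (hg 0 (by norm_num)) hlow hs ht
      have h2 : |g 0 t - g 0 s| ≤ lam * (2 * x) := by
        rw [zero_add, pow_one] at hs' ht'
        calc |g 0 t - g 0 s| ≤ |g 0 t| + |g 0 s| := abs_sub _ _
          _ ≤ lam * (2 * x) := by linarith
      exact le_of_mul_le_mul_left (h1.trans h2) hlam
    refine (Sublevel1_vol_le h).trans (ENNReal.ofReal_le_ofReal ?_)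
    ring_nf; rfl
  | succ n ih =>
    have hder := hg (n + 1) (by omega)
    have hmono := Sublevel1_mono hI hder hlam hlow
    set Ip : Set ℝ := {s | s ∈ I ∧ lam * x ≤ g (n + 1) s} with hIp
    set Im : Set ℝ := {s | s ∈ I ∧ g (n + 1) s ≤ -(lam * x)} with hIm
    set I0 : Set ℝ := {s | s ∈ I ∧ |g (n + 1) s| < lam * x} with hI0
    have hIpc : Ip.OrdConnected := by
      refine ⟨fun s hs t ht u hu => ?_⟩
      have huI : u ∈ I := hI.out hs.1 ht.1 hu
      refine ⟨huI, ?_⟩
      rcases hmono with h | h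
      · exact hs.2.trans (h hs.1 huI hu.1)
      · exact ht.2.trans (h huI ht.1 hu.2)
    have hImc : Im.OrdConnected := by
      refine ⟨fun s hs t ht u hu => ?_⟩
      have huI : u ∈ I := hI.out hs.1 ht.1 hu
      refine ⟨huI, ?_⟩
      rcases hmono with h | h
      · exact (h huI ht.1 hu.2).trans ht.2
      · exact (h hs.1 huI hu.1).trans hs.2
    have hlx : 0 < lam * x := mul_pos hlam hx
    have hp := ih Ip hIpc (fun i hi s hs => hg i (by omega) s hs.1) (lam * x) hlx
      (fun s hs => hs.2.trans (le_abs_self _))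
    have hm := ih Im hImc (fun i hi s hs => hg i (by omega) s hs.1) (lam * x) hlx
      (fun s hs => by rw [le_abs]; right; linarith [hs.2])
    have h0 : volume I0 ≤ ENNReal.ofReal (2 * (2 * x)) := by
      refine Sublevel1_vol_le ?_
      rintro s ⟨hs, hs'⟩ t ⟨ht, ht'⟩
      have h1 := Sublevel1_mvt hI hder hlow hs ht
      have h2 : |g (n + 1) t - g (n + 1) s| ≤ lam * (2 * x) := by
        calc |g (n + 1) t - g (n + 1) s| ≤ |g (n + 1) t| + |g (n + 1) s| := abs_sub _ _
          _ ≤ lam * (2 * x) := by linarith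
      exact le_of_mul_le_mul_left (h1.trans h2) hlam
    have hpow : lam * x ^ (n + 1 + 1) = lam * x * x ^ (n + 1) := by ring
    have hcover : {s | s ∈ I ∧ |g 0 s| < lam * x ^ (n + 1 + 1)} ⊆
        ({s | s ∈ Ip ∧ |g 0 s| < lam * x * x ^ (n + 1)} ∪
          {s | s ∈ Im ∧ |g 0 s| < lam * x * x ^ (n + 1)}) ∪ I0 := by
      rintro s ⟨hs, hs'⟩
      rw [hpow] at hs'
      by_cases h1 : lam * x ≤ g (n + 1) s
      · exact Or.inl (Or.inl ⟨⟨hs, h1⟩, hs'⟩)
      · by_cases h2 : g (n + 1) s ≤ -(lam * x)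
        · exact Or.inl (Or.inr ⟨⟨hs, h2⟩, hs'⟩)
        · push Not at h1 h2
          exact Or.inr ⟨hs, abs_lt.2 ⟨h2, h1⟩⟩
    refine (measure_mono hcover).trans ?_
    refine (measure_union_le _ _).trans ?_
    refine (add_le_add (measure_union_le _ _) le_rfl).trans ?_
    refine (add_le_add (add_le_add hp hm) h0).trans ?_
    rw [← ENNReal.ofReal_add (by positivity) (by positivity),
      ← ENNReal.ofReal_add (by positivity) (by positivity)]
    refine ENNReal.ofReal_le_ofReal ?_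
    have h4 : (4:ℝ) ≤ 4 ^ (n + 1) * 2 := by
      have : (4:ℝ) ^ 1 ≤ 4 ^ (n + 1) := pow_le_pow_right₀ (by norm_num) (by omega)
      linarith
    calc 4 ^ (n + 1) * x + 4 ^ (n + 1) * x + 2 * (2 * x)
        = (4 ^ (n + 1) * 2 + 4) * x := by ring
      _ ≤ (4 ^ (n + 1) * 2 + 4 ^ (n + 1) * 2) * x := by gcongr
      _ = 4 ^ (n + 1 + 1) * x := by ring

end MKG
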