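import Mathlib

/-! Module MKG/Tr. Equivariant operators between the spaces ℓ²(K × Fin m) and their traces.

`rt`: the sum of squares is reindexed by the bijection (x, i) ↦ (x h, i)
 (`memℓp_gen_iff`, `Summable.comp_injective`, or `Equiv.summable_iff`).
`rt_inner`: ⟪rt h f, g⟫ = ⟪f, rt h⁻¹ g⟫: `lp.inner_eq_tsum`, reindex the sum by (x, i) ↦ (x h⁻¹, i)
 (`Equiv.tsum_eq`).
`Eqv.adjoint`: ⟪C† (rt h f), g⟫ = ⟪rt h f, C g⟫ = ⟪f, rt h⁻¹ (C g)⟫ = ⟪f, C (rt h⁻¹ g)⟫ = ⟪C† f, rt h⁻¹ g⟫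
 = ⟪rt h (C† f), g⟫ (`ext_inner_right`).
-/

namespace Pool.Agent.MKG

open scoped InnerProductSpace

/-- The Hilbert space of square summable functions on `K × Fin m`. -/
abbrev H (K : Type) (m : ℕ) := lp (fun _ : K × Fin m => ℝ) 2

variable {K : Type} [Group K] {m n : ℕ}

/-- The bijection `(x, i) ↦ (x h, i)`. -/
def rtE (h : K) : (K × Fin m) ≃ (K × Fin m) := (Equiv.mulRight h).prodCongr (Equiv.refl _)

theorem rtE_apply (h : K) (p : K × Fin m) : rtE h p = (p.1 * h, p.2) := rfl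

theorem rt_mem (h : K) (f : H K m) : Memℓp (fun p : K × Fin m => (f : K × Fin m → ℝ) (p.1 * h, p.2)) 2 := by
  have h2 : (0 : ℝ) < (2 : ENNReal).toReal := by norm_num
  have hf := (memℓp_gen_iff h2).1 f.2
  rw [memℓp_gen_iff h2]
  exact (rtE h).summable_iff.2 hf

/-- Right translation. -/
def rt (h : K) (f : H K m) : H K m := ⟨fun p => f (p.1 * h, p.2), rt_mem h f⟩

theorem rt_apply (h : K) (f : H K m) (x : K) (i : Fin m) : rt h f (x, i) = f (x * h, i) := rfl

theorem rt_rt (h k : K) (f : H K m) : rt h (rt k f) = rt (h * k) f := by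
  ext p
  obtain ⟨x, i⟩ := p
  rw [rt_apply, rt_apply, rt_apply, mul_assoc]

theorem rt_add (h : K) (f g : H K m) : rt h (f + g) = rt h f + rt h g := by
  ext p
  rfl

theorem rt_smul (h : K) (c : ℝ) (f : H K m) : rt h (c • f) = c • rt h f := by
  ext p
  rfl

theorem rt_inner (h : K) (f g : H K m) : ⟪rt h f, g⟫_ℝ = ⟪f, rt h⁻¹ g⟫_ℝ := by
  rw [lp.inner_eq_tsum, lp.inner_eq_tsum, ← (rtE h).tsum_eq (fun p => ⟪f p, rt h⁻¹ g p⟫_ℝ)]
  refine tsum_congr fun p => ?_
  obtain ⟨x, i⟩ := p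
  rw [rtE_apply, rt_apply, rt_apply, mul_inv_cancel_right]

/-- The operator commutes with right translations. -/
def Eqv (C : H K m →L[ℝ] H K n) : Prop := ∀ h f, C (rt h f) = rt h (C f)

theorem Eqv.adjoint {C : H K m →L[ℝ] H K n} (hC : Eqv C) :
    Eqv (ContinuousLinearMap.adjoint C) := by
  intro h f
  refine ext_inner_right ℝ fun g => ?_
  rw [ContinuousLinearMap.adjoint_inner_left, rt_inner, rt_inner, ← hC,
    ContinuousLinearMap.adjoint_inner_left]

open Classical in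
/-- The basis vector at `(1, i)`. -/
noncomputable def dl (i : Fin m) : H K m := lp.single 2 (1, i) 1

theorem dl_inner (i : Fin m) (f : H K m) : ⟪f, dl i⟫_ℝ = f (1, i) := by
  classical
  rw [dl, lp.inner_single_right]
  simp

theorem dl_norm (i : Fin m) : ‖(dl i : H K m)‖ = 1 := by
  classical
  rw [dl, lp.norm_single (by norm_num)]
  simp

/-- The trace. -/
noncomputable def tr (T : H K m →L[ℝ] H K m) : ℝ := ∑ i, T (dl i) (1, i)

end Pool.Agent.MKG
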