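import Pool.Agent.MKG.Tr

/-! Module MKG/TrComm. The trace of a product.

`tr_comm`: (C D e_j)(1, j) = ⟪C (D e_j), e_j⟫ = ⟪D e_j, C† e_j⟫ = ∑' (x, i), (D e_j)(x, i) * (C† e_j)(x, i), and
 (C† e_j)(x, i) = ⟪C† e_j, δ_(x,i)⟫ = ⟪e_j, C δ_(x,i)⟫ = (C δ_(x,i))(1, j), δ_(x,i) = rt x⁻¹ e_i
 (rt x⁻¹ e_i at (y, i') is e_i (y x⁻¹, i') = [y = x, i' = i]), so it is (rt x⁻¹ (C e_i))(1, j) = (C e_i)(x⁻¹, j).
 So tr (C D) = ∑ j, ∑' (x, i), (D e_j)(x, i) * (C e_i)(x⁻¹, j), similarly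
 tr (D C) = ∑ i, ∑' (x, j), (C e_i)(x, j) * (D e_j)(x⁻¹, i). The sum over K × Fin m is a finite sum over
 Fin m of sums over K (summability of products of square summable families: `lp.summable_inner`,
 then `Summable.tsum_prod` or `tsum_prod'`, `tsum_fintype`); substitute x by x⁻¹ in the sums over K
 (`Equiv.inv K`), and exchange the finite sums.
-/

namespace Pool.Agent.MKG

open scoped InnerProductSpace

variable {K : Type} [Group K] {m n : ℕ}

private theorem tc_coef {a b : ℕ} {C : H K a →L[ℝ] H K b} (hC : Eqv C) (j : Fin b) (x : K)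
    (i : Fin a) :
    (ContinuousLinearMap.adjoint C (dl j)) (x, i) = C (dl i) (x⁻¹, j) := by
  have h1 : (ContinuousLinearMap.adjoint C (dl j)) (x, i)
      = (rt x (ContinuousLinearMap.adjoint C (dl j))) (1, i) := by
    rw [rt_apply, one_mul]
  rw [h1, ← dl_inner, ← hC.adjoint x (dl j), ContinuousLinearMap.adjoint_inner_left, rt_inner,
    real_inner_comm, dl_inner, rt_apply, one_mul]

private theorem tc_val {a b : ℕ} {C : H K a →L[ℝ] H K b} (D : H K b →L[ℝ] H K a)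
    (hC : Eqv C) (j : Fin b) :
    (C (D (dl j))) (1, j) = ∑ i : Fin a, ∑' x : K, (D (dl j)) (x, i) * C (dl i) (x⁻¹, j) := by
  rw [← dl_inner, ← ContinuousLinearMap.adjoint_inner_right, lp.inner_eq_tsum]
  have hs := lp.summable_inner (𝕜 := ℝ) (D (dl j)) (ContinuousLinearMap.adjoint C (dl j))
  have h2 : (fun p : K × Fin a => ⟪(D (dl j)) p, (ContinuousLinearMap.adjoint C (dl j)) p⟫_ℝ)
      = fun p : K × Fin a => (D (dl j)) p * C (dl p.2) (p.1⁻¹, j) := by
    funext p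
    obtain ⟨x, i⟩ := p
    rw [tc_coef hC j x i]
    simp only [RCLike.inner_apply, conj_trivial]
    ring
  rw [h2] at hs ⊢
  have h3 : ∑' p : K × Fin a, (D (dl j)) p * C (dl p.2) (p.1⁻¹, j)
      = ∑' q : Fin a × K, (D (dl j)) (q.2, q.1) * C (dl q.1) (q.2⁻¹, j) :=
    ((Equiv.prodComm (Fin a) K).tsum_eq
      (fun p : K × Fin a => (D (dl j)) p * C (dl p.2) (p.1⁻¹, j))).symm
  have hs' : Summable (fun q : Fin a × K => (D (dl j)) (q.2, q.1) * C (dl q.1) (q.2⁻¹, j)) :=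
    ((Equiv.prodComm (Fin a) K).summable_iff
      (f := fun p : K × Fin a => (D (dl j)) p * C (dl p.2) (p.1⁻¹, j))).mpr hs
  rw [h3, hs'.tsum_prod, tsum_fintype]

theorem tr_comm {C : H K m →L[ℝ] H K n} {D : H K n →L[ℝ] H K m} (hC : Eqv C) (hD : Eqv D) :
    tr (C ∘L D) = tr (D ∘L C) := by
  unfold tr
  simp only [ContinuousLinearMap.comp_apply]
  rw [Finset.sum_congr rfl (fun j _ => tc_val D hC j),
    Finset.sum_congr rfl (fun i _ => tc_val C hD i), Finset.sum_comm]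
  refine Finset.sum_congr rfl fun i _ => Finset.sum_congr rfl fun j _ => ?_
  rw [← (Equiv.inv K).tsum_eq]
  refine tsum_congr fun x => ?_
  simp only [Equiv.inv_apply, inv_inv]
  ring

end Pool.Agent.MKG
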